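import Pool.Agent.GD64.Ord

/-!
# GD64/Basic: the trace and the conditional expectations
-/

namespace GD64

namespace TF

variable {A : Type*} [CStarAlgebra A] [PartialOrder A] [StarOrderedRing A] (T : TF A)

theorem t_nonneg {a : A} (h : 0 ≤ a) : 0 ≤ T.t a := by
  obtain ⟨b, rfl⟩ := CStarAlgebra.nonneg_iff_eq_star_mul_self.1 h
  exact T.t_pos b

theorem t_mono {a b : A} (h : a ≤ b) : T.t a ≤ T.t b := by
  have h1 := T.t_nonneg (sub_nonneg.2 h)
  rw [map_sub] at h1
  linarith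

theorem t_cyc (a b c : A) : T.t (a * b * c) = T.t (c * a * b) := by
  rw [T.t_comm, ← mul_assoc]

theorem t_mul_nonneg {a b : A} (ha : 0 ≤ a) (hb : 0 ≤ b) : 0 ≤ T.t (a * b) := by
  obtain ⟨c, rfl⟩ := CStarAlgebra.nonneg_iff_eq_star_mul_self.1 hb
  rw [← mul_assoc, T.t_cyc, ]
  exact T.t_nonneg (by simpa [mul_assoc] using star_right_conjugate_nonneg ha c)

theorem t_mul_mono {a b c : A} (h : a ≤ b) (hc : 0 ≤ c) : T.t (a * c) ≤ T.t (b * c) := by
  have h1 := T.t_mul_nonneg (sub_nonneg.2 h) hc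
  rw [sub_mul, map_sub] at h1
  linarith

theorem eq_zero_of_t {a : A} (h : 0 ≤ a) (h0 : T.t a = 0) : a = 0 := by
  obtain ⟨b, rfl⟩ := CStarAlgebra.nonneg_iff_eq_star_mul_self.1 h
  rw [T.t_faith b h0, mul_zero]

theorem t_proj_conj {p : A} (hp : IsStarProjection p) (a : A) :
    T.t (p * a * p) = T.t (a * p) := by
  rw [T.t_cyc, hp.isIdempotentElem.eq, T.t_comm]

theorem t_proj_conj_le {p a : A} (hp : IsStarProjection p) (ha : 0 ≤ a) :
    T.t (p * a * p) ≤ T.t a := by
  rw [T.t_proj_conj hp]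
  have h1 : 0 ≤ T.t (a * (1 - p)) := T.t_mul_nonneg ha hp.one_sub.nonneg
  rw [mul_sub, mul_one, map_sub] at h1
  linarith

theorem t_proj_mono {p q a : A} (hp : IsStarProjection p) (hq : IsStarProjection q)
    (hpq : q * p = p) (ha : 0 ≤ a) : T.t (p * a * p) ≤ T.t (q * a * q) := by
  rw [T.t_proj_conj hp, T.t_proj_conj hq]
  have h1 : 0 ≤ T.t (a * (q - p)) :=
    T.t_mul_nonneg ha (sub_nonneg.2 (proj_le_of_mul hp hq hpq))
  rw [mul_sub, map_sub] at h1
  linarith

/-- Cauchy-Schwarz. -/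
theorem t_cs (a b : A) :
    (T.t (star a * b)) ^ 2 ≤ T.t (star a * a) * T.t (star b * b) := by
  have hsym : T.t (star b * a) = T.t (star a * b) := by
    rw [← T.t_star (star a * b), star_mul, star_star]
  have key : ∀ x : ℝ, 0 ≤ T.t (star b * b) * (x * x) + 2 * T.t (star a * b) * x +
      T.t (star a * a) := by
    intro x
    have h := T.t_pos (a + x • b)
    have h2 : star (a + x • b) * (a + x • b) =
        star a * a + x • (star a * b) + x • (star b * a) + (x * x) • (star b * b) := by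
      simp only [star_add, star_smul, star_trivial, add_mul, mul_add, smul_mul_assoc,
        mul_smul_comm, smul_smul, smul_add]
      abel
    rw [h2] at h
    simp only [map_add, map_smul, smul_eq_mul, hsym] at h
    linarith
  have hd := discrim_le_zero key
  rw [discrim] at hd
  nlinarith [hd]

theorem t_sum {ι : Type*} (s : Finset ι) (x : ι → A) :
    T.t (∑ i ∈ s, x i) = ∑ i ∈ s, T.t (x i) := map_sum _ _ _

/-- Uniqueness of the conditional expectation. -/
theorem E_eq {n : ℕ} {a u : A} (hu : u ∈ T.F n)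
    (h : ∀ b ∈ T.F n, T.t (u * b) = T.t (a * b)) : T.E n a = u := by
  have hd : T.E n a - u ∈ T.F n := sub_mem (T.E_mem n a) hu
  have h1 : T.t ((T.E n a - u) * star (T.E n a - u)) = 0 := by
    have hs : star (T.E n a - u) ∈ T.F n := star_mem hd
    rw [sub_mul, map_sub, T.E_spec n a _ hs, h _ hs, sub_self]
  rw [T.t_comm] at h1
  exact sub_eq_zero.1 (T.t_faith _ h1)

theorem F_le {m n : ℕ} (h : m ≤ n) {a : A} (ha : a ∈ T.F m) : a ∈ T.F n := T.F_mono h ha

theorem real_smul_mem {n : ℕ} {a : A} (c : ℝ) (ha : a ∈ T.F n) : c • a ∈ T.F n := by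
  have h : c • a = (c : ℂ) • a := (Complex.coe_smul c a).symm
  rw [h]
  exact SMulMemClass.smul_mem _ ha

theorem E_add (n : ℕ) (a b : A) : T.E n (a + b) = T.E n a + T.E n b := by
  refine T.E_eq (add_mem (T.E_mem n a) (T.E_mem n b)) fun c hc => ?_
  rw [add_mul, add_mul, map_add, map_add, T.E_spec n a c hc, T.E_spec n b c hc]

theorem E_sub (n : ℕ) (a b : A) : T.E n (a - b) = T.E n a - T.E n b := by
  refine T.E_eq (sub_mem (T.E_mem n a) (T.E_mem n b)) fun c hc => ?_
  rw [sub_mul, sub_mul, map_sub, map_sub, T.E_spec n a c hc, T.E_spec n b c hc]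

theorem E_neg (n : ℕ) (a : A) : T.E n (-a) = -T.E n a := by
  refine T.E_eq (neg_mem (T.E_mem n a)) fun c hc => ?_
  rw [neg_mul, neg_mul, map_neg, map_neg, T.E_spec n a c hc]

theorem E_zero (n : ℕ) : T.E n 0 = 0 :=
  T.E_eq (zero_mem _) fun _ _ => rfl

theorem E_smul (n : ℕ) (c : ℝ) (a : A) : T.E n (c • a) = c • T.E n a := by
  refine T.E_eq (T.real_smul_mem c (T.E_mem n a)) fun b hb => ?_
  rw [smul_mul_assoc, smul_mul_assoc, map_smul, map_smul, T.E_spec n a b hb]

theorem E_smulC (n : ℕ) (c : ℂ) (a : A) : T.E n (c • a) = c • T.E n a := by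
  refine T.E_eq (SMulMemClass.smul_mem _ (T.E_mem n a)) fun b hb => ?_
  rw [smul_mul_assoc, smul_mul_assoc, ← mul_smul_comm, ← mul_smul_comm,
    T.E_spec n a _ (SMulMemClass.smul_mem _ hb)]

theorem E_sum {ι : Type*} (n : ℕ) (s : Finset ι) (x : ι → A) :
    T.E n (∑ i ∈ s, x i) = ∑ i ∈ s, T.E n (x i) := by
  refine T.E_eq (sum_mem fun i _ => T.E_mem n (x i)) fun b hb => ?_
  rw [Finset.sum_mul, Finset.sum_mul, map_sum, map_sum]
  exact Finset.sum_congr rfl fun i _ => T.E_spec n (x i) b hb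

theorem E_of_mem {n : ℕ} {a : A} (h : a ∈ T.F n) : T.E n a = a :=
  T.E_eq h fun _ _ => rfl

theorem E_one (n : ℕ) : T.E n 1 = 1 := T.E_of_mem (one_mem _)

theorem E_mul_left {n : ℕ} {b : A} (hb : b ∈ T.F n) (a : A) :
    T.E n (b * a) = b * T.E n a := by
  refine T.E_eq (mul_mem hb (T.E_mem n a)) fun c hc => ?_
  rw [mul_assoc, T.t_comm, mul_assoc, T.E_spec n a _ (mul_mem hc hb), mul_assoc, T.t_comm b,
    mul_assoc]

theorem E_mul_right {n : ℕ} {b : A} (hb : b ∈ T.F n) (a : A) :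
    T.E n (a * b) = T.E n a * b := by
  refine T.E_eq (mul_mem (T.E_mem n a) hb) fun c hc => ?_
  rw [mul_assoc, T.E_spec n a _ (mul_mem hb hc), mul_assoc]

theorem E_star (n : ℕ) (a : A) : T.E n (star a) = star (T.E n a) := by
  refine T.E_eq (star_mem (T.E_mem n a)) fun b hb => ?_
  have h1 : T.t (star (T.E n a) * b) = T.t (T.E n a * star b) := by
    rw [← T.t_star, star_mul, star_star, T.t_comm]
  have h2 : T.t (star a * b) = T.t (a * star b) := by
    rw [← T.t_star, star_mul, star_star, T.t_comm]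
  rw [h1, h2, T.E_spec n a _ (star_mem hb)]

theorem E_isSelfAdjoint {n : ℕ} {a : A} (h : IsSelfAdjoint a) : IsSelfAdjoint (T.E n a) := by
  rw [isSelfAdjoint_iff, ← T.E_star, h.star_eq]

/-- positivity: cut `E n a` at level `0`; on the negative part the trace is both `≥ 0` and `≤ 0`. -/
theorem E_nonneg {n : ℕ} {a : A} (h : 0 ≤ a) : 0 ≤ T.E n a := by
  have hsa : IsSelfAdjoint (T.E n a) := T.E_isSelfAdjoint h.isSelfAdjoint
  obtain ⟨f, hf, hfp, hcom, h1, h2⟩ := T.cut n (T.E n a) (T.E_mem n a) hsa 0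
  have hcf : Commute (T.E n a) f := hcom _ (Commute.refl _)
  rw [zero_smul] at h1 h2
  have hnn : 0 ≤ T.t ((1 - f) * T.E n a * (1 - f)) := by
    rw [T.t_proj_conj hfp.one_sub, T.E_spec n a _ (sub_mem (one_mem _) hf)]
    exact T.t_mul_nonneg h hfp.one_sub.nonneg
  have h3 : 0 ≤ -((1 - f) * T.E n a * (1 - f)) := neg_nonneg.2 h2
  have h4 : T.t (-((1 - f) * T.E n a * (1 - f))) = 0 := by
    have h5 := T.t_nonneg h3
    rw [map_neg] at h5 ⊢
    linarith
  have h6 : (1 - f) * T.E n a * (1 - f) = 0 := neg_eq_zero.1 (T.eq_zero_of_t h3 h4)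
  have hff : f * f = f := hfp.isIdempotentElem.eq
  have h7 : T.E n a = f * T.E n a * f + (1 - f) * T.E n a * (1 - f) := by
    have e1 : f * T.E n a * f = T.E n a * f := by
      rw [← hcf.eq, mul_assoc, hff]
    have e2 : (1 - f) * T.E n a * (1 - f) = T.E n a - T.E n a * f := by
      have : (1 - f) * T.E n a = T.E n a * (1 - f) := by
        rw [sub_mul, one_mul, mul_sub, mul_one, hcf.eq]
      rw [this, mul_assoc, hfp.one_sub.isIdempotentElem.eq, mul_sub, mul_one]
    rw [e1, e2]; abel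
  rw [h7, h6, add_zero]
  exact h1

theorem E_mono {n : ℕ} {a b : A} (h : a ≤ b) : T.E n a ≤ T.E n b := by
  have h1 := T.E_nonneg (n := n) (sub_nonneg.2 h)
  rw [T.E_sub] at h1
  exact sub_nonneg.1 h1

theorem t_E (n : ℕ) (a : A) : T.t (T.E n a) = T.t a := by
  have h := T.E_spec n a 1 (one_mem _)
  rwa [mul_one, mul_one] at h

theorem E_E {m n : ℕ} (h : m ≤ n) (a : A) : T.E m (T.E n a) = T.E m a := by
  symm
  refine T.E_eq (T.E_mem m _) fun b hb => ?_
  rw [T.E_spec m _ b hb, T.E_spec n a b (T.F_le h hb)]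

end TF

end GD64
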