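import Pool.Agent.GD64.Basic

/-!
# GD64/ReExc: excess of the real part

`exc T a s = t((|a| - s)_+)` written with the functional calculus of `a* a`.
1. `t_mul_le_abs`: for a projection `f`, `P = cfc sqrt (y* y)`, `ε > 0`, `Z = (P + ε)⁻¹`:
   `0 ≤ (f - y Z)(P + ε)(f - Z y*) = f(P+ε)f - f y* - y f + y Z y*`, so
   `2 t(f y) ≤ t(f (P+ε) f) + t(Z P²) ≤ t(P) + ε t(1) + t(P)`; `ε → 0`.
2. `ψ` continuous, `0` on `[0, s/2]`, `1` on `[s, ∞)`, linear between; `u = ψ(|a|)`:
   `a = a u + a (1-u)`, `‖a(1-u)‖ ≤ s` (`|a|(1-ψ(|a|)) ≤ s`), `|a u| = |a| ψ(|a|) ≤ 2(|a| - s/2)_+`.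
3. `h = (a + a*)/2 ∈ F n`, `f` the cut of `h` at `s`: `(h - s)_+ = f (h-s) f` (or
   `t((h-s)_+) ≤ t(f(h-s))`: `(h-s)_+` commutes with `f` and `(1-f)(h-s)_+ = 0`), and
   `t(f(h-s)) = t(f a) - s t(f) = t(f a u) + t(f a (1-u)) - s t(f) ≤ t(|a u|)`,
   because `t(f b) = t(f b f) ≤ ‖b‖ t(f)`.
-/

namespace GD64

namespace TF

variable {A : Type*} [CStarAlgebra A] [PartialOrder A] [StarOrderedRing A] (T : TF A)

/-- `t((|a| - s)_+)`. -/
noncomputable def exc (a : A) (s : ℝ) : ℝ :=
  T.t (cfc (fun r : ℝ => max (Real.sqrt r - s) 0) (star a * a))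

set_option linter.unusedSectionVars false

namespace ReExcAux

theorem spec_nonneg (y : A) {r : ℝ} (hr : r ∈ spectrum ℝ (star y * y)) : 0 ≤ r :=
  spectrum_nonneg_of_nonneg (star_mul_self_nonneg y) hr

theorem sa (y : A) : IsSelfAdjoint (star y * y) := IsSelfAdjoint.star_mul_self y

/-- real functions of a self-adjoint element are self-adjoint -/
theorem star_cfc (f : ℝ → ℝ) (h : A) : star (cfc f h) = cfc f h := by
  rw [← cfc_star]
  simp

theorem abs_eps {f : A} (hf : IsStarProjection f) (y : A) {ε : ℝ} (hε : 0 < ε) :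
    2 * T.t (f * y) ≤ 2 * T.t (cfc Real.sqrt (star y * y)) + ε * T.t 1 := by
  obtain ⟨h, hh⟩ : ∃ h, h = star y * y := ⟨_, rfl⟩
  have hsa : IsSelfAdjoint h := hh ▸ sa y
  have hsp : ∀ r ∈ spectrum ℝ h, 0 ≤ r := fun r hr => spec_nonneg y (hh ▸ hr)
  rw [← hh]
  have hpos : ∀ r : ℝ, 0 < Real.sqrt r + ε := fun r => by
    have := Real.sqrt_nonneg r
    linarith
  have hcB : Continuous fun r : ℝ => Real.sqrt r + ε := by fun_prop
  have hcZ : Continuous fun r : ℝ => (Real.sqrt r + ε)⁻¹ :=
    hcB.inv₀ fun r => (hpos r).ne'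
  have hcs : Continuous fun r : ℝ => Real.sqrt r := Real.continuous_sqrt
  obtain ⟨B, hB⟩ : ∃ B : A, B = cfc (fun r : ℝ => Real.sqrt r + ε) h := ⟨_, rfl⟩
  obtain ⟨Z, hZ⟩ : ∃ Z : A, Z = cfc (fun r : ℝ => (Real.sqrt r + ε)⁻¹) h := ⟨_, rfl⟩
  have hBZ : B * Z = 1 := by
    rw [hB, hZ, ← cfc_mul _ _ h hcB.continuousOn hcZ.continuousOn]
    have : (fun r : ℝ => (Real.sqrt r + ε) * (Real.sqrt r + ε)⁻¹) = fun _ => 1 := by
      funext r
      exact mul_inv_cancel₀ (hpos r).ne'
    rw [this, cfc_const_one ℝ h]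
  have hZB : Z * B = 1 := by
    rw [hB, hZ, ← cfc_mul _ _ h hcZ.continuousOn hcB.continuousOn]
    have : (fun r : ℝ => (Real.sqrt r + ε)⁻¹ * (Real.sqrt r + ε)) = fun _ => 1 := by
      funext r
      exact inv_mul_cancel₀ (hpos r).ne'
    rw [this, cfc_const_one ℝ h]
  have hZs : star Z = Z := by rw [hZ]; exact star_cfc _ _
  have hBnn : 0 ≤ B := by
    rw [hB]
    exact cfc_nonneg fun r _ => (hpos r).le
  have hfs : star f = f := hf.isSelfAdjoint
  have hff : f * f = f := hf.isIdempotentElem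
  -- the positive element
  have h1 : 0 ≤ T.t (star (f - Z * star y) * B * (f - Z * star y)) :=
    T.t_nonneg (star_left_conjugate_nonneg hBnn _)
  have h2 : star (f - Z * star y) * B * (f - Z * star y) =
      f * B * f - f * star y - y * f + y * Z * star y := by
    rw [star_sub, star_mul, star_star, hfs, hZs]
    calc (f - y * Z) * B * (f - Z * star y) =
        f * B * f - f * (B * Z) * star y - y * (Z * B) * f +
          y * (Z * B) * Z * star y := by noncomm_ring
      _ = _ := by rw [hBZ, hZB]; simp only [mul_one]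
  rw [h2, map_add, map_sub, map_sub] at h1
  have h3 : T.t (f * star y) = T.t (f * y) := by
    rw [← T.t_star (f * star y), star_mul, star_star, hfs, T.t_comm]
  have h4 : T.t (y * f) = T.t (f * y) := T.t_comm _ _
  have h5 : T.t (f * B * f) ≤ T.t B := T.t_proj_conj_le hf hBnn
  have h6 : T.t B = T.t (cfc Real.sqrt h) + ε * T.t 1 := by
    rw [hB, cfc_add_const ε Real.sqrt h hcs.continuousOn hsa, map_add, Algebra.algebraMap_eq_smul_one,
      map_smul, smul_eq_mul]
  have h7 : T.t (y * Z * star y) ≤ T.t (cfc Real.sqrt h) := by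
    have e1 : T.t (y * Z * star y) = T.t (h * Z) := by
      rw [T.t_cyc, hh]
    have e2 : h * Z = cfc (fun r : ℝ => r * (Real.sqrt r + ε)⁻¹) h := by
      rw [cfc_mul (fun r : ℝ => r) _ h continuousOn_id hcZ.continuousOn, cfc_id' ℝ h hsa, ← hZ]
    rw [e1, e2]
    refine T.t_mono (cfc_mono (fun r hr => ?_) ?_ hcs.continuousOn)
    · have e3 := hsp r hr
      rw [← div_eq_mul_inv, div_le_iff₀ (hpos r)]
      have e4 := Real.mul_self_sqrt e3
      have e5 := Real.sqrt_nonneg r
      nlinarith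
    · exact (continuous_id.mul hcZ).continuousOn
  rw [h3, h4] at h1
  linarith

end ReExcAux

open ReExcAux

theorem t_mul_le_abs {f : A} (hf : IsStarProjection f) (y : A) :
    T.t (f * y) ≤ T.t (cfc Real.sqrt (star y * y)) := by
  by_contra hc
  push Not at hc
  have h1 : 0 ≤ T.t 1 := by
    have := T.t_pos 1
    simpa using this
  obtain ⟨g, hg⟩ : ∃ g, g = T.t (f * y) - T.t (cfc Real.sqrt (star y * y)) := ⟨_, rfl⟩
  have hg0 : 0 < g := by rw [hg]; linarith
  have h2 := abs_eps T hf y (ε := g / (T.t 1 + 1)) (by positivity)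
  have h3 : g / (T.t 1 + 1) * T.t 1 ≤ g := by
    rw [div_mul_eq_mul_div, div_le_iff₀ (by linarith)]
    nlinarith
  linarith

namespace ReExcAux

/-- the cut-off function -/
noncomputable def psi (s : ℝ) (r : ℝ) : ℝ := min 1 (max (2 * Real.sqrt r / s - 1) 0)

theorem psi_cont (s : ℝ) : Continuous (psi s) := by
  unfold psi
  fun_prop

theorem psi_nonneg (s r : ℝ) : 0 ≤ psi s r := le_min zero_le_one (le_max_right _ _)

theorem psi_le_one (s r : ℝ) : psi s r ≤ 1 := min_le_left _ _

theorem psi_mul_le {s : ℝ} (hs : 0 < s) (r : ℝ) :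
    psi s r * Real.sqrt r ≤ 2 * max (Real.sqrt r - s / 2) 0 := by
  have hx := Real.sqrt_nonneg r
  obtain ⟨x, hxd⟩ : ∃ x, x = Real.sqrt r := ⟨_, rfl⟩
  unfold psi
  rw [← hxd] at hx ⊢
  rcases le_total x (s / 2) with h | h
  · have h1 : 2 * x / s - 1 ≤ 0 := by
      rw [sub_nonpos, div_le_one hs]; linarith
    rw [max_eq_right h1, max_eq_right (by linarith : x - s / 2 ≤ 0), min_eq_right zero_le_one]
    simp
  · rw [max_eq_left (by linarith : 0 ≤ x - s / 2)]
    have h1 : 0 ≤ 2 * x / s - 1 := by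
      rw [sub_nonneg, one_le_div hs]; linarith
    rw [max_eq_left h1]
    rcases le_total x s with h2 | h2
    · have h3 : min 1 (2 * x / s - 1) * x ≤ (2 * x / s - 1) * x :=
        mul_le_mul_of_nonneg_right (min_le_right _ _) hx
      refine h3.trans ?_
      have h4 : (2 * x / s - 1) * x ≤ (2 * x / s - 1) * s := mul_le_mul_of_nonneg_left h2 h1
      refine h4.trans (le_of_eq ?_)
      field_simp
    · have h3 : min 1 (2 * x / s - 1) * x ≤ 1 * x :=
        mul_le_mul_of_nonneg_right (min_le_left _ _) hx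
      linarith

theorem psi_mul_le' {s : ℝ} (hs : 0 < s) (r : ℝ) : (1 - psi s r) * Real.sqrt r ≤ s := by
  have hx := Real.sqrt_nonneg r
  rcases le_total (Real.sqrt r) s with h | h
  · have h1 := psi_nonneg s r
    nlinarith
  · have h1 : psi s r = 1 := by
      unfold psi
      refine min_eq_left (le_max_of_le_left ?_)
      rw [le_sub_iff_add_le, le_div_iff₀ hs]
      linarith
    rw [h1]
    linarith

theorem conj_sub_smul {p h : A} (hp : p * p = p) (s : ℝ) :
    p * (h - s • (1 : A)) * p = p * h * p - s • p := by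
  rw [mul_sub, sub_mul, mul_smul_comm, mul_one, smul_mul_assoc, hp]

/-- a positive element commuting with a projection -/
theorem part_eq_zero {g g' f : A} (hg : 0 ≤ g) (hf : IsStarProjection f)
    (hc : Commute f g) (hc' : Commute f g') (hgg : g' * g = 0) (h : f * (g - g') * f ≤ 0) :
    f * g = 0 := by
  have hff : f * f = f := hf.isIdempotentElem
  have hfs : star f = f := hf.isSelfAdjoint
  have hgs : star g = g := (IsSelfAdjoint.of_nonneg hg).star_eq
  -- multiply by the square root of `g`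
  have hs : 0 ≤ CFC.sqrt g := CFC.sqrt_nonneg g
  have hss : CFC.sqrt g * CFC.sqrt g = g := CFC.sqrt_mul_sqrt_self g hg
  have h1 : star g * (f * (g - g') * f) * g ≤ star g * 0 * g := star_left_conjugate_le_conjugate h _
  rw [hgs, mul_zero, zero_mul] at h1
  have h2 : g * (f * (g - g') * f) * g = (f * g) * g * (f * g) := by
    have e1 : f * g = g * f := hc.eq
    have e2 : f * g' = g' * f := hc'.eq
    calc g * (f * (g - g') * f) * g = (g * f) * (g - g') * (f * g) := by simp only [mul_assoc]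
      _ = (f * g) * (g - g') * (g * f) := by rw [e1]
      _ = (f * g) * (g * g - g' * g) * f := by noncomm_ring
      _ = (f * g) * g * (g * f) := by rw [hgg]; noncomm_ring
      _ = _ := by rw [← e1]
  rw [h2] at h1
  have h3 : 0 ≤ star (CFC.sqrt g * (f * g)) * (CFC.sqrt g * (f * g)) := star_mul_self_nonneg _
  have h4 : star (CFC.sqrt g * (f * g)) * (CFC.sqrt g * (f * g)) = (f * g) * g * (f * g) := by
    rw [star_mul, star_mul, hfs, hgs, (IsSelfAdjoint.of_nonneg hs).star_eq]
    calc g * f * CFC.sqrt g * (CFC.sqrt g * (f * g)) =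
        g * f * (CFC.sqrt g * CFC.sqrt g) * (f * g) := by simp only [mul_assoc]
      _ = _ := by rw [hss, hc.eq]
  have h5 : star (CFC.sqrt g * (f * g)) * (CFC.sqrt g * (f * g)) = 0 :=
    le_antisymm (h4 ▸ h1) h3
  have h6 : CFC.sqrt g * (f * g) = 0 := (CStarRing.star_mul_self_eq_zero_iff _).1 h5
  have h7 : star (f * g) * (f * g) = 0 := by
    have e3 : g * (f * g) = 0 := by
      rw [← hss, mul_assoc, hss, h6, mul_zero]
    have e1 : f * g = g * f := hc.eq
    rw [star_mul, hfs, hgs]
    calc g * f * (f * g) = g * (f * f) * g := by simp only [mul_assoc]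
      _ = g * (f * g) := by rw [hff, mul_assoc]
      _ = 0 := e3
  exact (CStarRing.star_mul_self_eq_zero_iff _).1 h7

end ReExcAux

/-- excess of the real part. -/
theorem exc_re {n : ℕ} {a : A} (ha : a ∈ T.F n) {s : ℝ} (hs : 0 < s) :
    T.t (cfc (fun r : ℝ => max (r - s) 0) ((2⁻¹ : ℝ) • (a + star a))) ≤
      2 * T.exc a (s / 2) := by
  obtain ⟨h, hh⟩ : ∃ h, h = (2⁻¹ : ℝ) • (a + star a) := ⟨_, rfl⟩
  rw [← hh]
  have hsa : IsSelfAdjoint h := by
    rw [hh, IsSelfAdjoint, star_smul, star_add, star_star, add_comm (star a) a]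
    simp
  have hmem : h ∈ T.F n := by
    rw [hh]
    exact T.real_smul_mem _ (add_mem ha (star_mem ha))
  obtain ⟨f, hfm, hf, hcom, hf1, hf2⟩ := T.cut n h hmem hsa s
  have hff : f * f = f := hf.isIdempotentElem
  have hfs : star f = f := hf.isSelfAdjoint
  have hcg : Continuous fun r : ℝ => max (r - s) 0 := by fun_prop
  have hcg' : Continuous fun r : ℝ => max (s - r) 0 := by fun_prop
  obtain ⟨g, hg⟩ : ∃ g : A, g = cfc (fun r : ℝ => max (r - s) 0) h := ⟨_, rfl⟩
  obtain ⟨g', hg'⟩ : ∃ g' : A, g' = cfc (fun r : ℝ => max (s - r) 0) h := ⟨_, rfl⟩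
  rw [← hg]
  have hgnn : 0 ≤ g := by rw [hg]; exact cfc_nonneg fun r _ => le_max_right _ _
  have hgnn' : 0 ≤ g' := by rw [hg']; exact cfc_nonneg fun r _ => le_max_right _ _
  have hcomg : Commute g h := by
    have := cfc_commute_cfc (fun r : ℝ => max (r - s) 0) id h
    rwa [cfc_id ℝ h hsa, ← hg] at this
  have hcomg' : Commute g' h := by
    have := cfc_commute_cfc (fun r : ℝ => max (s - r) 0) id h
    rwa [cfc_id ℝ h hsa, ← hg'] at this
  have hfg : Commute f g := (hcom g hcomg).symm
  have hfg' : Commute f g' := (hcom g' hcomg').symm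
  have hprod : ∀ r : ℝ, max (r - s) 0 * max (s - r) 0 = 0 := by
    intro r
    rcases le_total r s with h1 | h1
    · rw [max_eq_right (by linarith : r - s ≤ 0), zero_mul]
    · rw [max_eq_right (by linarith : s - r ≤ 0), mul_zero]
  have hgg : g * g' = 0 := by
    rw [hg, hg', ← cfc_mul _ _ h hcg.continuousOn hcg'.continuousOn]
    have : (fun r : ℝ => max (r - s) 0 * max (s - r) 0) = fun _ => 0 := funext hprod
    rw [this, cfc_const_zero ℝ h]
  have hgg' : g' * g = 0 := by
    rw [hg, hg', ← cfc_mul _ _ h hcg'.continuousOn hcg.continuousOn]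
    have : (fun r : ℝ => max (s - r) 0 * max (r - s) 0) = fun _ => 0 :=
      funext fun r => by rw [mul_comm]; exact hprod r
    rw [this, cfc_const_zero ℝ h]
  have hdiff : g - g' = h - s • (1 : A) := by
    rw [hg, hg', ← cfc_sub _ _ h hcg.continuousOn hcg'.continuousOn]
    have : (fun r : ℝ => max (r - s) 0 - max (s - r) 0) = fun r => r - s := by
      funext r
      rcases le_total r s with h1 | h1
      · rw [max_eq_right (by linarith : r - s ≤ 0), max_eq_left (by linarith : 0 ≤ s - r)]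
        ring
      · rw [max_eq_left (by linarith : 0 ≤ r - s), max_eq_right (by linarith : s - r ≤ 0)]
        ring
    rw [this, cfc_sub (fun r : ℝ => r) (fun _ => s) h continuousOn_id continuousOn_const,
      cfc_id' ℝ h hsa, cfc_const s h hsa, Algebra.algebraMap_eq_smul_one]
  -- `(1 - f) g = 0`
  have hz1 : (1 - f) * g = 0 := by
    refine part_eq_zero hgnn hf.one_sub ((Commute.one_left g).sub_left hfg)
      ((Commute.one_left g').sub_left hfg') hgg' ?_
    rw [hdiff, conj_sub_smul hf.one_sub.isIdempotentElem]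
    exact sub_nonpos.2 hf2
  have hz2 : f * g' = 0 := by
    refine part_eq_zero hgnn' hf hfg' hfg hgg ?_
    have e1 : g' - g = -(h - s • (1 : A)) := by rw [← hdiff, neg_sub]
    rw [e1, mul_neg, neg_mul, conj_sub_smul hff, neg_sub]
    exact sub_nonpos.2 hf1
  have htg : T.t g = T.t (f * h) - s * T.t f := by
    have e1 : g = f * g + (1 - f) * g := by noncomm_ring
    have e2 : f * g = f * (g - g') := by rw [mul_sub, hz2, sub_zero]
    rw [e1, hz1, add_zero, e2, hdiff, mul_sub, mul_smul_comm, mul_one, map_sub, map_smul,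
      smul_eq_mul]
  have htfh : T.t (f * h) = T.t (f * a) := by
    have e1 : T.t (f * star a) = T.t (f * a) := by
      rw [← T.t_star (f * star a), star_mul, star_star, hfs, T.t_comm]
    rw [hh, mul_smul_comm, map_smul, mul_add, map_add, e1, smul_eq_mul]
    ring
  rw [htg, htfh]
  -- the splitting of `a`
  obtain ⟨k, hk⟩ : ∃ k, k = star a * a := ⟨_, rfl⟩
  have hksa : IsSelfAdjoint k := hk ▸ sa a
  have hksp : ∀ r ∈ spectrum ℝ k, 0 ≤ r := fun r hr => spec_nonneg a (hk ▸ hr)
  have hcψ := psi_cont s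
  have hcψ1 : Continuous fun r => 1 - psi s r := continuous_const.sub hcψ
  obtain ⟨u, hu⟩ : ∃ u : A, u = cfc (psi s) k := ⟨_, rfl⟩
  have hus : star u = u := by rw [hu]; exact star_cfc _ _
  have hu1 : 1 - u = cfc (fun r => 1 - psi s r) k := by
    rw [cfc_sub _ _ k continuousOn_const hcψ.continuousOn, cfc_const_one ℝ k hksa, hu]
  have hconj : ∀ φ : ℝ → ℝ, Continuous φ →
      star (a * cfc φ k) * (a * cfc φ k) = cfc (fun r => φ r * r * φ r) k := by
    intro φ hφ
    rw [cfc_mul (fun r => φ r * r) φ k (hφ.mul continuous_id).continuousOn hφ.continuousOn,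
      cfc_mul φ (fun r => r) k hφ.continuousOn continuousOn_id, cfc_id' ℝ k hksa, star_mul,
      star_cfc]
    calc cfc φ k * star a * (a * cfc φ k) = cfc φ k * (star a * a) * cfc φ k := by
          simp only [mul_assoc]
      _ = _ := by rw [← hk]
  have hpart1 : T.t (f * (a * u)) ≤ 2 * T.exc a (s / 2) := by
    refine (T.t_mul_le_abs hf (a * u)).trans ?_
    rw [hu, hconj (psi s) hcψ]
    have hcc : Continuous fun r => psi s r * r * psi s r := (hcψ.mul continuous_id).mul hcψ
    rw [← cfc_comp' Real.sqrt (fun r => psi s r * r * psi s r) k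
      Real.continuous_sqrt.continuousOn hcc.continuousOn hksa]
    have e1 : 2 * T.exc a (s / 2) =
        T.t (cfc (fun r : ℝ => 2 * max (Real.sqrt r - s / 2) 0) k) := by
      unfold exc
      rw [← hk, cfc_const_mul (2 : ℝ) (fun r : ℝ => max (Real.sqrt r - s / 2) 0) k
        (by fun_prop), map_smul, smul_eq_mul]
    rw [e1]
    refine T.t_mono (cfc_mono (fun r hr => ?_) (Real.continuous_sqrt.comp hcc).continuousOn
      (by fun_prop))
    have e2 := hksp r hr
    have e3 : Real.sqrt (psi s r * r * psi s r) = psi s r * Real.sqrt r := by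
      have e4 : psi s r * r * psi s r = (psi s r * Real.sqrt r) ^ 2 := by
        rw [mul_pow, Real.sq_sqrt e2]; ring
      rw [e4, Real.sqrt_sq (mul_nonneg (psi_nonneg s r) (Real.sqrt_nonneg r))]
    rw [e3]
    exact psi_mul_le hs r
  have hpart2 : T.t (f * (a * (1 - u))) ≤ s * T.t f := by
    obtain ⟨b, hb⟩ : ∃ b, b = a * (1 - u) := ⟨_, rfl⟩
    rw [← hb]
    have e1 : star b * b ≤ (s ^ 2) • (1 : A) := by
      have e0 : (s ^ 2) • (1 : A) = cfc (fun _ : ℝ => s ^ 2) k := by
        rw [cfc_const (s ^ 2) k hksa, Algebra.algebraMap_eq_smul_one]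
      have hcc : Continuous fun r => (1 - psi s r) * r * (1 - psi s r) :=
        (hcψ1.mul continuous_id).mul hcψ1
      rw [hb, hu1, hconj (fun r => 1 - psi s r) hcψ1, e0]
      refine cfc_mono (fun r hr => ?_) hcc.continuousOn continuousOn_const
      have e2 := hksp r hr
      have e3 := psi_mul_le' hs r
      have e4 : 0 ≤ (1 - psi s r) * Real.sqrt r :=
        mul_nonneg (by linarith [psi_le_one s r]) (Real.sqrt_nonneg r)
      have e5 : (1 - psi s r) * r * (1 - psi s r) = ((1 - psi s r) * Real.sqrt r) ^ 2 := by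
        rw [mul_pow, Real.sq_sqrt e2]; ring
      rw [e5]
      exact pow_le_pow_left₀ e4 e3 2
    have e2 : 0 ≤ T.t (star (s • f - b * f) * (s • f - b * f)) := T.t_pos _
    have e3 : star (s • f - b * f) * (s • f - b * f) =
        (s ^ 2) • f - s • (f * b * f) - s • (f * star b * f) + f * (star b * b) * f := by
      rw [star_sub, star_smul, star_mul, hfs, star_trivial, sub_mul, mul_sub, mul_sub,
        smul_mul_smul_comm, hff, smul_mul_assoc, mul_smul_comm, ← mul_assoc f b f]
      have : f * star b * f = f * star b * f := rfl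
      have e4 : f * star b * (b * f) = f * (star b * b) * f := by simp only [mul_assoc]
      rw [e4, sq]
      abel
    have e4 : T.t (f * (star b * b) * f) ≤ s ^ 2 * T.t f := by
      have e5 := proj_conj_mono hf e1
      rw [mul_smul_comm, mul_one, smul_mul_assoc, hff] at e5
      have e6 := T.t_mono e5
      rwa [map_smul, smul_eq_mul] at e6
    have e5 : T.t (f * b * f) = T.t (f * b) := by
      rw [T.t_comm, ← mul_assoc, hff]
    have e6 : T.t (f * star b * f) = T.t (f * b) := by
      rw [T.t_comm, ← mul_assoc, hff, ← T.t_star (f * star b), star_mul, star_star, hfs, T.t_comm]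
    rw [e3, map_add, map_sub, map_sub, map_smul, map_smul, map_smul, e5, e6, smul_eq_mul,
      smul_eq_mul] at e2
    have e7 : 2 * s * T.t (f * b) ≤ 2 * s * (s * T.t f) := by nlinarith
    exact le_of_mul_le_mul_left e7 (by positivity)
  have hsum : T.t (f * a) = T.t (f * (a * u)) + T.t (f * (a * (1 - u))) := by
    rw [← map_add]
    congr 1
    noncomm_ring
  rw [hsum]
  linarith

/-- multiplication by a unimodular complex number does not change the excess. -/
theorem exc_smul (a : A) (s : ℝ) {w : ℂ} (hw : ‖w‖ = 1) : T.exc (w • a) s = T.exc a s := by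
  unfold exc
  have h1 : star (w • a) * (w • a) = star a * a := by
    rw [star_smul, smul_mul_smul_comm]
    have h2 : star w * w = 1 := by
      have : star w * w = ((‖w‖ ^ 2 : ℝ) : ℂ) := by
        rw [← Complex.normSq_eq_norm_sq]
        exact Complex.normSq_eq_conj_mul_self.symm
      rw [this, hw]
      simp
    rw [h2, one_smul]
  rw [h1]

end TF

end GD64
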