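import Pool.Agent.GD64.SAMain
import Pool.Agent.GD64.ReExc

/-!
# GD64/CMain: the decomposition for bounded martingales

`x = h + i g`, `h = (x + x*)/2`, `g = (x - x*)/(2i) = ((-i) x + ((-i) x)*)/2`. The excess conditions of `saMain`
for `h, g, -h, -g` follow from `exc_re` applied to `x, -i x, -x, i x` and `exc_smul`, with `D_L`:
`t((±h - l 2^L)_+) ≤ 2 exc (x n) (l 2^L/2) ≤ l 2^L D_L` (hypothesis).
Differences to martingales: `y_0 = x_0`, `z_0 = 0`, `y_{k+1} = y_k + (dy^h_k + i dy^g_k)`, etc.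
`df y 0 = y 0`, `df y (k+1) = y (k+1) - y k`. The term `|x_0|²` (`x_0 ∈ F 0`): by `cheb` for
`|x_0|²`, or cut of `|x_0|² = x_0* x_0` at level `(l 2^L)²`: on the cut `f`,
`(|x_0| - l 2^L/2)_+ ≥ (l 2^L/2) f`, so `t(f) ≤ 2 D_L`.
-/

namespace GD64

universe u

/-- differences of a sequence, the first one being the sequence itself at time `0`. -/
def df {A : Type*} [Sub A] (y : ℕ → A) : ℕ → A
  | 0 => y 0
  | k + 1 => y (k + 1) - y k

section aux

variable {A : Type*} [CStarAlgebra A] [PartialOrder A] [StarOrderedRing A]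

/-- real part of `w x`. -/
noncomputable def rp (w : ℂ) (x : ℕ → A) (n : ℕ) : A :=
  (2⁻¹ : ℝ) • (w • x n + star (w • x n))

theorem rp_mart (T : TF A) (w : ℂ) {x : ℕ → A} (hx : Mart T x) : Mart T (rp w x) := by
  refine ⟨fun k => ?_, fun k => ?_⟩
  · have h1 : w • x k ∈ T.F k := SMulMemClass.smul_mem _ (hx.mem k)
    exact T.real_smul_mem _ (add_mem h1 (star_mem h1))
  · unfold rp
    rw [T.E_smul, T.E_add, T.E_star, T.E_smulC, hx.ce]

theorem rp_sa (w : ℂ) (x : ℕ → A) (n : ℕ) : IsSelfAdjoint (rp w x n) := by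
  unfold rp
  rw [isSelfAdjoint_iff, star_smul, star_trivial, star_add, star_star, add_comm]

theorem rp_norm {w : ℂ} (hw : ‖w‖ = 1) {x : ℕ → A} {c : ℝ} (hc : ∀ n, ‖x n‖ ≤ c) (n : ℕ) :
    ‖rp w x n‖ ≤ c := by
  unfold rp
  rw [norm_smul]
  have h1 : ‖w • x n‖ ≤ c := by
    rw [norm_smul, hw, one_mul]
    exact hc n
  have h2 : ‖w • x n + star (w • x n)‖ ≤ c + c := by
    refine (norm_add_le _ _).trans ?_
    rw [norm_star]
    linarith
  rw [Real.norm_of_nonneg (by norm_num)]
  linarith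

theorem rp_neg (w : ℂ) (x : ℕ → A) (n : ℕ) : -rp w x n = rp (-w) x n := by
  unfold rp
  rw [← smul_neg, neg_add, ← star_neg, neg_smul]

theorem rp_exc (T : TF A) {w : ℂ} (hw : ‖w‖ = 1) {x : ℕ → A} (hx : Mart T x) {l : ℝ}
    (hl : 0 < l) {D : ℕ → ℝ}
    (h : ∀ n L, 2 * T.exc (x n) (l * 2 ^ L / 2) ≤ l * 2 ^ L * D L) (n L : ℕ) :
    T.t (cfc (fun s : ℝ => max (s - l * 2 ^ L) 0) (rp w x n)) ≤ l * 2 ^ L * D L := by
  have h1 : w • x n ∈ T.F n := SMulMemClass.smul_mem _ (hx.mem n)
  have hs : 0 < l * 2 ^ L := by positivity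
  have h2 := T.exc_re h1 hs
  rw [T.exc_smul _ _ hw] at h2
  exact h2.trans (h n L)

theorem rp_exc_neg (T : TF A) {w : ℂ} (hw : ‖w‖ = 1) {x : ℕ → A} (hx : Mart T x) {l : ℝ}
    (hl : 0 < l) {D : ℕ → ℝ}
    (h : ∀ n L, 2 * T.exc (x n) (l * 2 ^ L / 2) ≤ l * 2 ^ L * D L) (n L : ℕ) :
    T.t (cfc (fun s : ℝ => max (-s - l * 2 ^ L) 0) (rp w x n)) ≤ l * 2 ^ L * D L := by
  have h1 := rp_exc T (w := -w) (by rwa [norm_neg]) hx hl h n L
  rw [← rp_neg] at h1
  have h2 : cfc (fun s : ℝ => max (-s - l * 2 ^ L) 0) (rp w x n) =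
      cfc (fun s : ℝ => max (s - l * 2 ^ L) 0) (-rp w x n) := by
    refine cfc_comp_neg (fun s : ℝ => max (s - l * 2 ^ L) 0) (rp w x n) ?_ (rp_sa w x n)
    exact ((continuous_id.sub continuous_const).max continuous_const).continuousOn
  rw [h2]
  exact h1

/-- `x = h + i g`. -/
theorem rp_add (x : ℕ → A) (n : ℕ) :
    rp 1 x n + Complex.I • rp (-Complex.I) x n = x n := by
  have h1 : star (-Complex.I) = Complex.I := by simp
  have e1 : rp 1 x n = (2⁻¹ : ℝ) • (x n + star (x n)) := by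
    unfold rp
    rw [one_smul]
  have e2 : Complex.I • rp (-Complex.I) x n = (2⁻¹ : ℝ) • (x n - star (x n)) := by
    unfold rp
    rw [star_smul, h1, smul_comm Complex.I (2⁻¹ : ℝ), smul_add, smul_smul, smul_smul,
      mul_neg, Complex.I_mul_I, neg_neg, one_smul, neg_one_smul, sub_eq_add_neg]
  rw [e1, e2, ← smul_add]
  have e3 : x n + star (x n) + (x n - star (x n)) = (2 : ℝ) • x n := by
    rw [two_smul]
    abel
  rw [e3, smul_smul]
  norm_num

/-- A projection below. -/
theorem below {p q S : A} {c : ℝ} (hp : IsStarProjection p) (hq : IsStarProjection q)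
    (hqp : q * p = p) (hc : 0 ≤ c) (h : q * S * q ≤ c • (1 : A)) :
    p * S * p ≤ c • (1 : A) := by
  have hpq := proj_mul_comm hp hq hqp
  have h1 := proj_conj_mono hp h
  have e1 : p * (q * S * q) * p = p * S * p := by
    calc p * (q * S * q) * p = (p * q) * S * (q * p) := by simp only [mul_assoc]
      _ = p * S * p := by rw [hpq, hqp]
  have e2 : p * (c • (1 : A)) * p = c • p := by
    rw [mul_smul_comm, mul_one, smul_mul_assoc, hp.isIdempotentElem.eq]
  rw [e1, e2] at h1
  refine h1.trans (smul_le_smul_of_nonneg_left ?_ hc)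
  exact sub_nonneg.1 hp.one_sub.nonneg

/-- the projection for the time `0`. -/
theorem cut0 (T : TF A) {a : A} (ha : a ∈ T.F 0) {s d : ℝ} (hs : 0 < s)
    (h : 2 * T.exc a (s / 2) ≤ s * d) :
    ∃ p ∈ T.F 0, IsStarProjection p ∧ T.t (1 - p) ≤ d ∧
      p * (star a * a) * p ≤ (s ^ 2) • (1 : A) := by
  set v : A := star a * a with hv
  have hv0 : 0 ≤ v := star_mul_self_nonneg a
  have hvm : v ∈ T.F 0 := mul_mem (star_mem ha) ha
  have hvs : IsSelfAdjoint v := hv0.isSelfAdjoint
  obtain ⟨f, hf, hfp, hcom, h1, h2⟩ := T.cut 0 v hvm hvs (s ^ 2)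
  have hff : f * f = f := hfp.isIdempotentElem.eq
  have hcv : Commute v f := hcom v (Commute.refl v)
  have hle1 : (1 : A) - f ≤ 1 := by
    rw [sub_le_self_iff]
    exact hfp.nonneg
  refine ⟨1 - f, sub_mem (one_mem _) hf, hfp.one_sub, ?_, ?_⟩
  · rw [sub_sub_cancel]
    -- the function `m`
    set M : A := cfc (fun r : ℝ => (Real.sqrt r + s)⁻¹) v with hM
    set P : A := cfc (fun r : ℝ => Real.sqrt r - s) v with hP
    set U : A := cfc (fun r : ℝ => max (Real.sqrt r - s / 2) 0) v with hU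
    have hc1 : ContinuousOn (fun r : ℝ => (Real.sqrt r + s)⁻¹) (spectrum ℝ v) := by
      refine ContinuousOn.inv₀ (Real.continuous_sqrt.add continuous_const).continuousOn ?_
      intro r _
      have := Real.sqrt_nonneg r
      positivity
    have hc2 : ContinuousOn (fun r : ℝ => Real.sqrt r - s) (spectrum ℝ v) :=
      (Real.continuous_sqrt.sub continuous_const).continuousOn
    have hc3 : ContinuousOn (fun r : ℝ => max (Real.sqrt r - s / 2) 0) (spectrum ℝ v) :=
      ((Real.continuous_sqrt.sub continuous_const).max continuous_const).continuousOn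
    have hc4 : ContinuousOn (fun r : ℝ => r - s ^ 2) (spectrum ℝ v) :=
      (continuous_id.sub continuous_const).continuousOn
    have hM0 : 0 ≤ M := cfc_nonneg fun r _ => by
      have := Real.sqrt_nonneg r
      positivity
    have hsubv : cfc (fun r : ℝ => r - s ^ 2) v = v - (s ^ 2) • (1 : A) := by
      rw [cfc_sub (fun r : ℝ => r) (fun _ => s ^ 2) v, cfc_id' ℝ v, cfc_const (s ^ 2) v,
        Algebra.algebraMap_eq_smul_one]
    have hPM : P = (v - (s ^ 2) • (1 : A)) * M := by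
      rw [← hsubv, hM, ← cfc_mul _ _ v hc4 hc1, hP]
      refine cfc_congr fun r hr => ?_
      have hr0 : 0 ≤ r := spectrum_nonneg_of_nonneg hv0 hr
      have h3 := Real.sqrt_nonneg r
      have h4 : Real.sqrt r * Real.sqrt r = r := Real.mul_self_sqrt hr0
      have h5 : Real.sqrt r + s ≠ 0 := by positivity
      show Real.sqrt r - s = (r - s ^ 2) * (Real.sqrt r + s)⁻¹
      rw [← div_eq_mul_inv, eq_div_iff h5]
      linear_combination h4
    have hMv : Commute M v := by
      have h3 := cfc_commute_cfc (fun r : ℝ => (Real.sqrt r + s)⁻¹) (id : ℝ → ℝ) v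
      rwa [cfc_id ℝ v] at h3
    have hMf : Commute M f := hcom M hMv
    have hk1 : 0 ≤ (v - (s ^ 2) • (1 : A)) * f := by
      have e : (v - (s ^ 2) • (1 : A)) * f = f * v * f - (s ^ 2) • f := by
        rw [sub_mul, smul_mul_assoc, one_mul, ← hcv.eq, mul_assoc v f f, hff]
      rw [e]
      exact sub_nonneg.2 h1
    have hk2 : 0 ≤ P * f := by
      have e : P * f = ((v - (s ^ 2) • (1 : A)) * f) * M := by
        rw [hPM, mul_assoc, hMf.eq, mul_assoc]
      rw [e]
      refine commute_mul_nonneg hk1 hM0 ?_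
      refine Commute.mul_left (Commute.sub_left hMv.symm ?_) hMf.symm
      exact (Commute.one_left M).smul_left _
    have hUP : P + (s / 2) • (1 : A) ≤ U := by
      have e : P + (s / 2) • (1 : A) = cfc (fun r : ℝ => Real.sqrt r - s + s / 2) v := by
        rw [cfc_add_const (s / 2) (fun r : ℝ => Real.sqrt r - s) v hc2,
          Algebra.algebraMap_eq_smul_one]
      rw [e]
      refine cfc_mono (fun r _ => ?_) ?_ hc3
      · have := le_max_left (Real.sqrt r - s / 2) 0
        linarith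
      · exact (hc2.add continuousOn_const)
    have hk3 : (s / 2) • f ≤ f * U * f := by
      have h3 := proj_conj_mono hfp hUP
      have hPf : f * P * f = P * f := by
        have hPv : Commute P f := by
          refine hcom P ?_
          rw [hPM]
          refine Commute.mul_left (Commute.sub_left (Commute.refl v) ?_) hMv
          exact (Commute.one_left v).smul_left _
        rw [← hPv.eq, mul_assoc, hff]
      have e : f * (P + (s / 2) • (1 : A)) * f = P * f + (s / 2) • f := by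
        rw [mul_add, add_mul, hPf, mul_smul_comm, mul_one, smul_mul_assoc, hff]
      rw [e] at h3
      refine le_trans ?_ h3
      exact le_add_of_nonneg_left hk2
    have hU0 : 0 ≤ U := cfc_nonneg fun r _ => le_max_right _ _
    have h3 := T.t_mono hk3
    have h4 := T.t_proj_conj_le hfp hU0
    rw [map_smul, smul_eq_mul] at h3
    have h5 : T.exc a (s / 2) = T.t U := rfl
    rw [h5] at h
    have h6 : s * T.t f ≤ s * d := by linarith
    exact le_of_mul_le_mul_left h6 hs
  · exact h2.trans (smul_le_smul_of_nonneg_left hle1 (by positivity))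

/-- assembled sequence. -/
def asm (x0 : A) (a : ℕ → A) : ℕ → A
  | 0 => x0
  | k + 1 => asm x0 a k + a k

theorem asm_mart (T : TF A) {x0 : A} (h0 : x0 ∈ T.F 0) {a : ℕ → A}
    (ha : ∀ k, a k ∈ T.F (k + 1)) (he : ∀ k, T.E k (a k) = 0) : Mart T (asm x0 a) := by
  have hm : ∀ k, asm x0 a k ∈ T.F k := by
    intro k
    induction k with
    | zero => exact h0
    | succ k ih => exact add_mem (T.F_le (Nat.le_succ k) ih) (ha k)
  refine ⟨hm, fun k => ?_⟩
  show T.E k (asm x0 a k + a k) = asm x0 a k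
  rw [T.E_add, he, add_zero, T.E_of_mem (hm k)]

theorem df_asm (x0 : A) (a : ℕ → A) (k : ℕ) : df (asm x0 a) (k + 1) = a k := by
  show asm x0 a k + a k - asm x0 a k = a k
  rw [add_sub_cancel_left]

/-- the sum of the squares. -/
theorem sum_df (x0 : A) (a : ℕ → A) (N : ℕ) :
    ∑ k ∈ Finset.range (N + 1), star (df (asm x0 a) k) * df (asm x0 a) k =
      star x0 * x0 + ∑ k ∈ Finset.range N, star (a k) * a k := by
  rw [Finset.sum_range_succ', add_comm]
  congr 1
  refine Finset.sum_congr rfl fun k _ => ?_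
  rw [df_asm]

theorem sum_df' (x0 : A) (a : ℕ → A) (N : ℕ) :
    ∑ k ∈ Finset.range (N + 1), df (asm x0 a) k * star (df (asm x0 a) k) =
      x0 * star x0 + ∑ k ∈ Finset.range N, a k * star (a k) := by
  rw [Finset.sum_range_succ', add_comm]
  congr 1
  refine Finset.sum_congr rfl fun k _ => ?_
  rw [df_asm]

theorem I_sq (a : A) : star (Complex.I • a) * (Complex.I • a) = star a * a := by
  rw [star_smul, smul_mul_smul_comm]
  have h : star Complex.I * Complex.I = 1 := by simp
  rw [h, one_smul]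

theorem I_sq' (a : A) : (Complex.I • a) * star (Complex.I • a) = a * star a := by
  rw [star_smul, smul_mul_smul_comm]
  have h : Complex.I * star Complex.I = 1 := by simp
  rw [h, one_smul]

/-- sum of squares of `a + i b`. -/
theorem sum_sq_le (a b : ℕ → A) (N : ℕ) :
    ∑ k ∈ Finset.range N, star (a k + Complex.I • b k) * (a k + Complex.I • b k) ≤
      (2 : ℝ) • (∑ k ∈ Finset.range N, star (a k) * a k) +
        (2 : ℝ) • (∑ k ∈ Finset.range N, star (b k) * b k) := by
  rw [Finset.smul_sum, Finset.smul_sum, ← Finset.sum_add_distrib]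
  refine Finset.sum_le_sum fun k _ => ?_
  have h := sq_add_le (a k) (Complex.I • b k)
  rwa [I_sq] at h

theorem sum_sq_le' (a b : ℕ → A) (N : ℕ) :
    ∑ k ∈ Finset.range N, (a k + Complex.I • b k) * star (a k + Complex.I • b k) ≤
      (2 : ℝ) • (∑ k ∈ Finset.range N, a k * star (a k)) +
        (2 : ℝ) • (∑ k ∈ Finset.range N, b k * star (b k)) := by
  rw [Finset.smul_sum, Finset.smul_sum, ← Finset.sum_add_distrib]
  refine Finset.sum_le_sum fun k _ => ?_
  have h := sq_add_le (star (a k)) (star (Complex.I • b k))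
  rw [star_star, star_star, I_sq', ← star_add, star_star] at h
  exact h

/-- meet of three. -/
theorem meet3 (T : TF A) {N : ℕ} {p0 p1 p2 : A} (m0 : p0 ∈ T.F N) (m1 : p1 ∈ T.F N)
    (m2 : p2 ∈ T.F N) (h0 : IsStarProjection p0) (h1 : IsStarProjection p1)
    (h2 : IsStarProjection p2) :
    ∃ p ∈ T.F N, IsStarProjection p ∧ p0 * p = p ∧ p1 * p = p ∧ p2 * p = p ∧
      T.t (1 - p) ≤ T.t (1 - p0) + T.t (1 - p1) + T.t (1 - p2) := by
  obtain ⟨q, hq, hqp, a1, a2, _, a4⟩ := T.meet N p0 p1 m0 m1 h0 h1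
  obtain ⟨p, hp, hpp, b1, b2, _, b4⟩ := T.meet N q p2 hq m2 hqp h2
  refine ⟨p, hp, hpp, ?_, ?_, b2, by linarith⟩
  · rw [← b1, ← mul_assoc, a1]
  · rw [← b1, ← mul_assoc, a2]

end aux

theorem cMain (K : ℝ) (hK : 1 ≤ K) : ∃ C : ℝ, 0 < C ∧
    ∀ (A : Type u) [CStarAlgebra A] [PartialOrder A] [StarOrderedRing A] (T : TF A)
      (_ : WLim T) (l : ℝ) (_ : 0 < l) (x : ℕ → A) (_ : Mart T x)
      (_ : ∃ c : ℝ, ∀ n, ‖x n‖ ≤ c)
      (D : ℕ → ℝ) (_ : ∀ j, 0 ≤ D j) (_ : T.t 1 ≤ D 0)
      (_ : ∀ n L, 2 * T.exc (x n) (l * 2 ^ L / 2) ≤ l * 2 ^ L * D L)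
      (_ : ∀ j, 2 * D (j + 1) ≤ D j) (_ : ∀ j, D j ≤ K * D (j + 1)),
      ∃ y z : ℕ → A, Mart T y ∧ Mart T z ∧ (∀ k, y k + z k = x k) ∧
        (∀ L, 1 ≤ L → ∀ N, ∃ p ∈ T.F N, IsStarProjection p ∧ T.t (1 - p) ≤ C * D L ∧
          p * (∑ k ∈ Finset.range (N + 1), star (df y k) * df y k) * p ≤
            (C * (l * 2 ^ L) ^ 2) • (1 : A)) ∧
        (∀ L, 1 ≤ L → ∀ N, ∃ p ∈ T.F N, IsStarProjection p ∧ T.t (1 - p) ≤ C * D L ∧
          p * (∑ k ∈ Finset.range (N + 1), df z k * star (df z k)) * p ≤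
            (C * (l * 2 ^ L) ^ 2) • (1 : A)) := by
  obtain ⟨C, hC, H⟩ := saMain.{u} K hK
  refine ⟨4 * C + 1, by positivity, ?_⟩
  intro A _ _ _ T hW l hl x hx hb D hD h1 he hD1 hD2
  obtain ⟨c, hc⟩ := hb
  have n1 : ‖(1 : ℂ)‖ = 1 := norm_one
  have nI : ‖(-Complex.I : ℂ)‖ = 1 := by rw [norm_neg, Complex.norm_I]
  obtain ⟨yh, zh, yhm, zhm, yhe, zhe, hsum, yhL, zhL⟩ := H A T hW l hl (rp 1 x) (rp_mart T 1 hx)
    (rp_sa 1 x) ⟨c, rp_norm n1 hc⟩ D hD h1 (rp_exc T n1 hx hl he) (rp_exc_neg T n1 hx hl he) hD1 hD2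
  obtain ⟨yg, zg, ygm, zgm, yge, zge, gsum, ygL, zgL⟩ := H A T hW l hl (rp (-Complex.I) x)
    (rp_mart T _ hx) (rp_sa _ x) ⟨c, rp_norm nI hc⟩ D hD h1 (rp_exc T nI hx hl he)
    (rp_exc_neg T nI hx hl he) hD1 hD2
  have hm : ∀ {a b : ℕ → A}, (∀ k, a k ∈ T.F (k + 1)) → (∀ k, b k ∈ T.F (k + 1)) →
      ∀ k, a k + Complex.I • b k ∈ T.F (k + 1) := fun ha hb k =>
    add_mem (ha k) (SMulMemClass.smul_mem _ (hb k))
  have hE : ∀ {a b : ℕ → A}, (∀ k, T.E k (a k) = 0) → (∀ k, T.E k (b k) = 0) →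
      ∀ k, T.E k (a k + Complex.I • b k) = 0 := fun ha hb k => by
    rw [T.E_add, T.E_smulC, ha, hb, smul_zero, add_zero]
  have hcut : ∀ L, ∃ p ∈ T.F 0, IsStarProjection p ∧ T.t (1 - p) ≤ D L ∧
      p * (star (x 0) * x 0) * p ≤ ((l * 2 ^ L) ^ 2) • (1 : A) := fun L =>
    cut0 T (hx.mem 0) (by positivity) (he 0 L)
  refine ⟨asm (x 0) (fun k => yh k + Complex.I • yg k), asm 0 (fun k => zh k + Complex.I • zg k),
    asm_mart T (hx.mem 0) (hm yhm ygm) (hE yhe yge),
    asm_mart T (zero_mem _) (hm zhm zgm) (hE zhe zge), ?_, ?_, ?_⟩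
  · intro k
    induction k with
    | zero => exact add_zero _
    | succ k ih =>
      show (asm (x 0) (fun k => yh k + Complex.I • yg k) k + (yh k + Complex.I • yg k)) +
        (asm 0 (fun k => zh k + Complex.I • zg k) k + (zh k + Complex.I • zg k)) = x (k + 1)
      have e1 := hsum k
      have e2 := gsum k
      have e3 : dd (rp 1 x) k + Complex.I • dd (rp (-Complex.I) x) k = x (k + 1) - x k := by
        have e4 := rp_add x (k + 1)
        have e5 := rp_add x k
        calc dd (rp 1 x) k + Complex.I • dd (rp (-Complex.I) x) k =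
            (rp 1 x (k + 1) + Complex.I • rp (-Complex.I) x (k + 1)) -
              (rp 1 x k + Complex.I • rp (-Complex.I) x k) := by
              unfold dd
              rw [smul_sub]
              abel
          _ = x (k + 1) - x k := by rw [e4, e5]
      rw [← e1, ← e2, smul_add] at e3
      calc (asm (x 0) (fun k => yh k + Complex.I • yg k) k + (yh k + Complex.I • yg k)) +
        (asm 0 (fun k => zh k + Complex.I • zg k) k + (zh k + Complex.I • zg k)) =
          (asm (x 0) (fun k => yh k + Complex.I • yg k) k +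
            asm 0 (fun k => zh k + Complex.I • zg k) k) +
          (yh k + zh k + (Complex.I • yg k + Complex.I • zg k)) := by abel
        _ = x (k + 1) := by
          rw [ih, e3]
          abel
  · intro L hL N
    obtain ⟨p0, m0, q0, t0, b0⟩ := hcut L
    obtain ⟨p1, m1, q1, t1, b1⟩ := yhL L hL N
    obtain ⟨p2, m2, q2, t2, b2⟩ := ygL L hL N
    obtain ⟨p, mp, qp, c0, c1, c2, tp⟩ := meet3 T (T.F_le (Nat.zero_le N) m0) m1 m2 q0 q1 q2
    refine ⟨p, mp, qp, ?_, ?_⟩
    · have := mul_nonneg hC.le (hD L)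
      have : (4 * C + 1) * D L = 4 * (C * D L) + D L := by ring
      linarith
    · rw [sum_df]
      have d0 := below qp q0 c0 (by positivity) b0
      have d1 := below qp q1 c1 (by positivity) b1
      have d2 := below qp q2 c2 (by positivity) b2
      have hle := proj_conj_mono qp (sum_sq_le yh yg N)
      rw [mul_add, add_mul] at hle ⊢
      rw [mul_smul_comm, mul_smul_comm, smul_mul_assoc, smul_mul_assoc] at hle
      refine (add_le_add d0 (hle.trans (add_le_add
        (smul_le_smul_of_nonneg_left d1 zero_le_two)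
        (smul_le_smul_of_nonneg_left d2 zero_le_two)))).trans (le_of_eq ?_)
      rw [smul_smul, ← add_smul, ← add_smul]
      congr 1
      ring
  · intro L hL N
    obtain ⟨p1, m1, q1, t1, b1⟩ := zhL L hL N
    obtain ⟨p2, m2, q2, t2, b2⟩ := zgL L hL N
    obtain ⟨p, mp, qp, c0, c1, c2, tp⟩ := meet3 T m1 m1 m2 q1 q1 q2
    refine ⟨p, mp, qp, ?_, ?_⟩
    · have := mul_nonneg hC.le (hD L)
      have : (4 * C + 1) * D L = 4 * (C * D L) + D L := by ring
      have := hD L
      linarith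
    · rw [sum_df']
      have d1 := below qp q1 c1 (by positivity) b1
      have d2 := below qp q2 c2 (by positivity) b2
      have hle := proj_conj_mono qp (sum_sq_le' zh zg N)
      rw [zero_mul, zero_add]
      rw [mul_add, add_mul] at hle
      rw [mul_smul_comm, mul_smul_comm, smul_mul_assoc, smul_mul_assoc] at hle
      refine (hle.trans (add_le_add
        (smul_le_smul_of_nonneg_left d1 zero_le_two)
        (smul_le_smul_of_nonneg_left d2 zero_le_two))).trans ?_
      rw [smul_smul, ← add_smul]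
      refine smul_le_smul_of_nonneg_right ?_ zero_le_one
      have : 0 ≤ (l * 2 ^ L) ^ 2 := by positivity
      linarith

end GD64
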