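import Pool.Agent.GD64.SAMainS
import Pool.Agent.GD64.CMain

/-!
# GD64/CMainS: as `cMain`, without uniform boundedness (stage 2)

Copy the proof of `cMain`, with `saMainS` in place of `saMain`.
-/

namespace GD64

universe u

theorem cMainS (K : ℝ) (hK : 1 ≤ K) : ∃ C : ℝ, 0 < C ∧
    ∀ (A : Type u) [CStarAlgebra A] [PartialOrder A] [StarOrderedRing A] (T : TF A)
      (_ : WLim T) (l : ℝ) (_ : 0 < l) (x : ℕ → A) (_ : Mart T x)
      (D : ℕ → ℝ) (_ : ∀ j, 0 ≤ D j) (_ : T.t 1 ≤ D 0)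
      (_ : ∀ n L, 2 * T.exc (x n) (l * 2 ^ L / 2) ≤ l * 2 ^ L * D L)
      (_ : ∀ j, 2 * D (j + 1) ≤ D j) (_ : ∀ j, D j ≤ K * D (j + 1)),
      ∃ y z : ℕ → A, Mart T y ∧ Mart T z ∧ (∀ k, y k + z k = x k) ∧
        (∀ L, 1 ≤ L → ∀ N, ∃ p ∈ T.F N, IsStarProjection p ∧ T.t (1 - p) ≤ C * D L ∧
          p * (∑ k ∈ Finset.range (N + 1), star (df y k) * df y k) * p ≤
            (C * (l * 2 ^ L) ^ 2) • (1 : A)) ∧
        (∀ L, 1 ≤ L → ∀ N, ∃ p ∈ T.F N, IsStarProjection p ∧ T.t (1 - p) ≤ C * D L ∧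
          p * (∑ k ∈ Finset.range (N + 1), df z k * star (df z k)) * p ≤
            (C * (l * 2 ^ L) ^ 2) • (1 : A)) := by
  obtain ⟨C, hC, H⟩ := saMainS.{u} K hK
  refine ⟨4 * C + 1, by positivity, ?_⟩
  intro A _ _ _ T hW l hl x hx D hD h1 he hD1 hD2
  have n1 : ‖(1 : ℂ)‖ = 1 := norm_one
  have nI : ‖(-Complex.I : ℂ)‖ = 1 := by rw [norm_neg, Complex.norm_I]
  obtain ⟨yh, zh, yhm, zhm, yhe, zhe, hsum, yhL, zhL⟩ := H A T hW l hl (rp 1 x) (rp_mart T 1 hx)
    (rp_sa 1 x) D hD h1 (rp_exc T n1 hx hl he) (rp_exc_neg T n1 hx hl he) hD1 hD2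
  obtain ⟨yg, zg, ygm, zgm, yge, zge, gsum, ygL, zgL⟩ := H A T hW l hl (rp (-Complex.I) x)
    (rp_mart T _ hx) (rp_sa _ x) D hD h1 (rp_exc T nI hx hl he)
    (rp_exc_neg T nI hx hl he) hD1 hD2
  have hm : ∀ {a b : ℕ → A}, (∀ k, a k ∈ T.F (k + 1)) → (∀ k, b k ∈ T.F (k + 1)) →
      ∀ k, a k + Complex.I • b k ∈ T.F (k + 1) := fun ha hb k =>
    add_mem (ha k) (SMulMemClass.smul_mem _ (hb k))
  have hE : ∀ {a b : ℕ → A}, (∀ k, T.E k (a k) = 0) → (∀ k, T.E k (b k) = 0) →
      ∀ k, T.E k (a k + Complex.I • b k) = 0 := fun ha hb k => by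
    rw [T.E_add, T.E_smulC, ha, hb, smul_zero, add_zero]
  have hcut : ∀ L, ∃ p ∈ T.F 0, IsStarProjection p ∧ T.t (1 - p) ≤ D L ∧
      p * (star (x 0) * x 0) * p ≤ ((l * 2 ^ L) ^ 2) • (1 : A) := fun L =>
    cut0 T (hx.mem 0) (by positivity) (he 0 L)
  refine ⟨asm (x 0) (fun k => yh k + Complex.I • yg k), asm 0 (fun k => zh k + Complex.I • zg k),
    asm_mart T (hx.mem 0) (hm yhm ygm) (hE yhe yge),
    asm_mart T (zero_mem _) (hm zhm zgm) (hE zhe zge), ?_, ?_, ?_⟩
  · intro k
    induction k with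
    | zero => exact add_zero _
    | succ k ih =>
      show (asm (x 0) (fun k => yh k + Complex.I • yg k) k + (yh k + Complex.I • yg k)) +
        (asm 0 (fun k => zh k + Complex.I • zg k) k + (zh k + Complex.I • zg k)) = x (k + 1)
      have e1 := hsum k
      have e2 := gsum k
      have e3 : dd (rp 1 x) k + Complex.I • dd (rp (-Complex.I) x) k = x (k + 1) - x k := by
        have e4 := rp_add x (k + 1)
        have e5 := rp_add x k
        calc dd (rp 1 x) k + Complex.I • dd (rp (-Complex.I) x) k =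
            (rp 1 x (k + 1) + Complex.I • rp (-Complex.I) x (k + 1)) -
              (rp 1 x k + Complex.I • rp (-Complex.I) x k) := by
              unfold dd
              rw [smul_sub]
              abel
          _ = x (k + 1) - x k := by rw [e4, e5]
      rw [← e1, ← e2, smul_add] at e3
      calc (asm (x 0) (fun k => yh k + Complex.I • yg k) k + (yh k + Complex.I • yg k)) +
        (asm 0 (fun k => zh k + Complex.I • zg k) k + (zh k + Complex.I • zg k)) =
          (asm (x 0) (fun k => yh k + Complex.I • yg k) k +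
            asm 0 (fun k => zh k + Complex.I • zg k) k) +
          (yh k + zh k + (Complex.I • yg k + Complex.I • zg k)) := by abel
        _ = x (k + 1) := by
          rw [ih, e3]
          abel
  · intro L hL N
    obtain ⟨p0, m0, q0, t0, b0⟩ := hcut L
    obtain ⟨p1, m1, q1, t1, b1⟩ := yhL L hL N
    obtain ⟨p2, m2, q2, t2, b2⟩ := ygL L hL N
    obtain ⟨p, mp, qp, c0, c1, c2, tp⟩ := meet3 T (T.F_le (Nat.zero_le N) m0) m1 m2 q0 q1 q2
    refine ⟨p, mp, qp, ?_, ?_⟩
    · have := mul_nonneg hC.le (hD L)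
      have : (4 * C + 1) * D L = 4 * (C * D L) + D L := by ring
      linarith
    · rw [sum_df]
      have d0 := below qp q0 c0 (by positivity) b0
      have d1 := below qp q1 c1 (by positivity) b1
      have d2 := below qp q2 c2 (by positivity) b2
      have hle := proj_conj_mono qp (sum_sq_le yh yg N)
      rw [mul_add, add_mul] at hle ⊢
      rw [mul_smul_comm, mul_smul_comm, smul_mul_assoc, smul_mul_assoc] at hle
      refine (add_le_add d0 (hle.trans (add_le_add
        (smul_le_smul_of_nonneg_left d1 zero_le_two)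
        (smul_le_smul_of_nonneg_left d2 zero_le_two)))).trans (le_of_eq ?_)
      rw [smul_smul, ← add_smul, ← add_smul]
      congr 1
      ring
  · intro L hL N
    obtain ⟨p1, m1, q1, t1, b1⟩ := zhL L hL N
    obtain ⟨p2, m2, q2, t2, b2⟩ := zgL L hL N
    obtain ⟨p, mp, qp, c0, c1, c2, tp⟩ := meet3 T m1 m1 m2 q1 q1 q2
    refine ⟨p, mp, qp, ?_, ?_⟩
    · have := mul_nonneg hC.le (hD L)
      have : (4 * C + 1) * D L = 4 * (C * D L) + D L := by ring
      have := hD L
      linarith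
    · rw [sum_df']
      have d1 := below qp q1 c1 (by positivity) b1
      have d2 := below qp q2 c2 (by positivity) b2
      have hle := proj_conj_mono qp (sum_sq_le' zh zg N)
      rw [zero_mul, zero_add]
      rw [mul_add, add_mul] at hle
      rw [mul_smul_comm, mul_smul_comm, smul_mul_assoc, smul_mul_assoc] at hle
      refine (hle.trans (add_le_add
        (smul_le_smul_of_nonneg_left d1 zero_le_two)
        (smul_le_smul_of_nonneg_left d2 zero_le_two))).trans ?_
      rw [smul_smul, ← add_smul]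
      refine smul_le_smul_of_nonneg_right ?_ zero_le_one
      have : 0 ≤ (l * 2 ^ L) ^ 2 := by positivity
      linarith

end GD64
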