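import Pool.Agent.GD64.Cotlar

/-!
# GD64/Col: right truncation of columns by decreasing projections

Let `e_0 ≥ e_1 ≥ ...` be projections and `X_0, ..., X_{N-1} ∈ B`. In
`Matrix (Option (Fin N)) (Option (Fin N)) B` put `Xh (some k) none = X_k`, all other entries `0`, and
the chain `c_j` (`0 ≤ j ≤ N+1`): diagonal matrices with `c_j (some k) = 1` if `k < j`, else `0`;
`c_j none = 1 - e'_j`, where `e'_0 = 1`, `e'_j = e_{j-1}` (`1 ≤ j ≤ N`) and `c_{N+1} = 1`
(so `e'_{N+1} = 0`).
Then `Tr 0 c (N+1) Xh` has the entries `(some k, none)`: `∑_{j > k} X_k (e'_j - e'_{j+1}) =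
X_k e'_{k+1} = X_k e_k`, all others `0`. Also `(star Xh * Xh)` has the single entry
`(none, none) = ∑ star X_k * X_k`, and `L m Xh = t((∑ star X_k * X_k)^(2^m))`. Apply `TS.cotlar`.
-/

namespace GD64

variable {B : Type*} [Ring B] [StarRing B] [Algebra ℝ B] [StarModule ℝ B]

set_option linter.unusedSectionVars false

/-- Column matrix. -/
def colM {N : ℕ} (x : Fin N → B) : Matrix (Option (Fin N)) (Option (Fin N)) B :=
  Matrix.of fun i j => match i, j with
    | some k, none => x k
    | _, _ => 0

theorem colM_apply_some_none {N : ℕ} (x : Fin N → B) (k : Fin N) :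
    colM x (some k) none = x k := rfl

theorem colM_apply_none {N : ℕ} (x : Fin N → B) (j : Option (Fin N)) :
    colM x none j = 0 := by
  cases j <;> rfl

theorem colM_apply_some {N : ℕ} (x : Fin N → B) (i : Option (Fin N)) (k : Fin N) :
    colM x i (some k) = 0 := by
  cases i <;> rfl

theorem star_colM_mul {N : ℕ} (x : Fin N → B) :
    star (colM x) * colM x =
      Matrix.single (none : Option (Fin N)) none (∑ k, star (x k) * x k) := by
  ext i j
  rw [Matrix.mul_apply, Fintype.sum_option]
  simp only [Matrix.star_apply]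
  rw [colM_apply_none, star_zero, zero_mul, zero_add]
  cases i with
  | some i =>
    rw [Matrix.single_apply_of_row_ne (by simp)]
    apply Finset.sum_eq_zero
    intro k _
    rw [colM_apply_some, star_zero, zero_mul]
  | none =>
    cases j with
    | some j =>
      rw [Matrix.single_apply_of_col_ne _ _ (by simp)]
      apply Finset.sum_eq_zero
      intro k _
      rw [colM_apply_some, mul_zero]
    | none =>
      rw [Matrix.single_apply_same]
      rfl

theorem single_pow {N : ℕ} (a : B) (n : ℕ) :
    (Matrix.single (none : Option (Fin N)) (none : Option (Fin N)) a :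
      Matrix (Option (Fin N)) (Option (Fin N)) B) ^ (n + 1) =
      Matrix.single (none : Option (Fin N)) (none : Option (Fin N)) (a ^ (n + 1)) := by
  induction n with
  | zero => simp
  | succ n ih =>
    rw [pow_succ, ih, Matrix.single_mul_single_same, ← pow_succ]

theorem L_colM (S : TS B) (m : ℕ) {N : ℕ} (x : Fin N → B) :
    (S.matrix (Option (Fin N))).L m (colM x) = S.t ((∑ k, star (x k) * x k) ^ (2 ^ m)) := by
  unfold TS.L
  rw [star_colM_mul]
  obtain ⟨k, hk⟩ : ∃ k, 2 ^ m = k + 1 := ⟨2 ^ m - 1, by
    have : 0 < 2 ^ m := by positivity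
    omega⟩
  rw [hk, single_pow]
  show ∑ i, S.t (Matrix.single (none : Option (Fin N)) none _ i i) = _
  rw [Fintype.sum_option, Matrix.single_apply_same]
  have : ∀ i : Fin N, S.t (Matrix.single (none : Option (Fin N)) none
      ((∑ k, star (x k) * x k) ^ (k + 1)) (some i) (some i)) = 0 := by
    intro i
    rw [Matrix.single_apply_of_row_ne (by simp), map_zero]
  rw [Finset.sum_eq_zero (fun i _ => this i), add_zero]

/-- The modified sequence of projections. -/
def ee (N : ℕ) (e : ℕ → B) (j : ℕ) : B :=
  if j = 0 then 1 else if j ≤ N then e (j - 1) else 0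

/-- The diagonal entries of the chain. -/
def dg (N : ℕ) (e : ℕ → B) (j : ℕ) : Option (Fin N) → B
  | none => 1 - ee N e j
  | some k => if (k : ℕ) < j then 1 else 0

theorem e_mul_of_le {e : ℕ → B} (hd : ∀ k, e k * e (k + 1) = e (k + 1)) (he : ∀ k,
    IsStarProjection (e k)) {i j : ℕ} (h : i ≤ j) : e i * e j = e j := by
  induction j, h using Nat.le_induction with
  | base => exact (he i).isIdempotentElem.eq
  | succ j _ ih =>
    rw [← hd j, ← mul_assoc, ih]

theorem e_mul_of_le' {e : ℕ → B} (hd : ∀ k, e k * e (k + 1) = e (k + 1)) (he : ∀ k,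
    IsStarProjection (e k)) {i j : ℕ} (h : i ≤ j) : e j * e i = e j := by
  have h1 := congrArg star (e_mul_of_le hd he h)
  rw [star_mul, (he i).isSelfAdjoint.star_eq, (he j).isSelfAdjoint.star_eq] at h1
  exact h1

theorem isp_one : IsStarProjection (1 : B) := ⟨by simp [IsIdempotentElem], by simp⟩

theorem isp_zero : IsStarProjection (0 : B) := ⟨by simp [IsIdempotentElem], by simp⟩

theorem ee_proj {N : ℕ} {e : ℕ → B} (he : ∀ k, IsStarProjection (e k)) (j : ℕ) :
    IsStarProjection (ee N e j) := by
  unfold ee
  split_ifs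
  · exact isp_one
  · exact he _
  · exact isp_zero

theorem ee_mul {N : ℕ} {e : ℕ → B} (hd : ∀ k, e k * e (k + 1) = e (k + 1)) (he : ∀ k,
    IsStarProjection (e k)) {i j : ℕ} (h : i ≤ j) : ee N e j * ee N e i = ee N e j := by
  unfold ee
  split_ifs with h1 h2 h3 h4 h5 h6 h7
  · simp
  · omega
  · omega
  · simp
  · exact e_mul_of_le' hd he (by omega)
  · omega
  · simp
  · simp
  · simp

theorem dg_proj {N : ℕ} {e : ℕ → B} (he : ∀ k, IsStarProjection (e k)) (j : ℕ)
    (i : Option (Fin N)) : IsStarProjection (dg N e j i) := by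
  cases i with
  | none => exact (ee_proj he j).one_sub
  | some k =>
    show IsStarProjection (if (k : ℕ) < j then (1 : B) else 0)
    split_ifs
    · exact isp_one
    · exact isp_zero

/-- The chain of diagonal matrices. -/
def chM (N : ℕ) (e : ℕ → B) (j : ℕ) : Matrix (Option (Fin N)) (Option (Fin N)) B :=
  Matrix.diagonal (dg N e j)

theorem chM_chain (N : ℕ) (e : ℕ → B) (he : ∀ k, IsStarProjection (e k))
    (hd : ∀ k, e k * e (k + 1) = e (k + 1)) : Chain (chM N e) (N + 1) where
  zero := by
    unfold chM
    rw [← Matrix.diagonal_zero]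
    congr 1
    funext i
    cases i with
    | none => simp [dg, ee]
    | some k => simp [dg]
  one := by
    unfold chM
    rw [← Matrix.diagonal_one]
    congr 1
    funext i
    cases i with
    | none => simp [dg, ee]
    | some k =>
      have : (k : ℕ) < N + 1 := by omega
      simp [dg, this]
  proj := by
    intro j
    constructor
    · show chM N e j * chM N e j = chM N e j
      unfold chM
      rw [Matrix.diagonal_mul_diagonal]
      congr 1
      funext i
      exact (dg_proj he j i).isIdempotentElem.eq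
    · show star (chM N e j) = chM N e j
      unfold chM
      rw [Matrix.star_eq_conjTranspose, Matrix.diagonal_conjTranspose]
      congr 1
      funext i
      exact (dg_proj he j i).isSelfAdjoint.star_eq
  mul := by
    intro i j hij
    unfold chM
    rw [Matrix.diagonal_mul_diagonal]
    congr 1
    funext l
    cases l with
    | none =>
      show (1 - ee N e j) * (1 - ee N e i) = 1 - ee N e i
      rw [mul_sub, mul_one, sub_mul, one_mul, ee_mul hd he hij]
      abel
    | some k =>
      show (if (k : ℕ) < j then (1 : B) else 0) * (if (k : ℕ) < i then 1 else 0) =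
        if (k : ℕ) < i then 1 else 0
      split_ifs
      · simp
      · simp
      · omega
      · simp

theorem Tr_colM (N : ℕ) (e : ℕ → B) (x : Fin N → B) :
    Tr 0 (chM N e) (N + 1) (colM x) = colM (fun k => x k * e k) := by
  ext i j
  unfold Tr chM
  rw [Matrix.sum_apply]
  have hent : ∀ l ∈ Finset.range (N + 1),
      (Matrix.diagonal (dg N e (l + 0)) * colM x *
        (Matrix.diagonal (dg N e (l + 1)) - Matrix.diagonal (dg N e l))) i j =
      dg N e l i * colM x i j * (dg N e (l + 1) j - dg N e l j) := by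
    intro l _
    rw [add_zero, mul_sub, Matrix.sub_apply, Matrix.mul_diagonal, Matrix.mul_diagonal,
      Matrix.diagonal_mul, mul_sub]
  rw [Finset.sum_congr rfl hent]
  cases i with
  | none =>
    rw [colM_apply_none, colM_apply_none]
    simp
  | some k =>
    cases j with
    | some j =>
      rw [colM_apply_some, colM_apply_some]
      simp
    | none =>
      rw [colM_apply_some_none, colM_apply_some_none]
      have hk : (k : ℕ) < N := k.isLt
      have h1 : ∀ l ∈ Finset.range (N + 1),
          dg N e l (some k) * x k * (dg N e (l + 1) none - dg N e l none) =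
            (if (k : ℕ) < l then x k * (ee N e l - ee N e (l + 1)) else 0) := by
        intro l _
        show (if (k : ℕ) < l then (1 : B) else 0) * x k *
          ((1 - ee N e (l + 1)) - (1 - ee N e l)) = _
        split_ifs
        · rw [one_mul]
          congr 1
          abel
        · simp
      rw [Finset.sum_congr rfl h1, ← Finset.sum_filter]
      have h2 : (Finset.range (N + 1)).filter (fun l => (k : ℕ) < l) =
          Finset.Ico ((k : ℕ) + 1) (N + 1) := by
        ext l
        simp only [Finset.mem_filter, Finset.mem_range, Finset.mem_Ico]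
        omega
      rw [h2, ← Finset.mul_sum]
      congr 1
      have h4 : ∑ l ∈ Finset.Ico ((k : ℕ) + 1) (N + 1), (ee N e l - ee N e (l + 1)) =
          ee N e ((k : ℕ) + 1) - ee N e (N + 1) := by
        have : ∀ b, (k : ℕ) + 1 ≤ b →
            ∑ l ∈ Finset.Ico ((k : ℕ) + 1) b, (ee N e l - ee N e (l + 1)) =
              ee N e ((k : ℕ) + 1) - ee N e b := by
          intro b hb
          induction b, hb using Nat.le_induction with
          | base => simp
          | succ b hb ih =>
            rw [Finset.sum_Ico_succ_top hb, ih]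
            abel
        exact this (N + 1) (by omega)
      rw [h4]
      unfold ee
      rw [if_neg (by omega), if_pos (by omega), if_neg (by omega), if_neg (by omega), sub_zero,
        Nat.add_sub_cancel]

theorem TS.col (S : TS B) (m N : ℕ) (X e : ℕ → B) (he : ∀ k, IsStarProjection (e k))
    (hd : ∀ k, e k * e (k + 1) = e (k + 1)) :
    S.t ((∑ k ∈ Finset.range N, e k * (star (X k) * X k) * e k) ^ (2 ^ m)) ≤
      ((2 : ℝ) ^ (m + 3)) ^ (2 ^ (m + 1)) *
        S.t ((∑ k ∈ Finset.range N, star (X k) * X k) ^ (2 ^ m)) := by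
  have h := (S.matrix (Option (Fin N))).cotlar (chM_chain N e he hd) (Nat.zero_le 1) m
    (colM (fun k : Fin N => X k))
  rw [Tr_colM] at h
  have h2 := pow_le_pow_left₀ ((S.matrix (Option (Fin N))).N_nonneg _ _) h (2 ^ (m + 1))
  rw [mul_pow, TS.N_pow, TS.N_pow, L_colM, L_colM] at h2
  have e1 : ∑ k ∈ Finset.range N, e k * (star (X k) * X k) * e k =
      ∑ k : Fin N, star (X k * e k) * (X k * e k) := by
    rw [Finset.sum_range]
    refine Finset.sum_congr rfl fun k _ => ?_
    rw [star_mul, (he k).isSelfAdjoint.star_eq]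
    simp only [mul_assoc]
  rw [e1, Finset.sum_range (fun k => star (X k) * X k)]
  exact h2

/-- Version for the norms and positive elements of a C*-algebra: for `a_k ≥ 0`,
`‖∑ e_k a_k e_k‖_{2^(m+1)} ≤ C_m ‖∑ a_k‖_{2^(m+1)}`. (use `a_k = sqrt a_k * sqrt a_k`). -/
theorem TF.col {A : Type*} [CStarAlgebra A] [PartialOrder A] [StarOrderedRing A] (T : TF A)
    (m N : ℕ) (a e : ℕ → A) (ha : ∀ k, 0 ≤ a k) (he : ∀ k, IsStarProjection (e k))
    (hd : ∀ k, e k * e (k + 1) = e (k + 1)) :
    T.toTS.N m (∑ k ∈ Finset.range N, e k * a k * e k) ≤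
      ((2 : ℝ) ^ (m + 4)) ^ 2 * T.toTS.N m (∑ k ∈ Finset.range N, a k) := by
  have hx : ∀ k, ∃ x : A, a k = star x * x := fun k =>
    CStarAlgebra.nonneg_iff_eq_star_mul_self.mp (ha k)
  choose x hx using hx
  have h := T.toTS.col (m + 1) N x e he hd
  have s1 : ∑ k ∈ Finset.range N, e k * a k * e k =
      ∑ k ∈ Finset.range N, e k * (star (x k) * x k) * e k := by
    refine Finset.sum_congr rfl fun k _ => ?_
    rw [hx k]
  have s2 : ∑ k ∈ Finset.range N, a k = ∑ k ∈ Finset.range N, star (x k) * x k := by
    refine Finset.sum_congr rfl fun k _ => ?_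
    rw [hx k]
  rw [← s1, ← s2] at h
  have sa1 : star (∑ k ∈ Finset.range N, e k * a k * e k) =
      ∑ k ∈ Finset.range N, e k * a k * e k := by
    rw [star_sum]
    refine Finset.sum_congr rfl fun k _ => ?_
    rw [star_mul, star_mul, (he k).isSelfAdjoint.star_eq,
      (IsSelfAdjoint.of_nonneg (ha k)).star_eq, mul_assoc]
  have sa2 : star (∑ k ∈ Finset.range N, a k) = ∑ k ∈ Finset.range N, a k := by
    rw [star_sum]
    refine Finset.sum_congr rfl fun k _ => ?_
    rw [(IsSelfAdjoint.of_nonneg (ha k)).star_eq]
  apply TS.le_of_pow_le (T.toTS.N_nonneg _ _)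
    (mul_nonneg (by positivity) (T.toTS.N_nonneg _ _)) (TS.two_pow_ne (m + 1))
  rw [mul_pow, TS.N_pow, TS.N_pow, TS.L_of_sa _ _ sa1, TS.L_of_sa _ _ sa2]
  refine h.trans (le_of_eq ?_)
  congr 1
  rw [show m + 1 + 3 = m + 4 by ring, ← pow_mul, ← pow_mul, ← pow_mul]
  congr 1
  ring

end GD64
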