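import Pool.Agent.GD64.Proc

/-!
# GD64/ProcFlag: elementary facts on flags
-/

namespace GD64

variable {A : Type*} [CStarAlgebra A] [PartialOrder A] [StarOrderedRing A]

private lemma flag_inc_le {T : TF A} {e : ℕ → ℕ → A} (he : FlagSys T e) (k : ℕ) {i j : ℕ}
    (h : i ≤ j) : e j k * e i k = e i k := by
  induction j, h using Nat.le_induction with
  | base => exact (he.proj i k).isIdempotentElem.eq
  | succ j _ ih =>
    rw [← ih, ← mul_assoc, he.inc]

theorem FlagSys.chain {T : TF A} {e : ℕ → ℕ → A} (he : FlagSys T e) (i k : ℕ) :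
    Chain (ch e i k) (i + 1) := by
  refine ⟨?_, ?_, ?_, ?_⟩
  · simp [ch, he.zero]
  · simp [ch]
  · intro j
    unfold ch
    split_ifs
    · exact he.proj j k
    · exact IsStarProjection.one A
  · intro i' j' h
    unfold ch
    by_cases h1 : j' ≤ i
    · have h2 : i' ≤ i := h.trans h1
      rw [if_pos h1, if_pos h2]
      exact flag_inc_le he k h
    · rw [if_neg h1, one_mul]

theorem FlagSys.dec_le {T : TF A} {e : ℕ → ℕ → A} (he : FlagSys T e) (j : ℕ) {k k' : ℕ}
    (h : k ≤ k') : e j k * e j k' = e j k' := by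
  induction k', h using Nat.le_induction with
  | base => exact (he.proj j k).isIdempotentElem.eq
  | succ k' _ ih =>
    rw [← he.dec j k', ← mul_assoc, ih]

theorem FlagSys.inc_le {T : TF A} {e : ℕ → ℕ → A} (he : FlagSys T e) (k : ℕ) {i j : ℕ}
    (h : i ≤ j) : e j k * e i k = e i k := flag_inc_le he k h

theorem FlagSys.ch_mem {T : TF A} {e : ℕ → ℕ → A} (he : FlagSys T e) (i k j : ℕ) :
    ch e i k j ∈ T.F k := by
  unfold ch
  split_ifs
  · exact he.mem j k
  · exact one_mem _

/-- `Tr b (ch e i k) n X ∈ F (k+1)` for `X ∈ F (k+1)`. -/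
theorem FlagSys.Tr_mem {T : TF A} {e : ℕ → ℕ → A} (he : FlagSys T e) (b i k n : ℕ) {X : A}
    (hX : X ∈ T.F (k + 1)) : Tr b (ch e i k) n X ∈ T.F (k + 1) := by
  have hc : ∀ j, ch e i k j ∈ T.F (k + 1) := fun j =>
    T.F_mono (Nat.le_succ k) (he.ch_mem i k j)
  unfold Tr
  exact sum_mem fun j _ => mul_mem (mul_mem (hc _) hX) (sub_mem (hc _) (hc _))

/-- `E_k (Tr b (ch e i k) n X) = 0` if `E_k X = 0`. -/
theorem FlagSys.E_Tr {T : TF A} {e : ℕ → ℕ → A} (he : FlagSys T e) (b i k n : ℕ) {X : A}
    (hX : T.E k X = 0) : T.E k (Tr b (ch e i k) n X) = 0 := by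
  unfold Tr
  rw [T.E_sum]
  refine Finset.sum_eq_zero fun j _ => ?_
  rw [T.E_mul_right (sub_mem (he.ch_mem i k _) (he.ch_mem i k _)),
    T.E_mul_left (he.ch_mem i k _), hX, mul_zero, zero_mul]

/-- Right multiplication by `e_L`: for `L ≤ i`, `(c_{j+1} - c_j) e_L = 0` for `j ≥ L`,
`= c_{j+1} - c_j` for `j < L`, and `c_{j+b} = c_{j+b} e_L` for `j < L`. -/
theorem FlagSys.Tr_mul {T : TF A} {e : ℕ → ℕ → A} (he : FlagSys T e) {b : ℕ} (hb : b ≤ 1)
    {L i : ℕ} (hL : L ≤ i) (k : ℕ) (X : A) :
    Tr b (ch e i k) (i + 1) X * e L k =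
      Tr b (ch e L k) (L + 1) (e L k * X * e L k) := by
  have hle : ∀ {a c : ℕ}, a ≤ c → e a k * e c k = e a k := fun {a c} h =>
    proj_mul_comm (he.proj a k) (he.proj c k) (he.inc_le k h)
  unfold Tr
  rw [Finset.sum_mul]
  have hL' : Finset.range L ⊆ Finset.range (i + 1) := by
    intro x hx
    rw [Finset.mem_range] at hx ⊢
    omega
  have h1 : ∑ j ∈ Finset.range (i + 1),
      ch e i k (j + b) * X * (ch e i k (j + 1) - ch e i k j) * e L k =
      ∑ j ∈ Finset.range L,
        ch e i k (j + b) * X * (ch e i k (j + 1) - ch e i k j) * e L k := by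
    symm
    refine Finset.sum_subset hL' ?_
    intro j hj hj'
    rw [Finset.mem_range] at hj hj'
    have hLj : L ≤ j := by omega
    have e1 : ch e i k (j + 1) * e L k = e L k := by
      unfold ch
      split_ifs
      · exact he.inc_le k (by omega)
      · rw [one_mul]
    have e2 : ch e i k j * e L k = e L k := by
      unfold ch
      rw [if_pos (by omega)]
      exact he.inc_le k hLj
    rw [mul_assoc, sub_mul, e1, e2, sub_self, mul_zero]
  rw [h1, Finset.sum_range_succ]
  have h2 : ch e L k (L + b) * (e L k * X * e L k) * (ch e L k (L + 1) - ch e L k L) = 0 := by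
    have e1 : ch e L k (L + 1) = 1 := by
      unfold ch
      rw [if_neg (by omega)]
    have e2 : ch e L k L = e L k := by
      unfold ch
      rw [if_pos le_rfl]
    rw [e1, e2, mul_assoc (ch e L k (L + b)), mul_assoc (e L k * X), mul_sub, mul_one,
      (he.proj L k).isIdempotentElem.eq, sub_self, mul_zero, mul_zero]
  rw [h2, add_zero]
  refine Finset.sum_congr rfl fun j hj => ?_
  rw [Finset.mem_range] at hj
  have a1 : ch e i k (j + b) = e (j + b) k := by
    unfold ch
    rw [if_pos (by omega)]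
  have a2 : ch e i k (j + 1) = e (j + 1) k := by
    unfold ch
    rw [if_pos (by omega)]
  have a3 : ch e i k j = e j k := by
    unfold ch
    rw [if_pos (by omega)]
  have b1 : ch e L k (j + b) = e (j + b) k := by
    unfold ch
    rw [if_pos (by omega)]
  have b2 : ch e L k (j + 1) = e (j + 1) k := by
    unfold ch
    rw [if_pos (by omega)]
  have b3 : ch e L k j = e j k := by
    unfold ch
    rw [if_pos (by omega)]
  rw [a1, a2, a3, b1, b2, b3]
  have c1 : (e (j + 1) k - e j k) * e L k = e (j + 1) k - e j k := by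
    rw [sub_mul, hle (by omega), hle (by omega)]
  have c2 : e L k * (e (j + 1) k - e j k) = e (j + 1) k - e j k := by
    rw [mul_sub, he.inc_le k (by omega), he.inc_le k (by omega)]
  have c3 : e (j + b) k * e L k = e (j + b) k := hle (by omega)
  calc e (j + b) k * X * (e (j + 1) k - e j k) * e L k
      = e (j + b) k * X * ((e (j + 1) k - e j k) * e L k) := by rw [mul_assoc]
    _ = e (j + b) k * X * (e (j + 1) k - e j k) := by rw [c1]
    _ = (e (j + b) k * e L k) * X * (e L k * (e (j + 1) k - e j k)) := by rw [c2, c3]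
    _ = e (j + b) k * (e L k * X * e L k) * (e (j + 1) k - e j k) := by
        simp only [mul_assoc]

end GD64
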