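import Pool.Agent.GD64.ProcVV
import Pool.Agent.GD64.ProcFlag

/-!
# GD64/LowD: diagonal estimate for the truncated piece
-/

namespace GD64

universe u

/-- Diagonal part: `t((star y_k y_k)^s) = L (m+1) y_k ≤ C L (m+1) (d_k) = C t((d_k²)^s) ≤ C Λ^(2(s-1)) t(d_k²)`
by `TS.cotlar`, `dd_sq_le`, `pow_succ_le_smul`; sum with `sum_t_dd_sq_le`. -/
theorem lowC_diag (m : ℕ) : ∃ C : ℝ, 0 < C ∧
    ∀ (A : Type u) [CStarAlgebra A] [PartialOrder A] [StarOrderedRing A]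
      (T : TF A) (e : ℕ → ℕ → A) (_ : FlagSys T e) (l : ℝ) (_ : 0 < l) (i : ℕ)
      (X : ℕ → A) (_ : Mart T X) (_ : ∀ k, 0 ≤ X k) (_ : ∀ k, X k ≤ (l * 2 ^ i) • (1 : A))
      (D : ℝ) (_ : T.t (X 0) ≤ l * 2 ^ i * D) (b : ℕ) (_ : b ≤ 1) (N : ℕ),
      ∑ k ∈ Finset.range N, T.t
          ((star (Tr b (ch e i k) (i + 1) (dd X k)) *
            Tr b (ch e i k) (i + 1) (dd X k)) ^ (2 ^ (m + 1))) ≤
        C * ((l * 2 ^ i) ^ 2) ^ (2 ^ (m + 1)) * D := by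
  refine ⟨((2 : ℝ) ^ (m + 1 + 3)) ^ (2 ^ (m + 1 + 1)), by positivity, ?_⟩
  intro A _ _ _ T e he l hl i X hX h0 h1 D hD b hb N
  obtain ⟨c, hc⟩ : ∃ c : ℝ, c = l * 2 ^ i := ⟨_, rfl⟩
  rw [← hc] at h1 hD ⊢
  have hc0 : 0 < c := by rw [hc]; positivity
  obtain ⟨K, hK⟩ : ∃ K : ℝ, K = ((2 : ℝ) ^ (m + 1 + 3)) ^ (2 ^ (m + 1 + 1)) := ⟨_, rfl⟩
  have hK0 : 0 < K := by rw [hK]; positivity
  rw [← hK]
  obtain ⟨s, hs⟩ : ∃ s : ℕ, s + 1 = 2 ^ (m + 1) :=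
    ⟨2 ^ (m + 1) - 1, Nat.sub_add_cancel Nat.one_le_two_pow⟩
  have hterm : ∀ k, T.t ((star (Tr b (ch e i k) (i + 1) (dd X k)) *
      Tr b (ch e i k) (i + 1) (dd X k)) ^ (2 ^ (m + 1))) ≤
      K * ((c ^ 2) ^ s * T.t (dd X k * dd X k)) := by
    intro k
    have hsa : star (dd X k) = dd X k := dd_isSelfAdjoint h0 k
    have e1 : T.t ((star (Tr b (ch e i k) (i + 1) (dd X k)) *
        Tr b (ch e i k) (i + 1) (dd X k)) ^ (2 ^ (m + 1))) =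
        T.toTS.L (m + 1) (Tr b (ch e i k) (i + 1) (dd X k)) := rfl
    have e2 : T.toTS.L (m + 1) (Tr b (ch e i k) (i + 1) (dd X k)) ≤
        K * T.toTS.L (m + 1) (dd X k) := by
      rw [← T.toTS.N_pow (m + 1) (Tr b (ch e i k) (i + 1) (dd X k)),
        ← T.toTS.N_pow (m + 1) (dd X k), hK, ← mul_pow]
      exact pow_le_pow_left₀ (T.toTS.N_nonneg _ _) (T.toTS.cotlar (he.chain i k) hb (m + 1) _) _
    have e3 : T.toTS.L (m + 1) (dd X k) = T.t ((dd X k * dd X k) ^ (s + 1)) := by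
      rw [hs]
      change T.t ((star (dd X k) * dd X k) ^ (2 ^ (m + 1))) = _
      rw [hsa]
    have e4 : 0 ≤ dd X k * dd X k := by
      have := star_mul_self_nonneg (dd X k)
      rwa [hsa] at this
    have e5 : T.t ((dd X k * dd X k) ^ (s + 1)) ≤ (c ^ 2) ^ s * T.t (dd X k * dd X k) := by
      have e6 := T.t_mono (pow_succ_le_smul e4 (sq_nonneg c) (dd_sq_le hc0.le h0 h1 k) s)
      rwa [map_smul, smul_eq_mul] at e6
    rw [e1]
    refine e2.trans ?_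
    rw [e3]
    exact mul_le_mul_of_nonneg_left e5 hK0.le
  refine (Finset.sum_le_sum fun k _ => hterm k).trans ?_
  rw [← Finset.mul_sum, ← Finset.mul_sum]
  have h2 := hX.sum_t_dd_sq_le h0 h1 N
  have h3 : c * T.t (X 0) ≤ c * (c * D) := mul_le_mul_of_nonneg_left hD hc0.le
  have h4 := h2.trans h3
  calc K * ((c ^ 2) ^ s * ∑ k ∈ Finset.range N, T.t (dd X k * dd X k)) ≤
        K * ((c ^ 2) ^ s * (c * (c * D))) := by gcongr
    _ = K * (c ^ 2) ^ (s + 1) * D := by ring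
    _ = _ := by rw [hs]

end GD64
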