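import Pool.Agent.GD64.TS

/-!
# GD64/Holder: Hölder and triangle inequality for the `L_{2^(m+1)}` norms of a tracial star algebra

Proof. Cauchy-Schwarz `|t(x* y)|² ≤ t(x* x) t(y* y)` (discriminant).
Claim(m): `|t(x_1 ⋯ x_{2^(m+1)})| ≤ ∏ N m (x_i)` for all elements.
`m = 0` is Cauchy-Schwarz. Step: pair up, `y_i = x_{2i-1} x_{2i}`; by Claim(m)
`|t(∏ y_i)| ≤ ∏ N m (y_i)`, and `N m (x y) ≤ N (m+1) x * N (m+1) y` because
`(N m (x y))^(2^(m+1)) = t((y* x* x y)^(2^m)) = t((x* x · y y*)^(2^m))` (cyclicity) is the trace of a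
product of `2^(m+1)` factors `x* x`, `y y*`, so by Claim(m) it is at most
`N m (x* x)^(2^m) N m (y y*)^(2^m)` and `N m (x* x) = N (m+1) x ^ 2`, `N m (y y*) = N (m+1) y ^ 2`.
Triangle inequality: with `w = x + y`, `L m w = t(star w * w * (star w * w)^(2^m-1))
= t(star x * Z) + t(star y * Z)` where `Z` is a product of `2^(m+1) - 1` factors `w`, `w*`; apply
Claim(m) to both terms.
-/

namespace GD64

namespace TS

variable {B : Type*} [Ring B] [StarRing B] [Algebra ℝ B] [StarModule ℝ B] (S : TS B)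

set_option linter.unusedSectionVars false

/-- Cauchy-Schwarz. -/
theorem cs (x y : B) : (S.t (star x * y)) ^ 2 ≤ S.t (star x * x) * S.t (star y * y) := by
  have h : ∀ r : ℝ, 0 ≤ S.t (star y * y) * (r * r) + 2 * S.t (star x * y) * r +
      S.t (star x * x) := by
    intro r
    have h1 := S.t_pos (x + r • y)
    have h2 : S.t (star y * x) = S.t (star x * y) := by
      rw [← S.t_star (star y * x), star_mul, star_star]
    have h3 : star (x + r • y) * (x + r • y) =
        star x * x + r • (star x * y) + r • (star y * x) + (r * r) • (star y * y) := by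
      rw [star_add, star_smul, star_trivial r, add_mul, mul_add, mul_add, smul_mul_assoc,
        mul_smul_comm, mul_smul_comm, smul_mul_assoc, smul_smul]
      abel
    rw [h3, map_add, map_add, map_add, map_smul, map_smul, map_smul, h2] at h1
    simp only [smul_eq_mul] at h1
    linarith
  have h4 := discrim_le_zero h
  rw [discrim] at h4
  nlinarith

theorem pow_sa {x : B} (hx : star x = x) (n : ℕ) : star (x ^ n) = x ^ n := by
  rw [star_pow, hx]

theorem star_mul_sa (x : B) : star (star x * x) = star x * x := by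
  rw [star_mul, star_star]

theorem L_nonneg (m : ℕ) (x : B) : 0 ≤ S.L m x := by
  unfold L
  cases m with
  | zero => simpa using S.t_pos x
  | succ m =>
    have h : (star x * x) ^ (2 ^ (m + 1)) =
        star ((star x * x) ^ (2 ^ m)) * (star x * x) ^ (2 ^ m) := by
      rw [pow_sa (star_mul_sa x), ← pow_add]
      congr 1
      ring
    rw [h]
    exact S.t_pos _

theorem N_nonneg (m : ℕ) (x : B) : 0 ≤ S.N m x :=
  Real.rpow_nonneg (S.L_nonneg m x) _

theorem N_pow (m : ℕ) (x : B) : (S.N m x) ^ (2 ^ (m + 1)) = S.L m x := by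
  unfold N
  rw [← Real.rpow_natCast, ← Real.rpow_mul (S.L_nonneg m x)]
  have : (1 : ℝ) / 2 ^ (m + 1) * ((2 ^ (m + 1) : ℕ) : ℝ) = 1 := by
    push_cast
    field_simp
  rw [this, Real.rpow_one]

theorem mul_pow_cyc (a b : B) (n : ℕ) : (a * b) ^ (n + 1) = a * ((b * a) ^ n * b) := by
  induction n with
  | zero => simp
  | succ n ih =>
    rw [pow_succ, ih, pow_succ]
    simp only [mul_assoc]

/-- Cyclicity for powers. -/
theorem t_pow_comm (a b : B) {n : ℕ} (hn : n ≠ 0) : S.t ((a * b) ^ n) = S.t ((b * a) ^ n) := by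
  obtain ⟨k, rfl⟩ := Nat.exists_eq_succ_of_ne_zero hn
  rw [Nat.succ_eq_add_one, mul_pow_cyc, S.t_comm, mul_assoc, ← pow_succ]

theorem L_star (m : ℕ) (x : B) : S.L m (star x) = S.L m x := by
  unfold L
  rw [star_star]
  exact S.t_pow_comm _ _ (by positivity)

theorem N_star (m : ℕ) (x : B) : S.N m (star x) = S.N m x := by
  unfold N
  rw [S.L_star]

theorem eq_of_pow_eq {a b : ℝ} (ha : 0 ≤ a) (hb : 0 ≤ b) {n : ℕ} (hn : n ≠ 0)
    (h : a ^ n = b ^ n) : a = b :=
  (pow_left_inj₀ ha hb hn).mp h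

theorem le_of_pow_le {a b : ℝ} (ha : 0 ≤ a) (hb : 0 ≤ b) {n : ℕ} (hn : n ≠ 0)
    (h : a ^ n ≤ b ^ n) : a ≤ b :=
  (pow_le_pow_iff_left₀ ha hb hn).mp h

theorem two_pow_ne (m : ℕ) : 2 ^ m ≠ 0 := by positivity

theorem L_smul (m : ℕ) (c : ℝ) (x : B) : S.L m (c • x) = c ^ (2 ^ (m + 1)) * S.L m x := by
  unfold L
  rw [star_smul, star_trivial c, smul_mul_smul_comm, smul_pow, map_smul, smul_eq_mul]
  congr 1
  rw [← pow_two, ← pow_mul]
  congr 1
  ring

theorem N_smul (m : ℕ) (c : ℝ) (x : B) : S.N m (c • x) = |c| * S.N m x := by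
  apply eq_of_pow_eq (S.N_nonneg _ _) (mul_nonneg (abs_nonneg _) (S.N_nonneg _ _))
    (two_pow_ne (m + 1))
  rw [S.N_pow, mul_pow, S.N_pow, S.L_smul]
  congr 1
  rw [pow_succ 2 m, mul_comm (2 ^ m) 2, pow_mul, pow_mul, sq_abs]

theorem N_zero (m : ℕ) : S.N m 0 = 0 := by
  have := S.N_smul m 0 (0 : B)
  simpa using this

theorem L_succ (m : ℕ) (x : B) : S.L (m + 1) x = S.L m (star x * x) := by
  unfold L
  rw [star_mul_sa, ← pow_two, ← pow_mul]
  congr 2
  ring

theorem N_succ_sq (m : ℕ) (x : B) : (S.N (m + 1) x) ^ 2 = S.N m (star x * x) := by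
  apply eq_of_pow_eq (by positivity) (S.N_nonneg _ _) (two_pow_ne (m + 1))
  rw [S.N_pow, ← pow_mul, ← S.L_succ, ← S.N_pow (m + 1)]
  congr 1
  ring

/-- For self-adjoint `x`, `L m x = t(x^(2^(m+1)))`. -/
theorem L_of_sa (m : ℕ) {x : B} (hx : star x = x) : S.L m x = S.t (x ^ (2 ^ (m + 1))) := by
  unfold L
  rw [hx, ← pow_two, ← pow_mul]
  congr 2
  ring

/-- Pairing of neighbours in a list. -/
def pairUp {B : Type*} [Mul B] : List B → List B
  | [] => []
  | [a] => [a]
  | a :: b :: l => (a * b) :: pairUp l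

theorem pairUp_prod : ∀ l : List B, (pairUp l).prod = l.prod
  | [] => rfl
  | [a] => rfl
  | a :: b :: l => by
    rw [pairUp, List.prod_cons, pairUp_prod l, List.prod_cons, List.prod_cons, mul_assoc]

theorem pairUp_length : ∀ (k : ℕ) (l : List B), l.length = 2 * k → (pairUp l).length = k
  | 0, [], _ => rfl
  | 0, a :: l, h => by simp at h
  | k + 1, [], h => by simp at h
  | k + 1, [a], h => by simp at h; omega
  | k + 1, a :: b :: l, h => by
    rw [pairUp, List.length_cons, pairUp_length k l]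
    simp at h
    omega

theorem list_prod_nonneg (m : ℕ) (l : List B) : 0 ≤ (l.map (S.N m)).prod := by
  apply List.prod_nonneg
  intro a ha
  rw [List.mem_map] at ha
  obtain ⟨x, _, rfl⟩ := ha
  exact S.N_nonneg m x

theorem pairUp_le (m : ℕ) (h : ∀ x y : B, S.N m (x * y) ≤ S.N (m + 1) x * S.N (m + 1) y) :
    ∀ (k : ℕ) (l : List B), l.length = 2 * k →
      ((pairUp l).map (S.N m)).prod ≤ (l.map (S.N (m + 1))).prod
  | 0, [], _ => le_refl _
  | 0, a :: l, h => by simp at h
  | k + 1, [], h => by simp at h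
  | k + 1, [a], h => by simp at h; omega
  | k + 1, a :: b :: l, hl => by
    have ih := pairUp_le m h k l (by simp at hl; omega)
    rw [pairUp, List.map_cons, List.prod_cons, List.map_cons, List.map_cons, List.prod_cons,
      List.prod_cons, ← mul_assoc]
    apply mul_le_mul (h a b) ih (S.list_prod_nonneg _ _)
    exact mul_nonneg (S.N_nonneg _ _) (S.N_nonneg _ _)

/-- The list `x, y, x, y, …` of length `2k`. -/
def altList {B : Type*} (x y : B) : ℕ → List B
  | 0 => []
  | k + 1 => x :: y :: altList x y k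

theorem altList_length {B : Type*} (x y : B) (k : ℕ) : (altList x y k).length = 2 * k := by
  induction k with
  | zero => rfl
  | succ k ih =>
    rw [altList, List.length_cons, List.length_cons, ih]
    ring

theorem altList_prod (x y : B) (k : ℕ) : (altList x y k).prod = (x * y) ^ k := by
  induction k with
  | zero => simp [altList]
  | succ k ih => rw [altList, List.prod_cons, List.prod_cons, ih, pow_succ', mul_assoc]

theorem altList_map {B : Type*} (f : B → ℝ) (x y : B) (k : ℕ) :
    ((altList x y k).map f).prod = (f x * f y) ^ k := by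
  induction k with
  | zero => simp [altList]
  | succ k ih =>
    rw [altList, List.map_cons, List.map_cons, List.prod_cons, List.prod_cons, ih, pow_succ',
      mul_assoc]

/-- Claim(m) implies the product inequality. -/
theorem N_mul_of_holder (m : ℕ)
    (H : ∀ l : List B, l.length = 2 ^ (m + 1) → |S.t l.prod| ≤ (l.map (S.N m)).prod) (x y : B) :
    S.N m (x * y) ≤ S.N (m + 1) x * S.N (m + 1) y := by
  apply le_of_pow_le (S.N_nonneg _ _) (mul_nonneg (S.N_nonneg _ _) (S.N_nonneg _ _))
    (two_pow_ne (m + 1))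
  have h1 := H (altList (star x * x) (y * star y) (2 ^ m)) (by
    rw [altList_length]; ring)
  rw [altList_prod, altList_map] at h1
  rw [S.N_pow]
  have h2 : S.L m (x * y) = S.t ((star x * x * (y * star y)) ^ (2 ^ m)) := by
    unfold L
    have e1 : star (x * y) * (x * y) = star y * (star x * x * y) := by
      rw [star_mul]
      simp only [mul_assoc]
    have e2 : star x * x * (y * star y) = (star x * x * y) * star y := by
      simp only [mul_assoc]
    rw [e1, e2]
    exact S.t_pow_comm _ _ (two_pow_ne m)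
  rw [h2]
  have h3 : S.N m (y * star y) = S.N (m + 1) y ^ 2 := by
    rw [← S.N_star (m + 1) y, S.N_succ_sq, star_star]
  rw [h3, ← S.N_succ_sq] at h1
  calc S.t ((star x * x * (y * star y)) ^ (2 ^ m))
      ≤ |S.t ((star x * x * (y * star y)) ^ (2 ^ m))| := le_abs_self _
    _ ≤ (S.N (m + 1) x ^ 2 * S.N (m + 1) y ^ 2) ^ (2 ^ m) := h1
    _ = (S.N (m + 1) x * S.N (m + 1) y) ^ (2 ^ (m + 1)) := by
      rw [← mul_pow, ← pow_mul]
      congr 1
      ring

/-- Hölder inequality for lists. -/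
theorem holder_list (m : ℕ) :
    ∀ l : List B, l.length = 2 ^ (m + 1) → |S.t l.prod| ≤ (l.map (S.N m)).prod := by
  induction m with
  | zero =>
    intro l hl
    obtain ⟨a, b, rfl⟩ : ∃ a b, l = [a, b] := by
      rw [zero_add, pow_one] at hl
      exact List.length_eq_two.mp hl
    have h1 : |S.t (a * b)| ≤ S.N 0 a * S.N 0 b := by
      apply le_of_pow_le (abs_nonneg _) (mul_nonneg (S.N_nonneg _ _) (S.N_nonneg _ _))
        two_ne_zero
      have h2 := S.cs (star a) b
      have ea : S.N 0 a ^ 2 = S.t (star (star a) * star a) := by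
        rw [← S.N_star, show (2 : ℕ) = 2 ^ (0 + 1) by norm_num, S.N_pow]
        simp [L]
      have eb : S.N 0 b ^ 2 = S.t (star b * b) := by
        rw [show (2 : ℕ) = 2 ^ (0 + 1) by norm_num, S.N_pow]
        simp [L]
      rw [sq_abs, mul_pow, ea, eb]
      rw [star_star] at h2
      rw [star_star]
      exact h2
    simpa using h1
  | succ m ih =>
    intro l hl
    have hl2 : l.length = 2 * 2 ^ (m + 1) := by rw [hl]; ring
    rw [← pairUp_prod]
    exact (ih (pairUp l) (pairUp_length _ l hl2)).trans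
      (S.pairUp_le m (S.N_mul_of_holder m ih) _ l hl2)

/-- Hölder inequality for `2^(m+1)` factors. -/
theorem holder (m : ℕ) (x : Fin (2 ^ (m + 1)) → B) :
    |S.t (List.ofFn x).prod| ≤ ∏ i, S.N m (x i) := by
  have h := S.holder_list m (List.ofFn x) (by simp)
  rw [List.map_ofFn, List.prod_ofFn] at h
  exact h

theorem N_mul (m : ℕ) (x y : B) : S.N m (x * y) ≤ S.N (m + 1) x * S.N (m + 1) y :=
  S.N_mul_of_holder m (S.holder_list m) x y

/-- Hölder for the monomials in the triangle inequality. -/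
theorem holder_mono (m : ℕ) (a w : B) :
    |S.t (a * (w * (star w * w) ^ (2 ^ m - 1)))| ≤ S.N m a * S.N m w ^ (2 ^ (m + 1) - 1) := by
  have h := S.holder_list m (a :: w :: altList (star w) w (2 ^ m - 1)) (by
    rw [List.length_cons, List.length_cons, altList_length]
    have : 0 < 2 ^ m := by positivity
    rw [pow_succ]
    omega)
  rw [List.prod_cons, List.prod_cons, altList_prod, List.map_cons, List.map_cons, List.prod_cons,
    List.prod_cons, altList_map, S.N_star] at h
  have e : S.N m w * (S.N m w * S.N m w) ^ (2 ^ m - 1) = S.N m w ^ (2 ^ (m + 1) - 1) := by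
    rw [← pow_two, ← pow_mul, ← pow_succ']
    congr 1
    have : 0 < 2 ^ m := by positivity
    rw [pow_succ 2 m]
    omega
  rw [e] at h
  exact h

/-- From `a^(n) ≤ b * a^(n-1)` to `a ≤ b`. -/
theorem le_of_pow_le_mul {a b : ℝ} (ha : 0 ≤ a) (hb : 0 ≤ b) {n : ℕ} (hn : n ≠ 0)
    (h : a ^ n ≤ b * a ^ (n - 1)) : a ≤ b := by
  rcases ha.eq_or_lt with h0 | h0
  · rw [← h0]; exact hb
  · obtain ⟨k, rfl⟩ := Nat.exists_eq_succ_of_ne_zero hn
    rw [Nat.succ_eq_add_one, pow_succ', Nat.add_sub_cancel] at h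
    exact le_of_mul_le_mul_right h (pow_pos h0 k)

theorem N_add (m : ℕ) (x y : B) : S.N m (x + y) ≤ S.N m x + S.N m y := by
  apply le_of_pow_le_mul (S.N_nonneg _ _) (add_nonneg (S.N_nonneg _ _) (S.N_nonneg _ _))
    (two_pow_ne (m + 1))
  have h2m : 2 ^ m = (2 ^ m - 1) + 1 := by
    have : 0 < 2 ^ m := by positivity
    omega
  have e : S.L m (x + y) =
      S.t (star x * ((x + y) * (star (x + y) * (x + y)) ^ (2 ^ m - 1))) +
      S.t (star y * ((x + y) * (star (x + y) * (x + y)) ^ (2 ^ m - 1))) := by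
    rw [← map_add, ← add_mul, ← star_add]
    unfold L
    conv_lhs => rw [h2m, pow_succ', mul_assoc]
  rw [S.N_pow, e, add_mul (S.N m x)]
  have h1 := S.holder_mono m (star x) (x + y)
  have h2 := S.holder_mono m (star y) (x + y)
  rw [S.N_star] at h1 h2
  exact add_le_add ((le_abs_self _).trans h1) ((le_abs_self _).trans h2)

theorem N_neg (m : ℕ) (x : B) : S.N m (-x) = S.N m x := by
  have := S.N_smul m (-1) x
  simpa using this

theorem N_sub (m : ℕ) (x y : B) : S.N m (x - y) ≤ S.N m x + S.N m y := by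
  rw [sub_eq_add_neg, ← S.N_neg m y]
  exact S.N_add m x (-y)

theorem N_sum (m : ℕ) {ι : Type*} (s : Finset ι) (x : ι → B) :
    S.N m (∑ i ∈ s, x i) ≤ ∑ i ∈ s, S.N m (x i) := by
  classical
  induction s using Finset.induction_on with
  | empty => simp [S.N_zero]
  | insert a s ha ih =>
    rw [Finset.sum_insert ha, Finset.sum_insert ha]
    exact (S.N_add m _ _).trans (by linarith)

/-- Left multiplication by an isometry. -/
theorem N_isometry_mul (m : ℕ) {u : B} (hu : star u * u = 1) (x : B) :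
    S.N m (u * x) = S.N m x := by
  unfold N L
  have : star (u * x) * (u * x) = star x * x := by
    rw [star_mul, mul_assoc, ← mul_assoc (star u), hu, one_mul]
  rw [this]

theorem N_mul_isometry (m : ℕ) {u : B} (hu : star u * u = 1) (x : B) :
    S.N m (x * star u) = S.N m x := by
  rw [← S.N_star m (x * star u), star_mul, star_star, S.N_isometry_mul m hu, S.N_star]

/-- The unitary `2g - 1`. -/
theorem refl_isometry {g : B} (hg : IsStarProjection g) :
    star ((2 : ℝ) • g - 1) * ((2 : ℝ) • g - 1) = 1 := by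
  have h1 : g * g = g := hg.isIdempotentElem.eq
  have h2 : star g = g := hg.isSelfAdjoint.star_eq
  rw [star_sub, star_smul, star_trivial (2 : ℝ), star_one, h2, sub_mul, mul_sub, mul_one, one_mul,
    smul_mul_smul_comm, h1, two_mul, add_smul]
  abel

/-- `g x = (x + (2g-1) x)/2` and `2g-1` is a self-adjoint unitary. -/
theorem N_proj_mul (m : ℕ) {g : B} (hg : IsStarProjection g) (x : B) :
    S.N m (g * x) ≤ S.N m x := by
  have e : g * x = (1 / 2 : ℝ) • (x + ((2 : ℝ) • g - 1) * x) := by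
    rw [sub_mul, one_mul, smul_mul_assoc, add_sub_cancel, smul_smul]
    norm_num
  rw [e, S.N_smul]
  have h := S.N_add m x (((2 : ℝ) • g - 1) * x)
  rw [S.N_isometry_mul m (refl_isometry hg)] at h
  have : |(1 / 2 : ℝ)| = 1 / 2 := abs_of_pos (by norm_num)
  rw [this]
  linarith

theorem N_mul_proj (m : ℕ) {g : B} (hg : IsStarProjection g) (x : B) :
    S.N m (x * g) ≤ S.N m x := by
  rw [← S.N_star m (x * g), star_mul, hg.isSelfAdjoint.star_eq, ← S.N_star m x]
  exact S.N_proj_mul m hg _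

theorem N_proj_conj (m : ℕ) {g : B} (hg : IsStarProjection g) (x : B) :
    S.N m (g * x * g) ≤ S.N m x :=
  (S.N_mul_proj m hg _).trans (S.N_proj_mul m hg _)

end TS

/-- The trace of a product of two nonnegative elements. -/
theorem TF.t_mul_nonneg' {A : Type*} [CStarAlgebra A] [PartialOrder A] [StarOrderedRing A]
    (T : TF A) {a b : A} (ha : 0 ≤ a) (hb : 0 ≤ b) : 0 ≤ T.t (a * b) := by
  obtain ⟨c, rfl⟩ := CStarAlgebra.nonneg_iff_eq_star_mul_self.mp ha
  obtain ⟨d, rfl⟩ := CStarAlgebra.nonneg_iff_eq_star_mul_self.mp hb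
  have h := T.t_pos (d * star c)
  rw [star_mul, star_star] at h
  have e : T.t (star c * c * (star d * d)) = T.t (c * star d * (d * star c)) := by
    rw [mul_assoc, T.t_comm (star c)]
    simp only [mul_assoc]
  rw [e]
  exact h

/-- Monotonicity: `0 ≤ X ≤ Y` implies `t(X^(2^m)) ≤ t(Y^(2^m))` (Hölder:
`t(X^s) = t(X^(s-1) X) ≤ t(X^(s-1) Y) ≤ t(X^s)^((s-1)/s) t(Y^s)^(1/s)`). -/
theorem TF.N_mono {A : Type*} [CStarAlgebra A] [PartialOrder A] [StarOrderedRing A] (T : TF A)
    (m : ℕ) {X Y : A} (hX : 0 ≤ X) (h : X ≤ Y) : T.toTS.N m X ≤ T.toTS.N m Y := by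
  have hXs : star X = X := (IsSelfAdjoint.of_nonneg hX).star_eq
  apply TS.le_of_pow_le_mul (T.toTS.N_nonneg _ _) (T.toTS.N_nonneg _ _) (TS.two_pow_ne (m + 1))
  rw [T.toTS.N_pow, T.toTS.L_of_sa m hXs]
  have h0 : 0 < 2 ^ m := by positivity
  have e1 : X ^ (2 ^ (m + 1)) = X * (X * (star X * X) ^ (2 ^ m - 1)) := by
    rw [hXs, ← pow_two, ← pow_mul, ← pow_succ', ← pow_succ']
    congr 1
    rw [pow_succ 2 m]
    omega
  have hpos : 0 ≤ X * (star X * X) ^ (2 ^ m - 1) := by
    have e2 : X * (star X * X) ^ (2 ^ m - 1) = star (X ^ (2 ^ m - 1)) * X * X ^ (2 ^ m - 1) := by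
      rw [TS.pow_sa hXs, hXs, ← pow_two, ← pow_mul, ← pow_succ', ← pow_succ, ← pow_add]
      congr 1
      omega
    rw [e2]
    exact star_left_conjugate_nonneg hX _
  have h1 := T.t_mul_nonneg' (sub_nonneg.mpr h) hpos
  rw [sub_mul, map_sub, sub_nonneg] at h1
  have h2 := T.toTS.holder_mono m Y X
  have h3 : T.toTS.t = T.t := rfl
  rw [h3] at *
  rw [e1]
  exact h1.trans ((le_abs_self _).trans h2)

end GD64
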