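import Pool.Agent.GD64.StopInc
import Pool.Agent.GD64.Holder

/-!
# GD64/Rosen: weak type Rosenthal inequality for positive adapted sequences

Let `d_k ≥ 0`, `d_k ∈ F (k+1)`, `S_n = ∑_{k<n} d_k`, `C = ∑_{k<N} E_k d_k`, `s = 2^(m+1)`.
For `R > 0` let `r = stop S R`, `g_k = r_k - r_{k+1} ∈ F (k+1)`, `N(R) = t(1 - r_N)`.
By `split_le`, `S_N ≤ 2 ∑ r_k d_k r_k + 2 ∑ (1-r_k) d_k (1-r_k)`. By `stop_incr_sum` and
`stop_incr_jump` the first sum is `≤ R 1 + F_R`, `F_R = ∑ g_k d_k g_k` (block diagonal). The second sum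
`G_R` has trace `∑ t((1-r_k) d_k) = ∑ t((1-r_k) E_k d_k) ≤ t((1-r_N) C)`
(`1-r_k ∈ F k` and `1 - r_k ≤ 1 - r_N`).
Let `r'` be the stopping for `8R`. By `stop_incr_t`,
`8R t(1-r'_N) ≤ t((1-r'_N) S_N) ≤ 2R t(1-r'_N) + 2 t((1-r'_N) F_R) + 2 t((1-r_N) C)`.
* `t((1-r'_N) F_R) ≤ R t(1-r'_N) + R^{1-s} t(F_R^s)` (`self_le_add_pow`), and
  `t(F_R^s) = ∑ t((g_k d_k g_k)^s) ≤ ∑ t(d_k^s)` (orthogonality of the `g_k` and `TS.N_proj_conj`).
* `t((1-r_N) C) ≤ η R t(1-r_N) + (η R)^{1-s} t(C^s)` (`self_le_add_pow`).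
Hence `4 R N(8R) ≤ 2 η R N(R) + 2 R^{1-s} ∑ t(d_k^s) + 2 (η R)^{1-s} t(C^s)`, so
`N(8R) ≤ (η/2) N(R) + C_η R^{-s} Q`, `Q = ∑ t(d_k^s) + t(C^s)`. With `η = 8^{-s}` (so
`(η/2) 8^s ≤ 1/2`) iterate downwards: `N(R) ≤ (η/2)^n N(8^{-n} R) + ∑_{l=1}^n (η/2)^{l-1} C_η
(8^{-l} R)^{-s} Q ≤ (η/2)^n t(1) + 2·8^s C_η R^{-s} Q` and let `n → ∞`.
Finally `r_N S_N r_N ≤ R r_N ≤ R 1`.
-/

namespace GD64

universe u

section

variable {A : Type u} [CStarAlgebra A] [PartialOrder A] [StarOrderedRing A] (T : TF A)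

/-- stopping projections of the increasing process with increments `d`. -/
noncomputable def rr (d : ℕ → A) (R : ℝ) (k : ℕ) : A :=
  T.stop (fun n => ∑ l ∈ Finset.range n, d l) R k

variable {T}
variable {d : ℕ → A} (hd : ∀ k, d k ∈ T.F (k + 1)) (h0 : ∀ k, 0 ≤ d k)

theorem rr_aux_mem (hd : ∀ k, d k ∈ T.F (k + 1)) (k : ℕ) :
    (fun n => ∑ l ∈ Finset.range n, d l) k ∈ T.F k := by
  refine sum_mem fun l hl => ?_
  exact T.F_mono (Nat.succ_le_of_lt (Finset.mem_range.mp hl)) (hd l)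

theorem rr_aux_sa (h0 : ∀ k, 0 ≤ d k) (k : ℕ) :
    IsSelfAdjoint ((fun n => ∑ l ∈ Finset.range n, d l) k) :=
  IsSelfAdjoint.of_nonneg (Finset.sum_nonneg fun l _ => h0 l)

include hd h0

theorem rr_proj {R : ℝ} (hR : 0 < R) (k : ℕ) : IsStarProjection (rr T d R k) :=
  TF.stop_proj (rr_aux_mem hd) (rr_aux_sa h0) hR k

theorem rr_mem {R : ℝ} (hR : 0 < R) (k : ℕ) : rr T d R k ∈ T.F k :=
  TF.stop_mem (rr_aux_mem hd) (rr_aux_sa h0) hR k

theorem rr_le {R : ℝ} (hR : 0 < R) {m k : ℕ} (h : m ≤ k) :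
    rr T d R m * rr T d R k = rr T d R k :=
  TF.stop_le (rr_aux_mem hd) (rr_aux_sa h0) hR h

theorem rr_le' {R : ℝ} (hR : 0 < R) {m k : ℕ} (h : m ≤ k) : rr T d R k ≤ rr T d R m :=
  proj_le_of_mul (rr_proj hd h0 hR k) (rr_proj hd h0 hR m) (rr_le hd h0 hR h)

theorem rr_comm {R : ℝ} (hR : 0 < R) {m k : ℕ} (h : m ≤ k) :
    rr T d R k * rr T d R m = rr T d R k :=
  proj_mul_comm (rr_proj hd h0 hR k) (rr_proj hd h0 hR m) (rr_le hd h0 hR h)

theorem gg_proj {R : ℝ} (hR : 0 < R) (k : ℕ) :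
    IsStarProjection (rr T d R k - rr T d R (k + 1)) :=
  TF.stop_jump_proj (rr_aux_mem hd) (rr_aux_sa h0) hR k

theorem rr_bound {R : ℝ} (hR : 0 < R) (k : ℕ) :
    rr T d R k * (∑ l ∈ Finset.range k, d l) * rr T d R k ≤ R • rr T d R k :=
  TF.stop_bound (rr_aux_mem hd) (rr_aux_sa h0) hR k

/-- orthogonality of the jumps -/
theorem gg_orth {R : ℝ} (hR : 0 < R) {k l : ℕ} (h : k ≠ l) :
    (rr T d R k - rr T d R (k + 1)) * (rr T d R l - rr T d R (l + 1)) = 0 := by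
  rcases lt_or_gt_of_ne h with h | h
  · have e1 := rr_le hd h0 hR (m := k) (k := l) h.le
    have e2 := rr_le hd h0 hR (m := k) (k := l + 1) (by omega)
    have e3 := rr_le hd h0 hR (m := k + 1) (k := l) h
    have e4 := rr_le hd h0 hR (m := k + 1) (k := l + 1) (by omega)
    rw [sub_mul, mul_sub, mul_sub, e1, e2, e3, e4]
    simp
  · have e1 := rr_comm hd h0 hR (m := l) (k := k) h.le
    have e2 := rr_comm hd h0 hR (m := l) (k := k + 1) (by omega)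
    have e3 := rr_comm hd h0 hR (m := l + 1) (k := k) h
    have e4 := rr_comm hd h0 hR (m := l + 1) (k := k + 1) (by omega)
    rw [sub_mul, mul_sub, mul_sub, e1, e2, e3, e4]
    simp

omit hd in
theorem rr_zero {R : ℝ} (hR : 0 < R) : rr T d R 0 = 1 := by
  have _ := h0
  exact T.stop_start hR (by simp)

/-- first part: `∑ r_k d_k r_k ≤ R 1 + ∑ g_k d_k g_k`. -/
theorem sum_first {R : ℝ} (hR : 0 < R) (N : ℕ) :
    ∑ k ∈ Finset.range N, rr T d R k * d k * rr T d R k ≤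
      R • (1 : A) + ∑ k ∈ Finset.range N, (rr T d R k - rr T d R (k + 1)) * d k *
        (rr T d R k - rr T d R (k + 1)) := by
  have h1 : ∑ k ∈ Finset.range N, rr T d R k * d k * rr T d R k =
      rr T d R N * (∑ l ∈ Finset.range N, d l) * rr T d R N +
      ∑ k ∈ Finset.range N, (rr T d R k - rr T d R (k + 1)) *
        (∑ l ∈ Finset.range (k + 1), d l) * (rr T d R k - rr T d R (k + 1)) :=
    TF.stop_incr_sum hd h0 hR N
  have h2 : ∀ k, (rr T d R k - rr T d R (k + 1)) * (∑ l ∈ Finset.range (k + 1), d l) *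
      (rr T d R k - rr T d R (k + 1)) ≤ R • (rr T d R k - rr T d R (k + 1)) +
      (rr T d R k - rr T d R (k + 1)) * d k * (rr T d R k - rr T d R (k + 1)) :=
    fun k => TF.stop_incr_jump hd h0 hR k
  have h3 := Finset.sum_le_sum (s := Finset.range N) fun k _ => h2 k
  rw [Finset.sum_add_distrib, ← Finset.smul_sum, Finset.sum_range_sub', rr_zero h0 hR] at h3
  rw [h1]
  refine (add_le_add (rr_bound hd h0 hR N) h3).trans (le_of_eq ?_)
  rw [← add_assoc, ← smul_add]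
  congr 2
  abel

/-- the second part: `t (∑ (1-r_k) d_k (1-r_k)) ≤ t (C (1 - r_N))`. -/
theorem sum_second {R : ℝ} (hR : 0 < R) (N : ℕ) :
    T.t (∑ k ∈ Finset.range N, (1 - rr T d R k) * d k * (1 - rr T d R k)) ≤
      T.t ((∑ k ∈ Finset.range N, T.E k (d k)) * (1 - rr T d R N)) := by
  rw [map_sum, Finset.sum_mul, map_sum]
  refine Finset.sum_le_sum fun k hk => ?_
  have hk' := (Finset.mem_range.mp hk).le
  have hp := (rr_proj hd h0 hR k).one_sub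
  rw [T.t_proj_conj hp, ← T.E_spec k (d k) _ (sub_mem (one_mem _) (rr_mem hd h0 hR k)),
    T.t_comm, T.t_comm (T.E k (d k))]
  exact T.t_mul_mono (sub_le_sub_left (rr_le' hd h0 hR hk') 1) (T.E_nonneg (h0 k))

/-- powers of the block diagonal part. -/
theorem pow_block {R : ℝ} (hR : 0 < R) (N n : ℕ) :
    (∑ k ∈ Finset.range N, (rr T d R k - rr T d R (k + 1)) * d k *
        (rr T d R k - rr T d R (k + 1))) ^ (n + 1) =
      ∑ k ∈ Finset.range N, ((rr T d R k - rr T d R (k + 1)) * d k *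
        (rr T d R k - rr T d R (k + 1))) ^ (n + 1) := by
  induction n with
  | zero => simp
  | succ n ih =>
    rw [pow_succ, ih, Finset.sum_mul_sum]
    refine Finset.sum_congr rfl fun k hk => ?_
    rw [Finset.sum_eq_single k, ← pow_succ]
    · intro l _ hl
      rw [pow_succ]
      have := gg_orth hd h0 hR (k := k) (l := l) (Ne.symm hl)
      calc _ = ((rr T d R k - rr T d R (k + 1)) * d k *
            (rr T d R k - rr T d R (k + 1))) ^ n * ((rr T d R k - rr T d R (k + 1)) * d k) *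
            ((rr T d R k - rr T d R (k + 1)) * (rr T d R l - rr T d R (l + 1))) * d l *
            (rr T d R l - rr T d R (l + 1)) := by noncomm_ring
        _ = 0 := by rw [this]; simp
    · intro h
      exact absurd hk h

theorem block_nonneg {R : ℝ} (hR : 0 < R) (k : ℕ) :
    0 ≤ (rr T d R k - rr T d R (k + 1)) * d k * (rr T d R k - rr T d R (k + 1)) :=
  proj_conj_nonneg (gg_proj hd h0 hR k) (h0 k)

theorem t_pow_block {R : ℝ} (hR : 0 < R) (N m : ℕ) :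
    T.t ((∑ k ∈ Finset.range N, (rr T d R k - rr T d R (k + 1)) * d k *
        (rr T d R k - rr T d R (k + 1))) ^ (2 ^ (m + 1))) ≤
      ∑ k ∈ Finset.range N, T.t (d k ^ (2 ^ (m + 1))) := by
  obtain ⟨n, hn⟩ : ∃ n, 2 ^ (m + 1) = n + 1 :=
    ⟨2 ^ (m + 1) - 1, by have := Nat.one_le_two_pow (n := m + 1); omega⟩
  rw [hn, pow_block hd h0 hR, ← hn, map_sum]
  refine Finset.sum_le_sum fun k _ => ?_
  have e1 : T.t (((rr T d R k - rr T d R (k + 1)) * d k *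
        (rr T d R k - rr T d R (k + 1))) ^ (2 ^ (m + 1))) =
      T.toTS.L m ((rr T d R k - rr T d R (k + 1)) * d k *
        (rr T d R k - rr T d R (k + 1))) := by
    rw [T.toTS.L_of_sa m (IsSelfAdjoint.of_nonneg (block_nonneg hd h0 hR k)).star_eq]
    rfl
  have e2 : T.t (d k ^ (2 ^ (m + 1))) = T.toTS.L m (d k) := by
    rw [T.toTS.L_of_sa m (IsSelfAdjoint.of_nonneg (h0 k)).star_eq]
    rfl
  rw [e1, e2, ← T.toTS.N_pow, ← T.toTS.N_pow]
  exact pow_le_pow_left₀ (T.toTS.N_nonneg _ _) (T.toTS.N_proj_conj m (gg_proj hd h0 hR k) _) _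

/-- The good-lambda inequality. -/
theorem good_lambda {R : ℝ} (hR : 0 < R) {η : ℝ} (hη : 0 < η) (N m : ℕ) :
    4 * R * T.t (1 - rr T d (8 * R) N) ≤
      2 * η * R * T.t (1 - rr T d R N) +
      2 * (R ^ (2 ^ (m + 1) - 1))⁻¹ * (∑ k ∈ Finset.range N, T.t (d k ^ (2 ^ (m + 1)))) +
      2 * ((η * R) ^ (2 ^ (m + 1) - 1))⁻¹ *
        T.t ((∑ k ∈ Finset.range N, T.E k (d k)) ^ (2 ^ (m + 1))) := by
  have h8 : (0 : ℝ) < 8 * R := by positivity
  have hs : 1 ≤ 2 ^ (m + 1) := Nat.one_le_two_pow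
  set s := 2 ^ (m + 1) with hsdef
  set q : A := 1 - rr T d (8 * R) N with hq
  have hqp : IsStarProjection q := (rr_proj hd h0 h8 N).one_sub
  have hq0 : 0 ≤ q := hqp.nonneg
  have hq1 : q ≤ 1 := by
    rw [hq]
    exact sub_le_self _ (rr_proj hd h0 h8 N).nonneg
  set F : A := ∑ k ∈ Finset.range N, (rr T d R k - rr T d R (k + 1)) * d k *
        (rr T d R k - rr T d R (k + 1)) with hF
  have hF0 : 0 ≤ F := Finset.sum_nonneg fun k _ => block_nonneg hd h0 hR k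
  set G : A := ∑ k ∈ Finset.range N, (1 - rr T d R k) * d k * (1 - rr T d R k) with hG
  have hG0 : 0 ≤ G := Finset.sum_nonneg fun k _ =>
    proj_conj_nonneg (rr_proj hd h0 hR k).one_sub (h0 k)
  set C : A := ∑ k ∈ Finset.range N, T.E k (d k) with hC
  have hC0 : 0 ≤ C := Finset.sum_nonneg fun k _ => T.E_nonneg (h0 k)
  -- the start
  have a1 : 8 * R * T.t q ≤ T.t ((∑ l ∈ Finset.range N, d l) * q) :=
    TF.stop_incr_t hd h0 h8 N
  have a2 : ∑ l ∈ Finset.range N, d l ≤ (2 : ℝ) • (R • (1 : A) + F) + (2 : ℝ) • G := by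
    have b1 := Finset.sum_le_sum (s := Finset.range N)
      fun k _ => split_le (rr_proj hd h0 hR k) (h0 k)
    rw [Finset.sum_add_distrib, ← Finset.smul_sum, ← Finset.smul_sum] at b1
    refine b1.trans ?_
    exact add_le_add (smul_le_smul_of_nonneg_left (sum_first hd h0 hR N) (by norm_num)) le_rfl
  have a3 := T.t_mul_mono a2 hq0
  have a4 : T.t (((2 : ℝ) • (R • (1 : A) + F) + (2 : ℝ) • G) * q) =
      2 * R * T.t q + 2 * T.t (F * q) + 2 * T.t (G * q) := by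
    simp only [add_mul, smul_mul_assoc, one_mul, map_add, map_smul, smul_eq_mul]
    ring
  have a5 : T.t (G * q) ≤ T.t (C * (1 - rr T d R N)) := by
    refine le_trans ?_ (sum_second hd h0 hR N)
    have := T.t_mul_mono hq1 hG0
    rw [one_mul, T.t_comm] at this
    exact this
  have a6 : T.t (F * q) ≤ R * T.t q + (R ^ (s - 1))⁻¹ *
      ∑ k ∈ Finset.range N, T.t (d k ^ s) := by
    have b1 := T.t_mul_mono (self_le_add_pow hF0 hR hs) hq0
    have b2 : T.t ((R • (1 : A) + (R ^ (s - 1))⁻¹ • F ^ s) * q) =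
        R * T.t q + (R ^ (s - 1))⁻¹ * T.t (F ^ s * q) := by
      simp only [add_mul, smul_mul_assoc, one_mul, map_add, map_smul, smul_eq_mul]
    have b3 : T.t (F ^ s * q) ≤ T.t (F ^ s) := by
      have := T.t_mul_mono hq1 (CStarAlgebra.pow_nonneg hF0 s)
      rw [one_mul, T.t_comm] at this
      exact this
    have b4 := t_pow_block hd h0 hR N m
    have b5 : (0 : ℝ) ≤ (R ^ (s - 1))⁻¹ := by positivity
    rw [b2] at b1
    refine b1.trans ?_
    have := mul_le_mul_of_nonneg_left (b3.trans b4) b5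
    linarith
  have hηR : 0 < η * R := by positivity
  have a7 : T.t (C * (1 - rr T d R N)) ≤ η * R * T.t (1 - rr T d R N) +
      ((η * R) ^ (s - 1))⁻¹ * T.t (C ^ s) := by
    have c0 : 0 ≤ (1 - rr T d R N) := (rr_proj hd h0 hR N).one_sub.nonneg
    have c1 : (1 - rr T d R N) ≤ 1 := sub_le_self _ (rr_proj hd h0 hR N).nonneg
    have b1 := T.t_mul_mono (self_le_add_pow hC0 hηR hs) c0
    have b2 : T.t (((η * R) • (1 : A) + ((η * R) ^ (s - 1))⁻¹ • C ^ s) *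
        (1 - rr T d R N)) =
        η * R * T.t (1 - rr T d R N) + ((η * R) ^ (s - 1))⁻¹ *
          T.t (C ^ s * (1 - rr T d R N)) := by
      simp only [add_mul, smul_mul_assoc, one_mul, map_add, map_smul, smul_eq_mul]
    have b3 : T.t (C ^ s * (1 - rr T d R N)) ≤ T.t (C ^ s) := by
      have := T.t_mul_mono c1 (CStarAlgebra.pow_nonneg hC0 s)
      rw [one_mul, T.t_comm] at this
      exact this
    have b5 : (0 : ℝ) ≤ ((η * R) ^ (s - 1))⁻¹ := by positivity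
    rw [b2] at b1
    refine b1.trans ?_
    have := mul_le_mul_of_nonneg_left b3 b5
    linarith
  rw [a4] at a3
  have a8 := a1.trans a3
  nlinarith [a8, a5, a6, a7]

end

/-- Numerical iteration. -/
theorem iterate_bound {f : ℝ → ℝ} {t1 Q K : ℝ} {s : ℕ} (hf : ∀ R, 0 < R → f R ≤ t1)
    (hK : 0 ≤ K) (hQ : 0 ≤ Q)
    (hstep : ∀ R, 0 < R → f (8 * R) ≤ ((8 : ℝ) ^ s)⁻¹ / 2 * f R + K * (R ^ s)⁻¹ * Q)
    {R : ℝ} (hR : 0 < R) : f R ≤ 2 * 8 ^ s * K * (R ^ s)⁻¹ * Q := by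
  have h8 : (0 : ℝ) < 8 ^ s := by positivity
  have key : ∀ n : ℕ, ∀ R, 0 < R →
      f R ≤ (((8 : ℝ) ^ s)⁻¹ / 2) ^ n * t1 + 2 * 8 ^ s * K * (R ^ s)⁻¹ * Q := by
    intro n
    induction n with
    | zero =>
      intro R hR
      have h1 := hf R hR
      have h2 : 0 ≤ 2 * 8 ^ s * K * (R ^ s)⁻¹ * Q := by positivity
      simp only [pow_zero, one_mul]
      linarith
    | succ n ih =>
      intro R hR
      have hR8 : 0 < R / 8 := by positivity
      have h1 := hstep (R / 8) hR8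
      have h2 := ih (R / 8) hR8
      have e : 8 * (R / 8) = R := by ring
      rw [e] at h1
      have e2 : ((R / 8) ^ s)⁻¹ = 8 ^ s * (R ^ s)⁻¹ := by
        rw [div_pow, inv_div, div_eq_mul_inv]
      rw [e2] at h1 h2
      have h3 : (0 : ℝ) ≤ ((8 : ℝ) ^ s)⁻¹ / 2 := by positivity
      have h4 := mul_le_mul_of_nonneg_left h2 h3
      refine h1.trans ((add_le_add h4 le_rfl).trans (le_of_eq ?_))
      have e3 : ((8 : ℝ) ^ s)⁻¹ * 8 ^ s = 1 := inv_mul_cancel₀ h8.ne'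
      calc _ = (((8 : ℝ) ^ s)⁻¹ / 2) ^ (n + 1) * t1 +
            (((8 : ℝ) ^ s)⁻¹ * 8 ^ s) * (8 ^ s * K * (R ^ s)⁻¹ * Q) +
            8 ^ s * K * (R ^ s)⁻¹ * Q := by ring
        _ = _ := by rw [e3]; ring
  have hlim : Filter.Tendsto (fun n : ℕ => (((8 : ℝ) ^ s)⁻¹ / 2) ^ n * t1 +
      2 * 8 ^ s * K * (R ^ s)⁻¹ * Q) Filter.atTop
      (nhds (0 * t1 + 2 * 8 ^ s * K * (R ^ s)⁻¹ * Q)) := by
    refine ((tendsto_pow_atTop_nhds_zero_of_lt_one (by positivity) ?_).mul_const t1).add_const _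
    have : ((8 : ℝ) ^ s)⁻¹ ≤ 1 := inv_le_one_of_one_le₀ (one_le_pow₀ (by norm_num))
    linarith
  have := ge_of_tendsto' hlim fun n => key n R hR
  simpa using this

theorem rosen (m : ℕ) : ∃ C : ℝ, 0 < C ∧
    ∀ (A : Type u) [CStarAlgebra A] [PartialOrder A] [StarOrderedRing A] (T : TF A)
      (N : ℕ) (d : ℕ → A), (∀ k, d k ∈ T.F (k + 1)) → (∀ k, 0 ≤ d k) →
      ∀ R : ℝ, 0 < R → ∃ r ∈ T.F N, IsStarProjection r ∧
        r * (∑ k ∈ Finset.range N, d k) * r ≤ R • (1 : A) ∧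
        T.t (1 - r) ≤ C * (R ^ (2 ^ (m + 1)))⁻¹ *
          ((∑ k ∈ Finset.range N, T.t (d k ^ (2 ^ (m + 1)))) +
            T.t ((∑ k ∈ Finset.range N, T.E k (d k)) ^ (2 ^ (m + 1)))) := by
  obtain ⟨s, hs, hsdef⟩ : ∃ s, 1 ≤ s ∧ s = 2 ^ (m + 1) := ⟨_, Nat.one_le_two_pow, rfl⟩
  have h8 : (0 : ℝ) < 8 ^ s := by positivity
  -- `η = 8^{-s}`, `K = η^{1-s}/2`
  obtain ⟨K, hK0, hKdef⟩ : ∃ K : ℝ, 0 < K ∧ K = ((8 : ℝ) ^ s) ^ (s - 1) / 2 :=
    ⟨_, by positivity, rfl⟩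
  refine ⟨2 * 8 ^ s * K, by positivity, ?_⟩
  intro A _ _ _ T N d hd h0 R hR
  refine ⟨rr T d R N, rr_mem hd h0 hR N, rr_proj hd h0 hR N, ?_, ?_⟩
  · refine (rr_bound hd h0 hR N).trans (smul_le_smul_of_nonneg_left ?_ hR.le)
    exact (rr_proj hd h0 hR N).le_one
  rw [← hsdef]
  set P : ℝ := ∑ k ∈ Finset.range N, T.t (d k ^ s) with hP
  set Q : ℝ := T.t ((∑ k ∈ Finset.range N, T.E k (d k)) ^ s) with hQ
  have hP0 : 0 ≤ P := Finset.sum_nonneg fun k _ => T.t_nonneg (CStarAlgebra.pow_nonneg (h0 k) s)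
  have hQ0 : 0 ≤ Q := T.t_nonneg (CStarAlgebra.pow_nonneg
    (Finset.sum_nonneg fun k _ => T.E_nonneg (h0 k)) s)
  refine iterate_bound (f := fun R => T.t (1 - rr T d R N)) (t1 := T.t 1) ?_ hK0.le
    (add_nonneg hP0 hQ0) ?_ hR
  · intro R hR
    exact T.t_mono (sub_le_self _ (rr_proj hd h0 hR N).nonneg)
  · intro R hR
    have h1 := good_lambda hd h0 hR (η := ((8 : ℝ) ^ s)⁻¹) (by positivity) N m
    rw [← hsdef] at h1
    rw [← hP, ← hQ] at h1
    have hRs : R ^ s = R ^ (s - 1) * R := by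
      rw [← pow_succ]
      congr 1
      omega
    have hR1 : 0 < R ^ (s - 1) := by positivity
    have e1 : ((((8 : ℝ) ^ s)⁻¹ * R) ^ (s - 1))⁻¹ = 2 * K * (R ^ (s - 1))⁻¹ := by
      rw [hKdef, mul_pow, mul_inv, inv_pow, inv_inv]
      ring
    rw [e1] at h1
    have hK1 : 1 ≤ 2 * K := by
      rw [hKdef]
      have : (1 : ℝ) ≤ (8 ^ s) ^ (s - 1) := one_le_pow₀ (one_le_pow₀ (by norm_num))
      linarith
    show T.t (1 - rr T d (8 * R) N) ≤ _
    rw [hRs, mul_inv]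
    have h2 : (R ^ (s - 1))⁻¹ * P ≤ 2 * K * ((R ^ (s - 1))⁻¹ * P) := by
      have : 0 ≤ (R ^ (s - 1))⁻¹ * P := by positivity
      nlinarith
    have h3 : 4 * R * T.t (1 - rr T d (8 * R) N) ≤
        4 * R * (((8 : ℝ) ^ s)⁻¹ / 2 * T.t (1 - rr T d R N) +
          K * ((R ^ (s - 1))⁻¹ * R⁻¹) * (P + Q)) := by
      refine h1.trans ?_
      have e4 : 4 * R * (((8 : ℝ) ^ s)⁻¹ / 2 * T.t (1 - rr T d R N) +
          K * ((R ^ (s - 1))⁻¹ * R⁻¹) * (P + Q)) =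
          2 * ((8 : ℝ) ^ s)⁻¹ * R * T.t (1 - rr T d R N) +
          (R * R⁻¹) * (2 * (2 * K * ((R ^ (s - 1))⁻¹ * P)) +
            2 * (2 * K * (R ^ (s - 1))⁻¹) * Q) := by ring
      rw [e4, mul_inv_cancel₀ hR.ne', one_mul]
      linarith
    exact le_of_mul_le_mul_left h3 (by positivity)

end GD64
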