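import Pool.Agent.GD64.LowC
import Pool.Agent.GD64.LowD
import Pool.Agent.GD64.Rosen

/-!
# GD64/Low: weak type estimate for one truncated piece

Combine `rosen` (for `d_k = star y_k * y_k`), `lowC_cond`, `lowC_diag`.
-/

namespace GD64

universe u

theorem low (m : ℕ) : ∃ C : ℝ, 0 < C ∧
    ∀ (A : Type u) [CStarAlgebra A] [PartialOrder A] [StarOrderedRing A]
      (T : TF A) (e : ℕ → ℕ → A) (_ : FlagSys T e) (l : ℝ) (_ : 0 < l) (i : ℕ)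
      (X : ℕ → A) (_ : Mart T X) (_ : ∀ k, 0 ≤ X k) (_ : ∀ k, X k ≤ (l * 2 ^ i) • (1 : A))
      (_ : ∀ j, 1 ≤ j → j ≤ i → ∀ k, T.qq X (l * 2 ^ j) k * e j k = e j k)
      (_ : ∀ j, 1 ≤ j → j ≤ i → ∀ k,
        T.zz X (l * 2 ^ j) (l * 2 ^ i * (l * 2 ^ j)) k * e j k = e j k)
      (D : ℝ) (_ : T.t (X 0) ≤ l * 2 ^ i * D) (b : ℕ) (_ : b ≤ 1) (N : ℕ) (R : ℝ) (_ : 0 < R),
      ∃ r ∈ T.F N, IsStarProjection r ∧
        r * (∑ k ∈ Finset.range N, star (Tr b (ch e i k) (i + 1) (dd X k)) *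
            Tr b (ch e i k) (i + 1) (dd X k)) * r ≤ R • (1 : A) ∧
        T.t (1 - r) ≤ C * ((l * 2 ^ i) ^ 2 / R) ^ (2 ^ (m + 1)) * D := by
  obtain ⟨C₀, hC₀, h₀⟩ := rosen.{u} m
  obtain ⟨C₁, hC₁, h₁⟩ := lowC_diag.{u} m
  obtain ⟨C₂, hC₂, h₂⟩ := lowC_cond.{u} m
  refine ⟨C₀ * (C₁ + C₂), by positivity, ?_⟩
  intro A _ _ _ T e he l hl i X hX h0 h1 hq hz D hD b hb N R hR
  obtain ⟨r, hrF, hrp, hr1, hr2⟩ := h₀ A T N
    (fun k => star (Tr b (ch e i k) (i + 1) (dd X k)) * Tr b (ch e i k) (i + 1) (dd X k))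
    (fun k => mul_mem (star_mem (he.Tr_mem b i k (i + 1) (hX.dd_mem k)))
      (he.Tr_mem b i k (i + 1) (hX.dd_mem k)))
    (fun k => star_mul_self_nonneg _) R hR
  refine ⟨r, hrF, hrp, hr1, hr2.trans ?_⟩
  have e1 := h₁ A T e he l hl i X hX h0 h1 D hD b hb N
  have e2 := h₂ A T e he l hl i X hX h0 h1 hq hz D hD b hb N
  have e3 : C₀ * (R ^ (2 ^ (m + 1)))⁻¹ *
      ((∑ k ∈ Finset.range N, T.t
          ((star (Tr b (ch e i k) (i + 1) (dd X k)) *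
            Tr b (ch e i k) (i + 1) (dd X k)) ^ (2 ^ (m + 1)))) +
      T.t ((∑ k ∈ Finset.range N, T.E k
          (star (Tr b (ch e i k) (i + 1) (dd X k)) *
            Tr b (ch e i k) (i + 1) (dd X k))) ^ (2 ^ (m + 1)))) ≤
      C₀ * (R ^ (2 ^ (m + 1)))⁻¹ *
        (C₁ * ((l * 2 ^ i) ^ 2) ^ (2 ^ (m + 1)) * D + C₂ * ((l * 2 ^ i) ^ 2) ^ (2 ^ (m + 1)) * D) :=
    mul_le_mul_of_nonneg_left (add_le_add e1 e2) (by positivity)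
  refine e3.trans (le_of_eq ?_)
  rw [div_pow]
  ring

end GD64
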