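import Pool.Agent.GD64.High
import Pool.Agent.GD64.Low

/-!
# GD64/CoreCol: the column bound for `Z^b`

Data: positive martingales `X i` with `X i k ≤ l 2^i` (`1 ≤ i ≤ J`), numbers `D_j` with
`2 D_{j+1} ≤ D_j ≤ K D_{j+1}`, `∑_{L<i≤J} t(X i 0) ≤ l 2^L D_L`.
`Z^b_k = ∑_{i=1}^J Tr b (ch e i k) (i+1) (dd (X i) k)`, `b = 0, 1`. `y = Z^1`, `z = star Z^0`:
`y_k + z_k = ∑ dd (X i) k` by `star_sub_Tr`.

Column bound for `Z^b` at level `L ≥ 1` (`λ_L = l 2^L`, `s = 2^(m+1)` with `(9/16)^s K ≤ 1/2`):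
for `i > L` and `p ≤ e_{L,N} ≤ e_{L,k}`: `Tr b (ch e i k) (i+1) X * e_{L,k} =
Tr b (ch e L k) (L+1) (e_L X e_L)`
(`(c_{j+1} - c_j) e_L = 0` for `j ≥ L`, `= c_{j+1} - c_j` for `j < L`; `c_{j+b} = c_{j+b} e_L` for `j < L`).
So `Z_k p = (Y_k + ∑_{1≤i≤min(L,J)} Tr b (ch e i k) (i+1) (dd (X i) k)) p` with
`Y_k = Tr b (ch e L k) (L+1) (e_L dd(∑_{L<i≤J} X i) e_L)`.
`weighted_sq_le` with `w = 1/4` for `Y` and `w_i = (1/4)(2/3)^(L-i)` for `i ≤ L` (sum `≤ 1`):
`|Z_k p|² ≤ p (4 |Y_k|² + ∑_i w_i⁻¹ |Tr ..|²) p`. `high` with `R = λ_L`: `p_h`,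
`t(1-p_h) ≤ 21 D_L`. `low` with `R_i = λ_L² w_i²`: `r_i`, `t(1-r_i) ≤ C (λ_i²/R_i)^s D'_i`
`= C 16^s ((9/16)^s)^(L-i) D'_i`, `D'_i = K D_i` (`t(X i 0) ≤ ∑_{i-1<i'≤J} t(X i' 0) ≤ l 2^(i-1) D_{i-1} ≤
l 2^i K D_i`), `D_i ≤ K^(L-i) D_L`, so `t(1-r_i) ≤ C 16^s K 2^(-(L-i)) D_L`.
`p = e_{L,N} ∧ p_h ∧ ⋀ r_i`: `p (∑ |Z_k|²) p ≤ 4 λ_L² + ∑ w_i⁻¹ R_i ≤ 5 λ_L²`.
`t(1 - e_{L,N}) ≤ ∑_{j≥L} (D_j + D_{j-1}) ≤ 2(1+K) D_L`.
-/

namespace GD64

universe u

section aux

variable {A : Type*} [CStarAlgebra A] [PartialOrder A] [StarOrderedRing A]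

theorem cc_star_conj {p : A} (x : A) (hp : IsStarProjection p) :
    p * (star x * x) * p = star (x * p) * (x * p) := by
  rw [star_mul, hp.isSelfAdjoint.star_eq]
  noncomm_ring

theorem cc_le_one {p : A} (hp : IsStarProjection p) : p ≤ 1 := by
  have h1 : IsStarProjection (1 - p) := hp.one_sub
  have h2 : 0 ≤ 1 - p := h1.nonneg
  exact sub_nonneg.mp h2

theorem cc_conj_le {p q a : A} {R : ℝ} (hp : IsStarProjection p) (hq : IsStarProjection q)
    (hqp : q * p = p) (hR : 0 ≤ R) (h : q * a * q ≤ R • (1 : A)) : p * a * p ≤ R • (1 : A) := by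
  have hpq : p * q = p := proj_mul_comm hp hq hqp
  have h1 := proj_conj_mono hp h
  have e1 : p * (q * a * q) * p = p * a * p := by
    calc p * (q * a * q) * p = (p * q) * a * (q * p) := by noncomm_ring
      _ = _ := by rw [hpq, hqp]
  have e2 : p * (R • (1 : A)) * p = R • p := by
    rw [mul_smul_comm, smul_mul_assoc, mul_one, hp.isIdempotentElem.eq]
  rw [e1, e2] at h1
  exact h1.trans (smul_le_smul_of_nonneg_left (cc_le_one hp) hR)

theorem cc_dd_sum {ι : Type*} (s : Finset ι) (X : ι → ℕ → A) (k : ℕ) :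
    dd (fun k => ∑ i ∈ s, X i k) k = ∑ i ∈ s, dd (X i) k := by
  simp only [dd, Finset.sum_sub_distrib]

theorem cc_Tr_zero (b : ℕ) (c : ℕ → A) (n : ℕ) : Tr b c n 0 = 0 := by
  simp [Tr]

theorem cc_Tr_sum {ι : Type*} (b : ℕ) (c : ℕ → A) (n : ℕ) (s : Finset ι) (X : ι → A) :
    Tr b c n (∑ i ∈ s, X i) = ∑ i ∈ s, Tr b c n (X i) := by
  classical
  induction s using Finset.induction_on with
  | empty => simp [cc_Tr_zero]
  | insert a s ha ih => rw [Finset.sum_insert ha, Finset.sum_insert ha, Tr_add, ih]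

/-- On the range of `e_L` the pieces above `L` are merged. -/
theorem cc_Z_mul {T : TF A} {e : ℕ → ℕ → A} (he : FlagSys T e) {b : ℕ} (hb : b ≤ 1) {L J : ℕ}
    (X : ℕ → ℕ → A) (k : ℕ) {p : A} (hp : e L k * p = p) :
    (∑ i ∈ Finset.Ioc 0 J, Tr b (ch e i k) (i + 1) (dd (X i) k)) * p =
      (Tr b (ch e L k) (L + 1)
          (e L k * dd (fun k => ∑ i ∈ Finset.Ioc L J, X i k) k * e L k) +
        ∑ i ∈ Finset.Ioc 0 (min L J), Tr b (ch e i k) (i + 1) (dd (X i) k)) * p := by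
  have hsplit : Finset.Ioc 0 J = Finset.Ioc L J ∪ Finset.Ioc 0 (min L J) := by
    ext i
    simp only [Finset.mem_Ioc, Finset.mem_union]
    omega
  have hdis : Disjoint (Finset.Ioc L J) (Finset.Ioc 0 (min L J)) := by
    rw [Finset.disjoint_left]
    intro i
    simp only [Finset.mem_Ioc]
    omega
  have e1 : (e L k * dd (fun k => ∑ i ∈ Finset.Ioc L J, X i k) k * e L k) =
      ∑ i ∈ Finset.Ioc L J, e L k * dd (X i) k * e L k := by
    rw [cc_dd_sum, Finset.mul_sum, Finset.sum_mul]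
  rw [hsplit, Finset.sum_union hdis, add_mul, add_mul, e1, cc_Tr_sum]
  have e2 : (∑ i ∈ Finset.Ioc L J, Tr b (ch e i k) (i + 1) (dd (X i) k)) * p =
      (∑ i ∈ Finset.Ioc L J, Tr b (ch e L k) (L + 1) (e L k * dd (X i) k * e L k)) * p := by
    rw [Finset.sum_mul, Finset.sum_mul]
    refine Finset.sum_congr rfl fun i hi => ?_
    have hLi : L ≤ i := (Finset.mem_Ioc.mp hi).1.le
    rw [← he.Tr_mul hb hLi k (dd (X i) k), mul_assoc _ (e L k) p, hp]
  rw [e2]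

end aux

section num

theorem cc_D_le {K : ℝ} (hK : 1 ≤ K) {D : ℕ → ℝ} (hDK : ∀ j, D j ≤ K * D (j + 1)) (i n : ℕ) :
    D i ≤ K ^ n * D (i + n) := by
  induction n with
  | zero => simp
  | succ n ih =>
    have h := hDK (i + n)
    have h2 : K ^ n * D (i + n) ≤ K ^ n * (K * D (i + n + 1)) :=
      mul_le_mul_of_nonneg_left h (by positivity)
    calc D i ≤ K ^ n * D (i + n) := ih
      _ ≤ K ^ n * (K * D (i + n + 1)) := h2
      _ = K ^ (n + 1) * D (i + (n + 1)) := by rw [pow_succ, mul_assoc]; rfl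

theorem cc_D_sum {D : ℕ → ℝ} (hD0 : ∀ j, 0 ≤ D j) (hDd : ∀ j, 2 * D (j + 1) ≤ D j) (L J : ℕ) :
    ∑ j ∈ Finset.Icc L J, D j ≤ 2 * D L := by
  have key : ∀ n, ∑ r ∈ Finset.range n, D (L + r) + 2 * D (L + n) ≤ 2 * D L := by
    intro n
    induction n with
    | zero => simp
    | succ n ih =>
      rw [Finset.sum_range_succ]
      have := hDd (L + n)
      have e : D (L + (n + 1)) = D (L + n + 1) := rfl
      rw [e]
      linarith
  have e : Finset.Icc L J = Finset.Ico L (J + 1) := by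
    ext i
    simp only [Finset.mem_Icc, Finset.mem_Ico]
    omega
  rw [e, Finset.sum_Ico_eq_sum_range]
  have := key (J + 1 - L)
  have := hD0 (L + (J + 1 - L))
  linarith

theorem cc_geom {r : ℝ} (hr : 0 ≤ r) (hr1 : r < 1) (L M : ℕ) (hM : M ≤ L) :
    ∑ i ∈ Finset.Ioc 0 M, r ^ (L - i) ≤ 1 / (1 - r) := by
  have key : ∀ L : ℕ, ∑ i ∈ Finset.Ioc 0 L, r ^ (L - i) ≤ 1 / (1 - r) := by
    intro L
    induction L with
    | zero =>
      simp only [le_refl, Finset.Ioc_eq_empty_of_le, Finset.sum_empty]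
      exact div_nonneg zero_le_one (by linarith)
    | succ n ih =>
      rw [Finset.sum_Ioc_succ_top (Nat.zero_le n)]
      have e1 : ∑ i ∈ Finset.Ioc 0 n, r ^ (n + 1 - i) =
          r * ∑ i ∈ Finset.Ioc 0 n, r ^ (n - i) := by
        rw [Finset.mul_sum]
        refine Finset.sum_congr rfl fun i hi => ?_
        have hi2 := (Finset.mem_Ioc.mp hi).2
        rw [Nat.succ_sub hi2, pow_succ, mul_comm]
      rw [e1, Nat.sub_self, pow_zero]
      have h2 : r * ∑ i ∈ Finset.Ioc 0 n, r ^ (n - i) ≤ r * (1 / (1 - r)) :=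
        mul_le_mul_of_nonneg_left ih hr
      have h3 : r * (1 / (1 - r)) + 1 = 1 / (1 - r) := by
        have : (1 - r) ≠ 0 := by linarith
        field_simp
        ring
      linarith
  refine le_trans (Finset.sum_le_sum_of_subset_of_nonneg ?_ ?_) (key L)
  · intro i
    simp only [Finset.mem_Ioc]
    omega
  · intro i _ _
    positivity

theorem cc_exists_m (K : ℝ) (hK : 1 ≤ K) : ∃ m : ℕ, ((9 : ℝ) / 16) ^ (2 ^ (m + 1)) * K ≤ 1 / 2 := by
  have h := tendsto_pow_atTop_nhds_zero_of_lt_one (r := (9 : ℝ) / 16) (by norm_num) (by norm_num)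
  have hpos : 0 < 1 / (2 * K) := by positivity
  obtain ⟨n0, hn0⟩ := (h.eventually (gt_mem_nhds hpos)).exists_forall_of_atTop
  refine ⟨n0, ?_⟩
  have h2 : n0 ≤ 2 ^ (n0 + 1) := by
    have := Nat.lt_two_pow_self (n := n0 + 1)
    omega
  have h3 := hn0 _ h2
  have hKp : 0 < K := by linarith
  rw [lt_div_iff₀ (by positivity)] at h3
  linarith

end num


theorem cc_main {m : ℕ} {Cl K : ℝ} (hK : 1 ≤ K) (hCl : 0 < Cl)
    (hm : ((9 : ℝ) / 16) ^ (2 ^ (m + 1)) * K ≤ 1 / 2)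
    {A : Type u} [CStarAlgebra A] [PartialOrder A] [StarOrderedRing A] {T : TF A}
    {l : ℝ} (hl : 0 < l) {J : ℕ} {X : ℕ → ℕ → A}
    {D : ℕ → ℝ} (hD0 : ∀ j, 0 ≤ D j)
    (hD : ∀ L, ∑ i ∈ Finset.Ioc L J, T.t (X i 0) ≤ l * 2 ^ L * D L)
    (hDd : ∀ j, 2 * D (j + 1) ≤ D j) (hDK : ∀ j, D j ≤ K * D (j + 1))
    {e : ℕ → ℕ → A} (he : FlagSys T e)
    (ht : ∀ j, 1 ≤ j → ∀ N, T.t (1 - e j N) ≤ ∑ j' ∈ Finset.Icc j J,
        (T.t (∑ i ∈ Finset.Ioc j' J, X i 0) / (l * 2 ^ j') +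
          2 * ∑ i ∈ Finset.Icc j' J, T.t (X i 0) / (l * 2 ^ j')))
    {b : ℕ} (hb : b ≤ 1) {L : ℕ} (hL : 1 ≤ L) (N : ℕ)
    {ph : A} (hphm : ph ∈ T.F N) (hphp : IsStarProjection ph)
    (hphb : ph * (∑ k ∈ Finset.range N,
        star (Tr b (ch e L k) (L + 1)
          (e L k * dd (fun k => ∑ i ∈ Finset.Ioc L J, X i k) k * e L k)) *
          Tr b (ch e L k) (L + 1)
          (e L k * dd (fun k => ∑ i ∈ Finset.Ioc L J, X i k) k * e L k)) * ph ≤
            ((l * 2 ^ L) ^ 2) • (1 : A))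
    (hpht : T.t (1 - ph) ≤ 21 * D L)
    {r : ℕ → A} (hrm : ∀ i ∈ Finset.Ioc 0 (min L J), r i ∈ T.F N)
    (hrp : ∀ i ∈ Finset.Ioc 0 (min L J), IsStarProjection (r i))
    (hrb : ∀ i ∈ Finset.Ioc 0 (min L J), r i * (∑ k ∈ Finset.range N,
        star (Tr b (ch e i k) (i + 1) (dd (X i) k)) *
            Tr b (ch e i k) (i + 1) (dd (X i) k)) * r i ≤
              ((l * 2 ^ L) ^ 2 * ((1 / 4) * (2 / 3) ^ (L - i)) ^ 2) • (1 : A))
    (hrt : ∀ i ∈ Finset.Ioc 0 (min L J), T.t (1 - r i) ≤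
      Cl * ((l * 2 ^ i) ^ 2 / ((l * 2 ^ L) ^ 2 * ((1 / 4) * (2 / 3) ^ (L - i)) ^ 2)) ^
        (2 ^ (m + 1)) * (K * D i)) :
    ∃ p ∈ T.F N, IsStarProjection p ∧
      T.t (1 - p) ≤ (5 + 2 * (1 + K) + 21 + 2 * (Cl * 16 ^ (2 ^ (m + 1)) * K)) * D L ∧
        p * (∑ k ∈ Finset.range N,
          star (∑ i ∈ Finset.Ioc 0 J, Tr b (ch e i k) (i + 1) (dd (X i) k)) *
            (∑ i ∈ Finset.Ioc 0 J, Tr b (ch e i k) (i + 1) (dd (X i) k))) * p ≤
          ((5 + 2 * (1 + K) + 21 + 2 * (Cl * 16 ^ (2 ^ (m + 1)) * K)) *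
            (l * 2 ^ L) ^ 2) • (1 : A) := by
  classical
  obtain ⟨g1, hg1m, ⟨hg1p, hg1r, -⟩, hg1t⟩ :=
    T.exists_inf N (Finset.Ioc 0 (min L J)) r hrp hrm
  obtain ⟨g2, hg2m, hg2p, hg2e, hg2h, -, hg2t⟩ :=
    T.meet N (e L N) ph (he.mem L N) hphm (he.proj L N) hphp
  obtain ⟨p, hpm, hpp, hp1, hp2, -, hpt⟩ := T.meet N g1 g2 hg1m hg2m hg1p hg2p
  have hpr : ∀ i ∈ Finset.Ioc 0 (min L J), r i * p = p := by
    intro i hi
    calc r i * p = r i * (g1 * p) := by rw [hp1]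
      _ = (r i * g1) * p := by rw [mul_assoc]
      _ = p := by rw [hg1r i hi, hp1]
  have hpe : e L N * p = p := by
    calc e L N * p = e L N * (g2 * p) := by rw [hp2]
      _ = (e L N * g2) * p := by rw [mul_assoc]
      _ = p := by rw [hg2e, hp2]
  have hph : ph * p = p := by
    calc ph * p = ph * (g2 * p) := by rw [hp2]
      _ = (ph * g2) * p := by rw [mul_assoc]
      _ = p := by rw [hg2h, hp2]
  have hpek : ∀ k ∈ Finset.range N, e L k * p = p := by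
    intro k hk
    have hkN : k ≤ N := (Finset.mem_range.mp hk).le
    calc e L k * p = e L k * (e L N * p) := by rw [hpe]
      _ = (e L k * e L N) * p := by rw [mul_assoc]
      _ = p := by rw [he.dec_le L hkN, hpe]
  set Y : ℕ → A := fun k => Tr b (ch e L k) (L + 1)
          (e L k * dd (fun k => ∑ i ∈ Finset.Ioc L J, X i k) k * e L k) with hY
  set Z : ℕ → ℕ → A := fun i k => Tr b (ch e i k) (i + 1) (dd (X i) k) with hZ
  have hKp : 0 < K := by linarith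
  have hlam : 0 < l * 2 ^ L := by positivity
  refine ⟨p, hpm, hpp, ?_, ?_⟩
  · -- the trace estimate
    have hg2t' : T.t (1 - e L N) ≤ 2 * (1 + K) * D L := by
      refine (ht L hL N).trans ?_
      have h1 : ∀ j' ∈ Finset.Icc L J, (T.t (∑ i ∈ Finset.Ioc j' J, X i 0) / (l * 2 ^ j') +
          2 * ∑ i ∈ Finset.Icc j' J, T.t (X i 0) / (l * 2 ^ j')) ≤ (1 + K) * D j' := by
        intro j' hj'
        have hj1 : 1 ≤ j' := hL.trans (Finset.mem_Icc.mp hj').1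
        obtain ⟨n, rfl⟩ : ∃ n, j' = n + 1 := ⟨j' - 1, by omega⟩
        have hA : T.t (∑ i ∈ Finset.Ioc (n + 1) J, X i 0) / (l * 2 ^ (n + 1)) ≤ D (n + 1) := by
          rw [T.t_sum, div_le_iff₀ (by positivity)]
          have := hD (n + 1)
          linarith
        have hB : ∑ i ∈ Finset.Icc (n + 1) J, T.t (X i 0) / (l * 2 ^ (n + 1)) ≤ D n / 2 := by
          have e1 : Finset.Icc (n + 1) J = Finset.Ioc n J := by
            ext i
            simp only [Finset.mem_Icc, Finset.mem_Ioc]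
            omega
          rw [e1, ← Finset.sum_div, div_le_iff₀ (by positivity)]
          refine (hD n).trans (le_of_eq ?_)
          rw [pow_succ]
          ring
        have hC := hDK n
        linarith
      refine (Finset.sum_le_sum h1).trans ?_
      rw [← Finset.mul_sum]
      have h2 := cc_D_sum hD0 hDd L J
      have h3 := mul_le_mul_of_nonneg_left h2 (show (0 : ℝ) ≤ 1 + K by linarith)
      linarith
    have hrt' : ∑ i ∈ Finset.Ioc 0 (min L J), T.t (1 - r i) ≤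
        2 * (Cl * 16 ^ (2 ^ (m + 1)) * K) * D L := by
      have h1 : ∀ i ∈ Finset.Ioc 0 (min L J), T.t (1 - r i) ≤
          (Cl * 16 ^ (2 ^ (m + 1)) * K) * D L * (1 / 2) ^ (L - i) := by
        intro i hi
        have hiL : i ≤ L := (Finset.mem_Ioc.mp hi).2.trans (min_le_left _ _)
        refine (hrt i hi).trans ?_
        obtain ⟨n, rfl⟩ : ∃ n, L = i + n := ⟨L - i, by omega⟩
        have hn : i + n - i = n := by omega
        rw [hn]
        have e1 : (l * 2 ^ i) ^ 2 / ((l * 2 ^ (i + n)) ^ 2 * ((1 / 4) * (2 / 3) ^ n) ^ 2) =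
            16 * ((9 : ℝ) / 16) ^ n := by
          have h4 : ((9 : ℝ) / 16) ^ n = 1 / (((2 : ℝ) ^ n) ^ 2 * ((2 / 3) ^ n) ^ 2) := by
            rw [← pow_mul, ← pow_mul, mul_comm n 2, pow_mul, pow_mul, ← mul_pow]
            rw [← one_div_pow]
            norm_num
          rw [h4, pow_add]
          have hl' : l ≠ 0 := hl.ne'
          field_simp
          ring
        rw [e1, mul_pow, ← pow_mul, mul_comm n, pow_mul]
        have h5 := cc_D_le hK hDK i n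
        have h6 : (((9 : ℝ) / 16) ^ (2 ^ (m + 1))) ^ n * K ^ n ≤ (1 / 2) ^ n := by
          rw [← mul_pow]
          exact pow_le_pow_left₀ (by positivity) hm n
        have hDn := hD0 (i + n)
        calc Cl * (16 ^ 2 ^ (m + 1) * (((9 : ℝ) / 16) ^ 2 ^ (m + 1)) ^ n) * (K * D i)
            = (Cl * 16 ^ 2 ^ (m + 1) * K * (((9 : ℝ) / 16) ^ 2 ^ (m + 1)) ^ n) * D i := by ring
          _ ≤ (Cl * 16 ^ 2 ^ (m + 1) * K * (((9 : ℝ) / 16) ^ 2 ^ (m + 1)) ^ n) *
              (K ^ n * D (i + n)) := mul_le_mul_of_nonneg_left h5 (by positivity)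
          _ = (Cl * 16 ^ 2 ^ (m + 1) * K * D (i + n)) *
              ((((9 : ℝ) / 16) ^ 2 ^ (m + 1)) ^ n * K ^ n) := by ring
          _ ≤ (Cl * 16 ^ 2 ^ (m + 1) * K * D (i + n)) * (1 / 2) ^ n :=
              mul_le_mul_of_nonneg_left h6 (by positivity)
      refine (Finset.sum_le_sum h1).trans ?_
      rw [← Finset.mul_sum]
      have h2 := cc_geom (r := 1 / 2) (by norm_num) (by norm_num) L (min L J) (min_le_left _ _)
      have h3 : (0 : ℝ) ≤ (Cl * 16 ^ (2 ^ (m + 1)) * K) * D L := by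
        have := hD0 L
        positivity
      have h4 := mul_le_mul_of_nonneg_left h2 h3
      norm_num at h4 ⊢
      linarith
    have hDL := hD0 L
    linarith
  · -- the operator estimate
    have step1 : p * (∑ k ∈ Finset.range N,
          star (∑ i ∈ Finset.Ioc 0 J, Z i k) * (∑ i ∈ Finset.Ioc 0 J, Z i k)) * p =
        ∑ k ∈ Finset.range N, p * (star (Y k + ∑ i ∈ Finset.Ioc 0 (min L J), Z i k) *
          (Y k + ∑ i ∈ Finset.Ioc 0 (min L J), Z i k)) * p := by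
      rw [Finset.mul_sum, Finset.sum_mul]
      refine Finset.sum_congr rfl fun k hk => ?_
      rw [cc_star_conj _ hpp, cc_star_conj _ hpp, cc_Z_mul he hb X k (hpek k hk)]
    have step2 : ∀ k, star (Y k + ∑ i ∈ Finset.Ioc 0 (min L J), Z i k) *
          (Y k + ∑ i ∈ Finset.Ioc 0 (min L J), Z i k) ≤
          (4 : ℝ) • (star (Y k) * Y k) + ∑ i ∈ Finset.Ioc 0 (min L J),
            (((1 / 4) * (2 / 3) ^ (L - i) : ℝ))⁻¹ • (star (Z i k) * Z i k) := by
      intro k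
      have h := weighted_sq_le (A := A) (Finset.insertNone (Finset.Ioc 0 (min L J)))
        (fun o => Option.elim o (1 / 4 : ℝ) (fun i => (1 / 4) * (2 / 3) ^ (L - i))) ?_ ?_
        (fun o => Option.elim o (Y k) (fun i => Z i k))
      · rw [Finset.sum_insertNone, Finset.sum_insertNone] at h
        simp only [Option.elim_none, Option.elim_some] at h
        norm_num at h ⊢
        exact h
      · intro o _
        cases o with
        | none => norm_num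
        | some i => simp only [Option.elim_some]; positivity
      · rw [Finset.sum_insertNone]
        simp only [Option.elim_none, Option.elim_some]
        rw [← Finset.mul_sum]
        have h2 := cc_geom (r := 2 / 3) (by norm_num) (by norm_num) L (min L J) (min_le_left _ _)
        norm_num at h2 ⊢
        linarith
    rw [step1]
    have step3 : ∑ k ∈ Finset.range N, p * (star (Y k + ∑ i ∈ Finset.Ioc 0 (min L J), Z i k) *
          (Y k + ∑ i ∈ Finset.Ioc 0 (min L J), Z i k)) * p ≤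
        (4 : ℝ) • (p * (∑ k ∈ Finset.range N, star (Y k) * Y k) * p) +
          ∑ i ∈ Finset.Ioc 0 (min L J), (((1 / 4) * (2 / 3) ^ (L - i) : ℝ))⁻¹ •
            (p * (∑ k ∈ Finset.range N, star (Z i k) * Z i k) * p) := by
      refine (Finset.sum_le_sum fun k _ => proj_conj_mono hpp (step2 k)).trans (le_of_eq ?_)
      rw [Finset.mul_sum, Finset.sum_mul, Finset.smul_sum]
      simp_rw [Finset.mul_sum, Finset.sum_mul, Finset.smul_sum]
      rw [Finset.sum_comm (s := Finset.Ioc 0 (min L J)), ← Finset.sum_add_distrib]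
      refine Finset.sum_congr rfl fun k _ => ?_
      rw [mul_add, add_mul, mul_smul_comm, smul_mul_assoc, Finset.mul_sum, Finset.sum_mul]
      refine congrArg _ (Finset.sum_congr rfl fun i _ => ?_)
      rw [mul_smul_comm, smul_mul_assoc]
    refine step3.trans ?_
    have hYb : p * (∑ k ∈ Finset.range N, star (Y k) * Y k) * p ≤ ((l * 2 ^ L) ^ 2) • (1 : A) :=
      cc_conj_le hpp hphp hph (by positivity) hphb
    have hZb : ∀ i ∈ Finset.Ioc 0 (min L J),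
        (((1 / 4) * (2 / 3) ^ (L - i) : ℝ))⁻¹ •
            (p * (∑ k ∈ Finset.range N, star (Z i k) * Z i k) * p) ≤
          ((l * 2 ^ L) ^ 2 * ((1 / 4) * (2 / 3) ^ (L - i))) • (1 : A) := by
      intro i hi
      have h1 := cc_conj_le hpp (hrp i hi) (hpr i hi) (by positivity) (hrb i hi)
      have h2 := smul_le_smul_of_nonneg_left h1
        (show (0 : ℝ) ≤ (((1 / 4) * (2 / 3) ^ (L - i) : ℝ))⁻¹ by positivity)
      refine h2.trans (le_of_eq ?_)
      rw [smul_smul]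
      refine congrArg (· • (1 : A)) ?_
      have h3 : ((1 / 4) * (2 / 3) ^ (L - i) : ℝ) ≠ 0 := by positivity
      field_simp
    have hsum : (∑ i ∈ Finset.Ioc 0 (min L J), (((1 / 4) * (2 / 3) ^ (L - i) : ℝ))⁻¹ •
            (p * (∑ k ∈ Finset.range N, star (Z i k) * Z i k) * p)) ≤
          ((l * 2 ^ L) ^ 2) • (1 : A) := by
      refine (Finset.sum_le_sum hZb).trans ?_
      rw [← Finset.sum_smul]
      refine smul_le_smul_of_nonneg_right ?_ zero_le_one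
      rw [← Finset.mul_sum, ← Finset.mul_sum]
      have h2 := cc_geom (r := 2 / 3) (by norm_num) (by norm_num) L (min L J) (min_le_left _ _)
      have h3 : (0 : ℝ) ≤ (l * 2 ^ L) ^ 2 := by positivity
      have h4 : (1 / 4) * ∑ i ∈ Finset.Ioc 0 (min L J), ((2 : ℝ) / 3) ^ (L - i) ≤ 1 := by
        norm_num at h2 ⊢
        linarith
      calc (l * 2 ^ L) ^ 2 * ((1 / 4) * ∑ i ∈ Finset.Ioc 0 (min L J), ((2 : ℝ) / 3) ^ (L - i))
          ≤ (l * 2 ^ L) ^ 2 * 1 := mul_le_mul_of_nonneg_left h4 h3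
        _ = (l * 2 ^ L) ^ 2 := mul_one _
    have hfin := add_le_add (smul_le_smul_of_nonneg_left hYb (show (0 : ℝ) ≤ 4 by norm_num)) hsum
    refine hfin.trans ?_
    rw [smul_smul, ← add_smul]
    refine smul_le_smul_of_nonneg_right ?_ zero_le_one
    have h3 : (0 : ℝ) ≤ (l * 2 ^ L) ^ 2 := by positivity
    have h5 : (0 : ℝ) ≤ 2 * (1 + K) + 21 + 2 * (Cl * 16 ^ (2 ^ (m + 1)) * K) := by positivity
    nlinarith [mul_nonneg h5 h3]

theorem coreCol (K : ℝ) (hK : 1 ≤ K) : ∃ C : ℝ, 0 < C ∧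
    ∀ (A : Type u) [CStarAlgebra A] [PartialOrder A] [StarOrderedRing A] (T : TF A)
      (l : ℝ) (_ : 0 < l) (J : ℕ) (X : ℕ → ℕ → A) (_ : ∀ i, Mart T (X i))
      (_ : ∀ i k, 0 ≤ X i k) (_ : ∀ i k, X i k ≤ (l * 2 ^ i) • (1 : A))
      (D : ℕ → ℝ) (_ : ∀ j, 0 ≤ D j)
      (_ : ∀ L, ∑ i ∈ Finset.Ioc L J, T.t (X i 0) ≤ l * 2 ^ L * D L)
      (_ : ∀ j, 2 * D (j + 1) ≤ D j) (_ : ∀ j, D j ≤ K * D (j + 1))
      (e : ℕ → ℕ → A) (_ : FlagSys T e)
      (_ : ∀ L, 1 ≤ L → ∀ k,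
        T.qq (fun k => ∑ i ∈ Finset.Ioc L J, X i k) (l * 2 ^ L) k * e L k = e L k)
      (_ : ∀ i j, 1 ≤ j → j ≤ i → i ≤ J → ∀ k, T.qq (X i) (l * 2 ^ j) k * e j k = e j k)
      (_ : ∀ i j, 1 ≤ j → j ≤ i → i ≤ J → ∀ k,
        T.zz (X i) (l * 2 ^ j) (l * 2 ^ i * (l * 2 ^ j)) k * e j k = e j k)
      (_ : ∀ j, 1 ≤ j → ∀ N, T.t (1 - e j N) ≤ ∑ j' ∈ Finset.Icc j J,
        (T.t (∑ i ∈ Finset.Ioc j' J, X i 0) / (l * 2 ^ j') +
          2 * ∑ i ∈ Finset.Icc j' J, T.t (X i 0) / (l * 2 ^ j')))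
      (b : ℕ) (_ : b ≤ 1) (L : ℕ) (_ : 1 ≤ L) (N : ℕ),
      ∃ p ∈ T.F N, IsStarProjection p ∧ T.t (1 - p) ≤ C * D L ∧
        p * (∑ k ∈ Finset.range N,
          star (∑ i ∈ Finset.Ioc 0 J, Tr b (ch e i k) (i + 1) (dd (X i) k)) *
            (∑ i ∈ Finset.Ioc 0 J, Tr b (ch e i k) (i + 1) (dd (X i) k))) * p ≤
          (C * (l * 2 ^ L) ^ 2) • (1 : A) := by
  obtain ⟨m, hm⟩ := cc_exists_m K hK
  obtain ⟨Cl, hCl, hlow⟩ := low.{u} m
  have hKp : 0 < K := by linarith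
  refine ⟨5 + 2 * (1 + K) + 21 + 2 * (Cl * 16 ^ (2 ^ (m + 1)) * K), by positivity, ?_⟩
  intro A _ _ _ T l hl J X hX h0 h1 D hD0 hD hDd hDK e he hq1 hq2 hz ht b hb L hL N
  have hlam : 0 < l * 2 ^ L := by positivity
  obtain ⟨ph, hphm, hphp, hphb, hpht⟩ := TF.high T he (L := L) (R := l * 2 ^ L) hlam
    (X := fun k => ∑ i ∈ Finset.Ioc L J, X i k)
    (Mart.sum (Finset.Ioc L J) (X := X) fun i _ => hX i)
    (fun k => Finset.sum_nonneg fun i _ => h0 i k) (hq1 L hL) hb N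
  have hpht' : T.t (1 - ph) ≤ 21 * D L := by
    refine hpht.trans (mul_le_mul_of_nonneg_left ?_ (by norm_num))
    rw [div_le_iff₀ hlam, T.t_sum]
    have := hD L
    linarith
  have hex : ∀ i ∈ Finset.Ioc 0 (min L J), ∃ r : A, r ∈ T.F N ∧ IsStarProjection r ∧
      r * (∑ k ∈ Finset.range N,
        star (Tr b (ch e i k) (i + 1) (dd (X i) k)) *
            Tr b (ch e i k) (i + 1) (dd (X i) k)) * r ≤
              ((l * 2 ^ L) ^ 2 * ((1 / 4) * (2 / 3) ^ (L - i)) ^ 2) • (1 : A) ∧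
      T.t (1 - r) ≤
      Cl * ((l * 2 ^ i) ^ 2 / ((l * 2 ^ L) ^ 2 * ((1 / 4) * (2 / 3) ^ (L - i)) ^ 2)) ^
        (2 ^ (m + 1)) * (K * D i) := by
    intro i hi
    have hi1 : 0 < i := (Finset.mem_Ioc.mp hi).1
    have hiJ : i ≤ J := (Finset.mem_Ioc.mp hi).2.trans (min_le_right _ _)
    have hDi : T.t (X i 0) ≤ l * 2 ^ i * (K * D i) := by
      obtain ⟨n, rfl⟩ : ∃ n, i = n + 1 := ⟨i - 1, by omega⟩
      have h2 : T.t (X (n + 1) 0) ≤ ∑ i ∈ Finset.Ioc n J, T.t (X i 0) :=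
        Finset.single_le_sum (f := fun i => T.t (X i 0)) (fun i _ => T.t_nonneg (h0 i 0))
          (Finset.mem_Ioc.mpr ⟨Nat.lt_succ_self n, hiJ⟩)
      have h3 := hD n
      have h4 := hDK n
      have h5 : l * 2 ^ n * D n ≤ l * 2 ^ n * (K * D (n + 1)) :=
        mul_le_mul_of_nonneg_left h4 (by positivity)
      have h6 : 0 ≤ l * 2 ^ n * (K * D (n + 1)) := by
        have := hD0 (n + 1)
        positivity
      have e1 : l * 2 ^ (n + 1) * (K * D (n + 1)) = 2 * (l * 2 ^ n * (K * D (n + 1))) := by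
        rw [pow_succ]
        ring
      rw [e1]
      linarith
    obtain ⟨r, hr1, hr2, hr3, hr4⟩ := hlow A T e he l hl i (X i) (hX i) (h0 i) (h1 i)
      (fun j hj hji k => hq2 i j hj hji hiJ k) (fun j hj hji k => hz i j hj hji hiJ k)
      (K * D i) hDi b hb N ((l * 2 ^ L) ^ 2 * ((1 / 4) * (2 / 3) ^ (L - i)) ^ 2)
      (by positivity)
    exact ⟨r, hr1, hr2, hr3, hr4⟩
  choose! r hrm hrp hrb hrt using hex
  exact cc_main hK hCl hm hl hD0 hD hDd hDK he ht hb hL N hphm hphp hphb hpht' hrm hrp hrb hrt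

end GD64
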