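import Pool.Agent.GD64.Flags
import Pool.Agent.GD64.CoreCol

/-!
# GD64/Core: the decomposition for positive pieces

Data: positive martingales `X i` with `X i k ≤ l 2^i` (`1 ≤ i ≤ J`), numbers `D_j` with
`2 D_{j+1} ≤ D_j ≤ K D_{j+1}`, `∑_{L<i≤J} t(X i 0) ≤ l 2^L D_L`.
`Z^b_k = ∑_{i=1}^J Tr b (ch e i k) (i+1) (dd (X i) k)`, `b = 0, 1`. `y = Z^1`, `z = star Z^0`:
`y_k + z_k = ∑ dd (X i) k` by `star_sub_Tr`.

Column bound for `Z^b` at level `L ≥ 1` (`λ_L = l 2^L`, `s = 2^(m+1)` with `(9/16)^s K ≤ 1/2`):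
for `i > L` and `p ≤ e_{L,N} ≤ e_{L,k}`: `Tr b (ch e i k) (i+1) X * e_{L,k} =
Tr b (ch e L k) (L+1) (e_L X e_L)`
(`(c_{j+1} - c_j) e_L = 0` for `j ≥ L`, `= c_{j+1} - c_j` for `j < L`; `c_{j+b} = c_{j+b} e_L` for `j < L`).
So `Z_k p = (Y_k + ∑_{1≤i≤min(L,J)} Tr b (ch e i k) (i+1) (dd (X i) k)) p` with
`Y_k = Tr b (ch e L k) (L+1) (e_L dd(∑_{L<i≤J} X i) e_L)`.
`weighted_sq_le` with `w = 1/4` for `Y` and `w_i = (1/4)(2/3)^(L-i)` for `i ≤ L` (sum `≤ 1`):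
`|Z_k p|² ≤ p (4 |Y_k|² + ∑_i w_i⁻¹ |Tr ..|²) p`. `high` with `R = λ_L`: `p_h`,
`t(1-p_h) ≤ 21 D_L`. `low` with `R_i = λ_L² w_i²`: `r_i`, `t(1-r_i) ≤ C (λ_i²/R_i)^s D'_i`
`= C 16^s ((9/16)^s)^(L-i) D'_i`, `D'_i = K D_i` (`t(X i 0) ≤ ∑_{i-1<i'≤J} t(X i' 0) ≤ l 2^(i-1) D_{i-1} ≤
l 2^i K D_i`), `D_i ≤ K^(L-i) D_L`, so `t(1-r_i) ≤ C 16^s K 2^(-(L-i)) D_L`.
`p = e_{L,N} ∧ p_h ∧ ⋀ r_i`: `p (∑ |Z_k|²) p ≤ 4 λ_L² + ∑ w_i⁻¹ R_i ≤ 5 λ_L²`.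
`t(1 - e_{L,N}) ≤ ∑_{j≥L} (D_j + D_{j-1}) ≤ 2(1+K) D_L`.
-/

namespace GD64

universe u

private lemma core_dd_mem {A : Type*} [CStarAlgebra A] [PartialOrder A] [StarOrderedRing A]
    {T : TF A} {X : ℕ → A} (hX : Mart T X) (k : ℕ) : dd X k ∈ T.F (k + 1) :=
  sub_mem (hX.mem (k + 1)) (T.F_mono (Nat.le_succ k) (hX.mem k))

private lemma core_dd_E {A : Type*} [CStarAlgebra A] [PartialOrder A] [StarOrderedRing A]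
    {T : TF A} {X : ℕ → A} (hX : Mart T X) (k : ℕ) : T.E k (dd X k) = 0 := by
  unfold dd
  rw [T.E_sub, hX.ce, T.E_of_mem (hX.mem k), sub_self]

theorem core (K : ℝ) (hK : 1 ≤ K) : ∃ C : ℝ, 0 < C ∧
    ∀ (A : Type u) [CStarAlgebra A] [PartialOrder A] [StarOrderedRing A] (T : TF A)
      (l : ℝ) (_ : 0 < l) (J : ℕ) (X : ℕ → ℕ → A) (_ : ∀ i, Mart T (X i))
      (_ : ∀ i k, 0 ≤ X i k) (_ : ∀ i k, X i k ≤ (l * 2 ^ i) • (1 : A))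
      (D : ℕ → ℝ) (_ : ∀ j, 0 ≤ D j)
      (_ : ∀ L, ∑ i ∈ Finset.Ioc L J, T.t (X i 0) ≤ l * 2 ^ L * D L)
      (_ : ∀ j, 2 * D (j + 1) ≤ D j) (_ : ∀ j, D j ≤ K * D (j + 1)),
      ∃ y z : ℕ → A, (∀ k, y k ∈ T.F (k + 1)) ∧ (∀ k, z k ∈ T.F (k + 1)) ∧
        (∀ k, T.E k (y k) = 0) ∧ (∀ k, T.E k (z k) = 0) ∧
        (∀ k, y k + z k = ∑ i ∈ Finset.Ioc 0 J, dd (X i) k) ∧
        (∀ L, 1 ≤ L → ∀ N, ∃ p ∈ T.F N, IsStarProjection p ∧ T.t (1 - p) ≤ C * D L ∧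
          p * (∑ k ∈ Finset.range N, star (y k) * y k) * p ≤ (C * (l * 2 ^ L) ^ 2) • (1 : A)) ∧
        (∀ L, 1 ≤ L → ∀ N, ∃ p ∈ T.F N, IsStarProjection p ∧ T.t (1 - p) ≤ C * D L ∧
          p * (∑ k ∈ Finset.range N, z k * star (z k)) * p ≤
            (C * (l * 2 ^ L) ^ 2) • (1 : A)) := by
  obtain ⟨C, hC, H⟩ := coreCol.{u} K hK
  refine ⟨C, hC, ?_⟩
  intro A _ _ _ T l hl J X hX h0 h1 D hD hDs hD2 hDK
  obtain ⟨e, he, f1, f2, f3, f4⟩ := T.flags hl J X hX h0 h1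
  have col := H A T l hl J X hX h0 h1 D hD hDs hD2 hDK e he f1 f2 f3 f4
  have hsa : ∀ i k, star (dd (X i) k) = dd (X i) k := by
    intro i k
    unfold dd
    rw [star_sub, (IsSelfAdjoint.of_nonneg (h0 i (k + 1))).star_eq,
      (IsSelfAdjoint.of_nonneg (h0 i k)).star_eq]
  refine ⟨fun k => ∑ i ∈ Finset.Ioc 0 J, Tr 1 (ch e i k) (i + 1) (dd (X i) k),
    fun k => star (∑ i ∈ Finset.Ioc 0 J, Tr 0 (ch e i k) (i + 1) (dd (X i) k)),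
    ?_, ?_, ?_, ?_, ?_, ?_, ?_⟩
  · intro k
    exact sum_mem fun i _ => he.Tr_mem 1 i k (i + 1) (core_dd_mem (hX i) k)
  · intro k
    exact star_mem (sum_mem fun i _ => he.Tr_mem 0 i k (i + 1) (core_dd_mem (hX i) k))
  · intro k
    show T.E k (∑ i ∈ Finset.Ioc 0 J, Tr 1 (ch e i k) (i + 1) (dd (X i) k)) = 0
    rw [T.E_sum]
    exact Finset.sum_eq_zero fun i _ => he.E_Tr 1 i k (i + 1) (core_dd_E (hX i) k)
  · intro k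
    show T.E k (star (∑ i ∈ Finset.Ioc 0 J, Tr 0 (ch e i k) (i + 1) (dd (X i) k))) = 0
    rw [T.E_star, T.E_sum, Finset.sum_eq_zero fun i _ =>
      he.E_Tr 0 i k (i + 1) (core_dd_E (hX i) k), star_zero]
  · intro k
    show (∑ i ∈ Finset.Ioc 0 J, Tr 1 (ch e i k) (i + 1) (dd (X i) k)) +
      star (∑ i ∈ Finset.Ioc 0 J, Tr 0 (ch e i k) (i + 1) (dd (X i) k)) = _
    rw [star_sum, ← Finset.sum_add_distrib]
    refine Finset.sum_congr rfl fun i _ => ?_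
    have h := star_sub_Tr (he.chain i k) (dd (X i) k)
    rw [hsa] at h
    rw [← h, star_star]
    abel
  · intro L hL N
    exact col 1 le_rfl L hL N
  · intro L hL N
    obtain ⟨p, hp, hpp, ht, hb⟩ := col 0 (Nat.zero_le 1) L hL N
    refine ⟨p, hp, hpp, ht, ?_⟩
    simp only [star_star]
    exact hb

end GD64
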