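import Pool.Agent.GD64.Holder

/-!
# GD64/Cotlar: triangular truncations are bounded on `L_{2^(m+1)}`

Let `0 = c_0 ≤ c_1 ≤ ... ≤ c_n = 1` be a chain of projections, `p_j = c_{j+1} - c_j` (`j < n`).
`Tr 0 c n X = ∑_j c_j X p_j` (strictly upper part), `Tr 1 c n X = ∑_j c_{j+1} X p_j`
(upper part), `D X = ∑_j p_j X p_j = Tr 1 X - Tr 0 X`.

Proof of the bound. (1) `D` is a contraction for `N m`: pinching by one projection
`X ↦ c X c + (1-c) X (1-c) = (X + (2c-1) X (2c-1))/2` is a contraction (`2c-1` is a unitary,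
triangle inequality) and `D` is the composition of the pinchings by `c_1, ..., c_{n-1}`.
(2) Let `X` satisfy `star X = ε X` (`ε = 1` or `-1`) and `D X = 0`; `U = Tr 0 X`, `X = U + V` with
`V = X - U` strictly lower (`V = ε star U`), `K = U - V`. Then `star K = -ε K`. `U²` is strictly upper,
`V²` strictly lower, and `K² + X² = 2(U² + V²)`, `K X + X K = 2(U² - V²)`. Let
`𝓗 Y = Tr 0 Y - (Y - Tr 1 Y)` (upper minus strictly lower). Then `K² + X² = 𝓗(K X + X K)`
and `K X + X K` has zero diagonal. So if `N m (𝓗 Y) ≤ c N m Y` for self-adjoint or skew `Y` with zero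
diagonal (note `KX + XK` is `star`-symmetric: `star(KX+XK) = -(KX+XK)`),
`N (m+1) K ^ 2 = N m (star K * K) = N m (K²) ≤ N (m+1) X ^ 2 + 2 c N (m+1) K N (m+1) X`,
so `N (m+1) K ≤ (2c+1) N (m+1) X`.
(3) start: `m = 0`: `N 0 K ^ 2 = t(U* U) + t(V* V) = N 0 X ^ 2` (orthogonality), `c = 1`.
So the constant for `m` is at most `2^(m+1) - 1`.
(4) general `X`: `X = X_1 + X_2` with `X_1 = (X + X*)/2`, `X_2 = (X - X*)/2`, `N m (X_i) ≤ N m X`,
subtract the diagonals (`N m (X_i - D X_i) ≤ 2 N m X`), and
`Tr 0 X = (X' + 𝓗 X')/2` for `X' = X - D X`; `Tr 1 X = Tr 0 X + D X`.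
Total: `N m (Tr 0 X) ≤ (2 + 4 (2^(m+1)-1))/2 * N m X`, `N m (Tr 1 X) ≤ ... + 1 ≤ 2^(m+3) N m X`.
-/

namespace GD64

set_option linter.unusedSectionVars false
set_option linter.unusedVariables false

variable {B : Type*} [Ring B] [StarRing B]

/-- A finite chain of projections from `0` to `1`. -/
structure Chain (c : ℕ → B) (n : ℕ) : Prop where
  zero : c 0 = 0
  one : c n = 1
  proj : ∀ j, IsStarProjection (c j)
  mul : ∀ i j, i ≤ j → c j * c i = c i

/-- Triangular truncation: strictly upper part for `b = 0`, upper part for `b = 1`. -/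
def Tr (b : ℕ) (c : ℕ → B) (n : ℕ) (X : B) : B :=
  ∑ j ∈ Finset.range n, c (j + b) * X * (c (j + 1) - c j)

theorem Chain.mul' {c : ℕ → B} {n : ℕ} (h : Chain c n) {i j : ℕ} (hij : i ≤ j) :
    c i * c j = c i := by
  have h1 := congrArg star (h.mul i j hij)
  rw [star_mul, (h.proj i).isSelfAdjoint.star_eq, (h.proj j).isSelfAdjoint.star_eq] at h1
  exact h1

theorem Tr_add (b : ℕ) (c : ℕ → B) (n : ℕ) (X Y : B) :
    Tr b c n (X + Y) = Tr b c n X + Tr b c n Y := by
  unfold Tr
  rw [← Finset.sum_add_distrib]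
  refine Finset.sum_congr rfl fun j _ => ?_
  rw [mul_add, add_mul]

theorem Tr_sub (b : ℕ) (c : ℕ → B) (n : ℕ) (X Y : B) :
    Tr b c n (X - Y) = Tr b c n X - Tr b c n Y := by
  unfold Tr
  rw [← Finset.sum_sub_distrib]
  refine Finset.sum_congr rfl fun j _ => ?_
  rw [mul_sub (c (j + b)), sub_mul (c (j + b) * X)]

/-- The projections of the chain. -/
def pr (c : ℕ → B) (j : ℕ) : B := c (j + 1) - c j

section entries

variable {c : ℕ → B} {n : ℕ}

theorem pr_sum (h : Chain c n) : ∑ j ∈ Finset.range n, pr c j = 1 := by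
  unfold pr
  rw [Finset.sum_range_sub, h.zero, h.one, sub_zero]

theorem pr_star (h : Chain c n) (i : ℕ) : star (pr c i) = pr c i := by
  unfold pr
  rw [star_sub, (h.proj _).isSelfAdjoint.star_eq, (h.proj _).isSelfAdjoint.star_eq]

theorem pr_mul_c (h : Chain c n) (i k : ℕ) : pr c i * c k = if i < k then pr c i else 0 := by
  unfold pr
  rw [sub_mul]
  split_ifs with hik
  · rw [h.mul' (by omega : i + 1 ≤ k), h.mul' (by omega : i ≤ k)]
  · rw [h.mul k (i + 1) (by omega), h.mul k i (by omega), sub_self]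

theorem pr_mul (h : Chain c n) (i k : ℕ) : pr c i * pr c k = if i = k then pr c i else 0 := by
  have e : pr c i * pr c k = pr c i * c (k + 1) - pr c i * c k := by
    rw [← mul_sub]; rfl
  rw [e, pr_mul_c h, pr_mul_c h]
  rcases lt_trichotomy i k with h1 | h1 | h1
  · rw [if_pos (by omega), if_pos h1, if_neg (by omega), sub_self]
  · rw [if_pos (by omega), if_neg (by omega), if_pos h1, sub_zero]
  · rw [if_neg (by omega), if_neg (by omega), if_neg (by omega), sub_zero]

/-- Expansion in entries. -/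
theorem eq_sum_ent (h : Chain c n) (Z : B) :
    Z = ∑ i ∈ Finset.range n, ∑ j ∈ Finset.range n, pr c i * Z * pr c j := by
  have h1 : ∀ i ∈ Finset.range n, ∑ j ∈ Finset.range n, pr c i * Z * pr c j = pr c i * Z := by
    intro i _
    rw [← Finset.mul_sum, pr_sum h, mul_one]
  rw [Finset.sum_congr rfl h1, ← Finset.sum_mul, pr_sum h, one_mul]

theorem ext_ent (h : Chain c n) {Z W : B}
    (H : ∀ i < n, ∀ j < n, pr c i * Z * pr c j = pr c i * W * pr c j) : Z = W := by
  rw [eq_sum_ent h Z, eq_sum_ent h W]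
  refine Finset.sum_congr rfl fun i hi => Finset.sum_congr rfl fun j hj => ?_
  exact H i (Finset.mem_range.mp hi) j (Finset.mem_range.mp hj)

theorem ent_mul (h : Chain c n) (Z W : B) (i j : ℕ) :
    pr c i * (Z * W) * pr c j =
      ∑ k ∈ Finset.range n, (pr c i * Z * pr c k) * (pr c k * W * pr c j) := by
  have h1 : ∀ k ∈ Finset.range n, (pr c i * Z * pr c k) * (pr c k * W * pr c j) =
      (pr c i * Z) * pr c k * (W * pr c j) := by
    intro k _
    calc (pr c i * Z * pr c k) * (pr c k * W * pr c j)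
        = (pr c i * Z) * (pr c k * pr c k) * (W * pr c j) := by simp only [mul_assoc]
      _ = (pr c i * Z) * pr c k * (W * pr c j) := by rw [pr_mul h, if_pos rfl]
  rw [Finset.sum_congr rfl h1, ← Finset.sum_mul, ← Finset.mul_sum, pr_sum h, mul_one]
  simp only [mul_assoc]

theorem ent_star (h : Chain c n) (Z : B) (i j : ℕ) :
    pr c i * star Z * pr c j = star (pr c j * Z * pr c i) := by
  rw [star_mul, star_mul, pr_star h, pr_star h, mul_assoc]

theorem ent_Tr (h : Chain c n) (b : ℕ) (X : B) (i j : ℕ) (hj : j < n) :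
    pr c i * Tr b c n X * pr c j = if i < j + b then pr c i * X * pr c j else 0 := by
  unfold Tr
  rw [Finset.mul_sum, Finset.sum_mul, Finset.sum_eq_single j]
  · have e : pr c i * (c (j + b) * X * (c (j + 1) - c j)) * pr c j =
        (pr c i * c (j + b)) * X * (pr c j * pr c j) := by
      unfold pr
      simp only [mul_assoc]
    rw [e, pr_mul_c h, pr_mul h, if_pos rfl]
    split_ifs
    · rfl
    · simp
  · intro k _ hk
    have e : pr c i * (c (k + b) * X * (c (k + 1) - c k)) * pr c j =
        (pr c i * c (k + b)) * X * (pr c k * pr c j) := by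
      unfold pr
      simp only [mul_assoc]
    rw [e, pr_mul h k j, if_neg hk, mul_zero]
  · intro hj'
    exact absurd (Finset.mem_range.mpr hj) hj'

end entries

/-- The lower part: `star (X - Tr 1 X) = Tr 0 (star X)`. -/
theorem star_sub_Tr {c : ℕ → B} {n : ℕ} (h : Chain c n) (X : B) :
    star (X - Tr 1 c n X) = Tr 0 c n (star X) := by
  apply ext_ent h
  intro i hi j hj
  rw [ent_star h, ent_Tr h 0 _ i j hj, ent_star h, mul_sub, sub_mul, ent_Tr h 1 _ j i hi]
  by_cases hij : i < j
  · rw [if_neg (by omega), if_pos (by omega), sub_zero]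
  · rw [if_pos (by omega), if_neg (by omega), sub_self, star_zero]

/-- Upper minus strictly lower part. -/
def HH (c : ℕ → B) (n : ℕ) (X : B) : B := Tr 0 c n X + Tr 1 c n X - X

/-- Diagonal part. -/
def DD (c : ℕ → B) (n : ℕ) (X : B) : B := Tr 1 c n X - Tr 0 c n X

/-- The sign. -/
def hh (i j : ℕ) : ℤ := if i < j then 1 else if i = j then 0 else -1

section cal

variable {c : ℕ → B} {n : ℕ}

theorem ent_HH (h : Chain c n) (X : B) (i j : ℕ) (hj : j < n) :
    pr c i * HH c n X * pr c j = hh i j • (pr c i * X * pr c j) := by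
  unfold HH
  rw [mul_sub, sub_mul, mul_add, add_mul, ent_Tr h 0 X i j hj, ent_Tr h 1 X i j hj]
  unfold hh
  rcases lt_trichotomy i j with h1 | h1 | h1
  · rw [if_pos (by omega), if_pos (by omega), if_pos h1, one_smul]
    abel
  · rw [if_neg (by omega), if_pos (by omega), if_neg (by omega), if_pos h1, zero_smul]
    abel
  · rw [if_neg (by omega), if_neg (by omega), if_neg (by omega), if_neg (by omega), neg_one_smul]
    abel

theorem ent_DD (h : Chain c n) (X : B) (i j : ℕ) (hj : j < n) :
    pr c i * DD c n X * pr c j = if i = j then pr c i * X * pr c j else 0 := by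
  unfold DD
  rw [mul_sub, sub_mul, ent_Tr h 0 X i j hj, ent_Tr h 1 X i j hj]
  rcases lt_trichotomy i j with h1 | h1 | h1
  · rw [if_pos (by omega), if_pos (by omega), if_neg (by omega), sub_self]
  · rw [if_pos (by omega), if_neg (by omega), if_pos h1, sub_zero]
  · rw [if_neg (by omega), if_neg (by omega), if_neg (by omega), sub_self]

theorem hh_key {i j k : ℕ} (hi : k ≠ i) (hj : k ≠ j) :
    hh i k * hh k j + 1 = hh i j * (hh i k + hh k j) := by
  unfold hh
  split_ifs <;> omega

theorem hh_anti (i j : ℕ) : hh i j = -hh j i := by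
  unfold hh
  split_ifs <;> omega

/-- Cotlar's identity. -/
theorem cotlar_id (h : Chain c n) {X : B} (hX : ∀ i < n, pr c i * X * pr c i = 0) :
    HH c n X * HH c n X + X * X = HH c n (HH c n X * X + X * HH c n X) := by
  apply ext_ent h
  intro i hi j hj
  rw [ent_HH h _ i j hj, mul_add, add_mul, mul_add, add_mul, ent_mul h, ent_mul h, ent_mul h,
    ent_mul h, ← Finset.sum_add_distrib, ← Finset.sum_add_distrib, Finset.smul_sum]
  refine Finset.sum_congr rfl fun k hk => ?_
  have hk' := Finset.mem_range.mp hk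
  rw [ent_HH h X i k hk', ent_HH h X k j hj]
  by_cases hki : k = i
  · subst hki
    rw [hX k hi]
    simp
  by_cases hkj : k = j
  · subst hkj
    rw [hX k hj]
    simp
  have e1 := hh_key hki hkj
  have e2 : (hh i k • (pr c i * X * pr c k)) * (hh k j • (pr c k * X * pr c j)) =
      (hh i k * hh k j) • ((pr c i * X * pr c k) * (pr c k * X * pr c j)) := by
    rw [smul_mul_smul_comm]
  rw [e2, smul_mul_assoc, mul_smul_comm]
  have e3 : ∀ Z : B, (hh i k * hh k j) • Z + Z = (hh i k * hh k j + 1) • Z := by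
    intro Z
    rw [add_smul, one_smul]
  rw [e3, e1, ← add_smul, smul_smul]

/-- The anticommutator has zero diagonal. -/
theorem diag_zero (h : Chain c n) (X : B) :
    ∀ i < n, pr c i * (HH c n X * X + X * HH c n X) * pr c i = 0 := by
  intro i hi
  rw [mul_add, add_mul, ent_mul h, ent_mul h, ← Finset.sum_add_distrib]
  apply Finset.sum_eq_zero
  intro k hk
  have hk' := Finset.mem_range.mp hk
  rw [ent_HH h X i k hk', ent_HH h X k i hi, smul_mul_assoc, mul_smul_comm, hh_anti k i, neg_smul]
  abel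

theorem star_HH (h : Chain c n) (X : B) : star (HH c n X) = -HH c n (star X) := by
  apply ext_ent h
  intro i hi j hj
  rw [ent_star h, ent_HH h X j i hi, mul_neg, neg_mul, ent_HH h _ i j hj, ent_star h, hh_anti j i,
    neg_smul, star_neg]
  congr 1
  rw [star_zsmul]

theorem star_DD (h : Chain c n) (X : B) : star (DD c n X) = DD c n (star X) := by
  apply ext_ent h
  intro i hi j hj
  rw [ent_star h, ent_DD h X j i hi, ent_DD h _ i j hj, ent_star h]
  by_cases hij : i = j
  · rw [if_pos hij, if_pos hij.symm]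
  · rw [if_neg hij, if_neg (Ne.symm hij), star_zero]

theorem HH_add (X Y : B) : HH c n (X + Y) = HH c n X + HH c n Y := by
  unfold HH
  rw [Tr_add, Tr_add]
  abel

theorem HH_sub (X Y : B) : HH c n (X - Y) = HH c n X - HH c n Y := by
  unfold HH
  rw [Tr_sub, Tr_sub]
  abel

theorem HH_DD (h : Chain c n) (X : B) : HH c n (DD c n X) = 0 := by
  apply ext_ent h
  intro i hi j hj
  rw [ent_HH h _ i j hj, ent_DD h X i j hj, mul_zero, zero_mul]
  by_cases hij : i = j
  · rw [if_pos hij, hij]
    unfold hh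
    simp
  · rw [if_neg hij, smul_zero]

theorem DD_eq (X : B) : DD c n X = ∑ j ∈ Finset.range n, pr c j * X * pr c j := by
  unfold DD Tr
  rw [← Finset.sum_sub_distrib]
  refine Finset.sum_congr rfl fun j _ => ?_
  rw [← sub_mul, ← sub_mul]
  rfl

/-- Iterated pinching. -/
def Dk (c : ℕ → B) (k : ℕ) (X : B) : B :=
  ∑ j ∈ Finset.range k, pr c j * X * pr c j + (1 - c k) * X * (1 - c k)

theorem Dk_succ (h : Chain c n) (k : ℕ) (X : B) :
    Dk c (k + 1) X = c (k + 1) * Dk c k X * c (k + 1) +
      (1 - c (k + 1)) * Dk c k X * (1 - c (k + 1)) := by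
  have hcc : c (k + 1) * c (k + 1) = c (k + 1) := (h.proj _).isIdempotentElem.eq
  have hck : c k * c (k + 1) = c k := h.mul' (by omega)
  have hkc : c (k + 1) * c k = c k := h.mul _ _ (by omega)
  have h1 : ∀ j < k, pr c j * c (k + 1) = pr c j := by
    intro j hj
    rw [pr_mul_c h, if_pos (by omega)]
  have h1' : ∀ j < k, c (k + 1) * pr c j = pr c j := by
    intro j hj
    have := congrArg star (h1 j hj)
    rw [star_mul, pr_star h, (h.proj _).isSelfAdjoint.star_eq] at this
    exact this
  have e1 : c (k + 1) * (1 - c k) = pr c k := by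
    rw [mul_sub, mul_one, hkc]; rfl
  have e1' : (1 - c k) * c (k + 1) = pr c k := by
    rw [sub_mul, one_mul, hck]; rfl
  have e2 : (1 - c (k + 1)) * (1 - c k) = 1 - c (k + 1) := by
    rw [sub_mul, one_mul, e1]; unfold pr; abel
  have e2' : (1 - c k) * (1 - c (k + 1)) = 1 - c (k + 1) := by
    rw [mul_sub, mul_one, e1']; unfold pr; abel
  unfold Dk
  rw [Finset.sum_range_succ]
  have s1 : c (k + 1) * (∑ j ∈ Finset.range k, pr c j * X * pr c j + (1 - c k) * X * (1 - c k)) *
      c (k + 1) = ∑ j ∈ Finset.range k, pr c j * X * pr c j + pr c k * X * pr c k := by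
    rw [mul_add, add_mul, Finset.mul_sum, Finset.sum_mul]
    congr 1
    · refine Finset.sum_congr rfl fun j hj => ?_
      have hj' := Finset.mem_range.mp hj
      calc c (k + 1) * (pr c j * X * pr c j) * c (k + 1)
          = (c (k + 1) * pr c j) * X * (pr c j * c (k + 1)) := by simp only [mul_assoc]
        _ = pr c j * X * pr c j := by rw [h1 j hj', h1' j hj']
    · calc c (k + 1) * ((1 - c k) * X * (1 - c k)) * c (k + 1)
          = (c (k + 1) * (1 - c k)) * X * ((1 - c k) * c (k + 1)) := by simp only [mul_assoc]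
        _ = pr c k * X * pr c k := by rw [e1, e1']
  have s2 : (1 - c (k + 1)) *
      (∑ j ∈ Finset.range k, pr c j * X * pr c j + (1 - c k) * X * (1 - c k)) *
      (1 - c (k + 1)) = (1 - c (k + 1)) * X * (1 - c (k + 1)) := by
    rw [mul_add, add_mul, Finset.mul_sum, Finset.sum_mul]
    have z : ∑ j ∈ Finset.range k, (1 - c (k + 1)) * (pr c j * X * pr c j) * (1 - c (k + 1)) =
        0 := by
      apply Finset.sum_eq_zero
      intro j hj
      have hj' := Finset.mem_range.mp hj
      calc (1 - c (k + 1)) * (pr c j * X * pr c j) * (1 - c (k + 1))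
          = ((1 - c (k + 1)) * pr c j) * X * (pr c j * (1 - c (k + 1))) := by
            simp only [mul_assoc]
        _ = 0 := by rw [sub_mul, one_mul, h1' j hj', sub_self, zero_mul, zero_mul]
    rw [z, zero_add]
    calc (1 - c (k + 1)) * ((1 - c k) * X * (1 - c k)) * (1 - c (k + 1))
        = ((1 - c (k + 1)) * (1 - c k)) * X * ((1 - c k) * (1 - c (k + 1))) := by
          simp only [mul_assoc]
      _ = (1 - c (k + 1)) * X * (1 - c (k + 1)) := by rw [e2, e2']
  rw [s1, s2]

end cal

namespace TS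

variable [Algebra ℝ B] [StarModule ℝ B] (S : TS B) {c : ℕ → B} {n : ℕ}

/-- Pinching is a contraction. -/
theorem N_pinch (m : ℕ) {g : B} (hg : IsStarProjection g) (X : B) :
    S.N m (g * X * g + (1 - g) * X * (1 - g)) ≤ S.N m X := by
  have h1 : g * g = g := hg.isIdempotentElem.eq
  have e : g * X * g + (1 - g) * X * (1 - g) =
      (1 / 2 : ℝ) • (X + ((2 : ℝ) • g - 1) * X * star ((2 : ℝ) • g - 1)) := by
    rw [star_sub, star_smul, star_trivial (2 : ℝ), star_one, hg.isSelfAdjoint.star_eq]
    simp only [sub_mul, mul_sub, one_mul, mul_one, smul_mul_assoc, mul_smul_comm, smul_sub,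
      smul_add, smul_smul]
    module
  rw [e, S.N_smul, mul_assoc]
  have h := S.N_add m X (((2 : ℝ) • g - 1) * (X * star ((2 : ℝ) • g - 1)))
  rw [S.N_isometry_mul m (refl_isometry hg), S.N_mul_isometry m (refl_isometry hg)] at h
  have : |(1 / 2 : ℝ)| = 1 / 2 := abs_of_pos (by norm_num)
  rw [this]
  linarith

theorem N_Dk (h : Chain c n) (m k : ℕ) (X : B) : S.N m (Dk c k X) ≤ S.N m X := by
  induction k with
  | zero =>
    have : Dk c 0 X = X := by
      unfold Dk
      simp [h.zero]
    rw [this]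
  | succ k ih =>
    rw [Dk_succ h]
    exact (S.N_pinch m (h.proj _) _).trans ih

theorem N_DD (h : Chain c n) (m : ℕ) (X : B) : S.N m (DD c n X) ≤ S.N m X := by
  have : DD c n X = Dk c n X := by
    rw [DD_eq]
    unfold Dk
    rw [h.one, sub_self, zero_mul, zero_mul, add_zero]
  rw [this]
  exact S.N_Dk h m n X

/-- Trace of the square in terms of the entries. -/
theorem t_sq_ent (h : Chain c n) (Z : B) :
    S.t (star Z * Z) = ∑ j ∈ Finset.range n, ∑ i ∈ Finset.range n,
      S.t (star (pr c i * Z * pr c j) * (pr c i * Z * pr c j)) := by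
  have e1 : star Z * Z = ∑ j ∈ Finset.range n, star Z * Z * pr c j := by
    rw [← Finset.mul_sum, pr_sum h, mul_one]
  rw [e1, map_sum]
  refine Finset.sum_congr rfl fun j _ => ?_
  have e2 : S.t (star Z * Z * pr c j) = S.t (pr c j * (star Z * Z) * pr c j) := by
    have : star Z * Z * pr c j = (star Z * Z * pr c j) * pr c j := by
      rw [mul_assoc (star Z * Z), pr_mul h, if_pos rfl]
    rw [this, S.t_comm]
    simp only [mul_assoc]
  rw [e2, ent_mul h, map_sum]
  refine Finset.sum_congr rfl fun i _ => ?_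
  rw [ent_star h]

theorem t_Tr (h : Chain c n) (b : ℕ) (X : B) :
    S.t (star (Tr b c n X) * Tr b c n X) ≤ S.t (star X * X) := by
  rw [S.t_sq_ent h, S.t_sq_ent h X]
  refine Finset.sum_le_sum fun j hj => Finset.sum_le_sum fun i hi => ?_
  rw [ent_Tr h b X i j (Finset.mem_range.mp hj)]
  split_ifs
  · exact le_refl _
  · simpa using S.t_pos (pr c i * X * pr c j)

theorem t_HH (h : Chain c n) (X : B) :
    S.t (star (HH c n X) * HH c n X) ≤ S.t (star X * X) := by
  rw [S.t_sq_ent h, S.t_sq_ent h X]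
  refine Finset.sum_le_sum fun j hj => Finset.sum_le_sum fun i hi => ?_
  rw [ent_HH h X i j (Finset.mem_range.mp hj)]
  have hpos := S.t_pos (pr c i * X * pr c j)
  unfold hh
  split_ifs
  · simp
  · simpa using hpos
  · simp

theorem N_zero_HH (h : Chain c n) (X : B) : S.N 0 (HH c n X) ≤ S.N 0 X := by
  apply le_of_pow_le (S.N_nonneg _ _) (S.N_nonneg _ _) (two_pow_ne (0 + 1))
  rw [S.N_pow, S.N_pow]
  unfold L
  simpa using S.t_HH h X

/-- The main induction. -/
theorem N_HH (h : Chain c n) (m : ℕ) : ∀ X : B, (star X = X ∨ star X = -X) →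
    (∀ i < n, pr c i * X * pr c i = 0) → S.N m (HH c n X) ≤ (2 ^ (m + 1) - 1) * S.N m X := by
  induction m with
  | zero =>
    intro X _ _
    have := S.N_zero_HH h X
    norm_num
    exact this
  | succ m ih =>
    intro X hX hd
    set K := HH c n X with hK
    have hKs : (star X = X ∧ star K = -K) ∨ (star X = -X ∧ star K = K) := by
      rcases hX with h1 | h1
      · left
        refine ⟨h1, ?_⟩
        rw [hK, star_HH h, h1]
      · right
        refine ⟨h1, ?_⟩
        rw [hK, star_HH h, h1]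
        have : HH c n (-X) = -HH c n X := by
          have h2 := HH_add (c := c) (n := n) (-X) X
          have h3 : HH c n (0 : B) = 0 := by
            have := HH_add (c := c) (n := n) (0 : B) 0
            rw [add_zero] at this
            exact left_eq_add.mp this
          rw [neg_add_cancel, h3] at h2
          exact eq_neg_of_add_eq_zero_left h2.symm
        rw [this, neg_neg]
    have hW : star (K * X + X * K) = -(K * X + X * K) := by
      rw [star_add, star_mul, star_mul]
      rcases hKs with ⟨h1, h2⟩ | ⟨h1, h2⟩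
      · rw [h1, h2, mul_neg, neg_mul]; abel
      · rw [h1, h2, mul_neg, neg_mul]; abel
    have h1 := ih (K * X + X * K) (Or.inr hW) (diag_zero h X)
    have h2 := cotlar_id h hd
    rw [← hK] at h2
    have h3 : K * K = HH c n (K * X + X * K) - X * X := eq_sub_of_add_eq h2
    have h4 : S.N (m + 1) K ^ 2 = S.N m (K * K) := by
      rw [S.N_succ_sq]
      rcases hKs with ⟨_, h5⟩ | ⟨_, h5⟩
      · rw [h5, neg_mul, S.N_neg]
      · rw [h5]
    have h5 : S.N (m + 1) X ^ 2 = S.N m (X * X) := by
      rw [S.N_succ_sq]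
      rcases hX with h6 | h6
      · rw [h6]
      · rw [h6, neg_mul, S.N_neg]
    have h6 : S.N m (K * K) ≤ S.N m (HH c n (K * X + X * K)) + S.N m (X * X) := by
      rw [h3]
      exact S.N_sub _ _ _
    have h7 : S.N m (K * X + X * K) ≤ 2 * (S.N (m + 1) K * S.N (m + 1) X) := by
      have a1 := S.N_add m (K * X) (X * K)
      have a2 := S.N_mul m K X
      have a3 := S.N_mul m X K
      linarith
    have hc : (1 : ℝ) ≤ 2 ^ (m + 1) - 1 := by
      have : (2 : ℝ) ≤ 2 ^ (m + 1) := by
        calc (2 : ℝ) = 2 ^ 1 := by norm_num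
          _ ≤ 2 ^ (m + 1) := pow_le_pow_right₀ (by norm_num) (by omega)
      linarith
    set a := S.N (m + 1) K with ha
    set b := S.N (m + 1) X with hb
    set C : ℝ := 2 ^ (m + 1) - 1 with hC
    have ha0 : 0 ≤ a := S.N_nonneg _ _
    have hb0 : 0 ≤ b := S.N_nonneg _ _
    have h8 : a ^ 2 ≤ C * (2 * (a * b)) + b ^ 2 := by
      rw [h4, h5]
      have := mul_le_mul_of_nonneg_left h7 (by linarith : (0 : ℝ) ≤ C)
      linarith
    have hgoal : (2 : ℝ) ^ (m + 1 + 1) - 1 = 2 * C + 1 := by
      rw [hC, pow_succ]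
      ring
    rw [hgoal]
    by_contra hcon
    push Not at hcon
    have h9 : b ≤ a := by nlinarith
    have hapos : 0 < a := lt_of_le_of_lt (mul_nonneg (by linarith) hb0) hcon
    have g1 : a * ((2 * C + 1) * b) < a * a := mul_lt_mul_of_pos_left hcon hapos
    have g2 : b * b ≤ a * b := mul_le_mul_of_nonneg_right h9 hb0
    nlinarith

theorem N_HH_gen (h : Chain c n) (m : ℕ) (X : B) :
    S.N m (HH c n X) ≤ 4 * (2 ^ (m + 1) - 1) * S.N m X := by
  set X1 : B := (1 / 2 : ℝ) • (X + star X) with h1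
  set X2 : B := (1 / 2 : ℝ) • (X - star X) with h2
  have e : X = X1 + X2 := by
    rw [h1, h2]
    module
  have s1 : star X1 = X1 := by
    rw [h1, star_smul, star_trivial (1 / 2 : ℝ), star_add, star_star, add_comm]
  have s2 : star X2 = -X2 := by
    rw [h2, star_smul, star_trivial (1 / 2 : ℝ), star_sub, star_star, ← smul_neg, neg_sub]
  have hhalf : |(1 / 2 : ℝ)| = 1 / 2 := abs_of_pos (by norm_num)
  have n1 : S.N m X1 ≤ S.N m X := by
    rw [h1, S.N_smul, hhalf]
    have := S.N_add m X (star X)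
    rw [S.N_star] at this
    linarith
  have n2 : S.N m X2 ≤ S.N m X := by
    rw [h2, S.N_smul, hhalf]
    have := S.N_sub m X (star X)
    rw [S.N_star] at this
    linarith
  have hC : (0 : ℝ) ≤ 2 ^ (m + 1) - 1 := by
    have : (1 : ℝ) ≤ 2 ^ (m + 1) := one_le_pow₀ (by norm_num)
    linarith
  have key : ∀ Y : B, (star Y = Y ∨ star Y = -Y) → S.N m Y ≤ S.N m X →
      S.N m (HH c n Y) ≤ 2 * (2 ^ (m + 1) - 1) * S.N m X := by
    intro Y hY hN
    have e1 : HH c n Y = HH c n (Y - DD c n Y) := by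
      rw [HH_sub, HH_DD h, sub_zero]
    have hneg : DD c n (-Y) = -DD c n Y := by
      rw [DD_eq, DD_eq, ← Finset.sum_neg_distrib]
      refine Finset.sum_congr rfl fun j _ => ?_
      rw [mul_neg, neg_mul]
    have hs : star (Y - DD c n Y) = Y - DD c n Y ∨ star (Y - DD c n Y) = -(Y - DD c n Y) := by
      rcases hY with h3 | h3
      · left
        rw [star_sub, star_DD h, h3]
      · right
        rw [star_sub, star_DD h, h3, hneg]
        abel
    have hd : ∀ i < n, pr c i * (Y - DD c n Y) * pr c i = 0 := by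
      intro i hi
      rw [mul_sub, sub_mul, ent_DD h Y i i hi, if_pos rfl, sub_self]
    have a1 := S.N_HH h m _ hs hd
    have a2 := S.N_sub m Y (DD c n Y)
    have a3 := S.N_DD h m Y
    rw [e1]
    have a4 : S.N m (Y - DD c n Y) ≤ 2 * S.N m X := by linarith
    calc S.N m (HH c n (Y - DD c n Y)) ≤ (2 ^ (m + 1) - 1) * S.N m (Y - DD c n Y) := a1
      _ ≤ (2 ^ (m + 1) - 1) * (2 * S.N m X) := mul_le_mul_of_nonneg_left a4 hC
      _ = 2 * (2 ^ (m + 1) - 1) * S.N m X := by ring
  have k1 := key X1 (Or.inl s1) n1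
  have k2 := key X2 (Or.inr s2) n2
  have : HH c n X = HH c n X1 + HH c n X2 := by
    rw [← HH_add, ← e]
  rw [this]
  have := S.N_add m (HH c n X1) (HH c n X2)
  linarith

end TS

/-- Triangular truncation is bounded for the norm `N m`. -/
theorem TS.cotlar [Algebra ℝ B] [StarModule ℝ B] (S : TS B) {c : ℕ → B} {n : ℕ}
    (h : Chain c n) {b : ℕ} (hb : b ≤ 1) (m : ℕ) (X : B) :
    S.N m (Tr b c n X) ≤ 2 ^ (m + 3) * S.N m X := by
  have h1 := S.N_HH_gen h m X
  have h2 := S.N_DD h m X
  have h0 := S.N_nonneg m X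
  have hhalf : |(1 / 2 : ℝ)| = 1 / 2 := abs_of_pos (by norm_num)
  have t0 : Tr 0 c n X = (1 / 2 : ℝ) • (X - DD c n X + HH c n X) := by
    unfold DD HH
    module
  have n0 : S.N m (Tr 0 c n X) ≤ (1 + 2 * (2 ^ (m + 1) - 1)) * S.N m X := by
    rw [t0, S.N_smul, hhalf]
    have a1 := S.N_add m (X - DD c n X) (HH c n X)
    have a2 := S.N_sub m X (DD c n X)
    nlinarith
  have hpow : (2 : ℝ) ^ (m + 3) = 4 * 2 ^ (m + 1) := by
    rw [show m + 3 = (m + 1) + 2 by ring, pow_add]
    ring
  have hp : (1 : ℝ) ≤ 2 ^ (m + 1) := one_le_pow₀ (by norm_num)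
  obtain rfl | rfl : b = 0 ∨ b = 1 := by omega
  · rw [hpow]
    refine n0.trans ?_
    apply mul_le_mul_of_nonneg_right _ h0
    linarith
  · have t1 : Tr 1 c n X = Tr 0 c n X + DD c n X := by
      unfold DD
      abel
    rw [t1, hpow]
    refine (S.N_add m _ _).trans ?_
    nlinarith

/-- Triangular truncation is a contraction in `L_2`. -/
theorem TS.cotlar_two [Algebra ℝ B] [StarModule ℝ B] (S : TS B) {c : ℕ → B} {n : ℕ}
    (h : Chain c n) {b : ℕ} (hb : b ≤ 1) (X : B) :
    S.t (star (Tr b c n X) * Tr b c n X) ≤ S.t (star X * X) :=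
  S.t_Tr h b X

end GD64
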