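import Pool.Agent.GD64.Basic
import Pool.Agent.GD64.Cotlar

/-!
# GD64/WeakTri: the resolvent of the accretive triangular truncation

Let `0 = c_0 ≤ ... ≤ c_n = 1` be a chain, `a ≥ 0`, `ε > 0`. Put `p_j = c_{j+1} - c_j`,
`D = ∑ p_j a p_j = Tr 1 c n a - Tr 0 c n a ≥ 0`, `U = Tr 0 c n a` (strictly upper), so
`a = U + D + U*` (`star_sub_Tr`), `A0 = ε (2U + D) = ε (Tr 0 a + Tr 1 a)`, `A0 + A0* = 2 ε a ≥ 0`.
1. `1 + A0` is invertible (`isUnit_of_accretive`), `V = (1 + A0)⁻¹`, `c = A0 V = 1 - V`.
   `(1+A0)* (c + c* - 2 c* c)(1+A0) = (1+A0*) A0 + A0* (1+A0) - 2 A0* A0 = A0 + A0* ≥ 0`, so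
   `2 c* c ≤ c + c*` and `t(c* c) ≤ t(c)`.
2. `V` is upper triangular: `(1 - c_j) V c_j = 0`. Indeed `c_j (1+A0) c_j + (1 - c_j)` is
   accretive, hence invertible with inverse `s`; `s` commutes with `c_j` and
   `(1+A0) c_j s = c_j (1 + A0) c_j s = c_j` because `A0 c_j = c_j A0 c_j`; so `V c_j = c_j s`.
3. `t(c) ≤ ε t(D) = ε t(a)`: `p_j V p_j (p_j + ε p_j a p_j) = p_j` (triangularity), so
   `β_j = p_j V p_j` is the inverse of `p_j + ε p_j a p_j` in the corner, `0 ≤ β_j ≤ p_j`, and
   `t(c) = ∑ t(p_j - β_j) = ∑ t(β_j ε p_j a p_j) ≤ ε ∑ t(p_j a p_j) = ε t(a)`.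
-/

namespace GD64

section aux

variable {A : Type*} [Ring A] [StarRing A]

theorem WT.compl_mul {c : ℕ → A} {n : ℕ} (h : Chain c n) (i j : ℕ) (hij : j ≤ i) :
    (c (i + 1) - c i) * c j = 0 := by
  rw [sub_mul, h.mul j (i + 1) (by omega), h.mul j i hij, sub_self]

theorem WT.compl_mul' {c : ℕ → A} {n : ℕ} (h : Chain c n) (i j : ℕ) (hij : i + 1 ≤ j) :
    (c (i + 1) - c i) * c j = c (i + 1) - c i := by
  rw [sub_mul, h.mul' hij, h.mul' (show i ≤ j by omega)]

theorem WT.mul_compl {c : ℕ → A} {n : ℕ} (h : Chain c n) (i j : ℕ) (hij : j ≤ i) :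
    c j * (c (i + 1) - c i) = 0 := by
  rw [mul_sub, h.mul' (show j ≤ i + 1 by omega), h.mul' hij, sub_self]

theorem WT.mul_compl' {c : ℕ → A} {n : ℕ} (h : Chain c n) (i j : ℕ) (hij : i + 1 ≤ j) :
    c j * (c (i + 1) - c i) = c (i + 1) - c i := by
  rw [mul_sub, h.mul (i + 1) j hij, h.mul i j (by omega)]

theorem WT.pp {c : ℕ → A} {n : ℕ} (h : Chain c n) (i : ℕ) :
    (c (i + 1) - c i) * (c (i + 1) - c i) = c (i + 1) - c i := by
  rw [mul_sub, WT.compl_mul' h i (i + 1) le_rfl, WT.compl_mul h i i le_rfl, sub_zero]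

theorem WT.pij {c : ℕ → A} {n : ℕ} (h : Chain c n) {i j : ℕ} (hij : i ≠ j) :
    (c (i + 1) - c i) * (c (j + 1) - c j) = 0 := by
  rcases Nat.lt_or_gt_of_ne hij with h1 | h1
  · rw [mul_sub, WT.compl_mul' h i (j + 1) (by omega), WT.compl_mul' h i j (by omega), sub_self]
  · rw [mul_sub, WT.compl_mul h i (j + 1) (by omega), WT.compl_mul h i j (by omega), sub_self]

/-- truncations preserve the chain. -/
theorem WT.Tr_mul {c : ℕ → A} {n : ℕ} (h : Chain c n) {b : ℕ} (hb : b ≤ 1) (a : A) (j : ℕ) :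
    Tr b c n a * c j = c j * Tr b c n a * c j := by
  unfold Tr
  rw [Finset.mul_sum, Finset.sum_mul, Finset.sum_mul]
  refine Finset.sum_congr rfl fun i _ => ?_
  by_cases hij : j ≤ i
  · have h0 := WT.compl_mul h i j hij
    have e1 : c (i + b) * a * (c (i + 1) - c i) * c j = 0 := by
      rw [mul_assoc, h0, mul_zero]
    have e2 : c j * (c (i + b) * a * (c (i + 1) - c i)) * c j = 0 := by
      rw [mul_assoc, e1, mul_zero]
    rw [e1, e2]
  · have e3 : c j * c (i + b) = c (i + b) := h.mul _ _ (by omega)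
    have e4 : c j * (c (i + b) * a * (c (i + 1) - c i)) = c (i + b) * a * (c (i + 1) - c i) := by
      rw [← mul_assoc, ← mul_assoc, e3]
    rw [e4]

theorem WT.p_Tr0 {c : ℕ → A} {n : ℕ} (h : Chain c n) (a : A) (j : ℕ) :
    (c (j + 1) - c j) * Tr 0 c n a * (c (j + 1) - c j) = 0 := by
  unfold Tr
  rw [Finset.mul_sum, Finset.sum_mul]
  refine Finset.sum_eq_zero fun i _ => ?_
  by_cases hij : i = j
  · subst hij
    have : (c (i + 1) - c i) * (c (i + 0) * a * (c (i + 1) - c i)) = 0 := by
      rw [← mul_assoc, ← mul_assoc, add_zero, WT.compl_mul h i i le_rfl, zero_mul, zero_mul]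
    rw [this, zero_mul]
  · rw [mul_assoc, mul_assoc (c (i + 0) * a), WT.pij h hij, mul_zero, mul_zero]

theorem WT.p_Tr1 {c : ℕ → A} {n : ℕ} (h : Chain c n) (a : A) (j : ℕ) (hj : j < n) :
    (c (j + 1) - c j) * Tr 1 c n a * (c (j + 1) - c j) =
      (c (j + 1) - c j) * a * (c (j + 1) - c j) := by
  unfold Tr
  rw [Finset.mul_sum, Finset.sum_mul, Finset.sum_eq_single j]
  · rw [← mul_assoc, ← mul_assoc, WT.compl_mul' h j (j + 1) le_rfl, mul_assoc, WT.pp h]
  · intro i _ hij
    rw [mul_assoc, mul_assoc (c (i + 1) * a), WT.pij h hij, mul_zero, mul_zero]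
  · intro hh
    exact absurd (Finset.mem_range.2 hj) hh

theorem WT.sum_p {c : ℕ → A} {n : ℕ} (h : Chain c n) :
    ∑ j ∈ Finset.range n, (c (j + 1) - c j) = 1 := by
  rw [Finset.sum_range_sub, h.one, h.zero, sub_zero]

theorem WT.star_p {c : ℕ → A} {n : ℕ} (h : Chain c n) (j : ℕ) :
    star (c (j + 1) - c j) = c (j + 1) - c j := by
  rw [star_sub, (h.proj _).isSelfAdjoint.star_eq, (h.proj _).isSelfAdjoint.star_eq]

end aux

theorem TF.weak_tri {A : Type*} [CStarAlgebra A] [PartialOrder A] [StarOrderedRing A]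
    (T : TF A) {n : ℕ} {c : ℕ → A} (h : Chain c n) {a : A} (ha : 0 ≤ a) {ε : ℝ}
    (hε : 0 < ε) :
    ∃ W : Aˣ, (W : A) = 1 + ε • (Tr 0 c n a + Tr 1 c n a) ∧
      T.t (star (1 - ((W⁻¹ : Aˣ) : A)) * (1 - ((W⁻¹ : Aˣ) : A))) ≤ ε * T.t a := by
  have hsa : star a = a := (IsSelfAdjoint.of_nonneg ha).star_eq
  -- the sum with the adjoint
  set A0 : A := ε • (Tr 0 c n a + Tr 1 c n a) with hA0
  have s1 : star (Tr 1 c n a) = a - Tr 0 c n a := by
    have := star_sub_Tr h a
    rw [star_sub, hsa] at this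
    rw [← this]; abel
  have s0 : star (Tr 0 c n a) = a - Tr 1 c n a := by
    have := congrArg star (star_sub_Tr h a)
    rw [star_star, hsa] at this
    rw [← this]
  have hstar : A0 + star A0 = (2 * ε) • a := by
    rw [hA0, star_smul, star_add, s0, s1, star_trivial, ← smul_add, mul_comm, mul_smul]
    congr 1
    rw [two_smul]; abel
  have hinv : ∀ j, A0 * c j = c j * A0 * c j := by
    intro j
    rw [hA0, smul_mul_assoc, mul_smul_comm, smul_mul_assoc, add_mul, mul_add, add_mul,
      WT.Tr_mul h (by norm_num) a j, WT.Tr_mul h le_rfl a j]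
  have hea : 0 ≤ (2 * ε) • a := smul_nonneg (by positivity) ha
  -- step 1
  have hacc : (2 : ℝ) • (1 : A) ≤ (1 + A0) + star (1 + A0) := by
    have : (1 + A0) + star (1 + A0) = (2 : ℝ) • (1 : A) + (2 * ε) • a := by
      rw [← hstar, star_add, star_one, two_smul]; abel
    rw [this]
    exact le_add_of_nonneg_right hea
  obtain ⟨W, hW⟩ := isUnit_of_accretive (by norm_num : (0 : ℝ) < 2) hacc
  refine ⟨W, hW, ?_⟩
  set V : A := ((W⁻¹ : Aˣ) : A) with hV
  have hVW : V * (1 + A0) = 1 := by rw [hV, ← hW]; exact W.inv_mul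
  have hWV : (1 + A0) * V = 1 := by rw [hV, ← hW]; exact W.mul_inv
  set C : A := 1 - V with hC
  have hCW : C * (1 + A0) = A0 := by rw [hC, sub_mul, hVW, one_mul]; abel
  have hpos : 0 ≤ C + star C - (2 : ℝ) • (star C * C) := by
    have e : star (1 + A0) * (C + star C - (2 : ℝ) • (star C * C)) * (1 + A0) = (2 * ε) • a := by
      have e1 : star (1 + A0) * star C = star A0 := by
        rw [← star_mul, hCW]
      have gen : ∀ s w : A, s * (C + star C - (2 : ℝ) • (star C * C)) * w =
          s * (C * w) + (s * star C) * w - (2 : ℝ) • ((s * star C) * (C * w)) := by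
        intro s w
        rw [mul_sub, mul_add, sub_mul, add_mul, mul_smul_comm, smul_mul_assoc]
        simp only [mul_assoc]
      rw [gen, e1, hCW, ← hstar, star_add, star_one, two_smul]
      noncomm_ring
    have e3 : C + star C - (2 : ℝ) • (star C * C) =
        star V * (star (1 + A0) * (C + star C - (2 : ℝ) • (star C * C)) * (1 + A0)) * V := by
      have e4 : star V * star (1 + A0) = 1 := by rw [← star_mul, hWV, star_one]
      calc C + star C - (2 : ℝ) • (star C * C)
          = (star V * star (1 + A0)) * (C + star C - (2 : ℝ) • (star C * C)) *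
              ((1 + A0) * V) := by rw [e4, hWV, one_mul, mul_one]
        _ = _ := by simp only [mul_assoc]
    rw [e3, e]
    exact star_left_conjugate_nonneg hea V
  have hcc : T.t (star C * C) ≤ T.t C := by
    have := T.t_nonneg hpos
    rw [map_sub, map_add, T.t_star, map_smul, smul_eq_mul] at this
    linarith
  refine hcc.trans ?_
  -- step 2: triangularity of V
  have htri : ∀ j, V * c j = c j * V * c j := by
    intro j
    have hpj := h.proj j
    have hidem : c j * c j = c j := hpj.isIdempotentElem.eq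
    have hst : star (c j) = c j := hpj.isSelfAdjoint.star_eq
    set B : A := c j * (1 + A0) * c j + (1 - c j) with hB
    have hBacc : (2 : ℝ) • (1 : A) ≤ B + star B := by
      have e1 : B + star B = (2 : ℝ) • (1 : A) + c j * ((2 * ε) • a) * c j := by
        have e2 : star B = c j * (1 + star A0) * c j + (1 - c j) := by
          rw [hB, star_add, star_mul, star_mul, star_sub, star_add, star_one, hst, mul_assoc]
        rw [e2, hB, ← hstar, two_smul]
        have e3 : c j * (1 + A0) * c j = c j + c j * A0 * c j := by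
          rw [mul_add, add_mul, mul_one, hidem]
        have e4 : c j * (1 + star A0) * c j = c j + c j * star A0 * c j := by
          rw [mul_add, add_mul, mul_one, hidem]
        have e5 : c j * (A0 + star A0) * c j = c j * A0 * c j + c j * star A0 * c j := by
          rw [mul_add, add_mul]
        rw [e3, e4, e5]; abel
      rw [e1]
      exact le_add_of_nonneg_right (proj_conj_nonneg hpj hea)
    obtain ⟨S, hS⟩ := isUnit_of_accretive (by norm_num : (0 : ℝ) < 2) hBacc
    have hcB : c j * B = B * c j := by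
      rw [hB]
      have e1 : c j * (c j * (1 + A0) * c j + (1 - c j)) = c j * (1 + A0) * c j := by
        rw [mul_add, mul_sub, mul_one, hidem, sub_self, add_zero, ← mul_assoc, ← mul_assoc, hidem]
      have e2 : (c j * (1 + A0) * c j + (1 - c j)) * c j = c j * (1 + A0) * c j := by
        rw [add_mul, sub_mul, one_mul, hidem, sub_self, add_zero, mul_assoc, hidem]
      rw [e1, e2]
    have hcS : c j * ((S⁻¹ : Aˣ) : A) = ((S⁻¹ : Aˣ) : A) * c j := by
      have : Commute (c j) (S : A) := by rw [hS]; exact hcB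
      exact (this.units_inv_right).eq
    have hkey : (1 + A0) * (c j * ((S⁻¹ : Aˣ) : A)) = c j := by
      have e1 : (1 + A0) * c j = c j * B := by
        rw [hB, mul_add, mul_sub, mul_one, hidem, sub_self, add_zero, ← mul_assoc, ← mul_assoc,
          hidem, add_mul, mul_add, add_mul, one_mul, mul_one, hidem, hinv j]
      rw [← mul_assoc, e1, mul_assoc, ← hS, S.mul_inv, mul_one]
    have hVc : V * c j = c j * ((S⁻¹ : Aˣ) : A) := by
      calc V * c j = V * ((1 + A0) * (c j * ((S⁻¹ : Aˣ) : A))) := by rw [hkey]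
        _ = c j * ((S⁻¹ : Aˣ) : A) := by rw [← mul_assoc, hVW, one_mul]
    rw [mul_assoc, hVc, ← mul_assoc, hidem]
  -- step 3
  have hblock : ∀ j ∈ Finset.range n, T.t (C * (c (j + 1) - c j)) ≤
      ε * T.t (a * (c (j + 1) - c j)) := by
    intro j hj
    rw [Finset.mem_range] at hj
    set p : A := c (j + 1) - c j with hp
    have hpp : p * p = p := WT.pp h j
    have hps : star p = p := WT.star_p h j
    have hpP : IsStarProjection p := ⟨hpp, hps⟩
    have hpap : 0 ≤ p * a * p := proj_conj_nonneg hpP ha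
    -- p V p W p = p
    have hq : p * V * c (j + 1) = p * V * p := by
      have e1 : p * V * c j = 0 := by
        rw [mul_assoc, htri j, ← mul_assoc, ← mul_assoc, hp, WT.compl_mul h j j le_rfl, zero_mul,
          zero_mul]
      rw [hp, mul_sub, ← hp, e1, sub_zero]
    have hWp : (1 + A0) * p = c (j + 1) * ((1 + A0) * p) := by
      have e1 : c (j + 1) * p = p := WT.mul_compl' h j (j + 1) le_rfl
      have e2 : A0 * p = c (j + 1) * A0 * p := by
        have : A0 * p = A0 * c (j + 1) * p := by rw [mul_assoc, e1]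
        rw [this, hinv (j + 1), mul_assoc, e1]
      rw [add_mul, mul_add, one_mul, e1, ← mul_assoc, ← e2]
    have hpWp : p * ((1 + A0) * p) = p + ε • (p * a * p) := by
      rw [← mul_assoc, mul_add, add_mul, mul_one, hpp, hA0, mul_smul_comm, smul_mul_assoc,
        mul_add, add_mul, WT.p_Tr0 h a j, WT.p_Tr1 h a j hj, zero_add]
    have hbeta : (p * V * p) * (p + ε • (p * a * p)) = p := by
      calc (p * V * p) * (p + ε • (p * a * p)) = (p * V * p) * (p * ((1 + A0) * p)) := by
            rw [hpWp]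
        _ = (p * V * p) * ((1 + A0) * p) := by
            rw [← mul_assoc (p * V * p), mul_assoc (p * V) p p, hpp]
        _ = (p * V * c (j + 1)) * ((1 + A0) * p) := by rw [hq]
        _ = (p * V) * (c (j + 1) * ((1 + A0) * p)) := by rw [mul_assoc (p * V)]
        _ = (p * V) * ((1 + A0) * p) := by rw [← hWp]
        _ = p * (V * (1 + A0)) * p := by simp only [mul_assoc]
        _ = p := by rw [hVW, mul_one, hpp]
    -- the positive element
    have hh1 : (1 : A) ≤ 1 + ε • (p * a * p) := le_add_of_nonneg_right (smul_nonneg hε.le hpap)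
    have hhu : IsUnit (1 + ε • (p * a * p)) := by
      apply isUnit_of_accretive (by norm_num : (0 : ℝ) < 2)
      have hs' : star (1 + ε • (p * a * p)) = 1 + ε • (p * a * p) :=
        (IsSelfAdjoint.of_nonneg (zero_le_one.trans hh1)).star_eq
      rw [hs', ← two_smul ℝ]
      exact smul_le_smul_of_nonneg_left hh1 (by norm_num)
    obtain ⟨H, hH⟩ := hhu
    have hbH : (p * V * p) * (H : A) = p := by
      rw [hH, mul_add, mul_one]
      rw [mul_add] at hbeta
      have : p * V * p * p = p * V * p := by rw [mul_assoc, hpp]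
      rw [this] at hbeta
      exact hbeta
    have hbH' : p * V * p = p * ((H⁻¹ : Aˣ) : A) := by
      calc p * V * p = (p * V * p) * ((H : A) * ((H⁻¹ : Aˣ) : A)) := by rw [H.mul_inv, mul_one]
        _ = p * ((H⁻¹ : Aˣ) : A) := by rw [← mul_assoc, hbH]
    have hHle : ((H⁻¹ : Aˣ) : A) ≤ 1 := CStarAlgebra.inv_le_one (by
      rw [← Units.val_le_val, hH, Units.val_one]; exact hh1)
    have hsub : p - p * V * p = (p * V * p) * (ε • (p * a * p)) := by
      have : p = (p * V * p) * (H : A) := hbH.symm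
      have e2 : (p * V * p) * (H : A) = p * V * p + (p * V * p) * (ε • (p * a * p)) := by
        rw [hH, mul_add, mul_one]
      rw [e2] at this
      rw [sub_eq_iff_eq_add, add_comm]
      exact this
    have e5 : T.t (C * p) = T.t (p - p * V * p) := by
      have e6 : T.t (p * V * p) = T.t (V * p) := T.t_proj_conj hpP V
      rw [hC, sub_mul, one_mul, map_sub T.t p (V * p), map_sub T.t p (p * V * p), e6]
    rw [e5, hsub]
    have hcomm : p * ((H⁻¹ : Aˣ) : A) = ((H⁻¹ : Aˣ) : A) * p := by
      have : Commute p (H : A) := by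
        rw [hH]
        show p * (1 + ε • (p * a * p)) = (1 + ε • (p * a * p)) * p
        rw [mul_add, add_mul, mul_one, one_mul, mul_smul_comm, smul_mul_assoc]
        congr 2
        rw [← mul_assoc, ← mul_assoc, hpp, mul_assoc (p * a), hpp]
      exact this.units_inv_right.eq
    have e7 : (p * V * p) * (ε • (p * a * p)) = ε • (((H⁻¹ : Aˣ) : A) * (p * a * p)) := by
      rw [hbH', hcomm, mul_smul_comm]
      congr 1
      rw [mul_assoc, ← mul_assoc p (p * a), ← mul_assoc p p, hpp]
    rw [e7, map_smul, smul_eq_mul]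
    apply mul_le_mul_of_nonneg_left _ hε.le
    calc T.t (((H⁻¹ : Aˣ) : A) * (p * a * p)) ≤ T.t (1 * (p * a * p)) :=
          T.t_mul_mono hHle hpap
      _ = T.t (a * p) := by rw [one_mul, T.t_proj_conj hpP a]
  calc T.t C = T.t (C * ∑ j ∈ Finset.range n, (c (j + 1) - c j)) := by
        rw [WT.sum_p h, mul_one]
    _ = ∑ j ∈ Finset.range n, T.t (C * (c (j + 1) - c j)) := by
        rw [Finset.mul_sum, map_sum]
    _ ≤ ∑ j ∈ Finset.range n, ε * T.t (a * (c (j + 1) - c j)) := Finset.sum_le_sum hblock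
    _ = ε * T.t (a * ∑ j ∈ Finset.range n, (c (j + 1) - c j)) := by
        rw [← Finset.mul_sum, Finset.mul_sum (Finset.range n) _ a, map_sum]
    _ = ε * T.t a := by rw [WT.sum_p h, mul_one]

end GD64
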