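import Pool.Agent.GD64.WeakProj
import Pool.Agent.GD64.WeakTri

/-!
# GD64/WeakT: weak type (1,1) estimate with an `L_2` bound for the triangular truncation

Combine `weak_tri` and `weak_proj`: `tt = Tr 0 a + Tr 1 a = ε⁻¹ (W - 1)`:
`t(p |tt|² p) ≤ 4 ε⁻¹ t(a)`, `t(1-p) ≤ 4 ε t(a)`.
`D = Tr 1 a - Tr 0 a = ∑ p_j a p_j ≥ 0`, `t(D) = t(a)`: by `cheb` at level `ε⁻¹` there is `p_D ∈ F M`
commuting with `D`, `p_D D p_D ≤ ε⁻¹ p_D`, `t(1-p_D) ≤ ε t(a)`, so `t(p_D D² p_D) ≤ ε⁻¹ t(a)`.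
`Tr 1 a = (tt + D)/2`, `Tr 0 a = (tt - D)/2`; take `p ∧ p_D` (`T.meet`).
-/

namespace GD64

theorem WT.Tr_mem {A : Type*} [CStarAlgebra A] [PartialOrder A] [StarOrderedRing A] (T : TF A)
    {M n : ℕ} {c : ℕ → A} (hc : ∀ j, c j ∈ T.F M) {a : A} (haM : a ∈ T.F M) (b : ℕ) :
    Tr b c n a ∈ T.F M := by
  unfold Tr
  exact sum_mem fun j _ => mul_mem (mul_mem (hc _) haM) (sub_mem (hc _) (hc _))

/-- the diagonal part. -/
theorem WT.diag_eq {A : Type*} [Ring A] [StarRing A] {n : ℕ} (c : ℕ → A) (a : A) :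
    Tr 1 c n a - Tr 0 c n a =
      ∑ j ∈ Finset.range n, (c (j + 1) - c j) * a * (c (j + 1) - c j) := by
  unfold Tr
  rw [← Finset.sum_sub_distrib]
  refine Finset.sum_congr rfl fun j _ => ?_
  rw [add_zero, sub_mul (c (j + 1)) (c j) a, sub_mul]

theorem TF.weakT {A : Type*} [CStarAlgebra A] [PartialOrder A] [StarOrderedRing A] (T : TF A)
    {M n : ℕ} {c : ℕ → A} (h : Chain c n) (hc : ∀ j, c j ∈ T.F M) {a : A} (ha : 0 ≤ a)
    (haM : a ∈ T.F M) {b : ℕ} (hb : b ≤ 1) {ε : ℝ} (hε : 0 < ε) :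
    ∃ p ∈ T.F M, IsStarProjection p ∧ T.t (1 - p) ≤ 5 * ε * T.t a ∧
      T.t (p * (star (Tr b c n a) * Tr b c n a) * p) ≤ 5 * ε⁻¹ * T.t a := by
  obtain ⟨W, hW, hWt⟩ := T.weak_tri h ha hε
  have hta : 0 ≤ T.t a := T.t_nonneg ha
  set tt : A := Tr 0 c n a + Tr 1 c n a with htt
  set D : A := Tr 1 c n a - Tr 0 c n a with hD
  have httm : tt ∈ T.F M := add_mem (WT.Tr_mem T hc haM 0) (WT.Tr_mem T hc haM 1)
  have hDm : D ∈ T.F M := sub_mem (WT.Tr_mem T hc haM 1) (WT.Tr_mem T hc haM 0)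
  have hWm : (W : A) ∈ T.F M := by
    rw [hW]; exact add_mem (one_mem _) (T.real_smul_mem ε httm)
  obtain ⟨p1, hp1m, hp1, hp1t, hp1b⟩ := T.weak_proj W hWm
  -- D
  have hpj : ∀ j, IsStarProjection (c (j + 1) - c j) := fun j => ⟨WT.pp h j, WT.star_p h j⟩
  have hD0 : 0 ≤ D := by
    rw [hD, WT.diag_eq]
    exact Finset.sum_nonneg fun j _ => proj_conj_nonneg (hpj j) ha
  have hDt : T.t D = T.t a := by
    rw [hD, WT.diag_eq, map_sum]
    calc ∑ j ∈ Finset.range n, T.t ((c (j + 1) - c j) * a * (c (j + 1) - c j))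
        = ∑ j ∈ Finset.range n, T.t (a * (c (j + 1) - c j)) :=
          Finset.sum_congr rfl fun j _ => T.t_proj_conj (hpj j) a
      _ = T.t a := by rw [← map_sum, ← Finset.mul_sum, WT.sum_p h, mul_one]
  obtain ⟨pD, hpDm, hpD, hpDc, hpDb, -, hpDt⟩ := T.cheb hD0 hDm (inv_pos.2 hε)
  have hpDt' : T.t (1 - pD) ≤ ε * T.t a := by
    calc T.t (1 - pD) ≤ T.t D / ε⁻¹ := hpDt
      _ = ε * T.t a := by rw [hDt, div_inv_eq_mul, mul_comm]
  have hpDi : pD * pD = pD := hpD.isIdempotentElem.eq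
  have hDsa : star D = D := (IsSelfAdjoint.of_nonneg hD0).star_eq
  have hDD : T.t (pD * (star D * D) * pD) ≤ ε⁻¹ * T.t a := by
    have e0 : 0 ≤ pD * D * pD := proj_conj_nonneg hpD hD0
    have e1 : pD * (star D * D) * pD = (pD * D * pD) * (pD * D * pD) := by
      have hcm : pD * D = D * pD := hpDc.eq
      rw [hDsa]
      calc pD * (D * D) * pD = pD * D * (D * pD) := by simp only [mul_assoc]
        _ = pD * D * (pD * D) := by rw [hcm]
        _ = pD * D * ((pD * pD) * (pD * D)) := by rw [hpDi, ← mul_assoc pD pD D, hpDi]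
        _ = pD * D * ((pD * pD) * (D * pD)) := by rw [hcm]
        _ = (pD * D * pD) * (pD * D * pD) := by simp only [mul_assoc]
    have e2 : pD * D * pD ≤ ε⁻¹ • (1 : A) := by
      refine hpDb.trans (smul_le_smul_of_nonneg_left ?_ (inv_pos.2 hε).le)
      have : (0 : A) ≤ 1 - pD := by
        have hi : (1 - pD) * (1 - pD) = 1 - pD := by
          rw [mul_sub, mul_one, sub_mul, one_mul, hpDi]; abel
        have hs : star (1 - pD) = 1 - pD := by
          rw [star_sub, star_one, hpD.isSelfAdjoint.star_eq]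
        rw [← hi]; nth_rewrite 1 [← hs]; exact star_mul_self_nonneg _
      exact sub_nonneg.1 this
    rw [e1]
    calc T.t ((pD * D * pD) * (pD * D * pD)) ≤ T.t (ε⁻¹ • (pD * D * pD)) :=
          T.t_mono (sq_le_smul e0 e2)
      _ = ε⁻¹ * T.t (pD * D * pD) := by rw [map_smul, smul_eq_mul]
      _ ≤ ε⁻¹ * T.t a := by
          apply mul_le_mul_of_nonneg_left _ (inv_pos.2 hε).le
          rw [← hDt]
          exact T.t_proj_conj_le hpD hD0
  have htt4 : T.t (p1 * (star tt * tt) * p1) ≤ 4 * ε⁻¹ * T.t a := by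
    have e1 : (W : A) - 1 = ε • tt := by rw [hW]; abel
    rw [e1] at hp1b
    have e2 : p1 * (star (ε • tt) * (ε • tt)) * p1 = (ε * ε) • (p1 * (star tt * tt) * p1) := by
      rw [star_smul, star_trivial, smul_mul_smul_comm, mul_smul_comm, smul_mul_assoc]
    rw [e2, map_smul, smul_eq_mul] at hp1b
    have e3 : ε * ε * T.t (p1 * (star tt * tt) * p1) ≤ 4 * (ε * T.t a) := by linarith
    have e4 : ε * T.t (p1 * (star tt * tt) * p1) ≤ 4 * T.t a := by
      have : ε * (ε * T.t (p1 * (star tt * tt) * p1)) ≤ ε * (4 * T.t a) := by linarith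
      exact le_of_mul_le_mul_left this hε
    calc T.t (p1 * (star tt * tt) * p1) = ε⁻¹ * (ε * T.t (p1 * (star tt * tt) * p1)) := by
          rw [inv_mul_cancel_left₀ hε.ne']
      _ ≤ ε⁻¹ * (4 * T.t a) := mul_le_mul_of_nonneg_left e4 (inv_pos.2 hε).le
      _ = 4 * ε⁻¹ * T.t a := by ring
  obtain ⟨p, hpm, hp, hp1p, hpDp, -, hpt⟩ := T.meet M p1 pD hp1m hpDm hp1 hpD
  refine ⟨p, hpm, hp, by linarith, ?_⟩
  have key : ∀ x y : A, star x * x ≤ (2 : ℝ) • (star tt * tt) + (2 : ℝ) • (star D * D) →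
      x = (2 : ℝ) • y → T.t (p * (star y * y) * p) ≤ 5 * ε⁻¹ * T.t a := by
    intro x y hxy hx
    have e1 : star x * x = (4 : ℝ) • (star y * y) := by
      rw [hx, star_smul, star_trivial, smul_mul_smul_comm]; norm_num
    rw [e1] at hxy
    have e2 := T.t_mono (proj_conj_mono hp hxy)
    rw [mul_smul_comm, smul_mul_assoc, mul_add, add_mul, mul_smul_comm, smul_mul_assoc,
      mul_smul_comm, smul_mul_assoc, map_smul, map_add, map_smul, map_smul, smul_eq_mul,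
      smul_eq_mul, smul_eq_mul] at e2
    have e3 : T.t (p * (star tt * tt) * p) ≤ T.t (p1 * (star tt * tt) * p1) :=
      T.t_proj_mono hp hp1 hp1p (star_mul_self_nonneg tt)
    have e4 : T.t (p * (star D * D) * p) ≤ T.t (pD * (star D * D) * pD) :=
      T.t_proj_mono hp hpD hpDp (star_mul_self_nonneg D)
    have e5 : 0 ≤ ε⁻¹ * T.t a := mul_nonneg (inv_pos.2 hε).le hta
    nlinarith [e2, e3, e4, htt4, hDD, e5]
  have hb' : b = 0 ∨ b = 1 := by omega
  rcases hb' with rfl | rfl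
  · apply key (tt - D) (Tr 0 c n a)
    · have := sq_add_le tt (-D)
      rw [star_neg, neg_mul_neg, ← sub_eq_add_neg] at this
      exact this
    · rw [htt, hD, two_smul]; abel
  · apply key (tt + D) (Tr 1 c n a)
    · exact sq_add_le tt D
    · rw [htt, hD, two_smul]; abel

end GD64
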