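import Pool.Agent.GD64.StopS
import Pool.Agent.GD64.WeakT
import Pool.Agent.GD64.ProcFlag

/-!
# GD64/HighS: the high part for self-adjoint martingales (stage 2)

Same proof as `TF.high` with two-sided stopping: `r_k d_k r_k = (w_{k+1} - w_k) + β⁺_k - β⁻_k`,
`|x+y+z|² ≤ 3|x|² + 3|y|² + 3|z|²`, `weakT` (`ε = 1/R`) for `e_L β⁺ e_L` and `e_L β⁻ e_L`;
`t(G) ≤ 9 R B + 15 R B`, `cheb` at `R²`; `t(1-p) ≤ 5B/R + 24 B/R`.
-/

namespace GD64

private theorem hs_sq3 {A : Type*} [CStarAlgebra A] [PartialOrder A] [StarOrderedRing A]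
    (x y z : A) :
    star (x + y - z) * (x + y - z) ≤
      (3 : ℝ) • (star x * x) + (3 : ℝ) • (star y * y) + (3 : ℝ) • (star z * z) := by
  have h1 := star_mul_self_nonneg (x - y)
  have h2 := star_mul_self_nonneg (x + z)
  have h3 := star_mul_self_nonneg (y + z)
  have h4 : (3 : ℝ) • (star x * x) + (3 : ℝ) • (star y * y) + (3 : ℝ) • (star z * z) -
      star (x + y - z) * (x + y - z) =
      star (x - y) * (x - y) + star (x + z) * (x + z) + star (y + z) * (y + z) := by
    have e3 : ∀ a : A, (3 : ℝ) • a = a + a + a := by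
      intro a
      have : (3 : ℝ) = 1 + 1 + 1 := by norm_num
      rw [this, add_smul, add_smul, one_smul]
    rw [e3, e3, e3]
    simp only [star_sub, star_add]
    noncomm_ring
  rw [← sub_nonneg, h4]
  exact add_nonneg (add_nonneg h1 h2) h3

private theorem hs_haux {A : Type*} [CStarAlgebra A] [PartialOrder A] [StarOrderedRing A]
    (T : TF A) {e y : A} (he : IsStarProjection e) (hy : IsSelfAdjoint y) :
    T.t (star (e * y * e) * (e * y * e)) ≤ T.t (y * y) := by
  have h1 : star (e * y * e) = e * y * e := by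
    rw [star_mul, star_mul, he.isSelfAdjoint.star_eq, hy.star_eq, mul_assoc]
  have h2 : e * y * e * (e * y * e) = e * (y * e * y) * e := by
    have := he.isIdempotentElem.eq
    calc e * y * e * (e * y * e) = e * y * (e * e) * y * e := by noncomm_ring
      _ = e * (y * e * y) * e := by rw [this]; noncomm_ring
  have h3 : y * e * y ≤ y * 1 * y := by
    have h4 : (0 : A) ≤ 1 - e := he.one_sub.nonneg
    have h5 := star_left_conjugate_nonneg h4 y
    rw [hy.star_eq] at h5
    have h6 : y * (1 - e) * y = y * 1 * y - y * e * y := by noncomm_ring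
    rw [h6] at h5
    exact sub_nonneg.1 h5
  rw [mul_one] at h3
  rw [h1, h2]
  refine (T.t_mono (proj_conj_mono he h3)).trans (T.t_proj_conj_le he ?_)
  have := star_mul_self_nonneg y
  rwa [hy.star_eq] at this

theorem TF.highS {A : Type*} [CStarAlgebra A] [PartialOrder A] [StarOrderedRing A] (T : TF A)
    {e : ℕ → ℕ → A} (he : FlagSys T e) {L : ℕ} {R : ℝ} (hR : 0 < R) {X : ℕ → A}
    (h : Mart T X) (hs : ∀ k, IsSelfAdjoint (X k)) {B : ℝ} (hB : T.L1B X B)
    (hq : ∀ k, T.stopS X R k * e L k = e L k) {b : ℕ} (hb : b ≤ 1) (N : ℕ) :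
    ∃ p ∈ T.F N, IsStarProjection p ∧
      p * (∑ k ∈ Finset.range N,
        star (Tr b (ch e L k) (L + 1) (e L k * dd X k * e L k)) *
          Tr b (ch e L k) (L + 1) (e L k * dd X k * e L k)) * p ≤ (R ^ 2) • (1 : A) ∧
      T.t (1 - p) ≤ 30 * (B / R) := by
  classical
  set q : ℕ → A := fun k => T.stopS X R k with hqdef
  have hqp : ∀ k, IsStarProjection (q k) := fun k => TF.stopS_proj h.mem hs hR k
  have hqm : ∀ k, q k ∈ T.F k := fun k => TF.stopS_mem h.mem hs hR k
  have hep : ∀ k, IsStarProjection (e L k) := fun k => he.proj L k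
  have hem : ∀ k, e L k ∈ T.F k := fun k => he.mem L k
  set w : ℕ → A := fun k => q (k + 1) * X (k + 1) * q (k + 1) - q k * X k * q k with hw
  set β : ℕ → A := fun k => T.jpos X R k * X (k + 1) * T.jpos X R k with hβ
  set γ : ℕ → A := fun k => -(T.jneg X R k * X (k + 1) * T.jneg X R k) with hγ
  have hgp : ∀ k, IsStarProjection (T.jpos X R k) := fun k => TF.jpos_proj h.mem hs hR k
  have hgn : ∀ k, IsStarProjection (T.jneg X R k) := fun k => TF.jneg_proj h.mem hs hR k
  have hgpm : ∀ k, T.jpos X R k ∈ T.F (k + 1) := fun k => TF.jpos_mem h.mem hs hR k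
  have hgnm : ∀ k, T.jneg X R k ∈ T.F (k + 1) := fun k => TF.jneg_mem h.mem hs hR k
  have hβ0 : ∀ k, 0 ≤ β k := fun k =>
    (smul_nonneg hR.le (hgp k).nonneg).trans (TF.jpos_bound h.mem hs hR k)
  have hγ0 : ∀ k, 0 ≤ γ k := by
    intro k
    have h1 := TF.jneg_bound h.mem hs hR k
    have h2 : (0 : A) ≤ R • T.jneg X R k := smul_nonneg hR.le (hgn k).nonneg
    exact neg_nonneg.2 (h1.trans (neg_nonpos.2 h2))
  have hβm : ∀ k, β k ∈ T.F (k + 1) := fun k =>
    mul_mem (mul_mem (hgpm k) (h.mem _)) (hgpm k)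
  have hγm : ∀ k, γ k ∈ T.F (k + 1) := fun k =>
    neg_mem (mul_mem (mul_mem (hgnm k) (h.mem _)) (hgnm k))
  have hconj : ∀ k {x : A}, IsSelfAdjoint x → IsSelfAdjoint (q k * x * q k) := by
    intro k x hx
    have := hx.conjugate (q k)
    rwa [(hqp k).isSelfAdjoint.star_eq] at this
  have hws : ∀ k, IsSelfAdjoint (w k) := fun k => (hconj _ (hs _)).sub (hconj _ (hs _))
  have hwm : ∀ k, w k ∈ T.F (k + 1) := fun k =>
    sub_mem (mul_mem (mul_mem (hqm _) (h.mem _)) (hqm _))
      (T.F_le (Nat.le_succ k) (mul_mem (mul_mem (hqm _) (h.mem _)) (hqm _)))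
  have hqe : ∀ k, q k * e L k = e L k := hq
  have heq : ∀ k, e L k * q k = e L k := fun k => proj_mul_comm (hep k) (hqp k) (hqe k)
  -- decomposition
  have hdec : ∀ k, e L k * dd X k * e L k =
      e L k * w k * e L k + e L k * β k * e L k - e L k * γ k * e L k := by
    intro k
    have h1 : q k * X (k + 1) * q k = q (k + 1) * X (k + 1) * q (k + 1) + β k +
        T.jneg X R k * X (k + 1) * T.jneg X R k := TF.stopS_split h.mem hs hR k
    have h2 : e L k * dd X k * e L k = e L k * (q k * X (k + 1) * q k - q k * X k * q k) *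
        e L k := by
      unfold dd
      calc e L k * (X (k + 1) - X k) * e L k =
          (e L k * q k) * (X (k + 1) - X k) * (q k * e L k) := by rw [heq, hqe]
        _ = _ := by noncomm_ring
    rw [h2, h1, hw, hγ]
    noncomm_ring
  set P : ℕ → A := fun k => Tr b (ch e L k) (L + 1) (e L k * w k * e L k) with hP
  set Q : ℕ → A := fun k => Tr b (ch e L k) (L + 1) (e L k * β k * e L k) with hQ
  set S : ℕ → A := fun k => Tr b (ch e L k) (L + 1) (e L k * γ k * e L k) with hS
  have hTr : ∀ k, Tr b (ch e L k) (L + 1) (e L k * dd X k * e L k) = P k + Q k - S k := by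
    intro k
    have h3 : Tr b (ch e L k) (L + 1) (e L k * dd X k * e L k) + S k = P k + Q k := by
      rw [hS, hP, hQ]
      show _ + Tr b (ch e L k) (L + 1) (e L k * γ k * e L k) = _
      rw [← Tr_add, hdec, sub_add_cancel, Tr_add]
    rw [← h3, add_sub_cancel_right]
  have heN : ∀ k ∈ Finset.range N, k + 1 ≤ N := fun k hk => Finset.mem_range.1 hk
  have hPm : ∀ k ∈ Finset.range N, P k ∈ T.F N := fun k hk =>
    T.F_le (heN k hk) (he.Tr_mem _ _ _ _ (mul_mem (mul_mem (T.F_le (Nat.le_succ k) (hem k))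
      (hwm k)) (T.F_le (Nat.le_succ k) (hem k))))
  have hbm : ∀ k ∈ Finset.range N, e L k * β k * e L k ∈ T.F N := fun k hk =>
    T.F_le (heN k hk) (mul_mem (mul_mem (T.F_le (Nat.le_succ k) (hem k))
      (hβm k)) (T.F_le (Nat.le_succ k) (hem k)))
  have hcm : ∀ k ∈ Finset.range N, e L k * γ k * e L k ∈ T.F N := fun k hk =>
    T.F_le (heN k hk) (mul_mem (mul_mem (T.F_le (Nat.le_succ k) (hem k))
      (hγm k)) (T.F_le (Nat.le_succ k) (hem k)))
  have hQm : ∀ k ∈ Finset.range N, Q k ∈ T.F N := fun k hk =>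
    T.F_le (heN k hk) (he.Tr_mem _ _ _ _ (mul_mem (mul_mem (T.F_le (Nat.le_succ k) (hem k))
      (hβm k)) (T.F_le (Nat.le_succ k) (hem k))))
  have hSm : ∀ k ∈ Finset.range N, S k ∈ T.F N := fun k hk =>
    T.F_le (heN k hk) (he.Tr_mem _ _ _ _ (mul_mem (mul_mem (T.F_le (Nat.le_succ k) (hem k))
      (hγm k)) (T.F_le (Nat.le_succ k) (hem k))))
  have hb0 : ∀ k, 0 ≤ e L k * β k * e L k := fun k => proj_conj_nonneg (hep k) (hβ0 k)
  have hc0 : ∀ k, 0 ≤ e L k * γ k * e L k := fun k => proj_conj_nonneg (hep k) (hγ0 k)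
  have hbt : ∀ k, T.t (e L k * β k * e L k) ≤ T.t (β k) := fun k =>
    T.t_proj_conj_le (hep k) (hβ0 k)
  have hct : ∀ k, T.t (e L k * γ k * e L k) ≤ T.t (γ k) := fun k =>
    T.t_proj_conj_le (hep k) (hγ0 k)
  -- weak type projections
  have hex : ∀ k, ∃ p : A, k ∈ Finset.range N → (p ∈ T.F N ∧ IsStarProjection p ∧
      T.t (1 - p) ≤ 5 * (1 / R) * T.t (e L k * β k * e L k) ∧
      T.t (p * (star (Q k) * Q k) * p) ≤ 5 * (1 / R)⁻¹ * T.t (e L k * β k * e L k)) := by
    intro k
    by_cases hk : k ∈ Finset.range N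
    · obtain ⟨p, h1, h2, h3, h4⟩ := T.weakT (M := N) (he.chain L k)
        (fun j => T.F_le (by have := heN k hk; omega) (he.ch_mem L k j)) (hb0 k) (hbm k hk) hb
        (by positivity : (0 : ℝ) < 1 / R)
      exact ⟨p, fun _ => ⟨h1, h2, h3, h4⟩⟩
    · exact ⟨0, fun h => absurd h hk⟩
  have hex' : ∀ k, ∃ p : A, k ∈ Finset.range N → (p ∈ T.F N ∧ IsStarProjection p ∧
      T.t (1 - p) ≤ 5 * (1 / R) * T.t (e L k * γ k * e L k) ∧
      T.t (p * (star (S k) * S k) * p) ≤ 5 * (1 / R)⁻¹ * T.t (e L k * γ k * e L k)) := by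
    intro k
    by_cases hk : k ∈ Finset.range N
    · obtain ⟨p, h1, h2, h3, h4⟩ := T.weakT (M := N) (he.chain L k)
        (fun j => T.F_le (by have := heN k hk; omega) (he.ch_mem L k j)) (hc0 k) (hcm k hk) hb
        (by positivity : (0 : ℝ) < 1 / R)
      exact ⟨p, fun _ => ⟨h1, h2, h3, h4⟩⟩
    · exact ⟨0, fun h => absurd h hk⟩
  choose p hp using hex
  choose r hr using hex'
  obtain ⟨p0, hp0m, hp0, hp0t⟩ := T.exists_inf N (Finset.range N) p
    (fun k hk => (hp k hk).2.1) (fun k hk => (hp k hk).1)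
  obtain ⟨r0, hr0m, hr0, hr0t⟩ := T.exists_inf N (Finset.range N) r
    (fun k hk => (hr k hk).2.1) (fun k hk => (hr k hk).1)
  -- the sum `G`
  set G : A := ∑ k ∈ Finset.range N, ((3 : ℝ) • (star (P k) * P k) +
    (3 : ℝ) • (p k * (star (Q k) * Q k) * p k) +
    (3 : ℝ) • (r k * (star (S k) * S k) * r k)) with hG
  have h30 : (0 : ℝ) ≤ 3 := by norm_num
  have hG0 : 0 ≤ G := by
    refine Finset.sum_nonneg fun k hk => add_nonneg (add_nonneg ?_ ?_) ?_
    · exact smul_nonneg h30 (star_mul_self_nonneg _)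
    · exact smul_nonneg h30 (proj_conj_nonneg (hp k hk).2.1 (star_mul_self_nonneg _))
    · exact smul_nonneg h30 (proj_conj_nonneg (hr k hk).2.1 (star_mul_self_nonneg _))
  have hGm : G ∈ T.F N := by
    refine sum_mem fun k hk => add_mem (add_mem ?_ ?_) ?_
    · exact T.real_smul_mem _ (mul_mem (star_mem (hPm k hk)) (hPm k hk))
    · exact T.real_smul_mem _ (mul_mem (mul_mem (hp k hk).1 (mul_mem (star_mem (hQm k hk))
        (hQm k hk))) (hp k hk).1)
    · exact T.real_smul_mem _ (mul_mem (mul_mem (hr k hk).1 (mul_mem (star_mem (hSm k hk))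
        (hSm k hk))) (hr k hk).1)
  have hsb : ∑ k ∈ Finset.range N, (T.t (β k) + T.t (γ k)) ≤ B := by
    have h1 := TF.sum_jumps_le h.mem hs hR h hB N
    refine le_trans (le_of_eq (Finset.sum_congr rfl fun k _ => ?_)) h1
    rw [hγ]
    show T.t (β k) + T.t (-(T.jneg X R k * X (k + 1) * T.jneg X R k)) = _
    rw [map_neg]
    exact (sub_eq_add_neg _ _).symm
  have hsw : ∑ k ∈ Finset.range N, T.t (w k * w k) ≤ 3 * R * B :=
    TF.sum_w_sq_le h.mem hs hR h hB N
  have hGt : T.t G ≤ 24 * R * B := by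
    have h1 : T.t G ≤ ∑ k ∈ Finset.range N,
        (3 * T.t (w k * w k) + 15 * R * (T.t (β k) + T.t (γ k))) := by
      rw [hG, T.t_sum]
      refine Finset.sum_le_sum fun k hk => ?_
      rw [map_add, map_add, map_smul, map_smul, map_smul, smul_eq_mul, smul_eq_mul, smul_eq_mul]
      have h2 : T.t (star (P k) * P k) ≤ T.t (w k * w k) :=
        (TS.cotlar_two T.toTS (he.chain L k) hb _).trans (hs_haux T (hep k) (hws k))
      have h3 := (hp k hk).2.2.2
      rw [one_div, inv_inv] at h3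
      have h4 := mul_le_mul_of_nonneg_left (hbt k) (by positivity : 0 ≤ 5 * R)
      have h5 := (hr k hk).2.2.2
      rw [one_div, inv_inv] at h5
      have h6 := mul_le_mul_of_nonneg_left (hct k) (by positivity : 0 ≤ 5 * R)
      linarith
    rw [Finset.sum_add_distrib, ← Finset.mul_sum, ← Finset.mul_sum] at h1
    have h5 := mul_le_mul_of_nonneg_left hsb (by positivity : 0 ≤ 15 * R)
    linarith
  obtain ⟨p1, hp1m, hp1, -, hp1G, -, hp1t⟩ := T.cheb hG0 hGm (by positivity : 0 < R ^ 2)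
  obtain ⟨g', hgm', hg', hg0', hg1', -, hgt'⟩ := T.meet N p0 r0 hp0m hr0m hp0.1 hr0.1
  obtain ⟨g, hgm, hg, hg0, hg1, -, hgt⟩ := T.meet N g' p1 hgm' hp1m hg' hp1
  refine ⟨g, hgm, hg, ?_, ?_⟩
  · have hp0g : p0 * g = g := by rw [← hg0, ← mul_assoc, hg0']
    have hr0g : r0 * g = g := by rw [← hg0, ← mul_assoc, hg1']
    have hpg : ∀ k ∈ Finset.range N, p k * g = g := by
      intro k hk
      rw [← hp0g, ← mul_assoc, hp0.2.1 k hk]
    have hrg : ∀ k ∈ Finset.range N, r k * g = g := by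
      intro k hk
      rw [← hr0g, ← mul_assoc, hr0.2.1 k hk]
    have hgp : ∀ k ∈ Finset.range N, g * p k = g := fun k hk =>
      proj_mul_comm hg (hp k hk).2.1 (hpg k hk)
    have hgr : ∀ k ∈ Finset.range N, g * r k = g := fun k hk =>
      proj_mul_comm hg (hr k hk).2.1 (hrg k hk)
    have hgp1 : g * p1 = g := proj_mul_comm hg hp1 hg1
    have h1 : (∑ k ∈ Finset.range N,
        star (Tr b (ch e L k) (L + 1) (e L k * dd X k * e L k)) *
          Tr b (ch e L k) (L + 1) (e L k * dd X k * e L k)) ≤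
        ∑ k ∈ Finset.range N, ((3 : ℝ) • (star (P k) * P k) +
          (3 : ℝ) • (star (Q k) * Q k) + (3 : ℝ) • (star (S k) * S k)) := by
      refine Finset.sum_le_sum fun k _ => ?_
      rw [hTr]
      exact hs_sq3 _ _ _
    have h2 : g * (∑ k ∈ Finset.range N, ((3 : ℝ) • (star (P k) * P k) +
          (3 : ℝ) • (star (Q k) * Q k) + (3 : ℝ) • (star (S k) * S k))) * g = g * G * g := by
      rw [hG, Finset.mul_sum, Finset.mul_sum, Finset.sum_mul, Finset.sum_mul]
      refine Finset.sum_congr rfl fun k hk => ?_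
      have h3 : g * (p k * (star (Q k) * Q k) * p k) * g = g * (star (Q k) * Q k) * g := by
        calc g * (p k * (star (Q k) * Q k) * p k) * g =
            (g * p k) * (star (Q k) * Q k) * (p k * g) := by noncomm_ring
          _ = _ := by rw [hgp k hk, hpg k hk]
      have h3' : g * (r k * (star (S k) * S k) * r k) * g = g * (star (S k) * S k) * g := by
        calc g * (r k * (star (S k) * S k) * r k) * g =
            (g * r k) * (star (S k) * S k) * (r k * g) := by noncomm_ring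
          _ = _ := by rw [hgr k hk, hrg k hk]
      rw [mul_add, mul_add, mul_add, mul_add, add_mul, add_mul, add_mul, add_mul,
        mul_smul_comm, mul_smul_comm, mul_smul_comm, mul_smul_comm, mul_smul_comm,
        smul_mul_assoc, smul_mul_assoc, smul_mul_assoc, smul_mul_assoc, smul_mul_assoc, h3, h3']
    have h4 : g * G * g = g * (p1 * G * p1) * g := by
      calc g * G * g = (g * p1) * G * (p1 * g) := by rw [hgp1, hg1]
        _ = _ := by noncomm_ring
    have h5 : g * (p1 * G * p1) * g ≤ g * ((R ^ 2) • p1) * g := proj_conj_mono hg hp1G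
    have h6 : g * ((R ^ 2) • p1) * g = (R ^ 2) • g := by
      rw [mul_smul_comm, smul_mul_assoc, hgp1, hg.isIdempotentElem.eq]
    have h7 : (R ^ 2) • g ≤ (R ^ 2) • (1 : A) :=
      smul_le_smul_of_nonneg_left (sub_nonneg.1 hg.one_sub.nonneg) (by positivity)
    calc _ ≤ g * (∑ k ∈ Finset.range N, ((3 : ℝ) • (star (P k) * P k) +
          (3 : ℝ) • (star (Q k) * Q k) + (3 : ℝ) • (star (S k) * S k))) * g :=
          proj_conj_mono hg h1
      _ = g * (p1 * G * p1) * g := by rw [h2, h4]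
      _ ≤ (R ^ 2) • g := h5.trans h6.le
      _ ≤ _ := h7
  · have h1 : T.t (1 - p0) + T.t (1 - r0) ≤ 5 * (B / R) := by
      have h2 : ∑ k ∈ Finset.range N, T.t (1 - p k) ≤ ∑ k ∈ Finset.range N,
          5 / R * T.t (β k) := by
        refine Finset.sum_le_sum fun k hk => ?_
        have h3 := (hp k hk).2.2.1
        have h4 := mul_le_mul_of_nonneg_left (hbt k) (by positivity : 0 ≤ 5 / R)
        refine h3.trans (le_trans (le_of_eq ?_) h4)
        ring
      have h2' : ∑ k ∈ Finset.range N, T.t (1 - r k) ≤ ∑ k ∈ Finset.range N,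
          5 / R * T.t (γ k) := by
        refine Finset.sum_le_sum fun k hk => ?_
        have h3 := (hr k hk).2.2.1
        have h4 := mul_le_mul_of_nonneg_left (hct k) (by positivity : 0 ≤ 5 / R)
        refine h3.trans (le_trans (le_of_eq ?_) h4)
        ring
      rw [← Finset.mul_sum] at h2 h2'
      rw [Finset.sum_add_distrib] at hsb
      have h5 := mul_le_mul_of_nonneg_left hsb (by positivity : 0 ≤ 5 / R)
      have h6 : 5 * (B / R) = 5 / R * B := by ring
      rw [h6]
      linarith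
    have h2 : T.t (1 - p1) ≤ 24 * (B / R) := by
      refine hp1t.trans ?_
      rw [div_le_iff₀ (by positivity)]
      refine hGt.trans (le_of_eq ?_)
      field_simp
    have hB0 : 0 ≤ B / R := by
      have h3 : 0 ≤ T.t (1 - p0) := T.t_nonneg hp0.1.one_sub.nonneg
      have h4 : 0 ≤ T.t (1 - r0) := T.t_nonneg hr0.1.one_sub.nonneg
      linarith
    linarith

end GD64
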