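import Pool.Agent.GD64.ProcVV
import Pool.Agent.GD64.ProcFlag
import Pool.Agent.GD64.Low
import Pool.Agent.GD64.HighS

/-!
# GD64/Glue: flags which satisfy the stopping conditions only from a time `k0` on (stage 2)

`glue`: replace `e j k` for `k < k0` by another flag `g j k` with `g j k * e j (k+1) = e j (k+1)` at
`k + 1 = k0`. For `low` use for `g j k` (`1 ≤ j ≤ i`) the meet over `j' ∈ [j,i]` of `qq X (l 2^j') k` and
`zz X (l 2^j') (..) k`, `g j k = 1` for `j > i`, `0` for `j = 0`. For `highS` use `g j k = stopS X R k` for `1 ≤ j ≤ L`,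
`1` for `j > L`, `0` for `j = 0`. Then apply `low` / `highS` to the glued flags; `ch` of the glued flags at time `k ≥ k0`
is `ch e`; the terms with `k < k0` are `≥ 0` and are dropped (monotonicity of `r · r`).
-/

namespace GD64

universe u

theorem FlagSys.glue {A : Type*} [CStarAlgebra A] [PartialOrder A] [StarOrderedRing A]
    {T : TF A} {e g : ℕ → ℕ → A} (he : FlagSys T e) (hg : FlagSys T g) (k0 : ℕ)
    (h : ∀ j k, k + 1 = k0 → g j k * e j (k + 1) = e j (k + 1)) :
    FlagSys T (fun j k => if k < k0 then g j k else e j k) where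
  proj := by
    intro j k
    show IsStarProjection (if k < k0 then g j k else e j k)
    split_ifs
    · exact hg.proj j k
    · exact he.proj j k
  mem := by
    intro j k
    show (if k < k0 then g j k else e j k) ∈ T.F k
    split_ifs
    · exact hg.mem j k
    · exact he.mem j k
  dec := by
    intro j k
    show (if k < k0 then g j k else e j k) * (if k + 1 < k0 then g j (k + 1) else e j (k + 1)) =
      (if k + 1 < k0 then g j (k + 1) else e j (k + 1))
    by_cases h1 : k + 1 < k0
    · rw [if_pos (by omega), if_pos h1]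
      exact hg.dec j k
    · by_cases h2 : k < k0
      · rw [if_pos h2, if_neg h1]
        exact h j k (by omega)
      · rw [if_neg h2, if_neg h1]
        exact he.dec j k
  inc := by
    intro j k
    show (if k < k0 then g (j + 1) k else e (j + 1) k) * (if k < k0 then g j k else e j k) =
      (if k < k0 then g j k else e j k)
    split_ifs
    · exact hg.inc j k
    · exact he.inc j k
  zero := by
    intro k
    show (if k < k0 then g 0 k else e 0 k) = 0
    split_ifs
    · exact hg.zero k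
    · exact he.zero k

/-- the family of the projections for one piece. -/
noncomputable def glueFam {A : Type*} [CStarAlgebra A] [PartialOrder A] [StarOrderedRing A]
    (T : TF A) (l : ℝ) (i : ℕ) (X : ℕ → A) (k : ℕ) : ℕ ⊕ ℕ → A
  | Sum.inl j => T.qq X (l * 2 ^ j) k
  | Sum.inr j => T.zz X (l * 2 ^ j) (l * 2 ^ i * (l * 2 ^ j)) k

/-- the index set. -/
def glueIdx (i j : ℕ) : Finset (ℕ ⊕ ℕ) := (Finset.Icc j i).disjSum (Finset.Icc j i)

theorem glueIdx_mono {i j j' : ℕ} (h : j ≤ j') : glueIdx i j' ⊆ glueIdx i j := by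
  unfold glueIdx
  have hsub : Finset.Icc j' i ⊆ Finset.Icc j i := Finset.Icc_subset_Icc h le_rfl
  exact Finset.disjSum_mono hsub hsub

/-- The flags of one piece. -/
noncomputable def glueE {A : Type*} [CStarAlgebra A] [PartialOrder A] [StarOrderedRing A]
    (T : TF A) (l : ℝ) (i : ℕ) (X : ℕ → A) (j k : ℕ) : A :=
  if j = 0 then 0 else pinf (glueIdx i j) (glueFam T l i X k)

section

variable {A : Type*} [CStarAlgebra A] [PartialOrder A] [StarOrderedRing A] {T : TF A}
    {l : ℝ} (hl : 0 < l) {i : ℕ} {X : ℕ → A} (hX : Mart T X) (hX0 : ∀ k, 0 ≤ X k)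

include hl hX hX0

theorem glueFam_proj (k : ℕ) (x : ℕ ⊕ ℕ) : IsStarProjection (glueFam T l i X k x) := by
  rcases x with j | j
  · exact TF.qq_proj hX hX0 (by positivity) k
  · exact TF.zz_proj hX hX0 (by positivity) (by positivity) k

theorem glueFam_mem (k : ℕ) (x : ℕ ⊕ ℕ) : glueFam T l i X k x ∈ T.F k := by
  rcases x with j | j
  · exact TF.qq_mem hX hX0 (by positivity) k
  · exact TF.zz_mem hX hX0 (by positivity) (by positivity) k

theorem glueFam_dec (k : ℕ) (x : ℕ ⊕ ℕ) :
    glueFam T l i X k x * glueFam T l i X (k + 1) x = glueFam T l i X (k + 1) x := by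
  rcases x with j | j
  · exact TF.qq_dec hX hX0 (by positivity) k
  · exact TF.zz_dec hX hX0 (by positivity) (by positivity) k

theorem glueE_isInf {j : ℕ} (hj : 1 ≤ j) (k : ℕ) :
    IsInf (glueIdx i j) (glueFam T l i X k) (glueE T l i X j k) := by
  unfold glueE
  rw [if_neg (by omega)]
  exact T.pinf_isInf k _ _ (fun x _ => glueFam_proj hl hX hX0 k x)
    (fun x _ => glueFam_mem hl hX hX0 k x)

theorem glueE_sys : FlagSys T (glueE T l i X) where
  proj := by
    intro j k
    rcases Nat.eq_zero_or_pos j with rfl | hj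
    · simp only [glueE, if_true]
      exact IsStarProjection.zero A
    · exact (glueE_isInf hl hX hX0 hj k).1
  mem := by
    intro j k
    rcases Nat.eq_zero_or_pos j with rfl | hj
    · simp only [glueE, if_true]
      exact zero_mem _
    · unfold glueE
      rw [if_neg (by omega)]
      exact T.pinf_mem k _ _ (fun x _ => glueFam_proj hl hX hX0 k x)
        (fun x _ => glueFam_mem hl hX hX0 k x)
  dec := by
    intro j k
    rcases Nat.eq_zero_or_pos j with rfl | hj
    · simp [glueE]
    · have h1 := glueE_isInf (i := i) hl hX hX0 hj k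
      have h2 := glueE_isInf (i := i) hl hX hX0 hj (k + 1)
      refine h1.2.2 _ h2.1 fun x hx => ?_
      have h3 := h2.2.1 x hx
      rw [← h3, ← mul_assoc, glueFam_dec hl hX hX0 k x]
  inc := by
    intro j k
    rcases Nat.eq_zero_or_pos j with rfl | hj
    · simp [glueE]
    · have h1 := glueE_isInf (i := i) hl hX hX0 hj k
      have h2 := glueE_isInf (i := i) hl hX hX0 (Nat.succ_le_succ (Nat.zero_le j)) k
      refine h2.2.2 _ h1.1 fun x hx => ?_
      exact h1.2.1 x (glueIdx_mono (Nat.le_succ j) hx)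
  zero := by
    intro k
    simp [glueE]

end

/-- Dropping nonnegative terms. -/
theorem conj_sum_Ico_le {A : Type*} [CStarAlgebra A] [PartialOrder A] [StarOrderedRing A]
    {r c : A} (hr : IsStarProjection r) {k0 N : ℕ} {f g : ℕ → A} (hf : ∀ k, 0 ≤ f k)
    (hfg : ∀ k, k0 ≤ k → f k = g k)
    (h : r * (∑ k ∈ Finset.range N, f k) * r ≤ c) :
    r * (∑ k ∈ Finset.Ico k0 N, g k) * r ≤ c := by
  refine le_trans ?_ h
  apply proj_conj_mono hr
  have e : ∑ k ∈ Finset.Ico k0 N, g k = ∑ k ∈ Finset.Ico k0 N, f k :=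
    Finset.sum_congr rfl fun k hk => (hfg k (Finset.mem_Ico.mp hk).1).symm
  rw [e]
  apply Finset.sum_le_sum_of_subset_of_nonneg
  · intro k hk
    exact Finset.mem_range.mpr (Finset.mem_Ico.mp hk).2
  · intro k _ _
    exact hf k

theorem lowG (m : ℕ) : ∃ C : ℝ, 0 < C ∧
    ∀ (A : Type u) [CStarAlgebra A] [PartialOrder A] [StarOrderedRing A]
      (T : TF A) (e : ℕ → ℕ → A) (_ : FlagSys T e) (l : ℝ) (_ : 0 < l) (i k0 : ℕ)
      (X : ℕ → A) (_ : Mart T X) (_ : ∀ k, 0 ≤ X k) (_ : ∀ k, X k ≤ (l * 2 ^ i) • (1 : A))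
      (_ : ∀ j, 1 ≤ j → j ≤ i → ∀ k, k0 ≤ k → T.qq X (l * 2 ^ j) k * e j k = e j k)
      (_ : ∀ j, 1 ≤ j → j ≤ i → ∀ k, k0 ≤ k →
        T.zz X (l * 2 ^ j) (l * 2 ^ i * (l * 2 ^ j)) k * e j k = e j k)
      (D : ℝ) (_ : T.t (X 0) ≤ l * 2 ^ i * D) (b : ℕ) (_ : b ≤ 1) (N : ℕ) (R : ℝ) (_ : 0 < R),
      ∃ r ∈ T.F N, IsStarProjection r ∧
        r * (∑ k ∈ Finset.Ico k0 N, star (Tr b (ch e i k) (i + 1) (dd X k)) *
            Tr b (ch e i k) (i + 1) (dd X k)) * r ≤ R • (1 : A) ∧
        T.t (1 - r) ≤ C * ((l * 2 ^ i) ^ 2 / R) ^ (2 ^ (m + 1)) * D := by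
  obtain ⟨C, hC, H⟩ := low.{u} m
  refine ⟨C, hC, ?_⟩
  intro A _ _ _ T e he l hl i k0 X hX hX0 hX1 hq hz D hD b hb N R hR
  have hgl : ∀ j k, k + 1 = k0 → glueE T l i X j k * e j (k + 1) = e j (k + 1) := by
    intro j k hk
    rcases Nat.eq_zero_or_pos j with rfl | hj
    · rw [he.zero, mul_zero]
    · refine (glueE_isInf hl hX hX0 hj k).2.2 _ (he.proj j (k + 1)) fun x hx => ?_
      have key : ∀ j', j ≤ j' → j' ≤ i → ∀ p p' : A, p * p' = p' →
          p' * e j' (k + 1) = e j' (k + 1) → p * e j (k + 1) = e j (k + 1) := by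
        intro j' h1 _ p p' hp hp'
        have e1 : p' * e j (k + 1) = e j (k + 1) := by
          rw [← he.inc_le (k + 1) h1, ← mul_assoc, hp']
        rw [← e1, ← mul_assoc, hp]
      unfold glueIdx at hx
      rcases x with j' | j'
      · rw [Finset.inl_mem_disjSum, Finset.mem_Icc] at hx
        exact key j' hx.1 hx.2 _ _ (glueFam_dec (i := i) hl hX hX0 k (Sum.inl j'))
          (hq j' (Nat.le_trans hj hx.1) hx.2 (k + 1) (by omega))
      · rw [Finset.inr_mem_disjSum, Finset.mem_Icc] at hx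
        exact key j' hx.1 hx.2 _ _ (glueFam_dec (i := i) hl hX hX0 k (Sum.inr j'))
          (hz j' (Nat.le_trans hj hx.1) hx.2 (k + 1) (by omega))
  have hsys := he.glue (glueE_sys (i := i) hl hX hX0) k0 hgl
  have hq' : ∀ j, 1 ≤ j → j ≤ i → ∀ k, T.qq X (l * 2 ^ j) k *
      (if k < k0 then glueE T l i X j k else e j k) =
      (if k < k0 then glueE T l i X j k else e j k) := by
    intro j hj hji k
    split_ifs with hk
    · refine (glueE_isInf (i := i) hl hX hX0 hj k).2.1 (Sum.inl j) ?_
      unfold glueIdx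
      rw [Finset.inl_mem_disjSum, Finset.mem_Icc]
      exact ⟨le_rfl, hji⟩
    · exact hq j hj hji k (by omega)
  have hz' : ∀ j, 1 ≤ j → j ≤ i → ∀ k, T.zz X (l * 2 ^ j) (l * 2 ^ i * (l * 2 ^ j)) k *
      (if k < k0 then glueE T l i X j k else e j k) =
      (if k < k0 then glueE T l i X j k else e j k) := by
    intro j hj hji k
    split_ifs with hk
    · refine (glueE_isInf (i := i) hl hX hX0 hj k).2.1 (Sum.inr j) ?_
      unfold glueIdx
      rw [Finset.inr_mem_disjSum, Finset.mem_Icc]
      exact ⟨le_rfl, hji⟩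
    · exact hz j hj hji k (by omega)
  obtain ⟨r, hrF, hrp, hr1, hr2⟩ := H A T _ hsys l hl i X hX hX0 hX1 hq' hz' D hD b hb N R hR
  refine ⟨r, hrF, hrp, ?_, hr2⟩
  refine conj_sum_Ico_le hrp (fun k => star_mul_self_nonneg _) ?_ hr1
  intro k hk
  have hch : ch (fun j k => if k < k0 then glueE T l i X j k else e j k) i k = ch e i k := by
    funext j
    unfold ch
    beta_reduce
    rw [if_neg (by omega : ¬ k < k0)]
  rw [hch]

theorem TF.highG {A : Type*} [CStarAlgebra A] [PartialOrder A] [StarOrderedRing A] (T : TF A)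
    {e : ℕ → ℕ → A} (he : FlagSys T e) {L : ℕ} (hL : 1 ≤ L) (k0 : ℕ) {R : ℝ} (hR : 0 < R)
    {X : ℕ → A} (h : Mart T X) (hs : ∀ k, IsSelfAdjoint (X k)) {B : ℝ} (hB : T.L1B X B)
    (hq : ∀ k, k0 ≤ k → T.stopS X R k * e L k = e L k) {b : ℕ} (hb : b ≤ 1) (N : ℕ) :
    ∃ p ∈ T.F N, IsStarProjection p ∧
      p * (∑ k ∈ Finset.Ico k0 N,
        star (Tr b (ch e L k) (L + 1) (e L k * dd X k * e L k)) *
          Tr b (ch e L k) (L + 1) (e L k * dd X k * e L k)) * p ≤ (R ^ 2) • (1 : A) ∧
      T.t (1 - p) ≤ 30 * (B / R) := by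
  have hp := TF.stopS_proj h.mem hs hR
  have hm := TF.stopS_mem h.mem hs hR
  have hd := TF.stopS_dec h.mem hs hR
  set g : ℕ → ℕ → A := fun j k => if j = 0 then 0 else if j ≤ L then T.stopS X R k else 1
    with hg
  have hgsys : FlagSys T g := by
    refine ⟨?_, ?_, ?_, ?_, ?_⟩
    · intro j k
      simp only [hg]
      split_ifs
      · exact IsStarProjection.zero A
      · exact hp k
      · exact IsStarProjection.one A
    · intro j k
      simp only [hg]
      split_ifs
      · exact zero_mem _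
      · exact hm k
      · exact one_mem _
    · intro j k
      simp only [hg]
      split_ifs
      · rw [mul_zero]
      · exact hd k
      · rw [mul_one]
    · intro j k
      simp only [hg]
      by_cases h1 : j = 0
      · rw [if_pos h1, mul_zero]
      · rw [if_neg h1, if_neg (by omega : ¬ j + 1 = 0)]
        by_cases h2 : j + 1 ≤ L
        · rw [if_pos h2, if_pos (by omega : j ≤ L)]
          exact (hp k).isIdempotentElem.eq
        · rw [if_neg h2, one_mul]
    · intro k
      simp [hg]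
  have hgl : ∀ j k, k + 1 = k0 → g j k * e j (k + 1) = e j (k + 1) := by
    intro j k hk
    simp only [hg]
    split_ifs with h1 h2
    · rw [h1, he.zero, mul_zero]
    · have e1 : T.stopS X R (k + 1) * e j (k + 1) = e j (k + 1) := by
        rw [← he.inc_le (k + 1) h2, ← mul_assoc, hq (k + 1) (by omega)]
      rw [← e1, ← mul_assoc, hd k]
    · rw [one_mul]
  have hsys := he.glue hgsys k0 hgl
  have hq' : ∀ k, T.stopS X R k * (if k < k0 then g L k else e L k) =
      (if k < k0 then g L k else e L k) := by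
    intro k
    split_ifs with hk
    · simp only [hg]
      rw [if_neg (by omega : ¬ L = 0), if_pos le_rfl]
      exact (hp k).isIdempotentElem.eq
    · exact hq k (by omega)
  obtain ⟨p, hpF, hpp, hp1, hp2⟩ := T.highS hsys hR h hs hB hq' hb N
  refine ⟨p, hpF, hpp, ?_, hp2⟩
  refine conj_sum_Ico_le hpp (fun k => star_mul_self_nonneg _) ?_ hp1
  intro k hk
  have hch : ch (fun j k => if k < k0 then g j k else e j k) L k = ch e L k := by
    funext j
    unfold ch
    beta_reduce
    rw [if_neg (by omega : ¬ k < k0)]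
  rw [hch, if_neg (by omega : ¬ k < k0)]

end GD64
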