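import Pool.Agent.GD64.StopS
import Pool.Agent.GD64.ProcFlag

/-!
# GD64/RemT: truncation of a single remainder term (stage 2)

`d ∈ F (k+1)` self-adjoint, `-4Λ ≤ d ≤ 4Λ`, `t(c d) ≤ 2 Λ D` for self-adjoint contractions `c ∈ F (k+1)`,
`s = 2^(m+1)`, `h = |Tr d|²`. `c = 2f-1`, `f` the cut of `d` at `0`: `c d = |d| ≥ 0`, `d^(2s) ≤ (4Λ)^(2s-1) c d`, so
`t(d^(2s)) ≤ (4Λ)^(2s-1) 2 Λ D`; `TS.cotlar` for `m+1`: `t(h^s) = L (m+1) (Tr d) ≤ C t(d^(2s))`. Cut `h` at `R`: `f_R`,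
`R^s t(f_R) ≤ t(h^s)`, `r = 1 - f_R`.
-/

namespace GD64

universe u

namespace RemT

variable {A : Type*} [CStarAlgebra A] [PartialOrder A] [StarOrderedRing A]

theorem real_smul_nonneg {c : ℝ} (hc : 0 ≤ c) {a : A} (ha : 0 ≤ a) : 0 ≤ c • a := by
  have h := smul_le_smul_of_nonneg_left ha hc
  rwa [smul_zero] at h

theorem pow_nonneg' {h : A} (hh : 0 ≤ h) (n : ℕ) : 0 ≤ h ^ n := by
  induction n with
  | zero => rw [pow_zero]; exact zero_le_one
  | succ n ih =>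
    rw [pow_succ]
    exact commute_mul_nonneg ih hh ((Commute.refl h).pow_left n)

/-- powers of a cut. -/
theorem pow_cut {h f : A} (hh : 0 ≤ h) (hf : IsStarProjection f) (hcom : Commute h f) {R : ℝ}
    (hR : 0 ≤ R) (h1 : R • f ≤ f * h * f) (n : ℕ) : R ^ n • f ≤ h ^ n * f := by
  have hff : f * f = f := hf.isIdempotentElem.eq
  have e1 : f * h * f = h * f := by
    rw [← hcom.eq, mul_assoc, hff]
  rw [e1] at h1
  induction n with
  | zero => simp
  | succ n ih =>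
    rw [← sub_nonneg] at ih h1 ⊢
    have e2 : h ^ (n + 1) * f - R ^ (n + 1) • f =
        h ^ n * (h * f - R • f) + R • (h ^ n * f - R ^ n • f) := by
      rw [mul_sub, ← mul_assoc, ← pow_succ, mul_smul_comm, smul_sub, smul_smul, ← pow_succ']
      abel
    rw [e2]
    have hp : 0 ≤ h ^ n := pow_nonneg' hh n
    have hc1 : Commute (h ^ n) (h * f - R • f) := by
      have a1 : Commute (h ^ n) (h * f) :=
        ((Commute.refl h).mul_right hcom).pow_left n
      have a2 : Commute (h ^ n) (R • f) := (hcom.pow_left n).smul_right R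
      exact a1.sub_right a2
    exact add_nonneg (commute_mul_nonneg hp h1 hc1) (real_smul_nonneg hR ih)

/-- moments of `d`. -/
theorem moment_le (T : TF A) {k : ℕ} {Λ : ℝ} (hΛ : 0 < Λ) {d : A} (hd : d ∈ T.F (k + 1))
    (hsa : IsSelfAdjoint d) (h1 : d ≤ (4 * Λ) • (1 : A)) (h2 : -((4 * Λ) • (1 : A)) ≤ d) {D : ℝ}
    (hD : ∀ c ∈ T.F (k + 1), IsSelfAdjoint c → -(1 : A) ≤ c → c ≤ 1 →
        T.t (c * d) ≤ 2 * Λ * D) (n : ℕ) :
    T.t ((star d * d) ^ (n + 1)) ≤ (4 * Λ) ^ (2 * n + 1) * (2 * Λ * D) := by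
  obtain ⟨f, hfm, hf, hfc, hf1, hf2⟩ := T.cut (k + 1) d hd hsa 0
  rw [zero_smul] at hf1 hf2
  have hcom : Commute d f := hfc d (Commute.refl d)
  have hff : f * f = f := hf.isIdempotentElem.eq
  have hg : IsStarProjection (1 - f) := hf.one_sub
  have hgg : (1 - f) * (1 - f) = 1 - f := hg.isIdempotentElem.eq
  have hcomg : Commute d (1 - f) := (Commute.one_right d).sub_right hcom
  have e1 : f * d * f = f * d := by
    rw [mul_assoc, hcom.eq, ← mul_assoc, hff]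
  have e2 : (1 - f) * d * (1 - f) = (1 - f) * d := by
    rw [mul_assoc, hcomg.eq, ← mul_assoc, hgg]
  set a : A := (f - (1 - f)) * d with ha
  have ea : a = f * d * f - (1 - f) * d * (1 - f) := by
    rw [e1, e2, ha, sub_mul]
  have ha0 : 0 ≤ a := by
    rw [ea]
    exact sub_nonneg.mpr (hf2.trans hf1)
  have haC : a ≤ (4 * Λ) • (1 : A) := by
    have b1 : f * d * f ≤ (4 * Λ) • f := by
      have := proj_conj_mono hf h1
      rwa [mul_smul_comm, mul_one, smul_mul_assoc, hff] at this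
    have b2 : -((4 * Λ) • (1 - f)) ≤ (1 - f) * d * (1 - f) := by
      have := proj_conj_mono hg h2
      rwa [mul_neg, mul_smul_comm, mul_one, neg_mul, smul_mul_assoc, hgg] at this
    rw [ea]
    have b3 : -((1 - f) * d * (1 - f)) ≤ (4 * Λ) • (1 - f) := neg_le.mp b2
    have b4 := add_le_add b1 b3
    rw [← sub_eq_add_neg, ← smul_add, add_sub_cancel] at b4
    exact b4
  have hcc : (f - (1 - f)) * (f - (1 - f)) = 1 := by
    have q1 : f * (1 - f) = 0 := by rw [mul_sub, mul_one, hff, sub_self]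
    have q2 : (1 - f) * f = 0 := by rw [sub_mul, one_mul, hff, sub_self]
    rw [sub_mul, mul_sub f f (1 - f), mul_sub (1 - f) f (1 - f), hff, hgg, q1, q2]
    abel
  have hcomc : Commute d (f - (1 - f)) := hcom.sub_right hcomg
  have haa : a * a = star d * d := by
    rw [hsa.star_eq, ha]
    calc (f - (1 - f)) * d * ((f - (1 - f)) * d)
        = (f - (1 - f)) * (d * (f - (1 - f))) * d := by simp only [mul_assoc]
      _ = (f - (1 - f)) * ((f - (1 - f)) * d) * d := by rw [hcomc.eq]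
      _ = ((f - (1 - f)) * (f - (1 - f))) * (d * d) := by simp only [mul_assoc]
      _ = d * d := by rw [hcc, one_mul]
  have hpow : (star d * d) ^ (n + 1) = a ^ (2 * n + 1 + 1) := by
    rw [← haa, ← pow_two, ← pow_mul]
    congr 1
  rw [hpow]
  have h3 : a ^ (2 * n + 1 + 1) ≤ (4 * Λ) ^ (2 * n + 1) • a :=
    pow_succ_le_smul ha0 (by positivity) haC _
  have h4 : T.t (a ^ (2 * n + 1 + 1)) ≤ (4 * Λ) ^ (2 * n + 1) * T.t a := by
    have := T.t_mono h3
    rwa [map_smul, smul_eq_mul] at this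
  have h5 : T.t a ≤ 2 * Λ * D := by
    rw [ha]
    refine hD _ (sub_mem hfm (sub_mem (one_mem _) hfm)) (hf.isSelfAdjoint.sub hg.isSelfAdjoint) ?_ ?_
    · have : (0 : A) ≤ 2 • f := by
        rw [two_nsmul]; exact add_nonneg hf.nonneg hf.nonneg
      rw [← sub_nonneg]
      have e : f - (1 - f) - -1 = 2 • f := by rw [two_nsmul]; abel
      rwa [e]
    · have : (0 : A) ≤ 2 • (1 - f) := by
        rw [two_nsmul]; exact add_nonneg hg.nonneg hg.nonneg
      rw [← sub_nonneg]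
      have e : 1 - (f - (1 - f)) = 2 • (1 - f) := by rw [two_nsmul]; abel
      rwa [e]
  exact h4.trans (mul_le_mul_of_nonneg_left h5 (by positivity))

end RemT

theorem remT (m : ℕ) : ∃ C : ℝ, 0 < C ∧
    ∀ (A : Type u) [CStarAlgebra A] [PartialOrder A] [StarOrderedRing A]
      (T : TF A) (e : ℕ → ℕ → A) (_ : FlagSys T e) (Λ : ℝ) (_ : 0 < Λ) (I k : ℕ)
      (d : A) (_ : d ∈ T.F (k + 1)) (_ : IsSelfAdjoint d) (_ : d ≤ (4 * Λ) • (1 : A))
      (_ : -((4 * Λ) • (1 : A)) ≤ d) (D : ℝ)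
      (_ : ∀ c ∈ T.F (k + 1), IsSelfAdjoint c → -(1 : A) ≤ c → c ≤ 1 →
        T.t (c * d) ≤ 2 * Λ * D) (b : ℕ) (_ : b ≤ 1) (R : ℝ) (_ : 0 < R),
      ∃ r ∈ T.F (k + 1), IsStarProjection r ∧
        r * (star (Tr b (ch e I k) (I + 1) d) * Tr b (ch e I k) (I + 1) d) * r ≤
          R • (1 : A) ∧
        T.t (1 - r) ≤ C * (Λ ^ 2 / R) ^ (2 ^ (m + 1)) * D := by
  obtain ⟨n, hn⟩ : ∃ n : ℕ, 2 ^ (m + 1) = n + 1 := ⟨2 ^ (m + 1) - 1, by
    have : 0 < 2 ^ (m + 1) := by positivity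
    omega⟩
  refine ⟨((2 : ℝ) ^ (m + 4)) ^ (2 ^ (m + 2)) * (4 ^ (2 * n + 1) * 2), by positivity, ?_⟩
  intro A _ _ _ T e he Λ hΛ I k d hd hsa h1 h2 D hD b hb R hR
  have hmom := RemT.moment_le T hΛ hd hsa h1 h2 hD n
  set X : A := Tr b (ch e I k) (I + 1) d with hX
  have hXm : X ∈ T.F (k + 1) := he.Tr_mem b I k (I + 1) hd
  have hhm : star X * X ∈ T.F (k + 1) := mul_mem (star_mem hXm) hXm
  have hh0 : 0 ≤ star X * X := star_mul_self_nonneg X
  obtain ⟨f, hfm, hf, hfc, hf1, hf2⟩ := T.cut (k + 1) (star X * X) hhm (IsSelfAdjoint.of_nonneg hh0) R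
  have hg : IsStarProjection (1 - f) := hf.one_sub
  have hff : f * f = f := hf.isIdempotentElem.eq
  refine ⟨1 - f, sub_mem (one_mem _) hfm, hg, ?_, ?_⟩
  · refine hf2.trans ?_
    have : 1 - f ≤ (1 : A) := by
      rw [sub_le_self_iff]; exact hf.nonneg
    exact smul_le_smul_of_nonneg_left this hR.le
  · rw [sub_sub_cancel]
    have hcomf : Commute (star X * X) f := hfc _ (Commute.refl _)
    have hp := RemT.pow_cut hh0 hf hcomf hR.le hf1 (2 ^ (m + 1))
    have hp1 : R ^ (2 ^ (m + 1)) * T.t f ≤ T.t ((star X * X) ^ (2 ^ (m + 1)) * f) := by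
      have := T.t_mono hp
      rwa [map_smul, smul_eq_mul] at this
    have hp2 : T.t ((star X * X) ^ (2 ^ (m + 1)) * f) ≤ T.t ((star X * X) ^ (2 ^ (m + 1))) := by
      have hc2 : Commute ((star X * X) ^ (2 ^ (m + 1))) (1 - f) :=
        ((Commute.one_right _).sub_right (hcomf.pow_left _))
      have := T.t_nonneg (commute_mul_nonneg (RemT.pow_nonneg' hh0 (2 ^ (m + 1))) hg.nonneg hc2)
      rw [mul_sub, mul_one, map_sub] at this
      linarith
    have hcot := T.toTS.cotlar (he.chain I k) hb (m + 1) d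
    rw [← hX] at hcot
    have hN0 := T.toTS.N_nonneg (m + 1) X
    have hcot2 : T.toTS.L (m + 1) X ≤ ((2 : ℝ) ^ (m + 4)) ^ (2 ^ (m + 2)) * T.toTS.L (m + 1) d := by
      rw [← T.toTS.N_pow (m + 1) X, ← T.toTS.N_pow (m + 1) d, ← mul_pow]
      exact pow_le_pow_left₀ hN0 hcot _
    have hLX : T.toTS.L (m + 1) X = T.t ((star X * X) ^ (2 ^ (m + 1))) := rfl
    have hLd : T.toTS.L (m + 1) d = T.t ((star d * d) ^ (2 ^ (m + 1))) := rfl
    rw [hLX, hLd] at hcot2
    have hRp : 0 < R ^ (2 ^ (m + 1)) := by positivity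
    have hfin : R ^ (2 ^ (m + 1)) * T.t f ≤ ((2 : ℝ) ^ (m + 4)) ^ (2 ^ (m + 2)) *
        ((4 * Λ) ^ (2 * n + 1) * (2 * Λ * D)) := by
      refine (hp1.trans hp2).trans (hcot2.trans ?_)
      refine mul_le_mul_of_nonneg_left ?_ (by positivity)
      rw [hn]
      exact hmom
    have hfin2 : T.t f ≤ (((2 : ℝ) ^ (m + 4)) ^ (2 ^ (m + 2)) *
        ((4 * Λ) ^ (2 * n + 1) * (2 * Λ * D))) / R ^ (2 ^ (m + 1)) := by
      rw [le_div_iff₀ hRp, mul_comm]
      exact hfin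
    refine hfin2.trans (le_of_eq ?_)
    have e3 : (Λ ^ 2) ^ (2 ^ (m + 1)) = Λ ^ (2 * n + 1) * Λ := by
      rw [hn, ← pow_mul, ← pow_succ]
      congr 1
    rw [div_pow, e3, mul_pow]
    ring

end GD64
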