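import Pool.Agent.GD64.FlagsS
import Pool.Agent.GD64.Glue
import Pool.Agent.GD64.RemT
import Pool.Agent.GD64.CoreCol

/-!
# GD64/CoreS: column bound with a time dependent number of levels (stage 2)

`λ_j = l 2^j`. At time `k` (difference `k → k+1`) the pieces `i ≤ I k` and the remainder
`Rm (I k) = x - ∑_{i ≤ I k} (X i - Y i)`:
`Z_k = ∑_{0<i≤I k} Tr b (ch e i k) (i+1) (dd (X i) k - dd (Y i) k) + Tr b (ch e (I k) k) (I k + 1) (dd (Rm (I k)) k)`.

Level `L ≥ 1`, `p ≤ e_{L,N}`, `k_L` = first time with `L ≤ I k` (`I` strictly increasing).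
* `k ≥ k_L` (`L ≤ I k`): by `FlagSys.Tr_mul` (`L ≤ i ≤ I k`, also for `i = I k`) and linearity
  `Z_k e_L = Tr b (ch e L k) (L+1) (e_L dd(Rm L) e_L) + ∑_{i ≤ L} Tr b (ch e i k) (i+1) (dd X_i - dd Y_i) e_L`
  (the terms `L < i ≤ I k` and the remainder add up to `dd (Rm L) k`).
* `k < k_L`: `Z_k = ∑_{i ≤ I k} Tr(dd X_i - dd Y_i) + Tr b (ch e (I k) k) (I k+1) (dd (Rm (I k)) k)`.
`weighted_sq_le` with weights `1/4` (high part or single remainder), and `(1/8)(2/3)^(L-i)` for each of the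
`X_i`, `Y_i`, `1 ≤ i ≤ L` (total `1/4 + 2·(1/8)·3 = 1`). Column bounds:
* high: `highG` with `R = λ_L`, `k0 = k_L`, `B = λ_L D_L`: `t(1-p) ≤ 30 D_L`;
* low: `lowG` with `k0 = k_i`, `R_i = λ_L² w_i²`: `t(1-r_i) ≤ C (64 (9/16)^(L-i))^s K D_i`, as in `coreCol`;
* remainders, `k < k_L`, `I k < L`: `remT` with `Λ = λ_{I k}`, `R = λ_L² w²`, `w = (2/3)^(L - I k)` (distinct `I k`, so
  the sum of the `R` is `≤ 3 λ_L²`), `t(1-r_k) ≤ C ((9/16)^(L - I k))^s D_{I k} ≤ C 2^{-(L - I k)} D_L`.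
  Hypotheses of `remT`: `dd (Rm (I k)) k` is between `± 4 λ_{I k}` and
  `t(c dd(Rm)) = t(c Rm(k+1)) - t(E_k(c) Rm(k)) ≤ 2 λ D` (apply `L1B` to `c` and to `-E_k c`).
* `t(1-e_{L,N}) ≤ ∑_{j≥L} (D_j + 4·K D_j/2·2..) ≤ C K D_L`.
-/

namespace GD64

universe u

section auxS

variable {A : Type*} [CStarAlgebra A] [PartialOrder A] [StarOrderedRing A]

theorem cS_kk {I : ℕ → ℕ} (hI : StrictMono I) : ∃ kk : ℕ → ℕ, ∀ i k, kk i ≤ k ↔ i ≤ I k := by
  classical
  have hex : ∀ i, ∃ k, i ≤ I k := fun i => ⟨i, hI.le_apply⟩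
  refine ⟨fun i => Nat.find (hex i), fun i k => ⟨fun h => ?_, fun h => Nat.find_min' (hex i) h⟩⟩
  exact (Nat.find_spec (hex i)).trans (hI.monotone h)

theorem cS_sum_if {I kk : ℕ → ℕ} (hkk : ∀ i k, kk i ≤ k ↔ i ≤ I k) (i N : ℕ) (f : ℕ → A) :
    ∑ k ∈ Finset.range N, star (if i ≤ I k then f k else 0) * (if i ≤ I k then f k else 0) =
      ∑ k ∈ Finset.Ico (kk i) N, star (f k) * f k := by
  have h1 : ∀ k ∈ Finset.range N,
      star (if i ≤ I k then f k else 0) * (if i ≤ I k then f k else 0) =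
        if kk i ≤ k then star (f k) * f k else 0 := by
    intro k _
    by_cases h : i ≤ I k
    · rw [if_pos h, if_pos ((hkk i k).mpr h)]
    · rw [if_neg h, if_neg (fun h' => h ((hkk i k).mp h')), mul_zero]
  rw [Finset.sum_congr rfl h1, ← Finset.sum_filter]
  refine Finset.sum_congr ?_ fun _ _ => rfl
  ext k
  simp only [Finset.mem_filter, Finset.mem_range, Finset.mem_Ico]
  exact and_comm

theorem cS_geom {r : ℝ} (hr : 0 ≤ r) (hr1 : r < 1) {I : ℕ → ℕ} (hI : StrictMono I) (L N : ℕ) :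
    ∑ k ∈ (Finset.range N).filter (fun k => I k < L), r ^ (L - I k) ≤ 1 / (1 - r) := by
  classical
  have h1 : ∑ k ∈ (Finset.range N).filter (fun k => I k < L), r ^ (L - I k) =
      ∑ i ∈ ((Finset.range N).filter (fun k => I k < L)).image I, r ^ (L - i) := by
    rw [Finset.sum_image]
    intro x _ y _ hxy
    exact hI.injective hxy
  rw [h1]
  have h2 : ((Finset.range N).filter (fun k => I k < L)).image I ⊆ Finset.range L := by
    intro i hi
    rw [Finset.mem_image] at hi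
    obtain ⟨k, hk, rfl⟩ := hi
    exact Finset.mem_range.mpr (Finset.mem_filter.mp hk).2
  refine (Finset.sum_le_sum_of_subset_of_nonneg h2 fun i _ _ => pow_nonneg hr _).trans ?_
  have h3 : ∑ i ∈ Finset.range L, r ^ (L - i) ≤ ∑ n ∈ Finset.range (L + 1), r ^ n := by
    rw [← Finset.sum_range_reflect (fun n => r ^ n) (L + 1)]
    rw [Finset.sum_range_succ]
    have : ∑ i ∈ Finset.range L, r ^ (L - i) =
        ∑ i ∈ Finset.range L, r ^ (L + 1 - 1 - i) := by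
      refine Finset.sum_congr rfl fun i _ => ?_
      congr 1
    rw [this]
    have h0 : 0 ≤ r ^ (L + 1 - 1 - L) := pow_nonneg hr _
    linarith
  refine h3.trans ?_
  have h4 := geom_sum_mul_neg r (L + 1)
  have h5 : 0 < 1 - r := by linarith
  rw [le_div_iff₀ h5, h4]
  have := pow_nonneg hr (L + 1)
  linarith

/-- On the range of `e_L` the pieces above `L` and the remainder are merged. -/
theorem cS_Z_mul {T : TF A} {e : ℕ → ℕ → A} (he : FlagSys T e) {b : ℕ} (hb : b ≤ 1) {L J : ℕ}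
    (hLJ : L ≤ J) (X Y Rm : ℕ → ℕ → A) (k : ℕ) {p : A} (hp : e L k * p = p)
    (hR : ∀ k, Rm L k = Rm J k + ∑ i ∈ Finset.Ioc L J, (X i k - Y i k)) :
    (∑ i ∈ Finset.Ioc 0 J, Tr b (ch e i k) (i + 1) (dd (X i) k - dd (Y i) k) +
      Tr b (ch e J k) (J + 1) (dd (Rm J) k)) * p =
      (Tr b (ch e L k) (L + 1) (e L k * dd (Rm L) k * e L k) +
        ∑ i ∈ Finset.Ioc 0 L, Tr b (ch e i k) (i + 1) (dd (X i) k - dd (Y i) k)) * p := by
  have hsplit : Finset.Ioc 0 J = Finset.Ioc L J ∪ Finset.Ioc 0 L := by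
    ext i
    simp only [Finset.mem_Ioc, Finset.mem_union]
    omega
  have hdis : Disjoint (Finset.Ioc L J) (Finset.Ioc 0 L) := by
    rw [Finset.disjoint_left]
    intro i
    simp only [Finset.mem_Ioc]
    omega
  have hdd : dd (Rm L) k = dd (Rm J) k + ∑ i ∈ Finset.Ioc L J, (dd (X i) k - dd (Y i) k) := by
    have h1 : ∑ i ∈ Finset.Ioc L J, (dd (X i) k - dd (Y i) k) =
        ∑ i ∈ Finset.Ioc L J, (X i (k + 1) - Y i (k + 1)) -
          ∑ i ∈ Finset.Ioc L J, (X i k - Y i k) := by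
      rw [← Finset.sum_sub_distrib]
      refine Finset.sum_congr rfl fun i _ => ?_
      unfold dd
      abel
    rw [h1]
    unfold dd
    rw [hR (k + 1), hR k]
    abel
  have e1 : e L k * dd (Rm L) k * e L k = e L k * dd (Rm J) k * e L k +
      ∑ i ∈ Finset.Ioc L J, e L k * (dd (X i) k - dd (Y i) k) * e L k := by
    rw [hdd, mul_add, add_mul, Finset.mul_sum, Finset.sum_mul]
  rw [hsplit, Finset.sum_union hdis, e1, Tr_add, cc_Tr_sum]
  have e2 : (∑ i ∈ Finset.Ioc L J, Tr b (ch e i k) (i + 1) (dd (X i) k - dd (Y i) k)) * p =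
      (∑ i ∈ Finset.Ioc L J,
        Tr b (ch e L k) (L + 1) (e L k * (dd (X i) k - dd (Y i) k) * e L k)) * p := by
    rw [Finset.sum_mul, Finset.sum_mul]
    refine Finset.sum_congr rfl fun i hi => ?_
    have hLi : L ≤ i := (Finset.mem_Ioc.mp hi).1.le
    rw [← he.Tr_mul hb hLi k (dd (X i) k - dd (Y i) k), mul_assoc _ (e L k) p, hp]
  have e3 : Tr b (ch e J k) (J + 1) (dd (Rm J) k) * p =
      Tr b (ch e L k) (L + 1) (e L k * dd (Rm J) k * e L k) * p := by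
    rw [← he.Tr_mul hb hLJ k (dd (Rm J) k), mul_assoc _ (e L k) p, hp]
  simp only [add_mul]
  rw [e2, e3]
  abel

/-- The hypotheses of `remT` for a remainder. -/
theorem cS_rem {T : TF A} {R : ℕ → A} (hR : Mart T R) {B : ℝ} (hB : T.L1B R B) (k : ℕ) {c : A}
    (hc : c ∈ T.F (k + 1)) (hcs : IsSelfAdjoint c) (h1 : -(1 : A) ≤ c) (h2 : c ≤ 1) :
    T.t (c * dd R k) ≤ 2 * B := by
  have e1 : T.t (c * R (k + 1)) ≤ B := hB (k + 1) c hc hcs h1 h2
  have h3 : T.E k c ≤ 1 := by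
    have := T.E_mono (n := k) h2
    rwa [T.E_one] at this
  have h4 : -(1 : A) ≤ T.E k c := by
    have := T.E_mono (n := k) h1
    rwa [T.E_neg, T.E_one] at this
  have e2 : T.t (-(T.E k c) * R k) ≤ B := by
    refine hB k _ (neg_mem (T.E_mem k c)) (T.E_isSelfAdjoint hcs).neg ?_ ?_
    · exact neg_le_neg h3
    · exact neg_le.mp h4
  have e3 : T.t (T.E k c * R k) = T.t (c * R k) := T.E_spec k c (R k) (hR.mem k)
  rw [neg_mul, map_neg, e3] at e2
  unfold dd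
  rw [mul_sub, map_sub]
  linarith

/-- The trace of one piece. -/
theorem cS_piece {T : TF A} {l : ℝ} (hl : 0 < l) {K : ℝ} {X : ℕ → ℕ → A}
    (hX0 : ∀ i k, 0 ≤ X i k) {D : ℕ → ℝ} (hD0 : ∀ j, 0 ≤ D j) (hK : 1 ≤ K)
    (hD : ∀ L J, ∑ i ∈ Finset.Ioc L J, T.t (X i 0) ≤ l * 2 ^ L * D L)
    (hDK : ∀ j, D j ≤ K * D (j + 1)) {i : ℕ} (hi : 0 < i) :
    T.t (X i 0) ≤ l * 2 ^ i * (K * D i) := by
  obtain ⟨n, rfl⟩ : ∃ n, i = n + 1 := ⟨i - 1, by omega⟩
  have h2 : T.t (X (n + 1) 0) ≤ ∑ i ∈ Finset.Ioc n (n + 1), T.t (X i 0) :=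
    Finset.single_le_sum (f := fun i => T.t (X i 0)) (fun i _ => T.t_nonneg (hX0 i 0))
      (Finset.mem_Ioc.mpr ⟨Nat.lt_succ_self n, le_rfl⟩)
  have h3 := hD n (n + 1)
  have h5 : l * 2 ^ n * D n ≤ l * 2 ^ n * (K * D (n + 1)) :=
    mul_le_mul_of_nonneg_left (hDK n) (by positivity)
  have h6 : 0 ≤ l * 2 ^ n * (K * D (n + 1)) := by
    have := hD0 (n + 1)
    have : 0 < K := by linarith
    positivity
  have e1 : l * 2 ^ (n + 1) * (K * D (n + 1)) = 2 * (l * 2 ^ n * (K * D (n + 1))) := by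
    rw [pow_succ]
    ring
  rw [e1]
  linarith

/-- The trace of the flags. -/
theorem cS_flag {T : TF A} {l : ℝ} (hl : 0 < l) {K : ℝ} (hK : 1 ≤ K) {X Y : ℕ → ℕ → A}
    {D : ℕ → ℝ} (hD0 : ∀ j, 0 ≤ D j)
    (hDX : ∀ L J, ∑ i ∈ Finset.Ioc L J, T.t (X i 0) ≤ l * 2 ^ L * D L)
    (hDY : ∀ L J, ∑ i ∈ Finset.Ioc L J, T.t (Y i 0) ≤ l * 2 ^ L * D L)
    (hDd : ∀ j, 2 * D (j + 1) ≤ D j) (hDK : ∀ j, D j ≤ K * D (j + 1)) {L J : ℕ} (hL : 1 ≤ L) :
    ∑ j' ∈ Finset.Icc L J,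
        (l * 2 ^ j' * D j' / (l * 2 ^ j') +
          2 * ∑ i ∈ Finset.Icc j' J, (T.t (X i 0) + T.t (Y i 0)) / (l * 2 ^ j')) ≤
      2 * (1 + 2 * K) * D L := by
  have h1 : ∀ j' ∈ Finset.Icc L J, (l * 2 ^ j' * D j' / (l * 2 ^ j') +
      2 * ∑ i ∈ Finset.Icc j' J, (T.t (X i 0) + T.t (Y i 0)) / (l * 2 ^ j')) ≤
      (1 + 2 * K) * D j' := by
    intro j' hj'
    have hj1 : 1 ≤ j' := hL.trans (Finset.mem_Icc.mp hj').1
    obtain ⟨n, rfl⟩ : ∃ n, j' = n + 1 := ⟨j' - 1, by omega⟩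
    have hp : 0 < l * 2 ^ (n + 1) := by positivity
    have hA : l * 2 ^ (n + 1) * D (n + 1) / (l * 2 ^ (n + 1)) = D (n + 1) := by
      rw [mul_comm, mul_div_assoc, div_self hp.ne', mul_one]
    have e1 : Finset.Icc (n + 1) J = Finset.Ioc n J := by
      ext i
      simp only [Finset.mem_Icc, Finset.mem_Ioc]
      omega
    have hB : ∑ i ∈ Finset.Icc (n + 1) J, (T.t (X i 0) + T.t (Y i 0)) / (l * 2 ^ (n + 1)) ≤
        D n := by
      rw [e1, ← Finset.sum_div, div_le_iff₀ hp, Finset.sum_add_distrib]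
      have a1 := hDX n J
      have a2 := hDY n J
      have a3 : D n * (l * 2 ^ (n + 1)) = 2 * (l * 2 ^ n * D n) := by
        rw [pow_succ]
        ring
      rw [a3]
      linarith
    have hC := hDK n
    rw [hA]
    linarith
  refine (Finset.sum_le_sum h1).trans ?_
  rw [← Finset.mul_sum]
  have h2 := cc_D_sum hD0 hDd L J
  have h3 := mul_le_mul_of_nonneg_left h2 (show (0 : ℝ) ≤ 1 + 2 * K by linarith)
  linarith

/-- The trace estimate of one low piece. -/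
theorem cS_low_num {m : ℕ} {Cl K l : ℝ} (hl : 0 < l) (hK : 1 ≤ K) (hCl : 0 < Cl)
    (hm : ((9 : ℝ) / 16) ^ (2 ^ (m + 1)) * K ≤ 1 / 2) {D : ℕ → ℝ} (hD0 : ∀ j, 0 ≤ D j)
    (hDK : ∀ j, D j ≤ K * D (j + 1)) {i L : ℕ} (hiL : i ≤ L) :
    Cl * ((l * 2 ^ i) ^ 2 / ((l * 2 ^ L) ^ 2 * ((1 / 8) * (2 / 3) ^ (L - i)) ^ 2)) ^
        (2 ^ (m + 1)) * (K * D i) ≤
      (Cl * 64 ^ (2 ^ (m + 1)) * K) * D L * (1 / 2) ^ (L - i) := by
  obtain ⟨n, rfl⟩ : ∃ n, L = i + n := ⟨L - i, by omega⟩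
  have hn : i + n - i = n := by omega
  rw [hn]
  have hKp : 0 < K := by linarith
  have e1 : (l * 2 ^ i) ^ 2 / ((l * 2 ^ (i + n)) ^ 2 * ((1 / 8) * (2 / 3) ^ n) ^ 2) =
      64 * ((9 : ℝ) / 16) ^ n := by
    have h4 : ((9 : ℝ) / 16) ^ n = 1 / (((2 : ℝ) ^ n) ^ 2 * ((2 / 3) ^ n) ^ 2) := by
      rw [← pow_mul, ← pow_mul, mul_comm n 2, pow_mul, pow_mul, ← mul_pow]
      rw [← one_div_pow]
      norm_num
    rw [h4, pow_add]
    have hl' : l ≠ 0 := hl.ne'
    field_simp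
    ring
  rw [e1, mul_pow, ← pow_mul, mul_comm n, pow_mul]
  have h5 := cc_D_le hK hDK i n
  have h6 : (((9 : ℝ) / 16) ^ (2 ^ (m + 1))) ^ n * K ^ n ≤ (1 / 2) ^ n := by
    rw [← mul_pow]
    exact pow_le_pow_left₀ (by positivity) hm n
  have hDn := hD0 (i + n)
  calc Cl * (64 ^ 2 ^ (m + 1) * (((9 : ℝ) / 16) ^ 2 ^ (m + 1)) ^ n) * (K * D i)
      = (Cl * 64 ^ 2 ^ (m + 1) * K * (((9 : ℝ) / 16) ^ 2 ^ (m + 1)) ^ n) * D i := by ring
    _ ≤ (Cl * 64 ^ 2 ^ (m + 1) * K * (((9 : ℝ) / 16) ^ 2 ^ (m + 1)) ^ n) *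
        (K ^ n * D (i + n)) := mul_le_mul_of_nonneg_left h5 (by positivity)
    _ = (Cl * 64 ^ 2 ^ (m + 1) * K * D (i + n)) *
        ((((9 : ℝ) / 16) ^ 2 ^ (m + 1)) ^ n * K ^ n) := by ring
    _ ≤ (Cl * 64 ^ 2 ^ (m + 1) * K * D (i + n)) * (1 / 2) ^ n :=
        mul_le_mul_of_nonneg_left h6 (by positivity)

/-- The trace estimate of one remainder. -/
theorem cS_rem_num {m : ℕ} {Cr K l : ℝ} (hl : 0 < l) (hK : 1 ≤ K) (hCr : 0 < Cr)
    (hm : ((9 : ℝ) / 16) ^ (2 ^ (m + 1)) * K ≤ 1 / 2) {D : ℕ → ℝ} (hD0 : ∀ j, 0 ≤ D j)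
    (hDK : ∀ j, D j ≤ K * D (j + 1)) {i L : ℕ} (hiL : i ≤ L) :
    Cr * ((l * 2 ^ i) ^ 2 / ((l * 2 ^ L) ^ 2 * ((2 / 3) ^ (L - i)) ^ 2)) ^
        (2 ^ (m + 1)) * D i ≤ Cr * D L * (1 / 2) ^ (L - i) := by
  obtain ⟨n, rfl⟩ : ∃ n, L = i + n := ⟨L - i, by omega⟩
  have hn : i + n - i = n := by omega
  rw [hn]
  have hKp : 0 < K := by linarith
  have e1 : (l * 2 ^ i) ^ 2 / ((l * 2 ^ (i + n)) ^ 2 * ((2 / 3) ^ n) ^ 2) =
      ((9 : ℝ) / 16) ^ n := by
    have h4 : ((9 : ℝ) / 16) ^ n = 1 / (((2 : ℝ) ^ n) ^ 2 * ((2 / 3) ^ n) ^ 2) := by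
      rw [← pow_mul, ← pow_mul, mul_comm n 2, pow_mul, pow_mul, ← mul_pow]
      rw [← one_div_pow]
      norm_num
    rw [h4, pow_add]
    have hl' : l ≠ 0 := hl.ne'
    field_simp
  rw [e1, ← pow_mul, mul_comm n, pow_mul]
  have h5 := cc_D_le hK hDK i n
  have h6 : (((9 : ℝ) / 16) ^ (2 ^ (m + 1))) ^ n * K ^ n ≤ (1 / 2) ^ n := by
    rw [← mul_pow]
    exact pow_le_pow_left₀ (by positivity) hm n
  have hDn := hD0 (i + n)
  calc Cr * (((9 : ℝ) / 16) ^ 2 ^ (m + 1)) ^ n * D i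
      ≤ Cr * (((9 : ℝ) / 16) ^ 2 ^ (m + 1)) ^ n * (K ^ n * D (i + n)) :=
        mul_le_mul_of_nonneg_left h5 (by positivity)
    _ = Cr * D (i + n) * ((((9 : ℝ) / 16) ^ 2 ^ (m + 1)) ^ n * K ^ n) := by ring
    _ ≤ Cr * D (i + n) * (1 / 2) ^ n := mul_le_mul_of_nonneg_left h6 (by positivity)

/-- The weighted inequality at one time. -/
theorem cS_weighted (H : A) (P Q : ℕ → A) (L : ℕ) :
    star (H + ∑ i ∈ Finset.Ioc 0 L, (P i - Q i)) * (H + ∑ i ∈ Finset.Ioc 0 L, (P i - Q i)) ≤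
      (4 : ℝ) • (star H * H) +
        (∑ i ∈ Finset.Ioc 0 L, (((1 / 8) * (2 / 3) ^ (L - i) : ℝ))⁻¹ • (star (P i) * P i) +
        ∑ i ∈ Finset.Ioc 0 L, (((1 / 8) * (2 / 3) ^ (L - i) : ℝ))⁻¹ • (star (Q i) * Q i)) := by
  have h := weighted_sq_le (A := A)
    (Finset.insertNone ((Finset.Ioc 0 L).disjSum (Finset.Ioc 0 L)))
    (fun o => Option.elim o (1 / 4 : ℝ)
      (Sum.elim (fun i => (1 / 8) * (2 / 3) ^ (L - i)) (fun i => (1 / 8) * (2 / 3) ^ (L - i)))) ?_ ?_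
    (fun o => Option.elim o H (Sum.elim (fun i => P i) (fun i => -Q i)))
  · rw [Finset.sum_insertNone, Finset.sum_insertNone, Finset.sum_disjSum, Finset.sum_disjSum] at h
    simp only [Option.elim_none, Option.elim_some, Sum.elim_inl, Sum.elim_inr] at h
    have e1 : ∑ i ∈ Finset.Ioc 0 L, P i + ∑ i ∈ Finset.Ioc 0 L, -Q i =
        ∑ i ∈ Finset.Ioc 0 L, (P i - Q i) := by
      rw [← Finset.sum_add_distrib]
      exact Finset.sum_congr rfl fun i _ => (sub_eq_add_neg _ _).symm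
    rw [e1] at h
    have e2 : (1 / 4 : ℝ)⁻¹ = 4 := by norm_num
    rw [e2] at h
    simp only [star_neg, neg_mul_neg] at h
    exact h
  · intro o _
    rcases o with _ | (i | i)
    · norm_num
    · simp only [Option.elim_some, Sum.elim_inl]; positivity
    · simp only [Option.elim_some, Sum.elim_inr]; positivity
  · rw [Finset.sum_insertNone, Finset.sum_disjSum]
    simp only [Option.elim_none, Option.elim_some, Sum.elim_inl, Sum.elim_inr]
    rw [← Finset.mul_sum]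
    have h2 := cc_geom (r := 2 / 3) (by norm_num) (by norm_num) L L le_rfl
    norm_num at h2 ⊢
    linarith

/-- Sum of the low pieces. -/
theorem cS_low_sum {p : A} {lam : ℝ} (L N : ℕ) (P : ℕ → ℕ → A)
    (hb : ∀ i ∈ Finset.Ioc 0 L, p * (∑ k ∈ Finset.range N, star (P i k) * P i k) * p ≤
      (lam ^ 2 * ((1 / 8) * (2 / 3) ^ (L - i)) ^ 2) • (1 : A)) :
    ∑ i ∈ Finset.Ioc 0 L, (((1 / 8) * (2 / 3) ^ (L - i) : ℝ))⁻¹ •
      (p * (∑ k ∈ Finset.range N, star (P i k) * P i k) * p) ≤ (lam ^ 2) • (1 : A) := by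
  have hZb : ∀ i ∈ Finset.Ioc 0 L,
      (((1 / 8) * (2 / 3) ^ (L - i) : ℝ))⁻¹ •
          (p * (∑ k ∈ Finset.range N, star (P i k) * P i k) * p) ≤
        (lam ^ 2 * ((1 / 8) * (2 / 3) ^ (L - i))) • (1 : A) := by
    intro i hi
    have h2 := smul_le_smul_of_nonneg_left (hb i hi)
      (show (0 : ℝ) ≤ (((1 / 8) * (2 / 3) ^ (L - i) : ℝ))⁻¹ by positivity)
    refine h2.trans (le_of_eq ?_)
    rw [smul_smul]
    refine congrArg (· • (1 : A)) ?_
    have h3 : ((1 / 8) * (2 / 3) ^ (L - i) : ℝ) ≠ 0 := by positivity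
    field_simp
  refine (Finset.sum_le_sum hZb).trans ?_
  rw [← Finset.sum_smul]
  refine smul_le_smul_of_nonneg_right ?_ zero_le_one
  rw [← Finset.mul_sum, ← Finset.mul_sum]
  have h2 := cc_geom (r := 2 / 3) (by norm_num) (by norm_num) L L le_rfl
  have h3 : (0 : ℝ) ≤ lam ^ 2 := by positivity
  have h4 : (1 / 8) * ∑ i ∈ Finset.Ioc 0 L, ((2 : ℝ) / 3) ^ (L - i) ≤ 1 := by
    norm_num at h2 ⊢
    linarith
  calc lam ^ 2 * ((1 / 8) * ∑ i ∈ Finset.Ioc 0 L, ((2 : ℝ) / 3) ^ (L - i))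
      ≤ lam ^ 2 * 1 := mul_le_mul_of_nonneg_left h4 h3
    _ = lam ^ 2 := mul_one _

end auxS

theorem coreS (K : ℝ) (hK : 1 ≤ K) : ∃ C : ℝ, 0 < C ∧
    ∀ (A : Type u) [CStarAlgebra A] [PartialOrder A] [StarOrderedRing A] (T : TF A)
      (l : ℝ) (_ : 0 < l) (I : ℕ → ℕ) (_ : StrictMono I) (X Y : ℕ → ℕ → A)
      (_ : ∀ i, Mart T (X i)) (_ : ∀ i, Mart T (Y i))
      (_ : ∀ i k, 0 ≤ X i k) (_ : ∀ i k, X i k ≤ (l * 2 ^ i) • (1 : A))
      (_ : ∀ i k, 0 ≤ Y i k) (_ : ∀ i k, Y i k ≤ (l * 2 ^ i) • (1 : A))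
      (Rm : ℕ → ℕ → A) (_ : ∀ L, Mart T (Rm L)) (_ : ∀ L k, IsSelfAdjoint (Rm L k))
      (_ : ∀ L L' k, L ≤ L' → Rm L k = Rm L' k + ∑ i ∈ Finset.Ioc L L', (X i k - Y i k))
      (_ : ∀ k, Rm (I k) k ≤ (2 * (l * 2 ^ (I k))) • (1 : A))
      (_ : ∀ k, -((2 * (l * 2 ^ (I k))) • (1 : A)) ≤ Rm (I k) k)
      (_ : ∀ k, Rm (I k) (k + 1) ≤ (2 * (l * 2 ^ (I k))) • (1 : A))
      (_ : ∀ k, -((2 * (l * 2 ^ (I k))) • (1 : A)) ≤ Rm (I k) (k + 1))
      (D : ℕ → ℝ) (_ : ∀ j, 0 ≤ D j)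
      (_ : ∀ L J, ∑ i ∈ Finset.Ioc L J, T.t (X i 0) ≤ l * 2 ^ L * D L)
      (_ : ∀ L J, ∑ i ∈ Finset.Ioc L J, T.t (Y i 0) ≤ l * 2 ^ L * D L)
      (_ : ∀ L, T.L1B (Rm L) (l * 2 ^ L * D L))
      (_ : ∀ j, 2 * D (j + 1) ≤ D j) (_ : ∀ j, D j ≤ K * D (j + 1))
      (e : ℕ → ℕ → A) (_ : FlagSys T e) (_ : ∀ j k, I k < j → e j k = 1)
      (_ : ∀ L k, 1 ≤ L → L ≤ I k → T.stopS (Rm L) (l * 2 ^ L) k * e L k = e L k)
      (_ : ∀ i j k, 1 ≤ j → j ≤ i → i ≤ I k → T.qq (X i) (l * 2 ^ j) k * e j k = e j k)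
      (_ : ∀ i j k, 1 ≤ j → j ≤ i → i ≤ I k →
        T.zz (X i) (l * 2 ^ j) (l * 2 ^ i * (l * 2 ^ j)) k * e j k = e j k)
      (_ : ∀ i j k, 1 ≤ j → j ≤ i → i ≤ I k → T.qq (Y i) (l * 2 ^ j) k * e j k = e j k)
      (_ : ∀ i j k, 1 ≤ j → j ≤ i → i ≤ I k →
        T.zz (Y i) (l * 2 ^ j) (l * 2 ^ i * (l * 2 ^ j)) k * e j k = e j k)
      (_ : ∀ j, 1 ≤ j → ∀ N, T.t (1 - e j N) ≤ ∑ j' ∈ Finset.Icc j (I N),
        (l * 2 ^ j' * D j' / (l * 2 ^ j') +
          2 * ∑ i ∈ Finset.Icc j' (I N), (T.t (X i 0) + T.t (Y i 0)) / (l * 2 ^ j')))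
      (b : ℕ) (_ : b ≤ 1) (L : ℕ) (_ : 1 ≤ L) (N : ℕ),
      ∃ p ∈ T.F N, IsStarProjection p ∧ T.t (1 - p) ≤ C * D L ∧
        p * (∑ k ∈ Finset.range N,
          star (∑ i ∈ Finset.Ioc 0 (I k),
              Tr b (ch e i k) (i + 1) (dd (X i) k - dd (Y i) k) +
              Tr b (ch e (I k) k) (I k + 1) (dd (Rm (I k)) k)) *
            (∑ i ∈ Finset.Ioc 0 (I k),
              Tr b (ch e i k) (i + 1) (dd (X i) k - dd (Y i) k) +
              Tr b (ch e (I k) k) (I k + 1) (dd (Rm (I k)) k))) * p ≤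
          (C * (l * 2 ^ L) ^ 2) • (1 : A) := by
  obtain ⟨m, hm⟩ := cc_exists_m K hK
  obtain ⟨Cl, hCl, hlow⟩ := lowG.{u} m
  obtain ⟨Cr, hCr, hrem⟩ := remT.{u} m
  have hKp : 0 < K := by linarith
  refine ⟨14 + 2 * (1 + 2 * K) + 30 + 2 * Cr + 4 * (Cl * 64 ^ (2 ^ (m + 1)) * K),
    by positivity, ?_⟩
  intro A _ _ _ T l hl I hI X Y hX hY hX0 hX1 hY0 hY1 Rm hRm hRs hRrel hRb1 hRb2 hRb3 hRb4
    D hD0 hDX hDY hDR hDd hDK e he he1 hst hqX hzX hqY hzY het b hb L hL N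
  obtain ⟨kk, hkk⟩ := cS_kk hI
  have hlam : 0 < l * 2 ^ L := by positivity
  -- high part
  obtain ⟨ph, hphm, hphp, hphb, hpht⟩ := T.highG he hL (kk L) hlam (hRm L) (hRs L) (hDR L)
    (fun k hk => hst L k hL ((hkk L k).mp hk)) hb N
  have hpht' : T.t (1 - ph) ≤ 30 * D L := by
    refine hpht.trans (le_of_eq ?_)
    rw [mul_comm (l * 2 ^ L) (D L), mul_div_assoc, div_self hlam.ne', mul_one]
  -- low part, generic
  have hlowgen : ∀ W : ℕ → ℕ → A, (∀ i, Mart T (W i)) → (∀ i k, 0 ≤ W i k) →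
      (∀ i k, W i k ≤ (l * 2 ^ i) • (1 : A)) →
      (∀ L J, ∑ i ∈ Finset.Ioc L J, T.t (W i 0) ≤ l * 2 ^ L * D L) →
      (∀ i j k, 1 ≤ j → j ≤ i → i ≤ I k → T.qq (W i) (l * 2 ^ j) k * e j k = e j k) →
      (∀ i j k, 1 ≤ j → j ≤ i → i ≤ I k →
        T.zz (W i) (l * 2 ^ j) (l * 2 ^ i * (l * 2 ^ j)) k * e j k = e j k) →
      ∀ i ∈ Finset.Ioc 0 L, ∃ r : A, r ∈ T.F N ∧ IsStarProjection r ∧
        r * (∑ k ∈ Finset.range N,
          star (if i ≤ I k then Tr b (ch e i k) (i + 1) (dd (W i) k) else 0) *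
            (if i ≤ I k then Tr b (ch e i k) (i + 1) (dd (W i) k) else 0)) * r ≤
              ((l * 2 ^ L) ^ 2 * ((1 / 8) * (2 / 3) ^ (L - i)) ^ 2) • (1 : A) ∧
        T.t (1 - r) ≤ (Cl * 64 ^ (2 ^ (m + 1)) * K) * D L * (1 / 2) ^ (L - i) := by
    intro W hW hW0 hW1 hDW hqW hzW i hi
    have hi1 : 0 < i := (Finset.mem_Ioc.mp hi).1
    have hiL : i ≤ L := (Finset.mem_Ioc.mp hi).2
    have hDi : T.t (W i 0) ≤ l * 2 ^ i * (K * D i) := cS_piece hl hW0 hD0 hK hDW hDK hi1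
    obtain ⟨r, hr1, hr2, hr3, hr4⟩ := hlow A T e he l hl i (kk i) (W i) (hW i) (hW0 i) (hW1 i)
      (fun j hj hji k hk => hqW i j k hj hji ((hkk i k).mp hk))
      (fun j hj hji k hk => hzW i j k hj hji ((hkk i k).mp hk))
      (K * D i) hDi b hb N ((l * 2 ^ L) ^ 2 * ((1 / 8) * (2 / 3) ^ (L - i)) ^ 2)
      (by positivity)
    refine ⟨r, hr1, hr2, ?_, hr4.trans (cS_low_num hl hK hCl hm hD0 hDK hiL)⟩
    rw [cS_sum_if hkk]
    exact hr3
  have hexX := hlowgen X hX hX0 hX1 hDX hqX hzX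
  have hexY := hlowgen Y hY hY0 hY1 hDY hqY hzY
  choose! rX hrXm hrXp hrXb hrXt using hexX
  choose! rY hrYm hrYp hrYb hrYt using hexY
  -- remainders
  set S : Finset ℕ := (Finset.range N).filter (fun k => I k < L) with hS
  have hexR : ∀ k ∈ S, ∃ r : A, r ∈ T.F N ∧ IsStarProjection r ∧
      r * (star (Tr b (ch e (I k) k) (I k + 1) (dd (Rm (I k)) k)) *
        Tr b (ch e (I k) k) (I k + 1) (dd (Rm (I k)) k)) * r ≤
          ((l * 2 ^ L) ^ 2 * ((2 / 3) ^ (L - I k)) ^ 2) • (1 : A) ∧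
      T.t (1 - r) ≤ Cr * D L * (1 / 2) ^ (L - I k) := by
    intro k hk
    obtain ⟨hkN, hkL⟩ := Finset.mem_filter.mp hk
    have hkN' := Finset.mem_range.mp hkN
    have hΛ : 0 < l * 2 ^ (I k) := by positivity
    have hd1 : dd (Rm (I k)) k ≤ (4 * (l * 2 ^ (I k))) • (1 : A) := by
      have h1 := hRb3 k
      have h2 := neg_le.mp (hRb2 k)
      have h3 := add_le_add h1 h2
      rw [← add_smul] at h3
      have e1 : 2 * (l * 2 ^ (I k)) + 2 * (l * 2 ^ (I k)) = 4 * (l * 2 ^ (I k)) := by ring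
      rw [e1, ← sub_eq_add_neg] at h3
      exact h3
    have hd2 : -((4 * (l * 2 ^ (I k))) • (1 : A)) ≤ dd (Rm (I k)) k := by
      have h1 := hRb4 k
      have h2 := neg_le_neg (hRb1 k)
      have h3 := add_le_add h1 h2
      rw [← sub_eq_add_neg (Rm (I k) (k + 1)), ← neg_add, ← add_smul] at h3
      have e1 : 2 * (l * 2 ^ (I k)) + 2 * (l * 2 ^ (I k)) = 4 * (l * 2 ^ (I k)) := by ring
      rw [e1] at h3
      exact h3
    obtain ⟨r, hr1, hr2, hr3, hr4⟩ := hrem A T e he (l * 2 ^ (I k)) hΛ (I k) k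
      (dd (Rm (I k)) k) ((hRm (I k)).dd_mem k)
      ((hRs (I k) (k + 1)).sub (hRs (I k) k)) hd1 hd2 (D (I k))
      (fun c hc hcs h1 h2 => by
        have := cS_rem (hRm (I k)) (hDR (I k)) k hc hcs h1 h2
        linarith) b hb
      ((l * 2 ^ L) ^ 2 * ((2 / 3) ^ (L - I k)) ^ 2) (by positivity)
    exact ⟨r, T.F_le (by omega) hr1, hr2, hr3,
      hr4.trans (cS_rem_num hl hK hCr hm hD0 hDK hkL.le)⟩
  choose! rR hrRm hrRp hrRb hrRt using hexR
  -- the meet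
  set P : Bool ⊕ (ℕ ⊕ (ℕ ⊕ ℕ)) → A := Sum.elim (fun x => if x then e L N else ph)
    (Sum.elim rX (Sum.elim rY rR)) with hP
  set F : Finset (Bool ⊕ (ℕ ⊕ (ℕ ⊕ ℕ))) := (Finset.univ : Finset Bool).disjSum
    ((Finset.Ioc 0 L).disjSum ((Finset.Ioc 0 L).disjSum S)) with hF
  have hPp : ∀ x ∈ F, IsStarProjection (P x) := by
    intro x hx
    rcases x with x | x | x | x
    · cases x
      · exact hphp
      · exact he.proj L N
    · simp only [hF, Finset.inr_mem_disjSum, Finset.inl_mem_disjSum] at hx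
      exact hrXp x hx
    · simp only [hF, Finset.inr_mem_disjSum, Finset.inl_mem_disjSum] at hx
      exact hrYp x hx
    · simp only [hF, Finset.inr_mem_disjSum] at hx
      exact hrRp x hx
  have hPm : ∀ x ∈ F, P x ∈ T.F N := by
    intro x hx
    rcases x with x | x | x | x
    · cases x
      · exact hphm
      · exact he.mem L N
    · simp only [hF, Finset.inr_mem_disjSum, Finset.inl_mem_disjSum] at hx
      exact hrXm x hx
    · simp only [hF, Finset.inr_mem_disjSum, Finset.inl_mem_disjSum] at hx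
      exact hrYm x hx
    · simp only [hF, Finset.inr_mem_disjSum] at hx
      exact hrRm x hx
  obtain ⟨p, hpm, ⟨hpp, hpx, -⟩, hpt⟩ := T.exists_inf N F P hPp hPm
  have hpe : e L N * p = p := hpx (Sum.inl true) (by simp [hF])
  have hph : ph * p = p := hpx (Sum.inl false) (by simp [hF])
  have hpX : ∀ i ∈ Finset.Ioc 0 L, rX i * p = p := fun i hi =>
    hpx (Sum.inr (Sum.inl i)) (by simpa [hF] using hi)
  have hpY : ∀ i ∈ Finset.Ioc 0 L, rY i * p = p := fun i hi =>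
    hpx (Sum.inr (Sum.inr (Sum.inl i))) (by simpa [hF] using hi)
  have hpR : ∀ k ∈ S, rR k * p = p := fun k hk =>
    hpx (Sum.inr (Sum.inr (Sum.inr k))) (by simpa [hF] using hk)
  refine ⟨p, hpm, hpp, ?_, ?_⟩
  · -- trace
    have hDL := hD0 L
    refine hpt.trans ?_
    rw [hF, Finset.sum_disjSum, Finset.sum_disjSum, Finset.sum_disjSum, Fintype.sum_bool]
    have t1 : T.t (1 - P (Sum.inl true)) ≤ 2 * (1 + 2 * K) * D L :=
      (het L hL N).trans (cS_flag hl hK hD0 hDX hDY hDd hDK hL)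
    have t2 : T.t (1 - P (Sum.inl false)) ≤ 30 * D L := hpht'
    have hgeo : ∀ c : ℝ, 0 ≤ c → ∀ r : ℕ → A,
        (∀ i ∈ Finset.Ioc 0 L, T.t (1 - r i) ≤ c * D L * (1 / 2) ^ (L - i)) →
        ∑ i ∈ Finset.Ioc 0 L, T.t (1 - r i) ≤ 2 * c * D L := by
      intro c hc r hr
      refine (Finset.sum_le_sum hr).trans ?_
      rw [← Finset.mul_sum]
      have h2 := cc_geom (r := 1 / 2) (by norm_num) (by norm_num) L L le_rfl
      have h4 := mul_le_mul_of_nonneg_left h2 (mul_nonneg hc hDL)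
      norm_num at h4 ⊢
      linarith
    have t3 : ∑ i ∈ Finset.Ioc 0 L, T.t (1 - P (Sum.inr (Sum.inl i))) ≤
        2 * (Cl * 64 ^ (2 ^ (m + 1)) * K) * D L := hgeo _ (by positivity) rX hrXt
    have t4 : ∑ i ∈ Finset.Ioc 0 L, T.t (1 - P (Sum.inr (Sum.inr (Sum.inl i)))) ≤
        2 * (Cl * 64 ^ (2 ^ (m + 1)) * K) * D L := hgeo _ (by positivity) rY hrYt
    have t5 : ∑ k ∈ S, T.t (1 - P (Sum.inr (Sum.inr (Sum.inr k)))) ≤ 2 * Cr * D L := by
      refine (Finset.sum_le_sum hrRt).trans ?_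
      rw [← Finset.mul_sum]
      have h2 := cS_geom (r := 1 / 2) (by norm_num) (by norm_num) hI L N
      rw [← hS] at h2
      have h4 := mul_le_mul_of_nonneg_left h2 (mul_nonneg hCr.le hDL)
      norm_num at h4 ⊢
      linarith
    linarith
  · -- operator bound
    set Pt : ℕ → ℕ → A := fun i k => if i ≤ I k then Tr b (ch e i k) (i + 1) (dd (X i) k) else 0
      with hPt
    set Qt : ℕ → ℕ → A := fun i k => if i ≤ I k then Tr b (ch e i k) (i + 1) (dd (Y i) k) else 0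
      with hQt
    set H : ℕ → A := fun k => if L ≤ I k then
      Tr b (ch e L k) (L + 1) (e L k * dd (Rm L) k * e L k) else
      Tr b (ch e (I k) k) (I k + 1) (dd (Rm (I k)) k) with hH
    have hZ : ∀ k ∈ Finset.range N, (∑ i ∈ Finset.Ioc 0 (I k),
              Tr b (ch e i k) (i + 1) (dd (X i) k - dd (Y i) k) +
              Tr b (ch e (I k) k) (I k + 1) (dd (Rm (I k)) k)) * p =
        (H k + ∑ i ∈ Finset.Ioc 0 L, (Pt i k - Qt i k)) * p := by
      intro k hk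
      have hkN := (Finset.mem_range.mp hk).le
      have hpek : e L k * p = p := by
        calc e L k * p = e L k * (e L N * p) := by rw [hpe]
          _ = (e L k * e L N) * p := by rw [mul_assoc]
          _ = p := by rw [he.dec_le L hkN, hpe]
      by_cases hLI : L ≤ I k
      · rw [cS_Z_mul he hb hLI X Y Rm k hpek (fun k' => hRrel L (I k) k' hLI)]
        simp only [hH]
        rw [if_pos hLI]
        congr 2
        refine Finset.sum_congr rfl fun i hi => ?_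
        have hiI : i ≤ I k := (Finset.mem_Ioc.mp hi).2.trans hLI
        simp only [hPt, hQt]
        rw [if_pos hiI, if_pos hiI, Tr_sub]
      · simp only [hH]
        rw [if_neg hLI, add_comm]
        congr 2
        have hsub : Finset.Ioc 0 (I k) ⊆ Finset.Ioc 0 L :=
          Finset.Ioc_subset_Ioc le_rfl (by omega)
        symm
        rw [← Finset.sum_subset hsub]
        · refine Finset.sum_congr rfl fun i hi => ?_
          have hiI : i ≤ I k := (Finset.mem_Ioc.mp hi).2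
          simp only [hPt, hQt]
          rw [if_pos hiI, if_pos hiI, Tr_sub]
        · intro i hi hi'
          rw [Finset.mem_Ioc] at hi hi'
          simp only [hPt, hQt]
          rw [if_neg (by omega), if_neg (by omega), sub_zero]
    have step1 : p * (∑ k ∈ Finset.range N,
          star (∑ i ∈ Finset.Ioc 0 (I k),
              Tr b (ch e i k) (i + 1) (dd (X i) k - dd (Y i) k) +
              Tr b (ch e (I k) k) (I k + 1) (dd (Rm (I k)) k)) *
            (∑ i ∈ Finset.Ioc 0 (I k),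
              Tr b (ch e i k) (i + 1) (dd (X i) k - dd (Y i) k) +
              Tr b (ch e (I k) k) (I k + 1) (dd (Rm (I k)) k))) * p =
        ∑ k ∈ Finset.range N, p * (star (H k + ∑ i ∈ Finset.Ioc 0 L, (Pt i k - Qt i k)) *
          (H k + ∑ i ∈ Finset.Ioc 0 L, (Pt i k - Qt i k))) * p := by
      rw [Finset.mul_sum, Finset.sum_mul]
      refine Finset.sum_congr rfl fun k hk => ?_
      rw [cc_star_conj _ hpp, cc_star_conj _ hpp, hZ k hk]
    rw [step1]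
    have step3 : ∑ k ∈ Finset.range N,
        p * (star (H k + ∑ i ∈ Finset.Ioc 0 L, (Pt i k - Qt i k)) *
          (H k + ∑ i ∈ Finset.Ioc 0 L, (Pt i k - Qt i k))) * p ≤
        (4 : ℝ) • (p * (∑ k ∈ Finset.range N, star (H k) * H k) * p) +
          (∑ i ∈ Finset.Ioc 0 L, (((1 / 8) * (2 / 3) ^ (L - i) : ℝ))⁻¹ •
            (p * (∑ k ∈ Finset.range N, star (Pt i k) * Pt i k) * p) +
          ∑ i ∈ Finset.Ioc 0 L, (((1 / 8) * (2 / 3) ^ (L - i) : ℝ))⁻¹ •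
            (p * (∑ k ∈ Finset.range N, star (Qt i k) * Qt i k) * p)) := by
      refine (Finset.sum_le_sum fun k _ => proj_conj_mono hpp
        (cS_weighted (H k) (fun i => Pt i k) (fun i => Qt i k) L)).trans (le_of_eq ?_)
      rw [Finset.mul_sum, Finset.sum_mul, Finset.smul_sum]
      simp_rw [Finset.mul_sum, Finset.sum_mul, Finset.smul_sum]
      rw [Finset.sum_comm (s := Finset.Ioc 0 L), Finset.sum_comm (s := Finset.Ioc 0 L),
        ← Finset.sum_add_distrib, ← Finset.sum_add_distrib]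
      refine Finset.sum_congr rfl fun k _ => ?_
      rw [mul_add, add_mul, mul_add, add_mul, mul_smul_comm, smul_mul_assoc, Finset.mul_sum,
        Finset.sum_mul, Finset.mul_sum, Finset.sum_mul]
      refine congrArg _ (congrArg₂ _ (Finset.sum_congr rfl fun i _ => ?_)
        (Finset.sum_congr rfl fun i _ => ?_))
      · rw [mul_smul_comm, smul_mul_assoc]
      · rw [mul_smul_comm, smul_mul_assoc]
    refine step3.trans ?_
    have hXs := cS_low_sum (p := p) (lam := l * 2 ^ L) L N Pt (fun i hi =>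
      cc_conj_le hpp (hrXp i hi) (hpX i hi) (by positivity) (hrXb i hi))
    have hYs := cS_low_sum (p := p) (lam := l * 2 ^ L) L N Qt (fun i hi =>
      cc_conj_le hpp (hrYp i hi) (hpY i hi) (by positivity) (hrYb i hi))
    have hHs : p * (∑ k ∈ Finset.range N, star (H k) * H k) * p ≤
        (3 * (l * 2 ^ L) ^ 2) • (1 : A) := by
      have hsplit : ∑ k ∈ Finset.range N, star (H k) * H k =
          ∑ k ∈ Finset.Ico (kk L) N,
            star (Tr b (ch e L k) (L + 1) (e L k * dd (Rm L) k * e L k)) *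
              Tr b (ch e L k) (L + 1) (e L k * dd (Rm L) k * e L k) +
          ∑ k ∈ S, star (Tr b (ch e (I k) k) (I k + 1) (dd (Rm (I k)) k)) *
              Tr b (ch e (I k) k) (I k + 1) (dd (Rm (I k)) k) := by
        rw [← Finset.sum_filter_add_sum_filter_not (Finset.range N) (fun k => L ≤ I k)]
        congr 1
        · have hf : (Finset.range N).filter (fun k => L ≤ I k) = Finset.Ico (kk L) N := by
            ext k
            simp only [Finset.mem_filter, Finset.mem_range, Finset.mem_Ico, hkk]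
            exact and_comm
          rw [← hf]
          refine Finset.sum_congr rfl fun k hk => ?_
          simp only [hH]
          rw [if_pos (Finset.mem_filter.mp hk).2]
        · have hf : (Finset.range N).filter (fun k => ¬ L ≤ I k) = S := by
            rw [hS]
            ext k
            simp only [Finset.mem_filter, not_le]
          rw [hf]
          refine Finset.sum_congr rfl fun k hk => ?_
          simp only [hH]
          rw [if_neg (not_le.mpr (Finset.mem_filter.mp hk).2)]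
      rw [hsplit, mul_add, add_mul]
      have a1 := cc_conj_le hpp hphp hph (by positivity) hphb
      have a2 : p * (∑ k ∈ S, star (Tr b (ch e (I k) k) (I k + 1) (dd (Rm (I k)) k)) *
              Tr b (ch e (I k) k) (I k + 1) (dd (Rm (I k)) k)) * p ≤
          (2 * (l * 2 ^ L) ^ 2) • (1 : A) := by
        rw [Finset.mul_sum, Finset.sum_mul]
        refine (Finset.sum_le_sum fun k hk => cc_conj_le hpp (hrRp k hk) (hpR k hk)
          (by positivity) (hrRb k hk)).trans ?_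
        rw [← Finset.sum_smul]
        refine smul_le_smul_of_nonneg_right ?_ zero_le_one
        rw [← Finset.mul_sum]
        have h2 := cS_geom (r := 4 / 9) (by norm_num) (by norm_num) hI L N
        rw [← hS] at h2
        have e2 : ∑ k ∈ S, (((2 : ℝ) / 3) ^ (L - I k)) ^ 2 =
            ∑ k ∈ S, ((4 : ℝ) / 9) ^ (L - I k) := by
          refine Finset.sum_congr rfl fun k _ => ?_
          rw [← pow_mul, mul_comm, pow_mul]
          norm_num
        rw [e2]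
        have h3 : (0 : ℝ) ≤ (l * 2 ^ L) ^ 2 := by positivity
        have h4 := mul_le_mul_of_nonneg_left h2 h3
        norm_num at h4 ⊢
        linarith
      have a3 := add_le_add a1 a2
      rw [← add_smul] at a3
      refine a3.trans (le_of_eq ?_)
      congr 1
      ring
    have hfin := add_le_add (smul_le_smul_of_nonneg_left hHs (show (0 : ℝ) ≤ 4 by norm_num))
      (add_le_add hXs hYs)
    refine hfin.trans ?_
    rw [smul_smul, ← add_smul, ← add_smul]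
    refine smul_le_smul_of_nonneg_right ?_ zero_le_one
    have h3 : (0 : ℝ) ≤ (l * 2 ^ L) ^ 2 := by positivity
    have h5 : (0 : ℝ) ≤ 2 * (1 + 2 * K) + 30 + 2 * Cr +
        4 * (Cl * 64 ^ (2 ^ (m + 1)) * K) := by positivity
    nlinarith [mul_nonneg h5 h3]

end GD64
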