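import Mathlib

/-!
# GD64: weak-type Orlicz Gundy decomposition for noncommutative martingales

Abstract setting: a C*-algebra `A` with a faithful real-valued trace functional `t` (the real part
of a trace), an increasing sequence of star subalgebras `F n`, trace preserving conditional
expectations `E n`, spectral projections and meets of projections inside every `F n`.
-/

namespace GD64

open scoped ComplexOrder

/-- Tracial C*-algebra with filtration. -/
structure TF (A : Type*) [CStarAlgebra A] [PartialOrder A] [StarOrderedRing A] where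
  t : A →ₗ[ℝ] ℝ
  t_comm : ∀ a b : A, t (a * b) = t (b * a)
  t_star : ∀ a : A, t (star a) = t a
  t_pos : ∀ a : A, 0 ≤ t (star a * a)
  t_faith : ∀ a : A, t (star a * a) = 0 → a = 0
  F : ℕ → StarSubalgebra ℂ A
  F_mono : Monotone F
  E : ℕ → A → A
  E_mem : ∀ n a, E n a ∈ F n
  E_spec : ∀ n a b, b ∈ F n → t (E n a * b) = t (a * b)
  cut : ∀ (n : ℕ) (v : A), v ∈ F n → IsSelfAdjoint v → ∀ c : ℝ,
    ∃ f ∈ F n, IsStarProjection f ∧ (∀ x : A, Commute x v → Commute x f) ∧
      c • f ≤ f * v * f ∧ (1 - f) * v * (1 - f) ≤ c • (1 - f)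
  meet : ∀ (n : ℕ) (e f : A), e ∈ F n → f ∈ F n → IsStarProjection e → IsStarProjection f →
    ∃ g ∈ F n, IsStarProjection g ∧ e * g = g ∧ f * g = g ∧
      (∀ h : A, IsStarProjection h → e * h = h → f * h = h → g * h = h) ∧
      t (1 - g) ≤ t (1 - e) + t (1 - f)

end GD64
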