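import Pool.Agent.GD64.ProcVV
import Pool.Agent.GD64.ProcFlag

/-!
# GD64/Flags: construction of the flags

Pieces `X i` (`i ≤ J`), positive martingales with `X i k ≤ l 2^i`.
For `1 ≤ j ≤ J` let `G_j` be the family of the projections (time `k`)
`qq (∑_{j<i≤J} X i) (l 2^j) k`, and for `j ≤ i ≤ J`: `qq (X i) (l 2^j) k`,
`zz (X i) (l 2^j) (l 2^i * (l 2^j)) k`. `e j k` (`1 ≤ j ≤ J`) is the meet of all projections of
`G_{j'}`, `j ≤ j' ≤ J`; `e j k = 1` for `j > J`; `e 0 k = 0`.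
For `L ≥ J` the sum over `Ioc L J` is `0` and `qq 0 R k = 1` (`stop_zero`).
Monotonicity: the meet over a smaller index set is bigger; the meet of smaller projections is smaller
(`IsInf`). Trace: `pinf_t_le`, `t_qq_le`, `t_zz_le` (`c = l 2^i`).
-/

namespace GD64

/-- the family of all projections used for the flags, at time `k`. -/
noncomputable def flagFam {A : Type*} [CStarAlgebra A] [PartialOrder A] [StarOrderedRing A]
    (T : TF A) (l : ℝ) (J : ℕ) (X : ℕ → ℕ → A) (k : ℕ) : (Σ _ : ℕ, Unit ⊕ (ℕ ⊕ ℕ)) → A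
  | ⟨j, Sum.inl _⟩ => T.qq (fun k => ∑ i ∈ Finset.Ioc j J, X i k) (l * 2 ^ j) k
  | ⟨j, Sum.inr (Sum.inl i)⟩ => T.qq (X i) (l * 2 ^ j) k
  | ⟨j, Sum.inr (Sum.inr i)⟩ => T.zz (X i) (l * 2 ^ j) (l * 2 ^ i * (l * 2 ^ j)) k

/-- the index set of the projections used at level `j`. -/
def flagIdx (J j : ℕ) : Finset (Σ _ : ℕ, Unit ⊕ (ℕ ⊕ ℕ)) :=
  (Finset.Icc j J).sigma fun j' =>
    (Finset.univ : Finset Unit).disjSum ((Finset.Icc j' J).disjSum (Finset.Icc j' J))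

theorem flagIdx_mono (J : ℕ) {i j : ℕ} (h : i ≤ j) : flagIdx J j ⊆ flagIdx J i := by
  intro x hx
  unfold flagIdx at hx ⊢
  rw [Finset.mem_sigma] at hx ⊢
  refine ⟨?_, hx.2⟩
  have := Finset.mem_Icc.mp hx.1
  exact Finset.mem_Icc.mpr ⟨h.trans this.1, this.2⟩

/-- the flags. -/
noncomputable def flagE {A : Type*} [CStarAlgebra A] [PartialOrder A] [StarOrderedRing A]
    (T : TF A) (l : ℝ) (J : ℕ) (X : ℕ → ℕ → A) (j k : ℕ) : A :=
  if j = 0 then 0 else pinf (flagIdx J j) (flagFam T l J X k)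

section

variable {A : Type*} [CStarAlgebra A] [PartialOrder A] [StarOrderedRing A] {T : TF A}
    {l : ℝ} (hl : 0 < l) (J : ℕ) {X : ℕ → ℕ → A} (hX : ∀ i, Mart T (X i))
    (h0 : ∀ i k, 0 ≤ X i k)

include hl hX h0

theorem flagFam_proj (k : ℕ) (x : Σ _ : ℕ, Unit ⊕ (ℕ ⊕ ℕ)) :
    IsStarProjection (flagFam T l J X k x) := by
  obtain ⟨j, x⟩ := x
  have hj : 0 < l * 2 ^ j := by positivity
  rcases x with x | x | i
  · exact TF.qq_proj (Mart.sum _ fun i _ => hX i)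
      (fun k => Finset.sum_nonneg fun i _ => h0 i k) hj k
  · exact TF.qq_proj (hX x) (h0 x) hj k
  · exact TF.zz_proj (hX i) (h0 i) hj (by positivity) k

theorem flagFam_mem (k : ℕ) (x : Σ _ : ℕ, Unit ⊕ (ℕ ⊕ ℕ)) :
    flagFam T l J X k x ∈ T.F k := by
  obtain ⟨j, x⟩ := x
  have hj : 0 < l * 2 ^ j := by positivity
  rcases x with x | x | i
  · exact TF.qq_mem (Mart.sum _ fun i _ => hX i)
      (fun k => Finset.sum_nonneg fun i _ => h0 i k) hj k
  · exact TF.qq_mem (hX x) (h0 x) hj k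
  · exact TF.zz_mem (hX i) (h0 i) hj (by positivity) k

theorem flagFam_dec (k : ℕ) (x : Σ _ : ℕ, Unit ⊕ (ℕ ⊕ ℕ)) :
    flagFam T l J X k x * flagFam T l J X (k + 1) x = flagFam T l J X (k + 1) x := by
  obtain ⟨j, x⟩ := x
  have hj : 0 < l * 2 ^ j := by positivity
  rcases x with x | x | i
  · exact TF.qq_dec (Mart.sum _ fun i _ => hX i)
      (fun k => Finset.sum_nonneg fun i _ => h0 i k) hj k
  · exact TF.qq_dec (hX x) (h0 x) hj k
  · exact TF.zz_dec (hX i) (h0 i) hj (by positivity) k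

theorem flagE_isInf {j : ℕ} (hj : 1 ≤ j) (k : ℕ) :
    IsInf (flagIdx J j) (flagFam T l J X k) (flagE T l J X j k) := by
  unfold flagE
  rw [if_neg (by omega)]
  exact T.pinf_isInf k _ _ (fun x _ => flagFam_proj hl J hX h0 k x)
    (fun x _ => flagFam_mem hl J hX h0 k x)

theorem flagE_sys : FlagSys T (flagE T l J X) where
  proj := by
    intro j k
    rcases Nat.eq_zero_or_pos j with rfl | hj
    · simp only [flagE, if_true]
      exact IsStarProjection.zero A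
    · exact (flagE_isInf hl J hX h0 hj k).1
  mem := by
    intro j k
    rcases Nat.eq_zero_or_pos j with rfl | hj
    · simp only [flagE, if_true]
      exact zero_mem _
    · unfold flagE
      rw [if_neg (by omega)]
      exact T.pinf_mem k _ _ (fun x _ => flagFam_proj hl J hX h0 k x)
        (fun x _ => flagFam_mem hl J hX h0 k x)
  dec := by
    intro j k
    rcases Nat.eq_zero_or_pos j with rfl | hj
    · simp [flagE]
    · have h1 := flagE_isInf hl J hX h0 hj k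
      have h2 := flagE_isInf hl J hX h0 hj (k + 1)
      refine h1.2.2 _ h2.1 fun x hx => ?_
      have h3 := h2.2.1 x hx
      rw [← h3, ← mul_assoc, flagFam_dec hl J hX h0 k x]
  inc := by
    intro j k
    rcases Nat.eq_zero_or_pos j with rfl | hj
    · simp [flagE]
    · have h1 := flagE_isInf hl J hX h0 hj k
      have h2 := flagE_isInf hl J hX h0 (Nat.succ_le_succ (Nat.zero_le j)) k
      refine h2.2.2 _ h1.1 fun x hx => ?_
      exact h1.2.1 x (flagIdx_mono J (Nat.le_succ j) hx)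
  zero := by
    intro k
    simp [flagE]

end

theorem TF.flags {A : Type*} [CStarAlgebra A] [PartialOrder A] [StarOrderedRing A] (T : TF A)
    {l : ℝ} (hl : 0 < l) (J : ℕ) (X : ℕ → ℕ → A) (hX : ∀ i, Mart T (X i))
    (h0 : ∀ i k, 0 ≤ X i k) (h1 : ∀ i k, X i k ≤ (l * 2 ^ i) • (1 : A)) :
    ∃ e : ℕ → ℕ → A, FlagSys T e ∧
      (∀ L, 1 ≤ L → ∀ k,
        T.qq (fun k => ∑ i ∈ Finset.Ioc L J, X i k) (l * 2 ^ L) k * e L k = e L k) ∧
      (∀ i j, 1 ≤ j → j ≤ i → i ≤ J → ∀ k, T.qq (X i) (l * 2 ^ j) k * e j k = e j k) ∧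
      (∀ i j, 1 ≤ j → j ≤ i → i ≤ J → ∀ k,
        T.zz (X i) (l * 2 ^ j) (l * 2 ^ i * (l * 2 ^ j)) k * e j k = e j k) ∧
      (∀ j, 1 ≤ j → ∀ N, T.t (1 - e j N) ≤ ∑ j' ∈ Finset.Icc j J,
        (T.t (∑ i ∈ Finset.Ioc j' J, X i 0) / (l * 2 ^ j') +
          2 * ∑ i ∈ Finset.Icc j' J, T.t (X i 0) / (l * 2 ^ j'))) := by
  refine ⟨flagE T l J X, flagE_sys hl J hX h0, ?_, ?_, ?_, ?_⟩
  · intro L hL k
    by_cases hLJ : L ≤ J
    · have hmem : (⟨L, Sum.inl ()⟩ : Σ _ : ℕ, Unit ⊕ (ℕ ⊕ ℕ)) ∈ flagIdx J L := by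
        unfold flagIdx
        rw [Finset.mem_sigma]
        exact ⟨Finset.mem_Icc.mpr ⟨le_rfl, hLJ⟩, by simp⟩
      exact (flagE_isInf hl J hX h0 hL k).2.1 _ hmem
    · have hem : Finset.Ioc L J = ∅ := Finset.Ioc_eq_empty (by omega)
      have h2 : T.qq (fun k => ∑ i ∈ Finset.Ioc L J, X i k) (l * 2 ^ L) k = 1 := by
        unfold TF.qq
        rw [hem]
        simp only [Finset.sum_empty]
        exact T.stop_zero (by positivity) k
      rw [h2, one_mul]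
  · intro i j hj hji hiJ k
    have hmem : (⟨j, Sum.inr (Sum.inl i)⟩ : Σ _ : ℕ, Unit ⊕ (ℕ ⊕ ℕ)) ∈ flagIdx J j := by
      unfold flagIdx
      rw [Finset.mem_sigma]
      refine ⟨Finset.mem_Icc.mpr ⟨le_rfl, hji.trans hiJ⟩, ?_⟩
      simp only [Finset.inr_mem_disjSum, Finset.inl_mem_disjSum, Finset.mem_Icc]
      exact ⟨hji, hiJ⟩
    exact (flagE_isInf hl J hX h0 hj k).2.1 _ hmem
  · intro i j hj hji hiJ k
    have hmem : (⟨j, Sum.inr (Sum.inr i)⟩ : Σ _ : ℕ, Unit ⊕ (ℕ ⊕ ℕ)) ∈ flagIdx J j := by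
      unfold flagIdx
      rw [Finset.mem_sigma]
      refine ⟨Finset.mem_Icc.mpr ⟨le_rfl, hji.trans hiJ⟩, ?_⟩
      simp only [Finset.inr_mem_disjSum, Finset.mem_Icc]
      exact ⟨hji, hiJ⟩
    exact (flagE_isInf hl J hX h0 hj k).2.1 _ hmem
  · intro j hj N
    have hle : T.t (1 - flagE T l J X j N) ≤
        ∑ x ∈ flagIdx J j, T.t (1 - flagFam T l J X N x) := by
      unfold flagE
      rw [if_neg (by omega)]
      exact T.pinf_t_le N _ _ (fun x _ => flagFam_proj hl J hX h0 N x)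
        (fun x _ => flagFam_mem hl J hX h0 N x)
    refine hle.trans ?_
    unfold flagIdx
    rw [Finset.sum_sigma]
    refine Finset.sum_le_sum fun j' _ => ?_
    rw [Finset.sum_disjSum, Finset.sum_disjSum]
    have hj' : 0 < l * 2 ^ j' := by positivity
    have e1 : ∑ x : Unit, T.t (1 - flagFam T l J X N ⟨j', Sum.inl x⟩) ≤
        T.t (∑ i ∈ Finset.Ioc j' J, X i 0) / (l * 2 ^ j') := by
      rw [Fintype.sum_unique]
      exact TF.t_qq_le (Mart.sum _ fun i _ => hX i)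
        (fun k => Finset.sum_nonneg fun i _ => h0 i k) hj' N
    have e2 : ∑ i ∈ Finset.Icc j' J, T.t (1 - flagFam T l J X N ⟨j', Sum.inr (Sum.inl i)⟩) ≤
        ∑ i ∈ Finset.Icc j' J, T.t (X i 0) / (l * 2 ^ j') :=
      Finset.sum_le_sum fun i _ => TF.t_qq_le (hX i) (h0 i) hj' N
    have e3 : ∑ i ∈ Finset.Icc j' J, T.t (1 - flagFam T l J X N ⟨j', Sum.inr (Sum.inr i)⟩) ≤
        ∑ i ∈ Finset.Icc j' J, T.t (X i 0) / (l * 2 ^ j') :=
      Finset.sum_le_sum fun i _ => TF.t_zz_le (hX i) (h0 i) (by positivity) (h1 i) hj' N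
    linarith

end GD64
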