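import Pool.Agent.GD64.Proc

/-!
# GD64/ProcMart: elementary facts on martingales
-/

namespace GD64

variable {A : Type*} [CStarAlgebra A] [PartialOrder A] [StarOrderedRing A]

theorem Mart.E_le {T : TF A} {X : ℕ → A} (h : Mart T X) {m n : ℕ} (hmn : m ≤ n) :
    T.E m (X n) = X m := by
  induction n, hmn using Nat.le_induction with
  | base => exact T.E_of_mem (h.mem m)
  | succ n hmn ih =>
    rw [← T.E_E hmn, h.ce, ih]

theorem Mart.t_eq {T : TF A} {X : ℕ → A} (h : Mart T X) (n : ℕ) : T.t (X n) = T.t (X 0) := by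
  have h1 := T.t_E 0 (X n)
  rw [h.E_le (Nat.zero_le n)] at h1
  exact h1.symm

theorem Mart.sum {T : TF A} {ι : Type*} (s : Finset ι) {X : ι → ℕ → A}
    (h : ∀ i ∈ s, Mart T (X i)) : Mart T (fun k => ∑ i ∈ s, X i k) := by
  refine ⟨fun k => sum_mem fun i hi => (h i hi).mem k, fun k => ?_⟩
  simp only [T.E_sum]
  exact Finset.sum_congr rfl fun i hi => (h i hi).ce k

theorem Mart.dd_mem {T : TF A} {X : ℕ → A} (h : Mart T X) (k : ℕ) : dd X k ∈ T.F (k + 1) := by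
  exact sub_mem (h.mem (k + 1)) (T.F_le (Nat.le_succ k) (h.mem k))

theorem Mart.E_dd {T : TF A} {X : ℕ → A} (h : Mart T X) (k : ℕ) : T.E k (dd X k) = 0 := by
  unfold dd
  rw [T.E_sub, h.ce, T.E_of_mem (h.mem k), sub_self]

theorem dd_isSelfAdjoint {X : ℕ → A} (h0 : ∀ k, 0 ≤ X k) (k : ℕ) :
    IsSelfAdjoint (dd X k) := by
  exact (IsSelfAdjoint.of_nonneg (h0 (k + 1))).sub (IsSelfAdjoint.of_nonneg (h0 k))

/-- `0 ≤ X ≤ c` implies `(dd X k)² ≤ c²`. -/
theorem dd_sq_le {X : ℕ → A} {c : ℝ} (hc : 0 ≤ c) (h0 : ∀ k, 0 ≤ X k)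
    (h1 : ∀ k, X k ≤ c • (1 : A)) (k : ℕ) : dd X k * dd X k ≤ (c ^ 2) • (1 : A) := by
  have ha : 0 ≤ c • (1 : A) - dd X k := by
    have e : c • (1 : A) - dd X k = (c • (1 : A) - X (k + 1)) + X k := by
      unfold dd; abel
    rw [e]
    exact add_nonneg (sub_nonneg.2 (h1 (k + 1))) (h0 k)
  have hb : 0 ≤ c • (1 : A) + dd X k := by
    have e : c • (1 : A) + dd X k = (c • (1 : A) - X k) + X (k + 1) := by
      unfold dd; abel
    rw [e]
    exact add_nonneg (sub_nonneg.2 (h1 k)) (h0 (k + 1))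
  have hcomm : Commute (c • (1 : A) - dd X k) (c • (1 : A) + dd X k) := by
    have h1' : Commute (c • (1 : A)) (dd X k) := (Commute.one_left _).smul_left c
    exact ((Commute.refl _).sub_left h1'.symm).add_right (h1'.sub_left (Commute.refl _))
  have h2 := commute_mul_nonneg ha hb hcomm
  have e : (c • (1 : A) - dd X k) * (c • (1 : A) + dd X k) =
      (c ^ 2) • (1 : A) - dd X k * dd X k := by
    simp only [sub_mul, mul_add, smul_mul_assoc, mul_smul_comm, one_mul, mul_one, smul_sub,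
      smul_smul, pow_two]
    abel
  rw [e] at h2
  exact sub_nonneg.1 h2

/-- `E_k(d_k²) = E_k(X_{k+1}²) - X_k²`. -/
theorem Mart.E_dd_sq {T : TF A} {X : ℕ → A} (h : Mart T X) (k : ℕ) :
    T.E k (dd X k * dd X k) = T.E k (X (k + 1) * X (k + 1)) - X k * X k := by
  have e : dd X k * dd X k = X (k + 1) * X (k + 1) - X (k + 1) * X k - X k * X (k + 1) +
      X k * X k := by
    unfold dd
    simp only [sub_mul, mul_sub]
    abel
  rw [e, T.E_add, T.E_sub, T.E_sub, T.E_mul_right (h.mem k), T.E_mul_left (h.mem k), h.ce,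
    T.E_of_mem (mul_mem (h.mem k) (h.mem k))]
  abel

/-- `∑_{k<N} t(d_k²) ≤ c t(X_0)` for `0 ≤ X ≤ c`. -/
theorem Mart.sum_t_dd_sq_le {T : TF A} {X : ℕ → A} (h : Mart T X) {c : ℝ}
    (h0 : ∀ k, 0 ≤ X k) (h1 : ∀ k, X k ≤ c • (1 : A)) (N : ℕ) :
    ∑ k ∈ Finset.range N, T.t (dd X k * dd X k) ≤ c * T.t (X 0) := by
  have h2 : ∀ k, T.t (dd X k * dd X k) = T.t (X (k + 1) * X (k + 1)) - T.t (X k * X k) := by
    intro k
    rw [← T.t_E k (dd X k * dd X k), h.E_dd_sq k, map_sub, T.t_E]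
  have h3 : ∑ k ∈ Finset.range N, T.t (dd X k * dd X k) =
      T.t (X N * X N) - T.t (X 0 * X 0) := by
    rw [Finset.sum_congr rfl fun k _ => h2 k]
    exact Finset.sum_range_sub (fun k => T.t (X k * X k)) N
  have h4 : 0 ≤ T.t (X 0 * X 0) := T.t_mul_nonneg (h0 0) (h0 0)
  have h5 : T.t (X N * X N) ≤ T.t (c • X N) := T.t_mono (sq_le_smul (h0 N) (h1 N))
  rw [map_smul, smul_eq_mul, h.t_eq N] at h5
  rw [h3]
  linarith

end GD64
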