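import Pool.Agent.GD64.StopInc
import Pool.Agent.GD64.ProcMart

/-!
# GD64/StopS: two-sided Cuculescu projections of an adapted self-adjoint sequence (stage 2)

`r_0 = 1 - 1_{(R,∞)}(X_0) - 1_{(R,∞)}(-X_0)`, `v = r_k X_{k+1} r_k`,
`r_{k+1} = r_k - 1_{(R,∞)}(v) - 1_{(R,∞)}(-v)`. The two cuts of `v` and `-v` are orthogonal
(`f⁺ ∧ f⁻`: `R f ≤ f v f` and `f v f ≤ -R f` on the product, they commute), both are `≤ r_k` and commute
with `v`.
-/

namespace GD64

/-- Result of one two-sided cut. -/
structure StopSStep {A : Type*} [CStarAlgebra A] [PartialOrder A] [StarOrderedRing A]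
    (r v f g : A) (R : ℝ) : Prop where
  fp : IsStarProjection f
  gp : IsStarProjection g
  fg : f * g = 0
  gf : g * f = 0
  rf : r * f = f
  fr : f * r = f
  rg : r * g = g
  gr : g * r = g
  fb : R • f ≤ f * v * f
  gb : g * v * g ≤ -(R • g)
  sp : IsStarProjection (r - f - g)
  sle : (r - f - g) * v * (r - f - g) ≤ R • (r - f - g)
  sge : -(R • (r - f - g)) ≤ (r - f - g) * v * (r - f - g)
  split : v = (r - f - g) * v * (r - f - g) + f * v * f + g * v * g

namespace TF

variable {A : Type*} [CStarAlgebra A] [PartialOrder A] [StarOrderedRing A] (T : TF A)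

/-- A star projection `p` with `R p ≤ p v p` and `R p ≤ p (-v) p` vanishes. -/
theorem stopS_aux_zero {p v : A} {R : ℝ} (hR : 0 < R) (hp : IsStarProjection p)
    (h1 : R • p ≤ p * v * p) (h2 : R • p ≤ p * (-v) * p) : p = 0 := by
  have h3 : R • p + R • p ≤ 0 := by
    have h := add_le_add h1 h2
    have e : p * v * p + p * (-v) * p = 0 := by
      rw [mul_neg, neg_mul, add_neg_cancel]
    rwa [e] at h
  rw [← add_smul] at h3
  have hRR : 0 < R + R := by linarith
  have h4 : p ≤ 0 := by
    have := smul_le_smul_of_nonneg_left h3 (inv_nonneg.mpr hRR.le)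
    rwa [smul_smul, inv_mul_cancel₀ hRR.ne', one_smul, smul_zero] at this
  exact le_antisymm h4 hp.nonneg

theorem stopS_aux_step {n : ℕ} {r v : A} {R : ℝ} (hR : 0 < R) (hr : IsStarProjection r)
    (hv : v ∈ T.F n) (hs : IsSelfAdjoint v) (h0 : (1 - r) * v = 0) (h0' : v * (1 - r) = 0) :
    StopSStep r v (T.sp n v R) (T.sp n (-v) R) R := by
  have hf := T.sp_spec hv hs R
  have hg := T.sp_spec (neg_mem hv) hs.neg R
  have hfp := hf.2.1
  have hgp := hg.2.1
  have hfb := hf.2.2.2.1
  have hgb := hg.2.2.2.1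
  have hfc := hf.2.2.2.2
  have hgc := hg.2.2.2.2
  have hcr : Commute (1 - r) v := by rw [Commute, SemiconjBy, h0, h0']
  have hcf : Commute (1 - r) (T.sp n v R) := hf.2.2.1 _ hcr
  have hcg : Commute (1 - r) (T.sp n (-v) R) := hg.2.2.1 _ hcr.neg_right
  have hfv : Commute v (T.sp n v R) := hf.2.2.1 _ (Commute.refl _)
  have hgv : Commute v (T.sp n (-v) R) := hg.2.2.1 _ (Commute.refl v).neg_right
  have hfg : Commute (T.sp n v R) (T.sp n (-v) R) := hg.2.2.1 _ hfv.symm.neg_right
  have rf := sp_below hR hr hfp hcf h0 hfb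
  have rg := sp_below hR hr hgp hcg (by rw [mul_neg, h0, neg_zero]) hgb
  generalize T.sp n v R = f at *
  generalize T.sp n (-v) R = g at *
  have fr : f * r = f := proj_mul_comm hfp hr rf
  have gr : g * r = g := proj_mul_comm hgp hr rg
  have iff' : f * f = f := hfp.isIdempotentElem.eq
  have igg : g * g = g := hgp.isIdempotentElem.eq
  have hpp : IsStarProjection (f * g) := by
    refine ⟨?_, ?_⟩
    · show f * g * (f * g) = f * g
      calc f * g * (f * g) = f * (g * f) * g := by simp only [mul_assoc]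
        _ = f * (f * g) * g := by rw [hfg.eq]
        _ = (f * f) * (g * g) := by simp only [mul_assoc]
        _ = f * g := by rw [iff', igg]
    · show star (f * g) = f * g
      rw [star_mul, hgp.isSelfAdjoint.star_eq, hfp.isSelfAdjoint.star_eq, hfg.eq]
  have fg : f * g = 0 := by
    refine stopS_aux_zero (v := v) hR hpp ?_ ?_
    · have h := proj_conj_mono hpp hfb
      have e1 : f * g * (R • f) * (f * g) = R • (f * g) := by
        rw [mul_smul_comm, smul_mul_assoc]
        congr 1
        calc f * g * f * (f * g) = f * (g * f) * (f * g) := by simp only [mul_assoc]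
          _ = f * (f * g) * (f * g) := by rw [hfg.eq]
          _ = (f * f) * g * (f * g) := by simp only [mul_assoc]
          _ = f * g * (f * g) := by rw [iff']
          _ = f * g := hpp.isIdempotentElem.eq
      have e2 : f * g * (f * v * f) * (f * g) = f * g * v * (f * g) := by
        calc f * g * (f * v * f) * (f * g) = f * (g * f) * v * ((f * f) * g) := by
              simp only [mul_assoc]
          _ = f * (f * g) * v * (f * g) := by rw [← hfg.eq, iff']
          _ = (f * f) * g * v * (f * g) := by simp only [mul_assoc]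
          _ = f * g * v * (f * g) := by rw [iff']
      rwa [e1, e2] at h
    · have h := proj_conj_mono hpp hgb
      have e1 : f * g * (R • g) * (f * g) = R • (f * g) := by
        rw [mul_smul_comm, smul_mul_assoc]
        congr 1
        calc f * g * g * (f * g) = f * (g * g) * (f * g) := by simp only [mul_assoc]
          _ = f * g * (f * g) := by rw [igg]
          _ = f * g := hpp.isIdempotentElem.eq
      have e2 : f * g * (g * -v * g) * (f * g) = f * g * -v * (f * g) := by
        calc f * g * (g * -v * g) * (f * g) = f * (g * g) * -v * (g * (f * g)) := by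
              simp only [mul_assoc]
          _ = f * g * -v * (g * (g * f)) := by rw [igg, hfg.eq]
          _ = f * g * -v * ((g * g) * f) := by simp only [mul_assoc]
          _ = f * g * -v * (f * g) := by rw [igg, hfg.eq]
      rwa [e1, e2] at h
  have gf : g * f = 0 := by rw [← hfg.eq, fg]
  have irr : r * r = r := hr.isIdempotentElem.eq
  have hss : (r - f - g) * (r - f - g) = r - f - g := by
    simp only [sub_mul, mul_sub, irr, rf, rg, fr, gr, iff', igg, fg, gf]
    abel
  have hsp : IsStarProjection (r - f - g) := by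
    refine ⟨hss, ?_⟩
    exact (hr.isSelfAdjoint.sub hfp.isSelfAdjoint).sub hgp.isSelfAdjoint
  have hgb' : g * v * g ≤ -(R • g) := by
    have h := neg_le_neg hgb
    have e : -(g * -v * g) = g * v * g := by rw [mul_neg, neg_mul, neg_neg]
    rwa [e] at h
  -- `s = (1 - f) s`
  have s1 : (r - f - g) * (1 - f) = r - f - g := by
    simp only [sub_mul, mul_sub, mul_one, rf, iff', gf]
    abel
  have s1' : (1 - f) * (r - f - g) = r - f - g := by
    simp only [sub_mul, mul_sub, one_mul, fr, iff', fg]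
    abel
  have s2 : (r - f - g) * (1 - g) = r - f - g := by
    simp only [sub_mul, mul_sub, mul_one, rg, igg, fg]
    abel
  have s2' : (1 - g) * (r - f - g) = r - f - g := by
    simp only [sub_mul, mul_sub, one_mul, gr, igg, gf]
    abel
  have hle : (r - f - g) * v * (r - f - g) ≤ R • (r - f - g) := by
    have h := proj_conj_mono hsp hfc
    have e1 : (r - f - g) * ((1 - f) * v * (1 - f)) * (r - f - g) =
        (r - f - g) * v * (r - f - g) := by
      calc _ = ((r - f - g) * (1 - f)) * v * ((1 - f) * (r - f - g)) := by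
            simp only [mul_assoc]
        _ = _ := by rw [s1, s1']
    have e2 : (r - f - g) * (R • (1 - f)) * (r - f - g) = R • (r - f - g) := by
      rw [mul_smul_comm, smul_mul_assoc, s1, hss]
    rwa [e1, e2] at h
  have hge : -(R • (r - f - g)) ≤ (r - f - g) * v * (r - f - g) := by
    have h := neg_le_neg (proj_conj_mono hsp hgc)
    have e1 : (r - f - g) * ((1 - g) * -v * (1 - g)) * (r - f - g) =
        -((r - f - g) * v * (r - f - g)) := by
      calc _ = ((r - f - g) * (1 - g)) * -v * ((1 - g) * (r - f - g)) := by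
            simp only [mul_assoc]
        _ = _ := by rw [s2, s2', mul_neg, neg_mul]
    have e2 : (r - f - g) * (R • (1 - g)) * (r - f - g) = R • (r - f - g) := by
      rw [mul_smul_comm, smul_mul_assoc, s2, hss]
    rw [e1, e2, neg_neg] at h
    exact h
  have hsplit : v = (r - f - g) * v * (r - f - g) + f * v * f + g * v * g := by
    have hrv : r * v = v := by
      rw [sub_mul, one_mul, sub_eq_zero] at h0
      exact h0.symm
    have hvr : v * r = v := by
      rw [mul_sub, mul_one, sub_eq_zero] at h0'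
      exact h0'.symm
    have a1 : f * v * f = f * v := by
      rw [mul_assoc, hfv.eq, ← mul_assoc, iff']
    have a2 : g * v * g = g * v := by
      rw [mul_assoc, hgv.eq, ← mul_assoc, igg]
    have a3 : (r - f - g) * v = v - f * v - g * v := by
      rw [sub_mul, sub_mul, hrv]
    have a4 : f * v * g = 0 := by
      rw [mul_assoc, hgv.eq, ← mul_assoc, fg, zero_mul]
    have a5 : g * v * f = 0 := by
      rw [mul_assoc, hfv.eq, ← mul_assoc, gf, zero_mul]
    have a6 : f * v * r = f * v := by rw [mul_assoc, hvr]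
    have a7 : g * v * r = g * v := by rw [mul_assoc, hvr]
    rw [a3]
    simp only [sub_mul, mul_sub, a1, a2, a4, a5, a6, a7, hvr, hfv.eq, hgv.eq]
    abel
  exact ⟨hfp, hgp, fg, gf, rf, fr, rg, gr, hfb, hgb', hsp, hle, hge, hsplit⟩

/-- `L_1` bound of an adapted sequence: `t(c X_k) ≤ B` for all self-adjoint contractions
`c ∈ F k`. -/
def L1B (X : ℕ → A) (B : ℝ) : Prop :=
  ∀ k, ∀ c ∈ T.F k, IsSelfAdjoint c → -(1 : A) ≤ c → c ≤ 1 → T.t (c * X k) ≤ B

/-- two-sided Cuculescu projections. -/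
noncomputable def stopS (X : ℕ → A) (R : ℝ) : ℕ → A
  | 0 => 1 - T.sp 0 (X 0) R - T.sp 0 (-(X 0)) R
  | k + 1 => stopS X R k - T.sp (k + 1) (stopS X R k * X (k + 1) * stopS X R k) R -
      T.sp (k + 1) (-(stopS X R k * X (k + 1) * stopS X R k)) R

/-- jump projection, positive side. -/
noncomputable def jpos (X : ℕ → A) (R : ℝ) (k : ℕ) : A :=
  T.sp (k + 1) (T.stopS X R k * X (k + 1) * T.stopS X R k) R

/-- jump projection, negative side. -/
noncomputable def jneg (X : ℕ → A) (R : ℝ) (k : ℕ) : A :=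
  T.sp (k + 1) (-(T.stopS X R k * X (k + 1) * T.stopS X R k)) R

variable {T} {X : ℕ → A} {R : ℝ} (hX : ∀ k, X k ∈ T.F k) (hs : ∀ k, IsSelfAdjoint (X k))
  (hR : 0 < R)

include hX hs hR

theorem stopS_aux_start : StopSStep 1 (X 0) (T.sp 0 (X 0) R) (T.sp 0 (-(X 0)) R) R :=
  stopS_aux_step T hR (IsStarProjection.one A) (hX 0) (hs 0) (by simp) (by simp)

theorem stopS_aux_inv (k : ℕ) : IsStarProjection (T.stopS X R k) ∧ T.stopS X R k ∈ T.F k := by
  induction k with
  | zero =>
    have h := stopS_aux_start hX hs hR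
    refine ⟨h.sp, ?_⟩
    exact sub_mem (sub_mem (one_mem _) (T.sp_spec (hX 0) (hs 0) R).1)
      (T.sp_spec (neg_mem (hX 0)) (hs 0).neg R).1
  | succ k ih =>
    have hm : T.stopS X R k ∈ T.F (k + 1) := T.F_le (Nat.le_succ k) ih.2
    have hv : T.stopS X R k * X (k + 1) * T.stopS X R k ∈ T.F (k + 1) :=
      mul_mem (mul_mem hm (hX (k + 1))) hm
    have hsa : IsSelfAdjoint (T.stopS X R k * X (k + 1) * T.stopS X R k) := by
      have := (hs (k + 1)).conjugate (T.stopS X R k)
      rwa [ih.1.isSelfAdjoint.star_eq] at this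
    have h0 : (1 - T.stopS X R k) * (T.stopS X R k * X (k + 1) * T.stopS X R k) = 0 := by
      rw [mul_assoc (T.stopS X R k), ← mul_assoc, ih.1.one_sub_mul_self, zero_mul]
    have h0' : (T.stopS X R k * X (k + 1) * T.stopS X R k) * (1 - T.stopS X R k) = 0 := by
      rw [mul_assoc, ih.1.mul_one_sub_self, mul_zero]
    have h := stopS_aux_step T hR ih.1 hv hsa h0 h0'
    exact ⟨h.sp, sub_mem (sub_mem hm (T.sp_spec hv hsa R).1)
      (T.sp_spec (neg_mem hv) hsa.neg R).1⟩

theorem stopS_aux_succ (k : ℕ) :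
    StopSStep (T.stopS X R k) (T.stopS X R k * X (k + 1) * T.stopS X R k) (T.jpos X R k)
      (T.jneg X R k) R := by
  have ih := stopS_aux_inv hX hs hR k
  have hm : T.stopS X R k ∈ T.F (k + 1) := T.F_le (Nat.le_succ k) ih.2
  have hv : T.stopS X R k * X (k + 1) * T.stopS X R k ∈ T.F (k + 1) :=
    mul_mem (mul_mem hm (hX (k + 1))) hm
  have hsa : IsSelfAdjoint (T.stopS X R k * X (k + 1) * T.stopS X R k) := by
    have := (hs (k + 1)).conjugate (T.stopS X R k)
    rwa [ih.1.isSelfAdjoint.star_eq] at this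
  have h0 : (1 - T.stopS X R k) * (T.stopS X R k * X (k + 1) * T.stopS X R k) = 0 := by
    rw [mul_assoc (T.stopS X R k), ← mul_assoc, ih.1.one_sub_mul_self, zero_mul]
  have h0' : (T.stopS X R k * X (k + 1) * T.stopS X R k) * (1 - T.stopS X R k) = 0 := by
    rw [mul_assoc, ih.1.mul_one_sub_self, mul_zero]
  exact stopS_aux_step T hR ih.1 hv hsa h0 h0'

theorem stopS_aux_vmem (k : ℕ) :
    T.stopS X R k * X (k + 1) * T.stopS X R k ∈ T.F (k + 1) ∧
      IsSelfAdjoint (T.stopS X R k * X (k + 1) * T.stopS X R k) := by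
  have ih := stopS_aux_inv hX hs hR k
  have hm : T.stopS X R k ∈ T.F (k + 1) := T.F_le (Nat.le_succ k) ih.2
  refine ⟨mul_mem (mul_mem hm (hX (k + 1))) hm, ?_⟩
  have := (hs (k + 1)).conjugate (T.stopS X R k)
  rwa [ih.1.isSelfAdjoint.star_eq] at this

theorem stopS_proj (k : ℕ) : IsStarProjection (T.stopS X R k) := by
  exact (stopS_aux_inv hX hs hR k).1

theorem stopS_mem (k : ℕ) : T.stopS X R k ∈ T.F k := by
  exact (stopS_aux_inv hX hs hR k).2

theorem stopS_dec (k : ℕ) : T.stopS X R k * T.stopS X R (k + 1) = T.stopS X R (k + 1) := by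
  have h := stopS_aux_succ hX hs hR k
  show T.stopS X R k * (T.stopS X R k - T.jpos X R k - T.jneg X R k) =
    T.stopS X R k - T.jpos X R k - T.jneg X R k
  rw [mul_sub, mul_sub, h.rf, h.rg, (stopS_proj hX hs hR k).isIdempotentElem.eq]

theorem stopS_aux_dec' (k : ℕ) :
    T.stopS X R (k + 1) * T.stopS X R k = T.stopS X R (k + 1) :=
  proj_mul_comm (stopS_proj hX hs hR (k + 1)) (stopS_proj hX hs hR k) (stopS_dec hX hs hR k)

theorem stopS_aux_conj (k : ℕ) :
    T.stopS X R (k + 1) * (T.stopS X R k * X (k + 1) * T.stopS X R k) * T.stopS X R (k + 1) =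
      T.stopS X R (k + 1) * X (k + 1) * T.stopS X R (k + 1) := by
  calc _ = (T.stopS X R (k + 1) * T.stopS X R k) * X (k + 1) *
        (T.stopS X R k * T.stopS X R (k + 1)) := by simp only [mul_assoc]
    _ = _ := by rw [stopS_dec hX hs hR k, stopS_aux_dec' hX hs hR k]

theorem stopS_le_bound (k : ℕ) :
    T.stopS X R k * X k * T.stopS X R k ≤ R • T.stopS X R k := by
  cases k with
  | zero => exact (stopS_aux_start hX hs hR).sle
  | succ k =>
    rw [← stopS_aux_conj hX hs hR k]
    exact (stopS_aux_succ hX hs hR k).sle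

theorem stopS_ge_bound (k : ℕ) :
    -(R • T.stopS X R k) ≤ T.stopS X R k * X k * T.stopS X R k := by
  cases k with
  | zero => exact (stopS_aux_start hX hs hR).sge
  | succ k =>
    rw [← stopS_aux_conj hX hs hR k]
    exact (stopS_aux_succ hX hs hR k).sge

theorem jpos_proj (k : ℕ) : IsStarProjection (T.jpos X R k) := by
  exact (stopS_aux_succ hX hs hR k).fp

theorem jneg_proj (k : ℕ) : IsStarProjection (T.jneg X R k) := by
  exact (stopS_aux_succ hX hs hR k).gp

theorem jpos_mem (k : ℕ) : T.jpos X R k ∈ T.F (k + 1) := by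
  have h := stopS_aux_vmem hX hs hR k
  exact (T.sp_spec h.1 h.2 R).1

theorem jneg_mem (k : ℕ) : T.jneg X R k ∈ T.F (k + 1) := by
  have h := stopS_aux_vmem hX hs hR k
  exact (T.sp_spec (neg_mem h.1) h.2.neg R).1

theorem jpos_mul_jneg (k : ℕ) : T.jpos X R k * T.jneg X R k = 0 := by
  exact (stopS_aux_succ hX hs hR k).fg

omit hX hs hR in
theorem stopS_succ (k : ℕ) :
    T.stopS X R (k + 1) = T.stopS X R k - T.jpos X R k - T.jneg X R k := rfl

theorem stopS_mul_jpos (k : ℕ) : T.stopS X R k * T.jpos X R k = T.jpos X R k := by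
  exact (stopS_aux_succ hX hs hR k).rf

theorem stopS_mul_jneg (k : ℕ) : T.stopS X R k * T.jneg X R k = T.jneg X R k := by
  exact (stopS_aux_succ hX hs hR k).rg

theorem stopS_aux_conj_pos (k : ℕ) :
    T.jpos X R k * (T.stopS X R k * X (k + 1) * T.stopS X R k) * T.jpos X R k =
      T.jpos X R k * X (k + 1) * T.jpos X R k := by
  have h := stopS_aux_succ hX hs hR k
  calc _ = (T.jpos X R k * T.stopS X R k) * X (k + 1) *
        (T.stopS X R k * T.jpos X R k) := by simp only [mul_assoc]
    _ = _ := by rw [h.rf, h.fr]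

theorem stopS_aux_conj_neg (k : ℕ) :
    T.jneg X R k * (T.stopS X R k * X (k + 1) * T.stopS X R k) * T.jneg X R k =
      T.jneg X R k * X (k + 1) * T.jneg X R k := by
  have h := stopS_aux_succ hX hs hR k
  calc _ = (T.jneg X R k * T.stopS X R k) * X (k + 1) *
        (T.stopS X R k * T.jneg X R k) := by simp only [mul_assoc]
    _ = _ := by rw [h.rg, h.gr]

theorem stopS_split (k : ℕ) :
    T.stopS X R k * X (k + 1) * T.stopS X R k =
      T.stopS X R (k + 1) * X (k + 1) * T.stopS X R (k + 1) +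
      T.jpos X R k * X (k + 1) * T.jpos X R k + T.jneg X R k * X (k + 1) * T.jneg X R k := by
  have h := (stopS_aux_succ hX hs hR k).split
  rw [← stopS_succ, stopS_aux_conj hX hs hR k, stopS_aux_conj_pos hX hs hR k,
    stopS_aux_conj_neg hX hs hR k] at h
  exact h

theorem jpos_bound (k : ℕ) :
    R • T.jpos X R k ≤ T.jpos X R k * X (k + 1) * T.jpos X R k := by
  have h := (stopS_aux_succ hX hs hR k).fb
  rwa [stopS_aux_conj_pos hX hs hR k] at h

theorem jneg_bound (k : ℕ) :
    T.jneg X R k * X (k + 1) * T.jneg X R k ≤ -(R • T.jneg X R k) := by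
  have h := (stopS_aux_succ hX hs hR k).gb
  rwa [stopS_aux_conj_neg hX hs hR k] at h

omit hX hs hR in
/-- `t(g X_k g) = t(g X_N)` for projections `g ∈ F k`, `k ≤ N`. -/
theorem stopS_aux_t (hm : Mart T X) {g : A} (hg : IsStarProjection g) {k N : ℕ} (hk : k ≤ N)
    (hgm : g ∈ T.F k) : T.t (g * X k * g) = T.t (g * X N) := by
  rw [T.t_proj_conj hg, ← hm.E_le hk, T.E_spec k _ _ hgm, T.t_comm]

omit hX hs hR in
theorem stopS_aux_pm (N : ℕ) :
    (∑ k ∈ Finset.range N, T.jpos X R k) + (∑ k ∈ Finset.range N, T.jneg X R k) =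
      T.stopS X R 0 - T.stopS X R N := by
  induction N with
  | zero => simp
  | succ n ih =>
    rw [Finset.sum_range_succ, Finset.sum_range_succ, stopS_succ, add_add_add_comm, ih]
    abel

/-- For a martingale with `L_1` bound `B`:
`∑ (t(g⁺ X g⁺) - t(g⁻ X g⁻)) = t(u X_N)`, `u = ∑ (g⁺ - g⁻) ∈ F N`, `-1 ≤ u ≤ 1`. -/
theorem sum_jumps_le (hm : Mart T X) {B : ℝ} (hB : T.L1B X B) (N : ℕ) :
    ∑ k ∈ Finset.range N, (T.t (T.jpos X R k * X (k + 1) * T.jpos X R k) -
      T.t (T.jneg X R k * X (k + 1) * T.jneg X R k)) ≤ B := by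
  have hP : 0 ≤ ∑ k ∈ Finset.range N, T.jpos X R k :=
    Finset.sum_nonneg fun k _ => (jpos_proj hX hs hR k).nonneg
  have hM : 0 ≤ ∑ k ∈ Finset.range N, T.jneg X R k :=
    Finset.sum_nonneg fun k _ => (jneg_proj hX hs hR k).nonneg
  have hpm := stopS_aux_pm (T := T) (X := X) (R := R) N
  have h1 : (∑ k ∈ Finset.range N, T.jpos X R k) + (∑ k ∈ Finset.range N, T.jneg X R k) ≤ 1 := by
    rw [hpm]
    refine le_trans (sub_le_self _ (stopS_proj hX hs hR N).nonneg) ?_
    exact (stopS_proj hX hs hR 0).le_one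
  have e : ∑ k ∈ Finset.range N, (T.t (T.jpos X R k * X (k + 1) * T.jpos X R k) -
      T.t (T.jneg X R k * X (k + 1) * T.jneg X R k)) =
      T.t (((∑ k ∈ Finset.range N, T.jpos X R k) - ∑ k ∈ Finset.range N, T.jneg X R k) *
        X N) := by
    rw [sub_mul, map_sub, Finset.sum_mul, Finset.sum_mul, map_sum, map_sum,
      ← Finset.sum_sub_distrib]
    refine Finset.sum_congr rfl fun k hk => ?_
    have hk' : k + 1 ≤ N := Finset.mem_range.mp hk
    rw [stopS_aux_t hm (jpos_proj hX hs hR k) hk' (jpos_mem hX hs hR k),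
      stopS_aux_t hm (jneg_proj hX hs hR k) hk' (jneg_mem hX hs hR k)]
  rw [e]
  refine hB N _ ?_ ?_ ?_ ?_
  · exact sub_mem (sum_mem fun k hk => T.F_le (Finset.mem_range.mp hk) (jpos_mem hX hs hR k))
      (sum_mem fun k hk => T.F_le (Finset.mem_range.mp hk) (jneg_mem hX hs hR k))
  · exact hP.isSelfAdjoint.sub hM.isSelfAdjoint
  · refine (neg_le_neg h1).trans ?_
    rw [neg_add', sub_le_sub_iff_right]
    exact (neg_nonpos.2 hP).trans hP
  · refine le_trans ?_ h1
    exact (sub_le_self _ hM).trans (le_add_of_nonneg_right hM)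

/-- `R t(1 - r_N) ≤ t(u X_N) ≤ B` with the time `0` jumps included. -/
theorem stopS_t (hm : Mart T X) {B : ℝ} (hB : T.L1B X B) (N : ℕ) :
    R * T.t (1 - T.stopS X R N) ≤ B := by
  have h0 := stopS_aux_start hX hs hR
  have hf0m : T.sp 0 (X 0) R ∈ T.F 0 := (T.sp_spec (hX 0) (hs 0) R).1
  have hg0m : T.sp 0 (-(X 0)) R ∈ T.F 0 := (T.sp_spec (neg_mem (hX 0)) (hs 0).neg R).1
  have hr0 : T.stopS X R 0 = 1 - T.sp 0 (X 0) R - T.sp 0 (-(X 0)) R := rfl
  generalize T.sp 0 (X 0) R = f at *
  generalize T.sp 0 (-(X 0)) R = g at *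
  have hP : 0 ≤ ∑ k ∈ Finset.range N, T.jpos X R k :=
    Finset.sum_nonneg fun k _ => (jpos_proj hX hs hR k).nonneg
  have hM : 0 ≤ ∑ k ∈ Finset.range N, T.jneg X R k :=
    Finset.sum_nonneg fun k _ => (jneg_proj hX hs hR k).nonneg
  have hP' : 0 ≤ f + ∑ k ∈ Finset.range N, T.jpos X R k := add_nonneg h0.fp.nonneg hP
  have hM' : 0 ≤ g + ∑ k ∈ Finset.range N, T.jneg X R k := add_nonneg h0.gp.nonneg hM
  have hpm := stopS_aux_pm (T := T) (X := X) (R := R) N
  have hpm' : (f + ∑ k ∈ Finset.range N, T.jpos X R k) +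
      (g + ∑ k ∈ Finset.range N, T.jneg X R k) = 1 - T.stopS X R N := by
    rw [add_add_add_comm, hpm, hr0]
    abel
  have h1 : (f + ∑ k ∈ Finset.range N, T.jpos X R k) +
      (g + ∑ k ∈ Finset.range N, T.jneg X R k) ≤ 1 := by
    rw [hpm']
    exact sub_le_self _ (stopS_proj hX hs hR N).nonneg
  have hle : T.t (((f + ∑ k ∈ Finset.range N, T.jpos X R k) -
      (g + ∑ k ∈ Finset.range N, T.jneg X R k)) * X N) ≤ B := by
    refine hB N _ ?_ ?_ ?_ ?_
    · exact sub_mem (add_mem (T.F_le (Nat.zero_le N) hf0m)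
        (sum_mem fun k hk => T.F_le (Finset.mem_range.mp hk) (jpos_mem hX hs hR k)))
        (add_mem (T.F_le (Nat.zero_le N) hg0m)
        (sum_mem fun k hk => T.F_le (Finset.mem_range.mp hk) (jneg_mem hX hs hR k)))
    · exact hP'.isSelfAdjoint.sub hM'.isSelfAdjoint
    · refine (neg_le_neg h1).trans ?_
      rw [neg_add', sub_le_sub_iff_right]
      exact (neg_nonpos.2 hP').trans hP'
    · refine le_trans ?_ h1
      exact (sub_le_self _ hM').trans (le_add_of_nonneg_right hM')
  refine le_trans ?_ hle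
  rw [← hpm', sub_mul, add_mul, add_mul, Finset.sum_mul, Finset.sum_mul]
  simp only [map_sub, map_add, map_sum]
  have a1 : R * T.t f ≤ T.t (f * X N) := by
    rw [← stopS_aux_t hm h0.fp (Nat.zero_le N) hf0m]
    have := T.t_mono h0.fb
    rwa [map_smul, smul_eq_mul] at this
  have a2 : R * T.t g ≤ -T.t (g * X N) := by
    rw [← stopS_aux_t hm h0.gp (Nat.zero_le N) hg0m]
    have := T.t_mono h0.gb
    rw [map_neg, map_smul, smul_eq_mul] at this
    linarith
  have a3 : R * ∑ k ∈ Finset.range N, T.t (T.jpos X R k) ≤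
      ∑ k ∈ Finset.range N, T.t (T.jpos X R k * X N) := by
    rw [Finset.mul_sum]
    refine Finset.sum_le_sum fun k hk => ?_
    rw [← stopS_aux_t hm (jpos_proj hX hs hR k) (Finset.mem_range.mp hk)
      (jpos_mem hX hs hR k)]
    have := T.t_mono (jpos_bound hX hs hR k)
    rwa [map_smul, smul_eq_mul] at this
  have a4 : R * ∑ k ∈ Finset.range N, T.t (T.jneg X R k) ≤
      -∑ k ∈ Finset.range N, T.t (T.jneg X R k * X N) := by
    rw [Finset.mul_sum, ← Finset.sum_neg_distrib]
    refine Finset.sum_le_sum fun k hk => ?_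
    rw [← stopS_aux_t hm (jneg_proj hX hs hR k) (Finset.mem_range.mp hk)
      (jneg_mem hX hs hR k)]
    have := T.t_mono (jneg_bound hX hs hR k)
    rw [map_neg, map_smul, smul_eq_mul] at this
    linarith
  linarith

theorem stopS_aux_ce (hm : Mart T X) (k : ℕ) :
    T.E k (T.stopS X R (k + 1) * X (k + 1) * T.stopS X R (k + 1) +
      T.jpos X R k * X (k + 1) * T.jpos X R k + T.jneg X R k * X (k + 1) * T.jneg X R k) =
      T.stopS X R k * X k * T.stopS X R k := by
  rw [← stopS_split hX hs hR k, T.E_mul_right (stopS_mem hX hs hR k),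
    T.E_mul_left (stopS_mem hX hs hR k), hm.ce k]

theorem stopS_aux_sq (hm : Mart T X) (k : ℕ) :
    T.t ((T.stopS X R (k + 1) * X (k + 1) * T.stopS X R (k + 1) -
          T.stopS X R k * X k * T.stopS X R k) *
        (T.stopS X R (k + 1) * X (k + 1) * T.stopS X R (k + 1) -
          T.stopS X R k * X k * T.stopS X R k)) =
      T.t ((T.stopS X R (k + 1) * X (k + 1) * T.stopS X R (k + 1)) *
        (T.stopS X R (k + 1) * X (k + 1) * T.stopS X R (k + 1))) -
      T.t ((T.stopS X R k * X k * T.stopS X R k) * (T.stopS X R k * X k * T.stopS X R k)) +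
      2 * T.t ((T.jpos X R k * X (k + 1) * T.jpos X R k) * (T.stopS X R k * X k * T.stopS X R k)) +
      2 * T.t ((T.jneg X R k * X (k + 1) * T.jneg X R k) *
        (T.stopS X R k * X k * T.stopS X R k)) := by
  have hce := stopS_aux_ce hX hs hR hm k
  have hmm : T.stopS X R k * X k * T.stopS X R k ∈ T.F k :=
    mul_mem (mul_mem (stopS_mem hX hs hR k) (hX k)) (stopS_mem hX hs hR k)
  have hsp := T.E_spec k (T.stopS X R (k + 1) * X (k + 1) * T.stopS X R (k + 1) +
      T.jpos X R k * X (k + 1) * T.jpos X R k + T.jneg X R k * X (k + 1) * T.jneg X R k)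
      (T.stopS X R k * X k * T.stopS X R k) hmm
  rw [hce] at hsp
  generalize T.stopS X R (k + 1) * X (k + 1) * T.stopS X R (k + 1) = w' at *
  generalize T.stopS X R k * X k * T.stopS X R k = w at *
  generalize T.jpos X R k * X (k + 1) * T.jpos X R k = β at *
  generalize T.jneg X R k * X (k + 1) * T.jneg X R k = γ at *
  have e1 : (w' - w) * (w' - w) = w' * w' - w' * w - w * w' + w * w := by
    noncomm_ring
  rw [e1, map_add, map_sub, map_sub, T.t_comm w w']
  rw [add_mul, add_mul, map_add, map_add] at hsp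
  linarith

/-- `t(w_N²) ≤ R B`. -/
theorem stopS_aux_last {B : ℝ} (hB : T.L1B X B) (N : ℕ) :
    T.t ((T.stopS X R N * X N * T.stopS X R N) * (T.stopS X R N * X N * T.stopS X R N)) ≤
      R * B := by
  have hr := stopS_proj hX hs hR N
  have hrm := stopS_mem hX hs hR N
  have hle := stopS_le_bound hX hs hR N
  have hge := stopS_ge_bound hX hs hR N
  have hwm : T.stopS X R N * X N * T.stopS X R N ∈ T.F N := mul_mem (mul_mem hrm (hX N)) hrm
  have hwsa : IsSelfAdjoint (T.stopS X R N * X N * T.stopS X R N) := by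
    have := (hs N).conjugate (T.stopS X R N)
    rwa [hr.isSelfAdjoint.star_eq] at this
  obtain ⟨f, hf, hfp, hcom, h1, h2⟩ := T.cut N _ hwm hwsa 0
  have hcf : Commute (T.stopS X R N * X N * T.stopS X R N) f := hcom _ (Commute.refl _)
  rw [zero_smul] at h1 h2
  -- `t(c w) ≤ B`
  have hc1 : T.t ((T.stopS X R N * (f - (1 - f)) * T.stopS X R N) * X N) ≤ B := by
    have hc2 : f - (1 - f) ≤ 1 := by
      refine (sub_le_self _ hfp.one_sub.nonneg).trans hfp.le_one
    have hc3 : -(1 : A) ≤ f - (1 - f) := by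
      rw [neg_le_sub_iff_le_add]
      have : 1 - f ≤ 1 := sub_le_self _ hfp.nonneg
      exact this.trans (le_add_of_nonneg_left hfp.nonneg)
    refine hB N _ ?_ ?_ ?_ ?_
    · exact mul_mem (mul_mem hrm (sub_mem hf (sub_mem (one_mem _) hf))) hrm
    · have := (hfp.isSelfAdjoint.sub hfp.one_sub.isSelfAdjoint).conjugate (T.stopS X R N)
      rwa [hr.isSelfAdjoint.star_eq] at this
    · have h := proj_conj_mono hr hc3
      rw [mul_neg, mul_one, neg_mul, hr.isIdempotentElem.eq] at h
      exact (neg_le_neg hr.le_one).trans h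
    · have h := proj_conj_mono hr hc2
      rw [mul_one, hr.isIdempotentElem.eq] at h
      exact h.trans hr.le_one
  have hc4 : T.t ((T.stopS X R N * (f - (1 - f)) * T.stopS X R N) * X N) =
      T.t ((f - (1 - f)) * (T.stopS X R N * X N * T.stopS X R N)) := by
    rw [T.t_comm, ← mul_assoc, ← mul_assoc, T.t_cyc, T.t_comm]
    simp only [mul_assoc]
  rw [hc4] at hc1
  have hle1 : T.stopS X R N * X N * T.stopS X R N ≤ R • (1 : A) :=
    hle.trans (smul_le_smul_of_nonneg_left hr.le_one hR.le)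
  have hge1 : -(T.stopS X R N * X N * T.stopS X R N) ≤ R • (1 : A) := by
    refine (neg_le.2 ?_)
    exact (neg_le_neg (smul_le_smul_of_nonneg_left hr.le_one hR.le)).trans hge
  generalize T.stopS X R N * X N * T.stopS X R N = w at *
  have hff : f * f = f := hfp.isIdempotentElem.eq
  have e1 : f * w * f = f * w := by
    rw [mul_assoc, hcf.eq, ← mul_assoc, hff]
  have e2 : (1 - f) * w * (1 - f) = (1 - f) * w := by
    have hc' : w * (1 - f) = (1 - f) * w := by
      rw [mul_sub, sub_mul, mul_one, one_mul, hcf.eq]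
    rw [mul_assoc, hc', ← mul_assoc, hfp.one_sub.isIdempotentElem.eq]
  rw [e1] at h1
  rw [e2] at h2
  have a1 := T.t_mul_mono hle1 h1
  have a2 := T.t_mul_mono hge1 (neg_nonneg.2 h2)
  have e3 : w * w = w * (f * w) + (-w) * (-((1 - f) * w)) := by
    noncomm_ring
  have e4 : (f - (1 - f)) * w = f * w + -((1 - f) * w) := by
    rw [sub_mul, sub_eq_add_neg]
  rw [e3, map_add]
  rw [e4, map_add] at hc1
  rw [smul_mul_assoc, one_mul, map_smul, smul_eq_mul] at a1 a2
  have a5 := mul_le_mul_of_nonneg_left hc1 hR.le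
  linarith

/-- `∑ t((w_{k+1} - w_k)²) ≤ 3 R B`, `w_k = r_k X_k r_k`, `-R ≤ w_k ≤ R`:
`t((w_{k+1}-w_k)²) = t(w_{k+1}²) - t(w_k²) + 2 t((β⁺_k - β⁻_k) w_k)`, `β⁺ = g⁺ X g⁺`, `β⁻ = -g⁻ X g⁻ ≥ 0`,
`|t(β^± w_k)| ≤ R t(β^±)`, `t(w_N²) ≤ R t(|w_N|) = R t(c w_N) = R t(r c r X_N) ≤ R B` (`c = 2f - 1`, `f` the cut of
`w_N` at `0`). -/
theorem sum_w_sq_le (hm : Mart T X) {B : ℝ} (hB : T.L1B X B) (N : ℕ) :
    ∑ k ∈ Finset.range N, T.t
      ((T.stopS X R (k + 1) * X (k + 1) * T.stopS X R (k + 1) -
          T.stopS X R k * X k * T.stopS X R k) *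
        (T.stopS X R (k + 1) * X (k + 1) * T.stopS X R (k + 1) -
          T.stopS X R k * X k * T.stopS X R k)) ≤ 3 * R * B := by
  have key : ∀ n : ℕ, ∑ k ∈ Finset.range n, T.t
      ((T.stopS X R (k + 1) * X (k + 1) * T.stopS X R (k + 1) -
          T.stopS X R k * X k * T.stopS X R k) *
        (T.stopS X R (k + 1) * X (k + 1) * T.stopS X R (k + 1) -
          T.stopS X R k * X k * T.stopS X R k)) ≤
      T.t ((T.stopS X R n * X n * T.stopS X R n) * (T.stopS X R n * X n * T.stopS X R n)) -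
      T.t ((T.stopS X R 0 * X 0 * T.stopS X R 0) * (T.stopS X R 0 * X 0 * T.stopS X R 0)) +
      2 * R * ∑ k ∈ Finset.range n, (T.t (T.jpos X R k * X (k + 1) * T.jpos X R k) -
        T.t (T.jneg X R k * X (k + 1) * T.jneg X R k)) := by
    intro n
    induction n with
    | zero => simp
    | succ n ih =>
      rw [Finset.sum_range_succ, Finset.sum_range_succ, stopS_aux_sq hX hs hR hm n]
      have hr := stopS_proj hX hs hR n
      have hle1 : T.stopS X R n * X n * T.stopS X R n ≤ R • (1 : A) :=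
        (stopS_le_bound hX hs hR n).trans (smul_le_smul_of_nonneg_left hr.le_one hR.le)
      have hge1 : -(T.stopS X R n * X n * T.stopS X R n) ≤ R • (1 : A) := by
        refine (neg_le.2 ?_)
        exact (neg_le_neg (smul_le_smul_of_nonneg_left hr.le_one hR.le)).trans
          (stopS_ge_bound hX hs hR n)
      have hβ : 0 ≤ T.jpos X R n * X (n + 1) * T.jpos X R n :=
        (smul_nonneg hR.le (jpos_proj hX hs hR n).nonneg).trans (jpos_bound hX hs hR n)
      have hγ : 0 ≤ -(T.jneg X R n * X (n + 1) * T.jneg X R n) := by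
        rw [neg_nonneg]
        exact (jneg_bound hX hs hR n).trans
          (neg_nonpos.2 (smul_nonneg hR.le (jneg_proj hX hs hR n).nonneg))
      have a1 := T.t_mul_mono hle1 hβ
      have a2 := T.t_mul_mono hge1 hγ
      rw [smul_mul_assoc, one_mul, map_smul, smul_eq_mul] at a1 a2
      rw [T.t_comm] at a1
      rw [neg_mul_neg, T.t_comm, map_neg] at a2
      rw [mul_add]
      linarith
  have h1 := key N
  have h2 := stopS_aux_last hX hs hR hB N
  have h3 := mul_le_mul_of_nonneg_left (sum_jumps_le hX hs hR hm hB N) hR.le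
  have hr := stopS_proj hX hs hR 0
  have h4 : 0 ≤ T.t ((T.stopS X R 0 * X 0 * T.stopS X R 0) *
      (T.stopS X R 0 * X 0 * T.stopS X R 0)) := by
    have hsa : star (T.stopS X R 0 * X 0 * T.stopS X R 0) =
        T.stopS X R 0 * X 0 * T.stopS X R 0 := by
      have := (hs 0).conjugate (T.stopS X R 0)
      rw [hr.isSelfAdjoint.star_eq] at this
      exact this.star_eq
    have h := T.t_pos (T.stopS X R 0 * X 0 * T.stopS X R 0)
    rwa [hsa] at h
  linarith

end TF

end GD64
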