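import Pool.Agent.GD64.ProcVV
import Pool.Agent.GD64.ProcFlag
import Pool.Agent.GD64.StopS

/-!
# GD64/FlagsS: flags with a time dependent number of levels (stage 2)

`I` monotone. At time `k` let `G_j` (`1 ≤ j ≤ I k`) be the family of the projections (time `k`)
`stopS (Rm j) (l 2^j) k` and, for `j ≤ i ≤ I k`, `qq (X i) (l 2^j) k`, `zz (X i) (l 2^j) (l 2^i * (l 2^j)) k`, and
the same for `Y`. `e j k` is the meet of all projections of `G_{j'}`, `j ≤ j' ≤ I k`; so `e j k = 1` for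
`j > I k` (empty meet); `e 0 k = 0`.
-/

namespace GD64

/-- The index type: level, and the kind of the projection. -/
abbrev FIx : Type := Σ _ : ℕ, Unit ⊕ ((ℕ ⊕ ℕ) ⊕ (ℕ ⊕ ℕ))

/-- the family of all projections used for the flags, at time `k`. -/
noncomputable def flagFamS {A : Type*} [CStarAlgebra A] [PartialOrder A] [StarOrderedRing A]
    (T : TF A) (l : ℝ) (X Y Rm : ℕ → ℕ → A) (k : ℕ) : FIx → A
  | ⟨j, Sum.inl _⟩ => T.stopS (Rm j) (l * 2 ^ j) k
  | ⟨j, Sum.inr (Sum.inl (Sum.inl i))⟩ => T.qq (X i) (l * 2 ^ j) k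
  | ⟨j, Sum.inr (Sum.inl (Sum.inr i))⟩ => T.zz (X i) (l * 2 ^ j) (l * 2 ^ i * (l * 2 ^ j)) k
  | ⟨j, Sum.inr (Sum.inr (Sum.inl i))⟩ => T.qq (Y i) (l * 2 ^ j) k
  | ⟨j, Sum.inr (Sum.inr (Sum.inr i))⟩ => T.zz (Y i) (l * 2 ^ j) (l * 2 ^ i * (l * 2 ^ j)) k

/-- the index set of the projections used at level `j`. -/
def flagIdxS (J j : ℕ) : Finset FIx :=
  (Finset.Icc j J).sigma fun j' =>
    (Finset.univ : Finset Unit).disjSum
      (((Finset.Icc j' J).disjSum (Finset.Icc j' J)).disjSum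
        ((Finset.Icc j' J).disjSum (Finset.Icc j' J)))

theorem flagIdxS_mono {J J' i j : ℕ} (h : i ≤ j) (hJ : J ≤ J') :
    flagIdxS J j ⊆ flagIdxS J' i := by
  intro x hx
  unfold flagIdxS at hx ⊢
  rw [Finset.mem_sigma] at hx ⊢
  obtain ⟨hx1, hx2⟩ := hx
  have h1 := Finset.mem_Icc.mp hx1
  refine ⟨Finset.mem_Icc.mpr ⟨h.trans h1.1, h1.2.trans hJ⟩, ?_⟩
  have hsub : Finset.Icc x.1 J ⊆ Finset.Icc x.1 J' := Finset.Icc_subset_Icc le_rfl hJ
  exact Finset.disjSum_mono (Finset.Subset.refl _)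
    (Finset.disjSum_mono (Finset.disjSum_mono hsub hsub) (Finset.disjSum_mono hsub hsub)) hx2

theorem flagIdxS_empty {J j : ℕ} (h : J < j) : flagIdxS J j = ∅ := by
  unfold flagIdxS
  rw [Finset.Icc_eq_empty (by omega)]
  rfl

/-- the flags. -/
noncomputable def flagES {A : Type*} [CStarAlgebra A] [PartialOrder A] [StarOrderedRing A]
    (T : TF A) (l : ℝ) (I : ℕ → ℕ) (X Y Rm : ℕ → ℕ → A) (j k : ℕ) : A :=
  if j = 0 then 0 else pinf (flagIdxS (I k) j) (flagFamS T l X Y Rm k)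

section

variable {A : Type*} [CStarAlgebra A] [PartialOrder A] [StarOrderedRing A] {T : TF A}
    {l : ℝ} (hl : 0 < l) {I : ℕ → ℕ} (hI : Monotone I) {X Y Rm : ℕ → ℕ → A}
    (hX : ∀ i, Mart T (X i)) (hY : ∀ i, Mart T (Y i))
    (hX0 : ∀ i k, 0 ≤ X i k) (hY0 : ∀ i k, 0 ≤ Y i k)
    (hRm : ∀ L, Mart T (Rm L)) (hRs : ∀ L k, IsSelfAdjoint (Rm L k))

include hl hX hY hX0 hY0 hRm hRs

theorem flagFamS_proj (k : ℕ) (x : FIx) :
    IsStarProjection (flagFamS T l X Y Rm k x) := by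
  obtain ⟨j, x⟩ := x
  have hj : 0 < l * 2 ^ j := by positivity
  rcases x with x | ((i | i) | (i | i))
  · exact TF.stopS_proj (hRm j).mem (hRs j) hj k
  · exact TF.qq_proj (hX i) (hX0 i) hj k
  · exact TF.zz_proj (hX i) (hX0 i) hj (by positivity) k
  · exact TF.qq_proj (hY i) (hY0 i) hj k
  · exact TF.zz_proj (hY i) (hY0 i) hj (by positivity) k

theorem flagFamS_mem (k : ℕ) (x : FIx) :
    flagFamS T l X Y Rm k x ∈ T.F k := by
  obtain ⟨j, x⟩ := x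
  have hj : 0 < l * 2 ^ j := by positivity
  rcases x with x | ((i | i) | (i | i))
  · exact TF.stopS_mem (hRm j).mem (hRs j) hj k
  · exact TF.qq_mem (hX i) (hX0 i) hj k
  · exact TF.zz_mem (hX i) (hX0 i) hj (by positivity) k
  · exact TF.qq_mem (hY i) (hY0 i) hj k
  · exact TF.zz_mem (hY i) (hY0 i) hj (by positivity) k

theorem flagFamS_dec (k : ℕ) (x : FIx) :
    flagFamS T l X Y Rm k x * flagFamS T l X Y Rm (k + 1) x =
      flagFamS T l X Y Rm (k + 1) x := by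
  obtain ⟨j, x⟩ := x
  have hj : 0 < l * 2 ^ j := by positivity
  rcases x with x | ((i | i) | (i | i))
  · exact TF.stopS_dec (hRm j).mem (hRs j) hj k
  · exact TF.qq_dec (hX i) (hX0 i) hj k
  · exact TF.zz_dec (hX i) (hX0 i) hj (by positivity) k
  · exact TF.qq_dec (hY i) (hY0 i) hj k
  · exact TF.zz_dec (hY i) (hY0 i) hj (by positivity) k

theorem flagES_isInf {j : ℕ} (hj : 1 ≤ j) (k : ℕ) :
    IsInf (flagIdxS (I k) j) (flagFamS T l X Y Rm k) (flagES T l I X Y Rm j k) := by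
  unfold flagES
  rw [if_neg (by omega)]
  exact T.pinf_isInf k _ _ (fun x _ => flagFamS_proj hl hX hY hX0 hY0 hRm hRs k x)
    (fun x _ => flagFamS_mem hl hX hY hX0 hY0 hRm hRs k x)

include hI in
theorem flagES_sys : FlagSys T (flagES T l I X Y Rm) where
  proj := by
    intro j k
    rcases Nat.eq_zero_or_pos j with rfl | hj
    · simp only [flagES, if_true]
      exact IsStarProjection.zero A
    · exact (flagES_isInf hl hX hY hX0 hY0 hRm hRs hj k).1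
  mem := by
    intro j k
    rcases Nat.eq_zero_or_pos j with rfl | hj
    · simp only [flagES, if_true]
      exact zero_mem _
    · unfold flagES
      rw [if_neg (by omega)]
      exact T.pinf_mem k _ _ (fun x _ => flagFamS_proj hl hX hY hX0 hY0 hRm hRs k x)
        (fun x _ => flagFamS_mem hl hX hY hX0 hY0 hRm hRs k x)
  dec := by
    intro j k
    rcases Nat.eq_zero_or_pos j with rfl | hj
    · simp [flagES]
    · have h1 := flagES_isInf (I := I) hl hX hY hX0 hY0 hRm hRs hj k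
      have h2 := flagES_isInf (I := I) hl hX hY hX0 hY0 hRm hRs hj (k + 1)
      refine h1.2.2 _ h2.1 fun x hx => ?_
      have h3 := h2.2.1 x (flagIdxS_mono le_rfl (hI (Nat.le_succ k)) hx)
      rw [← h3, ← mul_assoc, flagFamS_dec hl hX hY hX0 hY0 hRm hRs k x]
  inc := by
    intro j k
    rcases Nat.eq_zero_or_pos j with rfl | hj
    · simp [flagES]
    · have h1 := flagES_isInf (I := I) hl hX hY hX0 hY0 hRm hRs hj k
      have h2 := flagES_isInf (I := I) hl hX hY hX0 hY0 hRm hRs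
        (Nat.succ_le_succ (Nat.zero_le j)) k
      refine h2.2.2 _ h1.1 fun x hx => ?_
      exact h1.2.1 x (flagIdxS_mono (Nat.le_succ j) le_rfl hx)
  zero := by
    intro k
    simp [flagES]

theorem flagES_one {j k : ℕ} (h : I k < j) : flagES T l I X Y Rm j k = 1 := by
  have h1 := flagES_isInf (I := I) hl hX hY hX0 hY0 hRm hRs (by omega : 1 ≤ j) k
  rw [flagIdxS_empty h] at h1
  have h2 := h1.2.2 1 (IsStarProjection.one A) (by simp)
  rwa [mul_one] at h2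

end

theorem TF.flagsS {A : Type*} [CStarAlgebra A] [PartialOrder A] [StarOrderedRing A] (T : TF A)
    {l : ℝ} (hl : 0 < l) {I : ℕ → ℕ} (hI : Monotone I) (X Y : ℕ → ℕ → A)
    (hX : ∀ i, Mart T (X i)) (hY : ∀ i, Mart T (Y i))
    (hX0 : ∀ i k, 0 ≤ X i k) (hX1 : ∀ i k, X i k ≤ (l * 2 ^ i) • (1 : A))
    (hY0 : ∀ i k, 0 ≤ Y i k) (hY1 : ∀ i k, Y i k ≤ (l * 2 ^ i) • (1 : A))
    (Rm : ℕ → ℕ → A) (hRm : ∀ L, Mart T (Rm L)) (hRs : ∀ L k, IsSelfAdjoint (Rm L k))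
    (B : ℕ → ℝ) (hB : ∀ L, T.L1B (Rm L) (B L)) :
    ∃ e : ℕ → ℕ → A, FlagSys T e ∧ (∀ j k, I k < j → e j k = 1) ∧
      (∀ L k, 1 ≤ L → L ≤ I k → T.stopS (Rm L) (l * 2 ^ L) k * e L k = e L k) ∧
      (∀ i j k, 1 ≤ j → j ≤ i → i ≤ I k → T.qq (X i) (l * 2 ^ j) k * e j k = e j k) ∧
      (∀ i j k, 1 ≤ j → j ≤ i → i ≤ I k →
        T.zz (X i) (l * 2 ^ j) (l * 2 ^ i * (l * 2 ^ j)) k * e j k = e j k) ∧
      (∀ i j k, 1 ≤ j → j ≤ i → i ≤ I k → T.qq (Y i) (l * 2 ^ j) k * e j k = e j k) ∧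
      (∀ i j k, 1 ≤ j → j ≤ i → i ≤ I k →
        T.zz (Y i) (l * 2 ^ j) (l * 2 ^ i * (l * 2 ^ j)) k * e j k = e j k) ∧
      (∀ j, 1 ≤ j → ∀ N, T.t (1 - e j N) ≤ ∑ j' ∈ Finset.Icc j (I N),
        (B j' / (l * 2 ^ j') +
          2 * ∑ i ∈ Finset.Icc j' (I N), (T.t (X i 0) + T.t (Y i 0)) / (l * 2 ^ j'))) := by
  refine ⟨flagES T l I X Y Rm, flagES_sys hl hI hX hY hX0 hY0 hRm hRs,
    fun j k h => flagES_one hl hX hY hX0 hY0 hRm hRs h, ?_, ?_, ?_, ?_, ?_, ?_⟩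
  · intro L k hL hLI
    have hmem : (⟨L, Sum.inl ()⟩ : FIx) ∈ flagIdxS (I k) L := by
      unfold flagIdxS
      rw [Finset.mem_sigma]
      exact ⟨Finset.mem_Icc.mpr ⟨le_rfl, hLI⟩, by simp⟩
    exact (flagES_isInf (I := I) hl hX hY hX0 hY0 hRm hRs hL k).2.1 _ hmem
  · intro i j k hj hji hiI
    have hmem : (⟨j, Sum.inr (Sum.inl (Sum.inl i))⟩ : FIx) ∈ flagIdxS (I k) j := by
      unfold flagIdxS
      rw [Finset.mem_sigma]
      refine ⟨Finset.mem_Icc.mpr ⟨le_rfl, hji.trans hiI⟩, ?_⟩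
      simp only [Finset.inr_mem_disjSum, Finset.inl_mem_disjSum, Finset.mem_Icc]
      exact ⟨hji, hiI⟩
    exact (flagES_isInf (I := I) hl hX hY hX0 hY0 hRm hRs hj k).2.1 _ hmem
  · intro i j k hj hji hiI
    have hmem : (⟨j, Sum.inr (Sum.inl (Sum.inr i))⟩ : FIx) ∈ flagIdxS (I k) j := by
      unfold flagIdxS
      rw [Finset.mem_sigma]
      refine ⟨Finset.mem_Icc.mpr ⟨le_rfl, hji.trans hiI⟩, ?_⟩
      simp only [Finset.inr_mem_disjSum, Finset.inl_mem_disjSum, Finset.mem_Icc]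
      exact ⟨hji, hiI⟩
    exact (flagES_isInf (I := I) hl hX hY hX0 hY0 hRm hRs hj k).2.1 _ hmem
  · intro i j k hj hji hiI
    have hmem : (⟨j, Sum.inr (Sum.inr (Sum.inl i))⟩ : FIx) ∈ flagIdxS (I k) j := by
      unfold flagIdxS
      rw [Finset.mem_sigma]
      refine ⟨Finset.mem_Icc.mpr ⟨le_rfl, hji.trans hiI⟩, ?_⟩
      simp only [Finset.inr_mem_disjSum, Finset.inl_mem_disjSum, Finset.mem_Icc]
      exact ⟨hji, hiI⟩
    exact (flagES_isInf (I := I) hl hX hY hX0 hY0 hRm hRs hj k).2.1 _ hmem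
  · intro i j k hj hji hiI
    have hmem : (⟨j, Sum.inr (Sum.inr (Sum.inr i))⟩ : FIx) ∈ flagIdxS (I k) j := by
      unfold flagIdxS
      rw [Finset.mem_sigma]
      refine ⟨Finset.mem_Icc.mpr ⟨le_rfl, hji.trans hiI⟩, ?_⟩
      simp only [Finset.inr_mem_disjSum, Finset.mem_Icc]
      exact ⟨hji, hiI⟩
    exact (flagES_isInf (I := I) hl hX hY hX0 hY0 hRm hRs hj k).2.1 _ hmem
  · intro j hj N
    have hle : T.t (1 - flagES T l I X Y Rm j N) ≤
        ∑ x ∈ flagIdxS (I N) j, T.t (1 - flagFamS T l X Y Rm N x) := by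
      unfold flagES
      rw [if_neg (by omega)]
      exact T.pinf_t_le N _ _ (fun x _ => flagFamS_proj hl hX hY hX0 hY0 hRm hRs N x)
        (fun x _ => flagFamS_mem hl hX hY hX0 hY0 hRm hRs N x)
    refine hle.trans ?_
    unfold flagIdxS
    rw [Finset.sum_sigma]
    refine Finset.sum_le_sum fun j' _ => ?_
    rw [Finset.sum_disjSum, Finset.sum_disjSum, Finset.sum_disjSum, Finset.sum_disjSum]
    have hj' : 0 < l * 2 ^ j' := by positivity
    have e1 : ∑ x : Unit, T.t (1 - flagFamS T l X Y Rm N ⟨j', Sum.inl x⟩) ≤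
        B j' / (l * 2 ^ j') := by
      rw [Fintype.sum_unique, le_div_iff₀ hj', mul_comm]
      exact TF.stopS_t (hRm j').mem (hRs j') hj' (hRm j') (hB j') N
    have e2 : ∑ i ∈ Finset.Icc j' (I N),
        T.t (1 - flagFamS T l X Y Rm N ⟨j', Sum.inr (Sum.inl (Sum.inl i))⟩) ≤
        ∑ i ∈ Finset.Icc j' (I N), T.t (X i 0) / (l * 2 ^ j') :=
      Finset.sum_le_sum fun i _ => TF.t_qq_le (hX i) (hX0 i) hj' N
    have e3 : ∑ i ∈ Finset.Icc j' (I N),
        T.t (1 - flagFamS T l X Y Rm N ⟨j', Sum.inr (Sum.inl (Sum.inr i))⟩) ≤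
        ∑ i ∈ Finset.Icc j' (I N), T.t (X i 0) / (l * 2 ^ j') :=
      Finset.sum_le_sum fun i _ => TF.t_zz_le (hX i) (hX0 i) (by positivity) (hX1 i) hj' N
    have e4 : ∑ i ∈ Finset.Icc j' (I N),
        T.t (1 - flagFamS T l X Y Rm N ⟨j', Sum.inr (Sum.inr (Sum.inl i))⟩) ≤
        ∑ i ∈ Finset.Icc j' (I N), T.t (Y i 0) / (l * 2 ^ j') :=
      Finset.sum_le_sum fun i _ => TF.t_qq_le (hY i) (hY0 i) hj' N
    have e5 : ∑ i ∈ Finset.Icc j' (I N),
        T.t (1 - flagFamS T l X Y Rm N ⟨j', Sum.inr (Sum.inr (Sum.inr i))⟩) ≤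
        ∑ i ∈ Finset.Icc j' (I N), T.t (Y i 0) / (l * 2 ^ j') :=
      Finset.sum_le_sum fun i _ => TF.t_zz_le (hY i) (hY0 i) (by positivity) (hY1 i) hj' N
    have e6 : ∑ i ∈ Finset.Icc j' (I N), (T.t (X i 0) + T.t (Y i 0)) / (l * 2 ^ j') =
        ∑ i ∈ Finset.Icc j' (I N), T.t (X i 0) / (l * 2 ^ j') +
        ∑ i ∈ Finset.Icc j' (I N), T.t (Y i 0) / (l * 2 ^ j') := by
      rw [← Finset.sum_add_distrib]
      exact Finset.sum_congr rfl fun i _ => add_div _ _ _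
    rw [e6]
    linarith

end GD64
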