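import Mathlib

/-!
# Noncommutative martingales over semifinite von Neumann algebras: definitions

Everything is stated with bounded operators on a Hilbert space `H`. An operator `x` of `L_1(M)` is
represented by the functional `b ↦ τ(x b)` on `M`.
-/

namespace Gundy

open scoped InnerProductSpace ENNReal

universe u

/-- Orlicz functions: continuous, nondecreasing, convex on `[0,∞)`, `Φ(0) = 0`, `Φ(s) → ∞`. -/
structure IsOrlicz (Φ : ℝ → ℝ) : Prop where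
  cont : ContinuousOn Φ (Set.Ici 0)
  mono : MonotoneOn Φ (Set.Ici 0)
  conv : ConvexOn ℝ (Set.Ici 0) Φ
  zero : Φ 0 = 0
  lim : Filter.Tendsto Φ Filter.atTop Filter.atTop

/-- The Delta_2 condition. -/
def DeltaTwo (Φ : ℝ → ℝ) : Prop := ∃ K : ℝ, ∀ s : ℝ, 0 < s → Φ (2 * s) ≤ K * Φ s

/-- Differences `dy_0 = y_0`, `dy_k = y_k - y_(k-1)` of a sequence of functionals. -/
def dif {X : Type u} (y : ℕ → X → ℂ) (k : ℕ) (b : X) : ℂ :=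
  if k = 0 then y 0 b else y k b - y (k - 1) b

variable {H : Type u} [NormedAddCommGroup H] [InnerProductSpace ℂ H] [CompleteSpace H]

/-- `∑ ⟨ξ_i, a ξ_i⟩ ∈ [0,∞]`, for positive operators `a`. -/
noncomputable def wt {ι : Type u} (ξ : ι → H) (a : H →L[ℂ] H) : ℝ≥0∞ :=
  ∑' i, ENNReal.ofReal (Complex.re ⟪ξ i, a (ξ i)⟫_ℂ)

/-- The weight `wt ξ` is semifinite on `N`. -/
def Semifin {ι : Type u} (ξ : ι → H) (N : VonNeumannAlgebra H) : Prop :=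
  ∀ p ∈ N, IsStarProjection p → p ≠ 0 →
    ∃ q ∈ N, IsStarProjection q ∧ p * q = q ∧ q ≠ 0 ∧ wt ξ q < ⊤

/-- A normal semifinite faithful trace `τ` on the von Neumann algebra `M`: `τ(a) = ∑ ⟨ξ_i, a ξ_i⟩`
for positive `a` in `M` (every normal weight has this form). -/
structure Trace (M : VonNeumannAlgebra H) where
  ι : Type u
  ξ : ι → H
  tracial : ∀ a ∈ M, wt ξ (star a * a) = wt ξ (a * star a)
  faithful : ∀ a ∈ M, wt ξ (star a * a) = 0 → a = 0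
  semifinite : Semifin ξ M

/-- `τ(a) ∈ [0,∞]` for a positive operator `a` of `M`. -/
noncomputable def Trace.val {M : VonNeumannAlgebra H} (τ : Trace M) (a : H →L[ℂ] H) : ℝ≥0∞ :=
  wt τ.ξ a

/-- `τ(a) = ∑ ⟨ξ_i, a ξ_i⟩` for an operator `a` of `M` of finite trace. -/
noncomputable def Trace.tr {M : VonNeumannAlgebra H} (τ : Trace M) (a : H →L[ℂ] H) : ℂ :=
  ∑' i, ⟪τ.ξ i, a (τ.ξ i)⟫_ℂ

/-- `E` is a trace preserving conditional expectation from `M` onto `N`. -/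
structure IsCondExp {M : VonNeumannAlgebra H} (τ : Trace M) (N : VonNeumannAlgebra H)
    (E : (H →L[ℂ] H) → (H →L[ℂ] H)) : Prop where
  mem : ∀ a ∈ M, E a ∈ N
  add : ∀ a ∈ M, ∀ b ∈ M, E (a + b) = E a + E b
  smul : ∀ (c : ℂ), ∀ a ∈ M, E (c • a) = c • E a
  one : E 1 = 1
  nonneg : ∀ a ∈ M, 0 ≤ a → 0 ≤ E a
  mod : ∀ a ∈ M, ∀ b ∈ N, ∀ c ∈ N, E (b * a * c) = b * E a * c
  trace : ∀ a ∈ M, 0 ≤ a → τ.val (E a) = τ.val a

/-- A filtration of `(M, τ)`. -/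
structure Filtration {M : VonNeumannAlgebra H} (τ : Trace M) where
  N : ℕ → VonNeumannAlgebra H
  mono : Monotone N
  le : ∀ n, N n ≤ M
  semifinite : ∀ n, Semifin τ.ξ (N n)
  E : ℕ → (H →L[ℂ] H) → (H →L[ℂ] H)
  condExp : ∀ n, IsCondExp τ (N n) (E n)

variable {M : VonNeumannAlgebra H}

/-- `b` is an operator of `M` supported by a projection of finite trace. -/
def IsFin (τ : Trace M) (b : H →L[ℂ] H) : Prop :=
  b ∈ M ∧ ∃ e ∈ M, IsStarProjection e ∧ τ.val e < ⊤ ∧ e * b * e = b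

/-- The function `φ` (restricted to `M`) is `b ↦ τ(x b)` for an operator `x` of `L_1(M)`: it is the
limit, uniformly on the unit ball of `M`, of functionals `b ↦ τ(a b)`, `a` as in `IsFin`.
(`L_1(M)` is the completion of these operators `a` for `‖a‖_1 = sup {|τ(a b)| : ‖b‖ ≤ 1}`.) -/
def IsL1 (τ : Trace M) (φ : (H →L[ℂ] H) → ℂ) : Prop :=
  ∀ ε : ℝ, 0 < ε → ∃ a, IsFin τ a ∧ ∀ b ∈ M, ‖φ b - τ.tr (a * b)‖ ≤ ε * ‖b‖

/-- A martingale `x`: `x_n ∈ L_1(N n)` and `E_n(x_(n+1)) = x_n`, which for functionals is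
`x_(n+1) ∘ E_n = x_n` (and gives `x_n ∘ E_n = x_n`, i.e. `x_n ∈ L_1(N n)`). -/
structure IsMartingale {τ : Trace M} (𝓕 : Filtration τ) (x : ℕ → (H →L[ℂ] H) → ℂ) : Prop where
  l1 : ∀ n, IsL1 τ (x n)
  condExp : ∀ n, ∀ b ∈ M, x (n + 1) (𝓕.E n b) = x n b

/-- `sup_n ‖x_n‖_1 < ∞` (the `L_1`-norm is the norm of the functional on `M`). -/
def IsBounded (M : VonNeumannAlgebra H) (x : ℕ → (H →L[ℂ] H) → ℂ) : Prop :=
  ∃ B : ℝ, ∀ n, ∀ b ∈ M, ‖x n b‖ ≤ B * ‖b‖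

/-- The operator `x` of `L_1(M)` given by `φ` satisfies `x p = a`, `a` a bounded operator. -/
def RightCut (τ : Trace M) (φ : (H →L[ℂ] H) → ℂ) (p a : H →L[ℂ] H) : Prop :=
  a ∈ M ∧ ∀ b, IsFin τ b → φ (p * b) = τ.tr (a * b)

/-- The operator `x` of `L_1(M)` given by `φ` satisfies `p x = a`, `a` a bounded operator. -/
def LeftCut (τ : Trace M) (φ : (H →L[ℂ] H) → ℂ) (p a : H →L[ℂ] H) : Prop :=
  a ∈ M ∧ ∀ b, IsFin τ b → φ (b * p) = τ.tr (a * b)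

/-- `p` is a projection of `M` with `τ(1 - p) ≤ t`. -/
def IsLarge (τ : Trace M) (t : ℝ) (p : H →L[ℂ] H) : Prop :=
  p ∈ M ∧ IsStarProjection p ∧ τ.val (1 - p) ≤ ENNReal.ofReal t

/-- `μ_t` of the column square function `S = (∑_{k ≤ n} |dy_k|²)^{1/2}`, by the formula
`μ_t(S) = inf {r : ‖S p‖ ≤ r for a projection p with τ(1 - p) ≤ t}`. With `a_k = dy_k p`, `‖S p‖ ≤ r`
means `∑ a_k* a_k ≤ r²`. -/
noncomputable def muCol (τ : Trace M) (y : ℕ → (H →L[ℂ] H) → ℂ) (n : ℕ) (t : ℝ) : ℝ≥0∞ :=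
  sInf {s | ∃ (r : ℝ) (p : H →L[ℂ] H) (a : ℕ → (H →L[ℂ] H)), 0 ≤ r ∧ s = ENNReal.ofReal r ∧
    IsLarge τ t p ∧ (∀ k ≤ n, RightCut τ (dif y k) p (a k)) ∧
    ∑ k ∈ Finset.range (n + 1), star (a k) * a k ≤ ((r ^ 2 : ℝ) : ℂ) • (1 : H →L[ℂ] H)}

/-- `μ_t` of the row square function `S = (∑_{k ≤ n} |dz_k*|²)^{1/2}`: now `a_k = p dz_k` and
`‖S p‖ ≤ r` means `∑ a_k a_k* ≤ r²`. -/
noncomputable def muRow (τ : Trace M) (z : ℕ → (H →L[ℂ] H) → ℂ) (n : ℕ) (t : ℝ) : ℝ≥0∞ :=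
  sInf {s | ∃ (r : ℝ) (p : H →L[ℂ] H) (a : ℕ → (H →L[ℂ] H)), 0 ≤ r ∧ s = ENNReal.ofReal r ∧
    IsLarge τ t p ∧ (∀ k ≤ n, LeftCut τ (dif z k) p (a k)) ∧
    ∑ k ∈ Finset.range (n + 1), a k * star (a k) ≤ ((r ^ 2 : ℝ) : ℂ) • (1 : H →L[ℂ] H)}

/-- `Φ(|a|)` for a bounded operator `a`. -/
noncomputable def phiAbs (Φ : ℝ → ℝ) (a : H →L[ℂ] H) : H →L[ℂ] H :=
  cfc (fun r : ℝ => Φ (Real.sqrt r)) (star a * a)

/-- `τ[Φ(|x|)]` for the operator `x` of `L_1(M)` given by `φ`: the supremum of `τ[Φ(|x p|)]` over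
the projections `p` of `M` for which `x p` is bounded. -/
noncomputable def phiMoment (τ : Trace M) (Φ : ℝ → ℝ) (φ : (H →L[ℂ] H) → ℂ) : ℝ≥0∞ :=
  sSup {s | ∃ p a : H →L[ℂ] H, p ∈ M ∧ IsStarProjection p ∧ RightCut τ φ p a ∧
    s = τ.val (phiAbs Φ a)}

/-- `Φ` on `[0,∞]`, `Φ(∞) = ∞`. -/
noncomputable def phiE (Φ : ℝ → ℝ) (s : ℝ≥0∞) : ℝ≥0∞ :=
  if s = ⊤ then ⊤ else ENNReal.ofReal (Φ s.toReal)

/-- `x` has a decomposition `x = y + z` with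
`Φ(μ_t(S^c(y))) + Φ(μ_t(S^r(z))) ≤ (C/t) sup_n τ[Φ(|x_n|)]` for all `t > 0`. -/
def HasDecomposition {τ : Trace M} (𝓕 : Filtration τ) (Φ : ℝ → ℝ) (C : ℝ)
    (x : ℕ → (H →L[ℂ] H) → ℂ) : Prop :=
  ∃ y z : ℕ → (H →L[ℂ] H) → ℂ, IsMartingale 𝓕 y ∧ IsMartingale 𝓕 z ∧
    (∀ n, ∀ b ∈ M, x n b = y n b + z n b) ∧
    ∀ t : ℝ, 0 < t →
      phiE Φ (⨆ n, muCol τ y n t) + phiE Φ (⨆ n, muRow τ z n t) ≤
        ENNReal.ofReal (C / t) * ⨆ n, phiMoment τ Φ (x n)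

end Gundy
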