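import Pool.Agent.GD64.ProcVV

/-!
# GD64/HighW: `L_1` and `L_2` estimates for the stopped positive martingale

`X` a positive martingale, `q = qq X R`, `w_k = q_k X_k q_k`, `f_k = q_k - q_{k+1}`,
`β_k = f_k X_{k+1} f_k ≥ 0`. Then (`stop_split`) `q_k X_{k+1} q_k = w_{k+1} + β_k`,
`E_k(w_{k+1} + β_k) = w_k`, `0 ≤ w_k ≤ R`.
-/

namespace GD64

namespace TF

variable {A : Type*} [CStarAlgebra A] [PartialOrder A] [StarOrderedRing A] (T : TF A)

private theorem highw_ce {X : ℕ → A} (h : Mart T X) (h0 : ∀ k, 0 ≤ X k) {R : ℝ} (hR : 0 < R)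
    (k : ℕ) :
    T.E k (T.qq X R (k + 1) * X (k + 1) * T.qq X R (k + 1) +
      (T.qq X R k - T.qq X R (k + 1)) * X (k + 1) * (T.qq X R k - T.qq X R (k + 1))) =
      T.qq X R k * X k * T.qq X R k := by
  have hs := stop_split (T := T) h.mem (fun k => (h0 k).isSelfAdjoint) hR k
  have hs' : T.qq X R k * X (k + 1) * T.qq X R k =
      T.qq X R (k + 1) * X (k + 1) * T.qq X R (k + 1) +
      (T.qq X R k - T.qq X R (k + 1)) * X (k + 1) * (T.qq X R k - T.qq X R (k + 1)) := hs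
  rw [← hs', T.E_mul_right (qq_mem h h0 hR k), T.E_mul_left (qq_mem h h0 hR k), h.ce k]

private theorem highw_t {X : ℕ → A} (h : Mart T X) (h0 : ∀ k, 0 ≤ X k) {R : ℝ} (hR : 0 < R)
    (k : ℕ) :
    T.t (T.qq X R (k + 1) * X (k + 1) * T.qq X R (k + 1)) +
      T.t ((T.qq X R k - T.qq X R (k + 1)) * X (k + 1) * (T.qq X R k - T.qq X R (k + 1))) =
      T.t (T.qq X R k * X k * T.qq X R k) := by
  rw [← map_add, ← T.t_E k, highw_ce T h h0 hR k]

private theorem highw_tele {X : ℕ → A} (h : Mart T X) (h0 : ∀ k, 0 ≤ X k) {R : ℝ} (hR : 0 < R)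
    (N : ℕ) :
    ∑ k ∈ Finset.range N, T.t ((T.qq X R k - T.qq X R (k + 1)) * X (k + 1) *
      (T.qq X R k - T.qq X R (k + 1))) =
      T.t (T.qq X R 0 * X 0 * T.qq X R 0) - T.t (T.qq X R N * X N * T.qq X R N) := by
  induction N with
  | zero => simp
  | succ n ih =>
    rw [Finset.sum_range_succ, ih]
    have := highw_t T h h0 hR n
    linarith

private theorem highw_fproj {X : ℕ → A} (h : Mart T X) (h0 : ∀ k, 0 ≤ X k) {R : ℝ} (hR : 0 < R)
    (k : ℕ) : IsStarProjection (T.qq X R k - T.qq X R (k + 1)) :=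
  stop_jump_proj (T := T) h.mem (fun k => (h0 k).isSelfAdjoint) hR k

private theorem highw_bound {X : ℕ → A} (h : Mart T X) (h0 : ∀ k, 0 ≤ X k) {R : ℝ} (hR : 0 < R)
    (k : ℕ) : T.qq X R k * X k * T.qq X R k ≤ R • T.qq X R k :=
  stop_bound (T := T) h.mem (fun k => (h0 k).isSelfAdjoint) hR k

/-- `∑ t(β_k) ≤ t(X_0)`: `t(w_{k+1}) + t(β_k) = t(w_k)` telescopes. -/
theorem high_beta {X : ℕ → A} (h : Mart T X) (h0 : ∀ k, 0 ≤ X k) {R : ℝ} (hR : 0 < R)
    (N : ℕ) :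
    ∑ k ∈ Finset.range N, T.t ((T.qq X R k - T.qq X R (k + 1)) * X (k + 1) *
      (T.qq X R k - T.qq X R (k + 1))) ≤ T.t (X 0) := by
  rw [highw_tele T h h0 hR N]
  have h1 : 0 ≤ T.t (T.qq X R N * X N * T.qq X R N) :=
    T.t_nonneg (proj_conj_nonneg (qq_proj h h0 hR N) (h0 N))
  have h2 : T.t (T.qq X R 0 * X 0 * T.qq X R 0) ≤ T.t (X 0) :=
    T.t_proj_conj_le (qq_proj h h0 hR 0) (h0 0)
  linarith

private theorem highw_sq {X : ℕ → A} (h : Mart T X) (h0 : ∀ k, 0 ≤ X k) {R : ℝ} (hR : 0 < R)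
    (k : ℕ) :
    T.t ((T.qq X R (k + 1) * X (k + 1) * T.qq X R (k + 1) - T.qq X R k * X k * T.qq X R k) *
        (T.qq X R (k + 1) * X (k + 1) * T.qq X R (k + 1) -
          T.qq X R k * X k * T.qq X R k)) =
      T.t ((T.qq X R (k + 1) * X (k + 1) * T.qq X R (k + 1)) *
        (T.qq X R (k + 1) * X (k + 1) * T.qq X R (k + 1))) -
      T.t ((T.qq X R k * X k * T.qq X R k) * (T.qq X R k * X k * T.qq X R k)) +
      2 * T.t (((T.qq X R k - T.qq X R (k + 1)) * X (k + 1) *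
        (T.qq X R k - T.qq X R (k + 1))) * (T.qq X R k * X k * T.qq X R k)) := by
  have hce := highw_ce T h h0 hR k
  have hm : T.qq X R k * X k * T.qq X R k ∈ T.F k :=
    mul_mem (mul_mem (qq_mem h h0 hR k) (h.mem k)) (qq_mem h h0 hR k)
  have hsp := T.E_spec k (T.qq X R (k + 1) * X (k + 1) * T.qq X R (k + 1) +
      (T.qq X R k - T.qq X R (k + 1)) * X (k + 1) * (T.qq X R k - T.qq X R (k + 1)))
      (T.qq X R k * X k * T.qq X R k) hm
  rw [hce] at hsp
  generalize T.qq X R (k + 1) * X (k + 1) * T.qq X R (k + 1) = w' at *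
  generalize T.qq X R k * X k * T.qq X R k = w at *
  generalize (T.qq X R k - T.qq X R (k + 1)) * X (k + 1) *
    (T.qq X R k - T.qq X R (k + 1)) = β at *
  have e1 : (w' - w) * (w' - w) = w' * w' - w' * w - w * w' + w * w := by
    noncomm_ring
  rw [e1, map_add, map_sub, map_sub, T.t_comm w w']
  rw [add_mul, map_add] at hsp
  linarith

/-- `∑ t((w_{k+1} - w_k)²) ≤ 3 R t(X_0)`:
`t((w_{k+1}-w_k)²) = t(w_{k+1}²) - t(w_k²) + 2 t(β_k w_k)` since `t(w_{k+1} w_k) = t(E_k(w_{k+1}) w_k)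
= t(w_k²) - t(β_k w_k)`; telescope, `t(w_N²) ≤ R t(w_N) ≤ R t(X_0)`, `t(β_k w_k) ≤ R t(β_k)`. -/
theorem high_w {X : ℕ → A} (h : Mart T X) (h0 : ∀ k, 0 ≤ X k) {R : ℝ} (hR : 0 < R)
    (N : ℕ) :
    ∑ k ∈ Finset.range N, T.t
      ((T.qq X R (k + 1) * X (k + 1) * T.qq X R (k + 1) - T.qq X R k * X k * T.qq X R k) *
        (T.qq X R (k + 1) * X (k + 1) * T.qq X R (k + 1) -
          T.qq X R k * X k * T.qq X R k)) ≤ 3 * R * T.t (X 0) := by
  have key : ∀ n : ℕ, ∑ k ∈ Finset.range n, T.t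
      ((T.qq X R (k + 1) * X (k + 1) * T.qq X R (k + 1) - T.qq X R k * X k * T.qq X R k) *
        (T.qq X R (k + 1) * X (k + 1) * T.qq X R (k + 1) -
          T.qq X R k * X k * T.qq X R k)) ≤
      T.t ((T.qq X R n * X n * T.qq X R n) * (T.qq X R n * X n * T.qq X R n)) -
      T.t ((T.qq X R 0 * X 0 * T.qq X R 0) * (T.qq X R 0 * X 0 * T.qq X R 0)) +
      2 * R * ∑ k ∈ Finset.range n, T.t ((T.qq X R k - T.qq X R (k + 1)) * X (k + 1) *
      (T.qq X R k - T.qq X R (k + 1))) := by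
    intro n
    induction n with
    | zero => simp
    | succ n ih =>
      rw [Finset.sum_range_succ, Finset.sum_range_succ, highw_sq T h h0 hR n]
      have hβ : 0 ≤ (T.qq X R n - T.qq X R (n + 1)) * X (n + 1) *
          (T.qq X R n - T.qq X R (n + 1)) :=
        proj_conj_nonneg (highw_fproj T h h0 hR n) (h0 (n + 1))
      have h1 := T.t_mul_mono (highw_bound T h h0 hR n) hβ
      have h2 : (R • T.qq X R n) * ((T.qq X R n - T.qq X R (n + 1)) * X (n + 1) *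
          (T.qq X R n - T.qq X R (n + 1))) = R • ((T.qq X R n - T.qq X R (n + 1)) * X (n + 1) *
          (T.qq X R n - T.qq X R (n + 1))) := by
        have hq : T.qq X R n * (T.qq X R n - T.qq X R (n + 1)) =
            T.qq X R n - T.qq X R (n + 1) := by
          rw [mul_sub, qq_dec h h0 hR n, (qq_proj h h0 hR n).isIdempotentElem.eq]
        rw [smul_mul_assoc, ← mul_assoc, ← mul_assoc, hq]
      rw [h2, map_smul, smul_eq_mul, T.t_comm] at h1
      rw [mul_add]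
      linarith
  have h1 := key N
  have hw0 : 0 ≤ T.qq X R N * X N * T.qq X R N :=
    proj_conj_nonneg (qq_proj h h0 hR N) (h0 N)
  have h2 := T.t_mul_mono (highw_bound T h h0 hR N) hw0
  have h3 : (R • T.qq X R N) * (T.qq X R N * X N * T.qq X R N) =
      R • (T.qq X R N * X N * T.qq X R N) := by
    rw [smul_mul_assoc, ← mul_assoc, ← mul_assoc, (qq_proj h h0 hR N).isIdempotentElem.eq]
  rw [h3, map_smul, smul_eq_mul] at h2
  have h4 := high_beta T h h0 hR N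
  have h5 := highw_tele T h h0 hR N
  have h6 : T.t (T.qq X R 0 * X 0 * T.qq X R 0) ≤ T.t (X 0) :=
    T.t_proj_conj_le (qq_proj h h0 hR 0) (h0 0)
  have h7 : 0 ≤ ∑ k ∈ Finset.range N, T.t ((T.qq X R k - T.qq X R (k + 1)) * X (k + 1) *
      (T.qq X R k - T.qq X R (k + 1))) :=
    Finset.sum_nonneg fun k _ =>
      T.t_nonneg (proj_conj_nonneg (highw_fproj T h h0 hR k) (h0 (k + 1)))
  have hw00 : 0 ≤ T.qq X R 0 * X 0 * T.qq X R 0 :=
    proj_conj_nonneg (qq_proj h h0 hR 0) (h0 0)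
  have h8 : 0 ≤ T.t ((T.qq X R 0 * X 0 * T.qq X R 0) * (T.qq X R 0 * X 0 * T.qq X R 0)) :=
    T.t_mul_nonneg hw00 hw00
  have h9 : T.t (T.qq X R N * X N * T.qq X R N) ≤ T.t (X 0) := by linarith
  have h10 := mul_le_mul_of_nonneg_left h9 hR.le
  have h11 := mul_le_mul_of_nonneg_left h4 hR.le
  linarith

end TF

end GD64
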