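import Pool.Agent.GD64.WeakT
import Pool.Agent.GD64.HighW
import Pool.Agent.GD64.ProcFlag

/-!
# GD64/High: the high part at level `R`

`X` a positive martingale, `q = qq X R`, `w_k = q_k X_k q_k`, `f_k = q_k - q_{k+1}`,
`β_k = f_k X_{k+1} f_k ≥ 0`. Then (`stop_split`) `q_k X_{k+1} q_k = w_{k+1} + β_k`,
`E_k(w_{k+1} + β_k) = w_k`, `0 ≤ w_k ≤ R`, `q_k d_k q_k = (w_{k+1} - w_k) + β_k`.
-/

namespace GD64

namespace TF

variable {A : Type*} [CStarAlgebra A] [PartialOrder A] [StarOrderedRing A] (T : TF A)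

/-- `t(|e y e|²) ≤ t(y²)` for `y` self-adjoint. -/
theorem high_aux {e y : A} (he : IsStarProjection e) (hy : IsSelfAdjoint y) :
    T.t (star (e * y * e) * (e * y * e)) ≤ T.t (y * y) := by
  have h1 : star (e * y * e) = e * y * e := by
    rw [star_mul, star_mul, he.isSelfAdjoint.star_eq, hy.star_eq, mul_assoc]
  have h2 : e * y * e * (e * y * e) = e * (y * e * y) * e := by
    have := he.isIdempotentElem.eq
    calc e * y * e * (e * y * e) = e * y * (e * e) * y * e := by noncomm_ring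
      _ = e * (y * e * y) * e := by rw [this]; noncomm_ring
  have h3 : y * e * y ≤ y * 1 * y := by
    have h4 : (0 : A) ≤ 1 - e := he.one_sub.nonneg
    have h5 := star_left_conjugate_nonneg h4 y
    rw [hy.star_eq] at h5
    have h6 : y * (1 - e) * y = y * 1 * y - y * e * y := by noncomm_ring
    rw [h6] at h5
    exact sub_nonneg.1 h5
  rw [mul_one] at h3
  rw [h1, h2]
  refine (T.t_mono (proj_conj_mono he h3)).trans (T.t_proj_conj_le he ?_)
  have := star_mul_self_nonneg y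
  rwa [hy.star_eq] at this

/-- The high part. `e_L d_k e_L = e_L (w_{k+1} - w_k) e_L + e_L β_k e_L` (time `k`), `Tr` is linear;
`|Tr X_k|² ≤ 2 |Tr(e_L (w_{k+1}-w_k) e_L)|² + 2 |Tr(e_L β_k e_L)|²`. First: `TS.cotlar_two`. Second: `TF.weakT` with
`ε = 1/R` in `F N` gives `p_k`, `t(1-p_k) ≤ 5 t(β_k)/R`, `t(p_k |Tr(β')|² p_k) ≤ 5 R t(β_k)`. Let
`p0 = pinf` of the `p_k`; `G = ∑ 2|Tr(..)|² + 2 p_k |Tr(β')|² p_k`, `t(G) ≤ 16 R t(X_0)`;
`cheb` at level `R²` gives `p1`; take `p = p0 ∧ p1`: `p (∑ |Tr X_k|²) p ≤ p G p ≤ R² p`,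
`t(1-p) ≤ 5 t(X_0)/R + 16 t(X_0)/R`. -/
theorem high {e : ℕ → ℕ → A} (he : FlagSys T e) {L : ℕ} {R : ℝ} (hR : 0 < R) {X : ℕ → A}
    (h : Mart T X) (h0 : ∀ k, 0 ≤ X k) (hq : ∀ k, T.qq X R k * e L k = e L k) {b : ℕ}
    (hb : b ≤ 1) (N : ℕ) :
    ∃ p ∈ T.F N, IsStarProjection p ∧
      p * (∑ k ∈ Finset.range N,
        star (Tr b (ch e L k) (L + 1) (e L k * dd X k * e L k)) *
          Tr b (ch e L k) (L + 1) (e L k * dd X k * e L k)) * p ≤ (R ^ 2) • (1 : A) ∧
      T.t (1 - p) ≤ 21 * (T.t (X 0) / R) := by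
  classical
  set q : ℕ → A := fun k => T.qq X R k with hqdef
  have hqp : ∀ k, IsStarProjection (q k) := fun k => qq_proj h h0 hR k
  have hqm : ∀ k, q k ∈ T.F k := fun k => qq_mem h h0 hR k
  have hep : ∀ k, IsStarProjection (e L k) := fun k => he.proj L k
  have hem : ∀ k, e L k ∈ T.F k := fun k => he.mem L k
  have hXs : ∀ k, IsSelfAdjoint (X k) := fun k => IsSelfAdjoint.of_nonneg (h0 k)
  set w : ℕ → A := fun k => q (k + 1) * X (k + 1) * q (k + 1) - q k * X k * q k with hw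
  set β : ℕ → A := fun k => (q k - q (k + 1)) * X (k + 1) * (q k - q (k + 1)) with hβ
  have hfp : ∀ k, IsStarProjection (q k - q (k + 1)) := fun k =>
    stop_jump_proj h.mem hXs hR k
  have hβ0 : ∀ k, 0 ≤ β k := fun k => proj_conj_nonneg (hfp k) (h0 _)
  have hβm : ∀ k, β k ∈ T.F (k + 1) := fun k =>
    mul_mem (mul_mem (sub_mem (T.F_le (Nat.le_succ k) (hqm k)) (hqm _)) (h.mem _))
      (sub_mem (T.F_le (Nat.le_succ k) (hqm k)) (hqm _))
  have hconj : ∀ k {x : A}, IsSelfAdjoint x → IsSelfAdjoint (q k * x * q k) := by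
    intro k x hx
    have := hx.conjugate (q k)
    rwa [(hqp k).isSelfAdjoint.star_eq] at this
  have hws : ∀ k, IsSelfAdjoint (w k) := fun k => (hconj _ (hXs _)).sub (hconj _ (hXs _))
  have hwm : ∀ k, w k ∈ T.F (k + 1) := fun k =>
    sub_mem (mul_mem (mul_mem (hqm _) (h.mem _)) (hqm _))
      (T.F_le (Nat.le_succ k) (mul_mem (mul_mem (hqm _) (h.mem _)) (hqm _)))
  have hqe : ∀ k, q k * e L k = e L k := hq
  have heq : ∀ k, e L k * q k = e L k := fun k => proj_mul_comm (hep k) (hqp k) (hqe k)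
  -- decomposition
  have hdec : ∀ k, e L k * dd X k * e L k = e L k * w k * e L k + e L k * β k * e L k := by
    intro k
    have h1 : q k * X (k + 1) * q k = q (k + 1) * X (k + 1) * q (k + 1) + β k :=
      stop_split h.mem hXs hR k
    have h2 : e L k * dd X k * e L k = e L k * (q k * X (k + 1) * q k - q k * X k * q k) *
        e L k := by
      unfold dd
      calc e L k * (X (k + 1) - X k) * e L k =
          (e L k * q k) * (X (k + 1) - X k) * (q k * e L k) := by rw [heq, hqe]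
        _ = _ := by noncomm_ring
    rw [h2, h1, hw]
    noncomm_ring
  set P : ℕ → A := fun k => Tr b (ch e L k) (L + 1) (e L k * w k * e L k) with hP
  set Q : ℕ → A := fun k => Tr b (ch e L k) (L + 1) (e L k * β k * e L k) with hQ
  have hTr : ∀ k, Tr b (ch e L k) (L + 1) (e L k * dd X k * e L k) = P k + Q k := by
    intro k
    rw [hdec, Tr_add]
  have heN : ∀ k ∈ Finset.range N, k + 1 ≤ N := fun k hk => Finset.mem_range.1 hk
  have hPm : ∀ k ∈ Finset.range N, P k ∈ T.F N := fun k hk =>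
    T.F_le (heN k hk) (he.Tr_mem _ _ _ _ (mul_mem (mul_mem (T.F_le (Nat.le_succ k) (hem k))
      (hwm k)) (T.F_le (Nat.le_succ k) (hem k))))
  have hbm : ∀ k ∈ Finset.range N, e L k * β k * e L k ∈ T.F N := fun k hk =>
    T.F_le (heN k hk) (mul_mem (mul_mem (T.F_le (Nat.le_succ k) (hem k))
      (hβm k)) (T.F_le (Nat.le_succ k) (hem k)))
  have hQm : ∀ k ∈ Finset.range N, Q k ∈ T.F N := fun k hk =>
    T.F_le (heN k hk) (he.Tr_mem _ _ _ _ (mul_mem (mul_mem (T.F_le (Nat.le_succ k) (hem k))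
      (hβm k)) (T.F_le (Nat.le_succ k) (hem k))))
  have hb0 : ∀ k, 0 ≤ e L k * β k * e L k := fun k => proj_conj_nonneg (hep k) (hβ0 k)
  have hbt : ∀ k, T.t (e L k * β k * e L k) ≤ T.t (β k) := fun k =>
    T.t_proj_conj_le (hep k) (hβ0 k)
  -- weak type projections
  have hex : ∀ k, ∃ p : A, k ∈ Finset.range N → (p ∈ T.F N ∧ IsStarProjection p ∧
      T.t (1 - p) ≤ 5 * (1 / R) * T.t (e L k * β k * e L k) ∧
      T.t (p * (star (Q k) * Q k) * p) ≤ 5 * (1 / R)⁻¹ * T.t (e L k * β k * e L k)) := by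
    intro k
    by_cases hk : k ∈ Finset.range N
    · obtain ⟨p, h1, h2, h3, h4⟩ := T.weakT (M := N) (he.chain L k)
        (fun j => T.F_le (by have := heN k hk; omega) (he.ch_mem L k j)) (hb0 k) (hbm k hk) hb
        (by positivity : (0 : ℝ) < 1 / R)
      exact ⟨p, fun _ => ⟨h1, h2, h3, h4⟩⟩
    · exact ⟨0, fun h => absurd h hk⟩
  choose p hp using hex
  obtain ⟨p0, hp0m, hp0, hp0t⟩ := T.exists_inf N (Finset.range N) p
    (fun k hk => (hp k hk).2.1) (fun k hk => (hp k hk).1)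
  -- the sum `G`
  set G : A := ∑ k ∈ Finset.range N, ((2 : ℝ) • (star (P k) * P k) +
    (2 : ℝ) • (p k * (star (Q k) * Q k) * p k)) with hG
  have hG0 : 0 ≤ G := by
    refine Finset.sum_nonneg fun k hk => add_nonneg ?_ ?_
    · exact smul_nonneg zero_le_two (star_mul_self_nonneg _)
    · exact smul_nonneg zero_le_two (proj_conj_nonneg (hp k hk).2.1 (star_mul_self_nonneg _))
  have hGm : G ∈ T.F N := by
    refine sum_mem fun k hk => add_mem ?_ ?_
    · exact T.real_smul_mem _ (mul_mem (star_mem (hPm k hk)) (hPm k hk))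
    · exact T.real_smul_mem _ (mul_mem (mul_mem (hp k hk).1 (mul_mem (star_mem (hQm k hk))
        (hQm k hk))) (hp k hk).1)
  have hsb : ∑ k ∈ Finset.range N, T.t (β k) ≤ T.t (X 0) := T.high_beta h h0 hR N
  have hsw : ∑ k ∈ Finset.range N, T.t (w k * w k) ≤ 3 * R * T.t (X 0) := T.high_w h h0 hR N
  have hGt : T.t G ≤ 16 * R * T.t (X 0) := by
    have h1 : T.t G ≤ ∑ k ∈ Finset.range N, (2 * T.t (w k * w k) + 10 * R * T.t (β k)) := by
      rw [hG, T.t_sum]
      refine Finset.sum_le_sum fun k hk => ?_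
      rw [map_add, map_smul, map_smul, smul_eq_mul, smul_eq_mul]
      have h2 : T.t (star (P k) * P k) ≤ T.t (w k * w k) :=
        (TS.cotlar_two T.toTS (he.chain L k) hb _).trans (T.high_aux (hep k) (hws k))
      have h3 := (hp k hk).2.2.2
      rw [one_div, inv_inv] at h3
      have h4 := mul_le_mul_of_nonneg_left (hbt k) (by positivity : 0 ≤ 5 * R)
      linarith
    rw [Finset.sum_add_distrib, ← Finset.mul_sum, ← Finset.mul_sum] at h1
    have h5 := mul_le_mul_of_nonneg_left hsb (by positivity : 0 ≤ 10 * R)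
    linarith
  obtain ⟨p1, hp1m, hp1, -, hp1G, -, hp1t⟩ := T.cheb hG0 hGm (by positivity : 0 < R ^ 2)
  obtain ⟨g, hgm, hg, hg0, hg1, -, hgt⟩ := T.meet N p0 p1 hp0m hp1m hp0.1 hp1
  refine ⟨g, hgm, hg, ?_, ?_⟩
  · have hpg : ∀ k ∈ Finset.range N, p k * g = g := by
      intro k hk
      rw [← hg0, ← mul_assoc, hp0.2.1 k hk]
    have hgp : ∀ k ∈ Finset.range N, g * p k = g := fun k hk =>
      proj_mul_comm hg (hp k hk).2.1 (hpg k hk)
    have hgp1 : g * p1 = g := proj_mul_comm hg hp1 hg1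
    have h1 : (∑ k ∈ Finset.range N,
        star (Tr b (ch e L k) (L + 1) (e L k * dd X k * e L k)) *
          Tr b (ch e L k) (L + 1) (e L k * dd X k * e L k)) ≤
        ∑ k ∈ Finset.range N, ((2 : ℝ) • (star (P k) * P k) +
          (2 : ℝ) • (star (Q k) * Q k)) := by
      refine Finset.sum_le_sum fun k _ => ?_
      rw [hTr]
      exact sq_add_le _ _
    have h2 : g * (∑ k ∈ Finset.range N, ((2 : ℝ) • (star (P k) * P k) +
          (2 : ℝ) • (star (Q k) * Q k))) * g = g * G * g := by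
      rw [hG, Finset.mul_sum, Finset.mul_sum, Finset.sum_mul, Finset.sum_mul]
      refine Finset.sum_congr rfl fun k hk => ?_
      have h3 : g * (p k * (star (Q k) * Q k) * p k) * g = g * (star (Q k) * Q k) * g := by
        calc g * (p k * (star (Q k) * Q k) * p k) * g =
            (g * p k) * (star (Q k) * Q k) * (p k * g) := by noncomm_ring
          _ = _ := by rw [hgp k hk, hpg k hk]
      rw [mul_add, mul_add, add_mul, add_mul, mul_smul_comm, mul_smul_comm, mul_smul_comm,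
        smul_mul_assoc, smul_mul_assoc, smul_mul_assoc, h3]
    have h4 : g * G * g = g * (p1 * G * p1) * g := by
      calc g * G * g = (g * p1) * G * (p1 * g) := by rw [hgp1, hg1]
        _ = _ := by noncomm_ring
    have h5 : g * (p1 * G * p1) * g ≤ g * ((R ^ 2) • p1) * g := proj_conj_mono hg hp1G
    have h6 : g * ((R ^ 2) • p1) * g = (R ^ 2) • g := by
      rw [mul_smul_comm, smul_mul_assoc, hgp1, hg.isIdempotentElem.eq]
    have h7 : (R ^ 2) • g ≤ (R ^ 2) • (1 : A) :=
      smul_le_smul_of_nonneg_left (sub_nonneg.1 hg.one_sub.nonneg) (by positivity)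
    calc _ ≤ g * (∑ k ∈ Finset.range N, ((2 : ℝ) • (star (P k) * P k) +
          (2 : ℝ) • (star (Q k) * Q k))) * g := proj_conj_mono hg h1
      _ = g * (p1 * G * p1) * g := by rw [h2, h4]
      _ ≤ (R ^ 2) • g := h5.trans h6.le
      _ ≤ _ := h7
  · have hx0 : 0 ≤ T.t (X 0) := T.t_nonneg (h0 0)
    have h1 : T.t (1 - p0) ≤ 5 * (T.t (X 0) / R) := by
      refine hp0t.trans ?_
      have h2 : ∑ k ∈ Finset.range N, T.t (1 - p k) ≤ ∑ k ∈ Finset.range N,
          5 / R * T.t (β k) := by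
        refine Finset.sum_le_sum fun k hk => ?_
        have h3 := (hp k hk).2.2.1
        have h4 := mul_le_mul_of_nonneg_left (hbt k) (by positivity : 0 ≤ 5 / R)
        refine h3.trans (le_trans (le_of_eq ?_) h4)
        ring
      rw [← Finset.mul_sum] at h2
      refine h2.trans ((mul_le_mul_of_nonneg_left hsb (by positivity)).trans (le_of_eq ?_))
      ring
    have h2 : T.t (1 - p1) ≤ 16 * (T.t (X 0) / R) := by
      refine hp1t.trans ?_
      rw [div_le_iff₀ (by positivity)]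
      refine hGt.trans (le_of_eq ?_)
      field_simp
    linarith

end TF

end GD64
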