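import Pool.Agent.GD64.StopInc
import Pool.Agent.GD64.Holder

/-!
# GD64/Pot: processes with bounded potential have all moments

Let `v_k ∈ F (k+1)`, `0 ≤ v_k ≤ c 1` (`k < N`) and `E_n(∑_{n ≤ k < N} v_k) ≤ c 1` for all `n`,
`S_n = ∑_{k<n} v_k`. For `R ≥ c` let `r = stop S R`, `g_l = r_l - r_{l+1} ∈ F (l+1)` (`r_0 = 1`). By `split_le`,
`S_N ≤ 2 ∑ r_k v_k r_k + 2 G`, `G = ∑ (1-r_k) v_k (1-r_k)`; the first sum is `≤ (R+c) 1`
(`stop_incr_le`), and
`t(G) = ∑_k t((1-r_k) v_k) = ∑_l t(g_l ∑_{l<k<N} v_k) = ∑_l t(g_l E_{l+1}(∑_{l+1≤k<N} v_k)) ≤ c t(1-r_N)`.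
With `r'` the stopping for `8R`:
`8R t(1-r'_N) ≤ t((1-r'_N) S_N) ≤ 2(R+c) t(1-r'_N) + 2c t(1-r_N)`, so (`R ≥ c`)
`t(1-r'_N) ≤ (c/(2R)) t(1-r_N)`. So with `R_n = 8^n c`, `N(R_n) = t(1 - stop S R_n N)`:
`N(R_0) ≤ t(S_N)/c`, `N(R_{n+1}) ≤ N(R_n)/(2·8^n)`.
Moments: let `f_n` be the cut `1_{(2·8^n c, ∞)}(S_N)`; `t(f_n) ≤ N(R_n)` (`t_le_of_cut`, `S_N ≤ R_n` on `r_N`)
and `S_N^s ≤ ...`: `t(S_N^s) ≤ (2c)^{s-1} t(S_N) + ∑_{n≥0} (16·8^n c)^s t(f_n)` (finite sum: `f_n = 0` for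
large `n` as `S_N ≤ N c`; on `1 - f_0` use `S_N^s ≤ (2c)^{s-1} S_N`, on `f_n - f_{n+1}` use
`S_N ≤ 2·8^{n+1} c`; all projections `f_n` commute with `S_N` and may be taken decreasing, or use
`t(S^s h) ` estimates with the commuting projections `f_n (1 - f_{n+1})`).
-/

namespace GD64

universe u

namespace PotAux

section alg

variable {A : Type*} [CStarAlgebra A] [PartialOrder A] [StarOrderedRing A]

omit [PartialOrder A] [StarOrderedRing A] in
theorem pow_proj {S p : A} (hp : IsStarProjection p) (hc : Commute p S) (n : ℕ) :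
    (p * S * p) ^ (n + 1) = S ^ (n + 1) * p := by
  have h1 : p * S * p = S * p := by rw [hc.eq, mul_assoc, hp.isIdempotentElem.eq]
  rw [h1, hc.symm.mul_pow, hp.pow_succ_eq]

variable (T : TF A)

theorem t_pow_le {S p : A} {ρ : ℝ} (hS : 0 ≤ S) (hp : IsStarProjection p) (hc : Commute p S)
    (hρ : 0 ≤ ρ) (h : p * S * p ≤ ρ • (1 : A)) (n : ℕ) :
    T.t (S ^ (n + 1) * p) ≤ ρ ^ n * T.t (p * S * p) := by
  rw [← pow_proj hp hc n]
  have h1 := T.t_mono (pow_succ_le_smul (proj_conj_nonneg hp hS) hρ h n)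
  rwa [map_smul, smul_eq_mul] at h1

theorem t_pow_le' {S p : A} {ρ : ℝ} (hS : 0 ≤ S) (hp : IsStarProjection p) (hc : Commute p S)
    (hρ : 0 ≤ ρ) (h : p * S * p ≤ ρ • p) (n : ℕ) :
    T.t (S ^ (n + 1) * p) ≤ ρ ^ (n + 1) * T.t p := by
  have hp1 : p ≤ 1 := by
    have := hp.one_sub.nonneg
    rwa [sub_nonneg] at this
  have h' : p * S * p ≤ ρ • (1 : A) := h.trans (smul_le_smul_of_nonneg_left hp1 hρ)
  refine (t_pow_le T hS hp hc hρ h' n).trans ?_
  have h2 := T.t_mono h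
  rw [map_smul, smul_eq_mul] at h2
  calc ρ ^ n * T.t (p * S * p) ≤ ρ ^ n * (ρ * T.t p) :=
        mul_le_mul_of_nonneg_left h2 (pow_nonneg hρ n)
    _ = ρ ^ (n + 1) * T.t p := by ring

theorem pow_nonneg' {S : A} (hS : 0 ≤ S) (n : ℕ) : 0 ≤ S ^ n := by
  induction n with
  | zero => simp
  | succ n ih =>
    rw [pow_succ]
    exact commute_mul_nonneg ih hS (Commute.pow_left (Commute.refl S) n)

/-- one step of the layer decomposition -/
theorem layer {S f g : A} {ρ : ℝ} (hS : 0 ≤ S) (hf : IsStarProjection f)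
    (hg : IsStarProjection g) (hfS : Commute f S) (hgS : Commute g S) (hfg : Commute f g)
    (hρ : 0 ≤ ρ) (h : (1 - g) * S * (1 - g) ≤ ρ • (1 - g)) (n : ℕ) :
    T.t (S ^ (n + 1) * f) ≤ ρ ^ (n + 1) * T.t f + T.t (S ^ (n + 1) * g) := by
  have hg' := hg.one_sub
  have hfg' : Commute f (1 - g) := (Commute.one_right f).sub_right hfg
  have hq : IsStarProjection (f * (1 - g)) := hf.mul hg' hfg'
  have hqS : Commute (f * (1 - g)) S :=
    Commute.mul_left hfS ((Commute.one_left S).sub_left hgS)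
  have hq1 : f * (1 - g) * S * (f * (1 - g)) ≤ ρ • (f * (1 - g)) := by
    have h1 := proj_conj_mono hf h
    have e1 : f * ((1 - g) * S * (1 - g)) * f = f * (1 - g) * S * (f * (1 - g)) := by
      rw [hfg'.eq]
      calc f * ((1 - g) * S * (1 - g)) * f = (f * (1 - g)) * S * ((1 - g) * f) := by
            simp only [mul_assoc]
        _ = _ := by rw [hfg'.eq]
    have e2 : f * (ρ • (1 - g)) * f = ρ • (f * (1 - g)) := by
      rw [mul_smul_comm, smul_mul_assoc]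
      congr 1
      rw [mul_assoc, ← hfg'.eq, ← mul_assoc, hf.isIdempotentElem.eq]
    rwa [e1, e2] at h1
  have h2 := t_pow_le' T hS hq hqS hρ hq1 n
  have h3 : T.t (f * (1 - g)) ≤ T.t f := by
    have := T.t_proj_conj_le hf hg'.nonneg
    have h4 := T.t_mul_mono (sub_le_self (1 : A) hg.nonneg) hf.nonneg
    rw [one_mul] at h4
    rwa [T.t_comm] at h4
  have h5 : S ^ (n + 1) * f = S ^ (n + 1) * (f * (1 - g)) + S ^ (n + 1) * g * f := by
    rw [mul_assoc, ← hfg.eq, ← mul_add, ← mul_add]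
    congr 1
    rw [sub_add_cancel, mul_one]
  have h6 : 0 ≤ S ^ (n + 1) * g := by
    rw [← pow_proj hg hgS n]
    exact pow_nonneg' (proj_conj_nonneg hg hS) _
  have h7 : T.t (S ^ (n + 1) * g * f) ≤ T.t (S ^ (n + 1) * g) := by
    rw [← T.t_proj_conj hf]
    exact T.t_proj_conj_le hf h6
  rw [h5, map_add]
  have h8 : ρ ^ (n + 1) * T.t (f * (1 - g)) ≤ ρ ^ (n + 1) * T.t f :=
    mul_le_mul_of_nonneg_left h3 (pow_nonneg hρ _)
  linarith

/-- the good-lambda step -/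
theorem step {N : ℕ} {v : ℕ → A} {c : ℝ} (hc : 0 < c) (hv : ∀ k, v k ∈ T.F (k + 1))
    (h0 : ∀ k, 0 ≤ v k) (hvc : ∀ k < N, v k ≤ c • (1 : A))
    (hpot : ∀ n ≤ N, T.E n (∑ k ∈ Finset.Ico n N, v k) ≤ c • (1 : A)) {R : ℝ} (hR : c ≤ R) :
    2 * R * T.t (1 - T.stop (fun n => ∑ l ∈ Finset.range n, v l) (8 * R) N) ≤
      c * T.t (1 - T.stop (fun n => ∑ l ∈ Finset.range n, v l) R N) := by
  have hR0 : 0 < R := hc.trans_le hR
  have hR8 : 0 < 8 * R := by positivity
  have hp : ∀ k, IsStarProjection (T.stop (fun n => ∑ l ∈ Finset.range n, v l) R k) :=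
    TF.stop_proj (TF.incr_mem hv) (TF.incr_sa h0) hR0
  have hp8 : ∀ k, IsStarProjection (T.stop (fun n => ∑ l ∈ Finset.range n, v l) (8 * R) k) :=
    TF.stop_proj (TF.incr_mem hv) (TF.incr_sa h0) hR8
  have hg : ∀ k, IsStarProjection (T.stop (fun n => ∑ l ∈ Finset.range n, v l) R k -
      T.stop (fun n => ∑ l ∈ Finset.range n, v l) R (k + 1)) :=
    TF.stop_jump_proj (TF.incr_mem hv) (TF.incr_sa h0) hR0
  have hm : ∀ k, T.stop (fun n => ∑ l ∈ Finset.range n, v l) R k ∈ T.F k :=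
    TF.stop_mem (TF.incr_mem hv) (TF.incr_sa h0) hR0
  have htele := TF.stop_incr_tele (T := T) hv h0 hR0
  have hP := TF.stop_incr_le hv h0 hR0 hc.le N hvc
  have h8 := TF.stop_incr_t hv h0 hR8 N
  set r := fun k => T.stop (fun n => ∑ l ∈ Finset.range n, v l) R k with hr
  set q := 1 - T.stop (fun n => ∑ l ∈ Finset.range n, v l) (8 * R) N with hq
  have hqp : IsStarProjection q := (hp8 N).one_sub
  -- the second part
  have hG0 : ∀ k, 0 ≤ (1 - r k) * v k * (1 - r k) := fun k =>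
    proj_conj_nonneg (hp k).one_sub (h0 k)
  have hS : (∑ l ∈ Finset.range N, v l) ≤
      (2 : ℝ) • (∑ k ∈ Finset.range N, r k * v k * r k) +
      (2 : ℝ) • (∑ k ∈ Finset.range N, (1 - r k) * v k * (1 - r k)) := by
    rw [Finset.smul_sum, Finset.smul_sum, ← Finset.sum_add_distrib]
    exact Finset.sum_le_sum fun k _ => split_le (hp k) (h0 k)
  have hG : T.t (∑ k ∈ Finset.range N, (1 - r k) * v k * (1 - r k)) ≤
      c * T.t (1 - r N) := by
    have e1 : T.t (∑ k ∈ Finset.range N, (1 - r k) * v k * (1 - r k)) =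
        ∑ k ∈ Finset.range N, ∑ l ∈ Finset.range k, T.t (v k * (r l - r (l + 1))) := by
      rw [map_sum]
      refine Finset.sum_congr rfl fun k _ => ?_
      rw [T.t_proj_conj (hp k).one_sub]
      have : 1 - r k = ∑ l ∈ Finset.range k, (r l - r (l + 1)) := (htele k).symm
      rw [this, Finset.mul_sum, map_sum]
    have e2 : (∑ k ∈ Finset.range N, ∑ l ∈ Finset.range k, T.t (v k * (r l - r (l + 1)))) =
        ∑ l ∈ Finset.range N, ∑ k ∈ Finset.Ico (l + 1) N, T.t (v k * (r l - r (l + 1))) := by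
      refine Finset.sum_comm' fun k l => ?_
      simp only [Finset.mem_range, Finset.mem_Ico]
      omega
    have e3 : 1 - r N = ∑ l ∈ Finset.range N, (r l - r (l + 1)) := (htele N).symm
    rw [e1, e2, e3, map_sum, Finset.mul_sum]
    refine Finset.sum_le_sum fun l hl => ?_
    rw [← map_sum, ← Finset.sum_mul]
    have hgm : r l - r (l + 1) ∈ T.F (l + 1) :=
      sub_mem (T.F_le (Nat.le_succ l) (hm l)) (hm (l + 1))
    rw [← T.E_spec (l + 1) _ _ hgm]
    have := T.t_mul_mono (hpot (l + 1) (Finset.mem_range.mp hl)) (hg l).nonneg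
    rwa [smul_mul_assoc, one_mul, map_smul, smul_eq_mul] at this
  -- combine
  have hc1 := T.t_mul_mono hS hqp.nonneg
  rw [add_mul, map_add, smul_mul_assoc, smul_mul_assoc, map_smul, map_smul, smul_eq_mul,
    smul_eq_mul] at hc1
  have hc2 : T.t ((∑ k ∈ Finset.range N, r k * v k * r k) * q) ≤ (R + c) * T.t q := by
    have := T.t_mul_mono hP hqp.nonneg
    rwa [smul_mul_assoc, one_mul, map_smul, smul_eq_mul] at this
  have hc3 : T.t ((∑ k ∈ Finset.range N, (1 - r k) * v k * (1 - r k)) * q) ≤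
      c * T.t (1 - r N) := by
    refine le_trans ?_ hG
    rw [← T.t_proj_conj hqp]
    exact T.t_proj_conj_le hqp (Finset.sum_nonneg fun k _ => hG0 k)
  have hq0 : 0 ≤ T.t q := T.t_nonneg hqp.nonneg
  have hr' : T.t (1 - r N) = T.t (1 - T.stop (fun n => ∑ l ∈ Finset.range n, v l) R N) := rfl
  rw [← hr']
  nlinarith

end alg

/-- the weights -/
noncomputable def b (s n : ℕ) : ℝ := ∏ i ∈ Finset.range n, ((8 : ℝ) ^ s / (2 * 8 ^ i))

theorem b_pos (s n : ℕ) : 0 < b s n := Finset.prod_pos fun i _ => by positivity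

theorem b_succ (s n : ℕ) : b s (n + 1) = b s n * ((8 : ℝ) ^ s / (2 * 8 ^ n)) :=
  Finset.prod_range_succ _ _

theorem b_summable (s : ℕ) : Summable (b s) := by
  refine summable_of_ratio_norm_eventually_le (r := 1 / 2) (by norm_num) ?_
  filter_upwards [Filter.eventually_ge_atTop s] with n hn
  rw [Real.norm_of_nonneg (b_pos s _).le, Real.norm_of_nonneg (b_pos s _).le, b_succ, mul_comm]
  refine mul_le_mul_of_nonneg_right ?_ (b_pos s n).le
  rw [div_le_div_iff₀ (by positivity) (by norm_num)]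
  have : (8 : ℝ) ^ s ≤ 8 ^ n := pow_le_pow_right₀ (by norm_num) hn
  linarith

end PotAux

open PotAux

theorem pot (m : ℕ) : ∃ C : ℝ, 0 < C ∧
    ∀ (A : Type u) [CStarAlgebra A] [PartialOrder A] [StarOrderedRing A] (T : TF A)
      (N : ℕ) (v : ℕ → A) (c : ℝ), 0 < c → (∀ k, v k ∈ T.F (k + 1)) → (∀ k, 0 ≤ v k) →
      (∀ k < N, v k ≤ c • (1 : A)) →
      (∀ n ≤ N, T.E n (∑ k ∈ Finset.Ico n N, v k) ≤ c • (1 : A)) →
      T.t ((∑ k ∈ Finset.range N, v k) ^ (2 ^ (m + 1))) ≤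
        C * c ^ (2 ^ (m + 1) - 1) * T.t (∑ k ∈ Finset.range N, v k) := by
  obtain ⟨j, hj⟩ : ∃ j, 2 ^ (m + 1) = j + 1 :=
    ⟨2 ^ (m + 1) - 1, by have := Nat.one_le_two_pow (n := m + 1); omega⟩
  rw [hj, Nat.add_sub_cancel]
  refine ⟨2 ^ j + 16 ^ (j + 1) * ∑' n, b (j + 1) n, ?_, ?_⟩
  · have : 0 ≤ ∑' n, b (j + 1) n := tsum_nonneg (fun n => (b_pos (j + 1) n).le)
    positivity
  intro A _ _ _ T N v c hc hv h0 hvc hpot
  set S := ∑ k ∈ Finset.range N, v k with hSdef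
  have hS0 : 0 ≤ S := Finset.sum_nonneg fun k _ => h0 k
  have hSm : S ∈ T.F N := TF.incr_mem hv N
  have hSs : IsSelfAdjoint S := IsSelfAdjoint.of_nonneg hS0
  have hSN : S ≤ ((N : ℝ) * c) • (1 : A) := by
    calc S ≤ ∑ k ∈ Finset.range N, c • (1 : A) :=
          Finset.sum_le_sum fun k hk => hvc k (Finset.mem_range.mp hk)
      _ = ((N : ℝ) * c) • (1 : A) := by
          rw [Finset.sum_const, Finset.card_range, mul_smul, Nat.cast_smul_eq_nsmul]
  -- the levels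
  set a : ℕ → ℝ := fun n => T.t (1 - T.stop (fun n => ∑ l ∈ Finset.range n, v l) (8 ^ n * c) N)
    with ha
  have hRn : ∀ n : ℕ, 0 < (8 : ℝ) ^ n * c := fun n => by positivity
  have hRc : ∀ n : ℕ, c ≤ (8 : ℝ) ^ n * c := fun n => by
    have : (1 : ℝ) ≤ 8 ^ n := one_le_pow₀ (by norm_num)
    nlinarith
  have ha0 : a 0 ≤ T.t S / c := by
    have h := TF.stop_incr_t' (T := T) hv h0 (hRn 0) N
    rw [← map_sum] at h
    rw [le_div_iff₀ hc]
    simp only [ha, pow_zero, one_mul] at h ⊢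
    linarith
  have hstep : ∀ n, 2 * 8 ^ n * a (n + 1) ≤ a n := by
    intro n
    have h := step T hc hv h0 hvc hpot (hRc n)
    have e : 8 * ((8 : ℝ) ^ n * c) = 8 ^ (n + 1) * c := by ring
    rw [e] at h
    have h' : c * (2 * 8 ^ n * a (n + 1)) ≤ c * a n := by
      simp only [ha]
      calc _ = 2 * (8 ^ n * c) *
            T.t (1 - T.stop (fun n => ∑ l ∈ Finset.range n, v l) (8 ^ (n + 1) * c) N) := by ring
        _ ≤ _ := h
    exact le_of_mul_le_mul_left h' hc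
  have hab : ∀ n, (8 : ℝ) ^ (n * (j + 1)) * a n ≤ b (j + 1) n * (T.t S / c) := by
    intro n
    induction n with
    | zero => simpa [b] using ha0
    | succ n ih =>
      rw [b_succ]
      have h2 : a (n + 1) ≤ a n / (2 * 8 ^ n) := by
        rw [le_div_iff₀ (by positivity), mul_comm]; exact hstep n
      calc (8 : ℝ) ^ ((n + 1) * (j + 1)) * a (n + 1)
          = 8 ^ (j + 1) * (8 ^ (n * (j + 1)) * a (n + 1)) := by ring
        _ ≤ 8 ^ (j + 1) * (8 ^ (n * (j + 1)) * (a n / (2 * 8 ^ n))) := by gcongr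
        _ = 8 ^ (j + 1) / (2 * 8 ^ n) * (8 ^ (n * (j + 1)) * a n) := by ring
        _ ≤ 8 ^ (j + 1) / (2 * 8 ^ n) * (b (j + 1) n * (T.t S / c)) := by gcongr
        _ = _ := by ring
  -- the spectral projections
  set f : ℕ → A := fun n => T.sp N S (2 * (8 ^ n * c)) with hf
  have hfs : ∀ n, f n ∈ T.F N ∧ IsStarProjection (f n) ∧
    (∀ x : A, Commute x S → Commute x (f n)) ∧
      (2 * (8 ^ n * c)) • f n ≤ f n * S * f n ∧
      (1 - f n) * S * (1 - f n) ≤ (2 * (8 ^ n * c)) • (1 - f n) :=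
    fun n => T.sp_spec hSm hSs _
  have hfS : ∀ n, Commute (f n) S := fun n => ((hfs n).2.2.1 S (Commute.refl S)).symm
  have hff : ∀ n k, Commute (f n) (f k) := fun n k => (hfs k).2.2.1 _ (hfS n)
  have hfa : ∀ n, T.t (f n) ≤ a n := by
    intro n
    have hb := TF.stop_bound (TF.incr_mem hv) (TF.incr_sa h0) (hRn n) N
    exact T.t_le_of_cut (hfs n).2.1
      (TF.stop_proj (TF.incr_mem hv) (TF.incr_sa h0) (hRn n) N) (hfs n).1
      (TF.stop_mem (TF.incr_mem hv) (TF.incr_sa h0) (hRn n) N)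
      (by linarith [hRn n]) (hfs n).2.2.2.1 hb
  -- start
  have hstart : T.t (S ^ (j + 1)) ≤ (2 * c) ^ j * T.t S + T.t (S ^ (j + 1) * f 0) := by
    have hp := (hfs 0).2.1.one_sub
    have hpS : Commute (1 - f 0) S := (Commute.one_left S).sub_left (hfS 0)
    have h1 := (hfs 0).2.2.2.2
    rw [pow_zero, one_mul] at h1
    have hp1 : (1 - f 0) ≤ 1 := sub_le_self _ (hfs 0).2.1.nonneg
    have h2 := t_pow_le T hS0 hp hpS (by positivity : (0 : ℝ) ≤ 2 * c)
      (h1.trans (smul_le_smul_of_nonneg_left hp1 (by positivity))) j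
    have h3 := T.t_proj_conj_le hp hS0
    have h4 : T.t (S ^ (j + 1)) = T.t (S ^ (j + 1) * (1 - f 0)) + T.t (S ^ (j + 1) * f 0) := by
      rw [← map_add, ← mul_add, sub_add_cancel, mul_one]
    rw [h4]
    have h5 : (2 * c) ^ j * T.t ((1 - f 0) * S * (1 - f 0)) ≤ (2 * c) ^ j * T.t S :=
      mul_le_mul_of_nonneg_left h3 (by positivity)
    linarith
  have hlayers : ∀ M, T.t (S ^ (j + 1) * f 0) ≤
      (∑ n ∈ Finset.range M, (2 * (8 ^ (n + 1) * c)) ^ (j + 1) * a n) +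
        T.t (S ^ (j + 1) * f M) := by
    intro M
    induction M with
    | zero => simp
    | succ M ih =>
      rw [Finset.sum_range_succ]
      have h := layer T hS0 (hfs M).2.1 (hfs (M + 1)).2.1 (hfS M) (hfS (M + 1)) (hff M (M + 1))
        (by positivity : (0 : ℝ) ≤ 2 * (8 ^ (M + 1) * c)) (hfs (M + 1)).2.2.2.2 j
      have h2 : (2 * (8 ^ (M + 1) * c)) ^ (j + 1) * T.t (f M) ≤
          (2 * (8 ^ (M + 1) * c)) ^ (j + 1) * a M :=
        mul_le_mul_of_nonneg_left (hfa M) (by positivity)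
      linarith
  -- large `M`
  obtain ⟨M, hM⟩ : ∃ M : ℕ, (N : ℝ) < 8 ^ M := pow_unbounded_of_one_lt _ (by norm_num)
  have hfM : f M = 0 := by
    have h1 := (hfs M).2.2.2.1
    have h2 := proj_conj_mono (hfs M).2.1 hSN
    rw [mul_smul_comm, mul_one, smul_mul_assoc, (hfs M).2.1.isIdempotentElem.eq] at h2
    have h3 := T.t_mono (h1.trans h2)
    rw [map_smul, map_smul, smul_eq_mul, smul_eq_mul] at h3
    have h4 : 0 ≤ T.t (f M) := T.t_nonneg (hfs M).2.1.nonneg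
    refine T.eq_zero_of_t (hfs M).2.1.nonneg (le_antisymm ?_ h4)
    by_contra hcon
    push Not at hcon
    have h5 := le_of_mul_le_mul_right h3 hcon
    have : (8 : ℝ) ^ M * c > N * c := mul_lt_mul_of_pos_right hM hc
    have := hRn M
    linarith
  have hl := hlayers M
  rw [hfM, mul_zero, map_zero, add_zero] at hl
  have hsum : (∑ n ∈ Finset.range M, (2 * ((8 : ℝ) ^ (n + 1) * c)) ^ (j + 1) * a n) ≤
      16 ^ (j + 1) * c ^ j * T.t S * ∑' n, b (j + 1) n := by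
    have htS : 0 ≤ T.t S := T.t_nonneg hS0
    calc (∑ n ∈ Finset.range M, (2 * ((8 : ℝ) ^ (n + 1) * c)) ^ (j + 1) * a n)
        ≤ ∑ n ∈ Finset.range M, 16 ^ (j + 1) * c ^ j * T.t S * b (j + 1) n := by
          refine Finset.sum_le_sum fun n _ => ?_
          calc (2 * ((8 : ℝ) ^ (n + 1) * c)) ^ (j + 1) * a n
              = 16 ^ (j + 1) * c ^ (j + 1) * (8 ^ (n * (j + 1)) * a n) := by
                have : (2 * ((8 : ℝ) ^ (n + 1) * c)) = 16 * c * 8 ^ n := by ring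
                rw [this, mul_pow, mul_pow, ← pow_mul]
                ring
            _ ≤ 16 ^ (j + 1) * c ^ (j + 1) * (b (j + 1) n * (T.t S / c)) :=
                mul_le_mul_of_nonneg_left (hab n) (by positivity)
            _ = 16 ^ (j + 1) * c ^ j * T.t S * b (j + 1) n := by
                rw [pow_succ c j]; field_simp
      _ = 16 ^ (j + 1) * c ^ j * T.t S * ∑ n ∈ Finset.range M, b (j + 1) n := by
          rw [Finset.mul_sum]
      _ ≤ _ := by
          refine mul_le_mul_of_nonneg_left ?_ (by positivity)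
          exact (b_summable (j + 1)).sum_le_tsum _ fun n _ => (b_pos _ n).le
  have hfin : T.t (S ^ (j + 1)) ≤ (2 * c) ^ j * T.t S +
      16 ^ (j + 1) * c ^ j * T.t S * ∑' n, b (j + 1) n := by linarith
  refine hfin.trans (le_of_eq ?_)
  rw [mul_pow]; ring

end GD64
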