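import Pool.Agent.GD64.ProcVV
import Pool.Agent.GD64.ProcFlag
import Pool.Agent.GD64.Col
import Pool.Agent.GD64.Pot

/-!
# GD64/LowTop: moment bound for the conditional squares, top block
-/

namespace GD64

universe u

/-- The potential of the conditional squares of a martingale `0 ≤ X ≤ c` is at most `c²`. -/
theorem cond_sq_pot {A : Type*} [CStarAlgebra A] [PartialOrder A] [StarOrderedRing A]
    {T : TF A} {X : ℕ → A} (hX : Mart T X) {c : ℝ} (hc : 0 ≤ c) (h0 : ∀ k, 0 ≤ X k)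
    (h1 : ∀ k, X k ≤ c • (1 : A)) {n N : ℕ} (hn : n ≤ N) :
    T.E n (∑ k ∈ Finset.Ico n N, T.E k (dd X k * dd X k)) ≤ (c ^ 2) • (1 : A) := by
  have hsq : ∀ k, X k * X k ≤ (c ^ 2) • (1 : A) := by
    intro k
    refine (sq_le_smul (h0 k) (h1 k)).trans ?_
    rw [pow_two, mul_smul]
    exact smul_le_smul_of_nonneg_left (h1 k) hc
  have hsq0 : ∀ k, 0 ≤ X k * X k := by
    intro k
    have := star_mul_self_nonneg (X k)
    rwa [(IsSelfAdjoint.of_nonneg (h0 k)).star_eq] at this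
  have hterm : ∀ k ∈ Finset.Ico n N, T.E n (T.E k (dd X k * dd X k)) =
      T.E n (X (k + 1) * X (k + 1)) - T.E n (X k * X k) := by
    intro k hk
    rw [Finset.mem_Ico] at hk
    rw [hX.E_dd_sq, T.E_sub, T.E_E hk.1]
  rw [T.E_sum, Finset.sum_congr rfl hterm, Finset.sum_Ico_sub (fun k => T.E n (X k * X k)) hn]
  have hXn : T.E n (X n * X n) = X n * X n := T.E_of_mem (mul_mem (hX.mem n) (hX.mem n))
  have h2 : T.E n (X N * X N) ≤ (c ^ 2) • (1 : A) := by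
    have h3 := T.E_mono (n := n) (hsq N)
    rwa [T.E_smul, T.E_one] at h3
  have h4 : 0 ≤ T.E n (X n * X n) := by rw [hXn]; exact hsq0 n
  exact (sub_le_self _ h4).trans h2

/-- Top block: `∑ (1-e_i) E_k(d_k²) (1-e_i)`. `v_k = E_k(d_k²)`: `0 ≤ v_k ≤ Λ²`,
`E_n(∑_{n≤k<N} v_k) = E_n(X_N²) - X_n² ≤ Λ²`; `pot` gives `t((∑ v_k)^s) ≤ C Λ^(2(s-1)) t(∑ v_k)
≤ C Λ^(2s) D`; then `(1-e) v (1-e) ≤ 2 v + 2 e v e` and `TF.col`. -/
theorem lowV_top (m : ℕ) : ∃ C : ℝ, 0 < C ∧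
    ∀ (A : Type u) [CStarAlgebra A] [PartialOrder A] [StarOrderedRing A]
      (T : TF A) (e : ℕ → ℕ → A) (_ : FlagSys T e) (l : ℝ) (_ : 0 < l) (i : ℕ)
      (X : ℕ → A) (_ : Mart T X) (_ : ∀ k, 0 ≤ X k) (_ : ∀ k, X k ≤ (l * 2 ^ i) • (1 : A))
      (D : ℝ) (_ : T.t (X 0) ≤ l * 2 ^ i * D) (N : ℕ),
      T.toTS.N m (∑ k ∈ Finset.range N,
        (1 - e i k) * T.E k (dd X k * dd X k) * (1 - e i k)) ≤
      C * (l * 2 ^ i) ^ 2 * D ^ ((1 : ℝ) / 2 ^ (m + 1)) := by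
  obtain ⟨C, hC, hpot⟩ := pot.{u} m
  refine ⟨(2 + 2 * ((2 : ℝ) ^ (m + 4)) ^ 2) * C ^ ((1 : ℝ) / 2 ^ (m + 1)), by positivity, ?_⟩
  intro A _ _ _ T e he l hl i X hX h0 h1 D hD N
  have hΛ : 0 < l * 2 ^ i := by positivity
  set Λ : ℝ := l * 2 ^ i with hΛdef
  have hD0 : 0 ≤ D := by
    have := T.t_nonneg (h0 0)
    by_contra hneg
    push Not at hneg
    have : Λ * D < 0 := mul_neg_of_pos_of_neg hΛ hneg
    linarith
  set v : ℕ → A := fun k => T.E k (dd X k * dd X k) with hvdef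
  have hd0 : ∀ k, 0 ≤ dd X k * dd X k := by
    intro k
    have := star_mul_self_nonneg (dd X k)
    rwa [(dd_isSelfAdjoint h0 k).star_eq] at this
  have hv0 : ∀ k, 0 ≤ v k := fun k => T.E_nonneg (hd0 k)
  have hvle : ∀ k, v k ≤ (Λ ^ 2) • (1 : A) := by
    intro k
    have h3 := T.E_mono (n := k) (dd_sq_le hΛ.le h0 h1 k)
    rwa [T.E_smul, T.E_one] at h3
  have hvmem : ∀ k, v k ∈ T.F (k + 1) := fun k => T.F_le (Nat.le_succ k) (T.E_mem k _)
  have hp := hpot A T N v (Λ ^ 2) (by positivity) hvmem hv0 (fun k _ => hvle k)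
    (fun n hn => cond_sq_pot hX hΛ.le h0 h1 hn)
  have hS0 : 0 ≤ ∑ k ∈ Finset.range N, v k := Finset.sum_nonneg fun k _ => hv0 k
  have htS : T.t (∑ k ∈ Finset.range N, v k) ≤ Λ ^ 2 * D := by
    rw [T.t_sum]
    have h3 : ∑ k ∈ Finset.range N, T.t (v k) = ∑ k ∈ Finset.range N, T.t (dd X k * dd X k) :=
      Finset.sum_congr rfl fun k _ => T.t_E k _
    rw [h3]
    refine (hX.sum_t_dd_sq_le h0 h1 N).trans ?_
    calc Λ * T.t (X 0) ≤ Λ * (Λ * D) := mul_le_mul_of_nonneg_left hD hΛ.le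
      _ = Λ ^ 2 * D := by ring
  set S : A := ∑ k ∈ Finset.range N, v k with hSdef
  have hSsa : star S = S := (IsSelfAdjoint.of_nonneg hS0).star_eq
  have hL : T.toTS.L m S ≤ C * (Λ ^ 2) ^ (2 ^ (m + 1) - 1) * (Λ ^ 2 * D) := by
    rw [T.toTS.L_of_sa m hSsa]
    exact hp.trans (mul_le_mul_of_nonneg_left htS (by positivity))
  have hNS : T.toTS.N m S ≤
      C ^ ((1 : ℝ) / 2 ^ (m + 1)) * Λ ^ 2 * D ^ ((1 : ℝ) / 2 ^ (m + 1)) := by
    have h3 : C * (Λ ^ 2) ^ (2 ^ (m + 1) - 1) * (Λ ^ 2 * D) = C * (Λ ^ 2) ^ (2 ^ (m + 1)) * D := by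
      have e1 : 2 ^ (m + 1) = (2 ^ (m + 1) - 1) + 1 :=
        (Nat.sub_add_cancel (Nat.one_le_two_pow)).symm
      have e2 : (Λ ^ 2) ^ (2 ^ (m + 1)) = (Λ ^ 2) ^ (2 ^ (m + 1) - 1) * Λ ^ 2 := by
        conv_lhs => rw [e1]
        exact pow_succ _ _
      rw [e2]
      ring
    rw [h3] at hL
    have h4 : T.toTS.N m S = (T.toTS.L m S) ^ ((1 : ℝ) / 2 ^ (m + 1)) := rfl
    rw [h4]
    have h5 := Real.rpow_le_rpow (T.toTS.L_nonneg m S) hL
      (by positivity : (0 : ℝ) ≤ 1 / 2 ^ (m + 1))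
    refine h5.trans (le_of_eq ?_)
    rw [Real.mul_rpow (by positivity) hD0, Real.mul_rpow hC.le (by positivity)]
    have h6 : ((Λ ^ 2) ^ (2 ^ (m + 1))) ^ ((1 : ℝ) / 2 ^ (m + 1)) = Λ ^ 2 := by
      have e3 : ((1 : ℝ) / 2 ^ (m + 1)) = (((2 ^ (m + 1) : ℕ) : ℝ))⁻¹ := by
        push_cast
        rw [one_div]
      rw [e3]
      exact Real.pow_rpow_inv_natCast (by positivity) (by positivity)
    rw [h6]
  have hei : ∀ k, IsStarProjection (e i k) := he.proj i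
  have hterm : ∀ k, (1 - e i k) * v k * (1 - e i k) ≤
      (2 : ℝ) • v k + (2 : ℝ) • (e i k * v k * e i k) := by
    intro k
    have s1 : star (e i k) = e i k := (hei k).isSelfAdjoint.star_eq
    have h2 := conj_add_le 1 (-(e i k)) (v k) (hv0 k)
    rw [star_add, star_neg, s1, star_one, ← sub_eq_add_neg] at h2
    refine h2.trans (le_of_eq ?_)
    simp only [neg_mul, mul_neg, neg_neg, one_mul, mul_one]
  have hterm0 : ∀ k, 0 ≤ (1 - e i k) * v k * (1 - e i k) := by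
    intro k
    have s1 : star (e i k) = e i k := (hei k).isSelfAdjoint.star_eq
    have h3 : star (1 - e i k) = 1 - e i k := by rw [star_sub, s1, star_one]
    have h4 := star_left_conjugate_nonneg (hv0 k) (1 - e i k)
    rwa [h3] at h4
  have hcol := T.col m N v (fun k => e i k) hv0 hei (fun k => he.dec i k)
  have hsum : ∑ k ∈ Finset.range N, (1 - e i k) * v k * (1 - e i k) ≤
      (2 : ℝ) • S + (2 : ℝ) • (∑ k ∈ Finset.range N, e i k * v k * e i k) := by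
    rw [hSdef, Finset.smul_sum, Finset.smul_sum, ← Finset.sum_add_distrib]
    exact Finset.sum_le_sum fun k _ => hterm k
  have hN := T.N_mono m (Finset.sum_nonneg fun k _ => hterm0 k) hsum
  refine hN.trans ((T.toTS.N_add m _ _).trans ?_)
  rw [T.toTS.N_smul, T.toTS.N_smul, abs_of_pos (by norm_num : (0 : ℝ) < 2)]
  have h5 := mul_le_mul_of_nonneg_left hNS
    (by positivity : (0 : ℝ) ≤ 2 + 2 * ((2 : ℝ) ^ (m + 4)) ^ 2)
  calc 2 * T.toTS.N m S + 2 * T.toTS.N m (∑ k ∈ Finset.range N, e i k * v k * e i k)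
      ≤ 2 * T.toTS.N m S + 2 * (((2 : ℝ) ^ (m + 4)) ^ 2 * T.toTS.N m S) := by
        linarith [hcol]
    _ = (2 + 2 * ((2 : ℝ) ^ (m + 4)) ^ 2) * T.toTS.N m S := by ring
    _ ≤ _ := h5
    _ = _ := by ring

end GD64
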