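import Pool.Agent.GD64.LowV
import Pool.Agent.GD64.LowTop

/-!
# GD64/LowC: conditional and diagonal estimates for the truncated piece

`y_k = Tr b (ch e i k) (i+1) (dd X k) = ∑_{j<i} e_{j+b} d_k (e_{j+1} - e_j) + c_{i+b} d_k (1 - e_i)`.
-/

namespace GD64

universe u

namespace LowCAux

variable {A : Type u} [CStarAlgebra A] [PartialOrder A] [StarOrderedRing A]

/-- weights -/
noncomputable def wt (i j : ℕ) : ℝ := if j < i then (1 / 8) * (3 / 4) ^ (i - 1 - j) else 1 / 2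

theorem wt_pos (i j : ℕ) : 0 < wt i j := by
  unfold wt
  split_ifs <;> positivity

theorem geom_le (x : ℝ) (h0 : 0 ≤ x) (h1 : x < 1) (n : ℕ) :
    ∑ j ∈ Finset.range n, x ^ j ≤ 1 / (1 - x) := by
  rw [geom_sum_eq h1.ne n]
  have h3 : (x ^ n - 1) / (x - 1) = (1 - x ^ n) / (1 - x) := by
    rw [← neg_div_neg_eq]; congr 1 <;> ring
  rw [h3]
  have h2 : 0 ≤ x ^ n := pow_nonneg h0 n
  exact div_le_div_of_nonneg_right (by linarith) (by linarith)

theorem geom_le' (x : ℝ) (h0 : 0 ≤ x) (h1 : x < 1) (n : ℕ) :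
    ∑ j ∈ Finset.range n, x ^ (n - 1 - j) ≤ 1 / (1 - x) := by
  rw [Finset.sum_range_reflect (fun j => x ^ j) n]
  exact geom_le x h0 h1 n

theorem wt_sum (i : ℕ) : ∑ j ∈ Finset.range (i + 1), wt i j ≤ 1 := by
  rw [Finset.sum_range_succ]
  have h1 : ∀ j ∈ Finset.range i, wt i j = (1 / 8) * (3 / 4) ^ (i - 1 - j) := fun j hj => by
    unfold wt
    rw [if_pos (Finset.mem_range.1 hj)]
  have h2 : wt i i = 1 / 2 := by
    unfold wt
    rw [if_neg (lt_irrefl _)]
  rw [Finset.sum_congr rfl h1, h2, ← Finset.mul_sum]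
  have h3 := geom_le' (3 / 4) (by norm_num) (by norm_num) i
  have h4 : (1 : ℝ) / (1 - 3 / 4) = 4 := by norm_num
  rw [h4] at h3
  linarith

/-- conjugation by an element, projection in the middle -/
theorem mid_le {z p : A} (hp : IsStarProjection p) : star z * p * z ≤ star z * z := by
  have h1 : 0 ≤ star ((1 - p) * z) * ((1 - p) * z) := star_mul_self_nonneg _
  have h2 : star ((1 - p) * z) * ((1 - p) * z) = star z * z - star z * p * z := by
    have hp1 : star p = p := hp.isSelfAdjoint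
    have hp2 : p * p = p := hp.isIdempotentElem
    rw [star_mul, star_sub, star_one, hp1]
    have h3 : star z * (1 - p) * ((1 - p) * z) = star z * (1 - p - p + p * p) * z := by
      noncomm_ring
    rw [h3, hp2]
    noncomm_ring
  rw [h2] at h1
  exact sub_nonneg.1 h1

/-- a block of the truncation -/
theorem block_le {T : TF A} {e : ℕ → ℕ → A} (he : FlagSys T e) {X : ℕ → A} (hX : Mart T X)
    (h0 : ∀ k, 0 ≤ X k) {R : ℝ} (hR : 0 < R) {j b k : ℕ} (hb : b ≤ 1)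
    (hq : T.qq X R k * e (j + 1) k = e (j + 1) k) :
    T.E k (star (e (j + b) k * dd X k * (e (j + 1) k - e j k)) *
      (e (j + b) k * dd X k * (e (j + 1) k - e j k))) ≤
    (e (j + 1) k - e j k) * T.vv X R k * (e (j + 1) k - e j k) := by
  have hqp := TF.qq_proj hX h0 hR k
  obtain ⟨q, hqd⟩ : ∃ q, q = T.qq X R k := ⟨_, rfl⟩
  have hqs : star q = q := by rw [hqd]; exact hqp.isSelfAdjoint
  have hvv : T.vv X R k = T.E k ((q * dd X k * q) * (q * dd X k * q)) := by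
    rw [hqd]; rfl
  rw [← hqd] at hq hqp
  rw [hvv]
  have hds : star (dd X k) = dd X k := dd_isSelfAdjoint h0 k
  have hes : ∀ a, star (e a k) = e a k := fun a => (he.proj a k).isSelfAdjoint
  -- `q` dominates the flags
  have hqj : q * e j k = e j k := by
    have h1 : e (j + 1) k * e j k = e j k := he.inc j k
    calc q * e j k = q * (e (j + 1) k * e j k) := by rw [h1]
      _ = (q * e (j + 1) k) * e j k := by rw [mul_assoc]
      _ = e j k := by rw [hq, h1]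
  have hqb : q * e (j + b) k = e (j + b) k := by
    interval_cases b
    · exact hqj
    · exact hq
  have hbq : e (j + b) k * q = e (j + b) k := by
    have h1 := congrArg star hqb
    rw [star_mul, hes, hqs] at h1
    exact h1
  obtain ⟨p, hp⟩ : ∃ p, p = e (j + 1) k - e j k := ⟨_, rfl⟩
  have hps : star p = p := by rw [hp, star_sub, hes, hes]
  have hqp' : q * p = p := by rw [hp, mul_sub, hq, hqj]
  have hpF : p ∈ T.F k := by
    rw [hp]; exact sub_mem (he.mem _ _) (he.mem _ _)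
  rw [← hp]
  obtain ⟨z, hz⟩ : ∃ z, z = q * dd X k * q * p := ⟨_, rfl⟩
  have h1 : e (j + b) k * dd X k * p = e (j + b) k * z := by
    rw [hz]
    calc e (j + b) k * dd X k * p = (e (j + b) k * q) * dd X k * (q * p) := by rw [hbq, hqp']
      _ = e (j + b) k * (q * dd X k * q * p) := by simp only [mul_assoc]
  have h2 : star (e (j + b) k * dd X k * p) * (e (j + b) k * dd X k * p) =
      star z * e (j + b) k * z := by
    rw [h1, star_mul, hes]
    calc star z * e (j + b) k * (e (j + b) k * z) = star z * (e (j + b) k * e (j + b) k) * z := by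
          simp only [mul_assoc]
      _ = _ := by rw [(he.proj (j + b) k).isIdempotentElem]
  have h3 : star z * z = p * ((q * dd X k * q) * (q * dd X k * q)) * p := by
    have h4 : star z = p * (q * dd X k * q) := by
      rw [hz, star_mul, star_mul, star_mul, hps, hqs, hds]
      simp only [mul_assoc]
    rw [h4, hz]
    simp only [mul_assoc]
  rw [h2]
  refine (T.E_mono (mid_le (he.proj (j + b) k))).trans (le_of_eq ?_)
  rw [h3, T.E_mul_right hpF, T.E_mul_left hpF]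

/-- the last block -/
theorem top_le {T : TF A} {e : ℕ → ℕ → A} (he : FlagSys T e) {X : ℕ → A}
    (h0 : ∀ k, 0 ≤ X k) {i k : ℕ} {c : A} (hc : IsStarProjection c) :
    T.E k (star (c * dd X k * (1 - e i k)) * (c * dd X k * (1 - e i k))) ≤
    (1 - e i k) * T.E k (dd X k * dd X k) * (1 - e i k) := by
  have hds : star (dd X k) = dd X k := dd_isSelfAdjoint h0 k
  have hes : star (e i k) = e i k := (he.proj i k).isSelfAdjoint
  obtain ⟨p, hp⟩ : ∃ p, p = 1 - e i k := ⟨_, rfl⟩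
  have hps : star p = p := by rw [hp, star_sub, hes, star_one]
  have hpF : p ∈ T.F k := by
    rw [hp]; exact sub_mem (one_mem _) (he.mem _ _)
  rw [← hp]
  have h2 : star (c * dd X k * p) * (c * dd X k * p) =
      star (dd X k * p) * c * (dd X k * p) := by
    have hc1 : star c = c := hc.isSelfAdjoint
    rw [mul_assoc c, star_mul c, hc1]
    calc star (dd X k * p) * c * (c * (dd X k * p)) = star (dd X k * p) * (c * c) * (dd X k * p) := by
          simp only [mul_assoc]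
      _ = _ := by rw [hc.isIdempotentElem]
  have h3 : star (dd X k * p) * (dd X k * p) = p * (dd X k * dd X k) * p := by
    rw [star_mul, hps, hds]
    simp only [mul_assoc]
  rw [h2]
  refine (T.E_mono (mid_le hc)).trans (le_of_eq ?_)
  rw [h3, T.E_mul_right hpF, T.E_mul_left hpF]

theorem E_sum_le {T : TF A} {e : ℕ → ℕ → A} (he : FlagSys T e) {l : ℝ} (hl : 0 < l) {i : ℕ}
    {X : ℕ → A} (hX : Mart T X) (h0 : ∀ k, 0 ≤ X k)
    (hq : ∀ j, 1 ≤ j → j ≤ i → ∀ k, T.qq X (l * 2 ^ j) k * e j k = e j k)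
    {b : ℕ} (hb : b ≤ 1) (k : ℕ) :
    T.E k (star (Tr b (ch e i k) (i + 1) (dd X k)) * Tr b (ch e i k) (i + 1) (dd X k)) ≤
      (∑ j ∈ Finset.range i, (wt i j)⁻¹ •
        ((e (j + 1) k - e j k) * T.vv X (l * 2 ^ (j + 1)) k * (e (j + 1) k - e j k))) +
      (2 : ℝ) • ((1 - e i k) * T.E k (dd X k * dd X k) * (1 - e i k)) := by
  have h1 := weighted_sq_le (Finset.range (i + 1)) (wt i) (fun j _ => wt_pos i j) (wt_sum i)
    (fun j => ch e i k (j + b) * dd X k * (ch e i k (j + 1) - ch e i k j))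
  have h2 := T.E_mono (n := k) h1
  rw [T.E_sum] at h2
  simp only [T.E_smul] at h2
  refine h2.trans ?_
  rw [Finset.sum_range_succ]
  refine add_le_add (Finset.sum_le_sum fun j hj => ?_) ?_
  · have hj' := Finset.mem_range.1 hj
    have e1 : ch e i k (j + b) = e (j + b) k := by
      unfold ch; rw [if_pos (by omega)]
    have e2 : ch e i k (j + 1) = e (j + 1) k := by
      unfold ch; rw [if_pos (by omega)]
    have e3 : ch e i k j = e j k := by
      unfold ch; rw [if_pos (by omega)]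
    rw [e1, e2, e3]
    exact smul_le_smul_of_nonneg_left
      (block_le he hX h0 (by positivity) hb (hq (j + 1) (by omega) (by omega) k))
      (inv_nonneg.2 (wt_pos i j).le)
  · have e2 : ch e i k (i + 1) = 1 := by
      unfold ch; rw [if_neg (by omega)]
    have e3 : ch e i k i = e i k := by
      unfold ch; rw [if_pos le_rfl]
    have e4 : (wt i i)⁻¹ = 2 := by
      unfold wt; rw [if_neg (lt_irrefl _)]; norm_num
    rw [e2, e3, e4]
    exact smul_le_smul_of_nonneg_left (top_le he h0 ((he.chain i k).proj _)) (by norm_num)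

theorem q_lt : (4 / 3 : ℝ) * Real.sqrt (1 / 2) < 1 := by
  have h1 : Real.sqrt (1 / 2) < 3 / 4 := by
    rw [Real.sqrt_lt' (by norm_num)]
    norm_num
  linarith

end LowCAux

open LowCAux in
/-- Conditional part. `weighted_sq_le` with weights `w_i = 1/2`, `w_j = (1/8)(3/4)^(i-1-j)` (`j < i`, sum
`≤ 1`): `|y_k|² ≤ ∑_{j<i} w_j⁻¹ |e_{j+b} d_k p_j|² + 2 |c_{i+b} d_k (1-e_i)|²`, `p_j = e_{j+1} - e_j`.
With `q = qq X λ_{j+1} k ≥ e_{j+1} k ≥ e_{j+b} k, p_j`: `e_{j+b} d_k p_j = e_{j+b} (q d_k q) p_j`, so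
`E_k |e_{j+b} d_k p_j|² ≤ p_j vv_k p_j` (`vv = vv X λ_{j+1}`). Top: `≤ (1-e_i) E_k(d_k²) (1-e_i)`. Sum over
`k`, `TF.N_mono`, triangle inequality, `lowV_block` for `j+1`, `lowV_top`:
`N m (∑ E_k |y_k|²) ≤ ∑_{n≥0} 8 (4/3)^n · 20(2^(m+4))² (1/√2)^n Λ² D^(1/s) + 2 C Λ² D^(1/s)`,
a convergent geometric series (`(4/3)/√2 < 0.95`). Then raise to the power `s`. -/
theorem lowC_cond (m : ℕ) : ∃ C : ℝ, 0 < C ∧
    ∀ (A : Type u) [CStarAlgebra A] [PartialOrder A] [StarOrderedRing A]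
      (T : TF A) (e : ℕ → ℕ → A) (_ : FlagSys T e) (l : ℝ) (_ : 0 < l) (i : ℕ)
      (X : ℕ → A) (_ : Mart T X) (_ : ∀ k, 0 ≤ X k) (_ : ∀ k, X k ≤ (l * 2 ^ i) • (1 : A))
      (_ : ∀ j, 1 ≤ j → j ≤ i → ∀ k, T.qq X (l * 2 ^ j) k * e j k = e j k)
      (_ : ∀ j, 1 ≤ j → j ≤ i → ∀ k,
        T.zz X (l * 2 ^ j) (l * 2 ^ i * (l * 2 ^ j)) k * e j k = e j k)
      (D : ℝ) (_ : T.t (X 0) ≤ l * 2 ^ i * D) (b : ℕ) (_ : b ≤ 1) (N : ℕ),
      T.t ((∑ k ∈ Finset.range N, T.E k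
          (star (Tr b (ch e i k) (i + 1) (dd X k)) *
            Tr b (ch e i k) (i + 1) (dd X k))) ^ (2 ^ (m + 1))) ≤
        C * ((l * 2 ^ i) ^ 2) ^ (2 ^ (m + 1)) * D := by
  obtain ⟨C, hC, htop⟩ := lowV_top.{u} m
  obtain ⟨K, hK⟩ : ∃ K : ℝ, K = 160 * ((2 : ℝ) ^ (m + 4)) ^ 2 *
    (1 / (1 - 4 / 3 * Real.sqrt (1 / 2))) + 2 * C := ⟨_, rfl⟩
  have hgap : 0 < 1 - 4 / 3 * Real.sqrt (1 / 2) := by linarith [q_lt]
  have hK0 : 0 < K := by rw [hK]; positivity
  refine ⟨K ^ (2 ^ (m + 1)), by positivity, ?_⟩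
  intro A _ _ _ T e he l hl i X hX h0 h1 hq hz D hD b hb N
  have hΛ : 0 < l * 2 ^ i := by positivity
  have hD0 : 0 ≤ D := by
    have h2 := T.t_nonneg (h0 0)
    by_contra hneg
    push Not at hneg
    have := mul_neg_of_pos_of_neg hΛ hneg
    linarith
  obtain ⟨δ, hδ⟩ : ∃ δ : ℝ, δ = D ^ ((1 : ℝ) / 2 ^ (m + 1)) := ⟨_, rfl⟩
  have hδ0 : 0 ≤ δ := by rw [hδ]; exact Real.rpow_nonneg hD0 _
  have hδD : δ ^ (2 ^ (m + 1)) = D := by
    rw [hδ, ← Real.rpow_natCast, ← Real.rpow_mul hD0]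
    push_cast
    rw [one_div, inv_mul_cancel₀ (by positivity), Real.rpow_one]
  -- the sum of the conditional squares
  obtain ⟨Y, hY⟩ : ∃ Y : A, Y = ∑ k ∈ Finset.range N, T.E k
      (star (Tr b (ch e i k) (i + 1) (dd X k)) * Tr b (ch e i k) (i + 1) (dd X k)) := ⟨_, rfl⟩
  have hY0 : 0 ≤ Y := by
    rw [hY]
    exact Finset.sum_nonneg fun k _ => T.E_nonneg (star_mul_self_nonneg _)
  have hYle : Y ≤ (∑ j ∈ Finset.range i, (wt i j)⁻¹ • ∑ k ∈ Finset.range N,
        (e (j + 1) k - e j k) * T.vv X (l * 2 ^ (j + 1)) k * (e (j + 1) k - e j k)) +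
      (2 : ℝ) • ∑ k ∈ Finset.range N,
        (1 - e i k) * T.E k (dd X k * dd X k) * (1 - e i k) := by
    rw [hY]
    refine (Finset.sum_le_sum fun k _ => E_sum_le he hl hX h0 hq hb k).trans (le_of_eq ?_)
    rw [Finset.sum_add_distrib, Finset.sum_comm]
    simp only [Finset.smul_sum]
  have hN1 := T.N_mono m hY0 hYle
  have hN2 := hN1.trans (T.toTS.N_add m _ _)
  have hN3 : T.toTS.N m ((2 : ℝ) • ∑ k ∈ Finset.range N,
      (1 - e i k) * T.E k (dd X k * dd X k) * (1 - e i k)) ≤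
      2 * (C * (l * 2 ^ i) ^ 2 * δ) := by
    rw [T.toTS.N_smul, abs_of_pos (by norm_num : (0 : ℝ) < 2), hδ]
    exact mul_le_mul_of_nonneg_left (htop A T e he l hl i X hX h0 h1 D hD N) (by norm_num)
  have hN4 : T.toTS.N m (∑ j ∈ Finset.range i, (wt i j)⁻¹ • ∑ k ∈ Finset.range N,
        (e (j + 1) k - e j k) * T.vv X (l * 2 ^ (j + 1)) k * (e (j + 1) k - e j k)) ≤
      ∑ j ∈ Finset.range i, 160 * ((2 : ℝ) ^ (m + 4)) ^ 2 * (l * 2 ^ i) ^ 2 * δ *
        (4 / 3 * Real.sqrt (1 / 2)) ^ (i - 1 - j) := by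
    refine (T.toTS.N_sum m _ _).trans (Finset.sum_le_sum fun j hj => ?_)
    have hj' := Finset.mem_range.1 hj
    have h2 := lowV_block m T he hl (i := i) (j := j + 1) (by omega) (by omega) hX h0 h1
      (hz (j + 1) (by omega) (by omega)) hD N
    rw [Nat.add_sub_cancel, ← hδ] at h2
    have e5 : i - (j + 1) = i - 1 - j := by omega
    rw [e5] at h2
    rw [T.toTS.N_smul, abs_of_nonneg (inv_nonneg.2 (wt_pos i j).le)]
    have e6 : (wt i j)⁻¹ = 8 * (4 / 3) ^ (i - 1 - j) := by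
      unfold wt
      rw [if_pos hj', mul_inv, ← inv_pow]
      norm_num
    rw [e6]
    refine (mul_le_mul_of_nonneg_left h2 (by positivity)).trans (le_of_eq ?_)
    rw [mul_pow]
    ring
  have hN5 : ∑ j ∈ Finset.range i, 160 * ((2 : ℝ) ^ (m + 4)) ^ 2 * (l * 2 ^ i) ^ 2 * δ *
        (4 / 3 * Real.sqrt (1 / 2)) ^ (i - 1 - j) ≤
      160 * ((2 : ℝ) ^ (m + 4)) ^ 2 * (l * 2 ^ i) ^ 2 * δ *
        (1 / (1 - 4 / 3 * Real.sqrt (1 / 2))) := by
    rw [← Finset.mul_sum]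
    exact mul_le_mul_of_nonneg_left (geom_le' _ (by positivity) q_lt i) (by positivity)
  have hN : T.toTS.N m Y ≤ K * (l * 2 ^ i) ^ 2 * δ := by
    rw [hK]
    calc T.toTS.N m Y ≤ 160 * ((2 : ℝ) ^ (m + 4)) ^ 2 * (l * 2 ^ i) ^ 2 * δ *
        (1 / (1 - 4 / 3 * Real.sqrt (1 / 2))) + 2 * (C * (l * 2 ^ i) ^ 2 * δ) := by linarith
      _ = _ := by ring
  have hYs : star Y = Y := (IsSelfAdjoint.of_nonneg hY0)
  have hfin : T.t (Y ^ (2 ^ (m + 1))) = (T.toTS.N m Y) ^ (2 ^ (m + 1)) := by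
    rw [T.toTS.N_pow, T.toTS.L_of_sa m hYs]
    rfl
  rw [← hY, hfin]
  calc (T.toTS.N m Y) ^ (2 ^ (m + 1)) ≤ (K * (l * 2 ^ i) ^ 2 * δ) ^ (2 ^ (m + 1)) :=
        pow_le_pow_left₀ (T.toTS.N_nonneg _ _) hN _
    _ = K ^ (2 ^ (m + 1)) * ((l * 2 ^ i) ^ 2) ^ (2 ^ (m + 1)) * D := by
        rw [mul_pow, mul_pow, hδD]

end GD64
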