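import Pool.Agent.GD64.ProcVV
import Pool.Agent.GD64.ProcFlag
import Pool.Agent.GD64.Col

/-!
# GD64/LowV: moment bounds for the conditional squares of one piece

One piece: a martingale `0 ≤ X ≤ Λ = l 2^i`, `t(X_0) ≤ Λ D`, `s = 2^(m+1)`, levels `λ_j = l 2^j`.
-/

namespace GD64

universe u

/-- The numerical estimate of `lowV_block`. -/
theorem lowV_num (m : ℕ) {Λ lam D x : ℝ} (hΛ : 0 < Λ) {d : ℕ}
    (hlam : lam = Λ * (1 / 2) ^ d) (hD : 0 ≤ D) (hx0 : 0 ≤ x)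
    (hx : x ≤ (5 * Λ * lam) ^ (2 ^ (m + 1) - 1) * (Λ * (Λ * D))) :
    x ^ ((1 : ℝ) / 2 ^ (m + 1)) ≤
      5 * Λ ^ 2 * D ^ ((1 : ℝ) / 2 ^ (m + 1)) * (Real.sqrt (1 / 2)) ^ d := by
  obtain ⟨s, hs⟩ : ∃ s : ℕ, 2 ^ (m + 1) = s + 2 := by
    have : 2 ≤ 2 ^ (m + 1) := by
      calc 2 = 2 ^ 1 := by norm_num
        _ ≤ 2 ^ (m + 1) := Nat.pow_le_pow_right (by norm_num) (by omega)
    exact ⟨2 ^ (m + 1) - 2, by omega⟩
  have hsR : (2 : ℝ) ^ (m + 1) = ((s + 2 : ℕ) : ℝ) := by rw [← hs]; push_cast; ring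
  rw [hs] at hx
  rw [hsR]
  have h1 : s + 2 - 1 = s + 1 := by omega
  rw [h1] at hx
  have hq0 : 0 ≤ Real.sqrt (1 / 2) := Real.sqrt_nonneg _
  have hq2 : Real.sqrt (1 / 2) ^ 2 = 1 / 2 := Real.sq_sqrt (by norm_num)
  have hq1 : Real.sqrt (1 / 2) ≤ 1 := by
    rw [Real.sqrt_le_one]; norm_num
  have hroot : 0 ≤ D ^ ((((s + 2 : ℕ) : ℝ))⁻¹) := Real.rpow_nonneg hD _
  have hDpow : (D ^ ((((s + 2 : ℕ) : ℝ))⁻¹)) ^ (s + 2) = D :=
    Real.rpow_inv_natCast_pow hD (by omega)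
  have hrhs : 0 ≤ 5 * Λ ^ 2 * D ^ ((((s + 2 : ℕ) : ℝ))⁻¹) * (Real.sqrt (1 / 2)) ^ d := by
    positivity
  rw [one_div ((s + 2 : ℕ) : ℝ), Real.rpow_inv_le_iff_of_pos hx0 hrhs (by positivity)]
  rw [Real.rpow_natCast]
  refine hx.trans ?_
  have e0 : (5 * Λ ^ 2 * D ^ ((((s + 2 : ℕ) : ℝ))⁻¹) * (Real.sqrt (1 / 2)) ^ d) ^ (s + 2) =
      5 ^ (s + 2) * (Λ ^ 2) ^ (s + 2) * (D ^ ((((s + 2 : ℕ) : ℝ))⁻¹)) ^ (s + 2) *
        (Real.sqrt (1 / 2) ^ d) ^ (s + 2) := by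
    rw [mul_pow, mul_pow, mul_pow]
  rw [e0, hDpow, hlam]
  have e1 : (5 * Λ * (Λ * (1 / 2) ^ d)) ^ (s + 1) * (Λ * (Λ * D)) =
      (5 ^ (s + 1) * (Λ ^ 2) ^ (s + 2) * D) * ((1 / 2) ^ d) ^ (s + 1) := by ring
  have e2 : 5 ^ (s + 2) * (Λ ^ 2) ^ (s + 2) * D * (Real.sqrt (1 / 2) ^ d) ^ (s + 2) =
      (5 ^ (s + 1) * (Λ ^ 2) ^ (s + 2) * D) * (5 * (Real.sqrt (1 / 2) ^ d) ^ (s + 2)) := by ring
  rw [e1, e2]
  refine mul_le_mul_of_nonneg_left ?_ (by positivity)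
  have e3 : (((1 : ℝ) / 2) ^ d) ^ (s + 1) = (Real.sqrt (1 / 2) ^ d) ^ (2 * (s + 1)) := by
    generalize Real.sqrt (1 / 2) = q at hq2
    rw [← hq2]
    ring
  rw [e3]
  have h3 : (Real.sqrt (1 / 2) ^ d) ^ (2 * (s + 1)) ≤ (Real.sqrt (1 / 2) ^ d) ^ (s + 2) :=
    pow_le_pow_of_le_one (by positivity) (pow_le_one₀ hq0 hq1) (by omega)
  have h4 : 0 ≤ (Real.sqrt (1 / 2) ^ d) ^ (s + 2) := by positivity
  linarith

/-- Block `j` (`1 ≤ j ≤ i`). With `a_k = ζ_k v_k ζ_k` (`v = vv X λ_j`, `ζ = zz X λ_j (Λ λ_j)`):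
`P = ∑ a_k ≤ 5 Λ λ_j` (`sum_zz_le`), `t(P) ≤ ∑ t(v_k) ≤ Λ t(X_0) ≤ Λ² D`, so
`t(P^s) ≤ (5 Λ λ_j)^(s-1) Λ² D` (`pow_succ_le_smul`) and `N m P ≤ 5 Λ² (λ_j/Λ)^(1-1/s) D^(1/s)
≤ 5 Λ² D^(1/s) (1/√2)^(i-j)`. Since `e_j, e_{j-1} ≤ ζ`, `e_j v e_j = e_j a_k e_j` etc.;
`(e_j - e_{j-1}) v (e_j - e_{j-1}) ≤ 2 e_j v e_j + 2 e_{j-1} v e_{j-1}`, and `TF.col` twice
(with `TF.N_mono`, `N_add`, `N_smul`). Constant `20 (2^(m+4))²`. -/
theorem lowV_block (m : ℕ) {A : Type u} [CStarAlgebra A] [PartialOrder A] [StarOrderedRing A]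
    (T : TF A) {e : ℕ → ℕ → A} (he : FlagSys T e) {l : ℝ} (hl : 0 < l) {i j : ℕ}
    (hj : 1 ≤ j) (hji : j ≤ i) {X : ℕ → A} (hX : Mart T X) (h0 : ∀ k, 0 ≤ X k)
    (h1 : ∀ k, X k ≤ (l * 2 ^ i) • (1 : A))
    (hz : ∀ k, T.zz X (l * 2 ^ j) (l * 2 ^ i * (l * 2 ^ j)) k * e j k = e j k)
    {D : ℝ} (hD : T.t (X 0) ≤ l * 2 ^ i * D) (N : ℕ) :
    T.toTS.N m (∑ k ∈ Finset.range N,
        (e j k - e (j - 1) k) * T.vv X (l * 2 ^ j) k * (e j k - e (j - 1) k)) ≤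
      20 * ((2 : ℝ) ^ (m + 4)) ^ 2 * (l * 2 ^ i) ^ 2 * D ^ ((1 : ℝ) / 2 ^ (m + 1)) *
        (Real.sqrt (1 / 2)) ^ (i - j) := by
  have hΛ : 0 < l * 2 ^ i := by positivity
  have hR : 0 < l * 2 ^ j := by positivity
  have hRΛ : l * 2 ^ j ≤ l * 2 ^ i :=
    mul_le_mul_of_nonneg_left (pow_le_pow_right₀ (by norm_num) hji) hl.le
  have hD0 : 0 ≤ D := by
    have := T.t_nonneg (h0 0)
    by_contra hneg
    push Not at hneg
    have : l * 2 ^ i * D < 0 := mul_neg_of_pos_of_neg hΛ hneg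
    linarith
  -- abbreviations
  set R : ℝ := l * 2 ^ j with hRdef
  set Λ : ℝ := l * 2 ^ i with hΛdef
  set z : ℕ → A := fun k => T.zz X R (Λ * R) k with hzdef
  set v : ℕ → A := fun k => T.vv X R k with hvdef
  have hv0 : ∀ k, 0 ≤ v k := fun k => TF.vv_nonneg hX h0 hR k
  have hzp : ∀ k, IsStarProjection (z k) := fun k => TF.zz_proj hX h0 hR (mul_pos hΛ hR) k
  have ha0 : ∀ k, 0 ≤ z k * v k * z k := fun k => proj_conj_nonneg (hzp k) (hv0 k)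
  have hPle : ∑ k ∈ Finset.range N, z k * v k * z k ≤ (5 * Λ * R) • (1 : A) :=
    TF.sum_zz_le hX h0 h1 hR hRΛ N
  have hP0 : 0 ≤ ∑ k ∈ Finset.range N, z k * v k * z k :=
    Finset.sum_nonneg fun k _ => ha0 k
  have htP : T.t (∑ k ∈ Finset.range N, z k * v k * z k) ≤ Λ * (Λ * D) := by
    rw [T.t_sum]
    calc ∑ k ∈ Finset.range N, T.t (z k * v k * z k)
        ≤ ∑ k ∈ Finset.range N, T.t (v k) :=
          Finset.sum_le_sum fun k _ => T.t_proj_conj_le (hzp k) (hv0 k)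
      _ ≤ Λ * T.t (X 0) := TF.sum_t_vv_le hX h0 h1 hR N
      _ ≤ Λ * (Λ * D) := mul_le_mul_of_nonneg_left hD hΛ.le
  set P : A := ∑ k ∈ Finset.range N, z k * v k * z k with hPdef
  have hPsa : star P = P := (IsSelfAdjoint.of_nonneg hP0).star_eq
  have hc0 : 0 ≤ 5 * Λ * R := by positivity
  have hL : T.toTS.L m P ≤ (5 * Λ * R) ^ (2 ^ (m + 1) - 1) * (Λ * (Λ * D)) := by
    rw [T.toTS.L_of_sa m hPsa]
    have hpow := pow_succ_le_smul hP0 hc0 hPle (2 ^ (m + 1) - 1)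
    have e1 : 2 ^ (m + 1) - 1 + 1 = 2 ^ (m + 1) := Nat.sub_add_cancel (Nat.one_le_two_pow)
    rw [e1] at hpow
    have h2 := T.t_mono hpow
    rw [map_smul, smul_eq_mul] at h2
    refine h2.trans ?_
    exact mul_le_mul_of_nonneg_left htP (pow_nonneg hc0 _)
  have hlam : R = Λ * (1 / 2) ^ (i - j) := by
    have h2 : (2 : ℝ) ^ i = 2 ^ j * 2 ^ (i - j) := by
      rw [← pow_add]; congr 1; omega
    rw [hRdef, hΛdef, h2, one_div, inv_pow]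
    have : (2 : ℝ) ^ (i - j) ≠ 0 := by positivity
    field_simp
  have hNP : T.toTS.N m P ≤
      5 * Λ ^ 2 * D ^ ((1 : ℝ) / 2 ^ (m + 1)) * (Real.sqrt (1 / 2)) ^ (i - j) :=
    lowV_num m hΛ hlam hD0 (T.toTS.L_nonneg m P) hL
  -- the two flags
  have hze : ∀ k, z k * e j k = e j k := hz
  have hez : ∀ k, e j k * z k = e j k := fun k => proj_mul_comm (he.proj j k) (hzp k) (hze k)
  have hinc : ∀ k, e j k * e (j - 1) k = e (j - 1) k := by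
    intro k
    have := he.inc (j - 1) k
    rwa [Nat.sub_add_cancel hj] at this
  have hze' : ∀ k, z k * e (j - 1) k = e (j - 1) k := by
    intro k
    rw [← hinc k, ← mul_assoc, hze k]
  have hez' : ∀ k, e (j - 1) k * z k = e (j - 1) k :=
    fun k => proj_mul_comm (he.proj (j - 1) k) (hzp k) (hze' k)
  have hterm : ∀ k, (e j k - e (j - 1) k) * v k * (e j k - e (j - 1) k) ≤
      (2 : ℝ) • (e j k * (z k * v k * z k) * e j k) +
        (2 : ℝ) • (e (j - 1) k * (z k * v k * z k) * e (j - 1) k) := by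
    intro k
    have s1 : star (e j k) = e j k := (he.proj j k).isSelfAdjoint.star_eq
    have s2 : star (e (j - 1) k) = e (j - 1) k := (he.proj (j - 1) k).isSelfAdjoint.star_eq
    have h2 := conj_add_le (e j k) (-(e (j - 1) k)) (v k) (hv0 k)
    rw [star_add, star_neg, s1, s2, ← sub_eq_add_neg] at h2
    refine h2.trans (le_of_eq ?_)
    have e1 : e j k * (z k * v k * z k) * e j k = e j k * v k * e j k := by
      calc e j k * (z k * v k * z k) * e j k = (e j k * z k) * v k * (z k * e j k) := by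
            simp only [mul_assoc]
        _ = e j k * v k * e j k := by rw [hez k, hze k]
    have e2 : e (j - 1) k * (z k * v k * z k) * e (j - 1) k =
        e (j - 1) k * v k * e (j - 1) k := by
      calc e (j - 1) k * (z k * v k * z k) * e (j - 1) k
          = (e (j - 1) k * z k) * v k * (z k * e (j - 1) k) := by simp only [mul_assoc]
        _ = e (j - 1) k * v k * e (j - 1) k := by rw [hez' k, hze' k]
    rw [e1, e2]
    simp only [neg_mul, mul_neg, neg_neg]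
  have hterm0 : ∀ k, 0 ≤ (e j k - e (j - 1) k) * v k * (e j k - e (j - 1) k) := by
    intro k
    have s1 : star (e j k) = e j k := (he.proj j k).isSelfAdjoint.star_eq
    have s2 : star (e (j - 1) k) = e (j - 1) k := (he.proj (j - 1) k).isSelfAdjoint.star_eq
    have h3 : star (e j k - e (j - 1) k) = e j k - e (j - 1) k := by rw [star_sub, s1, s2]
    have h4 := star_left_conjugate_nonneg (hv0 k) (e j k - e (j - 1) k)
    rwa [h3] at h4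
  have hcol1 := T.col m N (fun k => z k * v k * z k) (fun k => e j k) ha0 (he.proj j)
    (fun k => he.dec j k)
  have hcol2 := T.col m N (fun k => z k * v k * z k) (fun k => e (j - 1) k) ha0
    (he.proj (j - 1)) (fun k => he.dec (j - 1) k)
  have hsum : ∑ k ∈ Finset.range N, (e j k - e (j - 1) k) * v k * (e j k - e (j - 1) k) ≤
      (2 : ℝ) • (∑ k ∈ Finset.range N, e j k * (z k * v k * z k) * e j k) +
        (2 : ℝ) • (∑ k ∈ Finset.range N, e (j - 1) k * (z k * v k * z k) * e (j - 1) k) := by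
    rw [Finset.smul_sum, Finset.smul_sum, ← Finset.sum_add_distrib]
    exact Finset.sum_le_sum fun k _ => hterm k
  have hN := T.N_mono m (Finset.sum_nonneg fun k _ => hterm0 k) hsum
  refine hN.trans ((T.toTS.N_add m _ _).trans ?_)
  rw [T.toTS.N_smul, T.toTS.N_smul, abs_of_pos (by norm_num : (0 : ℝ) < 2)]
  have hfin : 2 * (((2 : ℝ) ^ (m + 4)) ^ 2 * T.toTS.N m P) +
      2 * (((2 : ℝ) ^ (m + 4)) ^ 2 * T.toTS.N m P) ≤
      20 * ((2 : ℝ) ^ (m + 4)) ^ 2 * Λ ^ 2 * D ^ ((1 : ℝ) / 2 ^ (m + 1)) *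
        (Real.sqrt (1 / 2)) ^ (i - j) := by
    have h5 := mul_le_mul_of_nonneg_left hNP
      (by positivity : (0 : ℝ) ≤ 4 * ((2 : ℝ) ^ (m + 4)) ^ 2)
    calc 2 * (((2 : ℝ) ^ (m + 4)) ^ 2 * T.toTS.N m P) +
        2 * (((2 : ℝ) ^ (m + 4)) ^ 2 * T.toTS.N m P)
        = 4 * ((2 : ℝ) ^ (m + 4)) ^ 2 * T.toTS.N m P := by ring
      _ ≤ 4 * ((2 : ℝ) ^ (m + 4)) ^ 2 * (5 * Λ ^ 2 * D ^ ((1 : ℝ) / 2 ^ (m + 1)) *
          (Real.sqrt (1 / 2)) ^ (i - j)) := h5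
      _ = _ := by ring
  linarith [hcol1, hcol2, hfin]

end GD64
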