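import Pool.Agent.GD64.CMain

/-!
# GD64/Orl: Orlicz functions and the abstract form of the theorem

`D_L = K F / Φ(l 2^L)`. Facts: `Φ > 0` on `(0,∞)` (Delta_2), `Φ(2s) ≥ 2Φ(s)` (convexity, `Φ 0 = 0`),
`max (√r - s) 0 ≤ (s/Φ(s)) Φ(√r)`. `exc (x n) (λ/2) ≤ (λ/2)/Φ(λ/2) F ≤ (λ/2) K F/Φ(λ)`.
If `F = 0` all `x n = 0`. Otherwise choose `l > 0` with `Φ(l) t(1) ≤ F` (continuity at `0`).
Given `t0`: if `t(1) ≤ t0` take `p = 0, s = 0`. Otherwise let `L ≥ 1` be minimal with `C D_L ≤ t0`, `s = √C l 2^L`.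
`Φ(s) ≤ K^r Φ(l 2^L)` (`√C ≤ 2^r`); if `L = 1`: `Φ(l 2) ≤ K Φ(l) ≤ K F/t(1) ≤ K F/t0`; if `L ≥ 2`:
`C D_{L-1} > t0` gives `Φ(l 2^L) ≤ K Φ(l 2^(L-1)) < C K² F/t0`.
-/

namespace GD64

universe u

/-- Orlicz functions: continuous, nondecreasing, convex on `[0,∞)`, `Φ(0) = 0`, `Φ(s) → ∞`. -/
structure IsOrlicz (Φ : ℝ → ℝ) : Prop where
  cont : ContinuousOn Φ (Set.Ici 0)
  mono : MonotoneOn Φ (Set.Ici 0)
  conv : ConvexOn ℝ (Set.Ici 0) Φ
  zero : Φ 0 = 0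
  lim : Filter.Tendsto Φ Filter.atTop Filter.atTop

/-- The Delta_2 condition. -/
def DeltaTwo (Φ : ℝ → ℝ) : Prop := ∃ K : ℝ, ∀ s : ℝ, 0 < s → Φ (2 * s) ≤ K * Φ s

namespace OrlAux

variable {Φ : ℝ → ℝ}

theorem nonneg (hΦ : IsOrlicz Φ) {s : ℝ} (hs : 0 ≤ s) : 0 ≤ Φ s := by
  have := hΦ.mono (Set.mem_Ici.2 le_rfl) (Set.mem_Ici.2 hs) hs
  rwa [hΦ.zero] at this

/-- `Φ(c s) ≤ c Φ(s)` for `0 ≤ c ≤ 1`. -/
theorem scale (hΦ : IsOrlicz Φ) {c s : ℝ} (hc : 0 ≤ c) (hc1 : c ≤ 1) (hs : 0 ≤ s) :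
    Φ (c * s) ≤ c * Φ s := by
  have h := hΦ.conv.2 (Set.mem_Ici.2 hs) (Set.mem_Ici.2 (le_refl (0 : ℝ))) hc
    (by linarith : 0 ≤ 1 - c) (by ring)
  simp only [smul_eq_mul, mul_zero, add_zero, hΦ.zero] at h
  exact h

theorem two_mul_le (hΦ : IsOrlicz Φ) {s : ℝ} (hs : 0 ≤ s) : 2 * Φ s ≤ Φ (2 * s) := by
  have h := scale hΦ (c := 1 / 2) (s := 2 * s) (by norm_num) (by norm_num) (by linarith)
  have e : 1 / 2 * (2 * s) = s := by ring
  rw [e] at h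
  linarith

theorem delta (hΦ : IsOrlicz Φ) (h2 : DeltaTwo Φ) :
    ∃ K : ℝ, 1 ≤ K ∧ ∀ s : ℝ, 0 ≤ s → Φ (2 * s) ≤ K * Φ s := by
  obtain ⟨K, hK⟩ := h2
  refine ⟨max K 1, le_max_right _ _, fun s hs => ?_⟩
  rcases hs.eq_or_lt with rfl | hs
  · simp [hΦ.zero]
  · exact (hK s hs).trans (mul_le_mul_of_nonneg_right (le_max_left _ _) (nonneg hΦ hs.le))

theorem delta_pow {K : ℝ} (hK : 1 ≤ K)
    (h : ∀ s : ℝ, 0 ≤ s → Φ (2 * s) ≤ K * Φ s) {s : ℝ} (hs : 0 ≤ s) (r : ℕ) :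
    Φ (2 ^ r * s) ≤ K ^ r * Φ s := by
  induction r with
  | zero => simp
  | succ r ih =>
    have e : (2 : ℝ) ^ (r + 1) * s = 2 * (2 ^ r * s) := by ring
    rw [e]
    refine (h _ (by positivity)).trans ?_
    calc K * Φ (2 ^ r * s) ≤ K * (K ^ r * Φ s) := mul_le_mul_of_nonneg_left ih (by linarith)
      _ = K ^ (r + 1) * Φ s := by ring

theorem pos (hΦ : IsOrlicz Φ) {K : ℝ} (hK : 1 ≤ K)
    (h : ∀ s : ℝ, 0 ≤ s → Φ (2 * s) ≤ K * Φ s) {s : ℝ} (hs : 0 < s) : 0 < Φ s := by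
  by_contra hc
  have h0 : Φ s = 0 := le_antisymm (not_lt.1 hc) (nonneg hΦ hs.le)
  obtain ⟨B, hB⟩ := (Filter.tendsto_atTop_atTop.1 hΦ.lim) 1
  obtain ⟨r, hr⟩ := pow_unbounded_of_one_lt (B / s) (one_lt_two : (1 : ℝ) < 2)
  have h1 : B ≤ 2 ^ r * s := by
    rw [div_lt_iff₀ hs] at hr
    exact hr.le
  have h2 := hB _ h1
  have h3 := delta_pow hK h hs.le r
  rw [h0, mul_zero] at h3
  linarith

/-- `(x - s)_+ ≤ (s/Φ(s)) Φ(x)`. -/
theorem part_le (hΦ : IsOrlicz Φ) {s x : ℝ} (hs : 0 < s) (hp : 0 < Φ s) (hx : 0 ≤ x) :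
    max (x - s) 0 ≤ s / Φ s * Φ x := by
  have hx0 := nonneg hΦ hx
  refine _root_.max_le ?_ (by positivity)
  rcases le_total x s with h | h
  · have : 0 ≤ s / Φ s * Φ x := by positivity
    linarith
  · have hx1 : 0 < x := by linarith
    have h1 := scale hΦ (c := s / x) (s := x) (by positivity)
      (by rw [div_le_one hx1]; exact h) hx
    have e : s / x * x = s := by field_simp
    rw [e] at h1
    have h2 : x ≤ s / Φ s * Φ x := by
      rw [div_mul_eq_mul_div, le_div_iff₀ hp]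
      calc x * Φ s ≤ x * (s / x * Φ x) := mul_le_mul_of_nonneg_left h1 hx
        _ = s * Φ x := by field_simp
    linarith

theorem sqrt_cont (hΦ : IsOrlicz Φ) : Continuous fun r : ℝ => Φ (Real.sqrt r) :=
  hΦ.cont.comp_continuous Real.continuous_sqrt fun r => Real.sqrt_nonneg r

variable {A : Type u} [CStarAlgebra A] [PartialOrder A] [StarOrderedRing A] (T : TF A)

theorem exc_le (hΦ : IsOrlicz Φ) (a : A) {s F : ℝ} (hs : 0 < s) (hp : 0 < Φ s)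
    (h : T.t (cfc (fun r : ℝ => Φ (Real.sqrt r)) (star a * a)) ≤ F) :
    T.exc a s ≤ s / Φ s * F := by
  have h1 : T.exc a s ≤ T.t (cfc (fun r : ℝ => s / Φ s * Φ (Real.sqrt r)) (star a * a)) := by
    unfold TF.exc
    refine T.t_mono (cfc_mono (fun r _ => part_le hΦ hs hp (Real.sqrt_nonneg r)) (by fun_prop)
      ((sqrt_cont hΦ).const_mul _ |>.continuousOn))
  rw [cfc_const_mul (s / Φ s) (fun r : ℝ => Φ (Real.sqrt r)) _ (sqrt_cont hΦ).continuousOn,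
    map_smul, smul_eq_mul] at h1
  exact h1.trans (mul_le_mul_of_nonneg_left h (by positivity))

theorem cfc_nn (hΦ : IsOrlicz Φ) (a : A) :
    0 ≤ cfc (fun r : ℝ => Φ (Real.sqrt r)) (star a * a) :=
  cfc_nonneg fun r _ => nonneg hΦ (Real.sqrt_nonneg r)

theorem eq_zero (hΦ : IsOrlicz Φ) (hpos : ∀ s, 0 < s → 0 < Φ s) (a : A)
    (h : T.t (cfc (fun r : ℝ => Φ (Real.sqrt r)) (star a * a)) ≤ 0) : a = 0 := by
  have h1 := T.eq_zero_of_t (cfc_nn hΦ a) (le_antisymm h (T.t_nonneg (cfc_nn hΦ a)))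
  have hsa : IsSelfAdjoint (star a * a) := IsSelfAdjoint.star_mul_self a
  have h2 : cfc (fun r : ℝ => Φ (Real.sqrt r)) (star a * a) =
      cfc (fun _ : ℝ => (0 : ℝ)) (star a * a) := by
    rw [h1, cfc_const_zero ℝ (star a * a)]
  have h3 := (cfc_eq_cfc_iff_eqOn hsa (sqrt_cont hΦ).continuousOn
    (continuousOn_const (c := (0 : ℝ)))).1 h2
  have h4 : star a * a = 0 := by
    have e1 : cfc (fun r : ℝ => r) (star a * a) = cfc (fun _ : ℝ => (0 : ℝ)) (star a * a) := by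
      refine cfc_congr fun r hr => ?_
      have e2 : 0 ≤ r := spectrum_nonneg_of_nonneg (star_mul_self_nonneg a) hr
      by_contra hne
      have e3 : 0 < r := lt_of_le_of_ne e2 (Ne.symm hne)
      have e4 := hpos _ (Real.sqrt_pos.2 e3)
      have e5 := h3 hr
      simp only at e5
      linarith
    rwa [cfc_id' ℝ (star a * a) hsa, cfc_const_zero ℝ (star a * a)] at e1
  exact (CStarRing.star_mul_self_eq_zero_iff _).1 h4

end OrlAux

open OrlAux in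
theorem orlMain (Φ : ℝ → ℝ) (hΦ : IsOrlicz Φ) (h2 : DeltaTwo Φ) : ∃ C : ℝ, 0 < C ∧
    ∀ (A : Type u) [CStarAlgebra A] [PartialOrder A] [StarOrderedRing A] (T : TF A)
      (_ : WLim T) (x : ℕ → A) (_ : Mart T x) (_ : ∃ c : ℝ, ∀ n, ‖x n‖ ≤ c)
      (F : ℝ) (_ : ∀ n, T.t (cfc (fun r : ℝ => Φ (Real.sqrt r)) (star (x n) * x n)) ≤ F),
      ∃ y z : ℕ → A, Mart T y ∧ Mart T z ∧ (∀ k, y k + z k = x k) ∧
        (∀ t0 : ℝ, 0 < t0 → ∃ s : ℝ, 0 ≤ s ∧ Φ s ≤ C / t0 * F ∧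
          ∀ N, ∃ p ∈ T.F N, IsStarProjection p ∧ T.t (1 - p) ≤ t0 ∧
          p * (∑ k ∈ Finset.range (N + 1), star (df y k) * df y k) * p ≤ (s ^ 2) • (1 : A)) ∧
        (∀ t0 : ℝ, 0 < t0 → ∃ s : ℝ, 0 ≤ s ∧ Φ s ≤ C / t0 * F ∧
          ∀ N, ∃ p ∈ T.F N, IsStarProjection p ∧ T.t (1 - p) ≤ t0 ∧
          p * (∑ k ∈ Finset.range (N + 1), df z k * star (df z k)) * p ≤
            (s ^ 2) • (1 : A)) := by
  obtain ⟨K, hK1, hK⟩ := delta hΦ h2
  have hpos : ∀ s, 0 < s → 0 < Φ s := fun s hs => pos hΦ hK1 hK hs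
  have hK0 : 0 < K := by linarith
  obtain ⟨C₀, hC₀, hmain⟩ := cMain.{u} K hK1
  obtain ⟨r, hr⟩ := pow_unbounded_of_one_lt (Real.sqrt C₀) (one_lt_two : (1 : ℝ) < 2)
  refine ⟨K ^ (r + 2) * (C₀ + 1), by positivity, ?_⟩
  intro A _ _ _ T hW x hx hbd F hF
  obtain ⟨C, hC⟩ : ∃ C, C = K ^ (r + 2) * (C₀ + 1) := ⟨_, rfl⟩
  rw [← hC]
  have hC0 : 0 < C := by rw [hC]; positivity
  have hF0 : 0 ≤ F := (T.t_nonneg (cfc_nn hΦ (x 0))).trans (hF 0)
  have ht1 : 0 ≤ T.t 1 := by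
    have := T.t_pos 1
    simpa using this
  rcases hF0.eq_or_lt with hF00 | hFpos
  · -- everything vanishes
    have hx0 : ∀ n, x n = 0 := fun n => eq_zero T hΦ hpos (x n) (by rw [hF00]; exact hF n)
    have hM : Mart T (fun _ => (0 : A)) := ⟨fun k => zero_mem _, fun k => T.E_zero k⟩
    have hdf : ∀ k, df (fun _ => (0 : A)) k = 0 := by
      intro k
      cases k with
      | zero => rfl
      | succ k => exact sub_self _
    refine ⟨fun _ => 0, fun _ => 0, hM, hM, fun k => by rw [hx0 k, add_zero], ?_, ?_⟩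
    · intro t0 ht0
      refine ⟨0, le_rfl, ?_, fun N => ⟨1, one_mem _, IsStarProjection.one A, ?_, ?_⟩⟩
      · rw [hΦ.zero, ← hF00, mul_zero]
      · rw [sub_self, map_zero]; exact ht0.le
      · simp [hdf]
    · intro t0 ht0
      refine ⟨0, le_rfl, ?_, fun N => ⟨1, one_mem _, IsStarProjection.one A, ?_, ?_⟩⟩
      · rw [hΦ.zero, ← hF00, mul_zero]
      · rw [sub_self, map_zero]; exact ht0.le
      · simp [hdf]
  -- the level `l`
  obtain ⟨l, hl0, hl⟩ : ∃ l : ℝ, 0 < l ∧ Φ l * T.t 1 ≤ F := by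
    have h1 := hpos 1 one_pos
    refine ⟨min 1 (F / ((Φ 1 + 1) * (T.t 1 + 1))), lt_min one_pos (by positivity), ?_⟩
    obtain ⟨l, hl⟩ : ∃ l, l = min 1 (F / ((Φ 1 + 1) * (T.t 1 + 1))) := ⟨_, rfl⟩
    rw [← hl]
    have hl0 : 0 < l := by rw [hl]; exact lt_min one_pos (by positivity)
    have hl1 : l ≤ 1 := hl ▸ min_le_left _ _
    have hl2 : l ≤ F / ((Φ 1 + 1) * (T.t 1 + 1)) := hl ▸ min_le_right _ _
    have h3 := scale hΦ hl0.le hl1 (zero_le_one : (0 : ℝ) ≤ 1)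
    rw [mul_one] at h3
    rw [le_div_iff₀ (by positivity)] at hl2
    calc Φ l * T.t 1 ≤ (l * Φ 1) * T.t 1 := mul_le_mul_of_nonneg_right h3 ht1
      _ ≤ l * ((Φ 1 + 1) * (T.t 1 + 1)) := by
          have : 0 ≤ l * (Φ 1 + T.t 1 + 1) := by positivity
          nlinarith
      _ ≤ F := hl2
  have hlam : ∀ j : ℕ, 0 < l * 2 ^ j := fun j => by positivity
  have hsucc : ∀ j : ℕ, l * 2 ^ (j + 1) = 2 * (l * 2 ^ j) := fun j => by ring
  obtain ⟨D, hD⟩ : ∃ D : ℕ → ℝ, D = fun j => K * F / Φ (l * 2 ^ j) := ⟨_, rfl⟩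
  have hDv : ∀ j, D j = K * F / Φ (l * 2 ^ j) := fun j => by rw [hD]
  have hD0 : ∀ j, 0 ≤ D j := fun j => by
    rw [hDv]
    have := hpos _ (hlam j)
    positivity
  have hDt : T.t 1 ≤ D 0 := by
    rw [hDv, pow_zero, mul_one, le_div_iff₀ (hpos l hl0)]
    calc T.t 1 * Φ l = Φ l * T.t 1 := mul_comm _ _
      _ ≤ F := hl
      _ ≤ K * F := le_mul_of_one_le_left hF0 hK1
  have hDexc : ∀ n L, 2 * T.exc (x n) (l * 2 ^ L / 2) ≤ l * 2 ^ L * D L := by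
    intro n L
    have hh : 0 < l * 2 ^ L / 2 := by positivity
    have h3 := exc_le T hΦ (x n) hh (hpos _ hh) (hF n)
    have h4 := hK (l * 2 ^ L / 2) hh.le
    have e : 2 * (l * 2 ^ L / 2) = l * 2 ^ L := by ring
    rw [e] at h4
    have h5 := hpos _ hh
    have h6 := hpos _ (hlam L)
    rw [hDv]
    have h7 : F / Φ (l * 2 ^ L / 2) ≤ K * F / Φ (l * 2 ^ L) := by
      rw [div_le_div_iff₀ h5 h6]
      nlinarith
    calc 2 * T.exc (x n) (l * 2 ^ L / 2) ≤ 2 * (l * 2 ^ L / 2 / Φ (l * 2 ^ L / 2) * F) := by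
          linarith
      _ = l * 2 ^ L * (F / Φ (l * 2 ^ L / 2)) := by ring
      _ ≤ l * 2 ^ L * (K * F / Φ (l * 2 ^ L)) := mul_le_mul_of_nonneg_left h7 (hlam L).le
  have hD2 : ∀ j, 2 * D (j + 1) ≤ D j := by
    intro j
    rw [hDv, hDv, hsucc]
    have h3 := two_mul_le hΦ (hlam j).le
    have h4 := hpos _ (hlam j)
    have h5 : 0 < Φ (2 * (l * 2 ^ j)) := by linarith
    rw [← mul_div_assoc, div_le_div_iff₀ h5 h4]
    have h6 : 0 ≤ K * F := by positivity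
    nlinarith
  have hDK : ∀ j, D j ≤ K * D (j + 1) := by
    intro j
    rw [hDv, hDv, hsucc]
    have h3 := hK _ (hlam j).le
    have h4 := hpos _ (hlam j)
    have h5 : 0 < Φ (2 * (l * 2 ^ j)) := hpos _ (by positivity)
    rw [← mul_div_assoc, div_le_div_iff₀ h4 h5]
    have h6 : 0 ≤ K * F := by positivity
    nlinarith
  obtain ⟨y, z, hy, hz, hyz, h3, h4⟩ := hmain A T hW l hl0 x hx hbd D hD0 hDt hDexc hD2 hDK
  -- choice of the level
  have hlevel : ∀ t0 : ℝ, 0 < t0 → t0 < T.t 1 → ∃ L : ℕ, 1 ≤ L ∧ C₀ * D L ≤ t0 ∧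
      Φ (Real.sqrt C₀ * (l * 2 ^ L)) ≤ C / t0 * F := by
    intro t0 ht0 ht
    have hex : ∃ L : ℕ, 1 ≤ L ∧ C₀ * D L ≤ t0 := by
      obtain ⟨L, hL⟩ := pow_unbounded_of_one_lt (C₀ * (K * F) / Φ l / t0)
        (one_lt_two : (1 : ℝ) < 2)
      have hLD : ∀ j : ℕ, 2 ^ j * D j ≤ D 0 := by
        intro j
        induction j with
        | zero => simp
        | succ j ih =>
          calc (2 : ℝ) ^ (j + 1) * D (j + 1) = 2 ^ j * (2 * D (j + 1)) := by ring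
            _ ≤ 2 ^ j * D j := mul_le_mul_of_nonneg_left (hD2 j) (by positivity)
            _ ≤ D 0 := ih
      refine ⟨L + 1, by omega, ?_⟩
      have h5 := hLD (L + 1)
      have h6 : C₀ * D 0 ≤ t0 * 2 ^ L := by
        have e : C₀ * D 0 = C₀ * (K * F) / Φ l := by
          rw [hDv, pow_zero, mul_one]
          ring
        rw [e]
        rw [div_lt_iff₀ ht0] at hL
        linarith
      have h7 : (2 : ℝ) ^ L ≤ 2 ^ (L + 1) := pow_le_pow_right₀ (by norm_num) (by omega)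
      have h8 : (2 : ℝ) ^ (L + 1) * (C₀ * D (L + 1)) ≤ 2 ^ (L + 1) * t0 := by
        calc (2 : ℝ) ^ (L + 1) * (C₀ * D (L + 1)) = C₀ * (2 ^ (L + 1) * D (L + 1)) := by ring
          _ ≤ C₀ * D 0 := mul_le_mul_of_nonneg_left h5 hC₀.le
          _ ≤ t0 * 2 ^ L := h6
          _ ≤ t0 * 2 ^ (L + 1) := mul_le_mul_of_nonneg_left h7 ht0.le
          _ = _ := mul_comm _ _
      exact le_of_mul_le_mul_left h8 (by positivity)
    classical
    obtain ⟨hL1, hL2⟩ := Nat.find_spec hex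
    have hmin : ∀ j, j < Nat.find hex → ¬(1 ≤ j ∧ C₀ * D j ≤ t0) := fun j hj => Nat.find_min hex hj
    obtain ⟨L, hLdef⟩ : ∃ L, L = Nat.find hex := ⟨_, rfl⟩
    rw [← hLdef] at hL1 hL2 hmin
    refine ⟨L, hL1, hL2, ?_⟩
    -- `Φ(l 2^L)`
    have hb : Φ (l * 2 ^ L) ≤ K ^ 2 * (C₀ + 1) * (F / t0) := by
      obtain ⟨j, rfl⟩ : ∃ j, L = j + 1 := ⟨L - 1, by omega⟩
      rw [hsucc]
      refine (hK _ (hlam j).le).trans ?_
      have hFt : 0 < F / t0 := by positivity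
      have hbj : Φ (l * 2 ^ j) ≤ K * (C₀ + 1) * (F / t0) := by
        rcases Nat.eq_zero_or_pos j with rfl | hj
        · rw [pow_zero, mul_one]
          have e1 : Φ l ≤ F / t0 := by
            rw [le_div_iff₀ ht0]
            exact (mul_le_mul_of_nonneg_left ht.le (hpos l hl0).le).trans hl
          have e2 : 1 ≤ K * (C₀ + 1) := by nlinarith
          calc Φ l ≤ 1 * (F / t0) := by rw [one_mul]; exact e1
            _ ≤ _ := mul_le_mul_of_nonneg_right e2 hFt.le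
        · have e1 := hmin j (by omega)
          have e2 : t0 < C₀ * D j := by
            by_contra hcon
            exact e1 ⟨hj, not_lt.1 hcon⟩
          rw [hDv] at e2
          have e3 := hpos _ (hlam j)
          rw [← mul_div_assoc, lt_div_iff₀ e3] at e2
          have e4 : Φ (l * 2 ^ j) ≤ C₀ * (K * F) / t0 := by
            rw [le_div_iff₀ ht0]
            linarith
          refine e4.trans ?_
          have e5 : C₀ * (K * F) / t0 = K * C₀ * (F / t0) := by ring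
          rw [e5]
          have e6 : 0 ≤ K * (F / t0) := by positivity
          nlinarith
      calc K * Φ (l * 2 ^ j) ≤ K * (K * (C₀ + 1) * (F / t0)) :=
            mul_le_mul_of_nonneg_left hbj hK0.le
        _ = _ := by ring
    have hs1 : Real.sqrt C₀ * (l * 2 ^ L) ≤ 2 ^ r * (l * 2 ^ L) :=
      mul_le_mul_of_nonneg_right hr.le (hlam L).le
    have hs0 : 0 ≤ Real.sqrt C₀ * (l * 2 ^ L) := mul_nonneg (Real.sqrt_nonneg _) (hlam L).le
    have h5 := hΦ.mono (Set.mem_Ici.2 hs0) (Set.mem_Ici.2 (hs0.trans hs1)) hs1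
    refine h5.trans ((delta_pow hK1 hK (hlam L).le r).trans ?_)
    calc K ^ r * Φ (l * 2 ^ L) ≤ K ^ r * (K ^ 2 * (C₀ + 1) * (F / t0)) :=
          mul_le_mul_of_nonneg_left hb (by positivity)
      _ = C / t0 * F := by rw [hC]; ring
  have hsq : ∀ L : ℕ, (Real.sqrt C₀ * (l * 2 ^ L)) ^ 2 = C₀ * (l * 2 ^ L) ^ 2 := fun L => by
    rw [mul_pow, Real.sq_sqrt hC₀.le]
  refine ⟨y, z, hy, hz, hyz, ?_, ?_⟩
  · intro t0 ht0
    rcases le_or_gt (T.t 1) t0 with ht | ht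
    · refine ⟨0, le_rfl, ?_, fun N => ⟨0, zero_mem _, IsStarProjection.zero A, ?_, ?_⟩⟩
      · rw [hΦ.zero]; positivity
      · rw [sub_zero]; exact ht
      · simp
    · obtain ⟨L, hL1, hL2, hL3⟩ := hlevel t0 ht0 ht
      refine ⟨Real.sqrt C₀ * (l * 2 ^ L), mul_nonneg (Real.sqrt_nonneg _) (hlam L).le, hL3,
        fun N => ?_⟩
      obtain ⟨p, hpF, hp, hp1, hp2⟩ := h3 L hL1 N
      refine ⟨p, hpF, hp, hp1.trans hL2, ?_⟩
      rw [hsq]
      exact hp2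
  · intro t0 ht0
    rcases le_or_gt (T.t 1) t0 with ht | ht
    · refine ⟨0, le_rfl, ?_, fun N => ⟨0, zero_mem _, IsStarProjection.zero A, ?_, ?_⟩⟩
      · rw [hΦ.zero]; positivity
      · rw [sub_zero]; exact ht
      · simp
    · obtain ⟨L, hL1, hL2, hL3⟩ := hlevel t0 ht0 ht
      refine ⟨Real.sqrt C₀ * (l * 2 ^ L), mul_nonneg (Real.sqrt_nonneg _) (hlam L).le, hL3,
        fun N => ?_⟩
      obtain ⟨p, hpF, hp, hp1, hp2⟩ := h4 L hL1 N
      refine ⟨p, hpF, hp, hp1.trans hL2, ?_⟩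
      rw [hsq]
      exact hp2

end GD64
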