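import Pool.Agent.GD64.VNTF
import Pool.Agent.GD64.Orl

/-!
# GD64/Mu: generalized singular numbers, square functions, Orlicz moments
-/

namespace GD64

open scoped ComplexOrder InnerProductSpace
open Filter

universe u

variable {H : Type u} [NormedAddCommGroup H] [InnerProductSpace ℂ H] [CompleteSpace H]
  {M : VonNeumannAlgebra H}

open Classical in
/-- The (real) trace of an operator of `M`. -/
noncomputable def FinTrace.val (τ : FinTrace M) (a : H →L[ℂ] H) : ℝ :=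
  if h : a ∈ M.toStarSubalgebra then (τ.tr ⟨a, h⟩).re else 0

/-- The spectral projection `1_{(s,∞)}(|a|)`, as the projection onto the closure of the range of
`(|a| - s)₊`, `|a| = (a* a)^{1/2}`. -/
noncomputable def specAbs (a : H →L[ℂ] H) (s : ℝ) : H →L[ℂ] H :=
  suppP (cfc (fun r : ℝ => max (Real.sqrt r - s) 0) (star a * a))

/-- Generalized singular numbers: `μ_t(a) = inf {s > 0 : τ(1_{(s,∞)}(|a|)) ≤ t}`. -/
noncomputable def mu (τ : FinTrace M) (a : H →L[ℂ] H) (t : ℝ) : ℝ :=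
  sInf {s : ℝ | 0 < s ∧ τ.val (specAbs a s) ≤ t}

/-- `τ[Φ(|a|)]`. -/
noncomputable def phiMom (τ : FinTrace M) (Φ : ℝ → ℝ) (a : H →L[ℂ] H) : ℝ :=
  τ.val (cfc (fun r : ℝ => Φ (Real.sqrt r)) (star a * a))

/-- A martingale of operators of `M` for the filtration. -/
structure IsMart {τ : FinTrace M} (𝓕 : Filtr M τ) (x : ℕ → VA M) : Prop where
  mem : ∀ n, (x n : H →L[ℂ] H) ∈ 𝓕.N n
  ce : ∀ n, 𝓕.E n (x (n + 1)) = x n

/-- Column square function `S^c_n(y) = (∑_{k ≤ n} |dy_k|²)^{1/2}`. -/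
noncomputable def colSq (y : ℕ → VA M) (n : ℕ) : H →L[ℂ] H :=
  cfc Real.sqrt (((∑ k ∈ Finset.range (n + 1), star (df y k) * df y k : VA M)) : H →L[ℂ] H)

/-- Row square function `S^r_n(z) = (∑_{k ≤ n} |dz_k*|²)^{1/2}`. -/
noncomputable def rowSq (z : ℕ → VA M) (n : ℕ) : H →L[ℂ] H :=
  cfc Real.sqrt (((∑ k ∈ Finset.range (n + 1), df z k * star (df z k) : VA M)) : H →L[ℂ] H)

end GD64
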