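import Pool.Agent.GD64.Mu

/-!
# GD64/MuMain: the theorem for finite von Neumann algebras and bounded martingales

Proof. `exists_TF` gives `T`; `orlMain` with `F = ⨆ n, phiMom τ Φ (x n)` (bounded above: `‖x n‖ ≤ c`,
`phiMom ≤ Φ(c) τ(1)`; functional calculus in `VA M` and `B(H)` agree by `va_cfc`; `Φ ∘ sqrt` is only continuous
on `[0,∞)`: replace `Φ` by `fun s => Φ (max s 0)` or note that `sqrt ≥ 0`, `Real.sqrt` maps `ℝ` to `[0,∞)`, so
`fun r => Φ (sqrt r)` IS continuous on `ℝ`).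
`mu_le`: if `h ≥ 0` in `VA M`, `h ∈ F N`, `p ∈ F N` a projection, `p h p ≤ s²`, `t(1-p) ≤ t0`, then
`mu τ (cfc sqrt h) t0 ≤ s`: for `s' > s`, `f = specAbs (cfc sqrt h) s' = suppP (cfc (fun r => max (√r - s') 0) h)`
(`star S * S = h` for `S = cfc sqrt h`), `f h f ≥ s'² f`; `TF.t_le_of_cut` gives `t(f) ≤ t(1-p) ≤ t0`, so `s'` is in
the set. Monotone in `n`: if `s` is in the set for `h_{n+1} ≥ h_n` take `p = 1 - specAbs`: `p h_n p ≤ p h_{n+1} p ≤ s² p`.
So `mu τ (colSq y n) t0` is nondecreasing and bounded by `s`: it converges, the limit `m ≤ s`,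
`Φ m ≤ Φ s ≤ C/t0 F`. Same for rows. The constant is `2C`.
-/

namespace GD64

open scoped ComplexOrder InnerProductSpace
open Filter

universe u

section sandwich

variable {A : Type*} [CStarAlgebra A] [PartialOrder A] [StarOrderedRing A]

omit [PartialOrder A] [StarOrderedRing A] in
theorem sq_conj_eq {g S : A} (hg : IsStarProjection g) (hgS : Commute g S) :
    g * S * g * (g * S * g) = g * (S * S) * g := by
  have hgg : g * g = g := hg.isIdempotentElem.eq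
  have h1 : g * S * g = S * g := by rw [hgS.eq, mul_assoc, hgg]
  have h2 : g * (S * S) * g = S * S * g := by
    rw [(hgS.mul_right hgS).eq, mul_assoc, hgg]
  rw [h1, h2]
  calc S * g * (S * g) = S * (g * S) * g := by simp only [mul_assoc]
    _ = S * (S * g) * g := by rw [hgS.eq]
    _ = S * S * (g * g) := by simp only [mul_assoc]
    _ = S * S * g := by rw [hgg]

theorem sq_ge_of_ge {g S : A} (hg : IsStarProjection g) (hgS : Commute g S) (hS : 0 ≤ S)
    {s : ℝ} (hs : 0 ≤ s) (h : s • g ≤ g * S * g) : (s ^ 2) • g ≤ g * (S * S) * g := by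
  have hgg : g * g = g := hg.isIdempotentElem.eq
  have ha0 : 0 ≤ g * S * g := proj_conj_nonneg hg hS
  have hg0 : 0 ≤ g := hg.nonneg
  have hga : g * (g * S * g) = g * S * g := by
    rw [← mul_assoc, ← mul_assoc, hgg]
  have hag : g * S * g * g = g * S * g := by rw [mul_assoc, hgg]
  have h1 : 0 ≤ g * S * g - s • g := sub_nonneg.2 h
  have h2 : 0 ≤ g * S * g + s • g := add_nonneg ha0 (smul_nonneg hs hg0)
  have hc : Commute (g * S * g - s • g) (g * S * g + s • g) := by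
    have hc0 : Commute (g * S * g) (s • g) := by
      change g * S * g * (s • g) = s • g * (g * S * g)
      rw [mul_smul_comm, smul_mul_assoc, hag, hga]
    exact ((Commute.refl _).add_right hc0).sub_left (hc0.symm.add_right (Commute.refl _))
  have h3 := commute_mul_nonneg h1 h2 hc
  have h4 : (g * S * g - s • g) * (g * S * g + s • g) =
      g * (S * S) * g - (s ^ 2) • g := by
    rw [sub_mul, mul_add, mul_add, sq_conj_eq hg hgS, mul_smul_comm, smul_mul_assoc, hag, hga,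
      smul_mul_assoc, mul_smul_comm, hgg, smul_smul, pow_two]
    abel
  rw [h4] at h3
  exact sub_nonneg.1 h3

theorem sq_le_of_le {g S : A} (hg : IsStarProjection g) (hgS : Commute g S) (hS : 0 ≤ S)
    {s : ℝ} (hs : 0 ≤ s) (h : g * S * g ≤ s • g) : g * (S * S) * g ≤ (s ^ 2) • g := by
  have hgg : g * g = g := hg.isIdempotentElem.eq
  have ha0 : 0 ≤ g * S * g := proj_conj_nonneg hg hS
  have hg0 : 0 ≤ g := hg.nonneg
  have hga : g * (g * S * g) = g * S * g := by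
    rw [← mul_assoc, ← mul_assoc, hgg]
  have hag : g * S * g * g = g * S * g := by rw [mul_assoc, hgg]
  have h1 : 0 ≤ s • g - g * S * g := sub_nonneg.2 h
  have h2 : 0 ≤ s • g + g * S * g := add_nonneg (smul_nonneg hs hg0) ha0
  have hc : Commute (s • g - g * S * g) (s • g + g * S * g) := by
    have hc0 : Commute (g * S * g) (s • g) := by
      change g * S * g * (s • g) = s • g * (g * S * g)
      rw [mul_smul_comm, smul_mul_assoc, hag, hga]
    exact ((Commute.refl _).add_right hc0.symm).sub_left (hc0.add_right (Commute.refl _))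
  have h3 := commute_mul_nonneg h1 h2 hc
  have h4 : (s • g - g * S * g) * (s • g + g * S * g) =
      (s ^ 2) • g - g * (S * S) * g := by
    rw [sub_mul, mul_add, mul_add, sq_conj_eq hg hgS]
    simp only [mul_smul_comm, smul_mul_assoc, hag, hga, hgg]
    rw [smul_smul, pow_two]
    abel
  rw [h4] at h3
  exact sub_nonneg.1 h3

end sandwich

section

variable {H : Type u} [NormedAddCommGroup H] [InnerProductSpace ℂ H] [CompleteSpace H]
  {M : VonNeumannAlgebra H}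

theorem sqrt_mul_sqrt_cfc {h : H →L[ℂ] H} (h0 : 0 ≤ h) :
    cfc Real.sqrt h * cfc Real.sqrt h = h := by
  have hsa : IsSelfAdjoint h := IsSelfAdjoint.of_nonneg h0
  rw [← cfc_mul Real.sqrt Real.sqrt h (Real.continuous_sqrt.continuousOn)
    (Real.continuous_sqrt.continuousOn)]
  have h1 : cfc (fun x : ℝ => Real.sqrt x * Real.sqrt x) h = cfc (fun x : ℝ => x) h := by
    refine cfc_congr fun x hx => ?_
    exact Real.mul_self_sqrt (spectrum_nonneg_of_nonneg h0 hx)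
  rw [h1]
  exact cfc_id' ℝ h

theorem specAbs_facts (N : VonNeumannAlgebra H) {h : H →L[ℂ] H} (hN : h ∈ N) (h0 : 0 ≤ h)
    {s : ℝ} (hs : 0 ≤ s) :
    specAbs (cfc Real.sqrt h) s ∈ N ∧ IsStarProjection (specAbs (cfc Real.sqrt h) s) ∧
    (s ^ 2) • specAbs (cfc Real.sqrt h) s ≤
      specAbs (cfc Real.sqrt h) s * h * specAbs (cfc Real.sqrt h) s ∧
    (1 - specAbs (cfc Real.sqrt h) s) * h * (1 - specAbs (cfc Real.sqrt h) s) ≤
      (s ^ 2) • (1 - specAbs (cfc Real.sqrt h) s) := by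
  have hsa : IsSelfAdjoint h := IsSelfAdjoint.of_nonneg h0
  set S : H →L[ℂ] H := cfc Real.sqrt h with hSdef
  have hSS : S * S = h := sqrt_mul_sqrt_cfc h0
  have hS0 : 0 ≤ S := cfc_nonneg fun x _ => Real.sqrt_nonneg x
  have hSsa : IsSelfAdjoint S := IsSelfAdjoint.of_nonneg hS0
  have hSN : S ∈ N := cfc_mem_va N Real.sqrt hN hsa
  have hspec : specAbs S s = suppP (cfc (fun r : ℝ => max (r - s) 0) S) := by
    unfold specAbs
    rw [hSsa.star_eq, hSS, hSdef]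
    rw [← cfc_comp' (fun r : ℝ => max (r - s) 0) Real.sqrt h (by fun_prop)
      (Real.continuous_sqrt.continuousOn) hsa]
  rw [hspec]
  obtain ⟨hmem, hcomm, hlo, hup⟩ := vn_cut N hSN hSsa s
  have hfp : IsStarProjection (suppP (cfc (fun r : ℝ => max (r - s) 0) S)) := suppP_proj _
  set f : H →L[ℂ] H := suppP (cfc (fun r : ℝ => max (r - s) 0) S) with hf
  have hfS : Commute f S := (hcomm S (Commute.refl S)).symm
  have hfS' : Commute (1 - f) S := (Commute.one_left S).sub_left hfS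
  refine ⟨hmem, hfp, ?_, ?_⟩
  · have := sq_ge_of_ge hfp hfS hS0 hs hlo
    rwa [hSS] at this
  · have := sq_le_of_le hfp.one_sub hfS' hS0 hs hup
    rwa [hSS] at this

theorem FinTrace.val_coe (τ : FinTrace M) (a : VA M) :
    τ.val (a : H →L[ℂ] H) = (τ.tr a).re := by
  unfold FinTrace.val
  rw [dif_pos a.2]

/-- If a projection `p` with `t(1-p) ≤ t0` cuts `h` to at most `s²`, then every `s' > s` is in the
set defining `mu`. -/
theorem mu_set_of_proj {τ : FinTrace M} (𝓕 : Filtr M τ) (T : TF (VA M))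
    (hTt : ∀ a : VA M, T.t a = (τ.tr a).re)
    (hTF : ∀ n (a : VA M), a ∈ T.F n ↔ (a : H →L[ℂ] H) ∈ 𝓕.N n) {n : ℕ} {h : VA M}
    (h0 : 0 ≤ h) (hm : h ∈ T.F n) {p : VA M} (hp : IsStarProjection p) (hpm : p ∈ T.F n)
    {t0 s s' : ℝ} (hs : 0 ≤ s) (hss : s < s') (ht : T.t (1 - p) ≤ t0)
    (hle : p * h * p ≤ (s ^ 2) • (1 : VA M)) :
    τ.val (specAbs (cfc Real.sqrt (h : H →L[ℂ] H)) s') ≤ t0 := by
  have h0' : (0 : H →L[ℂ] H) ≤ (h : H →L[ℂ] H) := h0
  have hs' : 0 ≤ s' := hs.trans hss.le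
  obtain ⟨hmem, hproj, hlo, -⟩ := specAbs_facts (𝓕.N n) ((hTF n h).1 hm) h0' hs'
  set f : VA M := ⟨specAbs (cfc Real.sqrt (h : H →L[ℂ] H)) s', 𝓕.le n hmem⟩ with hf
  have hfc : (f : H →L[ℂ] H) = specAbs (cfc Real.sqrt (h : H →L[ℂ] H)) s' := rfl
  rw [← hfc, τ.val_coe, ← hTt]
  have hfp : IsStarProjection f :=
    ⟨Subtype.ext hproj.isIdempotentElem.eq, Subtype.ext hproj.isSelfAdjoint.star_eq⟩
  have hfm : f ∈ T.F n := (hTF n f).2 hmem
  have h1 : (s' ^ 2) • f ≤ f * h * f := hlo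
  have h2 : p * h * p ≤ (s ^ 2) • p := by
    have h3 := proj_conj_mono hp hle
    have hpp : p * p = p := hp.isIdempotentElem.eq
    have e1 : p * (p * h * p) * p = p * h * p := by
      calc p * (p * h * p) * p = (p * p) * h * (p * p) := by simp only [mul_assoc]
        _ = p * h * p := by rw [hpp]
    have e2 : p * ((s ^ 2) • (1 : VA M)) * p = (s ^ 2) • p := by
      rw [mul_smul_comm, smul_mul_assoc, mul_one, hpp]
    rwa [e1, e2] at h3
  have hlt : s ^ 2 < s' ^ 2 := by nlinarith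
  exact (T.t_le_of_cut hfp hp hfm hpm hlt h1 h2).trans ht

/-- The sequence of singular numbers of an increasing sequence of squares converges, and the limit
is at most `s`. -/
theorem mu_limit {τ : FinTrace M} (𝓕 : Filtr M τ) (T : TF (VA M))
    (hTt : ∀ a : VA M, T.t a = (τ.tr a).re)
    (hTF : ∀ n (a : VA M), a ∈ T.F n ↔ (a : H →L[ℂ] H) ∈ 𝓕.N n) {h : ℕ → VA M}
    (h0 : ∀ n, 0 ≤ h n) (hm : ∀ n, h n ∈ T.F n) (hmono : ∀ n, h n ≤ h (n + 1))
    {t0 s : ℝ} (hs : 0 ≤ s)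
    (hle : ∀ N, ∃ p ∈ T.F N, IsStarProjection p ∧ T.t (1 - p) ≤ t0 ∧
      p * h N * p ≤ (s ^ 2) • (1 : VA M)) :
    ∃ m : ℝ, 0 ≤ m ∧ m ≤ s ∧
      Tendsto (fun n => mu τ (cfc Real.sqrt (h n : H →L[ℂ] H)) t0) atTop (nhds m) := by
  have hbdd : ∀ n, BddBelow {r : ℝ | 0 < r ∧
      τ.val (specAbs (cfc Real.sqrt (h n : H →L[ℂ] H)) r) ≤ t0} :=
    fun n => ⟨0, fun r hr => hr.1.le⟩
  have hset : ∀ n, ∀ r, s < r → r ∈ {r : ℝ | 0 < r ∧
      τ.val (specAbs (cfc Real.sqrt (h n : H →L[ℂ] H)) r) ≤ t0} := by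
    intro n r hr
    obtain ⟨p, hpm, hp, ht, hl⟩ := hle n
    exact ⟨hs.trans_lt hr,
      mu_set_of_proj 𝓕 T hTt hTF (h0 n) (hm n) hp hpm hs hr ht hl⟩
  have hmu0 : ∀ n, 0 ≤ mu τ (cfc Real.sqrt (h n : H →L[ℂ] H)) t0 :=
    fun n => Real.sInf_nonneg fun r hr => hr.1.le
  have hmus : ∀ n, mu τ (cfc Real.sqrt (h n : H →L[ℂ] H)) t0 ≤ s := by
    intro n
    refine le_of_forall_gt_imp_ge_of_dense fun r hr => ?_
    exact csInf_le (hbdd n) (hset n r hr)
  have hmon : Monotone fun n => mu τ (cfc Real.sqrt (h n : H →L[ℂ] H)) t0 := by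
    refine monotone_nat_of_le_succ fun n => ?_
    refine le_csInf ⟨s + 1, hset (n + 1) (s + 1) (by linarith)⟩ fun r hr => ?_
    obtain ⟨hr0, hrt⟩ := hr
    refine le_of_forall_gt_imp_ge_of_dense fun r' hr' => ?_
    refine csInf_le (hbdd n) ⟨hr0.trans hr', ?_⟩
    -- the projection `p = 1 - specAbs` at time `n + 1`
    have h0' : (0 : H →L[ℂ] H) ≤ (h (n + 1) : H →L[ℂ] H) := h0 (n + 1)
    obtain ⟨hmem, hproj, -, hup⟩ :=
      specAbs_facts (𝓕.N (n + 1)) ((hTF (n + 1) _).1 (hm (n + 1))) h0' hr0.le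
    set f : VA M := ⟨specAbs (cfc Real.sqrt (h (n + 1) : H →L[ℂ] H)) r,
      𝓕.le (n + 1) hmem⟩ with hf
    have hfp : IsStarProjection f :=
      ⟨Subtype.ext hproj.isIdempotentElem.eq, Subtype.ext hproj.isSelfAdjoint.star_eq⟩
    have hpp : IsStarProjection (1 - f) := hfp.one_sub
    have hfm : f ∈ T.F (n + 1) := (hTF (n + 1) f).2 hmem
    have hpm : 1 - f ∈ T.F (n + 1) := sub_mem (one_mem _) hfm
    have hup' : (1 - f) * h (n + 1) * (1 - f) ≤ (r ^ 2) • (1 - f) := hup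
    have h1f : 1 - f ≤ 1 := sub_le_self _ hfp.nonneg
    have hle1 : (1 - f) * h n * (1 - f) ≤ (r ^ 2) • (1 : VA M) :=
      ((proj_conj_mono hpp (hmono n)).trans hup').trans
        (smul_le_smul_of_nonneg_left h1f (by positivity))
    have ht1 : T.t (1 - (1 - f)) ≤ t0 := by
      rw [sub_sub_cancel, hTt, ← τ.val_coe]
      exact hrt
    exact mu_set_of_proj 𝓕 T hTt hTF (n := n + 1) (h0 n) (T.F_le (Nat.le_succ n) (hm n)) hpp hpm
      hr0.le hr' ht1 hle1
  have hba : BddAbove (Set.range fun n => mu τ (cfc Real.sqrt (h n : H →L[ℂ] H)) t0) :=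
    ⟨s, by rintro _ ⟨n, rfl⟩; exact hmus n⟩
  refine ⟨⨆ n, mu τ (cfc Real.sqrt (h n : H →L[ℂ] H)) t0, ?_, ciSup_le hmus,
    tendsto_atTop_ciSup hmon hba⟩
  exact (hmu0 0).trans (le_ciSup hba 0)

end

theorem stage1 (Φ : ℝ → ℝ) (hΦ : IsOrlicz Φ) (h2 : DeltaTwo Φ) :
    ∃ C : ℝ, 0 < C ∧
      ∀ (H : Type u) [NormedAddCommGroup H] [InnerProductSpace ℂ H] [CompleteSpace H]
        (M : VonNeumannAlgebra H) (τ : FinTrace M) (𝓕 : Filtr M τ) (x : ℕ → VA M),
        IsMart 𝓕 x → (∃ c : ℝ, ∀ n, ‖(x n : H →L[ℂ] H)‖ ≤ c) →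
        ∃ y z : ℕ → VA M, IsMart 𝓕 y ∧ IsMart 𝓕 z ∧ (∀ n, x n = y n + z n) ∧
          ∀ t : ℝ, 0 < t → ∃ m₁ m₂ : ℝ,
            Tendsto (fun n => mu τ (colSq y n) t) atTop (nhds m₁) ∧
            Tendsto (fun n => mu τ (rowSq z n) t) atTop (nhds m₂) ∧
            Φ m₁ + Φ m₂ ≤ C / t * ⨆ n, phiMom τ Φ (x n : H →L[ℂ] H) := by
  obtain ⟨C, hC, hmain⟩ := orlMain.{u} Φ hΦ h2
  refine ⟨2 * C, by positivity, ?_⟩
  intro H _ _ _ M τ 𝓕 x hx hc
  obtain ⟨c, hc⟩ := hc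
  obtain ⟨T, hTt, hTE, hTF, hW⟩ := exists_TF 𝓕
  have hmart : ∀ {y : ℕ → VA M}, Mart T y ↔ IsMart 𝓕 y := by
    intro y
    constructor
    · intro h
      exact ⟨fun n => (hTF n _).1 (h.mem n), fun n => by rw [← hTE]; exact h.ce n⟩
    · intro h
      exact ⟨fun n => (hTF n _).2 (h.mem n), fun n => by rw [hTE]; exact h.ce n⟩
  have hcont : Continuous fun r : ℝ => Φ (Real.sqrt r) := by
    have h1 : Continuous fun r : ℝ => (⟨Real.sqrt r, Real.sqrt_nonneg r⟩ : Set.Ici (0 : ℝ)) :=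
      Real.continuous_sqrt.subtype_mk _
    exact (continuousOn_iff_continuous_domRestrict.1 hΦ.cont).comp h1
  have hphi : ∀ n, phiMom τ Φ (x n : H →L[ℂ] H) =
      T.t (cfc (fun r : ℝ => Φ (Real.sqrt r)) (star (x n) * x n)) := by
    intro n
    unfold phiMom
    have h3 := va_cfc M (fun r : ℝ => Φ (Real.sqrt r)) (a := star (x n) * x n)
      (IsSelfAdjoint.star_mul_self _) hcont
    have h4 : ((star (x n) * x n : VA M) : H →L[ℂ] H) =
        star (x n : H →L[ℂ] H) * (x n : H →L[ℂ] H) := rfl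
    rw [h4] at h3
    rw [← h3, τ.val_coe, hTt]
  have hc0 : 0 ≤ c := (norm_nonneg _).trans (hc 0)
  have hbd : BddAbove (Set.range fun n => phiMom τ Φ (x n : H →L[ℂ] H)) := by
    refine ⟨T.t (algebraMap ℝ (VA M) (Φ c)), ?_⟩
    rintro _ ⟨n, rfl⟩
    change phiMom τ Φ (x n : H →L[ℂ] H) ≤ _
    rw [hphi n]
    refine T.t_mono ?_
    refine cfc_le_algebraMap _ _ _ (fun r hr => ?_) hcont.continuousOn
      (IsSelfAdjoint.star_mul_self _)
    have h0 : 0 ≤ r := spectrum_nonneg_of_nonneg (star_mul_self_nonneg (x n)) hr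
    have h1 : ‖r‖ ≤ ‖star (x n) * x n‖ := by
      have : Nontrivial (VA M) := by
        by_contra hnt
        rw [not_nontrivial_iff_subsingleton] at hnt
        rw [spectrum.of_subsingleton] at hr
        exact hr
      exact spectrum.norm_le_norm_of_mem hr
    have h5 : ‖star (x n) * x n‖ ≤ c ^ 2 := by
      rw [CStarRing.norm_star_mul_self, ← pow_two]
      exact pow_le_pow_left₀ (norm_nonneg _) (hc n) 2
    rw [Real.norm_of_nonneg h0] at h1
    have h6 : Real.sqrt r ≤ c := by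
      rw [Real.sqrt_le_iff]
      exact ⟨hc0, h1.trans h5⟩
    exact hΦ.mono (Real.sqrt_nonneg r) hc0 h6
  obtain ⟨y, z, hy, hz, hyz, hcol, hrow⟩ := hmain (VA M) T hW x (hmart.2 hx) ⟨c, hc⟩
    (⨆ n, phiMom τ Φ (x n : H →L[ℂ] H)) (fun n => by
      rw [← hphi n]
      exact le_ciSup hbd n)
  refine ⟨y, z, hmart.1 hy, hmart.1 hz, fun n => (hyz n).symm, ?_⟩
  intro t ht
  obtain ⟨s₁, hs₁, hΦ₁, hp₁⟩ := hcol t ht
  obtain ⟨s₂, hs₂, hΦ₂, hp₂⟩ := hrow t ht
  have hdf : ∀ {w : ℕ → VA M}, Mart T w → ∀ {k n : ℕ}, k ≤ n → df w k ∈ T.F n := by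
    intro w hw k n hkn
    cases k with
    | zero => exact T.F_le hkn (hw.mem 0)
    | succ k =>
      exact sub_mem (T.F_le hkn (hw.mem (k + 1))) (T.F_le (by omega) (hw.mem k))
  obtain ⟨m₁, hm₁, hms₁, hlim₁⟩ := mu_limit 𝓕 T hTt hTF
    (h := fun n => ∑ k ∈ Finset.range (n + 1), star (df y k) * df y k)
    (fun n => Finset.sum_nonneg fun k _ => star_mul_self_nonneg _)
    (fun n => sum_mem fun k hk => by
      have hk' : k ≤ n := by rw [Finset.mem_range] at hk; omega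
      exact mul_mem (star_mem (hdf hy hk')) (hdf hy hk'))
    (fun n => by
      rw [Finset.sum_range_succ _ (n + 1)]
      exact le_add_of_nonneg_right (star_mul_self_nonneg _))
    (t0 := t) hs₁ hp₁
  obtain ⟨m₂, hm₂, hms₂, hlim₂⟩ := mu_limit 𝓕 T hTt hTF
    (h := fun n => ∑ k ∈ Finset.range (n + 1), df z k * star (df z k))
    (fun n => Finset.sum_nonneg fun k _ => mul_star_self_nonneg _)
    (fun n => sum_mem fun k hk => by
      have hk' : k ≤ n := by rw [Finset.mem_range] at hk; omega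
      exact mul_mem (hdf hz hk') (star_mem (hdf hz hk')))
    (fun n => by
      rw [Finset.sum_range_succ _ (n + 1)]
      exact le_add_of_nonneg_right (mul_star_self_nonneg _))
    (t0 := t) hs₂ hp₂
  refine ⟨m₁, m₂, hlim₁, hlim₂, ?_⟩
  have e1 : Φ m₁ ≤ Φ s₁ := hΦ.mono hm₁ hs₁ hms₁
  have e2 : Φ m₂ ≤ Φ s₂ := hΦ.mono hm₂ hs₂ hms₂
  calc Φ m₁ + Φ m₂ ≤ C / t * (⨆ n, phiMom τ Φ (x n : H →L[ℂ] H)) +
        C / t * ⨆ n, phiMom τ Φ (x n : H →L[ℂ] H) :=
        add_le_add (e1.trans hΦ₁) (e2.trans hΦ₂)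
    _ = 2 * C / t * ⨆ n, phiMom τ Φ (x n : H →L[ℂ] H) := by ring

end GD64
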