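import Pool.Agent.GD64.OrlS
import Pool.Agent.GD64.MuMain

/-!
# GD64/MuMainS: the theorem for finite von Neumann algebras and all martingales of bounded operators (stage 2)

Copy the proof of `stage1`, with `orlMainS` in place of `orlMain`; `F = ⨆ n, phiMom τ Φ (x n)` is finite by hypothesis.
-/

namespace GD64

open scoped ComplexOrder InnerProductSpace
open Filter

universe u

theorem stage2 (Φ : ℝ → ℝ) (hΦ : IsOrlicz Φ) (h2 : DeltaTwo Φ) :
    ∃ C : ℝ, 0 < C ∧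
      ∀ (H : Type u) [NormedAddCommGroup H] [InnerProductSpace ℂ H] [CompleteSpace H]
        (M : VonNeumannAlgebra H) (τ : FinTrace M) (𝓕 : Filtr M τ) (x : ℕ → VA M),
        IsMart 𝓕 x → BddAbove (Set.range fun n => phiMom τ Φ (x n : H →L[ℂ] H)) →
        ∃ y z : ℕ → VA M, IsMart 𝓕 y ∧ IsMart 𝓕 z ∧ (∀ n, x n = y n + z n) ∧
          ∀ t : ℝ, 0 < t → ∃ m₁ m₂ : ℝ,
            Tendsto (fun n => mu τ (colSq y n) t) atTop (nhds m₁) ∧
            Tendsto (fun n => mu τ (rowSq z n) t) atTop (nhds m₂) ∧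
            Φ m₁ + Φ m₂ ≤ C / t * ⨆ n, phiMom τ Φ (x n : H →L[ℂ] H) := by
  obtain ⟨C, hC, hmain⟩ := orlMainS.{u} Φ hΦ h2
  refine ⟨2 * C, by positivity, ?_⟩
  intro H _ _ _ M τ 𝓕 x hx hbd
  obtain ⟨T, hTt, hTE, hTF, hW⟩ := exists_TF 𝓕
  have hmart : ∀ {y : ℕ → VA M}, Mart T y ↔ IsMart 𝓕 y := by
    intro y
    constructor
    · intro h
      exact ⟨fun n => (hTF n _).1 (h.mem n), fun n => by rw [← hTE]; exact h.ce n⟩
    · intro h
      exact ⟨fun n => (hTF n _).2 (h.mem n), fun n => by rw [hTE]; exact h.ce n⟩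
  have hcont : Continuous fun r : ℝ => Φ (Real.sqrt r) := by
    have h1 : Continuous fun r : ℝ => (⟨Real.sqrt r, Real.sqrt_nonneg r⟩ : Set.Ici (0 : ℝ)) :=
      Real.continuous_sqrt.subtype_mk _
    exact (continuousOn_iff_continuous_domRestrict.1 hΦ.cont).comp h1
  have hphi : ∀ n, phiMom τ Φ (x n : H →L[ℂ] H) =
      T.t (cfc (fun r : ℝ => Φ (Real.sqrt r)) (star (x n) * x n)) := by
    intro n
    unfold phiMom
    have h3 := va_cfc M (fun r : ℝ => Φ (Real.sqrt r)) (a := star (x n) * x n)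
      (IsSelfAdjoint.star_mul_self _) hcont
    have h4 : ((star (x n) * x n : VA M) : H →L[ℂ] H) =
        star (x n : H →L[ℂ] H) * (x n : H →L[ℂ] H) := rfl
    rw [h4] at h3
    rw [← h3, τ.val_coe, hTt]
  obtain ⟨y, z, hy, hz, hyz, hcol, hrow⟩ := hmain (VA M) T hW x (hmart.2 hx)
    (⨆ n, phiMom τ Φ (x n : H →L[ℂ] H)) (fun n => by
      rw [← hphi n]
      exact le_ciSup hbd n)
  refine ⟨y, z, hmart.1 hy, hmart.1 hz, fun n => (hyz n).symm, ?_⟩
  intro t ht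
  obtain ⟨s₁, hs₁, hΦ₁, hp₁⟩ := hcol t ht
  obtain ⟨s₂, hs₂, hΦ₂, hp₂⟩ := hrow t ht
  have hdf : ∀ {w : ℕ → VA M}, Mart T w → ∀ {k n : ℕ}, k ≤ n → df w k ∈ T.F n := by
    intro w hw k n hkn
    cases k with
    | zero => exact T.F_le hkn (hw.mem 0)
    | succ k =>
      exact sub_mem (T.F_le hkn (hw.mem (k + 1))) (T.F_le (by omega) (hw.mem k))
  obtain ⟨m₁, hm₁, hms₁, hlim₁⟩ := mu_limit 𝓕 T hTt hTF
    (h := fun n => ∑ k ∈ Finset.range (n + 1), star (df y k) * df y k)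
    (fun n => Finset.sum_nonneg fun k _ => star_mul_self_nonneg _)
    (fun n => sum_mem fun k hk => by
      have hk' : k ≤ n := by rw [Finset.mem_range] at hk; omega
      exact mul_mem (star_mem (hdf hy hk')) (hdf hy hk'))
    (fun n => by
      rw [Finset.sum_range_succ _ (n + 1)]
      exact le_add_of_nonneg_right (star_mul_self_nonneg _))
    (t0 := t) hs₁ hp₁
  obtain ⟨m₂, hm₂, hms₂, hlim₂⟩ := mu_limit 𝓕 T hTt hTF
    (h := fun n => ∑ k ∈ Finset.range (n + 1), df z k * star (df z k))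
    (fun n => Finset.sum_nonneg fun k _ => mul_star_self_nonneg _)
    (fun n => sum_mem fun k hk => by
      have hk' : k ≤ n := by rw [Finset.mem_range] at hk; omega
      exact mul_mem (hdf hz hk') (star_mem (hdf hz hk')))
    (fun n => by
      rw [Finset.sum_range_succ _ (n + 1)]
      exact le_add_of_nonneg_right (mul_star_self_nonneg _))
    (t0 := t) hs₂ hp₂
  refine ⟨m₁, m₂, hlim₁, hlim₂, ?_⟩
  have e1 : Φ m₁ ≤ Φ s₁ := hΦ.mono hm₁ hs₁ hms₁
  have e2 : Φ m₂ ≤ Φ s₂ := hΦ.mono hm₂ hs₂ hms₂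
  calc Φ m₁ + Φ m₂ ≤ C / t * (⨆ n, phiMom τ Φ (x n : H →L[ℂ] H)) +
        C / t * ⨆ n, phiMom τ Φ (x n : H →L[ℂ] H) :=
        add_le_add (e1.trans hΦ₁) (e2.trans hΦ₂)
    _ = 2 * C / t * ⨆ n, phiMom τ Φ (x n : H →L[ℂ] H) := by ring

end GD64
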