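import Pool.Agent.GD64.TS

/-!
# GD64/Ord: operator inequalities in a C*-algebra (no trace)
-/

namespace GD64

variable {A : Type*} [CStarAlgebra A] [PartialOrder A] [StarOrderedRing A]

/-- `0 ≤ a ≤ c` implies `a² ≤ c a` (conjugate `a ≤ c` by the square root of `a`). -/
theorem sq_le_smul {a : A} {c : ℝ} (ha : 0 ≤ a) (h : a ≤ c • (1 : A)) : a * a ≤ c • a := by
  have hs : 0 ≤ CFC.sqrt a := CFC.sqrt_nonneg a
  have hss : CFC.sqrt a * CFC.sqrt a = a := CFC.sqrt_mul_sqrt_self a ha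
  have h1 : star (CFC.sqrt a) * a * CFC.sqrt a ≤ star (CFC.sqrt a) * (c • (1 : A)) * CFC.sqrt a :=
    star_left_conjugate_le_conjugate h _
  rw [(IsSelfAdjoint.of_nonneg hs).star_eq] at h1
  have e1 : CFC.sqrt a * a * CFC.sqrt a = a * a := by
    nth_rewrite 2 [← hss]
    rw [← mul_assoc, hss, mul_assoc, hss]
  have e2 : CFC.sqrt a * (c • (1 : A)) * CFC.sqrt a = c • a := by
    rw [mul_smul_comm, mul_one, smul_mul_assoc, hss]
  rwa [e1, e2] at h1

/-- `(x+y)* b (x+y) ≤ 2 x* b x + 2 y* b y` for `b ≥ 0`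
(the difference is `(x-y)* b (x-y)`). -/
theorem conj_add_le (x y b : A) (hb : 0 ≤ b) :
    star (x + y) * b * (x + y) ≤ (2 : ℝ) • (star x * b * x) + (2 : ℝ) • (star y * b * y) := by
  have h1 : 0 ≤ star (x - y) * b * (x - y) := star_left_conjugate_nonneg hb _
  rw [← sub_nonneg]
  have e : (2 : ℝ) • (star x * b * x) + (2 : ℝ) • (star y * b * y) -
      star (x + y) * b * (x + y) = star (x - y) * b * (x - y) := by
    rw [two_smul, two_smul, star_add, star_sub]
    noncomm_ring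
  rwa [e]

theorem sq_add_le (x y : A) :
    star (x + y) * (x + y) ≤ (2 : ℝ) • (star x * x) + (2 : ℝ) • (star y * y) := by
  have h := conj_add_le x y 1 zero_le_one
  simpa using h

/-- Weighted Cauchy-Schwarz: `|∑ x_i|² ≤ ∑ w_i⁻¹ |x_i|²` if `w_i > 0`, `∑ w_i ≤ 1`.
Induction is not needed: `∑_{i,j} w_i w_j |x_i/w_i - x_j/w_j|² ≥ 0`. -/
theorem weighted_sq_le {ι : Type*} (s : Finset ι) (w : ι → ℝ) (hw : ∀ i ∈ s, 0 < w i)
    (hs : ∑ i ∈ s, w i ≤ 1) (x : ι → A) :
    star (∑ i ∈ s, x i) * (∑ i ∈ s, x i) ≤ ∑ i ∈ s, (w i)⁻¹ • (star (x i) * x i) := by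
  set X : A := ∑ i ∈ s, x i with hX
  set W : ℝ := ∑ i ∈ s, w i with hW
  have hXX : 0 ≤ star X * X := star_mul_self_nonneg X
  have key : ∑ i ∈ s, (w i)⁻¹ • (star (x i) * x i) - star X * X =
      ∑ i ∈ s, w i • (star ((w i)⁻¹ • x i - X) * ((w i)⁻¹ • x i - X)) +
        (1 - W) • (star X * X) := by
    have h1 : ∀ i ∈ s, w i • (star ((w i)⁻¹ • x i - X) * ((w i)⁻¹ • x i - X)) =
        (w i)⁻¹ • (star (x i) * x i) - star (x i) * X - star X * x i +
          w i • (star X * X) := by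
      intro i hi
      have hwi := (hw i hi).ne'
      have e1 : star ((w i)⁻¹ • x i - X) * ((w i)⁻¹ • x i - X) =
          ((w i)⁻¹ * (w i)⁻¹) • (star (x i) * x i) - (w i)⁻¹ • (star (x i) * X)
            - (w i)⁻¹ • (star X * x i) + star X * X := by
        rw [star_sub, star_smul, star_trivial, sub_mul, mul_sub, mul_sub, smul_mul_smul_comm,
          smul_mul_assoc, mul_smul_comm]
        abel
      rw [e1, smul_add, smul_sub, smul_sub, smul_smul, smul_smul, smul_smul, ← mul_assoc,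
        mul_inv_cancel₀ hwi, one_mul, one_smul, one_smul]
    rw [Finset.sum_congr rfl h1, Finset.sum_add_distrib, Finset.sum_sub_distrib,
      Finset.sum_sub_distrib, ← Finset.sum_smul, ← hW, ← Finset.mul_sum, ← hX,
      ← Finset.sum_mul, ← star_sum, ← hX, sub_smul, one_smul]
    abel
  rw [← sub_nonneg, key]
  refine add_nonneg (Finset.sum_nonneg fun i hi => smul_nonneg (hw i hi).le
    (star_mul_self_nonneg _)) (smul_nonneg (by linarith) hXX)

/-- Product of commuting nonnegative elements. -/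
theorem commute_mul_nonneg {a b : A} (ha : 0 ≤ a) (hb : 0 ≤ b) (h : Commute a b) :
    0 ≤ a * b := Commute.mul_nonneg ha hb h

/-- `0 ≤ a ≤ c` implies `a^(n+1) ≤ c^n a`. -/
theorem pow_succ_le_smul {a : A} {c : ℝ} (ha : 0 ≤ a) (hc : 0 ≤ c) (h : a ≤ c • (1 : A))
    (n : ℕ) : a ^ (n + 1) ≤ c ^ n • a := by
  induction n with
  | zero => simp
  | succ n ih =>
    have hs : 0 ≤ CFC.sqrt a := CFC.sqrt_nonneg a
    have hss : CFC.sqrt a * CFC.sqrt a = a := CFC.sqrt_mul_sqrt_self a ha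
    have hcomm : Commute (CFC.sqrt a) a := by
      have : Commute (CFC.sqrt a) (CFC.sqrt a * CFC.sqrt a) :=
        (Commute.refl _).mul_right (Commute.refl _)
      rwa [hss] at this
    have h1 : star (CFC.sqrt a) * a ^ (n + 1) * CFC.sqrt a ≤
        star (CFC.sqrt a) * (c ^ n • a) * CFC.sqrt a :=
      star_left_conjugate_le_conjugate ih _
    rw [(IsSelfAdjoint.of_nonneg hs).star_eq] at h1
    have e1 : CFC.sqrt a * a ^ (n + 1) * CFC.sqrt a = a ^ (n + 1 + 1) := by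
      rw [(hcomm.pow_right (n + 1)).eq, mul_assoc, hss, ← pow_succ]
    have e2 : CFC.sqrt a * (c ^ n • a) * CFC.sqrt a = c ^ n • (a * a) := by
      rw [mul_smul_comm, smul_mul_assoc, hcomm.eq, mul_assoc, hss]
    rw [e1, e2] at h1
    refine h1.trans ?_
    have h2 := smul_le_smul_of_nonneg_left (sq_le_smul ha h) (pow_nonneg hc n)
    rwa [smul_smul, ← pow_succ] at h2

/-- `x ≤ R + R^{1-s} x^s` for `x ≥ 0`, `s ≥ 1` (functional calculus). -/
theorem self_le_add_pow {a : A} (ha : 0 ≤ a) {R : ℝ} (hR : 0 < R) {s : ℕ} (hs : 1 ≤ s) :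
    a ≤ R • (1 : A) + (R ^ (s - 1))⁻¹ • a ^ s := by
  obtain ⟨m, rfl⟩ : ∃ m, s = m + 1 := ⟨s - 1, by omega⟩
  have hsa : IsSelfAdjoint a := IsSelfAdjoint.of_nonneg ha
  rw [← sub_nonneg, Nat.add_sub_cancel]
  have key : R • (1 : A) + (R ^ m)⁻¹ • a ^ (m + 1) - a =
      cfc (fun x : ℝ => R + (R ^ m)⁻¹ * x ^ (m + 1) - x) a := by
    rw [cfc_sub (fun x : ℝ => R + (R ^ m)⁻¹ * x ^ (m + 1)) (fun x : ℝ => x) a,
      cfc_add a (fun _ : ℝ => R) (fun x : ℝ => (R ^ m)⁻¹ * x ^ (m + 1)),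
      cfc_const_mul (R ^ m)⁻¹ (fun x : ℝ => x ^ (m + 1)) a, cfc_pow_id a (m + 1), cfc_id' ℝ a,
      cfc_const R a, Algebra.algebraMap_eq_smul_one]
  rw [key]
  refine cfc_nonneg fun x hx => ?_
  have hx0 : 0 ≤ x := spectrum_nonneg_of_nonneg ha hx
  rcases le_or_gt x R with h | h
  · have : 0 ≤ (R ^ m)⁻¹ * x ^ (m + 1) := by positivity
    linarith
  · have h1 : 1 ≤ (R ^ m)⁻¹ * x ^ m := by
      rw [inv_mul_eq_div, one_le_div (by positivity)]
      exact pow_le_pow_left₀ hR.le h.le m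
    have h2 : x ≤ (R ^ m)⁻¹ * x ^ (m + 1) := by
      rw [pow_succ, ← mul_assoc]
      nlinarith
    linarith

/-- Accretive elements are invertible: `(1-δa)*(1-δa) ≤ 1 - δc + δ²‖a‖² < 1` for small `δ`. -/
theorem isUnit_of_accretive {a : A} {c : ℝ} (hc : 0 < c) (h : c • (1 : A) ≤ a + star a) :
    IsUnit a := by
  rcases subsingleton_or_nontrivial A with hA | hA
  · exact isUnit_of_subsingleton a
  set M : ℝ := ‖a‖ + c + 1 with hM
  have ha0 : 0 ≤ ‖a‖ := norm_nonneg a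
  have hM0 : 0 < M := by linarith
  set δ : ℝ := c / M ^ 2 with hδ
  have hδ0 : 0 < δ := by positivity
  have hδM : δ * M ^ 2 = c := by
    rw [hδ]
    field_simp
  set r : ℝ := 1 - δ * c + δ ^ 2 * ‖a‖ ^ 2 with hr
  have hr0 : 0 ≤ r := by
    have h1 : δ * c ≤ 1 := by
      rw [hδ, div_mul_eq_mul_div, div_le_one (by positivity)]
      nlinarith
    have h2 : 0 ≤ δ ^ 2 * ‖a‖ ^ 2 := by positivity
    linarith
  have hr1 : r < 1 := by
    have h1 : ‖a‖ ^ 2 < M ^ 2 := by nlinarith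
    have h2 : δ * ‖a‖ ^ 2 < c := by
      calc δ * ‖a‖ ^ 2 < δ * M ^ 2 := mul_lt_mul_of_pos_left h1 hδ0
        _ = c := hδM
    have h3 : δ ^ 2 * ‖a‖ ^ 2 < δ * c := by
      calc δ ^ 2 * ‖a‖ ^ 2 = δ * (δ * ‖a‖ ^ 2) := by ring
        _ < δ * c := mul_lt_mul_of_pos_left h2 hδ0
    linarith
  have e1 : star (1 - δ • a) * (1 - δ • a) =
      1 - δ • (a + star a) + (δ ^ 2) • (star a * a) := by
    rw [star_sub, star_smul, star_one, star_trivial, sub_mul, mul_sub, mul_sub, one_mul,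
      mul_one, one_mul, smul_mul_smul_comm, smul_add, ← pow_two]
    abel
  have h1 : star a * a ≤ (‖a‖ ^ 2) • (1 : A) := by
    have h := CStarAlgebra.star_mul_le_algebraMap_norm_sq (a := a)
    rwa [Algebra.algebraMap_eq_smul_one] at h
  have h2 : star (1 - δ • a) * (1 - δ • a) ≤ algebraMap ℝ A r := by
    rw [e1, Algebra.algebraMap_eq_smul_one, hr, add_smul, sub_smul, one_smul, mul_smul, mul_smul]
    exact add_le_add (sub_le_sub_left (smul_le_smul_of_nonneg_left h hδ0.le) _)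
      (smul_le_smul_of_nonneg_left h1 (by positivity))
  have h3 : ‖star (1 - δ • a) * (1 - δ • a)‖ ≤ r :=
    (CStarAlgebra.norm_le_iff_le_algebraMap _ hr0 (star_mul_self_nonneg _)).mpr h2
  have h4 : ‖1 - δ • a‖ < 1 := by
    rw [CStarRing.norm_star_mul_self] at h3
    nlinarith [norm_nonneg (1 - δ • a)]
  have h5 : IsUnit (δ • a) := by
    have h := isUnit_one_sub_of_norm_lt_one h4
    rwa [sub_sub_cancel] at h
  have h6 : IsUnit (δ⁻¹ • (δ • a)) := by
    have hu : IsUnit (algebraMap ℝ A δ⁻¹) :=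
      (IsUnit.mk0 _ (inv_ne_zero hδ0.ne')).map (algebraMap ℝ A)
    rw [Algebra.smul_def]
    exact hu.mul h5
  rwa [smul_smul, inv_mul_cancel₀ hδ0.ne', one_smul] at h6

/-- the order between projections is the order of `A`. -/
theorem proj_le_of_mul {p q : A} (hp : IsStarProjection p) (hq : IsStarProjection q)
    (h : q * p = p) : p ≤ q := by
  have h1 : IsStarProjection (q - p) := hp.sub_of_mul_eq_right hq h
  exact sub_nonneg.mp h1.nonneg

/-- symmetric form. -/
theorem proj_mul_comm {p q : A} (hp : IsStarProjection p) (hq : IsStarProjection q)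
    (h : q * p = p) : p * q = p := by
  have h1 := congrArg star h
  rwa [star_mul, hp.isSelfAdjoint.star_eq, hq.isSelfAdjoint.star_eq] at h1

/-- conjugation by a projection. -/
theorem proj_conj_mono {p a b : A} (hp : IsStarProjection p) (h : a ≤ b) :
    p * a * p ≤ p * b * p := by
  have h1 := star_left_conjugate_le_conjugate h p
  rwa [hp.isSelfAdjoint.star_eq] at h1

theorem proj_conj_nonneg {p a : A} (hp : IsStarProjection p) (h : 0 ≤ a) : 0 ≤ p * a * p := by
  have h1 := proj_conj_mono hp h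
  simpa using h1

/-- `(x - y)² ≤ 2 x² + 2 y²` for self-adjoint elements. -/
theorem sub_sq_le {x y : A} (hx : IsSelfAdjoint x) (hy : IsSelfAdjoint y) :
    (x - y) * (x - y) ≤ (2 : ℝ) • (x * x) + (2 : ℝ) • (y * y) := by
  have h := sq_add_le x (-y)
  rw [← sub_eq_add_neg, star_neg, (hx.sub hy).star_eq, hx.star_eq, hy.star_eq, neg_mul_neg] at h
  exact h

/-- Splitting along a projection: `a ≤ 2 p a p + 2 (1-p) a (1-p)` for `a ≥ 0`. -/
theorem split_le {p a : A} (hp : IsStarProjection p) (ha : 0 ≤ a) :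
    a ≤ (2 : ℝ) • (p * a * p) + (2 : ℝ) • ((1 - p) * a * (1 - p)) := by
  have h := conj_add_le p (1 - p) a ha
  rw [add_sub_cancel, star_one, one_mul, mul_one, hp.isSelfAdjoint.star_eq,
    hp.one_sub.isSelfAdjoint.star_eq] at h
  exact h

end GD64
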