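import Pool.Agent.GD64.WLim

/-!
# GD64/Pieces: cutting a bounded self-adjoint martingale into positive pieces

`gp l i s`: `gp l 0 = 0`, `gp l 1 s = min (max s 0) (2l)`,
`gp l i s = min (max s 0) (l 2^i) - min (max s 0) (l 2^(i-1))` for `i ≥ 2`.
`0 ≤ gp l i ≤ l 2^i`, `∑_{L<i≤J} gp l i s ≤ max (s - l 2^L) 0` for `L ≥ 1`, and
`≤ l + max (s - l) 0` for `L = 0`; `∑_{0<i≤J} gp l i s = max s 0` for `s ≤ l 2^J`.
-/

namespace GD64

open Filter

/-- scalar pieces. -/
noncomputable def gp (l : ℝ) (i : ℕ) (s : ℝ) : ℝ :=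
  if i = 0 then 0 else if i = 1 then min (max s 0) (l * 2)
  else min (max s 0) (l * 2 ^ i) - min (max s 0) (l * 2 ^ (i - 1))

theorem gp_continuous (l : ℝ) (i : ℕ) : Continuous (gp l i) := by
  unfold gp
  split_ifs
  · exact continuous_const
  · exact (continuous_id.max continuous_const).min continuous_const
  · exact ((continuous_id.max continuous_const).min continuous_const).sub
      ((continuous_id.max continuous_const).min continuous_const)

theorem gp_nonneg {l : ℝ} (hl : 0 < l) (i : ℕ) (s : ℝ) : 0 ≤ gp l i s := by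
  unfold gp
  split_ifs with h1 h2
  · exact le_rfl
  · exact le_min (le_max_right _ _) (by positivity)
  · rw [sub_nonneg]
    refine min_le_min le_rfl ?_
    exact mul_le_mul_of_nonneg_left (pow_le_pow_right₀ (by norm_num) (Nat.sub_le _ _)) hl.le

theorem gp_le {l : ℝ} (hl : 0 < l) (i : ℕ) (s : ℝ) : gp l i s ≤ l * 2 ^ i := by
  unfold gp
  split_ifs with h1 h2
  · positivity
  · rw [h2, pow_one]; exact min_le_right _ _
  · have h3 : 0 ≤ min (max s 0) (l * 2 ^ (i - 1)) :=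
      le_min (le_max_right _ _) (by positivity)
    have h4 : min (max s 0) (l * 2 ^ i) ≤ l * 2 ^ i := min_le_right _ _
    linarith

/-- primitive of `gp`. -/
noncomputable def gP (l : ℝ) (j : ℕ) (s : ℝ) : ℝ :=
  if j = 0 then 0 else min (max s 0) (l * 2 ^ j)

theorem gp_succ (l : ℝ) (i : ℕ) (s : ℝ) : gp l (i + 1) s = gP l (i + 1) s - gP l i s := by
  unfold gp gP
  rcases Nat.eq_zero_or_pos i with h | h
  · subst h; simp
  · have h1 : ¬ (i + 1 = 0) := by omega
    have h2 : ¬ (i + 1 = 1) := by omega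
    have h3 : ¬ (i = 0) := by omega
    rw [if_neg h1, if_neg h2, if_neg h1, if_neg h3, Nat.add_sub_cancel]

theorem sum_gp (l : ℝ) {L J : ℕ} (hLJ : L ≤ J) (s : ℝ) :
    ∑ i ∈ Finset.Ioc L J, gp l i s = gP l J s - gP l L s := by
  induction J, hLJ using Nat.le_induction with
  | base => simp
  | succ J hJ ih =>
    rw [Finset.sum_Ioc_succ_top hJ, ih, gp_succ]; ring

theorem sum_gp_le {l : ℝ} (hl : 0 < l) {L J : ℕ} (hL : 1 ≤ L) (s : ℝ) :
    ∑ i ∈ Finset.Ioc L J, gp l i s ≤ max (s - l * 2 ^ L) 0 := by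
  rcases le_or_gt L J with h | h
  · rw [sum_gp l h]
    unfold gP
    rw [if_neg (by omega), if_neg (by omega)]
    have hp : 0 < l * 2 ^ L := by positivity
    have h1 : min (max s 0) (l * 2 ^ J) ≤ max s 0 := min_le_left _ _
    rcases le_or_gt (max s 0) (l * 2 ^ L) with h2 | h2
    · rw [min_eq_left h2]
      have := le_max_right (s - l * 2 ^ L) 0
      linarith
    · rw [min_eq_right h2.le]
      have h3 : 0 < s := by
        by_contra hc
        push Not at hc
        rw [max_eq_right hc] at h2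
        linarith
      rw [max_eq_left h3.le] at h1
      have := le_max_left (s - l * 2 ^ L) 0
      rw [max_eq_left h3.le] at *
      linarith
  · rw [Finset.Ioc_eq_empty_of_le h.le, Finset.sum_empty]
    exact le_max_right _ _

theorem sum_gp_le_zero {l : ℝ} (hl : 0 < l) (J : ℕ) (s : ℝ) :
    ∑ i ∈ Finset.Ioc 0 J, gp l i s ≤ l + max (s - l) 0 := by
  rw [sum_gp l (Nat.zero_le J)]
  unfold gP
  rw [if_pos rfl, sub_zero]
  have h0 := le_max_right (s - l) 0
  have h1 := le_max_left (s - l) 0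
  split_ifs
  · linarith
  · have h2 : min (max s 0) (l * 2 ^ J) ≤ max s 0 := min_le_left _ _
    have h3 : max s 0 ≤ l + max (s - l) 0 := max_le (by linarith) (by linarith)
    linarith

theorem sum_gp_eq {l : ℝ} (hl : 0 < l) {J : ℕ} (hJ : 1 ≤ J) {s : ℝ} (hs : s ≤ l * 2 ^ J) :
    ∑ i ∈ Finset.Ioc 0 J, gp l i s = max s 0 := by
  rw [sum_gp l (Nat.zero_le J)]
  unfold gP
  rw [if_pos rfl, sub_zero, if_neg (by omega)]
  exact min_eq_left (max_le hs (by positivity))

section cfcAux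

variable {A : Type*} [CStarAlgebra A] [PartialOrder A] [StarOrderedRing A]

/-- the spectrum of a bounded self-adjoint element. -/
theorem abs_le_of_mem_spectrum {a : A} {c : ℝ} (h : ‖a‖ ≤ c) {s : ℝ}
    (hs : s ∈ spectrum ℝ a) : |s| ≤ c := by
  rcases subsingleton_or_nontrivial A with hA | hA
  · rw [spectrum.of_subsingleton] at hs
    exact absurd hs (Set.notMem_empty _)
  · exact (spectrum.norm_le_norm_of_mem hs).trans h

theorem cfc_bd {a : A} (ha : IsSelfAdjoint a) {f : ℝ → ℝ} (hf : Continuous f) {c : ℝ}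
    (h0 : ∀ s, 0 ≤ f s) (hc : ∀ s, f s ≤ c) :
    0 ≤ cfc f a ∧ cfc f a ≤ c • (1 : A) ∧ ‖cfc f a‖ ≤ c := by
  refine ⟨cfc_nonneg fun s _ => h0 s, ?_, ?_⟩
  · rw [← Algebra.algebraMap_eq_smul_one]
    exact cfc_le_algebraMap f c a (fun s _ => hc s) hf.continuousOn ha
  · refine norm_cfc_le ((h0 0).trans (hc 0)) fun s _ => ?_
    rw [Real.norm_of_nonneg (h0 s)]
    exact hc s

/-- trace of a finite sum of functional calculi. -/
theorem t_sum_cfc (T : TF A) {a : A} (ha : IsSelfAdjoint a) {s : Finset ℕ} {f : ℕ → ℝ → ℝ}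
    (hf : ∀ i, Continuous (f i)) {g : ℝ → ℝ} (hg : Continuous g)
    (h : ∀ x, ∑ i ∈ s, f i x ≤ g x) : ∑ i ∈ s, T.t (cfc (f i) a) ≤ T.t (cfc g a) := by
  rw [← map_sum, ← cfc_sum f a s (fun i _ => (hf i).continuousOn)]
  refine T.t_mono ?_
  refine cfc_mono (fun x _ => ?_) ?_ hg.continuousOn
  · rw [Finset.sum_apply]; exact h x
  · have : (∑ i ∈ s, f i) = fun x => ∑ i ∈ s, f i x := by
      funext x; rw [Finset.sum_apply]
    rw [this]
    exact (continuous_finsetSum _ fun i _ => hf i).continuousOn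

end cfcAux

/-- One half of the pieces: for a sign `σ`. -/
theorem half_pieces {A : Type*} [CStarAlgebra A] [PartialOrder A] [StarOrderedRing A] (T : TF A)
    (hW : WLim T) {l : ℝ} (hl : 0 < l) {x : ℕ → A}
    (hs : ∀ n, IsSelfAdjoint (x n)) (J : ℕ) (σ : ℝ → ℝ) (hσ : Continuous σ)
    {D : ℕ → ℝ} (hD : ∀ j, 0 ≤ D j) (h1 : T.t 1 ≤ D 0)
    (hp : ∀ n L, T.t (cfc (fun s : ℝ => max (σ s - l * 2 ^ L) 0) (x n)) ≤ l * 2 ^ L * D L) :
    ∃ a : ℕ → A, (∀ i, ∀ y : A, Tendsto (fun n => T.t (cfc (fun s => gp l i (σ s)) (x n) * y))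
        (hyperfilter ℕ : Filter ℕ) (nhds (T.t (a i * y)))) ∧
      (∀ i, Mart T (fun k => T.E k (a i))) ∧
      (∀ i k, 0 ≤ T.E k (a i)) ∧ (∀ i k, T.E k (a i) ≤ (l * 2 ^ i) • (1 : A)) ∧
      (∀ L, ∑ i ∈ Finset.Ioc L J, T.t (T.E 0 (a i)) ≤ l * 2 ^ L * (2 * D L)) := by
  have hb : ∀ i n, 0 ≤ cfc (fun s => gp l i (σ s)) (x n) ∧
      cfc (fun s => gp l i (σ s)) (x n) ≤ (l * 2 ^ i) • (1 : A) ∧
      ‖cfc (fun s => gp l i (σ s)) (x n)‖ ≤ l * 2 ^ i := fun i n =>
    cfc_bd (hs n) ((gp_continuous l i).comp hσ) (fun s => gp_nonneg hl i _)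
      (fun s => gp_le hl i _)
  choose a ha using fun i => hW (fun n => cfc (fun s => gp l i (σ s)) (x n))
    ⟨l * 2 ^ i, fun n => (hb i n).2.2⟩
  refine ⟨a, ha, fun i => ⟨fun k => T.E_mem k _, fun k => T.E_E (Nat.le_succ k) _⟩,
    fun i k => TF.E_wlim_nonneg (ha i) (fun n => (hb i n).1) k,
    fun i k => TF.E_wlim_le (ha i) (fun n => (hb i n).1) (fun n => (hb i n).2.1) k, ?_⟩
  intro L
  -- limit of the sum of traces
  have hlim : Tendsto (fun n => ∑ i ∈ Finset.Ioc L J, T.t (cfc (fun s => gp l i (σ s)) (x n)))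
      (hyperfilter ℕ : Filter ℕ) (nhds (∑ i ∈ Finset.Ioc L J, T.t (T.E 0 (a i)))) := by
    refine tendsto_finsetSum _ fun i _ => ?_
    have h := ha i 1
    simp only [mul_one] at h
    rwa [T.t_E]
  refine le_of_tendsto' hlim fun n => ?_
  rcases Nat.eq_zero_or_pos L with hL | hL
  · subst hL
    have hle := t_sum_cfc T (hs n) (s := Finset.Ioc 0 J) (f := fun i s => gp l i (σ s))
      (fun i => (gp_continuous l i).comp hσ)
      (g := fun s => l + max (σ s - l * 2 ^ 0) 0)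
      (continuous_const.add ((hσ.sub continuous_const).max continuous_const))
      (fun s => by
        have := sum_gp_le_zero hl J (σ s)
        simpa using this)
    have hsplit : cfc (fun s => l + max (σ s - l * 2 ^ 0) 0) (x n) =
        l • (1 : A) + cfc (fun s => max (σ s - l * 2 ^ 0) 0) (x n) := by
      rw [cfc_const_add l (fun s => max (σ s - l * 2 ^ 0) 0) (x n)
        ((hσ.sub continuous_const).max continuous_const).continuousOn (hs n),
        Algebra.algebraMap_eq_smul_one]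
    rw [hsplit, map_add, map_smul, smul_eq_mul] at hle
    have h2 := hp n 0
    have h3 : l * T.t 1 ≤ l * D 0 := mul_le_mul_of_nonneg_left h1 hl.le
    simp only [pow_zero, mul_one] at hle h2 ⊢
    linarith
  · have hle := t_sum_cfc T (hs n) (s := Finset.Ioc L J) (f := fun i s => gp l i (σ s))
      (fun i => (gp_continuous l i).comp hσ)
      (g := fun s => max (σ s - l * 2 ^ L) 0)
      ((hσ.sub continuous_const).max continuous_const)
      (fun s => sum_gp_le hl hL (σ s))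
    have h2 := hp n L
    have h3 : 0 ≤ l * 2 ^ L * D L := mul_nonneg (by positivity) (hD L)
    linarith

/-- `a_i = wlim_n cfc (gp l i) (x n)`, `X i k = E k (a_i)`; `Y` the same for `-x`
(functions `gp l i (-s)`). `x k = ∑ X i k - ∑ Y i k`: `∑_i gp(s) - ∑_i gp(-s) = s` on `[-l 2^J, l 2^J]` and
`E_wlim_mart`. -/
theorem pieces {A : Type*} [CStarAlgebra A] [PartialOrder A] [StarOrderedRing A] (T : TF A)
    (hW : WLim T) {l : ℝ} (hl : 0 < l) {x : ℕ → A} (hx : Mart T x)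
    (hs : ∀ n, IsSelfAdjoint (x n)) {J : ℕ} (hJ : 1 ≤ J) (hc : ∀ n, ‖x n‖ ≤ l * 2 ^ J)
    {D : ℕ → ℝ} (hD : ∀ j, 0 ≤ D j) (h1 : T.t 1 ≤ D 0)
    (hp : ∀ n L, T.t (cfc (fun s : ℝ => max (s - l * 2 ^ L) 0) (x n)) ≤ l * 2 ^ L * D L)
    (hm : ∀ n L, T.t (cfc (fun s : ℝ => max (-s - l * 2 ^ L) 0) (x n)) ≤ l * 2 ^ L * D L) :
    ∃ X Y : ℕ → ℕ → A, (∀ i, Mart T (X i)) ∧ (∀ i, Mart T (Y i)) ∧
      (∀ i k, 0 ≤ X i k) ∧ (∀ i k, X i k ≤ (l * 2 ^ i) • (1 : A)) ∧
      (∀ i k, 0 ≤ Y i k) ∧ (∀ i k, Y i k ≤ (l * 2 ^ i) • (1 : A)) ∧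
      (∀ L, ∑ i ∈ Finset.Ioc L J, T.t (X i 0) ≤ l * 2 ^ L * (2 * D L)) ∧
      (∀ L, ∑ i ∈ Finset.Ioc L J, T.t (Y i 0) ≤ l * 2 ^ L * (2 * D L)) ∧
      (∀ k, x k = (∑ i ∈ Finset.Ioc 0 J, X i k) - ∑ i ∈ Finset.Ioc 0 J, Y i k) := by
  obtain ⟨a, ha, hma, h0a, hca, hsa⟩ := half_pieces T hW hl hs J (fun s => s) continuous_id
    hD h1 hp
  obtain ⟨b, hb, hmb, h0b, hcb, hsb⟩ := half_pieces T hW hl hs J (fun s => -s) continuous_neg
    hD h1 hm
  refine ⟨fun i k => T.E k (a i), fun i k => T.E k (b i), hma, hmb, h0a, hca, h0b, hcb, hsa,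
    hsb, fun k => ?_⟩
  rw [← T.E_sum, ← T.E_sum, ← T.E_sub]
  refine (TF.E_wlim_mart hx (b' := (∑ i ∈ Finset.Ioc 0 J, a i) - ∑ i ∈ Finset.Ioc 0 J, b i)
    (fun y => ?_) k).symm
  have e1 : ∀ n, x n = (∑ i ∈ Finset.Ioc 0 J, cfc (fun s => gp l i s) (x n)) -
      ∑ i ∈ Finset.Ioc 0 J, cfc (fun s => gp l i (-s)) (x n) := by
    intro n
    have hca' : ∀ i, ContinuousOn (fun s => gp l i s) (spectrum ℝ (x n)) := fun i =>
      (gp_continuous l i).continuousOn
    have hcb' : ∀ i, ContinuousOn (fun s => gp l i (-s)) (spectrum ℝ (x n)) := fun i =>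
      ((gp_continuous l i).comp continuous_neg).continuousOn
    have hA : ContinuousOn (∑ i ∈ Finset.Ioc 0 J, fun s => gp l i s) (spectrum ℝ (x n)) := by
      have : (∑ i ∈ Finset.Ioc 0 J, fun s => gp l i s) =
          fun s => ∑ i ∈ Finset.Ioc 0 J, gp l i s := by
        funext s; rw [Finset.sum_apply]
      rw [this]
      exact continuousOn_finsetSum _ fun i _ => hca' i
    have hB : ContinuousOn (∑ i ∈ Finset.Ioc 0 J, fun s => gp l i (-s))
        (spectrum ℝ (x n)) := by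
      have : (∑ i ∈ Finset.Ioc 0 J, fun s => gp l i (-s)) =
          fun s => ∑ i ∈ Finset.Ioc 0 J, gp l i (-s) := by
        funext s; rw [Finset.sum_apply]
      rw [this]
      exact continuousOn_finsetSum _ fun i _ => hcb' i
    rw [← cfc_sum (fun i s => gp l i s) (x n) _ (fun i _ => hca' i),
      ← cfc_sum (fun i s => gp l i (-s)) (x n) _ (fun i _ => hcb' i),
      ← cfc_sub _ _ (x n) hA hB]
    conv_lhs => rw [← cfc_id ℝ (x n) (hs n)]
    refine cfc_congr fun s hsp => ?_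
    have habs := abs_le_of_mem_spectrum (hc n) hsp
    have h2 := abs_le.mp habs
    simp only [Finset.sum_apply, id]
    rw [sum_gp_eq hl hJ h2.2, sum_gp_eq hl hJ (by linarith [h2.1])]
    rcases le_total s 0 with h | h
    · rw [max_eq_right h, max_eq_left (by linarith)]; ring
    · rw [max_eq_left h, max_eq_right (by linarith)]; ring
  have e2 : (fun n => T.t (x n * y)) = fun n =>
      (∑ i ∈ Finset.Ioc 0 J, T.t (cfc (fun s => gp l i s) (x n) * y)) -
      ∑ i ∈ Finset.Ioc 0 J, T.t (cfc (fun s => gp l i (-s)) (x n) * y) := by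
    funext n
    conv_lhs => rw [e1 n]
    rw [sub_mul, map_sub, Finset.sum_mul, Finset.sum_mul, map_sum, map_sum]
  rw [e2, sub_mul, map_sub, Finset.sum_mul, Finset.sum_mul, map_sum, map_sum]
  exact (tendsto_finsetSum _ fun i _ => ha i y).sub (tendsto_finsetSum _ fun i _ => hb i y)

end GD64
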