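import Pool.Agent.GD64.Pieces
import Pool.Agent.GD64.StopS

/-!
# GD64/PiecesS: pieces and remainders of a self-adjoint martingale, not uniformly bounded (stage 2)

`X i k = E k (a_i)`, `a_i = wlim_n cfc (gp l i) (x n)` (bounded by `l 2^i`), `Y` the same for `-x`;
`Rm L k = x k - ∑_{0<i≤L} (X i k - Y i k)`.
For `c ∈ F k`, `|c| ≤ 1`: `t(c Rm_L k) = lim_n t(c r_L(x n))` with
`r_L(s) = s - ∑_{0<i≤L} (gp l i s - gp l i (-s))` (`t(c x_n) = t(c x_k)` for `n ≥ k`), `|r_L(s)| = (|s| - l 2^L)_+` for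
`L ≥ 1` and `r_0(s) = s`, `|s| ≤ l + (s-l)_+ + (-s-l)_+`; `t(c r) ≤ t(|r|)`. So the `L_1` bound is `3 l 2^L D_L`.
`-l 2^L ≤ ∑_{0<i≤L} (X i k - Y i k) ≤ l 2^L` (limit of the same inequality for `cfc`), so `Rm L k` is between
`x k ± l 2^L`.
-/

namespace GD64

open Filter

private theorem gP_cont (l : ℝ) (j : ℕ) : Continuous (gP l j) := by
  unfold gP
  split_ifs
  · exact continuous_const
  · exact (continuous_id.max continuous_const).min continuous_const

private theorem gP_nonneg {l : ℝ} (hl : 0 < l) (j : ℕ) (s : ℝ) : 0 ≤ gP l j s := by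
  unfold gP
  split_ifs
  · exact le_rfl
  · exact le_min (le_max_right _ _) (by positivity)

private theorem gP_le {l : ℝ} (hl : 0 < l) (j : ℕ) (s : ℝ) : gP l j s ≤ l * 2 ^ j := by
  unfold gP
  split_ifs
  · positivity
  · exact min_le_right _ _

/-- bound of the remainder function. -/
private theorem rem_abs_le {l : ℝ} (hl : 0 < l) (L : ℕ) (s : ℝ) :
    |s - (gP l L s - gP l L (-s))| ≤
      (if L = 0 then l else 0) + (max (s - l * 2 ^ L) 0 + max (-s - l * 2 ^ L) 0) := by
  unfold gP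
  have hc : 0 < l * 2 ^ L := by positivity
  rcases Nat.eq_zero_or_pos L with h | h
  · subst h
    simp only [if_true, pow_zero, mul_one, sub_zero]
    have h1 := le_max_left (s - l) 0
    have h2 := le_max_right (s - l) 0
    have h3 := le_max_left (-s - l) 0
    have h4 := le_max_right (-s - l) 0
    rw [abs_le]
    constructor <;> linarith
  · have h0 : ¬ (L = 0) := by omega
    simp only [if_neg h0, zero_add]
    generalize l * 2 ^ L = c at *
    have h1 := le_max_left (s - c) 0
    have h2 := le_max_right (s - c) 0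
    have h3 := le_max_left (-s - c) 0
    have h4 := le_max_right (-s - c) 0
    rcases le_total 0 s with hs | hs
    · rw [max_eq_left hs, max_eq_right (by linarith : -s ≤ 0), min_eq_left hc.le]
      rcases le_total s c with hsc | hsc
      · rw [min_eq_left hsc, abs_le]
        constructor <;> linarith
      · rw [min_eq_right hsc, abs_le]
        constructor <;> linarith
    · rw [max_eq_right hs, max_eq_left (by linarith : 0 ≤ -s), min_eq_left hc.le]
      rcases le_total (-s) c with hsc | hsc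
      · rw [min_eq_left hsc, abs_le]
        constructor <;> linarith
      · rw [min_eq_right hsc, abs_le]
        constructor <;> linarith

section aux

variable {A : Type*} [CStarAlgebra A] [PartialOrder A] [StarOrderedRing A]

private theorem sum_cfc_eq (l : ℝ) (L : ℕ) {a : A} (ha : IsSelfAdjoint a) :
    ∑ i ∈ Finset.Ioc 0 L, (cfc (fun s => gp l i s) a - cfc (fun s => gp l i (-s)) a) =
      cfc (fun s => gP l L s - gP l L (-s)) a := by
  have hca' : ∀ i, ContinuousOn (fun s => gp l i s) (spectrum ℝ a) := fun i =>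
    (gp_continuous l i).continuousOn
  have hcb' : ∀ i, ContinuousOn (fun s => gp l i (-s)) (spectrum ℝ a) := fun i =>
    ((gp_continuous l i).comp continuous_neg).continuousOn
  have hA : ContinuousOn (∑ i ∈ Finset.Ioc 0 L, fun s => gp l i s) (spectrum ℝ a) := by
    have : (∑ i ∈ Finset.Ioc 0 L, fun s => gp l i s) =
        fun s => ∑ i ∈ Finset.Ioc 0 L, gp l i s := by
      funext s; rw [Finset.sum_apply]
    rw [this]
    exact continuousOn_finsetSum _ fun i _ => hca' i
  have hB : ContinuousOn (∑ i ∈ Finset.Ioc 0 L, fun s => gp l i (-s)) (spectrum ℝ a) := by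
    have : (∑ i ∈ Finset.Ioc 0 L, fun s => gp l i (-s)) =
        fun s => ∑ i ∈ Finset.Ioc 0 L, gp l i (-s) := by
      funext s; rw [Finset.sum_apply]
    rw [this]
    exact continuousOn_finsetSum _ fun i _ => hcb' i
  rw [Finset.sum_sub_distrib,
    ← cfc_sum (fun i s => gp l i s) a _ (fun i _ => hca' i),
    ← cfc_sum (fun i s => gp l i (-s)) a _ (fun i _ => hcb' i),
    ← cfc_sub _ _ a hA hB]
  refine cfc_congr fun s _ => ?_
  simp only [Finset.sum_apply]
  rw [sum_gp l (Nat.zero_le L), sum_gp l (Nat.zero_le L)]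
  unfold gP
  simp

/-- `t(r(x) c) ≤ t(|r|(x))` for contractions `c`. -/
private theorem t_cfc_mul_le (T : TF A) {a c : A} (ha : IsSelfAdjoint a) {r : ℝ → ℝ}
    (hr : Continuous r) (hc1 : -(1 : A) ≤ c) (hc2 : c ≤ 1) :
    T.t (cfc r a * c) ≤ T.t (cfc (fun s => |r s|) a) := by
  have hrp : Continuous fun s => max (r s) 0 := hr.max continuous_const
  have hrm : Continuous fun s => max (-r s) 0 := hr.neg.max continuous_const
  have e1 : cfc r a = cfc (fun s => max (r s) 0) a - cfc (fun s => max (-r s) 0) a := by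
    rw [← cfc_sub _ _ a hrp.continuousOn hrm.continuousOn]
    refine cfc_congr fun s _ => ?_
    rcases le_total 0 (r s) with h | h
    · rw [max_eq_left h, max_eq_right (by linarith), sub_zero]
    · rw [max_eq_right h, max_eq_left (by linarith)]; ring
  have e2 : cfc (fun s => |r s|) a =
      cfc (fun s => max (r s) 0) a + cfc (fun s => max (-r s) 0) a := by
    rw [← cfc_add a _ _ hrp.continuousOn hrm.continuousOn]
    refine cfc_congr fun s _ => ?_
    rcases le_total 0 (r s) with h | h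
    · rw [max_eq_left h, max_eq_right (by linarith), abs_of_nonneg h, add_zero]
    · rw [max_eq_right h, max_eq_left (by linarith), abs_of_nonpos h, zero_add]
  have h1 : 0 ≤ cfc (fun s => max (r s) 0) a := cfc_nonneg fun s _ => le_max_right _ _
  have h2 : 0 ≤ cfc (fun s => max (-r s) 0) a := cfc_nonneg fun s _ => le_max_right _ _
  have h3 := T.t_mul_mono hc2 h1
  have h4 := T.t_mul_mono hc1 h2
  rw [one_mul, T.t_comm] at h3
  rw [neg_mul, one_mul, map_neg, T.t_comm c] at h4
  rw [e1, e2, sub_mul, map_sub, map_add]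
  linarith

private theorem half_piecesS (T : TF A)
    (hW : WLim T) {l : ℝ} (hl : 0 < l) {x : ℕ → A}
    (hs : ∀ n, IsSelfAdjoint (x n)) (σ : ℝ → ℝ) (hσ : Continuous σ)
    {D : ℕ → ℝ} (hD : ∀ j, 0 ≤ D j) (h1 : T.t 1 ≤ D 0)
    (hp : ∀ n L, T.t (cfc (fun s : ℝ => max (σ s - l * 2 ^ L) 0) (x n)) ≤ l * 2 ^ L * D L) :
    ∃ a : ℕ → A, (∀ i, ∀ y : A, Tendsto (fun n => T.t (cfc (fun s => gp l i (σ s)) (x n) * y))
        (hyperfilter ℕ : Filter ℕ) (nhds (T.t (a i * y)))) ∧
      (∀ i, Mart T (fun k => T.E k (a i))) ∧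
      (∀ i k, 0 ≤ T.E k (a i)) ∧ (∀ i k, T.E k (a i) ≤ (l * 2 ^ i) • (1 : A)) ∧
      (∀ L J, ∑ i ∈ Finset.Ioc L J, T.t (T.E 0 (a i)) ≤ l * 2 ^ L * (3 * D L)) := by
  obtain ⟨a, ha, hma, h0a, hca, -⟩ := half_pieces T hW hl hs 0 σ hσ hD h1 hp
  refine ⟨a, ha, hma, h0a, hca, fun L J => ?_⟩
  obtain ⟨a', ha', -, -, -, hsa'⟩ := half_pieces T hW hl hs J σ hσ hD h1 hp
  have e : ∑ i ∈ Finset.Ioc L J, T.t (T.E 0 (a i)) =
      ∑ i ∈ Finset.Ioc L J, T.t (T.E 0 (a' i)) := by
    refine Finset.sum_congr rfl fun i _ => ?_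
    rw [T.t_E, T.t_E]
    have := tendsto_nhds_unique (ha i 1) (ha' i 1)
    simpa only [mul_one] using this
  rw [e]
  refine (hsa' L).trans ?_
  have h2 : 0 ≤ l * 2 ^ L * D L := mul_nonneg (by positivity) (hD L)
  linarith

end aux

theorem piecesS {A : Type*} [CStarAlgebra A] [PartialOrder A] [StarOrderedRing A] (T : TF A)
    (hW : WLim T) {l : ℝ} (hl : 0 < l) {x : ℕ → A} (hx : Mart T x)
    (hs : ∀ n, IsSelfAdjoint (x n))
    {D : ℕ → ℝ} (hD : ∀ j, 0 ≤ D j) (h1 : T.t 1 ≤ D 0)
    (hp : ∀ n L, T.t (cfc (fun s : ℝ => max (s - l * 2 ^ L) 0) (x n)) ≤ l * 2 ^ L * D L)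
    (hm : ∀ n L, T.t (cfc (fun s : ℝ => max (-s - l * 2 ^ L) 0) (x n)) ≤ l * 2 ^ L * D L) :
    ∃ X Y Rm : ℕ → ℕ → A, (∀ i, Mart T (X i)) ∧ (∀ i, Mart T (Y i)) ∧ (∀ L, Mart T (Rm L)) ∧
      (∀ i k, 0 ≤ X i k) ∧ (∀ i k, X i k ≤ (l * 2 ^ i) • (1 : A)) ∧
      (∀ i k, 0 ≤ Y i k) ∧ (∀ i k, Y i k ≤ (l * 2 ^ i) • (1 : A)) ∧
      (∀ L k, IsSelfAdjoint (Rm L k)) ∧
      (∀ L J, ∑ i ∈ Finset.Ioc L J, T.t (X i 0) ≤ l * 2 ^ L * (3 * D L)) ∧
      (∀ L J, ∑ i ∈ Finset.Ioc L J, T.t (Y i 0) ≤ l * 2 ^ L * (3 * D L)) ∧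
      (∀ L, T.L1B (Rm L) (l * 2 ^ L * (3 * D L))) ∧
      (∀ L k, Rm L k = x k - ∑ i ∈ Finset.Ioc 0 L, (X i k - Y i k)) ∧
      (∀ L k, Rm L k ≤ (‖x k‖ + l * 2 ^ L) • (1 : A)) ∧
      (∀ L k, -((‖x k‖ + l * 2 ^ L) • (1 : A)) ≤ Rm L k) := by
  obtain ⟨a, ha, hma, h0a, hca, hsa⟩ := half_piecesS T hW hl hs (fun s => s) continuous_id
    hD h1 hp
  obtain ⟨b, hb, hmb, h0b, hcb, hsb⟩ := half_piecesS T hW hl hs (fun s => -s) continuous_neg
    hD h1 hm
  -- the weak limit of the truncated martingale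
  have hlim : ∀ L, ∀ y : A, Tendsto
      (fun n => T.t (cfc (fun s => gP l L s - gP l L (-s)) (x n) * y))
      (hyperfilter ℕ : Filter ℕ)
      (nhds (T.t ((∑ i ∈ Finset.Ioc 0 L, (a i - b i)) * y))) := by
    intro L y
    have e2 : (fun n => T.t (cfc (fun s => gP l L s - gP l L (-s)) (x n) * y)) = fun n =>
        ∑ i ∈ Finset.Ioc 0 L, (T.t (cfc (fun s => gp l i s) (x n) * y) -
          T.t (cfc (fun s => gp l i (-s)) (x n) * y)) := by
      funext n
      rw [← sum_cfc_eq l L (hs n), Finset.sum_mul, map_sum]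
      refine Finset.sum_congr rfl fun i _ => ?_
      rw [sub_mul, map_sub]
    rw [e2, Finset.sum_mul, map_sum]
    refine tendsto_finsetSum _ fun i _ => ?_
    rw [sub_mul, map_sub]
    exact (ha i y).sub (hb i y)
  have hcont : ∀ L, Continuous fun s : ℝ => gP l L s - gP l L (-s) := fun L =>
    (gP_cont l L).sub ((gP_cont l L).comp continuous_neg)
  have hES : ∀ L k, T.E k (∑ i ∈ Finset.Ioc 0 L, (a i - b i)) =
      ∑ i ∈ Finset.Ioc 0 L, (T.E k (a i) - T.E k (b i)) := by
    intro L k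
    rw [T.E_sum]
    exact Finset.sum_congr rfl fun i _ => T.E_sub k _ _
  have hup : ∀ L k, ∑ i ∈ Finset.Ioc 0 L, (T.E k (a i) - T.E k (b i)) ≤
      (l * 2 ^ L) • (1 : A) := by
    intro L k
    have h := TF.E_wlim_nonneg (T := T)
      (b := fun n => (l * 2 ^ L) • (1 : A) - cfc (fun s => gP l L s - gP l L (-s)) (x n))
      (b' := (l * 2 ^ L) • (1 : A) - ∑ i ∈ Finset.Ioc 0 L, (a i - b i))
      (fun y => by
        simp only [sub_mul, map_sub]
        exact tendsto_const_nhds.sub (hlim L y))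
      (fun n => by
        rw [sub_nonneg, ← Algebra.algebraMap_eq_smul_one]
        refine cfc_le_algebraMap _ _ _ (fun s _ => ?_) (hcont L).continuousOn (hs n)
        have h3 := gP_le hl L s
        have h4 := gP_nonneg hl L (-s)
        linarith) k
    rw [T.E_sub, T.E_smul, T.E_one, hES, sub_nonneg] at h
    exact h
  have hlo : ∀ L k, -((l * 2 ^ L) • (1 : A)) ≤
      ∑ i ∈ Finset.Ioc 0 L, (T.E k (a i) - T.E k (b i)) := by
    intro L k
    have h := TF.E_wlim_nonneg (T := T)
      (b := fun n => (l * 2 ^ L) • (1 : A) + cfc (fun s => gP l L s - gP l L (-s)) (x n))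
      (b' := (l * 2 ^ L) • (1 : A) + ∑ i ∈ Finset.Ioc 0 L, (a i - b i))
      (fun y => by
        simp only [add_mul, map_add]
        exact tendsto_const_nhds.add (hlim L y))
      (fun n => by
        have h5 : -((l * 2 ^ L) • (1 : A)) ≤ cfc (fun s => gP l L s - gP l L (-s)) (x n) := by
          rw [← neg_smul, ← Algebra.algebraMap_eq_smul_one]
          refine algebraMap_le_cfc _ _ _ (fun s _ => ?_) (hcont L).continuousOn (hs n)
          have h3 := gP_le hl L (-s)
          have h4 := gP_nonneg hl L s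
          linarith
        rw [add_comm]
        exact neg_le_iff_add_nonneg.1 h5) k
    rw [T.E_add, T.E_smul, T.E_one, hES, add_comm] at h
    exact neg_le_iff_add_nonneg.2 h
  refine ⟨fun i k => T.E k (a i), fun i k => T.E k (b i),
    fun L k => x k - ∑ i ∈ Finset.Ioc 0 L, (T.E k (a i) - T.E k (b i)), hma, hmb, ?_, h0a, hca,
    h0b, hcb, ?_, hsa, hsb, ?_, fun L k => rfl, ?_, ?_⟩
  · intro L
    refine ⟨fun k => ?_, fun k => ?_⟩
    · exact sub_mem (hx.mem k) (sum_mem fun i _ => sub_mem (T.E_mem k _) (T.E_mem k _))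
    · simp only
      rw [T.E_sub, hx.ce k, T.E_sum]
      congr 1
      refine Finset.sum_congr rfl fun i _ => ?_
      rw [T.E_sub, T.E_E (Nat.le_succ k), T.E_E (Nat.le_succ k)]
  · intro L k
    refine (hs k).sub ?_
    rw [← hES]
    exact TF.E_wlim_sa (hlim L) (fun n => cfc_predicate _ _) k
  · intro L k c hc hcs hc1 hc2
    simp only
    rw [T.t_comm]
    have l1 : Tendsto (fun n => T.t (x n * c) -
        T.t (cfc (fun s => gP l L s - gP l L (-s)) (x n) * c))
        (hyperfilter ℕ : Filter ℕ)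
        (nhds (T.t (x k * c) - T.t ((∑ i ∈ Finset.Ioc 0 L, (a i - b i)) * c))) := by
      refine Tendsto.sub ?_ (hlim L c)
      refine tendsto_const_nhds.congr' ?_
      refine Filter.Eventually.filter_mono Nat.hyperfilter_le_atTop ?_
      filter_upwards [eventually_ge_atTop k] with n hn
      rw [← hx.E_le hn, T.E_spec k (x n) c hc]
    have e1 : T.t ((x k - ∑ i ∈ Finset.Ioc 0 L, (T.E k (a i) - T.E k (b i))) * c) =
        T.t (x k * c) - T.t ((∑ i ∈ Finset.Ioc 0 L, (a i - b i)) * c) := by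
      rw [sub_mul, map_sub, ← hES, T.E_spec k _ c hc]
    rw [e1]
    refine le_of_tendsto' l1 fun n => ?_
    have hr : Continuous fun s : ℝ => s - (gP l L s - gP l L (-s)) :=
      continuous_id.sub (hcont L)
    have e2 : cfc (fun s : ℝ => s - (gP l L s - gP l L (-s))) (x n) =
        x n - cfc (fun s => gP l L s - gP l L (-s)) (x n) := by
      rw [cfc_sub (fun s : ℝ => s) (fun s => gP l L s - gP l L (-s)) (x n)
        continuous_id.continuousOn (hcont L).continuousOn]
      congr 1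
      exact cfc_id' ℝ (x n) (hs n)
    have h2 := t_cfc_mul_le T (hs n) hr hc1 hc2
    rw [e2, sub_mul, map_sub] at h2
    refine h2.trans ?_
    have hg1 : Continuous fun s : ℝ => max (s - l * 2 ^ L) 0 :=
      (continuous_id.sub continuous_const).max continuous_const
    have hg2 : Continuous fun s : ℝ => max (-s - l * 2 ^ L) 0 :=
      (continuous_neg.sub continuous_const).max continuous_const
    have h3 : cfc (fun s => |s - (gP l L s - gP l L (-s))|) (x n) ≤
        cfc (fun s => (if L = 0 then l else 0) +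
          (max (s - l * 2 ^ L) 0 + max (-s - l * 2 ^ L) 0)) (x n) := by
      refine cfc_mono (fun s _ => rem_abs_le hl L s) hr.abs.continuousOn ?_
      exact (continuous_const.add (hg1.add hg2)).continuousOn
    refine (T.t_mono h3).trans ?_
    rw [cfc_const_add (if L = 0 then l else 0)
      (fun s => max (s - l * 2 ^ L) 0 + max (-s - l * 2 ^ L) 0) (x n)
      (hg1.add hg2).continuousOn (hs n), Algebra.algebraMap_eq_smul_one,
      cfc_add (x n) _ _ hg1.continuousOn hg2.continuousOn, map_add, map_add, map_smul,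
      smul_eq_mul]
    have h4 := hp n L
    have h5 := hm n L
    have h6 : (if L = 0 then l else 0) * T.t 1 ≤ l * 2 ^ L * D L := by
      split_ifs with h0
      · subst h0
        rw [pow_zero, mul_one]
        exact mul_le_mul_of_nonneg_left h1 hl.le
      · rw [zero_mul]
        exact mul_nonneg (by positivity) (hD L)
    linarith
  · intro L k
    simp only
    rw [add_smul, sub_eq_add_neg]
    refine add_le_add ?_ ?_
    · rw [← Algebra.algebraMap_eq_smul_one]
      exact (hs k).le_algebraMap_norm_self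
    · exact neg_le.1 (hlo L k)
  · intro L k
    simp only
    rw [add_smul, neg_add, sub_eq_add_neg]
    refine add_le_add ?_ ?_
    · rw [← Algebra.algebraMap_eq_smul_one]
      exact (hs k).neg_algebraMap_norm_le_self
    · exact neg_le_neg (hup L k)

end GD64
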