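import Pool.Agent.GD64.Stop

/-!
# GD64/StopInc: stopping of increasing processes
-/

namespace GD64

namespace TF

variable {A : Type*} [CStarAlgebra A] [PartialOrder A] [StarOrderedRing A] (T : TF A)

section incr

/-! Increasing processes `S k = ∑_{l<k} v l` with `v l ∈ F (l+1)`, `v l ≥ 0`. -/

variable {T} {v : ℕ → A} {R : ℝ} (hv : ∀ k, v k ∈ T.F (k + 1)) (h0 : ∀ k, 0 ≤ v k)
  (hR : 0 < R)

section
omit [PartialOrder A] [StarOrderedRing A] in
theorem incr_succ (v : ℕ → A) (k : ℕ) : (fun n => ∑ l ∈ Finset.range n, v l) (k + 1) =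
    (∑ l ∈ Finset.range k, v l) + v k := Finset.sum_range_succ _ _
end

theorem incr_mem (hv : ∀ k, v k ∈ T.F (k + 1)) (k : ℕ) :
    (fun n => ∑ l ∈ Finset.range n, v l) k ∈ T.F k :=
  sum_mem fun l hl => T.F_le (Finset.mem_range.mp hl) (hv l)

theorem incr_nonneg (h0 : ∀ k, 0 ≤ v k) (k : ℕ) :
    0 ≤ (fun n => ∑ l ∈ Finset.range n, v l) k :=
  Finset.sum_nonneg fun l _ => h0 l

theorem incr_sa (h0 : ∀ k, 0 ≤ v k) (k : ℕ) :
    IsSelfAdjoint ((fun n => ∑ l ∈ Finset.range n, v l) k) :=
  IsSelfAdjoint.of_nonneg (incr_nonneg h0 k)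

include hv h0 hR

/-- `∑_{k<N} r_k v_k r_k = r_N S_N r_N + ∑_{k<N} g_k S_{k+1} g_k`, `g_k = r_k - r_{k+1}`. -/
theorem stop_incr_sum (N : ℕ) :
    (∑ k ∈ Finset.range N, T.stop (fun n => ∑ l ∈ Finset.range n, v l) R k * v k *
        T.stop (fun n => ∑ l ∈ Finset.range n, v l) R k) =
      T.stop (fun n => ∑ l ∈ Finset.range n, v l) R N * (∑ l ∈ Finset.range N, v l) *
        T.stop (fun n => ∑ l ∈ Finset.range n, v l) R N +
      ∑ k ∈ Finset.range N,
        (T.stop (fun n => ∑ l ∈ Finset.range n, v l) R k -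
          T.stop (fun n => ∑ l ∈ Finset.range n, v l) R (k + 1)) *
        (∑ l ∈ Finset.range (k + 1), v l) *
        (T.stop (fun n => ∑ l ∈ Finset.range n, v l) R k -
          T.stop (fun n => ∑ l ∈ Finset.range n, v l) R (k + 1)) := by
  induction N with
  | zero => simp
  | succ N ih =>
    have h := stop_split (incr_mem hv) (incr_sa h0) hR N
    rw [Finset.sum_range_succ (n := N), ih, Finset.sum_range_succ (n := N)
      (f := fun k => (T.stop (fun n => ∑ l ∈ Finset.range n, v l) R k -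
          T.stop (fun n => ∑ l ∈ Finset.range n, v l) R (k + 1)) *
        (∑ l ∈ Finset.range (k + 1), v l) *
        (T.stop (fun n => ∑ l ∈ Finset.range n, v l) R k -
          T.stop (fun n => ∑ l ∈ Finset.range n, v l) R (k + 1)))]
    set r := T.stop (fun n => ∑ l ∈ Finset.range n, v l) R N with hr
    set s := T.stop (fun n => ∑ l ∈ Finset.range n, v l) R (N + 1) with hs
    have h2 : r * (∑ l ∈ Finset.range (N + 1), v l) * r =
        r * (∑ l ∈ Finset.range N, v l) * r + r * v N * r := by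
      rw [Finset.sum_range_succ, mul_add, add_mul]
    have h3 : r * (∑ l ∈ Finset.range N, v l) * r + r * v N * r =
        s * (∑ l ∈ Finset.range (N + 1), v l) * s +
          (r - s) * (∑ l ∈ Finset.range (N + 1), v l) * (r - s) := by
      rw [← h2, h]
    rw [add_right_comm, h3]
    abel

/-- `g_k S_{k+1} g_k ≤ R g_k + g_k v_k g_k`. -/
theorem stop_incr_jump (k : ℕ) :
    (T.stop (fun n => ∑ l ∈ Finset.range n, v l) R k -
          T.stop (fun n => ∑ l ∈ Finset.range n, v l) R (k + 1)) *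
        (∑ l ∈ Finset.range (k + 1), v l) *
        (T.stop (fun n => ∑ l ∈ Finset.range n, v l) R k -
          T.stop (fun n => ∑ l ∈ Finset.range n, v l) R (k + 1)) ≤
      R • (T.stop (fun n => ∑ l ∈ Finset.range n, v l) R k -
          T.stop (fun n => ∑ l ∈ Finset.range n, v l) R (k + 1)) +
      (T.stop (fun n => ∑ l ∈ Finset.range n, v l) R k -
          T.stop (fun n => ∑ l ∈ Finset.range n, v l) R (k + 1)) * v k *
        (T.stop (fun n => ∑ l ∈ Finset.range n, v l) R k -
          T.stop (fun n => ∑ l ∈ Finset.range n, v l) R (k + 1)) := by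
  have hb := stop_bound (incr_mem hv) (incr_sa h0) hR k
  have hg := stop_jump_proj (incr_mem hv) (incr_sa h0) hR k
  have hp := stop_proj (incr_mem hv) (incr_sa h0) hR k
  have hrg := (stop_step (incr_mem hv) (incr_sa h0) hR k).2.1
  have hgr := proj_mul_comm hg hp hrg
  set r := T.stop (fun n => ∑ l ∈ Finset.range n, v l) R k with hr
  set g := r - T.stop (fun n => ∑ l ∈ Finset.range n, v l) R (k + 1) with hgd
  rw [Finset.sum_range_succ, mul_add, add_mul]
  refine add_le_add_left ?_ _
  have h1 := proj_conj_mono hg hb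
  have l : g * (r * (∑ l ∈ Finset.range k, v l) * r) * g = g * (∑ l ∈ Finset.range k, v l) * g := by
    calc _ = (g * r) * (∑ l ∈ Finset.range k, v l) * (r * g) := by simp only [mul_assoc]
      _ = _ := by rw [hgr, hrg]
  have r' : g * (R • r) * g = R • g := by
    rw [mul_smul_comm, hgr, smul_mul_assoc, hg.isIdempotentElem.eq]
  rw [l, r'] at h1
  exact h1

/-- `∑_{k<N} g_k = 1 - r_N`. -/
theorem stop_incr_tele (N : ℕ) :
    (∑ k ∈ Finset.range N, (T.stop (fun n => ∑ l ∈ Finset.range n, v l) R k -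
          T.stop (fun n => ∑ l ∈ Finset.range n, v l) R (k + 1))) =
      1 - T.stop (fun n => ∑ l ∈ Finset.range n, v l) R N := by
  rw [Finset.sum_range_sub', T.stop_start hR (by simp)]

/-- `∑_{k<N} r_k v_k r_k ≤ (R + c) 1` if all `v_k ≤ c`. -/
theorem stop_incr_le {c : ℝ} (hc : 0 ≤ c) (N : ℕ) (hvc : ∀ k < N, v k ≤ c • (1 : A)) :
    (∑ k ∈ Finset.range N, T.stop (fun n => ∑ l ∈ Finset.range n, v l) R k * v k *
        T.stop (fun n => ∑ l ∈ Finset.range n, v l) R k) ≤ (R + c) • (1 : A) := by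
  rw [stop_incr_sum hv h0 hR N]
  have hb := stop_bound (incr_mem hv) (incr_sa h0) hR N
  have hp := stop_proj (incr_mem hv) (incr_sa h0) hR N
  have hle : ∀ k ∈ Finset.range N,
      (T.stop (fun n => ∑ l ∈ Finset.range n, v l) R k -
          T.stop (fun n => ∑ l ∈ Finset.range n, v l) R (k + 1)) *
        (∑ l ∈ Finset.range (k + 1), v l) *
        (T.stop (fun n => ∑ l ∈ Finset.range n, v l) R k -
          T.stop (fun n => ∑ l ∈ Finset.range n, v l) R (k + 1)) ≤
      (R + c) • (T.stop (fun n => ∑ l ∈ Finset.range n, v l) R k -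
          T.stop (fun n => ∑ l ∈ Finset.range n, v l) R (k + 1)) := by
    intro k hk
    have hg := stop_jump_proj (incr_mem hv) (incr_sa h0) hR k
    refine (stop_incr_jump hv h0 hR k).trans ?_
    have h1 := proj_conj_mono hg (hvc k (Finset.mem_range.mp hk))
    rw [mul_smul_comm, mul_one, smul_mul_assoc, hg.isIdempotentElem.eq] at h1
    rw [add_smul]
    exact add_le_add_right h1 _
  calc _ ≤ R • T.stop (fun n => ∑ l ∈ Finset.range n, v l) R N +
        ∑ k ∈ Finset.range N, (R + c) • (T.stop (fun n => ∑ l ∈ Finset.range n, v l) R k -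
          T.stop (fun n => ∑ l ∈ Finset.range n, v l) R (k + 1)) :=
        add_le_add hb (Finset.sum_le_sum hle)
    _ ≤ (R + c) • T.stop (fun n => ∑ l ∈ Finset.range n, v l) R N +
        (R + c) • (1 - T.stop (fun n => ∑ l ∈ Finset.range n, v l) R N) := by
        rw [← Finset.smul_sum, stop_incr_tele hv h0 hR N]
        refine add_le_add_left ?_ _
        rw [add_smul]
        exact le_add_of_nonneg_right (smul_nonneg hc hp.nonneg)
    _ = (R + c) • (1 : A) := by
        rw [← smul_add]; congr 1; abel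

/-- `R t(1 - r_N) ≤ t((1 - r_N) S_N)`. -/
theorem stop_incr_t (N : ℕ) :
    R * T.t (1 - T.stop (fun n => ∑ l ∈ Finset.range n, v l) R N) ≤
      T.t ((∑ l ∈ Finset.range N, v l) *
        (1 - T.stop (fun n => ∑ l ∈ Finset.range n, v l) R N)) := by
  rw [← stop_incr_tele hv h0 hR N, map_sum, Finset.mul_sum, Finset.mul_sum, map_sum]
  refine Finset.sum_le_sum fun k hk => ?_
  have hg := stop_jump_proj (incr_mem hv) (incr_sa h0) hR k
  have h1 := stop_jump (incr_mem hv) (incr_sa h0) hR k
  have hS : (∑ l ∈ Finset.range (k + 1), v l) ≤ ∑ l ∈ Finset.range N, v l := by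
    refine Finset.sum_le_sum_of_subset_of_nonneg ?_ fun l _ _ => h0 l
    exact Finset.range_subset_range.mpr (Finset.mem_range.mp hk)
  have h2 := T.t_mono (h1.trans (proj_conj_mono hg hS))
  rw [map_smul, smul_eq_mul, T.t_proj_conj hg] at h2
  exact h2

/-- `R t(1 - r_N) ≤ t(S_N)`. -/
theorem stop_incr_t' (N : ℕ) :
    R * T.t (1 - T.stop (fun n => ∑ l ∈ Finset.range n, v l) R N) ≤
      ∑ l ∈ Finset.range N, T.t (v l) := by
  refine (stop_incr_t hv h0 hR N).trans ?_
  have hp := (stop_proj (incr_mem hv) (incr_sa h0) hR N).one_sub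
  rw [← T.t_proj_conj hp, ← map_sum]
  exact T.t_proj_conj_le hp (incr_nonneg h0 N)

end incr

end TF

end GD64
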