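import Pool.Agent.GD64.Stop
import Pool.Agent.GD64.StopInc
import Pool.Agent.GD64.Cotlar

/-!
# GD64/Proc: definitions of the processes attached to a positive martingale `X`, and of flags
-/

namespace GD64

/-- `X` is a martingale (of elements of `A`). -/
structure Mart {A : Type*} [CStarAlgebra A] [PartialOrder A] [StarOrderedRing A] (T : TF A)
    (X : ℕ → A) : Prop where
  mem : ∀ k, X k ∈ T.F k
  ce : ∀ k, T.E k (X (k + 1)) = X k

/-- the martingale difference at time `k+1`. -/
def dd {A : Type*} [Sub A] (X : ℕ → A) (k : ℕ) : A := X (k + 1) - X k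

namespace TF

variable {A : Type*} [CStarAlgebra A] [PartialOrder A] [StarOrderedRing A] (T : TF A)

/-- Cuculescu projections of `X` at level `R`. -/
noncomputable def qq (X : ℕ → A) (R : ℝ) (k : ℕ) : A := T.stop X R k

/-- conditional square of the stopped difference, `E_k((q_k d_k q_k)²) ∈ F k`. -/
noncomputable def vv (X : ℕ → A) (R : ℝ) (k : ℕ) : A :=
  T.E k ((T.qq X R k * dd X k * T.qq X R k) * (T.qq X R k * dd X k * T.qq X R k))

/-- stopping of the conditional square function at level `R'`. -/
noncomputable def zz (X : ℕ → A) (R R' : ℝ) (k : ℕ) : A :=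
  T.stop (fun n => ∑ l ∈ Finset.range n, T.vv X R l) R' k

end TF

/-- A system of flags: `e j k` projections in `F k`, decreasing in `k`, increasing in `j`,
`e 0 k = 0`. -/
structure FlagSys {A : Type*} [CStarAlgebra A] [PartialOrder A] [StarOrderedRing A] (T : TF A)
    (e : ℕ → ℕ → A) : Prop where
  proj : ∀ j k, IsStarProjection (e j k)
  mem : ∀ j k, e j k ∈ T.F k
  dec : ∀ j k, e j k * e j (k + 1) = e j (k + 1)
  inc : ∀ j k, e (j + 1) k * e j k = e j k
  zero : ∀ k, e 0 k = 0

/-- The chain `e 0 k ≤ e 1 k ≤ ... ≤ e i k ≤ 1` at time `k`. -/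
def ch {A : Type*} [One A] (e : ℕ → ℕ → A) (i k j : ℕ) : A := if j ≤ i then e j k else 1

end GD64
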