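import Pool.Agent.GD64.ProcMart

/-!
# GD64/ProcVV: the stopped conditional square function of a bounded positive martingale
-/

namespace GD64

namespace TF

variable {A : Type*} [CStarAlgebra A] [PartialOrder A] [StarOrderedRing A] (T : TF A)

variable {T} {X : ℕ → A} (h : Mart T X) (h0 : ∀ k, 0 ≤ X k)

include h h0

theorem qq_proj {R : ℝ} (hR : 0 < R) (k : ℕ) : IsStarProjection (T.qq X R k) := by
  exact stop_proj h.mem (fun k => IsSelfAdjoint.of_nonneg (h0 k)) hR k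

theorem qq_mem {R : ℝ} (hR : 0 < R) (k : ℕ) : T.qq X R k ∈ T.F k := by
  exact stop_mem h.mem (fun k => IsSelfAdjoint.of_nonneg (h0 k)) hR k

theorem qq_dec {R : ℝ} (hR : 0 < R) (k : ℕ) :
    T.qq X R k * T.qq X R (k + 1) = T.qq X R (k + 1) := by
  exact stop_dec h.mem (fun k => IsSelfAdjoint.of_nonneg (h0 k)) hR k

theorem vv_nonneg {R : ℝ} (hR : 0 < R) (k : ℕ) : 0 ≤ T.vv X R k := by
  have hq := qq_proj h h0 hR k
  have hsa : star (T.qq X R k * dd X k * T.qq X R k) = T.qq X R k * dd X k * T.qq X R k := by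
    rw [star_mul, star_mul, hq.isSelfAdjoint.star_eq, (dd_isSelfAdjoint h0 k).star_eq, mul_assoc]
  unfold vv
  refine T.E_nonneg ?_
  have h1 := star_mul_self_nonneg (T.qq X R k * dd X k * T.qq X R k)
  rwa [hsa] at h1

omit h h0 in
theorem vv_mem (X : ℕ → A) (R : ℝ) (k : ℕ) : T.vv X R k ∈ T.F k := by
  exact T.E_mem k _

/-- `v_k ≤ 4 c R` for `0 ≤ X ≤ c`, `R ≤ c`: `q d q = q X_{k+1} q - q X_k q`,
`(x-y)² ≤ 2x² + 2y²`, `(q X_{k+1} q)² ≤ c q X_{k+1} q`, `E_k(q X_{k+1} q) = q X_k q ≤ R`. -/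
theorem vv_le {c R : ℝ} (h1 : ∀ k, X k ≤ c • (1 : A)) (hR : 0 < R)
    (hRc : R ≤ c) (k : ℕ) : T.vv X R k ≤ (4 * c * R) • (1 : A) := by
  have hc : 0 < c := lt_of_lt_of_le hR hRc
  have hq := qq_proj h h0 hR k
  have hqm := qq_mem h h0 hR k
  set q := T.qq X R k with hqdef
  have hq1 : q ≤ 1 := hq.le_one
  have ha0 : 0 ≤ q * X (k + 1) * q := proj_conj_nonneg hq (h0 (k + 1))
  have hb0 : 0 ≤ q * X k * q := proj_conj_nonneg hq (h0 k)
  have hac : q * X (k + 1) * q ≤ c • (1 : A) := by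
    have h2 := proj_conj_mono hq (h1 (k + 1))
    have h3 : q * (c • (1 : A)) * q = c • q := by
      rw [mul_smul_comm, mul_one, smul_mul_assoc, hq.isIdempotentElem.eq]
    rw [h3] at h2
    exact h2.trans (smul_le_smul_of_nonneg_left hq1 hc.le)
  have hbR : q * X k * q ≤ R • (1 : A) := by
    have h2 : q * X k * q ≤ R • q :=
      stop_bound h.mem (fun k => IsSelfAdjoint.of_nonneg (h0 k)) hR k
    exact h2.trans (smul_le_smul_of_nonneg_left hq1 hR.le)
  have e : q * dd X k * q = q * X (k + 1) * q - q * X k * q := by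
    unfold dd; rw [mul_sub, sub_mul]
  have hsq := sub_sq_le (IsSelfAdjoint.of_nonneg ha0) (IsSelfAdjoint.of_nonneg hb0)
  have ha2 := sq_le_smul ha0 hac
  have hb2 := sq_le_smul hb0 hbR
  have h5 : (q * dd X k * q) * (q * dd X k * q) ≤
      (2 : ℝ) • (c • (q * X (k + 1) * q)) + (2 : ℝ) • (R • (q * X k * q)) := by
    rw [e]
    exact hsq.trans (add_le_add (smul_le_smul_of_nonneg_left ha2 (by norm_num))
      (smul_le_smul_of_nonneg_left hb2 (by norm_num)))
  have h6 := T.E_mono (n := k) h5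
  rw [T.E_add, T.E_smul, T.E_smul, T.E_smul, T.E_smul, T.E_mul_right hqm, T.E_mul_left hqm,
    h.ce, T.E_mul_right hqm, T.E_mul_left hqm, T.E_of_mem (h.mem k)] at h6
  have h7 : (2 : ℝ) • (c • (q * X k * q)) + (2 : ℝ) • (R • (q * X k * q)) =
      (2 * c + 2 * R) • (q * X k * q) := by
    rw [smul_smul, smul_smul, ← add_smul]
  rw [h7] at h6
  have h8 : (2 * c + 2 * R) • (q * X k * q) ≤ (2 * c + 2 * R) • (R • (1 : A)) :=
    smul_le_smul_of_nonneg_left hbR (by positivity)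
  have h9 : (2 * c + 2 * R) • (R • (1 : A)) ≤ (4 * c * R) • (1 : A) := by
    rw [smul_smul]
    refine smul_le_smul_of_nonneg_right ?_ zero_le_one
    nlinarith
  exact (h6.trans h8).trans h9

/-- `∑ t(v_k) ≤ c t(X_0)`. -/
theorem sum_t_vv_le {c R : ℝ} (h1 : ∀ k, X k ≤ c • (1 : A)) (hR : 0 < R)
    (N : ℕ) : ∑ k ∈ Finset.range N, T.t (T.vv X R k) ≤ c * T.t (X 0) := by
  refine le_trans (Finset.sum_le_sum fun k _ => ?_) (h.sum_t_dd_sq_le h0 h1 N)
  have hq := qq_proj h h0 hR k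
  unfold vv
  rw [T.t_E]
  set q := T.qq X R k with hqdef
  have hd := dd_isSelfAdjoint h0 k
  have h2 : (q * dd X k * q) * (q * dd X k * q) = q * (dd X k * q * dd X k) * q := by
    have hqq : q * q = q := hq.isIdempotentElem.eq
    calc (q * dd X k * q) * (q * dd X k * q) = q * dd X k * (q * q) * dd X k * q := by
          simp only [mul_assoc]
      _ = q * (dd X k * q * dd X k) * q := by rw [hqq]; simp only [mul_assoc]
  rw [h2]
  have h3 : 0 ≤ dd X k * q * dd X k := by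
    have h4 := star_mul_self_nonneg (q * dd X k)
    rw [star_mul, hq.isSelfAdjoint.star_eq, hd.star_eq] at h4
    have h5 : dd X k * q * (q * dd X k) = dd X k * q * dd X k := by
      have hqq : q * q = q := hq.isIdempotentElem.eq
      rw [mul_assoc, ← mul_assoc q q, hqq, ← mul_assoc]
    rwa [h5] at h4
  refine (T.t_proj_conj_le hq h3).trans (T.t_mono ?_)
  have h6 : star (dd X k) * q * dd X k ≤ star (dd X k) * 1 * dd X k :=
    star_left_conjugate_le_conjugate hq.le_one (dd X k)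
  rwa [hd.star_eq, mul_one] at h6

theorem zz_proj {R R' : ℝ} (hR : 0 < R) (hR' : 0 < R') (k : ℕ) :
    IsStarProjection (T.zz X R R' k) := by
  exact stop_proj (fun n => sum_mem fun l hl => T.F_le (Finset.mem_range.1 hl).le (vv_mem X R l))
    (fun n => IsSelfAdjoint.of_nonneg (Finset.sum_nonneg fun l _ => vv_nonneg h h0 hR l)) hR' k

theorem zz_mem {R R' : ℝ} (hR : 0 < R) (hR' : 0 < R') (k : ℕ) :
    T.zz X R R' k ∈ T.F k := by
  exact stop_mem (fun n => sum_mem fun l hl => T.F_le (Finset.mem_range.1 hl).le (vv_mem X R l))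
    (fun n => IsSelfAdjoint.of_nonneg (Finset.sum_nonneg fun l _ => vv_nonneg h h0 hR l)) hR' k

theorem zz_dec {R R' : ℝ} (hR : 0 < R) (hR' : 0 < R') (k : ℕ) :
    T.zz X R R' k * T.zz X R R' (k + 1) = T.zz X R R' (k + 1) := by
  exact stop_dec (fun n => sum_mem fun l hl => T.F_le (Finset.mem_range.1 hl).le (vv_mem X R l))
    (fun n => IsSelfAdjoint.of_nonneg (Finset.sum_nonneg fun l _ => vv_nonneg h h0 hR l)) hR' k

/-- `∑_{k<N} ζ_k v_k ζ_k ≤ 5 c R` if `R' = c R` (`stop_incr_le`, `vv_le`). -/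
theorem sum_zz_le {c R : ℝ} (h1 : ∀ k, X k ≤ c • (1 : A)) (hR : 0 < R)
    (hRc : R ≤ c) (N : ℕ) :
    ∑ k ∈ Finset.range N, T.zz X R (c * R) k * T.vv X R k * T.zz X R (c * R) k ≤
      (5 * c * R) • (1 : A) := by
  have hc : 0 < c := lt_of_lt_of_le hR hRc
  have h2 := stop_incr_le (T := T) (v := fun k => T.vv X R k) (R := c * R) (c := 4 * c * R)
    (fun k => T.F_le (Nat.le_succ k) (vv_mem X R k)) (fun k => vv_nonneg h h0 hR k)
    (by positivity) (by positivity) N (fun k _ => vv_le h h0 h1 hR hRc k)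
  have e : c * R + 4 * c * R = 5 * c * R := by ring
  rw [e] at h2
  exact h2

/-- `t(1 - ζ_N) ≤ t(X_0)/R` if `R' = c R` (`stop_incr_t'`, `sum_t_vv_le`). -/
theorem t_zz_le {c R : ℝ} (hc : 0 < c) (h1 : ∀ k, X k ≤ c • (1 : A))
    (hR : 0 < R) (N : ℕ) : T.t (1 - T.zz X R (c * R) N) ≤ T.t (X 0) / R := by
  have h2 : c * R * T.t (1 - T.zz X R (c * R) N) ≤ ∑ l ∈ Finset.range N, T.t (T.vv X R l) :=
    stop_incr_t' (T := T) (v := fun k => T.vv X R k) (R := c * R)
      (fun k => T.F_le (Nat.le_succ k) (vv_mem X R k)) (fun k => vv_nonneg h h0 hR k)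
      (by positivity) N
  have h3 := sum_t_vv_le h h0 h1 hR N
  rw [le_div_iff₀ hR]
  have h4 : c * (T.t (1 - T.zz X R (c * R) N) * R) ≤ c * T.t (X 0) := by
    calc c * (T.t (1 - T.zz X R (c * R) N) * R) = c * R * T.t (1 - T.zz X R (c * R) N) := by ring
      _ ≤ _ := h2.trans h3
  exact le_of_mul_le_mul_left h4 hc

/-- `t(1 - q_N) ≤ t(X_0)/R` (`stop_mart_t`). -/
theorem t_qq_le {R : ℝ} (hR : 0 < R) (N : ℕ) :
    T.t (1 - T.qq X R N) ≤ T.t (X 0) / R := by
  have h2 := T.stop_mart_t h.mem h0 h.ce hR N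
  rw [le_div_iff₀ hR, mul_comm]
  exact h2

end TF

end GD64
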