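import Pool.Agent.GD64.Basic

/-!
# GD64/Proj: finite meets of projections, Chebyshev, comparison of cuts
-/

namespace GD64

variable {A : Type*} [CStarAlgebra A] [PartialOrder A] [StarOrderedRing A]

/-- `g` is the meet of the projections `e i`, `i ∈ s`. -/
def IsInf {ι : Type*} (s : Finset ι) (e : ι → A) (g : A) : Prop :=
  IsStarProjection g ∧ (∀ i ∈ s, e i * g = g) ∧
    ∀ h : A, IsStarProjection h → (∀ i ∈ s, e i * h = h) → g * h = h

open Classical in
/-- The meet of finitely many projections (junk value `1` if it does not exist). -/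
noncomputable def pinf {ι : Type*} (s : Finset ι) (e : ι → A) : A :=
  if h : ∃ g : A, IsInf s e g then h.choose else 1

theorem IsInf.unique {ι : Type*} {s : Finset ι} {e : ι → A} {g g' : A}
    (h : IsInf s e g) (h' : IsInf s e g') : g = g' := by
  have h1 : g * g' = g' := h.2.2 g' h'.1 h'.2.1
  have h2 : g' * g = g := h'.2.2 g h.1 h.2.1
  have h3 : g' * g = g' := by
    have := congrArg star h1
    rwa [star_mul, h'.1.isSelfAdjoint.star_eq, h.1.isSelfAdjoint.star_eq] at this
  rw [← h2, h3]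

namespace TF

variable (T : TF A)

/-- Induction on `s` with the axiom `T.meet`. -/
theorem exists_inf {ι : Type*} (n : ℕ) (s : Finset ι) (e : ι → A)
    (hp : ∀ i ∈ s, IsStarProjection (e i)) (hm : ∀ i ∈ s, e i ∈ T.F n) :
    ∃ g ∈ T.F n, IsInf s e g ∧ T.t (1 - g) ≤ ∑ i ∈ s, T.t (1 - e i) := by
  classical
  induction s using Finset.induction_on with
  | empty =>
    refine ⟨1, one_mem _, ⟨IsStarProjection.one A, by simp, fun h _ _ => one_mul h⟩, ?_⟩
    simp
  | insert i s hi ih =>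
    obtain ⟨g, hg, ⟨hgp, hgi, hgm⟩, hgt⟩ := ih (fun j hj => hp j (Finset.mem_insert_of_mem hj))
      (fun j hj => hm j (Finset.mem_insert_of_mem hj))
    obtain ⟨g', hg', hgp', h1, h2, h3, h4⟩ := T.meet n (e i) g (hm i (Finset.mem_insert_self _ _))
      hg (hp i (Finset.mem_insert_self _ _)) hgp
    refine ⟨g', hg', ⟨hgp', ?_, ?_⟩, ?_⟩
    · intro j hj
      rcases Finset.mem_insert.1 hj with rfl | hj
      · exact h1
      · rw [← h2, ← mul_assoc, hgi j hj]
    · intro h hh hhe
      exact h3 h hh (hhe i (Finset.mem_insert_self _ _))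
        (hgm h hh fun j hj => hhe j (Finset.mem_insert_of_mem hj))
    · rw [Finset.sum_insert hi]
      linarith

theorem pinf_isInf {ι : Type*} (n : ℕ) (s : Finset ι) (e : ι → A)
    (hp : ∀ i ∈ s, IsStarProjection (e i)) (hm : ∀ i ∈ s, e i ∈ T.F n) :
    IsInf s e (pinf s e) := by
  obtain ⟨g, _, hg, _⟩ := T.exists_inf n s e hp hm
  have h : ∃ g : A, IsInf s e g := ⟨g, hg⟩
  rw [pinf, dif_pos h]
  exact h.choose_spec

theorem pinf_mem {ι : Type*} (n : ℕ) (s : Finset ι) (e : ι → A)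
    (hp : ∀ i ∈ s, IsStarProjection (e i)) (hm : ∀ i ∈ s, e i ∈ T.F n) :
    pinf s e ∈ T.F n := by
  obtain ⟨g, hgm, hg, _⟩ := T.exists_inf n s e hp hm
  rw [(T.pinf_isInf n s e hp hm).unique hg]
  exact hgm

theorem pinf_t_le {ι : Type*} (n : ℕ) (s : Finset ι) (e : ι → A)
    (hp : ∀ i ∈ s, IsStarProjection (e i)) (hm : ∀ i ∈ s, e i ∈ T.F n) :
    T.t (1 - pinf s e) ≤ ∑ i ∈ s, T.t (1 - e i) := by
  obtain ⟨g, _, hg, hgt⟩ := T.exists_inf n s e hp hm
  rw [(T.pinf_isInf n s e hp hm).unique hg]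
  exact hgt

/-- If `G ≥ R'` on `f`, `G ≤ R` on `p` and `R < R'` then `f ∧ p = 0`, hence
`t f ≤ t (1 - p)`. -/
theorem t_le_of_cut {n : ℕ} {f p G : A} {R R' : ℝ} (hf : IsStarProjection f)
    (hp : IsStarProjection p) (hfm : f ∈ T.F n) (hpm : p ∈ T.F n) (hR : R < R')
    (h1 : R' • f ≤ f * G * f) (h2 : p * G * p ≤ R • p) : T.t f ≤ T.t (1 - p) := by
  obtain ⟨g, hg, hgp, hfg, hpg, _, ht⟩ := T.meet n f p hfm hpm hf hp
  have hgf : g * f = g := by
    have := congrArg star hfg
    rwa [star_mul, hf.isSelfAdjoint.star_eq, hgp.isSelfAdjoint.star_eq] at this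
  have hgp' : g * p = g := by
    have := congrArg star hpg
    rwa [star_mul, hp.isSelfAdjoint.star_eq, hgp.isSelfAdjoint.star_eq] at this
  have hgg : g * g = g := hgp.isIdempotentElem.eq
  have h3 : R' • g ≤ g * G * g := by
    have h := proj_conj_mono hgp h1
    have e1 : g * (R' • f) * g = R' • g := by
      rw [mul_smul_comm, smul_mul_assoc, hgf, hgg]
    have e2 : g * (f * G * f) * g = g * G * g := by
      calc g * (f * G * f) * g = (g * f) * G * (f * g) := by simp only [mul_assoc]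
        _ = g * G * g := by rw [hgf, hfg]
    rwa [e1, e2] at h
  have h4 : g * G * g ≤ R • g := by
    have h := proj_conj_mono hgp h2
    have e1 : g * (R • p) * g = R • g := by
      rw [mul_smul_comm, smul_mul_assoc, hgp', hgg]
    have e2 : g * (p * G * p) * g = g * G * g := by
      calc g * (p * G * p) * g = (g * p) * G * (p * g) := by simp only [mul_assoc]
        _ = g * G * g := by rw [hgp', hpg]
    rwa [e1, e2] at h
  have h5 : (R' - R) * T.t g ≤ 0 := by
    have h := T.t_mono (h3.trans h4)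
    rw [map_smul, map_smul, smul_eq_mul, smul_eq_mul] at h
    linarith
  have h6 : T.t g ≤ 0 := by
    by_contra hc
    have := mul_pos (sub_pos.2 hR) (not_le.1 hc)
    linarith
  rw [map_sub, map_sub] at ht
  linarith

/-- Chebyshev: spectral projection of `G ≥ 0`. -/
theorem cheb {n : ℕ} {G : A} (hG : 0 ≤ G) (hm : G ∈ T.F n) {R : ℝ} (hR : 0 < R) :
    ∃ p ∈ T.F n, IsStarProjection p ∧ Commute p G ∧ p * G * p ≤ R • p ∧
      R • (1 - p) ≤ (1 - p) * G * (1 - p) ∧ T.t (1 - p) ≤ T.t G / R := by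
  obtain ⟨f, hf, hfp, hcom, h1, h2⟩ := T.cut n G hm hG.isSelfAdjoint R
  have hcf : Commute G f := hcom _ (Commute.refl _)
  have hff : 1 - (1 - f) = f := by abel
  refine ⟨1 - f, sub_mem (one_mem _) hf, hfp.one_sub, ?_, h2, ?_, ?_⟩
  · exact ((Commute.one_right G).sub_right hcf).symm
  · rw [hff]; exact h1
  · rw [hff]
    have h3 := T.t_mono h1
    have h4 := T.t_proj_conj_le hfp hG
    rw [map_smul, smul_eq_mul] at h3
    rw [le_div_iff₀ hR]
    linarith

end TF

end GD64
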