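import Pool.Agent.GD64.S3Tr

/-!
# GD64/S3Trunc: truncation of a bounded operator

`trunc a c = a * cfc (c / max (sqrt r) c) (a* a)` has norm `≤ c`; the rest is
`a * cfc (max (sqrt r - c) 0 / max (sqrt r) c) (a* a)` (the two functions add up to `1`).
* `norm_trunc_le`: `(trunc a c)* (trunc a c) = cfc (fun r => r c² / max (sqrt r) c ^ 2) (a* a) ≤ c²` (`spectrum ≥ 0`).
* `tr_sub_trunc_le`: `h = a* a`, `κ r = max (sqrt r - c) 0`. `σ = cfc (sqrt κ) h`, `ρ = cfc (sqrt κ / max (sqrt r) c) h`: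
  `a - trunc a c = (a ρ) σ`, `(a ρ)* (a ρ) = cfc (κ r / max (sqrt r) c ^ 2 * r) h ≤ cfc κ h` (equal on `sqrt r ≥ c`, both `0` below),
  `σ* σ = cfc κ h`. So `HS (a ρ)`, `HS σ`, and by `HS.norm_tr_le` with `x = a ρ`, `y = σ b`:
  `wt (x x*) = wt (x* x) ≤ excW`, `wt (y* y) = wt (y y*)= wt (σ b b* σ) ≤ ‖b‖² excW`.
  `tr (a b) - tr (trunc a c b) = tr ((a - trunc a c) b)` for finite `b`.
* `excW_le`: `max (sqrt r - c) 0 ≤ c/Φ(c) Φ(sqrt r)` (`OrlAux.part_le`), `cfc_mono`, `wt_mono`, `wt_smul`.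
* `sum_exc_le`: scalar inequality, `s ≥ 0`: with `λ_i = 2^i`,
  `∑_{i<I} Φ(λ_{i+1})/λ_{i+1} ((s-λ_i)₊ - (s-λ_{i+1})₊) ≤ (1+K) Φ(s)`: the bracket is `0` if `s ≤ λ_i`, `λ_i = λ_{i+1}/2` if
  `s ≥ λ_{i+1}`; if `λ_j < s ≤ λ_{j+1}` the terms `i < j` sum to `½ ∑_{i<j} Φ(λ_{i+1}) ≤ Φ(λ_j) ≤ Φ(s)` (`2 Φ(λ_i) ≤ Φ(λ_{i+1})`) and
  the term `i = j` is `≤ Φ(λ_{j+1})/λ_{j+1} λ_j ≤ K Φ(λ_j) ≤ K Φ(s)`. Then `cfc` and `wt`; all quantities are finite
  (`excW_le`), the difference `(s-λ_i)₊ - (s-λ_{i+1})₊` is `≥ 0`, `wt_add`.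
-/

namespace GD64

open scoped ComplexOrder InnerProductSpace ENNReal
open Filter

universe u

variable {H : Type u} [NormedAddCommGroup H] [InnerProductSpace ℂ H] [CompleteSpace H]
  {M : VonNeumannAlgebra H} {τ : SFTrace M}

/-- truncation of `a` at level `c`. -/
noncomputable def trunc (a : VA M) (c : ℝ) : VA M :=
  a * cfc (fun r : ℝ => c / max (Real.sqrt r) c) (star a * a)

/-- `τ((|a| - c)₊)`. -/
noncomputable def excW (τ : SFTrace M) (a : VA M) (c : ℝ) : ℝ≥0∞ :=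
  τ.wt (cfc (fun r : ℝ => max (Real.sqrt r - c) 0) (star a * a))

private theorem cont_quot {f : ℝ → ℝ} (hf : Continuous f) {c : ℝ} (hc : 0 < c) :
    Continuous fun r : ℝ => f r / max (Real.sqrt r) c :=
  hf.div (by fun_prop) fun r => (lt_of_lt_of_le hc (le_max_right _ _)).ne'

private theorem sa_h (a : VA M) : IsSelfAdjoint (star a * a) := IsSelfAdjoint.star_mul_self a

private theorem spec_h (a : VA M) {r : ℝ} (hr : r ∈ spectrum ℝ (star a * a)) : 0 ≤ r :=
  spectrum_nonneg_of_nonneg (star_mul_self_nonneg a) hr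

private theorem cfc_conj {f : ℝ → ℝ} (hf : Continuous f) {h : VA M} (hs : IsSelfAdjoint h) :
    cfc f h * h * cfc f h = cfc (fun r => f r * r * f r) h := by
  have e1 : cfc (fun r => f r * r) h = cfc f h * cfc (fun r : ℝ => r) h :=
    cfc_mul f (fun r => r) h hf.continuousOn (continuousOn_id' _)
  have e2 : cfc (fun r => f r * r * f r) h = cfc (fun r => f r * r) h * cfc f h :=
    cfc_mul (fun r => f r * r) f h (hf.mul continuous_id').continuousOn hf.continuousOn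
  rw [e2, e1, cfc_id' ℝ h hs]

theorem trunc_mem {N : VonNeumannAlgebra H} {a : VA M} (ha : (a : H →L[ℂ] H) ∈ N) {c : ℝ}
    (hc : 0 < c) : (trunc a c : H →L[ℂ] H) ∈ N := by
  have h1 : ((trunc a c : VA M) : H →L[ℂ] H) =
      (a : H →L[ℂ] H) * cfc (fun r : ℝ => c / max (Real.sqrt r) c)
        (star (a : H →L[ℂ] H) * (a : H →L[ℂ] H)) := by
    have h2 := va_cfc M (fun r : ℝ => c / max (Real.sqrt r) c) (sa_h a)
      (cont_quot continuous_const hc)
    show (a : H →L[ℂ] H) * ((cfc (fun r : ℝ => c / max (Real.sqrt r) c) (star a * a) : VA M) :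
      H →L[ℂ] H) = _
    rw [h2]
    rfl
  rw [h1]
  exact mul_mem ha (cfc_mem_va_aux N _ (mul_mem (star_mem ha) ha))

theorem norm_trunc_le (a : VA M) {c : ℝ} (hc : 0 < c) : ‖trunc a c‖ ≤ c := by
  set h := star a * a with hh
  have hs : IsSelfAdjoint h := sa_h a
  have hcf : Continuous fun r : ℝ => c / max (Real.sqrt r) c := cont_quot continuous_const hc
  have hstar : star (cfc (fun r : ℝ => c / max (Real.sqrt r) c) h) =
      cfc (fun r : ℝ => c / max (Real.sqrt r) c) h :=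
    (cfc_predicate (p := IsSelfAdjoint) (fun r : ℝ => c / max (Real.sqrt r) c) h).star_eq
  have e1 : star (trunc a c) * trunc a c =
      cfc (fun r : ℝ => c / max (Real.sqrt r) c * r * (c / max (Real.sqrt r) c)) h := by
    unfold trunc
    rw [← hh, star_mul, hstar]
    have e2 : cfc (fun r : ℝ => c / max (Real.sqrt r) c) h * star a *
        (a * cfc (fun r : ℝ => c / max (Real.sqrt r) c) h) =
        cfc (fun r : ℝ => c / max (Real.sqrt r) c) h * h *
          cfc (fun r : ℝ => c / max (Real.sqrt r) c) h := by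
      rw [hh]; simp only [mul_assoc]
    rw [e2]
    exact cfc_conj hcf hs
  have h2 : ‖trunc a c‖ * ‖trunc a c‖ ≤ c * c := by
    rw [← CStarRing.norm_star_mul_self, e1]
    refine norm_cfc_le (by positivity) fun r hr => ?_
    have hr0 : 0 ≤ r := spec_h a hr
    have hD : 0 < max (Real.sqrt r) c := lt_of_lt_of_le hc (le_max_right _ _)
    rw [Real.norm_of_nonneg (by positivity)]
    have h3 : r ≤ max (Real.sqrt r) c * max (Real.sqrt r) c := by
      calc r = Real.sqrt r * Real.sqrt r := (Real.mul_self_sqrt hr0).symm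
        _ ≤ _ := mul_self_le_mul_self (Real.sqrt_nonneg _) (le_max_left _ _)
    have e3 : c / max (Real.sqrt r) c * r * (c / max (Real.sqrt r) c) =
        c * c * (r / (max (Real.sqrt r) c * max (Real.sqrt r) c)) := by
      field_simp
    rw [e3]
    have h4 : r / (max (Real.sqrt r) c * max (Real.sqrt r) c) ≤ 1 := by
      rw [div_le_one (by positivity)]; exact h3
    have : 0 < c * c := by positivity
    nlinarith
  nlinarith [norm_nonneg (trunc a c)]

theorem tr_sub_trunc_le (a : VA M) {c : ℝ} (hc : 0 < c) (hfin : excW τ a c < ⊤) {b : VA M}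
    (hb : IsFin τ b) :
    ‖τ.tr (a * b) - τ.tr (trunc a c * b)‖ ≤ (excW τ a c).toReal * ‖b‖ := by
  set h := star a * a with hh
  have hs : IsSelfAdjoint h := sa_h a
  have hκ : Continuous fun r : ℝ => max (Real.sqrt r - c) 0 := by fun_prop
  have hsκ : Continuous fun r : ℝ => Real.sqrt (max (Real.sqrt r - c) 0) := by fun_prop
  have hρc : Continuous fun r : ℝ => Real.sqrt (max (Real.sqrt r - c) 0) / max (Real.sqrt r) c :=
    cont_quot hsκ hc
  have hcc : Continuous fun r : ℝ => c / max (Real.sqrt r) c := cont_quot continuous_const hc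
  set σ : VA M := cfc (fun r : ℝ => Real.sqrt (max (Real.sqrt r - c) 0)) h with hσ
  set ρ : VA M := cfc (fun r : ℝ => Real.sqrt (max (Real.sqrt r - c) 0) / max (Real.sqrt r) c) h
    with hρ
  have hσs : star σ = σ := (cfc_predicate (p := IsSelfAdjoint) _ h).star_eq
  have hρs : star ρ = ρ := (cfc_predicate (p := IsSelfAdjoint) _ h).star_eq
  have hσσ : σ * σ = cfc (fun r : ℝ => max (Real.sqrt r - c) 0) h := by
    rw [hσ, ← cfc_mul _ _ h hsκ.continuousOn hsκ.continuousOn]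
    refine cfc_congr fun r _ => ?_
    exact Real.mul_self_sqrt (le_max_right _ _)
  have hdec : a - trunc a c = (a * ρ) * σ := by
    have e1 : ρ * σ = 1 - cfc (fun r : ℝ => c / max (Real.sqrt r) c) h := by
      rw [hρ, hσ, ← cfc_mul _ _ h hρc.continuousOn hsκ.continuousOn]
      have e2 : (1 : VA M) = cfc (fun _ : ℝ => (1 : ℝ)) h := (cfc_const_one ℝ h hs).symm
      rw [e2, ← cfc_sub _ _ h continuousOn_const hcc.continuousOn]
      refine cfc_congr fun r _ => ?_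
      have hD : 0 < max (Real.sqrt r) c := lt_of_lt_of_le hc (le_max_right _ _)
      have e3 : Real.sqrt (max (Real.sqrt r - c) 0) / max (Real.sqrt r) c *
          Real.sqrt (max (Real.sqrt r - c) 0) = max (Real.sqrt r - c) 0 / max (Real.sqrt r) c := by
        rw [div_mul_eq_mul_div, Real.mul_self_sqrt (le_max_right _ _)]
      rw [e3]
      have e4 : max (Real.sqrt r - c) 0 = max (Real.sqrt r) c - c := by
        rcases le_total (Real.sqrt r) c with h' | h'
        · rw [max_eq_right (by linarith), max_eq_right h']; ring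
        · rw [max_eq_left (by linarith), max_eq_left h']
      rw [e4, sub_div, div_self hD.ne']
    rw [mul_assoc, e1]
    unfold trunc
    rw [← hh, mul_sub, mul_one]
  have hσHS : τ.wt (star σ * σ) = excW τ a c := by rw [hσs, hσσ]; rfl
  have hρwt : τ.wt (star (a * ρ) * (a * ρ)) ≤ excW τ a c := by
    have e1 : star (a * ρ) * (a * ρ) = cfc (fun r : ℝ =>
        Real.sqrt (max (Real.sqrt r - c) 0) / max (Real.sqrt r) c * r *
          (Real.sqrt (max (Real.sqrt r - c) 0) / max (Real.sqrt r) c)) h := by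
      rw [star_mul, hρs]
      have e2 : ρ * star a * (a * ρ) = ρ * h * ρ := by rw [hh]; simp only [mul_assoc]
      rw [e2]
      exact cfc_conj hρc hs
    rw [e1]
    refine τ.wt_mono (cfc_mono (fun r hr => ?_)
      ((hρc.mul continuous_id').mul hρc).continuousOn hκ.continuousOn)
    have hr0 : 0 ≤ r := spec_h a hr
    have hD : 0 < max (Real.sqrt r) c := lt_of_lt_of_le hc (le_max_right _ _)
    have e3 : Real.sqrt (max (Real.sqrt r - c) 0) / max (Real.sqrt r) c * r *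
          (Real.sqrt (max (Real.sqrt r - c) 0) / max (Real.sqrt r) c) =
        (Real.sqrt (max (Real.sqrt r - c) 0) * Real.sqrt (max (Real.sqrt r - c) 0)) *
          (r / (max (Real.sqrt r) c * max (Real.sqrt r) c)) := by
      field_simp
    rw [e3, Real.mul_self_sqrt (le_max_right _ _)]
    have h3 : r ≤ max (Real.sqrt r) c * max (Real.sqrt r) c := by
      calc r = Real.sqrt r * Real.sqrt r := (Real.mul_self_sqrt hr0).symm
        _ ≤ _ := mul_self_le_mul_self (Real.sqrt_nonneg _) (le_max_left _ _)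
    have h4 : r / (max (Real.sqrt r) c * max (Real.sqrt r) c) ≤ 1 := by
      rw [div_le_one (by positivity)]; exact h3
    have h5 : 0 ≤ max (Real.sqrt r - c) 0 := le_max_right _ _
    nlinarith
  have hHρ : τ.HS (a * ρ) := lt_of_le_of_lt hρwt hfin
  have hHσ : τ.HS σ := by
    show τ.wt (star σ * σ) < ⊤
    rw [hσHS]; exact hfin
  have e0 : τ.tr (a * b) - τ.tr (trunc a c * b) = τ.tr ((a * ρ) * (σ * b)) := by
    rw [← SFTrace.tr_sub (hb.tsum_mul a) (hb.tsum_mul _), ← sub_mul, hdec]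
    simp only [mul_assoc]
  rw [e0]
  refine (SFTrace.HS.norm_tr_le hHρ (hHσ.mul_right b)).trans ?_
  have h1 : (τ.wt (a * ρ * star (a * ρ))).toReal ≤ (excW τ a c).toReal := by
    refine ENNReal.toReal_mono hfin.ne ?_
    rw [← τ.wt_comm]
    exact hρwt
  have h2 : (τ.wt (star (σ * b) * (σ * b))).toReal ≤ ‖b‖ ^ 2 * (excW τ a c).toReal := by
    have e1 : star (σ * b) * (σ * b) = star b * (star σ * σ) * b := by
      rw [star_mul]; simp only [mul_assoc]
    have h3 := τ.wt_conj_le (star_mul_self_nonneg σ) b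
    rw [← e1, hσHS] at h3
    refine (ENNReal.toReal_mono (ENNReal.mul_ne_top ENNReal.ofReal_ne_top hfin.ne) h3).trans ?_
    rw [ENNReal.toReal_mul, ENNReal.toReal_ofReal (by positivity)]
  have hE : 0 ≤ (excW τ a c).toReal := ENNReal.toReal_nonneg
  calc Real.sqrt (τ.wt (a * ρ * star (a * ρ))).toReal *
        Real.sqrt (τ.wt (star (σ * b) * (σ * b))).toReal
      ≤ Real.sqrt (excW τ a c).toReal * Real.sqrt (‖b‖ ^ 2 * (excW τ a c).toReal) :=
        mul_le_mul (Real.sqrt_le_sqrt h1) (Real.sqrt_le_sqrt h2) (Real.sqrt_nonneg _)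
          (Real.sqrt_nonneg _)
    _ = (excW τ a c).toReal * ‖b‖ := by
        rw [Real.sqrt_mul (by positivity), Real.sqrt_sq (norm_nonneg b)]
        have := Real.mul_self_sqrt hE
        calc _ = (Real.sqrt (excW τ a c).toReal * Real.sqrt (excW τ a c).toReal) * ‖b‖ := by ring
          _ = _ := by rw [this]

theorem excW_le {Φ : ℝ → ℝ} (hΦ : IsOrlicz Φ) (a : VA M) {c : ℝ} (hc : 0 < c) (hp : 0 < Φ c) :
    excW τ a c ≤ ENNReal.ofReal (c / Φ c) *
      τ.wt (cfc (fun r : ℝ => Φ (Real.sqrt r)) (star a * a)) := by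
  rw [← τ.wt_smul (by positivity), ← cfc_const_mul (c / Φ c) (fun r : ℝ => Φ (Real.sqrt r)) _
    (OrlAux.sqrt_cont hΦ).continuousOn]
  exact τ.wt_mono (cfc_mono (fun r _ => OrlAux.part_le hΦ hc hp (Real.sqrt_nonneg r))
    (by fun_prop) ((OrlAux.sqrt_cont hΦ).const_mul _ |>.continuousOn))

theorem excW_anti (a : VA M) {c c' : ℝ} (hc : 0 < c) (h : c ≤ c') : excW τ a c' ≤ excW τ a c := by
  have _ := hc
  refine τ.wt_mono (cfc_mono (fun r _ => ?_) (by fun_prop) (by fun_prop))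
  exact max_le_max (by linarith) le_rfl

private theorem scal_geom {Φ : ℝ → ℝ} (hΦ : IsOrlicz Φ) (I : ℕ) :
    ∑ i ∈ Finset.range I, Φ (2 ^ (i + 1)) / 2 ≤ Φ (2 ^ I) := by
  induction I with
  | zero => simpa using OrlAux.nonneg hΦ (s := 1) (by norm_num)
  | succ I ih =>
    rw [Finset.sum_range_succ]
    have h1 := OrlAux.two_mul_le hΦ (s := 2 ^ I) (by positivity)
    have e : (2 : ℝ) * 2 ^ I = 2 ^ (I + 1) := by ring
    rw [e] at h1
    linarith

private theorem scal_term {Φ : ℝ → ℝ} (hΦ : IsOrlicz Φ) (i : ℕ) (s : ℝ) :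
    Φ (2 ^ (i + 1)) / 2 ^ (i + 1) * (max (s - 2 ^ i) 0 - max (s - 2 ^ (i + 1)) 0) ≤
      Φ (2 ^ (i + 1)) / 2 := by
  have h0 : 0 ≤ Φ (2 ^ (i + 1)) := OrlAux.nonneg hΦ (by positivity)
  have hp : (0 : ℝ) < 2 ^ i := by positivity
  have e : (2 : ℝ) ^ (i + 1) = 2 * 2 ^ i := by ring
  have h1 : max (s - 2 ^ i) 0 - max (s - 2 ^ (i + 1)) 0 ≤ 2 ^ i := by
    rw [e]
    rcases le_total (s - 2 ^ i) 0 with h | h
    · rw [max_eq_right h]
      have := le_max_right (s - 2 * 2 ^ i) 0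
      linarith
    · rw [max_eq_left h]
      have := le_max_left (s - 2 * 2 ^ i) 0
      linarith
  calc _ ≤ Φ (2 ^ (i + 1)) / 2 ^ (i + 1) * 2 ^ i :=
        mul_le_mul_of_nonneg_left h1 (by positivity)
    _ = _ := by rw [e]; field_simp

private theorem scal_sum {Φ : ℝ → ℝ} (hΦ : IsOrlicz Φ) {K : ℝ} (hK : 1 ≤ K)
    (hK2 : ∀ s : ℝ, 0 ≤ s → Φ (2 * s) ≤ K * Φ s) {s : ℝ} (hs : 0 ≤ s) (I : ℕ) :
    ∑ i ∈ Finset.range I, Φ (2 ^ (i + 1)) / 2 ^ (i + 1) *
        (max (s - 2 ^ i) 0 - max (s - 2 ^ (i + 1)) 0) ≤ (1 + K) * Φ s := by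
  have hs0 : 0 ≤ Φ s := OrlAux.nonneg hΦ hs
  induction I with
  | zero => simp only [Finset.range_zero, Finset.sum_empty]; positivity
  | succ I ih =>
    rw [Finset.sum_range_succ]
    have e : (2 : ℝ) ^ (I + 1) = 2 * 2 ^ I := by ring
    have hp : (0 : ℝ) < 2 ^ I := by positivity
    rcases le_total s (2 ^ I) with h | h
    · rw [max_eq_right (by linarith), max_eq_right (a := s - 2 ^ (I + 1)) (by rw [e]; linarith)]
      simpa using ih
    · have h1 : ∑ i ∈ Finset.range I, Φ (2 ^ (i + 1)) / 2 ^ (i + 1) *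
          (max (s - 2 ^ i) 0 - max (s - 2 ^ (i + 1)) 0) ≤ Φ (2 ^ I) :=
        (Finset.sum_le_sum fun i _ => scal_term hΦ i s).trans (scal_geom hΦ I)
      have h2 := scal_term hΦ I s
      have h3 : Φ (2 ^ I) ≤ Φ s := hΦ.mono (Set.mem_Ici.2 hp.le) (Set.mem_Ici.2 hs) h
      have h4 : Φ (2 ^ (I + 1)) ≤ K * Φ (2 ^ I) := by rw [e]; exact hK2 _ hp.le
      have h5 : 0 ≤ Φ (2 ^ I) := OrlAux.nonneg hΦ hp.le
      have h6 : K * Φ (2 ^ I) ≤ K * Φ s := mul_le_mul_of_nonneg_left h3 (by linarith)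
      have h7 : 0 ≤ K * Φ s := by positivity
      linarith

theorem sum_exc_le {Φ : ℝ → ℝ} (hΦ : IsOrlicz Φ) {K : ℝ} (hK : 1 ≤ K)
    (hK2 : ∀ s : ℝ, 0 ≤ s → Φ (2 * s) ≤ K * Φ s) (a : VA M)
    (hfin : τ.wt (cfc (fun r : ℝ => Φ (Real.sqrt r)) (star a * a)) < ⊤) (I : ℕ) :
    ∑ i ∈ Finset.range I, Φ (2 ^ (i + 1)) / 2 ^ (i + 1) *
        ((excW τ a (2 ^ i)).toReal - (excW τ a (2 ^ (i + 1))).toReal) ≤
      (1 + K) * (τ.wt (cfc (fun r : ℝ => Φ (Real.sqrt r)) (star a * a))).toReal := by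
  set h := star a * a with hh
  have hE : ∀ i : ℕ, excW τ a (2 ^ i) < ⊤ := fun i =>
    lt_of_le_of_lt (excW_le hΦ a (by positivity) (OrlAux.pos hΦ hK hK2 (by positivity)))
      (ENNReal.mul_lt_top ENNReal.ofReal_lt_top hfin)
  set d : ℕ → ℝ → ℝ := fun i r => max (Real.sqrt r - 2 ^ i) 0 - max (Real.sqrt r - 2 ^ (i + 1)) 0
    with hd
  have hdc : ∀ i, Continuous (d i) := fun i => by rw [hd]; fun_prop
  have hd0 : ∀ i r, 0 ≤ d i r := fun i r => by
    have : (2 : ℝ) ^ i ≤ 2 ^ (i + 1) := pow_le_pow_right₀ (by norm_num) (Nat.le_succ i)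
    exact sub_nonneg.mpr (max_le_max (by linarith) le_rfl)
  have hdn : ∀ i, 0 ≤ cfc (d i) h := fun i => cfc_nonneg fun r _ => hd0 i r
  have hstep : ∀ i, excW τ a (2 ^ i) = τ.wt (cfc (d i) h) + excW τ a (2 ^ (i + 1)) := by
    intro i
    unfold excW
    rw [← hh, ← τ.wt_add (hdn i) (cfc_nonneg fun r _ => le_max_right _ _),
      ← cfc_add h _ _ (hdc i).continuousOn (by fun_prop)]
    congr 1
    refine cfc_congr fun r _ => ?_
    simp only [hd]
    ring
  have hdfin : ∀ i, τ.wt (cfc (d i) h) < ⊤ := fun i =>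
    lt_of_le_of_lt (by rw [hstep i]; exact le_self_add) (hE i)
  have hdiff : ∀ i, (excW τ a (2 ^ i)).toReal - (excW τ a (2 ^ (i + 1))).toReal =
      (τ.wt (cfc (d i) h)).toReal := by
    intro i
    rw [hstep i, ENNReal.toReal_add (hdfin i).ne (hE (i + 1)).ne]
    ring
  have hw : ∀ i : ℕ, 0 ≤ Φ (2 ^ (i + 1)) / 2 ^ (i + 1) := fun i =>
    div_nonneg (OrlAux.nonneg hΦ (by positivity)) (by positivity)
  have e1 : ∑ i ∈ Finset.range I, Φ (2 ^ (i + 1)) / 2 ^ (i + 1) *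
        ((excW τ a (2 ^ i)).toReal - (excW τ a (2 ^ (i + 1))).toReal) =
      (τ.wt (cfc (fun r => ∑ i ∈ Finset.range I, Φ (2 ^ (i + 1)) / 2 ^ (i + 1) * d i r) h)).toReal
      := by
    have e2 : cfc (fun r => ∑ i ∈ Finset.range I, Φ (2 ^ (i + 1)) / 2 ^ (i + 1) * d i r) h =
        ∑ i ∈ Finset.range I, (Φ (2 ^ (i + 1)) / 2 ^ (i + 1)) • cfc (d i) h := by
      have e3 := cfc_sum (fun (i : ℕ) (r : ℝ) => Φ (2 ^ (i + 1)) / 2 ^ (i + 1) * d i r) h
        (Finset.range I) (fun i _ => ((hdc i).const_mul _).continuousOn)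
      have e4 : (∑ i ∈ Finset.range I, fun r : ℝ => Φ (2 ^ (i + 1)) / 2 ^ (i + 1) * d i r) =
          fun r => ∑ i ∈ Finset.range I, Φ (2 ^ (i + 1)) / 2 ^ (i + 1) * d i r := by
        funext r; simp
      rw [e4] at e3
      rw [e3]
      exact Finset.sum_congr rfl fun i _ => cfc_const_mul _ _ h (hdc i).continuousOn
    rw [e2, τ.wt_sum _ (fun i _ => smul_nonneg (hw i) (hdn i)), ENNReal.toReal_sum]
    · refine Finset.sum_congr rfl fun i _ => ?_
      rw [hdiff, τ.wt_smul (hw i), ENNReal.toReal_mul, ENNReal.toReal_ofReal (hw i)]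
    · intro i _
      rw [τ.wt_smul (hw i)]
      exact ENNReal.mul_ne_top ENNReal.ofReal_ne_top (hdfin i).ne
  rw [e1]
  have hΦc : Continuous fun r : ℝ => Φ (Real.sqrt r) := OrlAux.sqrt_cont hΦ
  have hle : τ.wt (cfc (fun r => ∑ i ∈ Finset.range I, Φ (2 ^ (i + 1)) / 2 ^ (i + 1) * d i r) h) ≤
      ENNReal.ofReal (1 + K) * τ.wt (cfc (fun r : ℝ => Φ (Real.sqrt r)) h) := by
    rw [← τ.wt_smul (by linarith), ← cfc_const_mul (1 + K) (fun r : ℝ => Φ (Real.sqrt r)) h
      hΦc.continuousOn]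
    refine τ.wt_mono (cfc_mono (fun r _ => ?_) ?_ (hΦc.const_mul _).continuousOn)
    · exact scal_sum hΦ hK hK2 (Real.sqrt_nonneg r) I
    · exact (continuous_finsetSum _ fun i _ => (hdc i).const_mul _).continuousOn
  refine (ENNReal.toReal_mono (ENNReal.mul_ne_top ENNReal.ofReal_ne_top hfin.ne) hle).trans ?_
  rw [ENNReal.toReal_mul, ENNReal.toReal_ofReal (by linarith)]

end GD64
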