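import Pool.Agent.GD64.S3Cheb
import Pool.Agent.GD64.S3Trunc

/-!
# GD64/S3GB: the excess modular of `L_1`-operators

* `GB.sub`: at level `s` use `u, u'` of level `s/2`; `‖u - u'‖ ≤ s`, `(s/2)/Φ(s/2) ≤ K/2 s/Φ(s)`; the two corners are
  contained in their join (`FinProj.join`; `g u g = u` from `u = e u e`, `g e = e`, `e g = e`).
* `GB.of_le`: `u = 0`, `e = 0` (`FinProj.zero`), `ε ≤ (s/Φ s) (c ε)`.
* `GB.of_phiMom`: let `κ = s/Φ s`, `ε = κ F/4`; `restr` gives `q, a ∈ N n` with `‖φ b - φ (q b)‖ ≤ ε ‖b‖`; by definition of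
  `phiMomL1`, `wt (cfc (Φ ∘ sqrt) (a* a)) ≤ ofReal F`; `dens` (with `e0 = 0`) gives `e`; `u = e * trunc a s * e`.
  `φ b ≈ φ (e b e) ≈ φ (q (e b e)) = tr (a (e b e))`, and `tr (u b) = tr (trunc a s * (e b e))`, so by `tr_sub_trunc_le`, `excW_le` the error is
  `≤ (2 ε + κ F) ‖b‖ ≤ κ (2 F) ‖b‖`.
* `restr_of_GB`: `e, u` from `GB` at level `s`, `ψ = φ - tauL u` (`exists_tauL`), `IsL1 ψ`, `ψ (E n b) = ψ b`
  (`tr (u E n b) = tr (E n u * b) = tr (u b)`: `tr_E_comm`), `‖ψ b‖ ≤ δ ‖b‖`, `δ = s/Φ(s) g`; `chebL1` at level `s`: `8 δ/s = 8 g/Φ(s)`;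
  `a = u q + a'`.
-/

namespace GD64

open scoped ComplexOrder InnerProductSpace ENNReal
open Filter

universe u

variable {H : Type u} [NormedAddCommGroup H] [InnerProductSpace ℂ H] [CompleteSpace H]
  {M : VonNeumannAlgebra H} {τ : SFTrace M} {𝓕 : SFiltr M τ} {Φ : ℝ → ℝ}

theorem GB.mono {g g' : ℝ} {n m : ℕ} {f : VA M → ℂ} (hpos : ∀ s, 0 < s → 0 < Φ s)
    (h : GB 𝓕 Φ g n f) (hg : g ≤ g') (hnm : n ≤ m) : GB 𝓕 Φ g' m f := by
  intro s hs
  obtain ⟨e, u, he, hu, hm, hn, hb⟩ := h s hs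
  refine ⟨e, u, he, hu, 𝓕.mono hnm hm, hn, fun b => (hb b).trans ?_⟩
  have h1 : 0 ≤ s / Φ s := (div_pos hs (hpos s hs)).le
  exact mul_le_mul_of_nonneg_right (mul_le_mul_of_nonneg_left hg h1) (norm_nonneg _)

theorem GB.congr {g : ℝ} {n : ℕ} {f f' : VA M → ℂ} (h : GB 𝓕 Φ g n f) (hf : ∀ b, f b = f' b) :
    GB 𝓕 Φ g n f' := by
  intro s hs
  obtain ⟨e, u, he, hu, hm, hn, hb⟩ := h s hs
  refine ⟨e, u, he, hu, hm, hn, fun b => ?_⟩
  rw [← hf b]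
  exact hb b

/-- an element of a smaller corner is in a larger one. -/
private theorem s3gb_corner {e j u : VA M} (he : IsStarProjection e) (hj : IsStarProjection j)
    (hje : j * e = e) (hu : e * u * e = u) : j * u * j = u := by
  have hej : e * j = e := by
    have h := congrArg star hje
    rwa [star_mul, he.isSelfAdjoint.star_eq, hj.isSelfAdjoint.star_eq] at h
  calc j * u * j = j * (e * u * e) * j := by rw [hu]
    _ = (j * e) * u * (e * j) := by simp only [mul_assoc]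
    _ = e * u * e := by rw [hje, hej]
    _ = u := hu

theorem GB.sub {K : ℝ} (hK : 1 ≤ K) (hK2 : ∀ s : ℝ, 0 ≤ s → Φ (2 * s) ≤ K * Φ s)
    (hpos : ∀ s, 0 < s → 0 < Φ s) {g g' : ℝ} (hg : 0 ≤ g) (hg' : 0 ≤ g') {n : ℕ}
    {f f' : VA M → ℂ} (h : GB 𝓕 Φ g n f) (h' : GB 𝓕 Φ g' n f') :
    GB 𝓕 Φ (K * (g + g')) n (fun b => f b - f' b) := by
  intro s hs
  have hs2 : 0 < s / 2 := by linarith
  obtain ⟨e, u, he, hu, hm, hn, hb⟩ := h (s / 2) hs2
  obtain ⟨e', u', he', hu', hm', hn', hb'⟩ := h' (s / 2) hs2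
  obtain ⟨j, hj, hje, hje'⟩ := he.join he'
  refine ⟨j, u - u', hj, ?_, ?_, ?_, ?_⟩
  · rw [mul_sub, sub_mul, s3gb_corner he.proj hj.proj hje hu,
      s3gb_corner he'.proj hj.proj hje' hu']
  · exact sub_mem hm hm'
  · refine (norm_sub_le _ _).trans ?_
    linarith
  · intro b
    have hfu : IsFin τ u := he.isFin hu
    have hfu' : IsFin τ u' := he'.isFin hu'
    have e1 : τ.tr ((u - u') * b) = τ.tr (u * b) - τ.tr (u' * b) := by
      rw [sub_mul]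
      exact SFTrace.tr_sub (hfu.tsum_mul' b) (hfu'.tsum_mul' b)
    have e2 : f b - f' b - τ.tr ((u - u') * b) =
        (f b - τ.tr (u * b)) - (f' b - τ.tr (u' * b)) := by
      rw [e1]; ring
    rw [e2]
    refine (norm_sub_le _ _).trans ?_
    refine (add_le_add (hb b) (hb' b)).trans ?_
    have h1 : 0 < Φ (s / 2) := hpos _ hs2
    have h2 : 0 < Φ s := hpos _ hs
    have h3 : Φ s ≤ K * Φ (s / 2) := by
      have := hK2 (s / 2) hs2.le
      rwa [show 2 * (s / 2) = s by ring] at this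
    have h4 : s / 2 / Φ (s / 2) ≤ s / Φ s * K := by
      rw [div_le_iff₀ h1]
      have h5 : 1 ≤ K * Φ (s / 2) / Φ s := by rwa [le_div_iff₀ h2, one_mul]
      calc s / 2 ≤ s * 1 := by linarith
        _ ≤ s * (K * Φ (s / 2) / Φ s) := mul_le_mul_of_nonneg_left h5 hs.le
        _ = s / Φ s * K * Φ (s / 2) := by ring
    have h6 := norm_nonneg b
    calc s / 2 / Φ (s / 2) * g * ‖b‖ + s / 2 / Φ (s / 2) * g' * ‖b‖
        = s / 2 / Φ (s / 2) * ((g + g') * ‖b‖) := by ring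
      _ ≤ s / Φ s * K * ((g + g') * ‖b‖) := mul_le_mul_of_nonneg_right h4 (by positivity)
      _ = s / Φ s * (K * (g + g')) * ‖b‖ := by ring

theorem GB.of_le {c ε : ℝ} (hc : 0 < c) (hΦ : IsOrlicz Φ) (hpos : ∀ s, 0 < s → 0 < Φ s)
    (hlin : ∀ s, 0 < s → Φ s ≤ c * s) (hε : 0 ≤ ε) {f : VA M → ℂ}
    (h : ∀ b, ‖f b‖ ≤ ε * ‖b‖) (n : ℕ) : GB 𝓕 Φ (c * ε) n f := by
  intro s hs
  refine ⟨0, 0, FinProj.zero 𝓕, by simp, ?_, by simpa using hs.le, ?_⟩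
  · exact zero_mem (𝓕.N n)
  · intro b
    rw [zero_mul, SFTrace.tr_zero, sub_zero]
    refine (h b).trans ?_
    have h1 : 1 ≤ c * s / Φ s := by
      rw [le_div_iff₀ (hpos s hs), one_mul]
      exact hlin s hs
    calc ε * ‖b‖ = ε * ‖b‖ * 1 := by ring
      _ ≤ ε * ‖b‖ * (c * s / Φ s) := mul_le_mul_of_nonneg_left h1 (by positivity)
      _ = s / Φ s * (c * ε) * ‖b‖ := by ring

theorem GB.of_phiMom (hΦ : IsOrlicz Φ) (hpos : ∀ s, 0 < s → 0 < Φ s) {φ : VA M →L[ℂ] ℂ}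
    (hφ : IsL1 τ φ) {n : ℕ} (hn : ∀ b, φ (𝓕.E n b) = φ b) {F : ℝ} (hF : 0 < F)
    (h : phiMomL1 τ Φ φ ≤ ENNReal.ofReal F) : GB 𝓕 Φ (2 * F) n φ := by
  intro s hs
  have hΦs := hpos s hs
  obtain ⟨κ, hκ⟩ : ∃ κ : ℝ, s / Φ s = κ := ⟨_, rfl⟩
  have hκ0 : 0 < κ := by rw [← hκ]; exact div_pos hs hΦs
  have hε : 0 < κ * F / 4 := by positivity
  obtain ⟨q, a, hq, ha, hR, hqb⟩ := restr hφ hn hε
  obtain ⟨e, he, -, heb⟩ := dens hφ hε (FinProj.zero 𝓕)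
  have hwt : τ.wt (cfc (fun r : ℝ => Φ (Real.sqrt r)) (star a * a)) ≤ ENNReal.ofReal F := by
    refine le_trans ?_ h
    unfold phiMomL1
    exact le_iSup_of_le q (le_iSup_of_le a (le_iSup_of_le hR le_rfl))
  have hexc : excW τ a s ≤ ENNReal.ofReal (κ * F) := by
    refine (excW_le hΦ a hs hΦs).trans ?_
    rw [hκ, ENNReal.ofReal_mul hκ0.le]
    exact mul_le_mul_right hwt _
  have hexc2 : excW τ a s < ⊤ := lt_of_le_of_lt hexc ENNReal.ofReal_lt_top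
  have hexc3 : (excW τ a s).toReal ≤ κ * F :=
    ENNReal.toReal_le_of_le_ofReal (by positivity) hexc
  have hee : e * e = e := he.proj.isIdempotentElem.eq
  have hne : ‖e‖ ≤ 1 := he.proj.norm_le
  have hcorner : ∀ x : VA M, e * (e * x * e) * e = e * x * e := by
    intro x
    calc e * (e * x * e) * e = (e * e) * x * (e * e) := by simp only [mul_assoc]
      _ = e * x * e := by rw [hee]
  have hnorm : ∀ x : VA M, ‖e * x * e‖ ≤ ‖x‖ := by
    intro x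
    calc ‖e * x * e‖ ≤ ‖e‖ * ‖x‖ * ‖e‖ :=
          (norm_mul_le _ _).trans (mul_le_mul_of_nonneg_right (norm_mul_le _ _) (norm_nonneg _))
      _ ≤ 1 * ‖x‖ * 1 := by
          refine mul_le_mul (mul_le_mul_of_nonneg_right hne (norm_nonneg _)) hne
            (norm_nonneg _) (by positivity)
      _ = ‖x‖ := by ring
  refine ⟨e, e * trunc a s * e, he, hcorner _, ?_, (hnorm _).trans (norm_trunc_le a hs), ?_⟩
  · have h1 : (e : H →L[ℂ] H) ∈ 𝓕.N n := he.mem_n n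
    exact mul_mem (mul_mem h1 (trunc_mem ha hs)) h1
  · intro b
    have hfb : IsFin τ (e * b * e) := he.isFin (hcorner b)
    have hfe : IsFin τ e := he.isFin (by rw [hee, hee])
    have e1 : τ.tr (e * trunc a s * e * b) = τ.tr (trunc a s * (e * b * e)) := by
      have hfu : IsFin τ (e * trunc a s * e) := he.isFin (hcorner _)
      calc τ.tr (e * trunc a s * e * b) = τ.tr (b * (e * trunc a s * e)) :=
            (hfu.tr_comm b).symm
        _ = τ.tr ((b * e * trunc a s) * e) := by simp only [mul_assoc]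
        _ = τ.tr (e * (b * e * trunc a s)) := hfe.tr_comm _
        _ = τ.tr ((e * b * e) * trunc a s) := by simp only [mul_assoc]
        _ = τ.tr (trunc a s * (e * b * e)) := (hfb.tr_comm _).symm
    have e2 : φ (q * (e * b * e)) = τ.tr (a * (e * b * e)) := hR.2 _ hfb
    have h1 := heb b
    have h2 := hqb (e * b * e)
    have h3 := tr_sub_trunc_le a hs hexc2 hfb
    have h4 := hnorm b
    have hb0 := norm_nonneg b
    have h5 : ‖φ (e * b * e) - φ (q * (e * b * e))‖ ≤ κ * F / 4 * ‖b‖ :=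
      h2.trans (mul_le_mul_of_nonneg_left h4 hε.le)
    have h6 : ‖τ.tr (a * (e * b * e)) - τ.tr (trunc a s * (e * b * e))‖ ≤ κ * F * ‖b‖ :=
      h3.trans (mul_le_mul hexc3 h4 (norm_nonneg _) (by positivity))
    rw [e1, hκ]
    have e3 : φ b - τ.tr (trunc a s * (e * b * e)) =
        (φ b - φ (e * b * e)) + (φ (e * b * e) - φ (q * (e * b * e))) +
          (τ.tr (a * (e * b * e)) - τ.tr (trunc a s * (e * b * e))) := by
      rw [e2]; ring
    rw [e3]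
    refine (norm_add_le _ _).trans ?_
    refine (add_le_add_left (norm_add_le _ _) _).trans ?_
    have h7 : 0 ≤ κ * F * ‖b‖ := by positivity
    calc ‖φ b - φ (e * b * e)‖ + ‖φ (e * b * e) - φ (q * (e * b * e))‖ +
          ‖τ.tr (a * (e * b * e)) - τ.tr (trunc a s * (e * b * e))‖
        ≤ κ * F / 4 * ‖b‖ + κ * F / 4 * ‖b‖ + κ * F * ‖b‖ := by linarith
      _ ≤ κ * (2 * F) * ‖b‖ := by linarith

theorem restr_of_GB (hpos : ∀ s, 0 < s → 0 < Φ s) {φ : VA M →L[ℂ] ℂ} (hφ : IsL1 τ φ) {n : ℕ}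
    (hn : ∀ b, φ (𝓕.E n b) = φ b) {g : ℝ} (hg : 0 < g) (h : GB 𝓕 Φ g n φ) {s : ℝ}
    (hs : 0 < s) :
    ∃ q a : VA M, (q : H →L[ℂ] H) ∈ 𝓕.N n ∧ (a : H →L[ℂ] H) ∈ 𝓕.N n ∧ RestrR τ φ q a ∧
      ‖a‖ ≤ 2 * s ∧ τ.wt (1 - q) ≤ ENNReal.ofReal (8 * g / Φ s) := by
  obtain ⟨e, u, he, hu, hm, hnu, hb⟩ := h s hs
  have hΦs := hpos s hs
  have hfu : IsFin τ u := he.isFin hu
  obtain ⟨ψ₀, hψ₀⟩ := hfu.exists_tauL
  have hψ : IsL1 τ (φ - ψ₀) := hφ.sub (IsL1.of_fin hfu hψ₀)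
  have hψb : ∀ b, (φ - ψ₀) b = φ b - τ.tr (u * b) := by
    intro b
    rw [← hψ₀ b]
    rfl
  have hψn : ∀ b, (φ - ψ₀) (𝓕.E n b) = (φ - ψ₀) b := by
    intro b
    rw [hψb, hψb, hn, ← SFiltr.tr_E_comm (𝓕 := 𝓕) he hu n b, SFiltr.E_of_mem (𝓕 := 𝓕) hm]
  have hδ : 0 < s / Φ s * g := by positivity
  have hψd : ∀ b, ‖(φ - ψ₀) b‖ ≤ s / Φ s * g * ‖b‖ := by
    intro b
    rw [hψb]
    exact hb b
  obtain ⟨q, a, hq, ha, hna, hR, hwt⟩ := chebL1 hψ hψn hδ hs hψd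
  refine ⟨q, u * q + a, hq, ?_, ⟨hR.1, ?_⟩, ?_, ?_⟩
  · exact add_mem (mul_mem hm hq) ha
  · intro b hfb
    have h1 := hR.2 b hfb
    rw [hψb] at h1
    have h2 : τ.tr ((u * q + a) * b) = τ.tr (u * q * b) + τ.tr (a * b) := by
      rw [add_mul]
      exact SFTrace.tr_add (hfb.tsum_mul (u * q)) (hfb.tsum_mul a)
    rw [h2, ← h1, mul_assoc]
    ring
  · have hq1 : ‖q‖ ≤ 1 := hR.1.norm_le
    calc ‖u * q + a‖ ≤ ‖u * q‖ + ‖a‖ := norm_add_le _ _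
      _ ≤ ‖u‖ * ‖q‖ + s := add_le_add (norm_mul_le _ _) hna
      _ ≤ s * 1 + s := by
          have := mul_le_mul hnu hq1 (norm_nonneg _) hs.le
          linarith
      _ = 2 * s := by ring
  · refine hwt.trans (le_of_eq ?_)
    congr 1
    field_simp

end GD64
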