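import Pool.Agent.GD64.S3Tight
import Pool.Agent.GD64.S3GB

/-!
# GD64/S3ATB: approximation of an `L_1`-bounded martingale by martingales of bounded operators in a finite corner

`approxL1`: `e` from `tight` with `ε/2`. For each `k` take `a_k` finite with `‖x k - tr (a_k ·)‖ ≤ ε_k = ε 2^{-k-3}` and
`u_k = E k (e a_k e) ∈ N k`: `|x k (e b e) - tr (u_k b)| ≤ ε_k ‖b‖` (`x k (e b e) = x k (E k (e b e)) = x k (e (E k b) e)`,
`tr (u_k b) = tr ((e a_k e) (E k b)) = tr (a_k (e (E k b) e))`, `tr_E_comm`, `norm_E_le`).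
`S 0 = u_0`, `S (k+1) = S k + (u_{k+1} - E k u_{k+1})`. Then
`(x (k+1) (e b e) - x k (e b e)) - tr ((u_{k+1} - E k u_{k+1}) b) = [x (k+1) (e b e) - tr (u_{k+1} b)] -
[x (k+1) (e (E k b) e) - tr (u_{k+1} (E k b))]`, at most `2 ε_{k+1} ‖b‖`; the sum of all errors is `≤ ε/2`.
`approxB`: `GB.of_le` with `c`, and `approxL1` with `ε/c`.
-/

namespace GD64

open scoped ComplexOrder InnerProductSpace ENNReal
open Filter

universe u

variable {H : Type u} [NormedAddCommGroup H] [InnerProductSpace ℂ H] [CompleteSpace H]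
  {M : VonNeumannAlgebra H} {τ : SFTrace M} {𝓕 : SFiltr M τ} {Φ : ℝ → ℝ}

theorem s3atb_norm_corner {e : VA M} (he : IsStarProjection e) (b : VA M) :
    ‖e * b * e‖ ≤ ‖b‖ := by
  have h1 : ‖e‖ ≤ 1 := he.norm_le
  calc ‖e * b * e‖ ≤ ‖e * b‖ * ‖e‖ := norm_mul_le _ _
    _ ≤ (‖e‖ * ‖b‖) * ‖e‖ := mul_le_mul_of_nonneg_right (norm_mul_le _ _) (norm_nonneg _)
    _ ≤ (1 * ‖b‖) * 1 := by
        have h2 := norm_nonneg e
        have h3 := norm_nonneg b
        have h4 : ‖e‖ * ‖b‖ ≤ 1 * ‖b‖ := mul_le_mul_of_nonneg_right h1 h3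
        exact mul_le_mul h4 h1 h2 (by linarith)
    _ = ‖b‖ := by ring

theorem s3atb_corner_idem {e : VA M} (he : IsStarProjection e) (b : VA M) :
    e * (e * b * e) * e = e * b * e := by
  have hee : e * e = e := he.isIdempotentElem.eq
  calc e * (e * b * e) * e = (e * e) * b * (e * e) := by noncomm_ring
    _ = e * b * e := by rw [hee]

theorem approxL1 {x : ℕ → (VA M →L[ℂ] ℂ)} (hx : IsMartL1 𝓕 x) {B : ℝ} (hB : ∀ n, ‖x n‖ ≤ B)
    {ε : ℝ} (hε : 0 < ε) {e0 : VA M} (he0 : FinProj 𝓕 e0) :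
    ∃ (e : VA M) (S : ℕ → VA M), FinProj 𝓕 e ∧ e * e0 = e0 ∧ CMart 𝓕 e S ∧
      ∀ (k : ℕ) (b : VA M), ‖x k b - τ.tr (S k * b)‖ ≤ ε * ‖b‖ := by
  obtain ⟨e, he, hee0, htight⟩ := tight hx hB (half_pos hε) he0
  have hee : e * e = e := he.proj.isIdempotentElem.eq
  have hl1 : ∀ k, ∃ a : VA M, IsFin τ a ∧
      ∀ b : VA M, ‖x k b - τ.tr (a * b)‖ ≤ ε / 2 ^ (k + 3) * ‖b‖ :=
    fun k => hx.l1 k (ε / 2 ^ (k + 3)) (by positivity)
  choose a hafin ha using hl1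
  set u : ℕ → VA M := fun k => 𝓕.E k (e * a k * e) with hu
  have hcor : ∀ k, e * (e * a k * e) * e = e * a k * e := fun k => s3atb_corner_idem he.proj _
  have hum : ∀ k, (u k : H →L[ℂ] H) ∈ 𝓕.N k := fun k => 𝓕.E_mem k _
  have huc : ∀ k, e * u k * e = u k := fun k => 𝓕.E_corner he (hcor k) k
  have huf : ∀ k, IsFin τ (u k) := fun k => he.isFin (huc k)
  -- the main estimate for one `k`
  have hest : ∀ (k : ℕ) (b : VA M), ‖x k (e * b * e) - τ.tr (u k * b)‖ ≤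
      ε / 2 ^ (k + 3) * ‖b‖ := by
    intro k b
    have e1 : x k (e * b * e) = x k (e * 𝓕.E k b * e) := by
      rw [← 𝓕.E_mod k b e e (he.mem_n k) (he.mem_n k)]
      exact (hx.eq_of_le le_rfl _).symm
    have e2 : τ.tr (u k * b) = τ.tr (a k * (e * 𝓕.E k b * e)) := by
      have hfe : IsFin τ e := ⟨e, he.proj, he.fin, by rw [hee, hee]⟩
      rw [hu]
      show τ.tr (𝓕.E k (e * a k * e) * b) = _
      rw [𝓕.tr_E_comm he (hcor k) k b]
      have e3 : e * a k * e * 𝓕.E k b = e * (a k * e * 𝓕.E k b) := by noncomm_ring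
      have e4 : a k * (e * 𝓕.E k b * e) = (a k * e * 𝓕.E k b) * e := by noncomm_ring
      rw [e3, e4, IsFin.tr_comm hfe]
    rw [e1, e2]
    refine (ha k _).trans ?_
    refine mul_le_mul_of_nonneg_left ?_ (by positivity)
    exact (s3atb_norm_corner he.proj _).trans (𝓕.norm_E_le k b)
  -- the martingale
  set S : ℕ → VA M := fun k => Nat.rec (u 0) (fun k Sk => Sk + (u (k + 1) - 𝓕.E k (u (k + 1)))) k
    with hS
  have hS0 : S 0 = u 0 := rfl
  have hSs : ∀ k, S (k + 1) = S k + (u (k + 1) - 𝓕.E k (u (k + 1))) := fun k => rfl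
  have hSm : ∀ k, (S k : H →L[ℂ] H) ∈ 𝓕.N k := by
    intro k
    induction k with
    | zero => exact hum 0
    | succ k ih =>
      rw [hSs]
      have h1 := 𝓕.mem_of_le (Nat.le_succ k) ih
      have h2 := 𝓕.mem_of_le (Nat.le_succ k) (𝓕.E_mem k (u (k + 1)))
      exact add_mem h1 (sub_mem (hum (k + 1)) h2)
  have hSc : ∀ k, e * S k * e = S k := by
    intro k
    induction k with
    | zero => exact huc 0
    | succ k ih =>
      rw [hSs]
      have h2 := 𝓕.E_corner he (huc (k + 1)) k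
      rw [mul_add, add_mul, mul_sub, sub_mul, ih, huc, h2]
  have hSE : ∀ k, 𝓕.E k (S (k + 1)) = S k := by
    intro k
    rw [hSs, map_add, map_sub, 𝓕.E_of_mem (hSm k), 𝓕.E_of_mem (𝓕.E_mem k (u (k + 1))), sub_self,
      add_zero]
  have hSf : ∀ k, IsFin τ (S k) := fun k => he.isFin (hSc k)
  -- the error
  have herr : ∀ (k : ℕ) (b : VA M), ‖x k (e * b * e) - τ.tr (S k * b)‖ ≤
      ε / 2 * (1 - 1 / 2 ^ (k + 1)) * ‖b‖ := by
    intro k
    induction k with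
    | zero =>
      intro b
      rw [hS0]
      refine (hest 0 b).trans ?_
      refine mul_le_mul_of_nonneg_right ?_ (norm_nonneg _)
      norm_num
      linarith
    | succ k ih =>
      intro b
      have f1 : IsFin τ (𝓕.E k (u (k + 1))) := he.isFin (𝓕.E_corner he (huc (k + 1)) k)
      have e1 : τ.tr (S (k + 1) * b) = τ.tr (S k * b) + (τ.tr (u (k + 1) * b) -
          τ.tr (𝓕.E k (u (k + 1)) * b)) := by
        rw [hSs, add_mul, sub_mul, SFTrace.tr_add ((hSf k).tsum_mul' b)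
          (((huf (k + 1)).tsum_mul' b).sub (f1.tsum_mul' b)),
          SFTrace.tr_sub ((huf (k + 1)).tsum_mul' b) (f1.tsum_mul' b)]
      have e2 : τ.tr (𝓕.E k (u (k + 1)) * b) = τ.tr (u (k + 1) * 𝓕.E k b) :=
        𝓕.tr_E_comm he (huc (k + 1)) k b
      have e3 : x k (e * b * e) = x (k + 1) (e * 𝓕.E k b * e) := by
        rw [← 𝓕.E_mod k b e e (he.mem_n k) (he.mem_n k)]
        exact (hx.eq_of_le (Nat.le_succ k) _).symm
      have e4 : x (k + 1) (e * b * e) - τ.tr (S (k + 1) * b) =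
          (x k (e * b * e) - τ.tr (S k * b)) +
          ((x (k + 1) (e * b * e) - τ.tr (u (k + 1) * b)) -
            (x (k + 1) (e * 𝓕.E k b * e) - τ.tr (u (k + 1) * 𝓕.E k b))) := by
        rw [e1, e2, e3]; ring
      rw [e4]
      have h1 := ih b
      have h2 := hest (k + 1) b
      have h3 := hest (k + 1) (𝓕.E k b)
      have h4 := 𝓕.norm_E_le k b
      have h5 : ε / 2 ^ (k + 1 + 3) * ‖𝓕.E k b‖ ≤ ε / 2 ^ (k + 1 + 3) * ‖b‖ :=
        mul_le_mul_of_nonneg_left h4 (by positivity)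
      refine (norm_add_le _ _).trans ((add_le_add le_rfl (norm_sub_le _ _)).trans ?_)
      have h6 : ε / 2 * (1 - 1 / 2 ^ (k + 1)) * ‖b‖ + (ε / 2 ^ (k + 1 + 3) * ‖b‖ +
          ε / 2 ^ (k + 1 + 3) * ‖b‖) = ε / 2 * (1 - 1 / 2 ^ (k + 1 + 1)) * ‖b‖ := by
        field_simp
        ring
      rw [← h6]
      linarith
  refine ⟨e, S, he, hee0, ⟨hSm, hSc, hSE⟩, fun k b => ?_⟩
  have e5 : x k b - τ.tr (S k * b) = (x k b - x k (e * b * e)) +
      (x k (e * b * e) - τ.tr (S k * b)) := by ring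
  rw [e5]
  have h1 := htight k b
  have h2 := herr k b
  have h3 : ε / 2 * (1 - 1 / 2 ^ (k + 1)) * ‖b‖ ≤ ε / 2 * ‖b‖ := by
    refine mul_le_mul_of_nonneg_right ?_ (norm_nonneg _)
    have : (0 : ℝ) ≤ 1 / 2 ^ (k + 1) := by positivity
    nlinarith
  refine (norm_add_le _ _).trans ?_
  linarith

theorem approxB {c : ℝ} (hc : 0 < c) (hΦ : IsOrlicz Φ) (hpos : ∀ s, 0 < s → 0 < Φ s)
    (hlin : ∀ s, 0 < s → Φ s ≤ c * s) {x : ℕ → (VA M →L[ℂ] ℂ)} (hx : IsMartL1 𝓕 x) {B : ℝ}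
    (hB : ∀ n, ‖x n‖ ≤ B) {ε : ℝ} (hε : 0 < ε) {e0 : VA M} (he0 : FinProj 𝓕 e0) :
    ∃ (e : VA M) (S : ℕ → VA M), FinProj 𝓕 e ∧ e * e0 = e0 ∧ CMart 𝓕 e S ∧
      ∀ k, GB 𝓕 Φ ε k (fun b => x k b - τ.tr (S k * b)) := by
  obtain ⟨e, S, he, hee0, hS, hest⟩ := approxL1 hx hB (div_pos hε hc) he0
  refine ⟨e, S, he, hee0, hS, fun k => ?_⟩
  have h := GB.of_le (𝓕 := 𝓕) hc hΦ hpos hlin (div_pos hε hc).le (hest k) k
  rwa [mul_div_cancel₀ _ hc.ne'] at h

end GD64
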