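import Pool.Agent.GD64.S3ATAseq
import Pool.Agent.GD64.S3ATB

/-!
# GD64/S3ATA: approximation in the superlinear case; the approximation theorem

`approxA`. `T, u` from `truncData`, `r j = Φ(2^j)/2^j T j → 0`. Choose `L` with `r j ≤ ε/(2 K²)` for all `j ≥ L`; `η > 0` with
`η Φ(2^L)/2^L ≤ ε/(2 K)`; `e` from `tight` with `η`; `S k = E k (e (u L) e)` (`E_tower`, `E_corner`). `GB` of `x k - tr (S k ·)` at level `s`:
(i) `s < 2 * 2^L`: `u = 0`: error `≤ (η + T L) ‖b‖`. `s/Φ(s) ≥ 2·2^L/Φ(2·2^L) ≥ (2/K) 2^L/Φ(2^L)` (`s/Φ s` nonincreasing: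
`OrlAux.scale`), so `(s/Φ s) ε ≥ (2 ε/K) 2^L/Φ(2^L) ≥ η + T L`.
(ii) `2^(j+1) ≤ s < 2^(j+2)` with `j ≥ L`: `e'` from `tight` with `e0 = e` and `η' = (s/Φ s) ε/2`; `v = E k (e' (u j) e') - S k`
(`e' v e' = v` since `e' e = e`), `‖v‖ ≤ 2^j + 2^L ≤ 2^(j+1) ≤ s`; `x k b - tr (S k b) - tr (v b) = x k b - tr (E k (e' (u j) e') b)` is at most
`(η' + T j) ‖b‖`, and `T j = 2^j/Φ(2^j) r j`, `Φ s ≤ Φ(2^(j+2)) ≤ K² Φ(2^j)`, `s ≥ 2^j` so `2^j/Φ(2^j) ≤ K² s/Φ s` and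
`T j ≤ (s/Φ s) ε/2`.
`approx`: `s/Φ s` is nonincreasing and `> 0`: either it tends to `0` (`approxA`), or it is `≥ c₀ > 0` for all `s > 0`, i.e.
`Φ s ≤ s/c₀` (`approxB`).
-/

namespace GD64

open scoped ComplexOrder InnerProductSpace ENNReal
open Filter

universe u

variable {H : Type u} [NormedAddCommGroup H] [InnerProductSpace ℂ H] [CompleteSpace H]
  {M : VonNeumannAlgebra H} {τ : SFTrace M} {𝓕 : SFiltr M τ} {Φ : ℝ → ℝ}

/-- `s / Φ s` is nonincreasing. -/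
theorem s3ata_anti (hΦ : IsOrlicz Φ) (hpos : ∀ s, 0 < s → 0 < Φ s) {s t : ℝ} (hs : 0 < s)
    (hst : s ≤ t) : t / Φ t ≤ s / Φ s := by
  have ht : 0 < t := lt_of_lt_of_le hs hst
  have h1 := OrlAux.scale hΦ (c := s / t) (s := t) (by positivity)
    ((div_le_one ht).2 hst) ht.le
  have e : s / t * t = s := by field_simp
  rw [e] at h1
  have h2 := hpos s hs
  have h3 := hpos t ht
  rw [div_le_div_iff₀ h3 h2]
  have h4 : s / t * Φ t = s * Φ t / t := by ring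
  rw [h4, le_div_iff₀ ht] at h1
  linarith

theorem approxA (hΦ : IsOrlicz Φ) {K : ℝ} (hK : 1 ≤ K)
    (hK2 : ∀ s : ℝ, 0 ≤ s → Φ (2 * s) ≤ K * Φ s) (hpos : ∀ s, 0 < s → 0 < Φ s)
    (hsup : Tendsto (fun s : ℝ => s / Φ s) atTop (nhds 0)) {x : ℕ → (VA M →L[ℂ] ℂ)}
    (hx : IsMartL1 𝓕 x) {B : ℝ} (hB : ∀ n, ‖x n‖ ≤ B) {F : ℝ} (hF : 0 < F)
    (hxF : ∀ n, phiMomL1 τ Φ (x n) ≤ ENNReal.ofReal F) {ε : ℝ} (hε : 0 < ε) {e0 : VA M}
    (he0 : FinProj 𝓕 e0) :
    ∃ (e : VA M) (S : ℕ → VA M), FinProj 𝓕 e ∧ e * e0 = e0 ∧ CMart 𝓕 e S ∧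
      ∀ k, GB 𝓕 Φ ε k (fun b => x k b - τ.tr (S k * b)) := by
  obtain ⟨T, u, hT0, hun, -, hr, hmain⟩ := truncData hΦ hK hK2 hpos hsup hx hF hxF
  have hK0 : 0 < K := by linarith
  -- choice of `L`
  have hev : ∀ᶠ j in atTop, Φ (2 ^ j) / 2 ^ j * T j < ε / (2 * K ^ 2) :=
    hr.eventually (gt_mem_nhds (by positivity))
  obtain ⟨L, hL⟩ := eventually_atTop.1 hev
  have hTj : ∀ j, L ≤ j → T j ≤ (2 : ℝ) ^ j / Φ (2 ^ j) * (ε / (2 * K ^ 2)) := by
    intro j hj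
    have h1 := (hL j hj).le
    have h2 := hpos (2 ^ j) (by positivity)
    rw [div_mul_eq_mul_div, div_le_iff₀ (by positivity)] at h1
    rw [div_mul_eq_mul_div, le_div_iff₀ h2]
    linarith
  set P : ℝ := (2 : ℝ) ^ L / Φ (2 ^ L) with hP
  have hPpos : 0 < P := by
    have := hpos (2 ^ L) (by positivity)
    positivity
  set η : ℝ := P * (ε / (2 * K)) with hη
  have hηpos : 0 < η := by positivity
  obtain ⟨e, he, hee0, htight⟩ := tight hx hB hηpos he0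
  have hcorL : e * (e * u L * e) * e = e * u L * e := s3atb_corner_idem he.proj _
  set S : ℕ → VA M := fun k => 𝓕.E k (e * u L * e) with hS
  have hSm : ∀ k, (S k : H →L[ℂ] H) ∈ 𝓕.N k := fun k => 𝓕.E_mem k _
  have hSc : ∀ k, e * S k * e = S k := fun k => 𝓕.E_corner he hcorL k
  have hSE : ∀ k, 𝓕.E k (S (k + 1)) = S k := fun k => 𝓕.E_tower he hcorL (Nat.le_succ k)
  have hSn : ∀ k, ‖S k‖ ≤ 2 ^ L := fun k =>
    (𝓕.norm_E_le k _).trans ((s3atb_norm_corner he.proj _).trans (hun L))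
  have hSf : ∀ k, IsFin τ (S k) := fun k => he.isFin (hSc k)
  refine ⟨e, S, he, hee0, ⟨hSm, hSc, hSE⟩, fun k s hs => ?_⟩
  have hΦs := hpos s hs
  rcases lt_or_ge s ((2 : ℝ) ^ (L + 1)) with hcase | hcase
  · -- small levels
    refine ⟨0, 0, FinProj.zero 𝓕, by simp, zero_mem _, by simpa using hs.le, fun b => ?_⟩
    have e1 : x k b - τ.tr (S k * b) - τ.tr (0 * b) =
        (x k b - x k (e * b * e)) + (x k (e * b * e) - τ.tr (S k * b)) := by
      rw [zero_mul, SFTrace.tr_zero]; ring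
    rw [e1]
    have h1 := htight k b
    have h2 := hmain L k e he b
    have h3 : s / Φ s ≥ 2 / K * P := by
      have h4 := s3ata_anti hΦ hpos hs hcase.le
      refine le_trans ?_ h4
      have h5 := hK2 (2 ^ L) (by positivity)
      have h6 := hpos (2 ^ L) (by positivity)
      have e2 : (2 : ℝ) ^ (L + 1) = 2 * 2 ^ L := by ring
      rw [e2, hP, div_mul_div_comm]
      exact div_le_div_of_nonneg_left (by positivity) (hpos _ (by positivity)) h5
    have h4 : T L ≤ P * (ε / (2 * K)) := by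
      refine (hTj L le_rfl).trans ?_
      refine mul_le_mul_of_nonneg_left ?_ hPpos.le
      refine div_le_div_of_nonneg_left hε.le (by positivity) ?_
      nlinarith
    have h5 : η + T L ≤ s / Φ s * ε := by
      have h6 : 2 / K * P * ε ≤ s / Φ s * ε := mul_le_mul_of_nonneg_right h3 hε.le
      have h7 : P * (ε / (2 * K)) + P * (ε / (2 * K)) ≤ 2 / K * P * ε := by
        have : 2 / K * P * ε = 2 * (P * (ε / (2 * K)) + P * (ε / (2 * K))) := by
          field_simp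
          norm_num
        have h8 : 0 < P * (ε / (2 * K)) := by positivity
        linarith
      linarith
    calc ‖x k b - x k (e * b * e) + (x k (e * b * e) - τ.tr (S k * b))‖
        ≤ ‖x k b - x k (e * b * e)‖ + ‖x k (e * b * e) - τ.tr (S k * b)‖ := norm_add_le _ _
      _ ≤ η * ‖b‖ + T L * ‖b‖ := add_le_add h1 h2
      _ = (η + T L) * ‖b‖ := by ring
      _ ≤ s / Φ s * ε * ‖b‖ := mul_le_mul_of_nonneg_right h5 (norm_nonneg _)
  · -- large levels
    have h1s : (1 : ℝ) ≤ s := by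
      have : (1 : ℝ) ≤ 2 ^ (L + 1) := one_le_pow₀ (by norm_num)
      linarith
    obtain ⟨n, hn1, hn2⟩ := exists_nat_pow_near h1s (one_lt_two : (1 : ℝ) < 2)
    have hnL : L + 1 ≤ n := by
      by_contra hcon
      push Not at hcon
      have h1 : (2 : ℝ) ^ (n + 1) ≤ 2 ^ (L + 1) := pow_le_pow_right₀ (by norm_num) (by omega)
      linarith
    obtain ⟨j, rfl⟩ : ∃ j, n = j + 1 := ⟨n - 1, by omega⟩
    have hjL : L ≤ j := by omega
    have hη' : 0 < s / Φ s * (ε / 2) := by positivity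
    obtain ⟨e', he', hee', htight'⟩ := tight hx hB hη' he
    have hcorj : e' * (e' * u j * e') * e' = e' * u j * e' := s3atb_corner_idem he'.proj _
    have hse' : star e' = e' := he'.proj.isSelfAdjoint.star_eq
    have hse : star e = e := he.proj.isSelfAdjoint.star_eq
    have hee'2 : e * e' = e := by
      have := congrArg star hee'
      rwa [star_mul, hse', hse] at this
    have hSc' : e' * S k * e' = S k := by
      calc e' * S k * e' = e' * (e * S k * e) * e' := by rw [hSc]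
        _ = (e' * e) * S k * (e * e') := by noncomm_ring
        _ = S k := by rw [hee', hee'2, hSc]
    have hw := 𝓕.E_corner he' hcorj k
    have hwf : IsFin τ (𝓕.E k (e' * u j * e')) := he'.isFin hw
    refine ⟨e', 𝓕.E k (e' * u j * e') - S k, he', ?_, sub_mem (𝓕.E_mem k _) (hSm k), ?_,
      fun b => ?_⟩
    · rw [mul_sub, sub_mul, hw, hSc']
    · have h1 : ‖𝓕.E k (e' * u j * e')‖ ≤ 2 ^ j :=
        (𝓕.norm_E_le k _).trans ((s3atb_norm_corner he'.proj _).trans (hun j))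
      have h2 : (2 : ℝ) ^ L ≤ 2 ^ j := pow_le_pow_right₀ (by norm_num) hjL
      have h3 : (2 : ℝ) ^ (j + 1) = 2 ^ j + 2 ^ j := by ring
      refine (norm_sub_le _ _).trans ?_
      have h4 := hSn k
      linarith
    · have e1 : x k b - τ.tr (S k * b) - τ.tr ((𝓕.E k (e' * u j * e') - S k) * b) =
          (x k b - x k (e' * b * e')) +
            (x k (e' * b * e') - τ.tr (𝓕.E k (e' * u j * e') * b)) := by
        rw [sub_mul, SFTrace.tr_sub (hwf.tsum_mul' b) ((hSf k).tsum_mul' b)]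
        ring
      rw [e1]
      have h1 := htight' k b
      have h2 := hmain j k e' he' b
      have h3 : T j ≤ s / Φ s * (ε / 2) := by
        refine (hTj j hjL).trans ?_
        have h5 : Φ s ≤ K ^ 2 * Φ (2 ^ j) := by
          have h6 : Φ s ≤ Φ (2 ^ 2 * 2 ^ j) := by
            refine hΦ.mono (Set.mem_Ici.2 hs.le) (Set.mem_Ici.2 (by positivity)) ?_
            have e2 : (2 : ℝ) ^ (j + 1 + 1) = 2 ^ 2 * 2 ^ j := by ring
            rw [e2] at hn2
            exact hn2.le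
          exact h6.trans (OrlAux.delta_pow hK hK2 (by positivity) 2)
        have h6 := hpos (2 ^ j) (by positivity)
        have h7 : (2 : ℝ) ^ j ≤ s := by
          have h3 : (2 : ℝ) ^ (j + 1) = 2 ^ j + 2 ^ j := by ring
          have h4 : (0 : ℝ) < 2 ^ j := by positivity
          linarith
        have h8 : (2 : ℝ) ^ j / Φ (2 ^ j) ≤ K ^ 2 * (s / Φ s) := by
          rw [mul_div_assoc', div_le_div_iff₀ h6 hΦs]
          have h9 : (2 : ℝ) ^ j * Φ s ≤ s * (K ^ 2 * Φ (2 ^ j)) :=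
            mul_le_mul h7 h5 hΦs.le hs.le
          linarith
        calc (2 : ℝ) ^ j / Φ (2 ^ j) * (ε / (2 * K ^ 2))
            ≤ K ^ 2 * (s / Φ s) * (ε / (2 * K ^ 2)) :=
              mul_le_mul_of_nonneg_right h8 (by positivity)
          _ = s / Φ s * (ε / 2) := by field_simp
      calc ‖x k b - x k (e' * b * e') +
            (x k (e' * b * e') - τ.tr (𝓕.E k (e' * u j * e') * b))‖
          ≤ ‖x k b - x k (e' * b * e')‖ +
            ‖x k (e' * b * e') - τ.tr (𝓕.E k (e' * u j * e') * b)‖ := norm_add_le _ _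
        _ ≤ s / Φ s * (ε / 2) * ‖b‖ + T j * ‖b‖ := add_le_add h1 h2
        _ ≤ s / Φ s * (ε / 2) * ‖b‖ + s / Φ s * (ε / 2) * ‖b‖ :=
            add_le_add le_rfl (mul_le_mul_of_nonneg_right h3 (norm_nonneg _))
        _ = s / Φ s * ε * ‖b‖ := by ring

theorem approx (hΦ : IsOrlicz Φ) {K : ℝ} (hK : 1 ≤ K)
    (hK2 : ∀ s : ℝ, 0 ≤ s → Φ (2 * s) ≤ K * Φ s) (hpos : ∀ s, 0 < s → 0 < Φ s)
    {x : ℕ → (VA M →L[ℂ] ℂ)} (hx : IsMartL1 𝓕 x) {B : ℝ} (hB : ∀ n, ‖x n‖ ≤ B) {F : ℝ}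
    (hF : 0 < F) (hxF : ∀ n, phiMomL1 τ Φ (x n) ≤ ENNReal.ofReal F) {ε : ℝ} (hε : 0 < ε)
    {e0 : VA M} (he0 : FinProj 𝓕 e0) :
    ∃ (e : VA M) (S : ℕ → VA M), FinProj 𝓕 e ∧ e * e0 = e0 ∧ CMart 𝓕 e S ∧
      ∀ k, GB 𝓕 Φ ε k (fun b => x k b - τ.tr (S k * b)) := by
  by_cases hc : ∃ c₀ : ℝ, 0 < c₀ ∧ ∀ s, 0 < s → c₀ ≤ s / Φ s
  · obtain ⟨c₀, hc₀, hcs⟩ := hc
    refine approxB (c := 1 / c₀) (by positivity) hΦ hpos (fun s hs => ?_) hx hB hε he0
    have h1 := hcs s hs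
    have h2 := hpos s hs
    rw [le_div_iff₀ h2] at h1
    rw [div_mul_eq_mul_div, one_mul, le_div_iff₀ hc₀]
    linarith
  · push Not at hc
    refine approxA hΦ hK hK2 hpos ?_ hx hB hF hxF hε he0
    rw [Metric.tendsto_atTop]
    intro δ hδ
    obtain ⟨s, hs, hsd⟩ := hc δ hδ
    refine ⟨s, fun t ht => ?_⟩
    have h1 := s3ata_anti hΦ hpos hs ht
    have h2 : 0 < t := lt_of_lt_of_le hs ht
    have h3 := hpos t h2
    rw [Real.dist_eq, sub_zero, abs_of_pos (div_pos h2 h3)]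
    exact lt_of_le_of_lt h1 hsd

end GD64
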