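import Pool.Agent.GD64.S3GB

/-!
# GD64/S3ATAseq: the truncations of a martingale in the superlinear case

`abel_tail` (scalars): `c` nondecreasing `≥ 0`, `T` nonincreasing `≥ 0`, `T → 0`, `∑_{i<I} c i (T i - T (i+1)) ≤ D` for all `I`; then
`c j * T (j+1) → 0`: `c j T (j+1) = ∑_{i>j} c j (T i - T (i+1)) ≤ ∑_{i>j} c i (T i - T (i+1))` (tail of a convergent series).

`truncData`. For each `n` use `restr` for `x n` with `ε_n = 1/(n+1)`: `q_n, a_n ∈ N n`, `RestrR τ (x n) q_n a_n`, and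
`wt (cfc (Φ ∘ sqrt) (a_n* a_n)) ≤ ofReal F` by definition of `phiMomL1`. For finite `b`:
`|x n b - tr (a_n b)| = |x n b - x n (q_n b)| ≤ ε_n ‖b‖`. Let `T j` = limit along the hyperfilter of `(excW (a_n) (2^j)).toReal`
(bounded by `2^j/Φ(2^j) F`, `excW_le`; a bounded real sequence converges along an ultrafilter), `u j` = weak operator limit of
`trunc (a_n) (2^j)` (`exists_wot_lim`, `norm_wot_lim_le`). `sum_exc_le` passes to the limit; `T` is nonincreasing (`excW_anti`),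
`T j ≤ 2^j/Φ(2^j) F → 0`; `abel_tail` with `c i = Φ(2^(i+1))/2^(i+1)` (nondecreasing by `OrlAux.two_mul_le`).
Last claim: let `c = e b e`, `b' = E k c = e (E k b) e`, finite, `‖b'‖ ≤ ‖b‖`. For `n ≥ k`: `x k c = x n (E k c) = x n b'`
(`IsMartL1.eq_of_le`), `|x n b' - tr (trunc (a_n) (2^j) b')| ≤ ε_n ‖b‖ + (excW (a_n) (2^j)).toReal ‖b‖`. In the limit
(`SFTrace.tr_tendsto`) `|x k c - tr (u j * b')| ≤ T j ‖b‖`, and `tr (u j * b') = tr ((e (u j) e) (E k b)) = tr (E k (e (u j) e) * b)` (`tr_E_comm`).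
-/

namespace GD64

open scoped ComplexOrder InnerProductSpace ENNReal
open Filter

universe u

theorem abel_tail {c T : ℕ → ℝ} (hc0 : ∀ i, 0 ≤ c i) (hc : Monotone c) (hT0 : ∀ i, 0 ≤ T i)
    (hT : Antitone T) (hlim : Tendsto T atTop (nhds 0)) {D : ℝ}
    (hD : ∀ I, ∑ i ∈ Finset.range I, c i * (T i - T (i + 1)) ≤ D) :
    Tendsto (fun j => c j * T (j + 1)) atTop (nhds 0) := by
  set g : ℕ → ℝ := fun i => c i * (T i - T (i + 1)) with hg
  have hg0 : ∀ i, 0 ≤ g i := fun i => mul_nonneg (hc0 i) (sub_nonneg.2 (hT (Nat.le_succ i)))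
  have hs : Summable g := summable_of_sum_range_le hg0 hD
  have htail := tendsto_sum_nat_add g
  have htail' : Tendsto (fun j => ∑' k, g (k + (j + 1))) atTop (nhds 0) :=
    htail.comp (tendsto_add_atTop_nat 1)
  refine squeeze_zero (fun j => mul_nonneg (hc0 j) (hT0 _)) (fun j => ?_) htail'
  have hsj : Summable (fun k => g (k + (j + 1))) := (summable_nat_add_iff (j + 1)).2 hs
  have h1 : ∀ N : ℕ, c j * (T (j + 1) - T (N + (j + 1))) ≤ ∑' k, g (k + (j + 1)) := by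
    intro N
    have h2 : c j * (T (j + 1) - T (N + (j + 1))) ≤ ∑ k ∈ Finset.range N, g (k + (j + 1)) := by
      induction N with
      | zero => simp
      | succ N ih =>
        rw [Finset.sum_range_succ]
        have h3 : c j * (T (N + (j + 1)) - T (N + (j + 1) + 1)) ≤ g (N + (j + 1)) :=
          mul_le_mul_of_nonneg_right (hc (by omega)) (sub_nonneg.2 (hT (Nat.le_succ _)))
        have e : N + 1 + (j + 1) = N + (j + 1) + 1 := by ring
        rw [e]
        nlinarith [h3, ih]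
    exact h2.trans (hsj.sum_le_tsum _ (fun k _ => hg0 _))
  have h4 : Tendsto (fun N : ℕ => c j * (T (j + 1) - T (N + (j + 1)))) atTop
      (nhds (c j * (T (j + 1) - 0))) :=
    ((hlim.comp (tendsto_add_atTop_nat (j + 1))).const_sub _).const_mul _
  have h5 := le_of_tendsto' h4 h1
  rwa [sub_zero] at h5

variable {H : Type u} [NormedAddCommGroup H] [InnerProductSpace ℂ H] [CompleteSpace H]
  {M : VonNeumannAlgebra H} {τ : SFTrace M} {𝓕 : SFiltr M τ} {Φ : ℝ → ℝ}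

theorem s3seq_real_lim {B : ℝ} (t : ℕ → ℝ) (h0 : ∀ n, 0 ≤ t n) (hB : ∀ n, t n ≤ B) :
    ∃ T : ℝ, Tendsto t (hyperfilter ℕ : Filter ℕ) (nhds T) := by
  obtain ⟨w, hw⟩ := vnTr_exists_lim_ball (c := B) (fun n => (t n : ℂ)) (fun n => by
    rw [Complex.norm_real, Real.norm_of_nonneg (h0 n)]
    exact hB n)
  refine ⟨w.re, ?_⟩
  have := (Complex.continuous_re.tendsto w).comp hw
  exact this

theorem truncData (hΦ : IsOrlicz Φ) {K : ℝ} (hK : 1 ≤ K)
    (hK2 : ∀ s : ℝ, 0 ≤ s → Φ (2 * s) ≤ K * Φ s) (hpos : ∀ s, 0 < s → 0 < Φ s)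
    (hsup : Tendsto (fun s : ℝ => s / Φ s) atTop (nhds 0)) {x : ℕ → (VA M →L[ℂ] ℂ)}
    (hx : IsMartL1 𝓕 x) {F : ℝ} (hF : 0 < F)
    (hxF : ∀ n, phiMomL1 τ Φ (x n) ≤ ENNReal.ofReal F) :
    ∃ (T : ℕ → ℝ) (u : ℕ → VA M), (∀ j, 0 ≤ T j) ∧ (∀ j, ‖u j‖ ≤ 2 ^ j) ∧
      Tendsto T atTop (nhds 0) ∧ Tendsto (fun j => Φ (2 ^ j) / 2 ^ j * T j) atTop (nhds 0) ∧
      ∀ (j k : ℕ) (e : VA M), FinProj 𝓕 e → ∀ b : VA M,
        ‖x k (e * b * e) - τ.tr (𝓕.E k (e * u j * e) * b)‖ ≤ T j * ‖b‖ := by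
  have hn : ∀ n b, x n (𝓕.E n b) = x n b := fun n b => hx.eq_of_le le_rfl b
  have hε : ∀ n : ℕ, (0 : ℝ) < 1 / ((n : ℝ) + 1) := fun n => by positivity
  choose q a hqm ham hR hqε using fun n => restr (hx.l1 n) (hn n) (hε n)
  have hp2 : ∀ j : ℕ, (0 : ℝ) < 2 ^ j := fun j => by positivity
  have hW : ∀ n, τ.wt (cfc (fun r : ℝ => Φ (Real.sqrt r)) (star (a n) * a n)) ≤
      ENNReal.ofReal F := by
    intro n
    refine le_trans ?_ (hxF n)
    exact le_iSup_of_le (q n) (le_iSup_of_le (a n) (le_iSup_of_le (hR n) le_rfl))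
  have hWfin : ∀ n, τ.wt (cfc (fun r : ℝ => Φ (Real.sqrt r)) (star (a n) * a n)) < ⊤ :=
    fun n => (hW n).trans_lt ENNReal.ofReal_lt_top
  have hWr : ∀ n, (τ.wt (cfc (fun r : ℝ => Φ (Real.sqrt r)) (star (a n) * a n))).toReal ≤ F :=
    fun n => ENNReal.toReal_le_of_le_ofReal hF.le (hW n)
  have hex : ∀ n j : ℕ, excW τ (a n) (2 ^ j) ≤ ENNReal.ofReal (2 ^ j / Φ (2 ^ j) * F) := by
    intro n j
    refine (excW_le hΦ (a n) (hp2 j) (hpos _ (hp2 j))).trans ?_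
    rw [ENNReal.ofReal_mul (div_nonneg (hp2 j).le (hpos _ (hp2 j)).le)]
    exact mul_le_mul_right (hW n) _
  have hexfin : ∀ n j : ℕ, excW τ (a n) (2 ^ j) < ⊤ :=
    fun n j => (hex n j).trans_lt ENNReal.ofReal_lt_top
  have hB0 : ∀ j : ℕ, 0 ≤ 2 ^ j / Φ (2 ^ j) * F :=
    fun j => mul_nonneg (div_nonneg (hp2 j).le (hpos _ (hp2 j)).le) hF.le
  have hexr : ∀ n j : ℕ, (excW τ (a n) (2 ^ j)).toReal ≤ 2 ^ j / Φ (2 ^ j) * F :=
    fun n j => ENNReal.toReal_le_of_le_ofReal (hB0 j) (hex n j)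
  choose T hT using fun j : ℕ => s3seq_real_lim (fun n => (excW τ (a n) (2 ^ j)).toReal)
    (fun n => ENNReal.toReal_nonneg) (fun n => hexr n j)
  choose u hu using fun j : ℕ => exists_wot_lim M (fun n => trunc (a n) (2 ^ j))
    (fun n => norm_trunc_le (a n) (hp2 j))
  have hT0 : ∀ j, 0 ≤ T j := fun j => ge_of_tendsto' (hT j) fun n => ENNReal.toReal_nonneg
  have hTB : ∀ j, T j ≤ 2 ^ j / Φ (2 ^ j) * F := fun j => le_of_tendsto' (hT j) fun n => hexr n j
  have hTanti : Antitone T := by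
    refine antitone_nat_of_succ_le fun j => ?_
    refine le_of_tendsto_of_tendsto' (hT (j + 1)) (hT j) fun n => ?_
    refine ENNReal.toReal_mono (hexfin n j).ne ?_
    exact excW_anti (a n) (hp2 j) (pow_le_pow_right₀ (by norm_num) (Nat.le_succ j))
  have h2lim : Tendsto (fun j : ℕ => (2 : ℝ) ^ j) atTop atTop :=
    tendsto_pow_atTop_atTop_of_one_lt (by norm_num)
  have hTlim : Tendsto T atTop (nhds 0) := by
    have h1 : Tendsto (fun j : ℕ => (2 : ℝ) ^ j / Φ (2 ^ j) * F) atTop (nhds 0) := by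
      have := (hsup.comp h2lim).mul_const F
      simpa using this
    exact squeeze_zero hT0 hTB h1
  have hsum : ∀ I, ∑ i ∈ Finset.range I, Φ (2 ^ (i + 1)) / 2 ^ (i + 1) * (T i - T (i + 1)) ≤
      (1 + K) * F := by
    intro I
    have h1 : Tendsto (fun n => ∑ i ∈ Finset.range I, Φ (2 ^ (i + 1)) / 2 ^ (i + 1) *
        ((excW τ (a n) (2 ^ i)).toReal - (excW τ (a n) (2 ^ (i + 1))).toReal))
        (hyperfilter ℕ : Filter ℕ)
        (nhds (∑ i ∈ Finset.range I, Φ (2 ^ (i + 1)) / 2 ^ (i + 1) * (T i - T (i + 1)))) :=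
      tendsto_finsetSum _ fun i _ => ((hT i).sub (hT (i + 1))).const_mul _
    refine le_of_tendsto' h1 fun n => ?_
    refine (sum_exc_le hΦ hK hK2 (a n) (hWfin n) I).trans ?_
    exact mul_le_mul_of_nonneg_left (hWr n) (by linarith)
  have hcm : Monotone (fun i : ℕ => Φ (2 ^ (i + 1)) / 2 ^ (i + 1)) := by
    refine monotone_nat_of_le_succ fun i => ?_
    have h1 := OrlAux.two_mul_le hΦ (s := 2 ^ (i + 1)) (by positivity)
    have e : (2 : ℝ) * 2 ^ (i + 1) = 2 ^ (i + 1 + 1) := by ring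
    rw [div_le_div_iff₀ (hp2 _) (hp2 _), ← e]
    have h3 := mul_le_mul_of_nonneg_right h1 (hp2 (i + 1)).le
    calc Φ (2 ^ (i + 1)) * (2 * 2 ^ (i + 1)) = 2 * Φ (2 ^ (i + 1)) * 2 ^ (i + 1) := by ring
      _ ≤ _ := h3
  have habel := abel_tail (c := fun i : ℕ => Φ (2 ^ (i + 1)) / 2 ^ (i + 1)) (T := T)
    (fun i => div_nonneg (hpos _ (hp2 _)).le (hp2 _).le) hcm hT0 hTanti hTlim hsum
  refine ⟨T, u, hT0, fun j => ?_, hTlim, ?_, ?_⟩
  · exact norm_wot_lim_le (fun n => norm_trunc_le (a n) (hp2 j)) (hu j)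
  · exact (tendsto_add_atTop_iff_nat 1).1 habel
  · intro j k e he b
    have hee : e * e = e := he.proj.isIdempotentElem.eq
    have hc : e * (e * b * e) * e = e * b * e := by
      calc e * (e * b * e) * e = (e * e) * b * (e * e) := by noncomm_ring
        _ = _ := by rw [hee]
    have hm : (e : H →L[ℂ] H) ∈ 𝓕.N k := he.mem_n k
    set b' : VA M := 𝓕.E k (e * b * e) with hb'
    have hcorn : e * b' * e = b' := 𝓕.E_corner he hc k
    have hfin : IsFin τ b' := he.isFin hcorn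
    have he1 : ‖e‖ ≤ 1 := he.proj.norm_le
    have hnc : ‖e * b * e‖ ≤ ‖b‖ := by
      calc ‖e * b * e‖ ≤ ‖e‖ * ‖b‖ * ‖e‖ :=
            (norm_mul_le _ _).trans (mul_le_mul_of_nonneg_right (norm_mul_le _ _) (norm_nonneg _))
        _ ≤ 1 * ‖b‖ * 1 := by gcongr
        _ = ‖b‖ := by ring
    have hnb : ‖b'‖ ≤ ‖b‖ := (𝓕.norm_E_le k _).trans hnc
    have hmain : ∀ n, k ≤ n → ‖x k (e * b * e) - τ.tr (trunc (a n) (2 ^ j) * b')‖ ≤
        1 / ((n : ℝ) + 1) * ‖b‖ + (excW τ (a n) (2 ^ j)).toReal * ‖b‖ := by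
      intro n hkn
      rw [← hx.eq_of_le hkn, ← hb']
      have h1 := hqε n b'
      have h2 := (hR n).2 b' hfin
      have h3 := tr_sub_trunc_le (a n) (hp2 j) (hexfin n j) hfin
      rw [h2] at h1
      have e4 : x n b' - τ.tr (trunc (a n) (2 ^ j) * b') =
        (x n b' - τ.tr (a n * b')) + (τ.tr (a n * b') - τ.tr (trunc (a n) (2 ^ j) * b')) := by ring
      rw [e4]
      refine (norm_add_le _ _).trans (add_le_add (h1.trans ?_) (h3.trans ?_))
      · exact mul_le_mul_of_nonneg_left hnb (hε n).le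
      · exact mul_le_mul_of_nonneg_left hnb ENNReal.toReal_nonneg
    have hlim1 : Tendsto (fun n => ‖x k (e * b * e) - τ.tr (trunc (a n) (2 ^ j) * b')‖)
        (hyperfilter ℕ : Filter ℕ) (nhds ‖x k (e * b * e) - τ.tr (u j * b')‖) :=
      ((SFTrace.tr_tendsto (fun n => norm_trunc_le (a n) (hp2 j)) (hu j) hfin).const_sub _).norm
    have hlim2 : Tendsto (fun n : ℕ => 1 / ((n : ℝ) + 1) * ‖b‖ +
        (excW τ (a n) (2 ^ j)).toReal * ‖b‖) (hyperfilter ℕ : Filter ℕ)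
        (nhds (0 * ‖b‖ + T j * ‖b‖)) := by
      refine Tendsto.add (Tendsto.mul_const _ ?_) ((hT j).mul_const _)
      exact tendsto_one_div_add_atTop_nhds_zero_nat.mono_left Nat.hyperfilter_le_atTop
    have hev : ∀ᶠ n in (hyperfilter ℕ : Filter ℕ), k ≤ n :=
      Nat.hyperfilter_le_atTop (eventually_ge_atTop k)
    have h6 := le_of_tendsto_of_tendsto hlim1 hlim2 (hev.mono hmain)
    rw [zero_mul, zero_add] at h6
    have h7 : τ.tr (u j * b') = τ.tr (𝓕.E k (e * u j * e) * b) := by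
      have hb2 : b' = e * 𝓕.E k b * e := 𝓕.E_mod k b e e hm hm
      have hcu : e * (e * u j * e) * e = e * u j * e := by
        calc e * (e * u j * e) * e = (e * e) * u j * (e * e) := by noncomm_ring
          _ = _ := by rw [hee]
      rw [𝓕.tr_E_comm he hcu k, hb2]
      have hfe : IsFin τ e := ⟨e, he.proj, he.fin, by rw [hee, hee]⟩
      have e1 : u j * (e * 𝓕.E k b * e) = (u j * e * 𝓕.E k b) * e := by noncomm_ring
      have e2 : e * u j * e * 𝓕.E k b = e * (u j * e * 𝓕.E k b) := by noncomm_ring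
      rw [e1, e2]
      exact IsFin.tr_comm hfe _
    rw [← h7]
    exact h6

end GD64
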