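import Pool.Agent.GD64.S3Sub

/-!
# GD64/S3Fin: finite elements form an ideal; columns

* `IsFin.mul_left`: `b = e b e`. `x = a e`; `P = suppP (x x*)` has `wt P ≤ wt (suppP (x* x)) ≤ wt e` (`wt_supp_le` for `star x`;
  `e * suppP (x* x) = suppP (x* x)` by `mul_suppP_of_mul`), `P x = x` (`suppP_mul` for `x x*`, then `(1-P) x x* (1-P) = 0`),
  so `a b = x b = P (a b) e`; take the join `g` of `P` and `e` (`join2`): `g (a b) g = a b`.
* `col_combine`: `|u + v|² ≤ 2|u|² + 2|v|²` (`sq_add_le`), `|∑_{m ≤ k} c_{m,k}|² ≤ (∑ 2^{-m}) ∑ 2^m |c_{m,k}|²` (`weighted_sq_le`); the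
  sum over `k` is `≤ 2 (2 ∑ 2^m 4^{-m}) s² + 2 ∑ 4^{-k} s² ≤ (8 + 8/3) s²`. (Terms `m ≤ k` are part of `m ≤ N`: all squares are `≥ 0`.)
-/

namespace GD64

open scoped ComplexOrder InnerProductSpace ENNReal
open Filter

universe u

private theorem s3fin_half_sum (n : ℕ) :
    ∑ m ∈ Finset.range n, ((1 : ℝ) / 2) ^ (m + 1) = 1 - (1 / 2) ^ n := by
  induction n with
  | zero => simp
  | succ n ih =>
    rw [Finset.sum_range_succ, ih, pow_succ]
    ring

private theorem s3fin_half_sum' (n : ℕ) :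
    ∑ m ∈ Finset.range n, ((2 : ℝ) ^ m)⁻¹ = 2 - 2 * (1 / 2) ^ n := by
  have h : ∀ m : ℕ, ((2 : ℝ) ^ m)⁻¹ = 2 * (1 / 2) ^ (m + 1) := by
    intro m
    rw [one_div, inv_pow, pow_succ]
    field_simp
  simp_rw [h]
  rw [← Finset.mul_sum, s3fin_half_sum]
  ring

theorem col_combine {A : Type*} [CStarAlgebra A] [PartialOrder A] [StarOrderedRing A] (N : ℕ)
    (c : ℕ → ℕ → A) (a : ℕ → A) {s : ℝ} (hs : 0 ≤ s)
    (hc : ∀ m ≤ N, ∑ k ∈ Finset.range (N + 1), star (c m k) * c m k ≤
      (((2 ^ m)⁻¹ * s) ^ 2) • (1 : A))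
    (ha : ∀ k ≤ N, ‖a k‖ ≤ (2 ^ k)⁻¹ * s) :
    ∑ k ∈ Finset.range (N + 1), star (∑ m ∈ Finset.range (k + 1), c m k + a k) *
      (∑ m ∈ Finset.range (k + 1), c m k + a k) ≤ ((4 * s) ^ 2) • (1 : A) := by
  have h0 : (0 : A) ≤ 1 := zero_le_one
  -- the terms
  have hterm : ∀ k ∈ Finset.range (N + 1),
      star (∑ m ∈ Finset.range (k + 1), c m k + a k) *
        (∑ m ∈ Finset.range (k + 1), c m k + a k) ≤
      (2 : ℝ) • (∑ m ∈ Finset.range (N + 1), (2 * 2 ^ m : ℝ) • (star (c m k) * c m k)) +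
        (2 : ℝ) • (((((2 : ℝ) ^ k)⁻¹ * s) ^ 2) • (1 : A)) := by
    intro k hk
    have hkN : k ≤ N := Nat.lt_succ_iff.mp (Finset.mem_range.mp hk)
    refine (sq_add_le _ _).trans (add_le_add ?_ ?_)
    · refine smul_le_smul_of_nonneg_left ?_ (by norm_num)
      have h1 := weighted_sq_le (Finset.range (k + 1)) (fun m => ((1 : ℝ) / 2) ^ (m + 1))
        (fun m _ => by positivity) (by rw [s3fin_half_sum]; linarith [show (0:ℝ) < (1/2)^(k+1) by positivity])
        (fun m => c m k)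
      refine h1.trans ?_
      have h2 : ∀ m : ℕ, (((1 : ℝ) / 2) ^ (m + 1))⁻¹ = 2 * 2 ^ m := by
        intro m
        rw [one_div, inv_pow, inv_inv, pow_succ]
        ring
      simp_rw [h2]
      refine Finset.sum_le_sum_of_subset_of_nonneg ?_ ?_
      · intro m hm
        simp only [Finset.mem_range] at hm ⊢
        omega
      · intro m _ _
        exact smul_nonneg (by positivity) (star_mul_self_nonneg _)
    · refine smul_le_smul_of_nonneg_left ?_ (by norm_num)
      have h1 : star (a k) * a k ≤ (‖star (a k) * a k‖) • (1 : A) := by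
        have := IsSelfAdjoint.le_algebraMap_norm_self (IsSelfAdjoint.star_mul_self (a k))
        rwa [Algebra.algebraMap_eq_smul_one] at this
      refine h1.trans (smul_le_smul_of_nonneg_right ?_ h0)
      rw [CStarRing.norm_star_mul_self, ← sq]
      exact pow_le_pow_left₀ (norm_nonneg _) (ha k hkN) 2
  refine (Finset.sum_le_sum hterm).trans ?_
  rw [Finset.sum_add_distrib, ← Finset.smul_sum, ← Finset.smul_sum, Finset.sum_comm]
  have hA : ∑ m ∈ Finset.range (N + 1), ∑ k ∈ Finset.range (N + 1),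
      (2 * 2 ^ m : ℝ) • (star (c m k) * c m k) ≤ (4 * s ^ 2) • (1 : A) := by
    have h1 : ∀ m ∈ Finset.range (N + 1), ∑ k ∈ Finset.range (N + 1),
        (2 * 2 ^ m : ℝ) • (star (c m k) * c m k) ≤ (2 * s ^ 2 * ((2 : ℝ) ^ m)⁻¹) • (1 : A) := by
      intro m hm
      have hmN : m ≤ N := Nat.lt_succ_iff.mp (Finset.mem_range.mp hm)
      rw [← Finset.smul_sum]
      refine (smul_le_smul_of_nonneg_left (hc m hmN) (by positivity)).trans ?_
      rw [smul_smul]
      refine le_of_eq ?_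
      congr 1
      have : (2 : ℝ) ^ m ≠ 0 := by positivity
      field_simp
    refine (Finset.sum_le_sum h1).trans ?_
    rw [← Finset.sum_smul, ← Finset.mul_sum, s3fin_half_sum']
    refine smul_le_smul_of_nonneg_right ?_ h0
    have : (0 : ℝ) ≤ (1 / 2) ^ (N + 1) := by positivity
    nlinarith [sq_nonneg s]
  have hB : ∑ k ∈ Finset.range (N + 1), ((((2 : ℝ) ^ k)⁻¹ * s) ^ 2) • (1 : A) ≤
      (2 * s ^ 2) • (1 : A) := by
    rw [← Finset.sum_smul]
    refine smul_le_smul_of_nonneg_right ?_ h0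
    have h1 : ∀ k ∈ Finset.range (N + 1), (((2 : ℝ) ^ k)⁻¹ * s) ^ 2 ≤ s ^ 2 * ((2 : ℝ) ^ k)⁻¹ := by
      intro k _
      have hp : (0 : ℝ) < ((2 : ℝ) ^ k)⁻¹ := by positivity
      have hp1 : ((2 : ℝ) ^ k)⁻¹ ≤ 1 := inv_le_one_of_one_le₀ (one_le_pow₀ (by norm_num))
      rw [mul_pow, sq (((2 : ℝ) ^ k)⁻¹)]
      nlinarith [mul_nonneg (mul_nonneg hp.le (sub_nonneg.mpr hp1)) (sq_nonneg s)]
    refine (Finset.sum_le_sum h1).trans ?_
    rw [← Finset.mul_sum, s3fin_half_sum']
    have : (0 : ℝ) ≤ (1 / 2) ^ (N + 1) := by positivity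
    nlinarith [sq_nonneg s]
  refine (add_le_add (smul_le_smul_of_nonneg_left hA (by norm_num : (0:ℝ) ≤ 2))
    (smul_le_smul_of_nonneg_left hB (by norm_num : (0:ℝ) ≤ 2))).trans ?_
  rw [smul_smul, smul_smul, ← add_smul]
  refine smul_le_smul_of_nonneg_right ?_ h0
  nlinarith [sq_nonneg s]

variable {H : Type u} [NormedAddCommGroup H] [InnerProductSpace ℂ H] [CompleteSpace H]
  {M : VonNeumannAlgebra H} {τ : SFTrace M}

private theorem s3fin_star {b : VA M} (hb : IsFin τ b) : IsFin τ (star b) := by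
  obtain ⟨e, hep, hef, heb⟩ := hb
  refine ⟨e, hep, hef, ?_⟩
  have hes : star e = e := hep.isSelfAdjoint.star_eq
  have := congrArg star heb
  rwa [star_mul, star_mul, hes, ← mul_assoc] at this

theorem IsFin.mul_left {b : VA M} (hb : IsFin τ b) (a : VA M) : IsFin τ (a * b) := by
  obtain ⟨e, hep, hef, heb⟩ := hb
  have hes : star e = e := hep.isSelfAdjoint.star_eq
  have hee : e * e = e := hep.isIdempotentElem.eq
  have heb1 : e * b = b := by
    rw [← heb, ← mul_assoc, ← mul_assoc, hee]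
  have hbe1 : b * e = b := by
    rw [← heb, mul_assoc, hee]
  set x : VA M := a * e with hx
  have hxe : x * e = x := by rw [hx, mul_assoc, hee]
  have hxb : x * b = a * b := by rw [hx, mul_assoc, heb1]
  have hks : IsSelfAdjoint (((x * star x : VA M)) : H →L[ℂ] H) :=
    IsSelfAdjoint.mul_star_self (x : H →L[ℂ] H)
  have hhs : IsSelfAdjoint (((star x * x : VA M)) : H →L[ℂ] H) :=
    IsSelfAdjoint.star_mul_self (x : H →L[ℂ] H)
  have hPM : suppP ((x * star x : VA M) : H →L[ℂ] H) ∈ M :=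
    suppP_mem M hks (x * star x : VA M).2
  have hQM : suppP ((star x * x : VA M) : H →L[ℂ] H) ∈ M :=
    suppP_mem M hhs (star x * x : VA M).2
  set P : VA M := ⟨_, hPM⟩ with hP
  set Q : VA M := ⟨_, hQM⟩ with hQ
  have hPp : IsStarProjection P := by
    have h := suppP_proj ((x * star x : VA M) : H →L[ℂ] H)
    exact ⟨Subtype.ext h.isIdempotentElem.eq, Subtype.ext h.isSelfAdjoint.star_eq⟩
  have hQp : IsStarProjection Q := by
    have h := suppP_proj ((star x * x : VA M) : H →L[ℂ] H)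
    exact ⟨Subtype.ext h.isIdempotentElem.eq, Subtype.ext h.isSelfAdjoint.star_eq⟩
  have hPs : star P = P := hPp.isSelfAdjoint.star_eq
  have hQs : star Q = Q := hQp.isSelfAdjoint.star_eq
  have hQQ : Q * Q = Q := hQp.isIdempotentElem.eq
  have hPQ : τ.wt P ≤ τ.wt Q := by
    refine τ.wt_supp_le (star x) P Q ?_ ?_
    · rw [star_star]
    · rw [star_star]
  have hex : e * (star x * x) = star x * x := by
    have h1 : e * star x = star x := by
      have := congrArg star hxe
      rwa [star_mul, hes] at this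
    rw [← mul_assoc, h1]
  have heQ : e * Q = Q := by
    apply Subtype.ext
    refine mul_suppP_of_mul ?_
    exact congrArg Subtype.val hex
  have hQe : Q ≤ e := by
    have h1 : Q * e = Q := by
      have := congrArg star heQ
      rwa [star_mul, hQs, hes] at this
    have h2 : e - Q = star (e - Q) * (e - Q) := by
      rw [star_sub, hes, hQs, mul_sub, sub_mul, sub_mul, hee, heQ, h1, hQQ]
      simp
    rw [← sub_nonneg, h2]
    exact star_mul_self_nonneg _
  have hPx : P * x = x := by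
    have h1 : P * (x * star x) = x * star x := by
      apply Subtype.ext
      exact suppP_mul _
    have h2 : ((1 - P) * x) * star ((1 - P) * x) = 0 := by
      rw [star_mul, mul_assoc, ← mul_assoc x, ← mul_assoc, sub_mul, one_mul, h1, sub_self, zero_mul]
    have h3 : (1 - P) * x = 0 := (CStarRing.mul_star_self_eq_zero_iff _).mp h2
    rw [sub_mul, one_mul, sub_eq_zero] at h3
    exact h3.symm
  have hPfin : τ.wt P < ⊤ := (hPQ.trans (τ.wt_mono hQe)).trans_lt hef
  obtain ⟨g, -, hgp, hgP, hge, hgw⟩ := τ.join2 (le_refl M) P.2 e.2 hPp hep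
  refine ⟨g, hgp, hgw.trans_lt (ENNReal.add_lt_top.mpr ⟨hPfin, hef⟩), ?_⟩
  have hgs : star g = g := hgp.isSelfAdjoint.star_eq
  have heg : e * g = e := by
    have := congrArg star hge
    rwa [star_mul, hes, hgs] at this
  have h1 : g * (a * b) = a * b := by
    rw [← hxb]
    nth_rewrite 1 [← hPx]
    rw [mul_assoc P, ← mul_assoc g, hgP, ← mul_assoc, hPx]
  have h2 : a * b * g = a * b := by
    rw [← hbe1, mul_assoc a, mul_assoc b, heg]
  rw [h1, h2]

theorem IsFin.mul_right {b : VA M} (hb : IsFin τ b) (a : VA M) : IsFin τ (b * a) := by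
  have h := s3fin_star ((s3fin_star hb).mul_left (star a))
  rwa [star_mul, star_star, star_star] at h

end GD64
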