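import Pool.Agent.GD64.S3AsmF
import Pool.Agent.GD64.S3Fin

/-!
# GD64/S3Asm: the estimate for the assembled decomposition

`K` from `OrlAux.delta`, `hpos` from `OrlAux.pos`, `C` from `exists_blk`, `θ = 1/(2 K)`, `C₂ = 8 C + 64 K`, final constant `K² C₂`.
Given `t > 0`: `s₀ > 0` with `Φ s₀ = C₂/t F` (intermediate value theorem: `Φ` continuous on `[0,∞)`, `Φ 0 = 0`, `Φ → ∞`).
`Φ` is strictly increasing (`OrlAux.scale` + `hpos`), so `Φ r ≤ Φ s₀` implies `r ≤ s₀`.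
* `s_m, p_m` from `Blk.col m (t 2^{-m-3})`: `Φ (2^m s_m) ≤ K^m Φ(s_m) ≤ K^m 8 C 2^m θ^m F/t ≤ 8 C F/t ≤ Φ s₀`: `s_m ≤ 2^{-m} s₀`.
* `GB (2 K F θ^(k+1))` for `ρ k` at time `k`: `ρ k b = (x k b - tr (S k k b)) - (x (k-1) b - tr (S k (k-1) b))` (`Blk.gb k k`, `Blk.gb k (k-1)`,
  `GB.mono`, `GB.sub`; for `k = 0` only the first term). `restr_of_GB` with `s = 2^{-k-1} s₀`: `q_k, a_k ∈ N k`, `‖a_k‖ ≤ 2^{-k} s₀`,
  `wt (1-q_k) ≤ 16 K F θ^(k+1)/Φ(2^{-k-1} s₀) ≤ 16 K F (θ K)^(k+1)/Φ s₀ = 16 K t (θ K)^(k+1)/C₂ ≤ t 2^{-k-3}`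
  (`Φ s₀ ≤ K^(k+1) Φ(2^{-k-1} s₀)`).
* Fix `n`. `r` = join of `1 - p_m` (`m ≤ n`, projections of `N n`) and `1 - q_k` (`k ≤ n`) (`joinN` twice with `0` for larger indices, `join2`):
  `wt r ≤ ∑ t 2^{-m-3} + ∑ t 2^{-k-3} ≤ t`. `p = 1 - r`: `p_m p = p`, `q_k p = p`.
  `a'_k = (∑_{m ≤ k} df (y m) k) p + a_k p`: `RestrR τ (df Y k) p a'_k`: for finite `b`, `p b` is finite (`IsFin.mul_left`),
  `ρ k (p b) = ρ k (q_k (p b)) = tr (a_k (p b))`. `col_combine` with `c m k = df (y m) k * p`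
  (`∑_k (c m k)* (c m k) = p (p_m ∑ .. p_m) p ≤ s_m² p ≤ (2^{-m} s₀)²`) gives `∑ |a'_k|² ≤ (4 s₀)²`: `muCol τ Y n t ≤ ofReal (4 s₀)`.
* rows: the same with `Blk.row`, no remainder: `a'_k = p (∑_{m ≤ k} df (z m) k)`, `tr (B (b p)) = tr ((p B) b)` (cyclicity, `b` finite, `IsFin.tr_comm`);
  `col_combine` for the adjoints.
* `Φ (4 s₀) ≤ K² Φ s₀ = K² C₂/t F`.
-/

namespace GD64

open scoped ComplexOrder InnerProductSpace ENNReal
open Filter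

universe u

variable {H : Type u} [NormedAddCommGroup H] [InnerProductSpace ℂ H] [CompleteSpace H]
  {M : VonNeumannAlgebra H} {τ : SFTrace M} {𝓕 : SFiltr M τ} {Φ : ℝ → ℝ}

/-- choice of `s₀`. -/
theorem exists_level (hΦ : IsOrlicz Φ) (hpos : ∀ s, 0 < s → 0 < Φ s) {c : ℝ} (hc : 0 < c) :
    ∃ s₀ : ℝ, 0 < s₀ ∧ Φ s₀ = c ∧ ∀ r : ℝ, 0 ≤ r → Φ r ≤ c → r ≤ s₀ := by
  obtain ⟨B, hB⟩ := (Filter.tendsto_atTop_atTop.1 hΦ.lim) c
  have hB0 : (0 : ℝ) ≤ max B 0 := le_max_right _ _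
  have h1 := intermediate_value_Icc hB0 (hΦ.cont.mono Set.Icc_subset_Ici_self)
  have h2 : c ∈ Set.Icc (Φ 0) (Φ (max B 0)) :=
    ⟨by rw [hΦ.zero]; exact hc.le, hB _ (le_max_left _ _)⟩
  obtain ⟨s₀, hs, hs'⟩ := h1 h2
  have hs0 : 0 < s₀ := by
    rcases hs.1.eq_or_lt with h | h
    · rw [← h, hΦ.zero] at hs'
      exact absurd hs' hc.ne
    · exact h
  refine ⟨s₀, hs0, hs', fun r hr hrc => ?_⟩
  by_contra hlt
  have hlt' : s₀ < r := not_le.1 hlt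
  have hr0 : 0 < r := hs0.trans hlt'
  have h3 := OrlAux.scale hΦ (c := s₀ / r) (s := r) (by positivity)
    (by rw [div_le_one hr0]; exact hlt'.le) hr
  rw [div_mul_cancel₀ _ hr0.ne', hs'] at h3
  have h4 : s₀ / r < 1 := (div_lt_one hr0).2 hlt'
  have h5 := mul_lt_mul_of_pos_right h4 (hpos r hr0)
  linarith

theorem asm_tsum {t : ℝ} (ht : 0 < t) :
    ∑' m : ℕ, ENNReal.ofReal (t * (2 ^ (m + 3))⁻¹) = ENNReal.ofReal (t / 4) := by
  have h1 : ∀ m : ℕ, t * ((2 : ℝ) ^ (m + 3))⁻¹ = (t / 8) * (1 / 2) ^ m := by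
    intro m
    rw [pow_add, one_div, inv_pow, mul_inv]
    ring
  simp_rw [h1]
  rw [← ENNReal.ofReal_tsum_of_nonneg (fun m => by positivity)
    (summable_geometric_two.mul_left _), tsum_mul_left, tsum_geometric_two]
  congr 1
  ring

theorem asm_absorb {P g : VA M} (hP : IsStarProjection P) (hg : IsStarProjection g)
    (h : g * (1 - P) = 1 - P) : P * (1 - g) = 1 - g := by
  have h1 := proj_mul_comm hP.one_sub hg h
  have h2 : P * (1 - g) - (1 - g) = (1 - P) * g - (1 - P) := by noncomm_ring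
  rw [h1, sub_self] at h2
  exact sub_eq_zero.1 h2

theorem asm_join (𝓕 : SFiltr M τ) (n : ℕ) {t : ℝ} (ht : 0 < t) (P : ℕ → VA M)
    (hN : ∀ m, (P m : H →L[ℂ] H) ∈ 𝓕.N n) (hP : ∀ m, IsStarProjection (P m))
    (hw : ∀ m, τ.wt (1 - P m) ≤ ENNReal.ofReal (t * (2 ^ (m + 3))⁻¹)) :
    ∃ g : VA M, (g : H →L[ℂ] H) ∈ 𝓕.N n ∧ IsStarProjection g ∧ (∀ m, P m * (1 - g) = 1 - g) ∧
      τ.wt g ≤ ENNReal.ofReal (t / 4) := by
  have h1 : ∀ m, ((1 - P m : VA M) : H →L[ℂ] H) ∈ 𝓕.N n := by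
    intro m
    have h2 : (1 : H →L[ℂ] H) - (P m : H →L[ℂ] H) ∈ 𝓕.N n := sub_mem (one_mem _) (hN m)
    exact h2
  obtain ⟨g, hg, hgp, hgf, hgw⟩ := τ.joinN (𝓕.le n) h1 (fun m => (hP m).one_sub)
  exact ⟨g, hg, hgp, fun m => asm_absorb (hP m) hgp (hgf m),
    hgw.trans ((ENNReal.tsum_le_tsum hw).trans (asm_tsum ht).le)⟩

/-- two families of projections. -/
theorem asm_join_two (𝓕 : SFiltr M τ) (n : ℕ) {t : ℝ} (ht : 0 < t) (P Q : ℕ → VA M)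
    (hN : ∀ m, (P m : H →L[ℂ] H) ∈ 𝓕.N n) (hP : ∀ m, IsStarProjection (P m))
    (hw : ∀ m, τ.wt (1 - P m) ≤ ENNReal.ofReal (t * (2 ^ (m + 3))⁻¹))
    (hQN : ∀ m, (Q m : H →L[ℂ] H) ∈ 𝓕.N n) (hQ : ∀ m, IsStarProjection (Q m))
    (hQw : ∀ m, τ.wt (1 - Q m) ≤ ENNReal.ofReal (t * (2 ^ (m + 3))⁻¹)) :
    ∃ p : VA M, IsStarProjection p ∧ (∀ m, P m * p = p) ∧ (∀ m, Q m * p = p) ∧
      τ.wt (1 - p) ≤ ENNReal.ofReal t := by
  obtain ⟨g₁, h1, h1p, h1f, h1w⟩ := asm_join 𝓕 n ht P hN hP hw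
  obtain ⟨g₂, h2, h2p, h2f, h2w⟩ := asm_join 𝓕 n ht Q hQN hQ hQw
  obtain ⟨g, -, hgp, hg1, hg2, hgw⟩ := τ.join2 (𝓕.le n) h1 h2 h1p h2p
  have e1 : (1 - g₁) * (1 - g) = 1 - g := by
    have h3 := proj_mul_comm h1p hgp hg1
    have h4 : (1 - g₁) * (1 - g) - (1 - g) = g₁ * g - g₁ := by noncomm_ring
    rw [h3, sub_self] at h4
    exact sub_eq_zero.1 h4
  have e2 : (1 - g₂) * (1 - g) = 1 - g := by
    have h3 := proj_mul_comm h2p hgp hg2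
    have h4 : (1 - g₂) * (1 - g) - (1 - g) = g₂ * g - g₂ := by noncomm_ring
    rw [h3, sub_self] at h4
    exact sub_eq_zero.1 h4
  refine ⟨1 - g, hgp.one_sub, fun m => ?_, fun m => ?_, ?_⟩
  · rw [← e1, ← mul_assoc, h1f]
  · rw [← e2, ← mul_assoc, h2f]
  · rw [sub_sub_cancel]
    refine hgw.trans ((add_le_add h1w h2w).trans ?_)
    rw [← ENNReal.ofReal_add (by positivity) (by positivity)]
    exact ENNReal.ofReal_le_ofReal (by linarith)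

theorem asm_level {K : ℝ} (hK : 1 ≤ K) (hK2 : ∀ s : ℝ, 0 ≤ s → Φ (2 * s) ≤ K * Φ s)
    {C F t s₀ s : ℝ} (hF : 0 < F) (ht : 0 < t)
    (hmax : ∀ r : ℝ, 0 ≤ r → Φ r ≤ (8 * C + 64 * K) / t * F → r ≤ s₀) (m : ℕ) (hs : 0 ≤ s)
    (h : Φ s ≤ C / (t * (2 ^ (m + 3))⁻¹) * (F * (1 / (2 * K)) ^ m)) :
    s ≤ (2 ^ m)⁻¹ * s₀ := by
  have hK0 : 0 < K := by linarith
  have h1 := OrlAux.delta_pow hK hK2 hs m
  have h3 : K ^ m * Φ s ≤ (8 * C + 64 * K) / t * F := by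
    calc K ^ m * Φ s ≤ K ^ m * (C / (t * (2 ^ (m + 3))⁻¹) * (F * (1 / (2 * K)) ^ m)) :=
          mul_le_mul_of_nonneg_left h (by positivity)
      _ = 8 * C / t * F := by
          rw [one_div, inv_pow, mul_pow, pow_add]
          field_simp
          norm_num
      _ ≤ (8 * C + 64 * K) / t * F := by
          refine mul_le_mul_of_nonneg_right ?_ hF.le
          exact div_le_div_of_nonneg_right (by linarith) ht.le
  have h2 := hmax (2 ^ m * s) (by positivity) (h1.trans h3)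
  rw [inv_mul_eq_div, le_div_iff₀ (by positivity), mul_comm]
  exact h2

theorem asm_q {K : ℝ} (hK : 1 ≤ K) (hK2 : ∀ s : ℝ, 0 ≤ s → Φ (2 * s) ≤ K * Φ s)
    (hpos : ∀ s, 0 < s → 0 < Φ s) {C F t s₀ : ℝ} (hC : 0 < C) (hF : 0 < F) (ht : 0 < t)
    (hs₀ : 0 < s₀) (hΦs : Φ s₀ = (8 * C + 64 * K) / t * F) (k : ℕ) :
    8 * (2 * K * F * (1 / (2 * K)) ^ (k + 1)) / Φ ((2 ^ (k + 1))⁻¹ * s₀) ≤
      t * (2 ^ (k + 3))⁻¹ := by
  have hK0 : 0 < K := by linarith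
  have hs1 : 0 < (2 ^ (k + 1) : ℝ)⁻¹ * s₀ := by positivity
  have h1 := OrlAux.delta_pow hK hK2 hs1.le (k + 1)
  rw [← mul_assoc, mul_inv_cancel₀ (by positivity), one_mul, hΦs] at h1
  rw [div_le_iff₀ (hpos _ hs1)]
  have h2 : (8 * C + 64 * K) / t * F / K ^ (k + 1) ≤ Φ ((2 ^ (k + 1))⁻¹ * s₀) := by
    rw [div_le_iff₀ (by positivity)]
    linarith
  calc 8 * (2 * K * F * (1 / (2 * K)) ^ (k + 1))
      = t * (2 ^ (k + 3))⁻¹ * ((64 * K) / t * F / K ^ (k + 1)) := by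
        rw [one_div, inv_pow, mul_pow, pow_add 2 k 3, pow_add 2 k 1]
        field_simp
        norm_num
    _ ≤ t * (2 ^ (k + 3))⁻¹ * ((8 * C + 64 * K) / t * F / K ^ (k + 1)) := by
        refine mul_le_mul_of_nonneg_left ?_ (by positivity)
        refine div_le_div_of_nonneg_right ?_ (by positivity)
        refine mul_le_mul_of_nonneg_right ?_ hF.le
        exact div_le_div_of_nonneg_right (by linarith) ht.le
    _ ≤ t * (2 ^ (k + 3))⁻¹ * Φ ((2 ^ (k + 1))⁻¹ * s₀) :=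
        mul_le_mul_of_nonneg_left h2 (by positivity)

theorem asm_fin {C F θ : ℝ} {x : ℕ → (VA M →L[ℂ] ℂ)} {e : ℕ → VA M} {S y z : ℕ → ℕ → VA M}
    (h : Blk 𝓕 Φ C F θ x e S y z) (m k : ℕ) : IsFin τ (S m k) :=
  ⟨e m, (h.fin m).proj, (h.fin m).fin, (h.mS m).corner k⟩

theorem asm_gb {K : ℝ} (hK : 1 ≤ K) (hK2 : ∀ s : ℝ, 0 ≤ s → Φ (2 * s) ≤ K * Φ s)
    (hpos : ∀ s, 0 < s → 0 < Φ s) {C F θ : ℝ} (hF : 0 < F) (hθ : 0 < θ)
    {x : ℕ → (VA M →L[ℂ] ℂ)} {e : ℕ → VA M} {S y z : ℕ → ℕ → VA M}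
    (h : Blk 𝓕 Φ C F θ x e S y z) {ρ : ℕ → (VA M →L[ℂ] ℂ)}
    (hρx : ∀ k b, ρ k b = (df x k : VA M →L[ℂ] ℂ) b - τ.tr (df (S k) k * b)) (k : ℕ) :
    GB 𝓕 Φ (2 * K * F * θ ^ (k + 1)) k (ρ k) := by
  cases k with
  | zero =>
    have h0 : GB 𝓕 Φ (F * θ ^ (0 + 1)) 0 (fun b => x 0 b - τ.tr (S 0 0 * b)) := h.gb 0 0
    have h2 : F * θ ^ (0 + 1) ≤ 2 * K * F * θ ^ (0 + 1) := by
      have h3 : 0 < F * θ ^ (0 + 1) := by positivity
      nlinarith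
    exact (h0.mono hpos h2 le_rfl).congr fun b => (hρx 0 b).symm
  | succ j =>
    have h1 := h.gb (j + 1) (j + 1)
    have h2 := (h.gb (j + 1) j).mono hpos le_rfl (Nat.le_succ j)
    have h3 := GB.sub hK hK2 hpos (by positivity) (by positivity) h1 h2
    have h4 : K * (F * θ ^ (j + 1 + 1) + F * θ ^ (j + 1 + 1)) =
        2 * K * F * θ ^ (j + 1 + 1) := by ring
    rw [h4] at h3
    refine h3.congr fun b => ?_
    have h5 : ρ (j + 1) b = (x (j + 1) b - x j b) -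
        τ.tr ((S (j + 1) (j + 1) - S (j + 1) j) * b) := hρx (j + 1) b
    rw [h5, sub_mul, SFTrace.tr_sub ((asm_fin h _ _).tsum_mul' b) ((asm_fin h _ _).tsum_mul' b)]
    ring

theorem asm_conj_le {p P X : VA M} {r R : ℝ} (hp : IsStarProjection p) (hP : IsStarProjection P)
    (hPp : P * p = p) (h : P * X * P ≤ (r ^ 2) • (1 : VA M)) (hr : 0 ≤ r) (hrR : r ≤ R) :
    p * X * p ≤ (R ^ 2) • (1 : VA M) := by
  have h1 : p * P = p := by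
    have := congrArg star hPp
    rwa [star_mul, hp.isSelfAdjoint.star_eq, hP.isSelfAdjoint.star_eq] at this
  have h2 : p * X * p = p * (P * X * P) * p := by
    calc p * X * p = (p * P) * X * (P * p) := by rw [h1, hPp]
      _ = p * (P * X * P) * p := by simp only [mul_assoc]
  rw [h2]
  refine (proj_conj_mono hp h).trans ?_
  have h3 : p * ((r ^ 2) • (1 : VA M)) * p = (r ^ 2) • p := by
    rw [mul_smul_comm, smul_mul_assoc, mul_one, hp.isIdempotentElem.eq]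
  rw [h3]
  have h4 : p ≤ 1 := sub_nonneg.1 hp.one_sub.nonneg
  refine (smul_le_smul_of_nonneg_left h4 (by positivity)).trans ?_
  refine smul_le_smul_of_nonneg_right ?_ zero_le_one
  exact pow_le_pow_left₀ hr hrR 2

theorem asm_col {K : ℝ} (hK : 1 ≤ K) (hK2 : ∀ s : ℝ, 0 ≤ s → Φ (2 * s) ≤ K * Φ s)
    (hΦ : IsOrlicz Φ) (hpos : ∀ s, 0 < s → 0 < Φ s) {C F : ℝ} (hC : 0 < C) (hF : 0 < F)
    {x : ℕ → (VA M →L[ℂ] ℂ)} (hx : IsMartL1 𝓕 x) {e : ℕ → VA M} {S y z : ℕ → ℕ → VA M}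
    (h : Blk 𝓕 Φ C F (1 / (2 * K)) x e S y z) {Y ρ : ℕ → (VA M →L[ℂ] ℂ)}
    (hY : ∀ k b, (df Y k : VA M →L[ℂ] ℂ) b =
        τ.tr ((∑ m ∈ Finset.range (k + 1), df (y m) k) * b) + ρ k b)
    (hρ : ∀ k, IsL1 τ (ρ k)) (hρE : ∀ k b, ρ k (𝓕.E k b) = ρ k b)
    (hρx : ∀ k b, ρ k b = (df x k : VA M →L[ℂ] ℂ) b - τ.tr (df (S k) k * b))
    {t s₀ : ℝ} (ht : 0 < t) (hs₀ : 0 < s₀) (hΦs : Φ s₀ = (8 * C + 64 * K) / t * F)
    (hmax : ∀ r : ℝ, 0 ≤ r → Φ r ≤ (8 * C + 64 * K) / t * F → r ≤ s₀) (n : ℕ) :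
    muCol τ Y n t ≤ ENNReal.ofReal (4 * s₀) := by
  have hK0 : 0 < K := by linarith
  have hθ : 0 < 1 / (2 * K) := by positivity
  -- the blocks
  have hA : ∀ m : ℕ, ∃ (s : ℝ) (p : VA M), 0 ≤ s ∧ s ≤ (2 ^ m)⁻¹ * s₀ ∧
      (p : H →L[ℂ] H) ∈ 𝓕.N n ∧ IsStarProjection p ∧
      τ.wt (1 - p) ≤ ENNReal.ofReal (t * (2 ^ (m + 3))⁻¹) ∧
      p * (∑ k ∈ Finset.range (n + 1), star (df (y m) k) * df (y m) k) * p ≤
        (s ^ 2) • (1 : VA M) := by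
    intro m
    obtain ⟨s, hs, hsΦ, hp⟩ := h.col m (t * (2 ^ (m + 3))⁻¹) (by positivity)
    obtain ⟨p, hpN, hpp, hpw, hpc⟩ := hp n
    exact ⟨s, p, hs, asm_level hK hK2 hF ht hmax m hs hsΦ, hpN, hpp, hpw, hpc⟩
  choose s P hs hs2 hPN hPp hPw hPc using hA
  -- the remainders
  have hB : ∀ k : ℕ, ∃ q a : VA M, (q : H →L[ℂ] H) ∈ 𝓕.N k ∧ RestrR τ (ρ k) q a ∧
      ‖a‖ ≤ (2 ^ k)⁻¹ * s₀ ∧ τ.wt (1 - q) ≤ ENNReal.ofReal (t * (2 ^ (k + 3))⁻¹) := by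
    intro k
    obtain ⟨q, a, hq, -, hqa, ha, hw⟩ := restr_of_GB hpos (hρ k) (hρE k)
      (g := 2 * K * F * (1 / (2 * K)) ^ (k + 1)) (by positivity)
      (asm_gb hK hK2 hpos hF hθ h hρx k) (s := (2 ^ (k + 1))⁻¹ * s₀) (by positivity)
    refine ⟨q, a, hq, hqa, ha.trans (le_of_eq ?_), hw.trans (ENNReal.ofReal_le_ofReal
      (asm_q hK hK2 hpos hC hF ht hs₀ hΦs k))⟩
    rw [pow_succ]
    field_simp
  choose q a hqN hqa ha hqw using hB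
  have hQN : ∀ k, ((if k ≤ n then q k else 1 : VA M) : H →L[ℂ] H) ∈ 𝓕.N n := by
    intro k
    by_cases hk : k ≤ n
    · rw [if_pos hk]
      exact 𝓕.mono hk (hqN k)
    · rw [if_neg hk]
      exact one_mem (𝓕.N n)
  have hQp : ∀ k, IsStarProjection (if k ≤ n then q k else 1 : VA M) := by
    intro k
    by_cases hk : k ≤ n
    · rw [if_pos hk]
      exact (hqa k).1
    · rw [if_neg hk]
      exact IsStarProjection.one _
  have hQw : ∀ k, τ.wt (1 - (if k ≤ n then q k else 1 : VA M)) ≤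
      ENNReal.ofReal (t * (2 ^ (k + 3))⁻¹) := by
    intro k
    by_cases hk : k ≤ n
    · rw [if_pos hk]
      exact hqw k
    · rw [if_neg hk, sub_self, SFTrace.wt_zero]
      exact bot_le
  obtain ⟨p, hp, hPp', hQp', hpw⟩ := asm_join_two 𝓕 n ht P (fun k => if k ≤ n then q k else 1)
    hPN hPp hPw hQN hQp hQw
  have hqp : ∀ k ≤ n, q k * p = p := by
    intro k hk
    have h1 := hQp' k
    rwa [if_pos hk] at h1
  have hnp : ‖p‖ ≤ 1 := hp.norm_le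
  refine sInf_le ⟨4 * s₀, p, fun k => (∑ m ∈ Finset.range (k + 1), df (y m) k * p) + a k * p,
    by positivity, rfl, hpw, fun k hk => ⟨hp, fun b hb => ?_⟩, ?_⟩
  · have hpb : IsFin τ (p * b) := hb.mul_left p
    have h1 : ρ k (p * b) = τ.tr (a k * (p * b)) := by
      have h2 := (hqa k).2 (p * b) hpb
      rwa [← mul_assoc, hqp k hk] at h2
    have h2 : (∑ m ∈ Finset.range (k + 1), df (y m) k * p + a k * p) * b =
        (∑ m ∈ Finset.range (k + 1), df (y m) k) * (p * b) + a k * (p * b) := by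
      rw [← Finset.sum_mul, add_mul, mul_assoc, mul_assoc (a k)]
    simp only [h2]
    rw [hY, h1]
    exact (SFTrace.tr_add (hpb.tsum_mul _) (hpb.tsum_mul _)).symm
  · refine col_combine n (fun m k => df (y m) k * p) (fun k => a k * p) hs₀.le
      (fun m hm => ?_) (fun k hk => ?_)
    · have h1 : ∑ k ∈ Finset.range (n + 1), star (df (y m) k * p) * (df (y m) k * p) =
          p * (∑ k ∈ Finset.range (n + 1), star (df (y m) k) * df (y m) k) * p := by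
        rw [Finset.mul_sum, Finset.sum_mul]
        refine Finset.sum_congr rfl fun k _ => ?_
        rw [star_mul, hp.isSelfAdjoint.star_eq]
        simp only [mul_assoc]
      rw [h1]
      exact asm_conj_le hp (hPp m) (hPp' m) (hPc m) (hs m) (hs2 m)
    · calc ‖a k * p‖ ≤ ‖a k‖ * ‖p‖ := norm_mul_le _ _
        _ ≤ ‖a k‖ * 1 := mul_le_mul_of_nonneg_left hnp (norm_nonneg _)
        _ ≤ (2 ^ k)⁻¹ * s₀ := by rw [mul_one]; exact ha k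

theorem asm_row {K : ℝ} (hK : 1 ≤ K) (hK2 : ∀ s : ℝ, 0 ≤ s → Φ (2 * s) ≤ K * Φ s)
    (hΦ : IsOrlicz Φ) (hpos : ∀ s, 0 < s → 0 < Φ s) {C F : ℝ} (hC : 0 < C) (hF : 0 < F)
    {x : ℕ → (VA M →L[ℂ] ℂ)} {e : ℕ → VA M} {S y z : ℕ → ℕ → VA M}
    (h : Blk 𝓕 Φ C F (1 / (2 * K)) x e S y z) {Z : ℕ → (VA M →L[ℂ] ℂ)}
    (hZ : ∀ k b, (df Z k : VA M →L[ℂ] ℂ) b =
        τ.tr ((∑ m ∈ Finset.range (k + 1), df (z m) k) * b))
    {t s₀ : ℝ} (ht : 0 < t) (hs₀ : 0 < s₀)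
    (hmax : ∀ r : ℝ, 0 ≤ r → Φ r ≤ (8 * C + 64 * K) / t * F → r ≤ s₀) (n : ℕ) :
    muRow τ Z n t ≤ ENNReal.ofReal (4 * s₀) := by
  have hA : ∀ m : ℕ, ∃ (s : ℝ) (p : VA M), 0 ≤ s ∧ s ≤ (2 ^ m)⁻¹ * s₀ ∧
      (p : H →L[ℂ] H) ∈ 𝓕.N n ∧ IsStarProjection p ∧
      τ.wt (1 - p) ≤ ENNReal.ofReal (t * (2 ^ (m + 3))⁻¹) ∧
      p * (∑ k ∈ Finset.range (n + 1), df (z m) k * star (df (z m) k)) * p ≤
        (s ^ 2) • (1 : VA M) := by
    intro m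
    obtain ⟨s, hs, hsΦ, hp⟩ := h.row m (t * (2 ^ (m + 3))⁻¹) (by positivity)
    obtain ⟨p, hpN, hpp, hpw, hpc⟩ := hp n
    exact ⟨s, p, hs, asm_level hK hK2 hF ht hmax m hs hsΦ, hpN, hpp, hpw, hpc⟩
  choose s P hs hs2 hPN hPp hPw hPc using hA
  obtain ⟨g, -, hg, hgP, hgw⟩ := asm_join 𝓕 n ht P hPN hPp hPw
  have hp : IsStarProjection (1 - g) := hg.one_sub
  have hpw : τ.wt (1 - (1 - g)) ≤ ENNReal.ofReal t := by
    rw [sub_sub_cancel]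
    exact hgw.trans (ENNReal.ofReal_le_ofReal (by linarith))
  generalize 1 - g = p at hp hgP hpw
  refine sInf_le ⟨4 * s₀, p, fun k => p * ∑ m ∈ Finset.range (k + 1), df (z m) k,
    by positivity, rfl, hpw, fun k hk => ⟨hp, fun b hb => ?_⟩, ?_⟩
  · have hpb : IsFin τ (b * p) := hb.mul_right p
    rw [hZ, hpb.tr_comm, mul_assoc, ← hb.tr_comm]
  · have h0 := col_combine n (fun m k => star (p * df (z m) k)) (fun _ => (0 : VA M)) hs₀.le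
      (fun m hm => ?_) (fun k hk => ?_)
    · refine le_of_eq_of_le (Finset.sum_congr rfl fun k _ => ?_) h0
      have h1 : (∑ m ∈ Finset.range (k + 1), star (p * df (z m) k)) + 0 =
          star (p * ∑ m ∈ Finset.range (k + 1), df (z m) k) := by
        rw [add_zero, Finset.mul_sum, star_sum]
      rw [h1, star_star]
    · have h1 : ∑ k ∈ Finset.range (n + 1), star (star (p * df (z m) k)) *
          star (p * df (z m) k) =
          p * (∑ k ∈ Finset.range (n + 1), df (z m) k * star (df (z m) k)) * p := by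
        rw [Finset.mul_sum, Finset.sum_mul]
        refine Finset.sum_congr rfl fun k _ => ?_
        rw [star_star, star_mul, hp.isSelfAdjoint.star_eq]
        simp only [mul_assoc]
      rw [h1]
      exact asm_conj_le hp (hPp m) (hgP m) (hPc m) (hs m) (hs2 m)
    · rw [norm_zero]
      positivity

end GD64
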