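import Pool.Agent.GD64.S3Blk

/-!
# GD64/S3AsmF: the martingales `Y`, `Z`

With `R k` the functional of the finite operator `∑_{m ≤ k} df (z m) k` (`exists_tauL`; `df (z m) k` is in the corner `e m`) and
`ρ k = df x k - τ(df (S k) k ·)`, `Q k` = functional of `∑_{m ≤ k} df (y m) k`:
`Y n = ∑_{k ≤ n} (Q k + ρ k)`, `Z n = ∑_{k ≤ n} R k`. `df Y k = Q k + ρ k`. `L_1`: `IsL1.add`, `IsL1.of_fin`.
Martingale: `Q (k+1) ∘ E k = 0`: `tr (df (y m) (k+1) * E k b) = tr (E k (df (y m) (k+1)) * b) = 0` (`tr_E_comm`, `CMart.ce`, `E_of_mem`);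
same for `R` and `ρ`; and `(Q k + ρ k) ∘ E k = Q k + ρ k`. `Y (n+1) (E n b) = Y n (E n b) = Y n b`.
`x n = Y n + Z n`: `∑_{m ≤ k} (df (y m) k + df (z m) k) = df (S k) k` by `Blk.sum` at times `k`, `k - 1` (both with `n = k`).
-/

namespace GD64

open scoped ComplexOrder InnerProductSpace ENNReal
open Filter

universe u

variable {H : Type u} [NormedAddCommGroup H] [InnerProductSpace ℂ H] [CompleteSpace H]
  {M : VonNeumannAlgebra H} {τ : SFTrace M} {𝓕 : SFiltr M τ} {Φ : ℝ → ℝ}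

open SFTrace

theorem df_sum_range {G : Type*} [AddCommGroup G] (D : ℕ → G) (k : ℕ) :
    df (fun n => ∑ j ∈ Finset.range (n + 1), D j) k = D k := by
  cases k with
  | zero => simp [df]
  | succ k =>
    simp only [df]
    rw [Finset.sum_range_succ D (k + 1)]
    exact add_sub_cancel_left _ _

theorem asm_sum_df {G : Type*} [AddCommGroup G] (x : ℕ → G) (n : ℕ) :
    ∑ j ∈ Finset.range (n + 1), df x j = x n := by
  induction n with
  | zero => simp [df]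
  | succ n ih =>
    rw [Finset.sum_range_succ, ih]
    simp [df]

/-- an `L_1`-functional of `N k` is invariant under `E n`, `n ≥ k`. -/
theorem l1_E_of_le {φ : VA M →L[ℂ] ℂ} (hφ : IsL1 τ φ) {k n : ℕ} (hk : ∀ b, φ (𝓕.E k b) = φ b)
    (h : k ≤ n) (b : VA M) : φ (𝓕.E n b) = φ b := by
  have key : ∀ ε : ℝ, 0 < ε → ‖φ (𝓕.E n b) - φ b‖ ≤ ε * (2 * ‖b‖) := by
    intro ε hε
    obtain ⟨e, v, he, -, hv, hev, hb⟩ := dens_approx hφ hk hε (FinProj.zero 𝓕)
    have h1 : τ.tr (v * 𝓕.E n b) = τ.tr (v * b) := by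
      rw [← 𝓕.tr_E_comm he hev n b, 𝓕.E_of_mem (𝓕.mem_of_le h hv)]
    have h2 := hb (𝓕.E n b)
    have h3 := hb b
    rw [h1] at h2
    have h4 := 𝓕.norm_E_le n b
    have h5 : φ (𝓕.E n b) - φ b = (φ (𝓕.E n b) - τ.tr (v * b)) - (φ b - τ.tr (v * b)) := by
      ring
    rw [h5]
    refine (norm_sub_le _ _).trans ?_
    have h6 : ε * ‖𝓕.E n b‖ ≤ ε * ‖b‖ := mul_le_mul_of_nonneg_left h4 hε.le
    linarith
  have h0 : ‖φ (𝓕.E n b) - φ b‖ ≤ 0 := by
    refine le_of_forall_pos_le_add fun δ hδ => ?_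
    have h1 := key (δ / (2 * ‖b‖ + 1)) (by positivity)
    refine h1.trans ?_
    rw [zero_add, div_mul_eq_mul_div, div_le_iff₀ (by positivity)]
    nlinarith [norm_nonneg b]
  exact sub_eq_zero.1 (norm_le_zero_iff.1 h0)

/-- a martingale from its differences. -/
theorem mart_of_diff {D : ℕ → (VA M →L[ℂ] ℂ)} (h1 : ∀ k, IsL1 τ (D k))
    (h2 : ∀ k n, k ≤ n → ∀ b, D k (𝓕.E n b) = D k b)
    (h3 : ∀ k b, D (k + 1) (𝓕.E k b) = 0) :
    IsMartL1 𝓕 (fun n => ∑ j ∈ Finset.range (n + 1), D j) where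
  l1 n := by
    induction n with
    | zero =>
      have e : ∑ j ∈ Finset.range (0 + 1), D j = D 0 := by simp
      change IsL1 τ (∑ j ∈ Finset.range (0 + 1), D j)
      rw [e]
      exact h1 0
    | succ n ih =>
      change IsL1 τ (∑ j ∈ Finset.range (n + 1 + 1), D j)
      rw [Finset.sum_range_succ]
      exact IsL1.add ih (h1 _)
  ce n b := by
    change (∑ j ∈ Finset.range (n + 1 + 1), D j) (𝓕.E n b) =
      (∑ j ∈ Finset.range (n + 1), D j) b
    rw [Finset.sum_range_succ, add_apply, h3, add_zero,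
      sum_apply, sum_apply]
    exact Finset.sum_congr rfl fun j hj =>
      h2 j n (by have := Finset.mem_range.1 hj; omega) b

theorem CMart.df_mem {e : VA M} {S : ℕ → VA M} (hS : CMart 𝓕 e S) (k : ℕ) :
    ((df S k : VA M) : H →L[ℂ] H) ∈ 𝓕.N k := by
  cases k with
  | zero => exact hS.mem 0
  | succ k => exact sub_mem (hS.mem (k + 1)) (𝓕.mem_of_le (Nat.le_succ k) (hS.mem k))

theorem CMart.df_corner {e : VA M} {S : ℕ → VA M} (hS : CMart 𝓕 e S) (k : ℕ) :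
    e * df S k * e = df S k := by
  cases k with
  | zero => exact hS.corner 0
  | succ k =>
    change e * (S (k + 1) - S k) * e = S (k + 1) - S k
    rw [mul_sub, sub_mul, hS.corner, hS.corner]

theorem CMart.E_df {e : VA M} {S : ℕ → VA M} (hS : CMart 𝓕 e S) (k : ℕ) :
    𝓕.E k (df S (k + 1)) = 0 := by
  change 𝓕.E k (S (k + 1) - S k) = 0
  rw [map_sub, hS.ce, 𝓕.E_of_mem (hS.mem k), sub_self]

/-- the functionals of the differences of a martingale of bounded operators. -/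
theorem CMart.functional {e : VA M} (he : FinProj 𝓕 e) {S : ℕ → VA M} (hS : CMart 𝓕 e S) :
    ∃ f : ℕ → (VA M →L[ℂ] ℂ), (∀ k b, f k b = τ.tr (df S k * b)) ∧ (∀ k, IsL1 τ (f k)) ∧
      (∀ k n, k ≤ n → ∀ b, f k (𝓕.E n b) = f k b) ∧ (∀ k b, f (k + 1) (𝓕.E k b) = 0) := by
  have hfin : ∀ k, IsFin τ (df S k) := fun k => he.isFin (hS.df_corner k)
  choose f hf using fun k => (hfin k).exists_tauL
  refine ⟨f, hf, fun k => IsL1.of_fin (hfin k) (hf k), fun k n hkn b => ?_, fun k b => ?_⟩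
  · rw [hf, hf, ← 𝓕.tr_E_comm he (hS.df_corner k) n b, 𝓕.E_of_mem (𝓕.mem_of_le hkn (hS.df_mem k))]
  · rw [hf, ← 𝓕.tr_E_comm he (hS.df_corner (k + 1)) k b, hS.E_df, zero_mul, tr_zero]

theorem asm_functionals {C F θ : ℝ} {x : ℕ → (VA M →L[ℂ] ℂ)} (hx : IsMartL1 𝓕 x)
    {e : ℕ → VA M} {S y z : ℕ → ℕ → VA M} (h : Blk 𝓕 Φ C F θ x e S y z) :
    ∃ Y Z ρ : ℕ → (VA M →L[ℂ] ℂ), IsMartL1 𝓕 Y ∧ IsMartL1 𝓕 Z ∧ (∀ n, x n = Y n + Z n) ∧
      (∀ k b, (df Y k : VA M →L[ℂ] ℂ) b =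
        τ.tr ((∑ m ∈ Finset.range (k + 1), df (y m) k) * b) + ρ k b) ∧
      (∀ k b, (df Z k : VA M →L[ℂ] ℂ) b =
        τ.tr ((∑ m ∈ Finset.range (k + 1), df (z m) k) * b)) ∧
      (∀ k, IsL1 τ (ρ k)) ∧ (∀ k b, ρ k (𝓕.E k b) = ρ k b) ∧
      (∀ k b, ρ k b = (df x k : VA M →L[ℂ] ℂ) b - τ.tr (df (S k) k * b)) := by
  choose fs hs1 hs2 hs3 hs4 using fun m => CMart.functional (h.fin m) (h.mS m)
  choose fy hy1 hy2 hy3 hy4 using fun m => CMart.functional (h.fin m) (h.my m)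
  choose fz hz1 hz2 hz3 hz4 using fun m => CMart.functional (h.fin m) (h.mz m)
  -- the functionals
  obtain ⟨Q, hQ⟩ : ∃ Q : ℕ → (VA M →L[ℂ] ℂ), ∀ k, Q k = ∑ m ∈ Finset.range (k + 1), fy m k :=
    ⟨_, fun _ => rfl⟩
  obtain ⟨R, hR⟩ : ∃ R : ℕ → (VA M →L[ℂ] ℂ), ∀ k, R k = ∑ m ∈ Finset.range (k + 1), fz m k :=
    ⟨_, fun _ => rfl⟩
  obtain ⟨ρ, hρ⟩ : ∃ ρ : ℕ → (VA M →L[ℂ] ℂ), ∀ k, ρ k = df x k - fs k k := ⟨_, fun _ => rfl⟩
  have hsumL1 : ∀ (f : ℕ → (VA M →L[ℂ] ℂ)), (∀ m, IsL1 τ (f m)) → ∀ n : ℕ,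
      IsL1 τ (∑ m ∈ Finset.range (n + 1), f m) := by
    intro f hf n
    induction n with
    | zero =>
      have e : ∑ j ∈ Finset.range (0 + 1), f j = f 0 := by simp
      rw [e]
      exact hf 0
    | succ n ih =>
      rw [Finset.sum_range_succ]
      exact IsL1.add ih (hf _)
  have hfinY : ∀ m k, IsFin τ (df (y m) k) := fun m k => (h.fin m).isFin ((h.my m).df_corner k)
  have hfinZ : ∀ m k, IsFin τ (df (z m) k) := fun m k => (h.fin m).isFin ((h.mz m).df_corner k)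
  have hQb : ∀ k b, Q k b = τ.tr ((∑ m ∈ Finset.range (k + 1), df (y m) k) * b) := by
    intro k b
    rw [hQ, sum_apply, Finset.sum_mul,
      tr_sum _ fun m _ => (hfinY m k).tsum_mul' b]
    exact Finset.sum_congr rfl fun m _ => hy1 m k b
  have hRb : ∀ k b, R k b = τ.tr ((∑ m ∈ Finset.range (k + 1), df (z m) k) * b) := by
    intro k b
    rw [hR, sum_apply, Finset.sum_mul,
      tr_sum _ fun m _ => (hfinZ m k).tsum_mul' b]
    exact Finset.sum_congr rfl fun m _ => hz1 m k b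
  have hρb : ∀ k b, ρ k b = (df x k : VA M →L[ℂ] ℂ) b - τ.tr (df (S k) k * b) := by
    intro k b
    rw [hρ, sub_apply, hs1]
  have hxE : ∀ k n, k ≤ n → ∀ b, x k (𝓕.E n b) = x k b := fun k n hkn b =>
    l1_E_of_le (hx.l1 k) (fun b => hx.eq_of_le le_rfl b) hkn b
  have hdx1 : ∀ k, IsL1 τ (df x k) := by
    intro k
    cases k with
    | zero => exact hx.l1 0
    | succ k => exact IsL1.sub (hx.l1 _) (hx.l1 _)
  have hdx2 : ∀ k n, k ≤ n → ∀ b, (df x k : VA M →L[ℂ] ℂ) (𝓕.E n b) =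
      (df x k : VA M →L[ℂ] ℂ) b := by
    intro k n hkn b
    cases k with
    | zero => exact hxE 0 n hkn b
    | succ k =>
      change (x (k + 1) - x k) (𝓕.E n b) = (x (k + 1) - x k) b
      rw [sub_apply, sub_apply, hxE _ _ hkn,
        hxE _ _ (by omega)]
  have hdx3 : ∀ k b, (df x (k + 1) : VA M →L[ℂ] ℂ) (𝓕.E k b) = 0 := by
    intro k b
    change (x (k + 1) - x k) (𝓕.E k b) = 0
    rw [sub_apply, hx.ce, hxE k k le_rfl, sub_self]
  have hQ2 : ∀ k n, k ≤ n → ∀ b, Q k (𝓕.E n b) = Q k b := by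
    intro k n hkn b
    rw [hQ, sum_apply, sum_apply]
    exact Finset.sum_congr rfl fun m _ => hy3 m k n hkn b
  have hR2 : ∀ k n, k ≤ n → ∀ b, R k (𝓕.E n b) = R k b := by
    intro k n hkn b
    rw [hR, sum_apply, sum_apply]
    exact Finset.sum_congr rfl fun m _ => hz3 m k n hkn b
  have hQ3 : ∀ k b, Q (k + 1) (𝓕.E k b) = 0 := by
    intro k b
    rw [hQ, sum_apply]
    exact Finset.sum_eq_zero fun m _ => hy4 m k b
  have hR3 : ∀ k b, R (k + 1) (𝓕.E k b) = 0 := by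
    intro k b
    rw [hR, sum_apply]
    exact Finset.sum_eq_zero fun m _ => hz4 m k b
  have hρ2 : ∀ k n, k ≤ n → ∀ b, ρ k (𝓕.E n b) = ρ k b := by
    intro k n hkn b
    rw [hρ, sub_apply, sub_apply, hdx2 k n hkn,
      hs3 k k n hkn]
  have hρ3 : ∀ k b, ρ (k + 1) (𝓕.E k b) = 0 := by
    intro k b
    rw [hρ, sub_apply, hdx3, hs4, sub_self]
  have hρ1 : ∀ k, IsL1 τ (ρ k) := fun k => by
    rw [hρ]
    exact IsL1.sub (hdx1 k) (hs2 k k)
  have hQ1 : ∀ k, IsL1 τ (Q k) := fun k => by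
    rw [hQ]
    exact hsumL1 _ (fun m => hy2 m k) k
  have hR1 : ∀ k, IsL1 τ (R k) := fun k => by
    rw [hR]
    exact hsumL1 _ (fun m => hz2 m k) k
  have hdS : ∀ k, ∑ m ∈ Finset.range (k + 1), (df (y m) k + df (z m) k) = df (S k) k := by
    intro k
    cases k with
    | zero => exact h.sum 0 0
    | succ k =>
      have e1 := h.sum (k + 1) (k + 1)
      have e2 := h.sum (k + 1) k
      change ∑ m ∈ Finset.range (k + 1 + 1), ((y m (k + 1) - y m k) + (z m (k + 1) - z m k)) =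
        S (k + 1) (k + 1) - S (k + 1) k
      rw [← e1, ← e2, ← Finset.sum_sub_distrib]
      refine Finset.sum_congr rfl fun m _ => ?_
      abel
  refine ⟨fun n => ∑ j ∈ Finset.range (n + 1), (Q j + ρ j),
    fun n => ∑ j ∈ Finset.range (n + 1), R j, ρ, ?_, ?_, ?_, ?_, ?_, hρ1,
    fun k b => hρ2 k k le_rfl b, hρb⟩
  · refine mart_of_diff (fun k => IsL1.add (hQ1 k) (hρ1 k)) (fun k n hkn b => ?_) fun k b => ?_
    · rw [add_apply, add_apply, hQ2 k n hkn,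
        hρ2 k n hkn]
    · rw [add_apply, hQ3, hρ3, add_zero]
  · exact mart_of_diff hR1 hR2 hR3
  · intro n
    change x n = ∑ j ∈ Finset.range (n + 1), (Q j + ρ j) + ∑ j ∈ Finset.range (n + 1), R j
    rw [← Finset.sum_add_distrib]
    conv_lhs => rw [← asm_sum_df x n]
    refine Finset.sum_congr rfl fun k _ => ?_
    ext b
    rw [add_apply, add_apply, hQb, hRb, hρb]
    have e1 : τ.tr ((∑ m ∈ Finset.range (k + 1), df (y m) k) * b) +
        τ.tr ((∑ m ∈ Finset.range (k + 1), df (z m) k) * b) = τ.tr (df (S k) k * b) := by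
      rw [← tr_add ((IsFin.sum _ fun m _ => hfinY m k).tsum_mul' b)
        ((IsFin.sum _ fun m _ => hfinZ m k).tsum_mul' b), ← add_mul, ← Finset.sum_add_distrib,
        hdS]
    rw [← e1]
    ring
  · intro k b
    rw [df_sum_range, add_apply, hQb]
  · intro k b
    rw [df_sum_range, hRb]

end GD64
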