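import Pool.Agent.GD64.OrlS

/-!
# GD64/S3ExcVar: variational bound for the excess, and `orlMainS` under an excess hypothesis

`exc_var`: `a = u + v`, `‖u‖ ≤ s`, `|t (v b)| ≤ δ ‖b‖`. Let `h = a* a`, `θ r = min 1 (max (sqrt r - s) 0 / s)` and
`ψ r = θ r / max (sqrt r) s` (continuous, `ψ r sqrt r = θ r` since `θ r = 0` for `sqrt r ≤ s`), `b = cfc ψ h * a*`.
`b b* = cfc (fun r => ψ² r) h = cfc θ² h ≤ 1`, so `‖b‖ ≤ 1`.
`t (b a) = t (cfc (fun r => θ r * sqrt r) h)`. With `κ = cfc (sqrt θ) h`, `κ' = cfc (sqrt θ / max (sqrt r) s) h`: `b = κ κ' a*`,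
`|t (b u)| = |t (κ (κ' a* u))| ≤ t (κ κ*)^{1/2} t ((κ' a* u)* (κ' a* u))^{1/2}` (`t_cs`), and
`t ((κ' a* u)(κ' a* u)*) = t (κ' a* u u* a κ') ≤ s² t (κ' a* a κ') = s² t (cfc θ h)`: so `|t (b u)| ≤ s t (cfc θ h)`. Hence
`δ ≥ t (b v) = t (b a) - t (b u) ≥ t (cfc (θ (sqrt r - s)) h) ≥ t (cfc (max (sqrt r - 2 s) 0) h)`.

`orlG`: the proof of `orlMainS` (Orl.lean) verbatim; the only use of the hypothesis on `F` there is `exc_le`
(`T.exc (x n) s ≤ s/Φ(s) F`), the sign of `F`, and `x n = 0` if `F = 0`. For `F = 0`: `exc (x n) s ≤ 0` for all `s > 0` gives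
`cfc (max (sqrt r - s) 0) (x* x) = 0`, so `sqrt r ≤ s` on the spectrum, `x* x = 0`.
-/

namespace GD64

universe u

namespace ExcVarAux

/-- the cut-off `min 1 (max (√r - s) 0 / s)` -/
noncomputable def th (s r : ℝ) : ℝ := min 1 (max (Real.sqrt r - s) 0 / s)

theorem th_cont {s : ℝ} : Continuous (th s) := by
  unfold th
  fun_prop

theorem th_nonneg {s : ℝ} (hs : 0 < s) (r : ℝ) : 0 ≤ th s r :=
  le_min zero_le_one (div_nonneg (le_max_right _ _) hs.le)

theorem th_le_one {s : ℝ} (r : ℝ) : th s r ≤ 1 := min_le_left _ _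

theorem th_eq_zero {s r : ℝ} (h : Real.sqrt r ≤ s) : th s r = 0 := by
  unfold th
  rw [max_eq_right (by linarith), zero_div]
  exact min_eq_right zero_le_one

theorem th_eq_one {s : ℝ} (hs : 0 < s) {r : ℝ} (h : 2 * s ≤ Real.sqrt r) : th s r = 1 := by
  unfold th
  rw [max_eq_left (by linarith)]
  refine min_eq_left ?_
  rw [le_div_iff₀ hs]
  linarith

theorem mx_pos {s : ℝ} (hs : 0 < s) (r : ℝ) : 0 < max (Real.sqrt r) s :=
  lt_of_lt_of_le hs (le_max_right _ _)

theorem q'_cont {s : ℝ} (hs : 0 < s) :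
    Continuous fun r : ℝ => Real.sqrt (th s r) / max (Real.sqrt r) s :=
  (Real.continuous_sqrt.comp th_cont).div (by fun_prop) fun r => (mx_pos hs r).ne'

theorem q_cont {s : ℝ} : Continuous fun r : ℝ => Real.sqrt (th s r) :=
  Real.continuous_sqrt.comp th_cont

/-- `q' r q' = θ` for `r ≥ 0`. -/
theorem alg1 {s : ℝ} (hs : 0 < s) {r : ℝ} (hr : 0 ≤ r) :
    Real.sqrt (th s r) / max (Real.sqrt r) s * r *
      (Real.sqrt (th s r) / max (Real.sqrt r) s) = th s r := by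
  rcases le_or_gt (Real.sqrt r) s with h | h
  · rw [th_eq_zero h]
    simp
  · rw [max_eq_left h.le]
    have h0 : 0 < Real.sqrt r := hs.trans h
    have h1 := Real.mul_self_sqrt hr
    have h2 := Real.mul_self_sqrt (th_nonneg hs r)
    calc Real.sqrt (th s r) / Real.sqrt r * r * (Real.sqrt (th s r) / Real.sqrt r) =
        (Real.sqrt (th s r) * Real.sqrt (th s r)) * (r / (Real.sqrt r * Real.sqrt r)) := by
          field_simp
      _ = th s r := by
        rw [h1, h2]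
        have : r ≠ 0 := fun h3 => by
          rw [h3] at h0
          simp at h0
        field_simp

/-- `q q' r = θ √r` for `r ≥ 0`. -/
theorem alg2 {s : ℝ} (hs : 0 < s) {r : ℝ} (hr : 0 ≤ r) :
    Real.sqrt (th s r) * (Real.sqrt (th s r) / max (Real.sqrt r) s) * r =
      th s r * Real.sqrt r := by
  rcases le_or_gt (Real.sqrt r) s with h | h
  · rw [th_eq_zero h]
    simp
  · rw [max_eq_left h.le]
    have h0 : 0 < Real.sqrt r := hs.trans h
    have h1 := Real.mul_self_sqrt hr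
    have h2 := Real.mul_self_sqrt (th_nonneg hs r)
    calc Real.sqrt (th s r) * (Real.sqrt (th s r) / Real.sqrt r) * r =
        (Real.sqrt (th s r) * Real.sqrt (th s r)) * (r / Real.sqrt r) := by ring
      _ = th s r * Real.sqrt r := by
        rw [h2]
        congr 1
        rw [div_eq_iff h0.ne']
        exact h1.symm

variable {A : Type*} [CStarAlgebra A] [PartialOrder A] [StarOrderedRing A]

/-- real functions of a self-adjoint element are self-adjoint -/
theorem star_cfc' (f : ℝ → ℝ) (h : A) : star (cfc f h) = cfc f h := by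
  rw [← cfc_star]
  simp

/-- `u u* ≤ s²` -/
theorem mul_star_le {u : A} {s : ℝ} (hs : 0 ≤ s) (hu : ‖u‖ ≤ s) :
    u * star u ≤ (s ^ 2) • (1 : A) := by
  have h1 : IsSelfAdjoint (u * star u) := IsSelfAdjoint.mul_star_self u
  have h2 := h1.le_algebraMap_norm_self
  have h3 : ‖u * star u‖ ≤ s ^ 2 := by
    rw [CStarRing.norm_self_mul_star, sq]
    exact mul_le_mul hu hu (norm_nonneg _) hs
  rw [Algebra.algebraMap_eq_smul_one] at h2
  refine h2.trans ?_
  have h4 : 0 ≤ (s ^ 2 - ‖u * star u‖) • (1 : A) :=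
    smul_nonneg (by linarith) zero_le_one
  rw [sub_smul] at h4
  exact sub_nonneg.1 h4

end ExcVarAux

open ExcVarAux in
theorem TF.exc_var {A : Type*} [CStarAlgebra A] [PartialOrder A] [StarOrderedRing A] (T : TF A)
    {a u v : A} (h : a = u + v) {s δ : ℝ} (hs : 0 < s) (hδ : 0 ≤ δ) (hu : ‖u‖ ≤ s)
    (hv : ∀ b : A, |T.t (v * b)| ≤ δ * ‖b‖) : T.exc a (2 * s) ≤ δ := by
  obtain ⟨g, hg⟩ : ∃ g, g = star a * a := ⟨_, rfl⟩
  have hsa : IsSelfAdjoint g := hg ▸ IsSelfAdjoint.star_mul_self a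
  have hsp : ∀ r ∈ spectrum ℝ g, 0 ≤ r := fun r hr =>
    spectrum_nonneg_of_nonneg (star_mul_self_nonneg a) (hg ▸ hr)
  obtain ⟨q, hq⟩ : ∃ q : ℝ → ℝ, q = fun r => Real.sqrt (th s r) := ⟨_, rfl⟩
  obtain ⟨q', hq'⟩ : ∃ q' : ℝ → ℝ, q' = fun r => Real.sqrt (th s r) / max (Real.sqrt r) s :=
    ⟨_, rfl⟩
  have qc : Continuous q := hq ▸ q_cont
  have q'c : Continuous q' := hq' ▸ q'_cont hs
  obtain ⟨κ, hκ⟩ : ∃ κ : A, κ = cfc q g := ⟨_, rfl⟩
  obtain ⟨κ', hκ'⟩ : ∃ κ' : A, κ' = cfc q' g := ⟨_, rfl⟩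
  have hκs : star κ = κ := by rw [hκ]; exact star_cfc' _ _
  have hκ's : star κ' = κ' := by rw [hκ']; exact star_cfc' _ _
  have hcomm : κ * κ' = κ' * κ := by
    rw [hκ, hκ', ← cfc_mul q q' g qc.continuousOn q'c.continuousOn,
      ← cfc_mul q' q g q'c.continuousOn qc.continuousOn]
    exact cfc_congr fun r _ => mul_comm _ _
  -- `κ² = θ`, `κ' g κ' = θ`, `κ κ' g = θ √r`
  obtain ⟨Θ, hΘ⟩ : ∃ Θ : A, Θ = cfc (th s) g := ⟨_, rfl⟩
  have hκκ : κ * κ = Θ := by
    rw [hκ, hΘ, ← cfc_mul q q g qc.continuousOn qc.continuousOn]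
    refine cfc_congr fun r _ => ?_
    simp only [hq]
    exact Real.mul_self_sqrt (th_nonneg hs r)
  have hid : cfc (fun r : ℝ => r) g = g := cfc_id' ℝ g hsa
  have hq'g : cfc (fun r : ℝ => q' r * r) g = κ' * g := by
    rw [cfc_mul q' (fun r : ℝ => r) g q'c.continuousOn continuousOn_id, hid, ← hκ']
  have hκ'g : κ' * g * κ' = Θ := by
    rw [← hq'g, hκ', hΘ, ← cfc_mul (fun r : ℝ => q' r * r) q' g
      (q'c.mul continuous_id).continuousOn q'c.continuousOn]
    refine cfc_congr fun r hr => ?_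
    simp only [hq']
    exact alg1 hs (hsp r hr)
  have hκκ'g : κ * κ' * g = cfc (fun r : ℝ => th s r * Real.sqrt r) g := by
    rw [mul_assoc, ← hq'g, hκ, ← cfc_mul q (fun r : ℝ => q' r * r) g qc.continuousOn
      (q'c.mul continuous_id).continuousOn]
    refine cfc_congr fun r hr => ?_
    simp only [hq, hq']
    rw [← mul_assoc]
    exact alg2 hs (hsp r hr)
  have hΘ1 : Θ ≤ 1 := by
    have h1 : cfc (th s) g ≤ cfc (fun _ : ℝ => (1 : ℝ)) g :=
      cfc_mono (fun r _ => th_le_one r) th_cont.continuousOn continuousOn_const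
    rw [cfc_const_one ℝ g] at h1
    rw [hΘ]
    exact h1
  have hΘ0 : 0 ≤ Θ := by rw [hΘ]; exact cfc_nonneg fun r _ => th_nonneg hs r
  obtain ⟨b, hb⟩ : ∃ b : A, b = κ * κ' * star a := ⟨_, rfl⟩
  -- the norm of `b`
  have hbb : b * star b = κ * Θ * κ := by
    rw [hb, star_mul, star_mul, star_star, hκs, hκ's]
    calc κ * κ' * star a * (a * (κ' * κ)) = κ * (κ' * (star a * a) * κ') * κ := by
          noncomm_ring
      _ = κ * Θ * κ := by rw [← hg, hκ'g]
  have hbb1 : b * star b ≤ 1 := by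
    rw [hbb]
    have h1 : κ * Θ * κ ≤ κ * 1 * κ := by
      have := star_left_conjugate_le_conjugate hΘ1 κ
      rwa [hκs] at this
    rw [mul_one, hκκ] at h1
    exact h1.trans hΘ1
  have hb1 : ‖b‖ ≤ 1 := by
    have h1 : ‖b * star b‖ ≤ 1 :=
      (CStarAlgebra.norm_le_one_iff_of_nonneg _ (mul_star_self_nonneg b)).2 hbb1
    rw [CStarRing.norm_self_mul_star] at h1
    nlinarith [norm_nonneg b]
  -- `t (b a)`
  have hba : b * a = cfc (fun r : ℝ => th s r * Real.sqrt r) g := by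
    rw [hb, mul_assoc, ← hg, hκκ'g]
  -- `t (b u)`
  have ht0 : 0 ≤ T.t Θ := T.t_nonneg hΘ0
  have hbu : |T.t (b * u)| ≤ s * T.t Θ := by
    have h1 := T.t_cs κ (κ' * star a * u)
    have e1 : star κ * (κ' * star a * u) = b * u := by
      rw [hκs, hb]
      noncomm_ring
    have e2 : star κ * κ = Θ := by rw [hκs, hκκ]
    have e3 : T.t (star (κ' * star a * u) * (κ' * star a * u)) ≤ s ^ 2 * T.t Θ := by
      have e4 : T.t (star (κ' * star a * u) * (κ' * star a * u)) =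
          T.t ((κ' * star a) * (u * star u) * star (κ' * star a)) := by
        rw [T.t_comm, star_mul]
        congr 1
        noncomm_ring
      have e5 : (κ' * star a) * (u * star u) * star (κ' * star a) ≤
          (κ' * star a) * ((s ^ 2) • (1 : A)) * star (κ' * star a) :=
        star_right_conjugate_le_conjugate (mul_star_le hs.le hu) _
      have e6 : (κ' * star a) * ((s ^ 2) • (1 : A)) * star (κ' * star a) = (s ^ 2) • Θ := by
        rw [mul_smul_comm, mul_one, smul_mul_assoc, star_mul, star_star, hκ's]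
        congr 1
        calc κ' * star a * (a * κ') = κ' * (star a * a) * κ' := by noncomm_ring
          _ = Θ := by rw [← hg, hκ'g]
      rw [e4]
      refine (T.t_mono e5).trans ?_
      rw [e6, map_smul, smul_eq_mul]
    rw [e1, e2] at h1
    have h2 : (T.t (b * u)) ^ 2 ≤ (s * T.t Θ) ^ 2 := by
      refine h1.trans ((mul_le_mul_of_nonneg_left e3 ht0).trans (le_of_eq ?_))
      ring
    exact abs_le_of_sq_le_sq h2 (by positivity)
  have hbv : T.t (b * v) ≤ δ := by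
    rw [T.t_comm]
    refine (le_abs_self _).trans ((hv b).trans ?_)
    exact mul_le_of_le_one_right hδ hb1
  have hsum : T.t (b * a) = T.t (b * u) + T.t (b * v) := by
    rw [h, mul_add, map_add]
  have hfin : T.exc a (2 * s) ≤ T.t (cfc (fun r : ℝ => th s r * Real.sqrt r) g) - s * T.t Θ := by
    have e1 : T.t (cfc (fun r : ℝ => th s r * Real.sqrt r) g) - s * T.t Θ =
        T.t (cfc (fun r : ℝ => th s r * Real.sqrt r - s * th s r) g) := by
      rw [cfc_sub (fun r : ℝ => th s r * Real.sqrt r) (fun r : ℝ => s * th s r) g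
        (th_cont.mul Real.continuous_sqrt).continuousOn
        (continuous_const.mul th_cont).continuousOn,
        cfc_const_mul s (th s) g th_cont.continuousOn, map_sub, map_smul, smul_eq_mul, hΘ]
    rw [e1]
    unfold TF.exc
    rw [← hg]
    refine T.t_mono (cfc_mono (fun r hr => ?_) (by fun_prop)
      ((th_cont.mul Real.continuous_sqrt).sub (continuous_const.mul th_cont)).continuousOn)
    have h0 := th_nonneg hs r
    rcases le_or_gt (2 * s) (Real.sqrt r) with h3 | h3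
    · rw [th_eq_one hs h3, max_eq_left (by linarith)]
      linarith
    · rw [max_eq_right (by linarith)]
      rcases le_or_gt (Real.sqrt r) s with h4 | h4
      · rw [th_eq_zero h4]
        simp
      · have : 0 ≤ th s r * (Real.sqrt r - s) := mul_nonneg h0 (by linarith)
        linarith
  have h5 := neg_abs_le (T.t (b * u))
  have h6 := le_abs_self (T.t (b * u))
  rw [← hba, hsum] at hfin
  linarith

namespace ExcVarAux

theorem eq_zero' {A : Type*} [CStarAlgebra A] [PartialOrder A] [StarOrderedRing A] (T : TF A)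
    (a : A) (h : ∀ s : ℝ, 0 < s → T.exc a s ≤ 0) : a = 0 := by
  have hsa : IsSelfAdjoint (star a * a) := IsSelfAdjoint.star_mul_self a
  have hz : ∀ s : ℝ, 0 < s → ∀ r ∈ spectrum ℝ (star a * a), Real.sqrt r ≤ s := by
    intro s hs r hr
    have hc : Continuous fun r : ℝ => max (Real.sqrt r - s) 0 := by fun_prop
    have hnn : 0 ≤ cfc (fun r : ℝ => max (Real.sqrt r - s) 0) (star a * a) :=
      cfc_nonneg fun r _ => le_max_right _ _
    have h1 := T.eq_zero_of_t hnn (le_antisymm (h s hs) (T.t_nonneg hnn))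
    have h2 : cfc (fun r : ℝ => max (Real.sqrt r - s) 0) (star a * a) =
        cfc (fun _ : ℝ => (0 : ℝ)) (star a * a) := by
      rw [h1, cfc_const_zero ℝ (star a * a)]
    have h3 := (cfc_eq_cfc_iff_eqOn hsa hc.continuousOn
      (continuousOn_const (c := (0 : ℝ)))).1 h2
    have h4 := h3 hr
    simp only at h4
    have h5 := le_max_left (Real.sqrt r - s) 0
    linarith
  have h4 : star a * a = 0 := by
    have e1 : cfc (fun r : ℝ => r) (star a * a) = cfc (fun _ : ℝ => (0 : ℝ)) (star a * a) := by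
      refine cfc_congr fun r hr => ?_
      have e2 : 0 ≤ r := spectrum_nonneg_of_nonneg (star_mul_self_nonneg a) hr
      by_contra hne
      have e3 : 0 < r := lt_of_le_of_ne e2 (Ne.symm hne)
      have e4 : 0 < Real.sqrt r := Real.sqrt_pos.2 e3
      have e5 := hz (Real.sqrt r / 2) (by linarith) r hr
      linarith
    rwa [cfc_id' ℝ (star a * a) hsa, cfc_const_zero ℝ (star a * a)] at e1
  exact (CStarRing.star_mul_self_eq_zero_iff _).1 h4

end ExcVarAux

open OrlAux in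
theorem orlG (Φ : ℝ → ℝ) (hΦ : IsOrlicz Φ) (h2 : DeltaTwo Φ) : ∃ C : ℝ, 0 < C ∧
    ∀ (A : Type u) [CStarAlgebra A] [PartialOrder A] [StarOrderedRing A] (T : TF A)
      (_ : WLim T) (x : ℕ → A) (_ : Mart T x)
      (F : ℝ) (_ : 0 ≤ F) (_ : ∀ n s, 0 < s → T.exc (x n) s ≤ s / Φ s * F),
      ∃ y z : ℕ → A, Mart T y ∧ Mart T z ∧ (∀ k, y k + z k = x k) ∧
        (∀ t0 : ℝ, 0 < t0 → ∃ s : ℝ, 0 ≤ s ∧ Φ s ≤ C / t0 * F ∧
          ∀ N, ∃ p ∈ T.F N, IsStarProjection p ∧ T.t (1 - p) ≤ t0 ∧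
          p * (∑ k ∈ Finset.range (N + 1), star (df y k) * df y k) * p ≤ (s ^ 2) • (1 : A)) ∧
        (∀ t0 : ℝ, 0 < t0 → ∃ s : ℝ, 0 ≤ s ∧ Φ s ≤ C / t0 * F ∧
          ∀ N, ∃ p ∈ T.F N, IsStarProjection p ∧ T.t (1 - p) ≤ t0 ∧
          p * (∑ k ∈ Finset.range (N + 1), df z k * star (df z k)) * p ≤
            (s ^ 2) • (1 : A)) := by
  obtain ⟨K, hK1, hK⟩ := delta hΦ h2
  have hpos : ∀ s, 0 < s → 0 < Φ s := fun s hs => pos hΦ hK1 hK hs
  have hK0 : 0 < K := by linarith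
  obtain ⟨C₀, hC₀, hmain⟩ := cMainS.{u} K hK1
  obtain ⟨r, hr⟩ := pow_unbounded_of_one_lt (Real.sqrt C₀) (one_lt_two : (1 : ℝ) < 2)
  refine ⟨K ^ (r + 2) * (C₀ + 1), by positivity, ?_⟩
  intro A _ _ _ T hW x hx F hF0 hF
  obtain ⟨C, hC⟩ : ∃ C, C = K ^ (r + 2) * (C₀ + 1) := ⟨_, rfl⟩
  rw [← hC]
  have hC0 : 0 < C := by rw [hC]; positivity
  have ht1 : 0 ≤ T.t 1 := by
    have := T.t_pos 1
    simpa using this
  rcases hF0.eq_or_lt with hF00 | hFpos
  · -- everything vanishes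
    have hx0 : ∀ n, x n = 0 := fun n => ExcVarAux.eq_zero' T (x n) fun s hs => by
      have h0 := hF n s hs
      rwa [← hF00, mul_zero] at h0
    have hM : Mart T (fun _ => (0 : A)) := ⟨fun k => zero_mem _, fun k => T.E_zero k⟩
    have hdf : ∀ k, df (fun _ => (0 : A)) k = 0 := by
      intro k
      cases k with
      | zero => rfl
      | succ k => exact sub_self _
    refine ⟨fun _ => 0, fun _ => 0, hM, hM, fun k => by rw [hx0 k, add_zero], ?_, ?_⟩
    · intro t0 ht0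
      refine ⟨0, le_rfl, ?_, fun N => ⟨1, one_mem _, IsStarProjection.one A, ?_, ?_⟩⟩
      · rw [hΦ.zero, ← hF00, mul_zero]
      · rw [sub_self, map_zero]; exact ht0.le
      · simp [hdf]
    · intro t0 ht0
      refine ⟨0, le_rfl, ?_, fun N => ⟨1, one_mem _, IsStarProjection.one A, ?_, ?_⟩⟩
      · rw [hΦ.zero, ← hF00, mul_zero]
      · rw [sub_self, map_zero]; exact ht0.le
      · simp [hdf]
  -- the level `l`
  obtain ⟨l, hl0, hl⟩ : ∃ l : ℝ, 0 < l ∧ Φ l * T.t 1 ≤ F := by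
    have h1 := hpos 1 one_pos
    refine ⟨min 1 (F / ((Φ 1 + 1) * (T.t 1 + 1))), lt_min one_pos (by positivity), ?_⟩
    obtain ⟨l, hl⟩ : ∃ l, l = min 1 (F / ((Φ 1 + 1) * (T.t 1 + 1))) := ⟨_, rfl⟩
    rw [← hl]
    have hl0 : 0 < l := by rw [hl]; exact lt_min one_pos (by positivity)
    have hl1 : l ≤ 1 := hl ▸ min_le_left _ _
    have hl2 : l ≤ F / ((Φ 1 + 1) * (T.t 1 + 1)) := hl ▸ min_le_right _ _
    have h3 := scale hΦ hl0.le hl1 (zero_le_one : (0 : ℝ) ≤ 1)
    rw [mul_one] at h3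
    rw [le_div_iff₀ (by positivity)] at hl2
    calc Φ l * T.t 1 ≤ (l * Φ 1) * T.t 1 := mul_le_mul_of_nonneg_right h3 ht1
      _ ≤ l * ((Φ 1 + 1) * (T.t 1 + 1)) := by
          have : 0 ≤ l * (Φ 1 + T.t 1 + 1) := by positivity
          nlinarith
      _ ≤ F := hl2
  have hlam : ∀ j : ℕ, 0 < l * 2 ^ j := fun j => by positivity
  have hsucc : ∀ j : ℕ, l * 2 ^ (j + 1) = 2 * (l * 2 ^ j) := fun j => by ring
  obtain ⟨D, hD⟩ : ∃ D : ℕ → ℝ, D = fun j => K * F / Φ (l * 2 ^ j) := ⟨_, rfl⟩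
  have hDv : ∀ j, D j = K * F / Φ (l * 2 ^ j) := fun j => by rw [hD]
  have hD0 : ∀ j, 0 ≤ D j := fun j => by
    rw [hDv]
    have := hpos _ (hlam j)
    positivity
  have hDt : T.t 1 ≤ D 0 := by
    rw [hDv, pow_zero, mul_one, le_div_iff₀ (hpos l hl0)]
    calc T.t 1 * Φ l = Φ l * T.t 1 := mul_comm _ _
      _ ≤ F := hl
      _ ≤ K * F := le_mul_of_one_le_left hF0 hK1
  have hDexc : ∀ n L, 2 * T.exc (x n) (l * 2 ^ L / 2) ≤ l * 2 ^ L * D L := by
    intro n L
    have hh : 0 < l * 2 ^ L / 2 := by positivity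
    have h3 := hF n _ hh
    have h4 := hK (l * 2 ^ L / 2) hh.le
    have e : 2 * (l * 2 ^ L / 2) = l * 2 ^ L := by ring
    rw [e] at h4
    have h5 := hpos _ hh
    have h6 := hpos _ (hlam L)
    rw [hDv]
    have h7 : F / Φ (l * 2 ^ L / 2) ≤ K * F / Φ (l * 2 ^ L) := by
      rw [div_le_div_iff₀ h5 h6]
      nlinarith
    calc 2 * T.exc (x n) (l * 2 ^ L / 2) ≤ 2 * (l * 2 ^ L / 2 / Φ (l * 2 ^ L / 2) * F) := by
          linarith
      _ = l * 2 ^ L * (F / Φ (l * 2 ^ L / 2)) := by ring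
      _ ≤ l * 2 ^ L * (K * F / Φ (l * 2 ^ L)) := mul_le_mul_of_nonneg_left h7 (hlam L).le
  have hD2 : ∀ j, 2 * D (j + 1) ≤ D j := by
    intro j
    rw [hDv, hDv, hsucc]
    have h3 := two_mul_le hΦ (hlam j).le
    have h4 := hpos _ (hlam j)
    have h5 : 0 < Φ (2 * (l * 2 ^ j)) := by linarith
    rw [← mul_div_assoc, div_le_div_iff₀ h5 h4]
    have h6 : 0 ≤ K * F := by positivity
    nlinarith
  have hDK : ∀ j, D j ≤ K * D (j + 1) := by
    intro j
    rw [hDv, hDv, hsucc]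
    have h3 := hK _ (hlam j).le
    have h4 := hpos _ (hlam j)
    have h5 : 0 < Φ (2 * (l * 2 ^ j)) := hpos _ (by positivity)
    rw [← mul_div_assoc, div_le_div_iff₀ h4 h5]
    have h6 : 0 ≤ K * F := by positivity
    nlinarith
  obtain ⟨y, z, hy, hz, hyz, h3, h4⟩ := hmain A T hW l hl0 x hx D hD0 hDt hDexc hD2 hDK
  -- choice of the level
  have hlevel : ∀ t0 : ℝ, 0 < t0 → t0 < T.t 1 → ∃ L : ℕ, 1 ≤ L ∧ C₀ * D L ≤ t0 ∧
      Φ (Real.sqrt C₀ * (l * 2 ^ L)) ≤ C / t0 * F := by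
    intro t0 ht0 ht
    have hex : ∃ L : ℕ, 1 ≤ L ∧ C₀ * D L ≤ t0 := by
      obtain ⟨L, hL⟩ := pow_unbounded_of_one_lt (C₀ * (K * F) / Φ l / t0)
        (one_lt_two : (1 : ℝ) < 2)
      have hLD : ∀ j : ℕ, 2 ^ j * D j ≤ D 0 := by
        intro j
        induction j with
        | zero => simp
        | succ j ih =>
          calc (2 : ℝ) ^ (j + 1) * D (j + 1) = 2 ^ j * (2 * D (j + 1)) := by ring
            _ ≤ 2 ^ j * D j := mul_le_mul_of_nonneg_left (hD2 j) (by positivity)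
            _ ≤ D 0 := ih
      refine ⟨L + 1, by omega, ?_⟩
      have h5 := hLD (L + 1)
      have h6 : C₀ * D 0 ≤ t0 * 2 ^ L := by
        have e : C₀ * D 0 = C₀ * (K * F) / Φ l := by
          rw [hDv, pow_zero, mul_one]
          ring
        rw [e]
        rw [div_lt_iff₀ ht0] at hL
        linarith
      have h7 : (2 : ℝ) ^ L ≤ 2 ^ (L + 1) := pow_le_pow_right₀ (by norm_num) (by omega)
      have h8 : (2 : ℝ) ^ (L + 1) * (C₀ * D (L + 1)) ≤ 2 ^ (L + 1) * t0 := by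
        calc (2 : ℝ) ^ (L + 1) * (C₀ * D (L + 1)) = C₀ * (2 ^ (L + 1) * D (L + 1)) := by ring
          _ ≤ C₀ * D 0 := mul_le_mul_of_nonneg_left h5 hC₀.le
          _ ≤ t0 * 2 ^ L := h6
          _ ≤ t0 * 2 ^ (L + 1) := mul_le_mul_of_nonneg_left h7 ht0.le
          _ = _ := mul_comm _ _
      exact le_of_mul_le_mul_left h8 (by positivity)
    classical
    obtain ⟨hL1, hL2⟩ := Nat.find_spec hex
    have hmin : ∀ j, j < Nat.find hex → ¬(1 ≤ j ∧ C₀ * D j ≤ t0) := fun j hj => Nat.find_min hex hj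
    obtain ⟨L, hLdef⟩ : ∃ L, L = Nat.find hex := ⟨_, rfl⟩
    rw [← hLdef] at hL1 hL2 hmin
    refine ⟨L, hL1, hL2, ?_⟩
    -- `Φ(l 2^L)`
    have hb : Φ (l * 2 ^ L) ≤ K ^ 2 * (C₀ + 1) * (F / t0) := by
      obtain ⟨j, rfl⟩ : ∃ j, L = j + 1 := ⟨L - 1, by omega⟩
      rw [hsucc]
      refine (hK _ (hlam j).le).trans ?_
      have hFt : 0 < F / t0 := by positivity
      have hbj : Φ (l * 2 ^ j) ≤ K * (C₀ + 1) * (F / t0) := by
        rcases Nat.eq_zero_or_pos j with rfl | hj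
        · rw [pow_zero, mul_one]
          have e1 : Φ l ≤ F / t0 := by
            rw [le_div_iff₀ ht0]
            exact (mul_le_mul_of_nonneg_left ht.le (hpos l hl0).le).trans hl
          have e2 : 1 ≤ K * (C₀ + 1) := by nlinarith
          calc Φ l ≤ 1 * (F / t0) := by rw [one_mul]; exact e1
            _ ≤ _ := mul_le_mul_of_nonneg_right e2 hFt.le
        · have e1 := hmin j (by omega)
          have e2 : t0 < C₀ * D j := by
            by_contra hcon
            exact e1 ⟨hj, not_lt.1 hcon⟩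
          rw [hDv] at e2
          have e3 := hpos _ (hlam j)
          rw [← mul_div_assoc, lt_div_iff₀ e3] at e2
          have e4 : Φ (l * 2 ^ j) ≤ C₀ * (K * F) / t0 := by
            rw [le_div_iff₀ ht0]
            linarith
          refine e4.trans ?_
          have e5 : C₀ * (K * F) / t0 = K * C₀ * (F / t0) := by ring
          rw [e5]
          have e6 : 0 ≤ K * (F / t0) := by positivity
          nlinarith
      calc K * Φ (l * 2 ^ j) ≤ K * (K * (C₀ + 1) * (F / t0)) :=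
            mul_le_mul_of_nonneg_left hbj hK0.le
        _ = _ := by ring
    have hs1 : Real.sqrt C₀ * (l * 2 ^ L) ≤ 2 ^ r * (l * 2 ^ L) :=
      mul_le_mul_of_nonneg_right hr.le (hlam L).le
    have hs0 : 0 ≤ Real.sqrt C₀ * (l * 2 ^ L) := mul_nonneg (Real.sqrt_nonneg _) (hlam L).le
    have h5 := hΦ.mono (Set.mem_Ici.2 hs0) (Set.mem_Ici.2 (hs0.trans hs1)) hs1
    refine h5.trans ((delta_pow hK1 hK (hlam L).le r).trans ?_)
    calc K ^ r * Φ (l * 2 ^ L) ≤ K ^ r * (K ^ 2 * (C₀ + 1) * (F / t0)) :=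
          mul_le_mul_of_nonneg_left hb (by positivity)
      _ = C / t0 * F := by rw [hC]; ring
  have hsq : ∀ L : ℕ, (Real.sqrt C₀ * (l * 2 ^ L)) ^ 2 = C₀ * (l * 2 ^ L) ^ 2 := fun L => by
    rw [mul_pow, Real.sq_sqrt hC₀.le]
  refine ⟨y, z, hy, hz, hyz, ?_, ?_⟩
  · intro t0 ht0
    rcases le_or_gt (T.t 1) t0 with ht | ht
    · refine ⟨0, le_rfl, ?_, fun N => ⟨0, zero_mem _, IsStarProjection.zero A, ?_, ?_⟩⟩
      · rw [hΦ.zero]; positivity
      · rw [sub_zero]; exact ht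
      · simp
    · obtain ⟨L, hL1, hL2, hL3⟩ := hlevel t0 ht0 ht
      refine ⟨Real.sqrt C₀ * (l * 2 ^ L), mul_nonneg (Real.sqrt_nonneg _) (hlam L).le, hL3,
        fun N => ?_⟩
      obtain ⟨p, hpF, hp, hp1, hp2⟩ := h3 L hL1 N
      refine ⟨p, hpF, hp, hp1.trans hL2, ?_⟩
      rw [hsq]
      exact hp2
  · intro t0 ht0
    rcases le_or_gt (T.t 1) t0 with ht | ht
    · refine ⟨0, le_rfl, ?_, fun N => ⟨0, zero_mem _, IsStarProjection.zero A, ?_, ?_⟩⟩
      · rw [hΦ.zero]; positivity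
      · rw [sub_zero]; exact ht
      · simp
    · obtain ⟨L, hL1, hL2, hL3⟩ := hlevel t0 ht0 ht
      refine ⟨Real.sqrt C₀ * (l * 2 ^ L), mul_nonneg (Real.sqrt_nonneg _) (hlam L).le, hL3,
        fun N => ?_⟩
      obtain ⟨p, hpF, hp, hp1, hp2⟩ := h4 L hL1 N
      refine ⟨p, hpF, hp, hp1.trans hL2, ?_⟩
      rw [hsq]
      exact hp2

end GD64
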