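import Pool.Agent.GD64.S3CornTF
import Pool.Agent.GD64.S3ExcVar

/-!
# GD64/S3CornFT: the finite theorem in a corner

`T` from `exists_cornTF`; `S k ∈ e (N k) e ⊆ C` (`c = 0`), `Mart T S`. Excess bound: given `s > 0` take `u` from the
hypothesis for `s/2`, `u = e u e ∈ C`, `v = S k - u`: for `b ∈ C`, `T.t (v b) = re τ.tr (e v b e) + re ⟨ζ, v b ζ⟩`; `b ζ = c ζ` and
`v ζ = v e ζ = 0`; `τ.tr (e v b e) = τ.tr (v (b e)) = τ.tr (v b)` as `v = v e`, `b` commutes with `e` (also `tr_comm`). So
`|T.t (v b)| ≤ (s/2)/Φ(s/2) g ‖b‖` and `exc_var` gives `T.exc (S k) s ≤ (s/2)/Φ(s/2) g ≤ K/2 (s/Φ(s)) g` (`OrlAux.delta`).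
`orlG` with `F = K g` gives `y, z` in `VA C`. Put `y' k = e (y k) e`, `z' k = e (z k) e` (elements of `C` commute with `e`), and for
`p ∈ T.F N`: `p' = e p e + (1 - e)`, a projection of `N N` (`p` commutes with `e`), `1 - p' = e (1-p) e`,
`wt (e (1-p) e) = re τ.tr (e (1-p) e) ≤ T.t (1-p) ≤ t0` (the `ζ` term is `≥ 0`; `tr_of_nonneg`), and
`p' (∑ |dy'|²) p' = e p (∑ |dy|²) p e ≤ s² e ≤ s²`. `E k (y' (k+1)) = e (E k (y (k+1))) e`. Constant: `K C`.
-/

namespace GD64

open scoped ComplexOrder InnerProductSpace ENNReal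
open Filter

universe u

namespace CornFT

variable {H : Type u} [NormedAddCommGroup H] [InnerProductSpace ℂ H] [CompleteSpace H]
  {M : VonNeumannAlgebra H} {τ : SFTrace M}

/-- the inclusion of `C` in `M`. -/
noncomputable def inc {C M : VonNeumannAlgebra H} (hC : C ≤ M) : VA C →⋆ₐ[ℂ] VA M :=
  StarSubalgebra.inclusion (show C.toStarSubalgebra ≤ M.toStarSubalgebra from hC)

theorem inc_coe {C M : VonNeumannAlgebra H} (hC : C ≤ M) (a : VA C) :
    ((inc hC a : VA M) : H →L[ℂ] H) = (a : H →L[ℂ] H) := rfl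

theorem inc_mono {C M : VonNeumannAlgebra H} (hC : C ≤ M) {a b : VA C} (h : a ≤ b) :
    inc hC a ≤ inc hC b := h

theorem inc_norm {C M : VonNeumannAlgebra H} (hC : C ≤ M) (a : VA C) : ‖inc hC a‖ = ‖a‖ := rfl

/-- algebra in a corner: the projection `p e + (1 - e)`. -/
theorem proj_aux {A : Type*} [Ring A] [StarRing A] {e p : A} (he : IsStarProjection e)
    (hp : IsStarProjection p) (hc : e * p = p * e) :
    IsStarProjection (e * p * e + (1 - e)) := by
  have he2 : e * e = e := he.isIdempotentElem.eq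
  have hp2 : p * p = p := hp.isIdempotentElem.eq
  have h1 : e * p * e = p * e := by rw [hc, mul_assoc, he2]
  refine ⟨?_, ?_⟩
  · show (e * p * e + (1 - e)) * (e * p * e + (1 - e)) = e * p * e + (1 - e)
    have h2 : p * e * (p * e) = p * e := by
      rw [mul_assoc p e, ← mul_assoc e p e, h1, ← mul_assoc, hp2]
    have h3 : p * e * (1 - e) = 0 := by rw [mul_sub, mul_one, mul_assoc, he2, sub_self]
    have h4 : (1 - e) * (p * e) = 0 := by
      rw [sub_mul, one_mul, ← mul_assoc, h1, sub_self]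
    have h5 : (1 - e) * (1 - e) = 1 - e := by
      rw [mul_sub, mul_one, sub_mul, one_mul, he2, sub_self, sub_zero]
    rw [h1, add_mul, mul_add, mul_add, h2, h3, h4, h5]
    abel
  · show star (e * p * e + (1 - e)) = e * p * e + (1 - e)
    have h6 := he.isSelfAdjoint.star_eq
    have h7 := hp.isSelfAdjoint.star_eq
    rw [star_add, star_mul, star_mul, star_sub, star_one, h6, h7, mul_assoc]

theorem conj_aux {A : Type*} [Ring A] {e p Q : A} (he2 : e * e = e)
    (hp : e * p = p * e) (hQ : e * Q = Q * e) :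
    (e * p * e + (1 - e)) * (e * Q * e) * (e * p * e + (1 - e)) = e * (p * Q * p) * e := by
  have h1 : (1 - e) * (e * Q * e) = 0 := by
    rw [sub_mul, one_mul, ← mul_assoc, ← mul_assoc, he2, sub_self]
  have h2 : (e * Q * e) * (1 - e) = 0 := by
    rw [mul_sub, mul_one, mul_assoc (e * Q), he2, sub_self]
  have h3 : e * p * e * (e * Q * e) = e * p * (Q * e) := by
    rw [mul_assoc (e * p), ← mul_assoc e (e * Q), ← mul_assoc e e Q, he2, hQ, mul_assoc Q e e, he2]
  rw [add_mul, h1, add_zero, h3, mul_add]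
  have h4 : e * p * (Q * e) * (1 - e) = 0 := by
    rw [mul_sub, mul_one, mul_assoc (e * p), mul_assoc Q e e, he2, sub_self]
  rw [h4, add_zero]
  have h5 : Q * e * (e * p * e) = Q * p * e := by
    rw [mul_assoc Q e, ← mul_assoc e (e * p), ← mul_assoc e e p, he2, hp, mul_assoc p e e, he2,
      ← mul_assoc]
  rw [mul_assoc (e * p), h5]
  simp only [mul_assoc]

theorem df_map {A B : Type*} [Ring A] [Ring B] (f : A → B) (hf : ∀ a b, f (a - b) = f a - f b)
    (y : ℕ → A) (k : ℕ) : df (fun n => f (y n)) k = f (df y k) := by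
  cases k with
  | zero => rfl
  | succ k => exact (hf _ _).symm

end CornFT

open CornFT in
theorem cornerFT (Φ : ℝ → ℝ) (hΦ : IsOrlicz Φ) (h2 : DeltaTwo Φ) : ∃ C : ℝ, 0 < C ∧
    ∀ (H : Type u) [NormedAddCommGroup H] [InnerProductSpace ℂ H] [CompleteSpace H]
      (M : VonNeumannAlgebra H) (τ : SFTrace M) (𝓕 : SFiltr M τ) (e : VA M) (_ : FinProj 𝓕 e)
      (S : ℕ → VA M) (_ : CMart 𝓕 e S) (g : ℝ) (_ : 0 ≤ g)
      (_ : ∀ k s, 0 < s → ∃ u : VA M, e * u * e = u ∧ ‖u‖ ≤ s ∧
        ∀ b : VA M, ‖τ.tr (S k * b) - τ.tr (u * b)‖ ≤ s / Φ s * g * ‖b‖),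
      ∃ y z : ℕ → VA M, CMart 𝓕 e y ∧ CMart 𝓕 e z ∧ (∀ k, y k + z k = S k) ∧
        (∀ t0 : ℝ, 0 < t0 → ∃ s : ℝ, 0 ≤ s ∧ Φ s ≤ C / t0 * g ∧
          ∀ N, ∃ p : VA M, (p : H →L[ℂ] H) ∈ 𝓕.N N ∧ IsStarProjection p ∧
            τ.wt (1 - p) ≤ ENNReal.ofReal t0 ∧
            p * (∑ k ∈ Finset.range (N + 1), star (df y k) * df y k) * p ≤
              (s ^ 2) • (1 : VA M)) ∧
        (∀ t0 : ℝ, 0 < t0 → ∃ s : ℝ, 0 ≤ s ∧ Φ s ≤ C / t0 * g ∧
          ∀ N, ∃ p : VA M, (p : H →L[ℂ] H) ∈ 𝓕.N N ∧ IsStarProjection p ∧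
            τ.wt (1 - p) ≤ ENNReal.ofReal t0 ∧
            p * (∑ k ∈ Finset.range (N + 1), df z k * star (df z k)) * p ≤
              (s ^ 2) • (1 : VA M)) := by
  obtain ⟨K, hK1, hK⟩ := OrlAux.delta hΦ h2
  have hpos : ∀ s, 0 < s → 0 < Φ s := fun s hs => OrlAux.pos hΦ hK1 hK hs
  have hK0 : 0 < K := by linarith
  obtain ⟨C₁, hC₁, hG⟩ := orlG.{u} Φ hΦ h2
  refine ⟨C₁ * K, by positivity, ?_⟩
  intro H _ _ _ M τ 𝓕 e he S hS g hg hyp
  obtain ⟨C, hC, T, ζ, hW, heζ, hmem, hT, hF, hE⟩ := exists_cornTF 𝓕 he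
  have he2 : e * e = e := he.proj.isIdempotentElem.eq
  have hes : star e = e := he.proj.isSelfAdjoint.star_eq
  -- elements of the corner are in `C`
  have hcorn : ∀ x : VA M, e * x * e = x → (x : H →L[ℂ] H) ∈ C := by
    intro x hx
    have hex : e * x = x := by rw [← hx, ← mul_assoc, ← mul_assoc, he2]
    have hxe : x * e = x := by rw [← hx, mul_assoc, he2]
    have hex' : (e : H →L[ℂ] H) * (x : H →L[ℂ] H) = x := congrArg Subtype.val hex
    have hxe' : (x : H →L[ℂ] H) * (e : H →L[ℂ] H) = x := congrArg Subtype.val hxe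
    rw [hmem]
    refine ⟨x.2, by rw [hex', hxe'], 0, ?_⟩
    rw [mul_sub, mul_one, hxe', sub_self, zero_smul]
  -- elements of `C` commute with `e`
  have hcomm : ∀ a : VA C, e * inc hC a = inc hC a * e := by
    intro a
    exact Subtype.ext ((hmem a).1 a.2).2.1
  have hTt : ∀ a : VA C, T.t a = (τ.tr (e * inc hC a * e)).re +
      RCLike.re ⟪ζ, (a : H →L[ℂ] H) ζ⟫_ℂ := hT
  -- the martingale in `C`
  obtain ⟨x, hx⟩ : ∃ x : ℕ → VA C, ∀ k, inc hC (x k) = S k :=
    ⟨fun k => ⟨(S k : H →L[ℂ] H), hcorn _ (hS.corner k)⟩, fun k => rfl⟩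
  have hxM : Mart T x := by
    refine ⟨fun k => ?_, fun k => ?_⟩
    · rw [hF]
      have h1 := hS.mem k
      rw [← hx k] at h1
      exact h1
    · apply Subtype.ext
      rw [hE]
      have h1 := hS.ce k
      rw [← hx k, ← hx (k + 1)] at h1
      exact congrArg Subtype.val h1
  -- the excess bound
  have hexc : ∀ n s, 0 < s → T.exc (x n) s ≤ s / Φ s * (K * g) := by
    intro n s hs
    obtain ⟨u, hu1, hu2, hu3⟩ := hyp n (s / 2) (by linarith)
    obtain ⟨u', hu'⟩ : ∃ u' : VA C, inc hC u' = u := ⟨⟨(u : H →L[ℂ] H), hcorn _ hu1⟩, rfl⟩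
    have hv : ∀ b : VA C, |T.t ((x n - u') * b)| ≤ (s / 2) / Φ (s / 2) * g * ‖b‖ := by
      intro b
      have hue : u * e = u := by rw [← hu1, mul_assoc, he2]
      have heu : e * u = u := by rw [← hu1, ← mul_assoc, ← mul_assoc, he2]
      have hSe : S n * e = S n := by rw [← hS.corner n, mul_assoc, he2]
      have heS : e * S n = S n := by rw [← hS.corner n, ← mul_assoc, ← mul_assoc, he2]
      have hvM : inc hC (x n - u') = S n - u := by rw [map_sub, hx, hu']
      have h1 : e * inc hC ((x n - u') * b) * e = S n * inc hC b - u * inc hC b := by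
        rw [map_mul, hvM, ← mul_assoc, mul_sub, heS, heu, mul_assoc, ← hcomm, ← mul_assoc, sub_mul,
          hSe, hue, sub_mul]
      have h2 : ((x n - u' : VA C) : H →L[ℂ] H) * (b : H →L[ℂ] H) =
          (((x n - u') * b : VA C) : H →L[ℂ] H) := rfl
      have h3 : (((x n - u') * b : VA C) : H →L[ℂ] H) ζ = 0 := by
        obtain ⟨c, hc⟩ := ((hmem b).1 b.2).2.2
        have h4 : (b : H →L[ℂ] H) ζ = c • ζ := by
          have h5 := congrArg (fun f : H →L[ℂ] H => f ζ) hc
          simp only [mul_apply_eq_comp, sub_apply, one_apply_eq_self,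
            heζ, sub_zero, smul_apply] at h5
          exact h5
        have h6 : ((x n - u' : VA C) : H →L[ℂ] H) ζ = 0 := by
          have h7 : (S n - u) * e = S n - u := by rw [sub_mul, hSe, hue]
          have h8 := congrArg (fun f : VA M => (f : H →L[ℂ] H) ζ) h7
          have h9 : (((S n - u) * e : VA M) : H →L[ℂ] H) ζ =
            ((S n - u : VA M) : H →L[ℂ] H) ((e : H →L[ℂ] H) ζ) := rfl
          rw [h9, heζ, map_zero] at h8
          have h10 : ((x n - u' : VA C) : H →L[ℂ] H) = ((S n - u : VA M) : H →L[ℂ] H) := by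
            rw [← hvM]; rfl
          rw [h10]
          exact h8.symm
        rw [← h2]
        show ((x n - u' : VA C) : H →L[ℂ] H) ((b : H →L[ℂ] H) ζ) = 0
        rw [h4, map_smul, h6, smul_zero]
      have hSfin : IsFin τ (S n) := he.isFin (hS.corner n)
      have hufin : IsFin τ u := he.isFin hu1
      rw [hTt, h3, inner_zero_right, map_zero, add_zero, h1,
        SFTrace.tr_sub (hSfin.tsum_mul' _) (hufin.tsum_mul' _)]
      refine (Complex.abs_re_le_norm _).trans ?_
      exact hu3 (inc hC b)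
    have hsplit : x n = u' + (x n - u') := by abel
    have hun : ‖u'‖ ≤ s / 2 := by
      have h1 : ‖u'‖ = ‖inc hC u'‖ := rfl
      rw [h1, hu']
      exact hu2
    have h4 := T.exc_var hsplit (by linarith : 0 < s / 2)
      (mul_nonneg (div_nonneg (by linarith) (hpos _ (by linarith)).le) hg) hun hv
    have h5 : 2 * (s / 2) = s := by ring
    rw [h5] at h4
    refine h4.trans ?_
    have h6 := hK (s / 2) (by linarith)
    rw [h5] at h6
    have h7 := hpos (s / 2) (by linarith)
    have h8 := hpos s hs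
    rw [← mul_assoc]
    refine mul_le_mul_of_nonneg_right ?_ hg
    rw [div_mul_eq_mul_div, div_le_div_iff₀ h7 h8]
    have h9 : 0 ≤ K * Φ (s / 2) := by positivity
    nlinarith [mul_le_mul_of_nonneg_left h6 hs.le]
  obtain ⟨y, z, hy, hz, hyz, hcy, hcz⟩ := hG (VA C) T hW x hxM (K * g) (by positivity) hexc
  -- transport
  have hfsub : ∀ a b : VA C, e * inc hC (a - b) * e = e * inc hC a * e - e * inc hC b * e := by
    intro a b
    rw [map_sub, mul_sub, sub_mul]
  have hcm : ∀ w : ℕ → VA C, Mart T w → CMart 𝓕 e (fun k => e * inc hC (w k) * e) := by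
    intro w hw
    have hwk : ∀ k, ((inc hC (w k) : VA M) : H →L[ℂ] H) ∈ 𝓕.N k := fun k => (hF k (w k)).1 (hw.mem k)
    refine ⟨fun k => ?_, fun k => ?_, fun k => ?_⟩
    · exact mul_mem (mul_mem (he.mem_n k) (hwk k)) (he.mem_n k)
    · rw [← mul_assoc, ← mul_assoc, he2, mul_assoc (e * inc hC (w k)), he2]
    · rw [𝓕.E_mod k _ _ _ (he.mem_n k) (he.mem_n k)]
      congr 2
      apply Subtype.ext
      have h1 := hE k (w (k + 1))
      rw [hw.ce k] at h1
      exact h1.symm
  have hone : (1 : VA M) = inc hC 1 := (map_one _).symm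
  -- the projections
  have hproj : ∀ (N : ℕ) (p : VA C) (t0 : ℝ), p ∈ T.F N → IsStarProjection p →
      T.t (1 - p) ≤ t0 → 0 < t0 →
      ((e * inc hC p * e + (1 - e) : VA M) : H →L[ℂ] H) ∈ 𝓕.N N ∧
      IsStarProjection (e * inc hC p * e + (1 - e)) ∧
      τ.wt (1 - (e * inc hC p * e + (1 - e))) ≤ ENNReal.ofReal t0 := by
    intro N p t0 hpN hp hpt ht0
    have hpN' : ((inc hC p : VA M) : H →L[ℂ] H) ∈ 𝓕.N N := (hF N p).1 hpN
    have hpp : IsStarProjection (inc hC p) := by
      refine ⟨?_, ?_⟩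
      · show inc hC p * inc hC p = inc hC p
        rw [← map_mul, hp.isIdempotentElem.eq]
      · show star (inc hC p) = inc hC p
        rw [← map_star, hp.isSelfAdjoint.star_eq]
    refine ⟨?_, proj_aux he.proj hpp (hcomm p), ?_⟩
    · exact add_mem (mul_mem (mul_mem (he.mem_n N) hpN') (he.mem_n N))
        (sub_mem (one_mem _) (he.mem_n N))
    · have h1 : 1 - (e * inc hC p * e + (1 - e)) = e * inc hC (1 - p) * e := by
        rw [map_sub, map_one, mul_sub, mul_one, sub_mul, he2]
        abel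
      have hq : IsStarProjection (1 - p) := hp.one_sub
      have h2 : (0 : VA M) ≤ e * inc hC (1 - p) * e := by
        have h3 : e * inc hC (1 - p) * e =
            star (inc hC (1 - p) * e) * (inc hC (1 - p) * e) := by
          have h4 : star (inc hC (1 - p)) = inc hC (1 - p) := by
            rw [← map_star, hq.isSelfAdjoint.star_eq]
          have h5 : inc hC (1 - p) * inc hC (1 - p) = inc hC (1 - p) := by
            rw [← map_mul, hq.isIdempotentElem.eq]
          rw [star_mul, hes, h4, mul_assoc e _ (_ * e), ← mul_assoc (inc hC (1 - p)) _ e, h5,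
            ← mul_assoc]
        rw [h3]
        exact star_mul_self_nonneg _
      have h3 : e * inc hC (1 - p) * e ≤ e := by
        have h4 : inc hC (1 - p) ≤ 1 := by
          have h5 : (1 : VA M) - inc hC (1 - p) = inc hC p := by
            rw [map_sub, map_one]; abel
          rw [← sub_nonneg, h5]
          have h6 : inc hC p = star (inc hC p) * inc hC p := by
            rw [hpp.isSelfAdjoint.star_eq, hpp.isIdempotentElem.eq]
          rw [h6]
          exact star_mul_self_nonneg _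
        have h7 := star_left_conjugate_le_conjugate h4 e
        rwa [hes, mul_one, he2] at h7
      have h4 : τ.wt (e * inc hC (1 - p) * e) < ⊤ := lt_of_le_of_lt (τ.wt_mono h3) he.fin
      have h5 := (SFTrace.tr_of_nonneg h2 h4).2
      rw [h1, ← ENNReal.ofReal_toReal h4.ne]
      refine ENNReal.ofReal_le_ofReal ?_
      refine le_trans ?_ hpt
      rw [hTt, h5, Complex.ofReal_re]
      have h6 : 0 ≤ RCLike.re ⟪ζ, ((1 - p : VA C) : H →L[ℂ] H) ζ⟫_ℂ := by
        have h7 : (0 : VA C) ≤ 1 - p := by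
          have h8 : (1 - p : VA C) = star (1 - p) * (1 - p) := by
            rw [hq.isSelfAdjoint.star_eq, hq.isIdempotentElem.eq]
          rw [h8]
          exact star_mul_self_nonneg _
        exact S3W.quad_nonneg h7 ζ
      linarith
  have hineq : ∀ (p Q : VA C) (s : ℝ), p * Q * p ≤ (s ^ 2) • (1 : VA C) →
      (e * inc hC p * e + (1 - e)) * (e * inc hC Q * e) * (e * inc hC p * e + (1 - e)) ≤
        (s ^ 2) • (1 : VA M) := by
    intro p Q s h
    rw [conj_aux he2 (hcomm p) (hcomm Q)]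
    have h1 : inc hC (p * Q * p) ≤ (s ^ 2) • (1 : VA M) := inc_mono hC h
    rw [map_mul, map_mul] at h1
    have h2 := star_left_conjugate_le_conjugate h1 e
    rw [hes, mul_smul_comm, smul_mul_assoc, mul_one, he2] at h2
    refine h2.trans ?_
    refine smul_le_smul_of_nonneg_left ?_ (by positivity)
    rw [← sub_nonneg]
    have h3 : (1 : VA M) - e = star (1 - e) * (1 - e) := by
      rw [he.proj.one_sub.isSelfAdjoint.star_eq, he.proj.one_sub.isIdempotentElem.eq]
    rw [h3]
    exact star_mul_self_nonneg _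
  have hprodc : ∀ a b : VA C, (e * inc hC a * e) * (e * inc hC b * e) =
      e * inc hC (a * b) * e := by
    intro a b
    rw [map_mul]
    have h1 : e * inc hC a * e = e * inc hC a := by rw [hcomm, mul_assoc, he2]
    have h2 : e * inc hC b * e = inc hC b * e := by rw [hcomm, mul_assoc, he2]
    have h3 : e * inc hC a * (inc hC b * e) = e * (inc hC a * inc hC b) * e := by
      simp only [mul_assoc]
    rw [h1, h2, h3]
  have hstarc : ∀ a : VA C, star (e * inc hC a * e) = e * inc hC (star a) * e := by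
    intro a
    rw [star_mul, star_mul, hes, map_star, mul_assoc]
  have hsumc : ∀ (s : Finset ℕ) (f : ℕ → VA C), ∑ k ∈ s, e * inc hC (f k) * e =
      e * inc hC (∑ k ∈ s, f k) * e := by
    intro s f
    rw [map_sum, Finset.mul_sum, Finset.sum_mul]
  refine ⟨fun k => e * inc hC (y k) * e, fun k => e * inc hC (z k) * e, hcm y hy, hcm z hz,
    ?_, ?_, ?_⟩
  · intro k
    simp only
    rw [← add_mul, ← mul_add, ← map_add, hyz, hx, hS.corner]
  · intro t0 ht0
    obtain ⟨s, hs0, hs, hN⟩ := hcy t0 ht0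
    refine ⟨s, hs0, ?_, fun N => ?_⟩
    · refine hs.trans (le_of_eq ?_)
      field_simp
    · obtain ⟨p, hpF, hp, hpt, hpi⟩ := hN N
      obtain ⟨h1, h2, h3⟩ := hproj N p t0 hpF hp hpt ht0
      refine ⟨_, h1, h2, h3, ?_⟩
      have h4 : ∀ k, star (df (fun k => e * inc hC (y k) * e) k) *
          df (fun k => e * inc hC (y k) * e) k = e * inc hC (star (df y k) * df y k) * e := by
        intro k
        rw [df_map (fun a : VA C => e * inc hC a * e) hfsub y k, hstarc, hprodc]
      rw [Finset.sum_congr rfl fun k _ => h4 k, hsumc]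
      exact hineq p _ s hpi
  · intro t0 ht0
    obtain ⟨s, hs0, hs, hN⟩ := hcz t0 ht0
    refine ⟨s, hs0, ?_, fun N => ?_⟩
    · refine hs.trans (le_of_eq ?_)
      field_simp
    · obtain ⟨p, hpF, hp, hpt, hpi⟩ := hN N
      obtain ⟨h1, h2, h3⟩ := hproj N p t0 hpF hp hpt ht0
      refine ⟨_, h1, h2, h3, ?_⟩
      have h4 : ∀ k, df (fun k => e * inc hC (z k) * e) k *
          star (df (fun k => e * inc hC (z k) * e) k) =
          e * inc hC (df z k * star (df z k)) * e := by
        intro k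
        rw [df_map (fun a : VA C => e * inc hC a * e) hfsub z k, hstarc, hprodc]
      rw [Finset.sum_congr rfl fun k _ => h4 k, hsumc]
      exact hineq p _ s hpi

end GD64
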