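import Pool.Agent.GD64.S3ATA
import Pool.Agent.GD64.S3CornFT

/-!
# GD64/S3Blk: the block decomposition

`Blk`: martingales `S m` of bounded operators in finite corners `e m`, `x - S m` of excess modular `F θ^(m+1)`, and
decompositions `y m + z m` of the blocks `S m - S (m-1)`.

`exists_blk`. By recursion (`approx` with `ε = F θ^(m+1)` and `e0 = e (m-1)`, resp. `e0 = 0`) get `e m`, `S m`, `e (m+1) * e m = e m`.
Block `X m = S m - S (m-1)` (`X 0 = S 0`), a `CMart` for `e m` (`e m` dominates `e (m-1)`). Excess hypothesis of `cornerFT` for `X m` in the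
corner `e m` with `g_m = 2 K F θ^m`: for `m ≥ 1`, `tr (X m k b) = (x k b - tr (S (m-1) k b)) - (x k b - tr (S m k b))`, `GB.sub`:
`K (F θ^m + F θ^(m+1)) ≤ 2 K F θ^m`; for `m = 0`: `tr (S 0 k b) = x k b - (x k b - tr (S 0 k b))`, `GB.of_phiMom`, `GB.sub`:
`K (2 F + F θ) ≤ 3 K F`. The `u` of `GB` is replaced by `(e m) u (e m)` (`tr ((X - e u e) b) = tr ((X - u) (e b e))`).
So use `g_m = 3 K F θ^m`; `cornerFT` gives `y m, z m` and the estimates with the constant `3 K C`.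
(`IsMartL1.eq_of_le` gives `x k (E k b) = x k b`.)
-/

namespace GD64

open scoped ComplexOrder InnerProductSpace ENNReal
open Filter

universe u

/-- the data of the block decomposition. -/
structure Blk {H : Type u} [NormedAddCommGroup H] [InnerProductSpace ℂ H] [CompleteSpace H]
    {M : VonNeumannAlgebra H} {τ : SFTrace M} (𝓕 : SFiltr M τ) (Φ : ℝ → ℝ) (C F θ : ℝ)
    (x : ℕ → (VA M →L[ℂ] ℂ)) (e : ℕ → VA M) (S y z : ℕ → ℕ → VA M) : Prop where
  fin : ∀ m, FinProj 𝓕 (e m)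
  mS : ∀ m, CMart 𝓕 (e m) (S m)
  my : ∀ m, CMart 𝓕 (e m) (y m)
  mz : ∀ m, CMart 𝓕 (e m) (z m)
  sum : ∀ n k, ∑ m ∈ Finset.range (n + 1), (y m k + z m k) = S n k
  gb : ∀ m k, GB 𝓕 Φ (F * θ ^ (m + 1)) k (fun b => x k b - τ.tr (S m k * b))
  col : ∀ m t0, 0 < t0 → ∃ s : ℝ, 0 ≤ s ∧ Φ s ≤ C / t0 * (F * θ ^ m) ∧
    ∀ N, ∃ p : VA M, (p : H →L[ℂ] H) ∈ 𝓕.N N ∧ IsStarProjection p ∧
      τ.wt (1 - p) ≤ ENNReal.ofReal t0 ∧
      p * (∑ k ∈ Finset.range (N + 1), star (df (y m) k) * df (y m) k) * p ≤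
        (s ^ 2) • (1 : VA M)
  row : ∀ m t0, 0 < t0 → ∃ s : ℝ, 0 ≤ s ∧ Φ s ≤ C / t0 * (F * θ ^ m) ∧
    ∀ N, ∃ p : VA M, (p : H →L[ℂ] H) ∈ 𝓕.N N ∧ IsStarProjection p ∧
      τ.wt (1 - p) ≤ ENNReal.ofReal t0 ∧
      p * (∑ k ∈ Finset.range (N + 1), df (z m) k * star (df (z m) k)) * p ≤
        (s ^ 2) • (1 : VA M)

private theorem s3blk_corner {A : Type*} [Ring A] [StarRing A] {e j u : A}
    (he : IsStarProjection e) (hj : IsStarProjection j)
    (hje : j * e = e) (hu : e * u * e = u) : j * u * j = u := by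
  have hej : e * j = e := by
    have h := congrArg star hje
    rwa [star_mul, he.isSelfAdjoint.star_eq, hj.isSelfAdjoint.star_eq] at h
  calc j * u * j = j * (e * u * e) * j := by rw [hu]
    _ = (j * e) * u * (e * j) := by simp only [mul_assoc]
    _ = e * u * e := by rw [hje, hej]
    _ = u := hu

section

variable {H : Type u} [NormedAddCommGroup H] [InnerProductSpace ℂ H] [CompleteSpace H]
  {M : VonNeumannAlgebra H} {τ : SFTrace M} {𝓕 : SFiltr M τ} {Φ : ℝ → ℝ}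

/-- moving a corner projection around the trace. -/
private theorem s3blk_tr {e : VA M} (he : FinProj 𝓕 e) (u b : VA M) :
    τ.tr (e * u * e * b) = τ.tr (u * (e * b * e)) := by
  have h2 : e * e * e = e := by rw [he.proj.isIdempotentElem.eq, he.proj.isIdempotentElem.eq]
  have hfe : IsFin τ e := he.isFin h2
  have h1 := hfe.tr_comm (u * e * b)
  calc τ.tr (e * u * e * b) = τ.tr (e * (u * e * b)) := by simp only [mul_assoc]
    _ = τ.tr (u * e * b * e) := h1.symm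
    _ = τ.tr (u * (e * b * e)) := by simp only [mul_assoc]

/-- the witnesses of `GB` can be taken in the corner. -/
private theorem s3blk_exc (hpos : ∀ s, 0 < s → 0 < Φ s) {g : ℝ} (hg : 0 ≤ g) {e : VA M}
    (he : FinProj 𝓕 e) {X : VA M} (hX : e * X * e = X) {n : ℕ}
    (h : GB 𝓕 Φ g n (fun b => τ.tr (X * b))) {s : ℝ} (hs : 0 < s) :
    ∃ u : VA M, e * u * e = u ∧ ‖u‖ ≤ s ∧
      ∀ b : VA M, ‖τ.tr (X * b) - τ.tr (u * b)‖ ≤ s / Φ s * g * ‖b‖ := by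
  obtain ⟨e', u, _, _, _, hn, hb⟩ := h s hs
  have he1 : ‖e‖ ≤ 1 := he.proj.norm_le
  have hee : e * e = e := he.proj.isIdempotentElem.eq
  have hconj : ∀ b : VA M, ‖e * b * e‖ ≤ ‖b‖ := by
    intro b
    calc ‖e * b * e‖ ≤ ‖e‖ * ‖b‖ * ‖e‖ :=
          (norm_mul_le _ _).trans (mul_le_mul_of_nonneg_right (norm_mul_le _ _) (norm_nonneg _))
      _ ≤ 1 * ‖b‖ * 1 := by
          have hb0 := norm_nonneg b
          have he0 := norm_nonneg e
          exact mul_le_mul (mul_le_mul_of_nonneg_right he1 hb0) he1 he0 (by positivity)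
      _ = ‖b‖ := by ring
  refine ⟨e * u * e, ?_, (hconj u).trans hn, ?_⟩
  · calc e * (e * u * e) * e = (e * e) * u * (e * e) := by simp only [mul_assoc]
      _ = e * u * e := by rw [hee]
  · intro b
    have h1 := hb (e * b * e)
    have h2 : τ.tr (X * b) = τ.tr (X * (e * b * e)) := by
      rw [← s3blk_tr he X b, hX]
    rw [h2, s3blk_tr he u b]
    refine h1.trans (mul_le_mul_of_nonneg_left (hconj b) ?_)
    have := hpos s hs
    positivity

end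

/-- the recursion. -/
private theorem s3blk_rec (Φ : ℝ → ℝ) (hΦ : IsOrlicz Φ) {K : ℝ} (hK : 1 ≤ K)
    (hK2 : ∀ s : ℝ, 0 ≤ s → Φ (2 * s) ≤ K * Φ s) (hpos : ∀ s, 0 < s → 0 < Φ s)
    {H : Type u} [NormedAddCommGroup H] [InnerProductSpace ℂ H] [CompleteSpace H]
    {M : VonNeumannAlgebra H} {τ : SFTrace M} {𝓕 : SFiltr M τ} {x : ℕ → (VA M →L[ℂ] ℂ)}
    (hx : IsMartL1 𝓕 x) {B : ℝ} (hB : ∀ n, ‖x n‖ ≤ B) {F : ℝ} (hF : 0 < F)
    (hxF : ∀ n, phiMomL1 τ Φ (x n) ≤ ENNReal.ofReal F) {θ : ℝ} (hθ : 0 < θ) :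
    ∃ (e : ℕ → VA M) (S : ℕ → ℕ → VA M), (∀ m, FinProj 𝓕 (e m)) ∧
      (∀ m, e (m + 1) * e m = e m) ∧ (∀ m, CMart 𝓕 (e m) (S m)) ∧
      ∀ m k, GB 𝓕 Φ (F * θ ^ (m + 1)) k (fun b => x k b - τ.tr (S m k * b)) := by
  have step : ∀ (m : ℕ) (e0 : {e : VA M // FinProj 𝓕 e}),
      ∃ p : {e : VA M // FinProj 𝓕 e} × (ℕ → VA M), p.1.1 * e0.1 = e0.1 ∧
        CMart 𝓕 p.1.1 p.2 ∧
        ∀ k, GB 𝓕 Φ (F * θ ^ (m + 1)) k (fun b => x k b - τ.tr (p.2 k * b)) := by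
    intro m e0
    obtain ⟨e, S, he, hee, hS, hgb⟩ := approx hΦ hK hK2 hpos hx hB hF hxF
      (ε := F * θ ^ (m + 1)) (by positivity) e0.2
    exact ⟨⟨⟨e, he⟩, S⟩, hee, hS, hgb⟩
  choose f hf using step
  let q : ℕ → {e : VA M // FinProj 𝓕 e} × (ℕ → VA M) := fun m =>
    Nat.rec (f 0 ⟨0, FinProj.zero 𝓕⟩) (fun m p => f (m + 1) p.1) m
  have hq0 : q 0 = f 0 ⟨0, FinProj.zero 𝓕⟩ := rfl
  have hqs : ∀ m, q (m + 1) = f (m + 1) (q m).1 := fun m => rfl
  refine ⟨fun m => (q m).1.1, fun m => (q m).2, fun m => (q m).1.2, ?_, ?_, ?_⟩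
  · intro m
    show (q (m + 1)).1.1 * (q m).1.1 = (q m).1.1
    rw [hqs]
    exact (hf (m + 1) (q m).1).1
  · intro m
    cases m with
    | zero =>
      show CMart 𝓕 (q 0).1.1 (q 0).2
      rw [hq0]
      exact (hf 0 _).2.1
    | succ m =>
      show CMart 𝓕 (q (m + 1)).1.1 (q (m + 1)).2
      rw [hqs]
      exact (hf (m + 1) (q m).1).2.1
  · intro m k
    cases m with
    | zero =>
      show GB 𝓕 Φ (F * θ ^ (0 + 1)) k (fun b => x k b - τ.tr ((q 0).2 k * b))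
      rw [hq0]
      exact (hf 0 _).2.2 k
    | succ m =>
      show GB 𝓕 Φ (F * θ ^ (m + 1 + 1)) k (fun b => x k b - τ.tr ((q (m + 1)).2 k * b))
      rw [hqs]
      exact (hf (m + 1) (q m).1).2.2 k

theorem exists_blk (Φ : ℝ → ℝ) (hΦ : IsOrlicz Φ) (h2 : DeltaTwo Φ) : ∃ C : ℝ, 0 < C ∧
    ∀ (H : Type u) [NormedAddCommGroup H] [InnerProductSpace ℂ H] [CompleteSpace H]
      (M : VonNeumannAlgebra H) (τ : SFTrace M) (𝓕 : SFiltr M τ) (x : ℕ → (VA M →L[ℂ] ℂ))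
      (_ : IsMartL1 𝓕 x) (B : ℝ) (_ : ∀ n, ‖x n‖ ≤ B) (F : ℝ) (_ : 0 < F)
      (_ : ∀ n, phiMomL1 τ Φ (x n) ≤ ENNReal.ofReal F) (θ : ℝ) (_ : 0 < θ) (_ : θ ≤ 1),
      ∃ (e : ℕ → VA M) (S y z : ℕ → ℕ → VA M), Blk 𝓕 Φ C F θ x e S y z := by
  obtain ⟨K, hK, hK2⟩ := OrlAux.delta hΦ h2
  have hpos : ∀ s, 0 < s → 0 < Φ s := fun s hs => OrlAux.pos hΦ hK hK2 hs
  obtain ⟨C₀, hC₀, hcor⟩ := cornerFT.{u} Φ hΦ h2
  have hK0 : 0 < K := lt_of_lt_of_le one_pos hK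
  refine ⟨3 * K * C₀, by positivity, ?_⟩
  intro H _ _ _ M τ 𝓕 x hx B hB F hF hxF θ hθ hθ1
  obtain ⟨e, S, he, hee, hS, hgb⟩ := s3blk_rec Φ hΦ hK hK2 hpos hx hB hF hxF hθ
  let X : ℕ → ℕ → VA M := fun m => Nat.casesOn m (S 0) (fun m k => S (m + 1) k - S m k)
  have hX0 : ∀ k, X 0 k = S 0 k := fun k => rfl
  have hXs : ∀ m k, X (m + 1) k = S (m + 1) k - S m k := fun m k => rfl
  have hSc : ∀ m k, e (m + 1) * S m k * e (m + 1) = S m k := fun m k =>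
    s3blk_corner (he m).proj (he (m + 1)).proj (hee m) ((hS m).corner k)
  have hXM : ∀ m, CMart 𝓕 (e m) (X m) := by
    intro m
    cases m with
    | zero => exact hS 0
    | succ m =>
      refine ⟨fun k => ?_, fun k => ?_, fun k => ?_⟩
      · rw [hXs]
        exact sub_mem ((hS (m + 1)).mem k) ((hS m).mem k)
      · rw [hXs, mul_sub, sub_mul, (hS (m + 1)).corner k, hSc]
      · rw [hXs, hXs, map_sub, (hS (m + 1)).ce k, (hS m).ce k]
  have hFθ : ∀ m, 0 < F * θ ^ m := fun m => by positivity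
  have hθle : ∀ m, F * θ ^ (m + 1) ≤ F * θ ^ m := by
    intro m
    rw [pow_succ, ← mul_assoc]
    exact mul_le_of_le_one_right (hFθ m).le hθ1
  have hXgb : ∀ m k, GB 𝓕 Φ (3 * K * (F * θ ^ m)) k (fun b => τ.tr (X m k * b)) := by
    intro m k
    cases m with
    | zero =>
      have h1 : GB 𝓕 Φ (2 * F) k (x k) :=
        GB.of_phiMom hΦ hpos (hx.l1 k) (fun b => hx.eq_of_le le_rfl b) hF (hxF k)
      have h3 := GB.sub hK hK2 hpos (by positivity : (0 : ℝ) ≤ 2 * F) (hFθ (0 + 1)).le h1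
        (hgb 0 k)
      refine (h3.mono hpos ?_ le_rfl).congr ?_
      · have h4 := hθle 0
        rw [pow_zero, mul_one] at h4
        have h5 : K * (2 * F + F * θ ^ (0 + 1)) ≤ K * (2 * F + F) :=
          mul_le_mul_of_nonneg_left (by linarith) hK0.le
        rw [pow_zero, mul_one]
        linarith
      · intro b
        show x k b - (x k b - τ.tr (S 0 k * b)) = τ.tr (X 0 k * b)
        rw [hX0]
        ring
    | succ m =>
      have h3 := GB.sub hK hK2 hpos (hFθ (m + 1)).le (hFθ (m + 1 + 1)).le (hgb m k)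
        (hgb (m + 1) k)
      refine (h3.mono hpos ?_ le_rfl).congr ?_
      · have h4 := hθle (m + 1)
        have h5 : K * (F * θ ^ (m + 1) + F * θ ^ (m + 1 + 1)) ≤
            K * (F * θ ^ (m + 1) + F * θ ^ (m + 1)) :=
          mul_le_mul_of_nonneg_left (by linarith) hK0.le
        have h6 : 0 ≤ K * (F * θ ^ (m + 1)) := by positivity
        linarith
      · intro b
        show x k b - τ.tr (S m k * b) - (x k b - τ.tr (S (m + 1) k * b)) =
          τ.tr (X (m + 1) k * b)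
        rw [hXs, sub_mul, SFTrace.tr_sub
          (((he (m + 1)).isFin ((hS (m + 1)).corner k)).tsum_mul' b)
          (((he m).isFin ((hS m).corner k)).tsum_mul' b)]
        ring
  have hblk : ∀ m, ∃ y z : ℕ → VA M, CMart 𝓕 (e m) y ∧ CMart 𝓕 (e m) z ∧
      (∀ k, y k + z k = X m k) ∧
        (∀ t0 : ℝ, 0 < t0 → ∃ s : ℝ, 0 ≤ s ∧ Φ s ≤ C₀ / t0 * (3 * K * (F * θ ^ m)) ∧
          ∀ N, ∃ p : VA M, (p : H →L[ℂ] H) ∈ 𝓕.N N ∧ IsStarProjection p ∧
            τ.wt (1 - p) ≤ ENNReal.ofReal t0 ∧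
            p * (∑ k ∈ Finset.range (N + 1), star (df y k) * df y k) * p ≤
              (s ^ 2) • (1 : VA M)) ∧
        (∀ t0 : ℝ, 0 < t0 → ∃ s : ℝ, 0 ≤ s ∧ Φ s ≤ C₀ / t0 * (3 * K * (F * θ ^ m)) ∧
          ∀ N, ∃ p : VA M, (p : H →L[ℂ] H) ∈ 𝓕.N N ∧ IsStarProjection p ∧
            τ.wt (1 - p) ≤ ENNReal.ofReal t0 ∧
            p * (∑ k ∈ Finset.range (N + 1), df z k * star (df z k)) * p ≤
              (s ^ 2) • (1 : VA M)) := by
    intro m
    have hg : 0 ≤ 3 * K * (F * θ ^ m) := by positivity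
    exact hcor H M τ 𝓕 (e m) (he m) (X m) (hXM m) (3 * K * (F * θ ^ m)) hg
      (fun k s hs => s3blk_exc hpos hg (he m) ((hXM m).corner k) (hXgb m k) hs)
  choose y z hy hz hyz hcol hrow using hblk
  refine ⟨e, S, y, z, he, hS, hy, hz, ?_, hgb, ?_, ?_⟩
  · intro n k
    induction n with
    | zero =>
      rw [zero_add, Finset.sum_range_one, hyz, hX0]
    | succ n ih =>
      rw [Finset.sum_range_succ, ih, hyz, hXs]
      abel
  · intro m t0 ht0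
    obtain ⟨s, hs0, hs, hN⟩ := hcol m t0 ht0
    refine ⟨s, hs0, hs.trans (le_of_eq ?_), hN⟩
    ring
  · intro m t0 ht0
    obtain ⟨s, hs0, hs, hN⟩ := hrow m t0 ht0
    refine ⟨s, hs0, hs.trans (le_of_eq ?_), hN⟩
    ring

end GD64
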