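import Pool.Agent.GD64.S3Tr

/-!
# GD64/S3Sub: supports and joins of projections

* `wt_supp_le`: `h = x* x`, `k = x x*`. `h (h+ε)⁻¹ = y* y` with `y = (k+ε)^{-1/2} x`, and `y y* = k (k+ε)⁻¹ ≤ suppP k`
  (`0 ≤ k (k+ε)⁻¹ ≤ 1` and `suppP k * k = k`). So `wt (h (h+ε)⁻¹) ≤ wt (suppP k)`, and `h (h+ε)⁻¹ → suppP h`
  strongly as `ε → 0` (`suppP_tendsto` in VNSupp); `wt_lsc`. (Functions of `h`: use `cfc (fun r => r/(r+ε))`, or
  `Ring.inverse` as in VNSupp.)
* `join2`: `z = (1-e) f`, `g₀ = suppP (z z*)`, `g = e + g₀`: `e g₀ = 0` since `e (z z*) = 0` (`suppP_annih` or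
  `mul_suppP_of_mul`), `g₀ z = z` so `g f = e f + g₀ (1-e) f = e f + z = f`, `wt g₀ ≤ wt (suppP (z* z)) ≤ wt f` because
  `z* z = f (1-e) f` gives `f * suppP (z* z) = suppP (z* z)` (`mul_suppP_of_mul`).
* `joinN`: iterated `join2`: `g_0 = f_0`, `g_{n+1} g_n = g_n`, `g_{n+1} f_{n+1} = f_{n+1}`, `wt g_n ≤ ∑_{j≤n} wt f_j`, all in `N`.
  `exists_wot_lim N` (VNTr) applied to `g_n : VA N` gives a weak operator limit `g ∈ N` along the hyperfilter. `g` is
  self-adjoint; `g_m g_n = g_m` for `m ≤ n` gives `g_m g = g_m`, `g g_m = g_m` in the limit, and then (limit in `m` of `g g_m = g_m`)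
  `g g = g`. `g f_j = g g_j f_j = g_j f_j = f_j`. `wt_lsc` gives `wt g ≤ ∑' wt f_j`.
* `IsFin.add`: join of the two projections. 
-/

namespace GD64

open scoped ComplexOrder InnerProductSpace ENNReal
open Filter

universe u

variable {H : Type u} [NormedAddCommGroup H] [InnerProductSpace ℂ H] [CompleteSpace H]
  {M : VonNeumannAlgebra H} {τ : SFTrace M}

/-- star projections in `VA M` from star projections in `B(H)`. -/
private theorem s3sub_proj_mk {P : VA M} {p : H →L[ℂ] H} (h : (P : H →L[ℂ] H) = p)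
    (hp : IsStarProjection p) : IsStarProjection P := by
  constructor
  · apply Subtype.ext
    change (P : H →L[ℂ] H) * (P : H →L[ℂ] H) = P
    rw [h]
    exact hp.isIdempotentElem.eq
  · apply Subtype.ext
    change star (P : H →L[ℂ] H) = P
    rw [h]
    exact hp.isSelfAdjoint.star_eq

theorem SFTrace.wt_supp_le (τ : SFTrace M) (x P Q : VA M)
    (hP : (P : H →L[ℂ] H) = suppP ((star x * x : VA M) : H →L[ℂ] H))
    (hQ : (Q : H →L[ℂ] H) = suppP ((x * star x : VA M) : H →L[ℂ] H)) : τ.wt P ≤ τ.wt Q := by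
  set X : H →L[ℂ] H := (x : H →L[ℂ] H) with hX
  have hXM : X ∈ M := x.2
  have hXsM : star X ∈ M := star_mem hXM
  have hh0 : 0 ≤ star X * X := star_mul_self_nonneg X
  have hk0 : 0 ≤ X * star X := mul_star_self_nonneg X
  have hPp : IsStarProjection P := s3sub_proj_mk hP (suppP_proj _)
  have hQp : IsStarProjection Q := s3sub_proj_mk hQ (suppP_proj _)
  have hQs : star Q = Q := hQp.isSelfAdjoint.star_eq
  have hQQ : Q * Q = Q := hQp.isIdempotentElem.eq
  have hks : IsSelfAdjoint (X * star X) := IsSelfAdjoint.of_nonneg hk0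
  have hmem1 : ∀ n : ℕ, Ring.inverse (star X * X + ((1 : ℝ) / (n + 1)) • (1 : H →L[ℂ] H)) ∈ M :=
    fun n => vnTr_inverse_mem M (add_mem (mul_mem hXsM hXM) (vnTr_real_smul_one_mem M _))
  have hmem2 : ∀ n : ℕ, Ring.inverse (X * star X + ((1 : ℝ) / (n + 1)) • (1 : H →L[ℂ] H)) ∈ M :=
    fun n => vnTr_inverse_mem M (add_mem (mul_mem hXM hXsM) (vnTr_real_smul_one_mem M _))
  set r1 : ℕ → VA M := fun n => ⟨_, hmem1 n⟩ with hr1
  set r2 : ℕ → VA M := fun n => ⟨_, hmem2 n⟩ with hr2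
  have hint : ∀ n, x * r1 n = r2 n * x := by
    intro n
    apply Subtype.ext
    change X * Ring.inverse (star X * X + ((1 : ℝ) / (n + 1)) • (1 : H →L[ℂ] H)) =
      Ring.inverse (X * star X + ((1 : ℝ) / (n + 1)) • (1 : H →L[ℂ] H)) * X
    have hε : (0 : ℝ) < 1 / (n + 1) := by positivity
    have hu1 := vnTr_isUnit_add_smul hh0 hε
    have hu2 := vnTr_isUnit_add_smul hk0 hε
    have e1 : X * (star X * X + ((1 : ℝ) / (n + 1)) • (1 : H →L[ℂ] H)) =
        (X * star X + ((1 : ℝ) / (n + 1)) • (1 : H →L[ℂ] H)) * X := by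
      rw [mul_add, add_mul, mul_smul_comm, smul_mul_assoc, mul_one, one_mul, mul_assoc]
    calc X * Ring.inverse (star X * X + ((1 : ℝ) / (n + 1)) • (1 : H →L[ℂ] H))
        = (Ring.inverse (X * star X + ((1 : ℝ) / (n + 1)) • (1 : H →L[ℂ] H)) *
            (X * star X + ((1 : ℝ) / (n + 1)) • (1 : H →L[ℂ] H))) * X *
            Ring.inverse (star X * X + ((1 : ℝ) / (n + 1)) • (1 : H →L[ℂ] H)) := by
          rw [Ring.inverse_mul_cancel _ hu2, one_mul]
      _ = Ring.inverse (X * star X + ((1 : ℝ) / (n + 1)) • (1 : H →L[ℂ] H)) * X *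
            ((star X * X + ((1 : ℝ) / (n + 1)) • (1 : H →L[ℂ] H)) *
            Ring.inverse (star X * X + ((1 : ℝ) / (n + 1)) • (1 : H →L[ℂ] H))) := by
          rw [mul_assoc (Ring.inverse _) _ X, ← e1]
          simp only [mul_assoc]
      _ = Ring.inverse (X * star X + ((1 : ℝ) / (n + 1)) • (1 : H →L[ℂ] H)) * X := by
          rw [Ring.mul_inverse_cancel _ hu1, mul_one]
  -- facts on `r2 n`
  have hkr : ∀ n, Commute (x * star x) (r2 n) := by
    intro n
    have hε : (0 : ℝ) < 1 / (n + 1) := by positivity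
    have hu2 := vnTr_isUnit_add_smul hk0 hε
    apply Subtype.ext
    change X * star X * Ring.inverse (X * star X + ((1 : ℝ) / (n + 1)) • (1 : H →L[ℂ] H)) =
      Ring.inverse (X * star X + ((1 : ℝ) / (n + 1)) • (1 : H →L[ℂ] H)) * (X * star X)
    have e : Commute (X * star X) (X * star X + ((1 : ℝ) / (n + 1)) • (1 : H →L[ℂ] H)) :=
      (Commute.refl _).add_right ((Commute.one_right _).smul_right _)
    set u := X * star X + ((1 : ℝ) / (n + 1)) • (1 : H →L[ℂ] H)
    set h := X * star X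
    calc h * Ring.inverse u = (Ring.inverse u * u) * h * Ring.inverse u := by
          rw [Ring.inverse_mul_cancel _ hu2, one_mul]
      _ = Ring.inverse u * (h * u) * Ring.inverse u := by rw [e.eq]; simp only [mul_assoc]
      _ = Ring.inverse u * h * (u * Ring.inverse u) := by simp only [mul_assoc]
      _ = Ring.inverse u * h := by rw [Ring.mul_inverse_cancel _ hu2, mul_one]
  have hrs : ∀ n, star (r2 n) = r2 n := by
    intro n
    have hε : (0 : ℝ) < 1 / (n + 1) := by positivity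
    have hu2 := vnTr_isUnit_add_smul hk0 hε
    apply Subtype.ext
    change star (Ring.inverse (X * star X + ((1 : ℝ) / (n + 1)) • (1 : H →L[ℂ] H))) =
      Ring.inverse (X * star X + ((1 : ℝ) / (n + 1)) • (1 : H →L[ℂ] H))
    have hus : star (X * star X + ((1 : ℝ) / (n + 1)) • (1 : H →L[ℂ] H)) =
        X * star X + ((1 : ℝ) / (n + 1)) • (1 : H →L[ℂ] H) := by
      rw [star_add, hks.star_eq, star_smul, star_one]
      simp only [star_trivial]
    set u := X * star X + ((1 : ℝ) / (n + 1)) • (1 : H →L[ℂ] H)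
    have e1 : star (Ring.inverse u) * u = 1 := by
      have := congrArg star (Ring.mul_inverse_cancel _ hu2)
      rwa [star_mul, hus, star_one] at this
    calc star (Ring.inverse u) = star (Ring.inverse u) * (u * Ring.inverse u) := by
          rw [Ring.mul_inverse_cancel _ hu2, mul_one]
      _ = Ring.inverse u := by rw [← mul_assoc, e1, one_mul]
  have hr0 : ∀ n, 0 ≤ r2 n := by
    intro n
    have hε : (0 : ℝ) < 1 / (n + 1) := by positivity
    have hu2 := vnTr_isUnit_add_smul hk0 hε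
    change (0 : H →L[ℂ] H) ≤ (r2 n : H →L[ℂ] H)
    have e0 : (r2 n : H →L[ℂ] H) =
        star (r2 n : H →L[ℂ] H) * (X * star X + ((1 : ℝ) / (n + 1)) • (1 : H →L[ℂ] H)) *
          (r2 n : H →L[ℂ] H) := by
      have h1 : star (r2 n : H →L[ℂ] H) = (r2 n : H →L[ℂ] H) :=
        congrArg Subtype.val (hrs n)
      rw [h1, mul_assoc]
      change _ = (r2 n : H →L[ℂ] H) * ((X * star X + ((1 : ℝ) / (n + 1)) • (1 : H →L[ℂ] H)) *
        Ring.inverse (X * star X + ((1 : ℝ) / (n + 1)) • (1 : H →L[ℂ] H)))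
      rw [Ring.mul_inverse_cancel _ hu2, mul_one]
    rw [e0]
    have hu0 : (0 : H →L[ℂ] H) ≤ X * star X + ((1 : ℝ) / (n + 1)) • (1 : H →L[ℂ] H) :=
      add_nonneg hk0 (smul_nonneg hε.le zero_le_one)
    exact star_left_conjugate_nonneg hu0 _
  -- the support
  have hQx : Q * x = x := by
    have h1 : Q * (x * star x) = x * star x := by
      apply Subtype.ext
      change (Q : H →L[ℂ] H) * (X * star X) = X * star X
      rw [hQ]
      exact suppP_mul _
    have h2 : ((1 - Q) * x) * star ((1 - Q) * x) = 0 := by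
      rw [star_mul, mul_assoc, ← mul_assoc x, ← mul_assoc, sub_mul, one_mul, h1, sub_self, zero_mul]
    have h3 : (1 - Q) * x = 0 := (CStarRing.mul_star_self_eq_zero_iff _).mp h2
    rw [sub_mul, one_mul, sub_eq_zero] at h3
    exact h3.symm
  refine τ.wt_lsc (l := atTop) (b := fun n => star x * x * r1 n) (b' := P) ?_ ?_
  · intro ξ η
    have h1 := suppP_tendsto hh0 η
    have h2 : Tendsto (fun n : ℕ => ((star x * x * r1 n : VA M) : H →L[ℂ] H) η) atTop
        (nhds ((P : H →L[ℂ] H) η)) := by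
      rw [hP]
      exact h1
    exact tendsto_const_nhds.inner h2
  · intro n
    have hε : (0 : ℝ) < 1 / (n + 1) := by positivity
    set s : VA M := cfc (fun r : ℝ => Real.sqrt r) (r2 n) with hs
    have hss : star s = s := (cfc_predicate (fun r : ℝ => Real.sqrt r) (r2 n)).star_eq
    have hs2 : s * s = r2 n := by
      rw [hs, ← cfc_mul _ _ _]
      have hsa : IsSelfAdjoint (r2 n) := hrs n
      conv_rhs => rw [← cfc_id ℝ (r2 n)]
      refine cfc_congr fun r hr => ?_
      have hr0 : 0 ≤ r := spectrum_nonneg_of_nonneg (hr0 n) hr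
      exact (Real.mul_self_sqrt hr0)
    have hsk : Commute s (x * star x) :=
      (show IsSelfAdjoint (r2 n) from hrs n).commute_cfc (hkr n).symm _
    have hsQ : Commute s Q := by
      apply Subtype.ext
      have h1 : Commute (s : H →L[ℂ] H) (X * star X) := congrArg Subtype.val hsk.eq
      have := suppP_commute hks h1
      have h2 := this.eq
      have hQ' : (Q : H →L[ℂ] H) = suppP (X * star X) := hQ
      change (s : H →L[ℂ] H) * (Q : H →L[ℂ] H) = (Q : H →L[ℂ] H) * (s : H →L[ℂ] H)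
      rw [hQ']
      exact h2
    have e1 : star x * x * r1 n = star (s * x) * (s * x) := by
      rw [star_mul, hss, mul_assoc (star x) x, hint n, ← hs2]
      simp only [mul_assoc]
    have hQsx : Q * (s * x) = s * x := by
      rw [← mul_assoc, ← hsQ.eq, mul_assoc, hQx]
    have e2 : (s * x) * star (s * x) = star Q * ((s * x) * star (s * x)) * Q := by
      have h3 : star (s * x) * Q = star (s * x) := by
        have := congrArg star hQsx
        rwa [star_mul, hQs] at this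
      rw [hQs, ← mul_assoc Q, hQsx, mul_assoc (s * x), h3]
    have e3 : (s * x) * star (s * x) ≤ 1 := by
      rw [← CStarAlgebra.norm_le_one_iff_of_nonneg _ (mul_star_self_nonneg _),
        CStarRing.norm_self_mul_star, ← CStarRing.norm_star_mul_self, ← e1]
      exact norm_mul_inverse_le hh0 hε
    rw [e1, τ.wt_comm]
    refine τ.wt_mono ?_
    rw [e2]
    calc star Q * ((s * x) * star (s * x)) * Q ≤ star Q * 1 * Q :=
          star_left_conjugate_le_conjugate e3 Q
      _ = Q := by rw [mul_one, hQs, hQQ]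

theorem SFTrace.join2 (τ : SFTrace M) {N : VonNeumannAlgebra H} (hN : N ≤ M) {e f : VA M}
    (he : (e : H →L[ℂ] H) ∈ N) (hf : (f : H →L[ℂ] H) ∈ N) (hep : IsStarProjection e)
    (hfp : IsStarProjection f) :
    ∃ g : VA M, (g : H →L[ℂ] H) ∈ N ∧ IsStarProjection g ∧ g * e = e ∧ g * f = f ∧
      τ.wt g ≤ τ.wt e + τ.wt f := by
  have hee : e * e = e := hep.isIdempotentElem.eq
  have hes : star e = e := hep.isSelfAdjoint.star_eq
  have hff : f * f = f := hfp.isIdempotentElem.eq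
  have hfs : star f = f := hfp.isSelfAdjoint.star_eq
  set z : VA M := (1 - e) * f with hz
  have hzN : (z : H →L[ℂ] H) ∈ N := mul_mem (sub_mem (one_mem N) he) hf
  have hzs : star z = f * (1 - e) := by rw [hz, star_mul, star_sub, star_one, hes, hfs]
  have hez : e * z = 0 := by rw [hz, ← mul_assoc, mul_sub, mul_one, hee, sub_self, zero_mul]
  have hks : IsSelfAdjoint (((z * star z : VA M)) : H →L[ℂ] H) :=
    IsSelfAdjoint.mul_star_self (z : H →L[ℂ] H)
  have hhs : IsSelfAdjoint (((star z * z : VA M)) : H →L[ℂ] H) :=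
    IsSelfAdjoint.star_mul_self (z : H →L[ℂ] H)
  have hQN : suppP ((z * star z : VA M) : H →L[ℂ] H) ∈ N :=
    suppP_mem N hks (mul_mem hzN (star_mem hzN))
  have hPN : suppP ((star z * z : VA M) : H →L[ℂ] H) ∈ N :=
    suppP_mem N hhs (mul_mem (star_mem hzN) hzN)
  set P : VA M := ⟨_, hN hPN⟩ with hP
  set Q : VA M := ⟨_, hN hQN⟩ with hQ
  have hPp : IsStarProjection P := s3sub_proj_mk rfl (suppP_proj _)
  have hQp : IsStarProjection Q := s3sub_proj_mk rfl (suppP_proj _)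
  have hPs : star P = P := hPp.isSelfAdjoint.star_eq
  have hQs : star Q = Q := hQp.isSelfAdjoint.star_eq
  have hPQ : τ.wt Q ≤ τ.wt P := by
    have h1 : star (star z) * star z = z * star z := by rw [star_star]
    have h2 : star z * star (star z) = star z * z := by rw [star_star]
    refine τ.wt_supp_le (star z) Q P ?_ ?_
    · rw [h1]
    · rw [h2]
  have hzz : z * star z * e = 0 := by
    have : star z * e = 0 := by
      have := congrArg star hez
      rwa [star_mul, hes, star_zero] at this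
    rw [mul_assoc, this, mul_zero]
  have hQe : Q * e = 0 := by
    apply Subtype.ext
    exact suppP_annih hks (congrArg Subtype.val hzz)
  have heQ : e * Q = 0 := by
    have := congrArg star hQe
    rwa [star_mul, hes, hQs, star_zero] at this
  have hQz : Q * z = z := by
    have h1 : Q * (z * star z) = z * star z := by
      apply Subtype.ext
      exact suppP_mul _
    have h2 : ((1 - Q) * z) * star ((1 - Q) * z) = 0 := by
      rw [star_mul, mul_assoc, ← mul_assoc z, ← mul_assoc, sub_mul, one_mul, h1, sub_self, zero_mul]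
    have h3 : (1 - Q) * z = 0 := (CStarRing.mul_star_self_eq_zero_iff _).mp h2
    rw [sub_mul, one_mul, sub_eq_zero] at h3
    exact h3.symm
  have hQQ : Q * Q = Q := hQp.isIdempotentElem.eq
  have hfP : f * P = P := by
    apply Subtype.ext
    refine mul_suppP_of_mul ?_
    have : f * (star z * z) = star z * z := by
      rw [← mul_assoc, hzs, ← mul_assoc f, hff]
    exact congrArg Subtype.val this
  have hPle : P ≤ f := by
    have h1 : P * f = P := by
      have := congrArg star hfP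
      rwa [star_mul, hPs, hfs] at this
    have hPP : P * P = P := hPp.isIdempotentElem.eq
    have h2 : f - P = star (f - P) * (f - P) := by
      rw [star_sub, hfs, hPs, mul_sub, sub_mul, sub_mul, hff, hfP, h1, hPP]
      simp
    rw [← sub_nonneg, h2]
    exact star_mul_self_nonneg _
  refine ⟨e + Q, add_mem he hQN, ⟨?_, ?_⟩, ?_, ?_, ?_⟩
  · change (e + Q) * (e + Q) = e + Q
    rw [mul_add, add_mul, add_mul, hee, hQe, heQ, hQQ, add_zero, zero_add]
  · change star (e + Q) = e + Q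
    rw [star_add, hes, hQs]
  · rw [add_mul, hee, hQe, add_zero]
  · have h1 : Q * f = z := by
      have h2 : Q * z = Q * f := by
        rw [hz, ← mul_assoc, mul_sub, mul_one, hQe, sub_zero]
      rw [← h2, hQz]
    rw [add_mul, h1, hz, sub_mul, one_mul]
    abel
  · have he0 : 0 ≤ e := by rw [← hee]; nth_rewrite 1 [← hes]; exact star_mul_self_nonneg _
    have hQ0 : 0 ≤ Q := by rw [← hQQ]; nth_rewrite 1 [← hQs]; exact star_mul_self_nonneg _
    rw [τ.wt_add he0 hQ0]
    gcongr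
    exact hPQ.trans (τ.wt_mono hPle)

theorem SFTrace.joinN (τ : SFTrace M) {N : VonNeumannAlgebra H} (hN : N ≤ M) {f : ℕ → VA M}
    (hf : ∀ j, (f j : H →L[ℂ] H) ∈ N) (hp : ∀ j, IsStarProjection (f j)) :
    ∃ g : VA M, (g : H →L[ℂ] H) ∈ N ∧ IsStarProjection g ∧ (∀ j, g * f j = f j) ∧
      τ.wt g ≤ ∑' j, τ.wt (f j) := by
  -- the sequence of joins
  have hstep : ∀ (n : ℕ) (g : {g : VA M // (g : H →L[ℂ] H) ∈ N ∧ IsStarProjection g}),
      ∃ g' : {g : VA M // (g : H →L[ℂ] H) ∈ N ∧ IsStarProjection g},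
        (g' : VA M) * g = g ∧ (g' : VA M) * f (n + 1) = f (n + 1) ∧
          τ.wt (g' : VA M) ≤ τ.wt (g : VA M) + τ.wt (f (n + 1)) := by
    intro n g
    obtain ⟨g', h1, h2, h3, h4, h5⟩ := τ.join2 hN g.2.1 (hf (n + 1)) g.2.2 (hp (n + 1))
    exact ⟨⟨g', h1, h2⟩, h3, h4, h5⟩
  choose! st hst1 hst2 hst3 using hstep
  obtain ⟨G, hG0, hGs⟩ : ∃ G : ℕ → {g : VA M // (g : H →L[ℂ] H) ∈ N ∧ IsStarProjection g},
      (G 0 : VA M) = f 0 ∧ ∀ n, G (n + 1) = st n (G n) :=
    ⟨fun n => Nat.rec (motive := fun _ => {g : VA M // (g : H →L[ℂ] H) ∈ N ∧ IsStarProjection g})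
      ⟨f 0, hf 0, hp 0⟩ (fun n g => st n g) n, rfl, fun n => rfl⟩
  have hGG : ∀ n m, n ≤ m → (G m : VA M) * (G n : VA M) = G n := by
    intro n m hnm
    induction m, hnm using Nat.le_induction with
    | base => exact (G n).2.2.isIdempotentElem.eq
    | succ m _ ih =>
      have h1 : (G (m + 1) : VA M) * (G m : VA M) = G m := by rw [hGs]; exact hst1 m (G m)
      rw [← ih, ← mul_assoc, h1]
  have hGf : ∀ n, (G n : VA M) * f n = f n := by
    intro n
    cases n with
    | zero => rw [hG0]; exact (hp 0).isIdempotentElem.eq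
    | succ n => rw [hGs]; exact hst2 n (G n)
  have hGfj : ∀ j n, j ≤ n → (G n : VA M) * f j = f j := by
    intro j n hjn
    rw [← hGf j, ← mul_assoc, hGG j n hjn]
  have hGw : ∀ n, τ.wt (G n : VA M) ≤ ∑ j ∈ Finset.range (n + 1), τ.wt (f j) := by
    intro n
    induction n with
    | zero => simp [hG0]
    | succ n ih =>
      rw [Finset.sum_range_succ, hGs]
      exact (hst3 n (G n)).trans (by gcongr)
  have hGB : ∀ n, τ.wt (G n : VA M) ≤ ∑' j, τ.wt (f j) := fun n =>
    (hGw n).trans (ENNReal.sum_le_tsum _)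
  have hGstar : ∀ n, star (G n : VA M) = G n := fun n => (G n).2.2.isSelfAdjoint.star_eq
  have hGG' : ∀ n m, n ≤ m → (G n : VA M) * (G m : VA M) = G n := by
    intro n m hnm
    have := congrArg star (hGG n m hnm)
    rwa [star_mul, hGstar, hGstar] at this
  -- the limit
  let GN : ℕ → VA N := fun n => ⟨((G n : VA M) : H →L[ℂ] H), (G n).2.1⟩
  have hGp : ∀ n, IsStarProjection ((G n : VA M) : H →L[ℂ] H) := by
    intro n
    exact ⟨congrArg Subtype.val (G n).2.2.isIdempotentElem.eq, congrArg Subtype.val (hGstar n)⟩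
  obtain ⟨b', hb'⟩ := exists_wot_lim N GN (C := 1) (fun n => (hGp n).norm_le)
  set g : VA M := ⟨(b' : H →L[ℂ] H), hN b'.2⟩ with hg
  have hlim : ∀ ξ η : H, Tendsto (fun n => ⟪ξ, ((G n : VA M) : H →L[ℂ] H) η⟫_ℂ)
      (hyperfilter ℕ : Filter ℕ) (nhds ⟪ξ, (g : H →L[ℂ] H) η⟫_ℂ) := hb'
  have hev : ∀ m : ℕ, ∀ᶠ n in (hyperfilter ℕ : Filter ℕ), m ≤ n := by
    intro m
    have h1 : (hyperfilter ℕ : Filter ℕ) ≤ atTop := by
      rw [← Nat.cofinite_eq_atTop]; exact hyperfilter_le_cofinite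
    exact h1 (eventually_ge_atTop m)
  have hext : ∀ a b : VA M, (∀ ξ η : H, ⟪ξ, (a : H →L[ℂ] H) η⟫_ℂ = ⟪ξ, (b : H →L[ℂ] H) η⟫_ℂ) →
      a = b := by
    intro a b h
    apply Subtype.ext
    refine ContinuousLinearMap.ext fun η => ?_
    exact ext_inner_left ℂ fun ξ => h ξ η
  have hself : star g = g := by
    refine hext _ _ fun ξ η => ?_
    have h1 := hlim η ξ
    have h2 := (Complex.continuous_conj.tendsto _).comp h1
    have h3 := hlim ξ η
    have h4 : ⟪ξ, ((star g : VA M) : H →L[ℂ] H) η⟫_ℂ =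
        (starRingEnd ℂ) ⟪η, (g : H →L[ℂ] H) ξ⟫_ℂ := by
      rw [inner_conj_symm]
      change ⟪ξ, (star (g : H →L[ℂ] H)) η⟫_ℂ = _
      rw [ContinuousLinearMap.star_eq_adjoint, ContinuousLinearMap.adjoint_inner_right]
    rw [h4]
    refine tendsto_nhds_unique h2 (h3.congr fun n => ?_)
    change _ = (starRingEnd ℂ) ⟪η, ((G n : VA M) : H →L[ℂ] H) ξ⟫_ℂ
    rw [inner_conj_symm]
    have h5 : star ((G n : VA M) : H →L[ℂ] H) = ((G n : VA M) : H →L[ℂ] H) := congrArg Subtype.val (hGstar n)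
    conv_lhs => rw [← h5]
    rw [ContinuousLinearMap.star_eq_adjoint, ContinuousLinearMap.adjoint_inner_right]
  have hGm : ∀ m, (G m : VA M) * g = G m := by
    intro m
    refine hext _ _ fun ξ η => ?_
    have h1 := hlim (((G m : VA M) : H →L[ℂ] H) ξ) η
    have h5 : star ((G m : VA M) : H →L[ℂ] H) = ((G m : VA M) : H →L[ℂ] H) :=
      congrArg Subtype.val (hGstar m)
    have hadj : ∀ v : H, ⟪((G m : VA M) : H →L[ℂ] H) ξ, v⟫_ℂ =
        ⟪ξ, ((G m : VA M) : H →L[ℂ] H) v⟫_ℂ := by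
      intro v
      conv_lhs => rw [← h5]
      rw [ContinuousLinearMap.star_eq_adjoint, ContinuousLinearMap.adjoint_inner_left]
    rw [hadj] at h1
    change Tendsto _ _ (nhds ⟪ξ, (((G m : VA M) * g : VA M) : H →L[ℂ] H) η⟫_ℂ) at h1
    refine tendsto_nhds_unique h1 ?_
    refine Tendsto.congr' ?_ tendsto_const_nhds
    filter_upwards [hev m] with n hn
    rw [hadj]
    have := hGG' m n hn
    have h6 := congrArg (fun a : VA M => (a : H →L[ℂ] H) η) this
    change ((G m : VA M) : H →L[ℂ] H) (((G n : VA M) : H →L[ℂ] H) η) =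
      ((G m : VA M) : H →L[ℂ] H) η at h6
    rw [h6]
  have hgg : g * g = g := by
    refine hext _ _ fun ξ η => ?_
    have h1 := hlim ξ ((g : H →L[ℂ] H) η)
    have h2 := hlim ξ η
    change Tendsto _ _ (nhds ⟪ξ, ((g * g : VA M) : H →L[ℂ] H) η⟫_ℂ) at h1
    refine tendsto_nhds_unique h1 (h2.congr fun n => ?_)
    have h6 := congrArg (fun a : VA M => (a : H →L[ℂ] H) η) (hGm n)
    change ((G n : VA M) : H →L[ℂ] H) ((g : H →L[ℂ] H) η) = ((G n : VA M) : H →L[ℂ] H) η at h6
    rw [h6]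
  refine ⟨g, b'.2, ⟨hgg, hself⟩, ?_, ?_⟩
  · intro j
    refine hext _ _ fun ξ η => ?_
    have h1 := hlim ξ ((f j : H →L[ℂ] H) η)
    change Tendsto _ _ (nhds ⟪ξ, ((g * f j : VA M) : H →L[ℂ] H) η⟫_ℂ) at h1
    refine tendsto_nhds_unique h1 ?_
    refine Tendsto.congr' ?_ tendsto_const_nhds
    filter_upwards [hev j] with n hn
    have h6 := congrArg (fun a : VA M => (a : H →L[ℂ] H) η) (hGfj j n hn)
    change ((G n : VA M) : H →L[ℂ] H) ((f j : H →L[ℂ] H) η) = (f j : H →L[ℂ] H) η at h6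
    rw [h6]
  · exact τ.wt_lsc (l := (hyperfilter ℕ : Filter ℕ)) (b := fun n => (G n : VA M)) hlim hGB

private theorem s3sub_corner {e g b : VA M} (hep : IsStarProjection e) (hgp : IsStarProjection g)
    (hge : g * e = e) (hb : e * b * e = b) : g * b * g = b := by
  have hes : star e = e := hep.isSelfAdjoint.star_eq
  have hgs : star g = g := hgp.isSelfAdjoint.star_eq
  have heg : e * g = e := by
    have := congrArg star hge
    rwa [star_mul, hes, hgs] at this
  calc g * b * g = g * (e * b * e) * g := by rw [hb]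
    _ = (g * e) * b * (e * g) := by simp only [mul_assoc]
    _ = b := by rw [hge, heg, hb]

theorem IsFin.add {a b : VA M} (ha : IsFin τ a) (hb : IsFin τ b) : IsFin τ (a + b) := by
  obtain ⟨e, hep, hef, hea⟩ := ha
  obtain ⟨f, hfp, hff, hfb⟩ := hb
  obtain ⟨g, -, hgp, hge, hgf, hgw⟩ := τ.join2 (le_refl M) e.2 f.2 hep hfp
  refine ⟨g, hgp, hgw.trans_lt (ENNReal.add_lt_top.mpr ⟨hef, hff⟩), ?_⟩
  rw [mul_add, add_mul, s3sub_corner hep hgp hge hea, s3sub_corner hfp hgp hgf hfb]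

theorem IsFin.neg {a : VA M} (ha : IsFin τ a) : IsFin τ (-a) := by
  obtain ⟨e, hep, hef, hea⟩ := ha
  exact ⟨e, hep, hef, by rw [mul_neg, neg_mul, hea]⟩

theorem IsFin.sub {a b : VA M} (ha : IsFin τ a) (hb : IsFin τ b) : IsFin τ (a - b) := by
  rw [sub_eq_add_neg]
  exact ha.add hb.neg

theorem IsFin.sum {ι : Type*} (s : Finset ι) {a : ι → VA M} (ha : ∀ i ∈ s, IsFin τ (a i)) :
    IsFin τ (∑ i ∈ s, a i) := by
  classical
  induction s using Finset.induction_on with
  | empty => rw [Finset.sum_empty]; exact IsFin.zero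
  | insert i s hi ih =>
    rw [Finset.sum_insert hi]
    exact (ha i (Finset.mem_insert_self i s)).add
      (ih fun j hj => ha j (Finset.mem_insert_of_mem hj))

theorem FinProj.join {𝓕 : SFiltr M τ} {e f : VA M} (he : FinProj 𝓕 e) (hf : FinProj 𝓕 f) :
    ∃ g : VA M, FinProj 𝓕 g ∧ g * e = e ∧ g * f = f := by
  obtain ⟨g, hgN, hgp, hge, hgf, hgw⟩ := τ.join2 (𝓕.le 0) he.mem hf.mem he.proj hf.proj
  exact ⟨g, ⟨hgp, hgN, hgw.trans_lt (ENNReal.add_lt_top.mpr ⟨he.fin, hf.fin⟩)⟩, hge, hgf⟩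

theorem IsL1.of_fin {φ : VA M →L[ℂ] ℂ} {u : VA M} (hu : IsFin τ u)
    (h : ∀ b, φ b = τ.tr (u * b)) : IsL1 τ φ := by
  intro ε hε
  refine ⟨u, hu, fun b => ?_⟩
  rw [h b, sub_self, norm_zero]
  positivity

theorem IsL1.add {φ ψ : VA M →L[ℂ] ℂ} (hφ : IsL1 τ φ) (hψ : IsL1 τ ψ) : IsL1 τ (φ + ψ) := by
  intro ε hε
  obtain ⟨a, ha, ha'⟩ := hφ (ε / 2) (by positivity)
  obtain ⟨b, hb, hb'⟩ := hψ (ε / 2) (by positivity)
  refine ⟨a + b, ha.add hb, fun c => ?_⟩
  rw [add_mul, SFTrace.tr_add (ha.tsum_mul' c) (hb.tsum_mul' c), _root_.add_apply]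
  calc ‖φ c + ψ c - (τ.tr (a * c) + τ.tr (b * c))‖
      = ‖(φ c - τ.tr (a * c)) + (ψ c - τ.tr (b * c))‖ := by congr 1; ring
    _ ≤ ‖φ c - τ.tr (a * c)‖ + ‖ψ c - τ.tr (b * c)‖ := norm_add_le _ _
    _ ≤ ε / 2 * ‖c‖ + ε / 2 * ‖c‖ := add_le_add (ha' c) (hb' c)
    _ = ε * ‖c‖ := by ring

theorem IsL1.sub {φ ψ : VA M →L[ℂ] ℂ} (hφ : IsL1 τ φ) (hψ : IsL1 τ ψ) : IsL1 τ (φ - ψ) := by
  intro ε hε
  obtain ⟨a, ha, ha'⟩ := hφ (ε / 2) (by positivity)
  obtain ⟨b, hb, hb'⟩ := hψ (ε / 2) (by positivity)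
  refine ⟨a - b, ha.sub hb, fun c => ?_⟩
  rw [sub_mul, SFTrace.tr_sub (ha.tsum_mul' c) (hb.tsum_mul' c), _root_.sub_apply]
  calc ‖φ c - ψ c - (τ.tr (a * c) - τ.tr (b * c))‖
      = ‖(φ c - τ.tr (a * c)) - (ψ c - τ.tr (b * c))‖ := by congr 1; ring
    _ ≤ ‖φ c - τ.tr (a * c)‖ + ‖ψ c - τ.tr (b * c)‖ := norm_sub_le _ _
    _ ≤ ε / 2 * ‖c‖ + ε / 2 * ‖c‖ := add_le_add (ha' c) (hb' c)
    _ = ε * ‖c‖ := by ring

end GD64
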