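import Pool.Agent.GD64.S3E
import Pool.Agent.GD64.S3Sub

/-!
# GD64/S3Dens: approximation of `L_1`-operators by corners of finite projections of `N 0`

* `dens_proj`: `f` a projection of `M` with `wt f < ∞`, `h = E 0 f ∈ N 0`, `0 ≤ h ≤ 1`, `wt h = wt f`. For `η > 0` let
  `e_η = suppP (cfc (fun r => max (r - η) 0) h) ∈ N 0` (`vn_cut`): `η e_η ≤ e_η h e_η`, so
  `η wt e_η ≤ wt (e_η h e_η) ≤ wt h < ∞`; `(1-e_η) h (1-e_η) ≤ η`. `wt (f (1-e_η) f) = wt ((1-e_η) f (1-e_η))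
  = wt (E 0 ((1-e_η) f (1-e_η))) = wt ((1-e_η) h (1-e_η))`, whose terms are `≤ min (q_i h) (η ‖ξ_i‖²)` (`(1-e_η) h (1-e_η) ≤ h` by commutation):
  dominated convergence as `η → 0`, `∑ q_i h < ∞`.
  With a given `e0`: `e` = join of `e_η` and `e0` (`FinProj.join`), `1 - e ≤ 1 - e_η`.
* `dens`: `φ` is `ε/3`-approximated by `tr (a ·)`, `a = f a f`. `tr (a b) - tr (a e b e) = tr (a (1-e) b) + tr (a e b (1-e))`;
  `tr (a (1-e) b) = tr ((f a)(f (1-e) b))`: Cauchy-Schwarz `HS.norm_tr_le`: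
  `wt (f a a* f) ≤ ‖a‖² wt f`, `wt (b* (1-e) f (1-e) b) = wt (f (1-e) b b* (1-e) f) ≤ ‖b‖² wt (f (1-e) f)`; similarly for
  `tr (a e b (1-e)) = tr ((1-e) a e b)= tr (((1-e) f) (a e b))`. Choose `e` by `dens_proj` with `wt (f (1-e) f)` small.
  `φ b - φ (e b e)` then is `≤ ε/3 ‖b‖ + (..) + ε/3 ‖b‖`.
* `dens_approx`: take `e` from `dens` for `ε/2`, `a` finite with `‖φ - tr (a ·)‖ ≤ ε/2` and `v = E n (e a e)`:
  `φ (e b e) = φ (E n (e b e)) = φ (e (E n b) e)` is within `ε/2 ‖b‖` of `tr (a e (E n b) e) = tr ((e a e) (E n b)) = tr (v b)`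
  (`tr_E_comm`); `‖E n b‖ ≤ ‖b‖`.
-/

namespace GD64

open scoped ComplexOrder InnerProductSpace ENNReal
open Filter

universe u

variable {H : Type u} [NormedAddCommGroup H] [InnerProductSpace ℂ H] [CompleteSpace H]
  {M : VonNeumannAlgebra H} {τ : SFTrace M} {𝓕 : SFiltr M τ}

/-- a dominated family of positive elements whose quadratic forms tend to `0` has weights tending to `0`. -/
theorem s3d_small {h : VA M} (hh : 0 ≤ h) (hfin : τ.wt h < ⊤) {g : ℕ → VA M}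
    (hg0 : ∀ k, 0 ≤ g k) (hg : ∀ k, g k ≤ h)
    (hg' : ∀ k, g k ≤ ((1 : ℝ) / (k + 1)) • (1 : VA M)) {ε : ℝ} (hε : 0 < ε) :
    ∃ k, τ.wt (g k) ≤ ENNReal.ofReal ε := by
  have hsum : Summable fun i => RCLike.re ⟪τ.ξ i, (h : H →L[ℂ] H) (τ.ξ i)⟫_ℂ := by
    have h1 := ENNReal.summable_toReal (f := fun i => ENNReal.ofReal
      (RCLike.re ⟪τ.ξ i, (h : H →L[ℂ] H) (τ.ξ i)⟫_ℂ)) hfin.ne
    refine h1.congr fun i => ?_
    exact ENNReal.toReal_ofReal (S3W.quad_nonneg hh _)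
  have hle : ∀ {a b : VA M}, a ≤ b → ∀ ζ : H, RCLike.re ⟪ζ, (a : H →L[ℂ] H) ζ⟫_ℂ ≤
      RCLike.re ⟪ζ, (b : H →L[ℂ] H) ζ⟫_ℂ := by
    intro a b hab ζ
    have h1 : 0 ≤ b - a := sub_nonneg.mpr hab
    have h2 := S3W.quad_nonneg h1 ζ
    have h3 : ((b - a : VA M) : H →L[ℂ] H) = (b : H →L[ℂ] H) - (a : H →L[ℂ] H) := rfl
    rw [h3, _root_.sub_apply, inner_sub_right, map_sub] at h2
    linarith
  have ht : Tendsto (fun k => ∑' i, RCLike.re ⟪τ.ξ i, (g k : H →L[ℂ] H) (τ.ξ i)⟫_ℂ) atTop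
      (nhds (∑' _ : τ.ι, (0 : ℝ))) := by
    refine tendsto_tsum_of_dominated_convergence hsum (fun i => ?_)
      (Eventually.of_forall fun k i => ?_)
    · refine squeeze_zero (fun k => S3W.quad_nonneg (hg0 k) _)
        (g := fun k : ℕ => (1 : ℝ) / (k + 1) * ‖τ.ξ i‖ ^ 2) (fun k => ?_) ?_
      · refine (hle (hg' k) (τ.ξ i)).trans (le_of_eq ?_)
        generalize (1 : ℝ) / (k + 1) = c
        have h4 : ((c • (1 : VA M) : VA M) : H →L[ℂ] H) = c • (1 : H →L[ℂ] H) := rfl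
        rw [h4, _root_.smul_apply, one_apply_eq_self, inner_smul_right_eq_smul]
        have h5 : RCLike.re ⟪τ.ξ i, τ.ξ i⟫_ℂ = ‖τ.ξ i‖ ^ 2 := by
          rw [inner_self_eq_norm_sq]
        rw [← h5]
        simp
      · have := tendsto_one_div_add_atTop_nhds_zero_nat (𝕜 := ℝ)
        simpa using this.mul_const (‖τ.ξ i‖ ^ 2)
    · rw [Real.norm_of_nonneg (S3W.quad_nonneg (hg0 k) _)]
      exact hle (hg k) _
  rw [tsum_zero] at ht
  obtain ⟨k, hk⟩ := (ht.eventually (gt_mem_nhds hε)).exists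
  refine ⟨k, ?_⟩
  have hs' : Summable fun i => RCLike.re ⟪τ.ξ i, (g k : H →L[ℂ] H) (τ.ξ i)⟫_ℂ :=
    Summable.of_nonneg_of_le (fun i => S3W.quad_nonneg (hg0 k) _) (fun i => hle (hg k) _) hsum
  unfold SFTrace.wt vwt
  rw [← ENNReal.ofReal_tsum_of_nonneg (fun i => S3W.quad_nonneg (hg0 k) _) hs']
  exact ENNReal.ofReal_le_ofReal hk.le

/-- if `g` is a projection with `g e = e`, `e` a projection, then `e ≤ g`. -/
theorem s3d_proj_le {g e : VA M} (hg : IsStarProjection g) (he : IsStarProjection e)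
    (h : g * e = e) : e ≤ g := by
  have h1 : e * g = e := by
    have := congrArg star h
    rwa [star_mul, he.isSelfAdjoint.star_eq, hg.isSelfAdjoint.star_eq] at this
  have h2 : g - e = star (g - e) * (g - e) := by
    rw [star_sub, he.isSelfAdjoint.star_eq, hg.isSelfAdjoint.star_eq, sub_mul, mul_sub, mul_sub,
      hg.isIdempotentElem.eq, he.isIdempotentElem.eq, h, h1, sub_self, sub_zero]
  exact sub_nonneg.mp (h2 ▸ star_mul_self_nonneg _)

theorem dens_proj {f : VA M} (hf : IsStarProjection f) (hfin : τ.wt f < ⊤) {ε : ℝ} (hε : 0 < ε)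
    {e0 : VA M} (he0 : FinProj 𝓕 e0) :
    ∃ e : VA M, FinProj 𝓕 e ∧ e * e0 = e0 ∧ τ.wt (f * (1 - e) * f) ≤ ENNReal.ofReal ε := by
  have hf0 : 0 ≤ f := hf.nonneg
  set h : VA M := 𝓕.E 0 f with hh
  have hh0 : 0 ≤ h := 𝓕.E_nonneg 0 f hf0
  have hhfin : τ.wt h < ⊤ := by rw [hh, 𝓕.E_tr 0 f hf0]; exact hfin
  have hsa : IsSelfAdjoint (h : H →L[ℂ] H) := IsSelfAdjoint.of_nonneg (show 0 ≤ (h : H →L[ℂ] H) from hh0)
  have hcut : ∀ k : ℕ, ∃ e : VA M, FinProj 𝓕 e ∧ e * h = h * e ∧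
      (1 - e) * h * (1 - e) ≤ ((1 : ℝ) / (k + 1)) • (1 : VA M) := by
    intro k
    obtain ⟨hm, hc, hlo, hup⟩ := vn_cut (𝓕.N 0) (𝓕.E_mem 0 f) hsa ((1 : ℝ) / (k + 1))
    have hη : (0 : ℝ) < (1 : ℝ) / (k + 1) := by positivity
    set P := suppP (cfc (fun r : ℝ => max (r - (1 : ℝ) / (k + 1)) 0) (h : H →L[ℂ] H)) with hP
    have hPp : IsStarProjection P := suppP_proj _
    let e : VA M := ⟨P, 𝓕.le 0 hm⟩
    have he : IsStarProjection e :=
      ⟨Subtype.ext hPp.isIdempotentElem.eq, Subtype.ext hPp.isSelfAdjoint.star_eq⟩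
    have hlo' : ((1 : ℝ) / (k + 1)) • e ≤ e * h * e := hlo
    have hup' : (1 - e) * h * (1 - e) ≤ ((1 : ℝ) / (k + 1)) • (1 - e) := hup
    refine ⟨e, ⟨he, hm, ?_⟩, ?_, ?_⟩
    · have h1 := τ.wt_mono hlo'
      rw [τ.wt_smul hη.le] at h1
      have h2 := τ.wt_conj_le hh0 e
      rw [he.isSelfAdjoint.star_eq] at h2
      have h3 : ENNReal.ofReal ((1 : ℝ) / (k + 1)) * τ.wt e < ⊤ :=
        (h1.trans h2).trans_lt (ENNReal.mul_lt_top ENNReal.ofReal_lt_top hhfin)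
      rcases ENNReal.mul_lt_top_iff.mp h3 with h4 | h4 | h4
      · exact h4.2
      · exact absurd h4 (by simpa using hη)
      · rw [h4]; exact ENNReal.zero_lt_top
    · exact Subtype.ext (hc (h : H →L[ℂ] H) (Commute.refl _)).symm
    · refine hup'.trans ?_
      refine smul_le_smul_of_nonneg_left ?_ hη.le
      exact sub_le_self _ he.nonneg
  choose e he hcomm hup using hcut
  have hstar : ∀ k, star (1 - e k) = 1 - e k := fun k => by
    rw [star_sub, star_one, (he k).proj.isSelfAdjoint.star_eq]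
  have hg0 : ∀ k, 0 ≤ (1 - e k) * h * (1 - e k) := by
    intro k
    have := star_left_conjugate_nonneg hh0 (1 - e k)
    rwa [hstar k] at this
  have hg : ∀ k, (1 - e k) * h * (1 - e k) ≤ h := by
    intro k
    have h1 : h - (1 - e k) * h * (1 - e k) = e k * h * e k := by
      have h2 : e k * h * e k = e k * h := by
        rw [mul_assoc, ← hcomm k, ← mul_assoc, (he k).proj.isIdempotentElem.eq]
      have h3 : (1 - e k) * h * (1 - e k) = h - e k * h - h * e k + e k * h * e k := by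
        noncomm_ring
      rw [h3, h2, ← hcomm k]
      abel
    have h4 : 0 ≤ e k * h * e k := by
      have := star_left_conjugate_nonneg hh0 (e k)
      rwa [(he k).proj.isSelfAdjoint.star_eq] at this
    exact sub_nonneg.mp (h1 ▸ h4)
  obtain ⟨k, hk⟩ := s3d_small hh0 hhfin hg0 hg hup hε
  obtain ⟨g, hgF, hg1, hg2⟩ := (he k).join he0
  refine ⟨g, hgF, hg2, ?_⟩
  have h1 : f * (1 - g) * f ≤ f * (1 - e k) * f := by
    have h2 : 1 - g ≤ 1 - e k := sub_le_sub_left (s3d_proj_le hgF.proj (he k).proj hg1) _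
    have h3 := star_left_conjugate_le_conjugate h2 f
    rwa [hf.isSelfAdjoint.star_eq] at h3
  refine (τ.wt_mono h1).trans (le_trans (le_of_eq ?_) hk)
  have h4 : f * (1 - e k) * f = star ((1 - e k) * f) * ((1 - e k) * f) := by
    rw [star_mul, hstar k, hf.isSelfAdjoint.star_eq]
    have h5 : (1 - e k) * (1 - e k) = 1 - e k := (he k).proj.one_sub.isIdempotentElem.eq
    calc f * (1 - e k) * f = f * ((1 - e k) * (1 - e k)) * f := by rw [h5]
      _ = _ := by simp only [mul_assoc]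
  have h6 : (1 - e k) * f * star ((1 - e k) * f) = (1 - e k) * f * (1 - e k) := by
    rw [star_mul, hstar k, hf.isSelfAdjoint.star_eq]
    calc (1 - e k) * f * (f * (1 - e k)) = (1 - e k) * (f * f) * (1 - e k) := by
          simp only [mul_assoc]
      _ = _ := by rw [hf.isIdempotentElem.eq]
  have hm : ((1 - e k : VA M) : H →L[ℂ] H) ∈ 𝓕.N 0 := by
    have h7 : ((1 - e k : VA M) : H →L[ℂ] H) = 1 - (e k : H →L[ℂ] H) := rfl
    rw [h7]
    exact sub_mem (one_mem _) (he k).mem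
  have h8 : 0 ≤ (1 - e k) * f * (1 - e k) := by
    have := star_left_conjugate_nonneg hf0 (1 - e k)
    rwa [hstar k] at this
  rw [h4, τ.wt_comm, h6, ← 𝓕.E_tr 0 _ h8, 𝓕.E_mod 0 f _ _ hm hm]

/-- Cauchy-Schwarz estimate with `HS` bounds. -/
theorem s3d_cs {x y : VA M} (hx : τ.HS x) (hy : τ.HS y) {A B : ℝ} (hA : 0 ≤ A) (hB : 0 ≤ B)
    (h1 : τ.wt (x * star x) ≤ ENNReal.ofReal A) (h2 : τ.wt (star y * y) ≤ ENNReal.ofReal B) :
    ‖τ.tr (x * y)‖ ≤ Real.sqrt A * Real.sqrt B := by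
  refine (SFTrace.HS.norm_tr_le hx hy).trans ?_
  have h3 : (τ.wt (x * star x)).toReal ≤ A := ENNReal.toReal_le_of_le_ofReal hA h1
  have h4 : (τ.wt (star y * y)).toReal ≤ B := ENNReal.toReal_le_of_le_ofReal hB h2
  exact mul_le_mul (Real.sqrt_le_sqrt h3) (Real.sqrt_le_sqrt h4) (Real.sqrt_nonneg _)
    (Real.sqrt_nonneg _)

theorem s3d_norm_proj_le {e : VA M} (he : IsStarProjection e) : ‖e‖ ≤ 1 := by
  have h1 : ‖e‖ = ‖e‖ * ‖e‖ := by
    have h2 := CStarRing.norm_star_mul_self (x := e)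
    rwa [he.isSelfAdjoint.star_eq, he.isIdempotentElem.eq] at h2
  have h3 : 0 ≤ ‖e‖ := norm_nonneg e
  nlinarith [sq_nonneg (‖e‖ - 1)]

theorem s3d_norm_corner_le {e : VA M} (he : IsStarProjection e) (b : VA M) :
    ‖e * b * e‖ ≤ ‖b‖ := by
  have h1 := s3d_norm_proj_le he
  have h2 : ‖e * b * e‖ ≤ ‖e‖ * ‖b‖ * ‖e‖ :=
    (norm_mul_le _ _).trans (mul_le_mul_of_nonneg_right (norm_mul_le _ _) (norm_nonneg _))
  have h3 : ‖e‖ * ‖b‖ ≤ ‖b‖ := mul_le_of_le_one_left (norm_nonneg _) h1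
  have h4 : ‖e‖ * ‖b‖ * ‖e‖ ≤ ‖b‖ * 1 :=
    mul_le_mul h3 h1 (norm_nonneg _) (norm_nonneg _)
  linarith

/-- the two error terms in `dens`. -/
theorem s3d_tr_corner {a p e : VA M} (hp : IsStarProjection p) (hpf : τ.wt p < ⊤)
    (ha : p * a * p = a) (he : IsStarProjection e) {A δ : ℝ} (hA : 0 ≤ A) (hδ : 0 ≤ δ)
    (hAa : τ.wt (a * star a) ≤ ENNReal.ofReal A)
    (hw : τ.wt (p * (1 - e) * p) ≤ ENNReal.ofReal δ) (b : VA M) :
    ‖τ.tr (a * b) - τ.tr (a * (e * b * e))‖ ≤ 2 * (Real.sqrt A * (‖b‖ * Real.sqrt δ)) := by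
  have hfa : IsFin τ a := ⟨p, hp, hpf, ha⟩
  have hpp : p * p = p := hp.isIdempotentElem.eq
  have hps : star p = p := hp.isSelfAdjoint.star_eq
  have hap : a * p = a := by
    conv_lhs => rw [← ha]
    rw [mul_assoc, hpp, ha]
  have hpa : p * a = a := by
    conv_lhs => rw [← ha]
    rw [← mul_assoc, ← mul_assoc, hpp, ha]
  have hq : star (1 - e) = 1 - e := by
    rw [star_sub, star_one, he.isSelfAdjoint.star_eq]
  have hqq : (1 - e) * (1 - e) = 1 - e := he.one_sub.isIdempotentElem.eq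
  have hHp : τ.HS p := SFTrace.HS.of_proj hp hpf
  have hHa : τ.HS a := SFTrace.HS.of_fin hfa
  -- weight of the middle element
  have hmid : τ.wt ((1 - e) * p * (1 - e)) ≤ ENNReal.ofReal δ := by
    have h1 : (1 - e) * p * (1 - e) = (1 - e) * p * star ((1 - e) * p) := by
      rw [star_mul, hq, hps]
      calc (1 - e) * p * (1 - e) = (1 - e) * (p * p) * (1 - e) := by rw [hpp]
        _ = _ := by simp only [mul_assoc]
    have h2 : star ((1 - e) * p) * ((1 - e) * p) = p * (1 - e) * p := by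
      rw [star_mul, hq, hps]
      calc p * (1 - e) * ((1 - e) * p) = p * ((1 - e) * (1 - e)) * p := by
            simp only [mul_assoc]
        _ = _ := by rw [hqq]
    rw [h1, ← τ.wt_comm, h2]
    exact hw
  have hmid0 : 0 ≤ (1 - e) * p * (1 - e) := by
    have := star_left_conjugate_nonneg hp.nonneg (1 - e)
    rwa [hq] at this
  have hconj : ∀ c : VA M, ‖c‖ ≤ ‖b‖ →
      τ.wt (star c * ((1 - e) * p * (1 - e)) * c) ≤ ENNReal.ofReal (‖b‖ ^ 2 * δ) := by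
    intro c hc
    refine (τ.wt_conj_le hmid0 c).trans ?_
    rw [ENNReal.ofReal_mul (by positivity)]
    exact mul_le_mul' (ENNReal.ofReal_le_ofReal (pow_le_pow_left₀ (norm_nonneg _) hc 2)) hmid
  have hsq : Real.sqrt (‖b‖ ^ 2 * δ) = ‖b‖ * Real.sqrt δ := by
    rw [Real.sqrt_mul (by positivity), Real.sqrt_sq (norm_nonneg _)]
  have hBnn : 0 ≤ ‖b‖ ^ 2 * δ := by positivity
  -- first term
  have t1 : ‖τ.tr (a * (p * (1 - e) * b))‖ ≤ Real.sqrt A * (‖b‖ * Real.sqrt δ) := by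
    rw [← hsq]
    refine s3d_cs hHa ((hHp.mul_right (1 - e)).mul_right b) hA hBnn hAa ?_
    have h1 : star (p * (1 - e) * b) * (p * (1 - e) * b) =
        star b * ((1 - e) * p * (1 - e)) * b := by
      rw [star_mul, star_mul, hq, hps]
      calc star b * ((1 - e) * p) * (p * (1 - e) * b)
          = star b * ((1 - e) * (p * p) * (1 - e)) * b := by simp only [mul_assoc]
        _ = _ := by rw [hpp]
    rw [h1]
    exact hconj b le_rfl
  -- second term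
  have t2 : ‖τ.tr (e * b * (1 - e) * p * a)‖ ≤ Real.sqrt A * (‖b‖ * Real.sqrt δ) := by
    rw [mul_comm (Real.sqrt A), ← hsq]
    refine s3d_cs (hHp.mul_left (e * b * (1 - e))) hHa hBnn hA ?_ ?_
    · have h1 : e * b * (1 - e) * p * star (e * b * (1 - e) * p) =
          star (star (e * b)) * ((1 - e) * p * (1 - e)) * star (e * b) := by
        rw [star_star, star_mul (e * b * (1 - e)) p, star_mul (e * b) (1 - e), hq, hps]
        calc e * b * (1 - e) * p * (p * ((1 - e) * star (e * b)))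
            = e * b * ((1 - e) * (p * p) * (1 - e)) * star (e * b) := by simp only [mul_assoc]
          _ = _ := by rw [hpp]
      rw [h1]
      refine hconj (star (e * b)) ?_
      rw [norm_star]
      exact (norm_mul_le _ _).trans
        (mul_le_of_le_one_left (norm_nonneg _) (s3d_norm_proj_le he))
    · rw [τ.wt_comm]; exact hAa
  have e1 : τ.tr (a * b) - τ.tr (a * (e * b * e)) =
      τ.tr (a * (p * (1 - e) * b)) + τ.tr (e * b * (1 - e) * p * a) := by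
    have s1 : a * (p * (1 - e) * b) = a * ((1 - e) * b) := by
      rw [mul_assoc p, ← mul_assoc a p, hap]
    have s2 : e * b * (1 - e) * p * a = (e * b * (1 - e)) * a := by
      rw [mul_assoc (e * b * (1 - e)) p a, hpa]
    rw [s1, s2, IsFin.tr_comm hfa (e * b * (1 - e)),
      ← SFTrace.tr_add (hfa.tsum_mul' _) (hfa.tsum_mul' _),
      ← SFTrace.tr_sub (hfa.tsum_mul' _) (hfa.tsum_mul' _)]
    congr 1
    noncomm_ring
  rw [e1]
  refine (norm_add_le _ _).trans ?_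
  linarith

theorem dens {φ : VA M →L[ℂ] ℂ} (hφ : IsL1 τ φ) {ε : ℝ} (hε : 0 < ε) {e0 : VA M}
    (he0 : FinProj 𝓕 e0) :
    ∃ e : VA M, FinProj 𝓕 e ∧ e * e0 = e0 ∧ ∀ b : VA M, ‖φ b - φ (e * b * e)‖ ≤ ε * ‖b‖ := by
  obtain ⟨a, ⟨p, hp, hpf, ha⟩, hφa⟩ := hφ (ε / 4) (by positivity)
  have hfa : IsFin τ a := ⟨p, hp, hpf, ha⟩
  have hAfin : τ.wt (a * star a) < ⊤ := by
    rw [← τ.wt_comm]
    exact SFTrace.HS.of_fin hfa
  set A : ℝ := (τ.wt (a * star a)).toReal with hA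
  have hA0 : 0 ≤ A := ENNReal.toReal_nonneg
  have hAa : τ.wt (a * star a) ≤ ENNReal.ofReal A := by
    rw [hA, ENNReal.ofReal_toReal hAfin.ne]
  set δ : ℝ := (ε / 4) ^ 2 / (A + 1) with hδ
  have hδ0 : 0 < δ := by positivity
  obtain ⟨e, he, hee, hw⟩ := dens_proj (𝓕 := 𝓕) hp hpf hδ0 he0
  refine ⟨e, he, hee, fun b => ?_⟩
  have h1 := hφa b
  have h2 := hφa (e * b * e)
  have h3 := s3d_tr_corner hp hpf ha he.proj hA0 hδ0.le hAa hw b
  have h4 : Real.sqrt A * Real.sqrt δ ≤ ε / 4 := by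
    rw [← Real.sqrt_mul hA0]
    refine Real.sqrt_le_iff.mpr ⟨by positivity, ?_⟩
    rw [hδ, mul_div_assoc', div_le_iff₀ (by positivity)]
    nlinarith [sq_nonneg (ε / 4)]
  have h5 : Real.sqrt A * (‖b‖ * Real.sqrt δ) ≤ ε / 4 * ‖b‖ := by
    calc Real.sqrt A * (‖b‖ * Real.sqrt δ) = (Real.sqrt A * Real.sqrt δ) * ‖b‖ := by ring
      _ ≤ _ := mul_le_mul_of_nonneg_right h4 (norm_nonneg _)
  have h6 : ε / 4 * ‖e * b * e‖ ≤ ε / 4 * ‖b‖ :=
    mul_le_mul_of_nonneg_left (s3d_norm_corner_le he.proj b) (by positivity)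
  have h7 : φ b - φ (e * b * e) = (φ b - τ.tr (a * b)) +
      (τ.tr (a * b) - τ.tr (a * (e * b * e))) - (φ (e * b * e) - τ.tr (a * (e * b * e))) := by
    ring
  rw [h7]
  refine (norm_sub_le _ _).trans ?_
  have h8 := norm_add_le (φ b - τ.tr (a * b)) (τ.tr (a * b) - τ.tr (a * (e * b * e)))
  linarith

theorem dens_approx {φ : VA M →L[ℂ] ℂ} (hφ : IsL1 τ φ) {n : ℕ} (hn : ∀ b, φ (𝓕.E n b) = φ b)
    {ε : ℝ} (hε : 0 < ε) {e0 : VA M} (he0 : FinProj 𝓕 e0) :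
    ∃ e v : VA M, FinProj 𝓕 e ∧ e * e0 = e0 ∧ (v : H →L[ℂ] H) ∈ 𝓕.N n ∧ e * v * e = v ∧
      ∀ b : VA M, ‖φ b - τ.tr (v * b)‖ ≤ ε * ‖b‖ := by
  obtain ⟨e, he, hee, hd⟩ := dens (𝓕 := 𝓕) hφ (half_pos hε) he0
  obtain ⟨a, hfa, hφa⟩ := hφ (ε / 2) (half_pos hε)
  have hem := he.mem_n n
  have hidem : e * e = e := he.proj.isIdempotentElem.eq
  have hc : e * (e * a * e) * e = e * a * e := by
    rw [← mul_assoc, ← mul_assoc, hidem, mul_assoc, hidem]
  refine ⟨e, 𝓕.E n (e * a * e), he, hee, 𝓕.E_mem n _, 𝓕.E_corner he hc n, fun b => ?_⟩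
  have h1 : τ.tr (𝓕.E n (e * a * e) * b) = τ.tr (a * (e * 𝓕.E n b * e)) := by
    rw [𝓕.tr_E_comm he hc n b]
    have h2 : a * (e * 𝓕.E n b * e) = a * e * 𝓕.E n b * e := by simp only [mul_assoc]
    have h3 : e * a * e * 𝓕.E n b = e * (a * e * 𝓕.E n b) := by simp only [mul_assoc]
    have hfe : IsFin τ e := he.isFin (by rw [hidem, hidem])
    rw [h2, h3, IsFin.tr_comm hfe]
  have h4 : φ (e * b * e) = φ (e * 𝓕.E n b * e) := by
    rw [← hn (e * b * e), 𝓕.E_mod n b e e hem hem]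
  have h5 := hd b
  have h6 := hφa (e * 𝓕.E n b * e)
  have h7 : ε / 2 * ‖e * 𝓕.E n b * e‖ ≤ ε / 2 * ‖b‖ :=
    mul_le_mul_of_nonneg_left ((s3d_norm_corner_le he.proj _).trans (𝓕.norm_E_le n b))
      (by positivity)
  have h8 : φ b - τ.tr (𝓕.E n (e * a * e) * b) = (φ b - φ (e * b * e)) +
      (φ (e * 𝓕.E n b * e) - τ.tr (a * (e * 𝓕.E n b * e))) := by
    rw [h1, h4]; ring
  rw [h8]
  refine (norm_add_le _ _).trans ?_
  linarith

theorem FinProj.zero (𝓕 : SFiltr M τ) : FinProj 𝓕 (0 : VA M) := by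
  refine ⟨IsStarProjection.zero _, ?_, ?_⟩
  · exact zero_mem (𝓕.N 0).toStarSubalgebra
  · rw [τ.wt_zero]; exact ENNReal.zero_lt_top

end GD64
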