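import Pool.Agent.GD64.S3Cut
import Pool.Agent.GD64.S3Dens

/-!
# GD64/S3Cheb: Chebyshev inequality and bounded restrictions for operators of `L_1(N n)`

`chebL1`. By `dens_approx` choose `V_j ∈ N n` finite, `‖φ - tr (V_j ·)‖ ≤ δ 4^{-j-1}`; `w_0 = V_0`,
`w_{j+1} = V_{j+1} - V_j`: `|tr (w_j b)| ≤ 2 δ 4^{-j} ‖b‖`. `cheb1` for `w_j` with level `s 2^{-j-1}`: `q_j ∈ N n`,
`wt (1-q_j) ≤ 4 (δ/s) 2^{-j}`, sum `≤ 8 δ/s`; `1 - q` = join of the `1 - q_j` (`joinN`), `q_j q = q`,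
`‖w_j q‖ ≤ s 2^{-j-1}`; `a = ∑ w_j q` (norm convergent in the closed `N n`), `‖a‖ ≤ s`.
`φ (q b) = lim tr (V_j q b) = lim tr ((∑_{i ≤ j} w_i q) b) = tr (a b)` for finite `b` (`IsFin.norm_tr_le`).

`restr`: `V` finite, `‖φ - tr (V ·)‖ ≤ ε/2`; `chebL1` with `s` so large that `wt (1-q) ‖V‖ ≤ ε/2`:
`|φ b - φ (q b)| = |φ ((1-q) b)| ≤ ε/2 ‖b‖ + |tr (V (1-q) b)|`, `tr (V (1-q) b) = tr ((1-q) (b V) (1-q))`,
`≤ wt (1-q) ‖V‖ ‖b‖` (`IsFin.norm_tr_le` with `e = 1-q`). (If `φ = 0`-type bounds are needed: use `δ = ‖φ‖ + 1`.)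
-/

namespace GD64

open scoped ComplexOrder InnerProductSpace ENNReal
open Filter

universe u

variable {H : Type u} [NormedAddCommGroup H] [InnerProductSpace ℂ H] [CompleteSpace H]
  {M : VonNeumannAlgebra H} {τ : SFTrace M} {𝓕 : SFiltr M τ}

private theorem s3cheb_norm_proj_le {q : VA M} (hq : IsStarProjection q) : ‖q‖ ≤ 1 := by
  have h1 : ‖q‖ * ‖q‖ = ‖q‖ := by
    rw [← CStarRing.norm_star_mul_self, hq.isSelfAdjoint.star_eq, hq.isIdempotentElem.eq]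
  rcases (norm_nonneg q).eq_or_lt with h2 | h2
  · rw [← h2]; exact zero_le_one
  · exact le_of_eq (mul_right_cancel₀ h2.ne' (by rw [h1, one_mul]))

private theorem s3cheb_pow (j : ℕ) (δ s : ℝ) (hs : s ≠ 0) :
    2 * δ * (1 / 4 : ℝ) ^ j / (s * (1 / 2 : ℝ) ^ (j + 1)) = 4 * δ / s * (1 / 2 : ℝ) ^ j := by
  have h2 : ((1 / 4 : ℝ) ^ j) = (1 / 2 : ℝ) ^ j * (1 / 2 : ℝ) ^ j := by
    rw [← mul_pow]; norm_num
  have h3 : ((1 / 2 : ℝ) ^ j) ≠ 0 := by positivity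
  rw [h2, pow_succ]
  field_simp
  ring

theorem chebL1 {φ : VA M →L[ℂ] ℂ} (hφ : IsL1 τ φ) {n : ℕ} (hn : ∀ b, φ (𝓕.E n b) = φ b)
    {δ s : ℝ} (hδ : 0 < δ) (hs : 0 < s) (hle : ∀ b, ‖φ b‖ ≤ δ * ‖b‖) :
    ∃ q a : VA M, (q : H →L[ℂ] H) ∈ 𝓕.N n ∧ (a : H →L[ℂ] H) ∈ 𝓕.N n ∧ ‖a‖ ≤ s ∧
      RestrR τ φ q a ∧ τ.wt (1 - q) ≤ ENNReal.ofReal (8 * δ / s) := by
  -- the approximations
  have hV : ∀ j : ℕ, ∃ v : VA M, (v : H →L[ℂ] H) ∈ 𝓕.N n ∧ IsFin τ v ∧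
      ∀ b : VA M, ‖φ b - τ.tr (v * b)‖ ≤ δ * (1 / 4 : ℝ) ^ (j + 1) * ‖b‖ := by
    intro j
    obtain ⟨e, v, he, -, hv, hev, h⟩ := dens_approx (𝓕 := 𝓕) hφ hn
      (ε := δ * (1 / 4 : ℝ) ^ (j + 1)) (by positivity) (FinProj.zero 𝓕)
    exact ⟨v, hv, ⟨e, he.proj, he.fin, hev⟩, h⟩
  choose V hVN hVf hVφ using hV
  -- the differences
  obtain ⟨w, hw0, hws⟩ : ∃ w : ℕ → VA M, w 0 = V 0 ∧ ∀ j, w (j + 1) = V (j + 1) - V j :=
    ⟨fun j => match j with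
      | 0 => V 0
      | j + 1 => V (j + 1) - V j, rfl, fun _ => rfl⟩
  have hwN : ∀ j, (w j : H →L[ℂ] H) ∈ 𝓕.N n := by
    intro j
    cases j with
    | zero => rw [hw0]; exact hVN 0
    | succ j => rw [hws]; exact sub_mem (hVN (j + 1)) (hVN j)
  have hwf : ∀ j, IsFin τ (w j) := by
    intro j
    cases j with
    | zero => rw [hw0]; exact hVf 0
    | succ j => rw [hws]; exact (hVf (j + 1)).sub (hVf j)
  have hwle : ∀ j (b : VA M), ‖τ.tr (w j * b)‖ ≤ 2 * δ * (1 / 4 : ℝ) ^ j * ‖b‖ := by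
    intro j b
    cases j with
    | zero =>
      rw [hw0]
      have h1 := hVφ 0 b
      have h2 := hle b
      have h3 : ‖τ.tr (V 0 * b)‖ ≤ ‖φ b‖ + ‖φ b - τ.tr (V 0 * b)‖ := by
        have h4 := norm_sub_le (φ b) (φ b - τ.tr (V 0 * b))
        rwa [sub_sub_cancel] at h4
      have h5 : 0 ≤ δ * ‖b‖ := by positivity
      simp only [zero_add, pow_one, pow_zero, mul_one] at h1 ⊢
      nlinarith
    | succ j =>
      rw [hws, sub_mul, SFTrace.tr_sub ((hVf (j + 1)).tsum_mul' b) ((hVf j).tsum_mul' b)]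
      have h1 := hVφ j b
      have h2 := hVφ (j + 1) b
      have h3 : ‖τ.tr (V (j + 1) * b) - τ.tr (V j * b)‖ ≤
          ‖φ b - τ.tr (V j * b)‖ + ‖φ b - τ.tr (V (j + 1) * b)‖ := by
        have h4 := norm_sub_le (φ b - τ.tr (V j * b)) (φ b - τ.tr (V (j + 1) * b))
        rwa [sub_sub_sub_cancel_left] at h4
      have h5 : 0 ≤ δ * (1 / 4 : ℝ) ^ (j + 1) * ‖b‖ := by positivity
      have h6 : δ * (1 / 4 : ℝ) ^ (j + 1 + 1) * ‖b‖ = 1 / 4 * (δ * (1 / 4 : ℝ) ^ (j + 1) * ‖b‖) := by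
        rw [pow_succ _ (j + 1)]; ring
      have h7 : 2 * δ * (1 / 4 : ℝ) ^ (j + 1) * ‖b‖ = 2 * (δ * (1 / 4 : ℝ) ^ (j + 1) * ‖b‖) := by
        ring
      rw [h6] at h2
      rw [h7]
      linarith
  have hVsum : ∀ j, ∑ i ∈ Finset.range (j + 1), w i = V j := by
    intro j
    induction j with
    | zero => simp [hw0]
    | succ j ih => rw [Finset.sum_range_succ, ih, hws]; abel
  -- Chebyshev for each difference
  have hq : ∀ j, ∃ q : VA M, (q : H →L[ℂ] H) ∈ 𝓕.N n ∧ IsStarProjection q ∧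
      τ.wt (1 - q) ≤ ENNReal.ofReal (4 * δ / s * (1 / 2 : ℝ) ^ j) ∧
      ‖w j * q‖ ≤ s * (1 / 2 : ℝ) ^ (j + 1) := by
    intro j
    obtain ⟨q, h1, h2, h3, h4⟩ := cheb1 τ (𝓕.le n) (hwN j) (hwf j)
      (δ := 2 * δ * (1 / 4 : ℝ) ^ j) (s := s * (1 / 2 : ℝ) ^ (j + 1)) (by positivity)
      (by positivity) (hwle j)
    rw [s3cheb_pow j δ s hs.ne'] at h3
    exact ⟨q, h1, h2, h3, h4⟩
  choose q hqN hqp hqw hqn using hq
  have h1N : ((1 : VA M) : H →L[ℂ] H) ∈ 𝓕.N n := 𝓕.s3e_one_mem n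
  obtain ⟨g, hgN, hgp, hgf, hgw⟩ := τ.joinN (𝓕.le n) (f := fun j => 1 - q j)
    (fun j => sub_mem h1N (hqN j)) (fun j => (hqp j).one_sub)
  have hgs : star g = g := hgp.isSelfAdjoint.star_eq
  set p : VA M := 1 - g with hp
  have hpp : IsStarProjection p := hgp.one_sub
  have hpN : (p : H →L[ℂ] H) ∈ 𝓕.N n := sub_mem h1N hgN
  have hqp' : ∀ j, q j * p = p := by
    intro j
    have h1 := congrArg star (hgf j)
    rw [star_mul, hgs, star_sub, star_one, (hqp j).isSelfAdjoint.star_eq] at h1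
    have h2 : (1 - q j) * p = 0 := by rw [hp, mul_sub, mul_one, h1, sub_self]
    rw [sub_mul, one_mul, sub_eq_zero] at h2
    exact h2.symm
  have hwp : ∀ j, ‖w j * p‖ ≤ s * (1 / 2 : ℝ) ^ (j + 1) := by
    intro j
    have h1 : w j * p = w j * q j * p := by rw [mul_assoc, hqp']
    rw [h1]
    calc ‖w j * q j * p‖ ≤ ‖w j * q j‖ * ‖p‖ := norm_mul_le _ _
      _ ≤ ‖w j * q j‖ * 1 := mul_le_mul_of_nonneg_left (s3cheb_norm_proj_le hpp) (norm_nonneg _)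
      _ ≤ s * (1 / 2 : ℝ) ^ (j + 1) := by rw [mul_one]; exact hqn j
  have hgeo : HasSum (fun j : ℕ => s * (1 / 2 : ℝ) ^ (j + 1)) s := by
    have h1 := (hasSum_geometric_two.mul_left (s * (1 / 2)))
    have h2 : s * (1 / 2) * 2 = s := by ring
    have h3 : (fun j : ℕ => s * (1 / 2 : ℝ) ^ (j + 1)) = fun j : ℕ => s * (1 / 2) * (1 / 2 : ℝ) ^ j := by
      funext j
      rw [pow_succ]
      ring
    rw [h2] at h1
    rw [h3]
    exact h1
  have hsum : Summable fun j => w j * p := Summable.of_norm_bounded hgeo.summable hwp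
  have htend := hsum.hasSum.tendsto_sum_nat
  have htend' : Tendsto (fun j => V j * p) atTop (nhds (∑' j, w j * p)) := by
    have h1 := htend.comp (tendsto_add_atTop_nat 1)
    refine h1.congr fun j => ?_
    change ∑ i ∈ Finset.range (j + 1), w i * p = V j * p
    rw [← Finset.sum_mul, hVsum]
  refine ⟨p, ∑' j, w j * p, hpN, ?_, ?_, ⟨hpp, ?_⟩, ?_⟩
  · have h1 : Tendsto (fun j => ((V j * p : VA M) : H →L[ℂ] H)) atTop
        (nhds (((∑' j, w j * p : VA M)) : H →L[ℂ] H)) :=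
      (continuous_subtype_val.tendsto _).comp htend'
    have h2 := vnClosed (𝓕.N n)
    refine h2.mem_of_tendsto h1 (Eventually.of_forall fun j => ?_)
    exact mul_mem (hVN j) hpN
  · refine (norm_tsum_le_tsum_norm (Summable.of_nonneg_of_le (fun _ => norm_nonneg _) hwp
      hgeo.summable)).trans ?_
    rw [← hgeo.tsum_eq]
    exact Summable.tsum_le_tsum hwp (Summable.of_nonneg_of_le (fun _ => norm_nonneg _) hwp
      hgeo.summable) hgeo.summable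
  · intro b hb
    have hb2 := hb
    obtain ⟨e, he, hef, heb⟩ := hb
    have h1 : Tendsto (fun j => τ.tr (V j * p * b)) atTop (nhds (φ (p * b))) := by
      rw [tendsto_iff_norm_sub_tendsto_zero]
      refine squeeze_zero (g := fun j : ℕ => δ * (1 / 4 : ℝ) ^ (j + 1) * ‖p * b‖)
        (fun _ => norm_nonneg _) (fun j => ?_) ?_
      · rw [norm_sub_rev, mul_assoc]
        exact hVφ j (p * b)
      · have h2 : Tendsto (fun j : ℕ => (1 / 4 : ℝ) ^ (j + 1)) atTop (nhds 0) :=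
          (tendsto_pow_atTop_nhds_zero_of_lt_one (by norm_num) (by norm_num)).comp
            (tendsto_add_atTop_nat 1)
        have h3 := (h2.const_mul δ).mul_const ‖p * b‖
        simpa using h3
    have h2 : Tendsto (fun j => τ.tr (V j * p * b)) atTop
        (nhds (τ.tr ((∑' j, w j * p) * b))) := by
      rw [tendsto_iff_norm_sub_tendsto_zero]
      refine squeeze_zero
        (g := fun j : ℕ => (τ.wt e).toReal * ‖V j * p - ∑' j, w j * p‖ * ‖b‖)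
        (fun _ => norm_nonneg _) (fun j => ?_) ?_
      · rw [← SFTrace.tr_sub (hb2.tsum_mul _) (hb2.tsum_mul _), ← sub_mul]
        exact IsFin.norm_tr_le he hef heb _
      · have h3 := tendsto_iff_norm_sub_tendsto_zero.1 htend'
        have h4 := (h3.const_mul (τ.wt e).toReal).mul_const ‖b‖
        simpa using h4
    exact tendsto_nhds_unique h1 h2
  · have h1 : (1 : VA M) - p = g := by rw [hp]; abel
    rw [h1]
    refine hgw.trans ?_
    have h2 : HasSum (fun j : ℕ => 4 * δ / s * (1 / 2 : ℝ) ^ j) (8 * δ / s) := by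
      have h3 := hasSum_geometric_two.mul_left (4 * δ / s)
      have h4 : 4 * δ / s * 2 = 8 * δ / s := by ring
      rwa [h4] at h3
    rw [← h2.tsum_eq, ENNReal.ofReal_tsum_of_nonneg (fun j => by positivity) h2.summable]
    exact ENNReal.tsum_le_tsum hqw

theorem restr {φ : VA M →L[ℂ] ℂ} (hφ : IsL1 τ φ) {n : ℕ} (hn : ∀ b, φ (𝓕.E n b) = φ b)
    {ε : ℝ} (hε : 0 < ε) :
    ∃ q a : VA M, (q : H →L[ℂ] H) ∈ 𝓕.N n ∧ (a : H →L[ℂ] H) ∈ 𝓕.N n ∧ RestrR τ φ q a ∧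
      ∀ b : VA M, ‖φ b - φ (q * b)‖ ≤ ε * ‖b‖ := by
  obtain ⟨e, V, he, -, -, heV, hV⟩ := dens_approx (𝓕 := 𝓕) hφ hn (ε := ε / 2) (by positivity)
    (FinProj.zero 𝓕)
  have hVf : IsFin τ V := ⟨e, he.proj, he.fin, heV⟩
  set δ : ℝ := ‖φ‖ + 1 with hδ
  have hδ0 : 0 < δ := by positivity
  set s : ℝ := 16 * δ * (‖V‖ + 1) / ε with hs
  have hs0 : 0 < s := by positivity
  obtain ⟨q, a, hq, ha, -, hr, hw⟩ := chebL1 (𝓕 := 𝓕) hφ hn hδ0 hs0 (fun b =>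
    (φ.le_opNorm b).trans (mul_le_mul_of_nonneg_right (by rw [hδ]; linarith) (norm_nonneg b)))
  refine ⟨q, a, hq, ha, hr, fun b => ?_⟩
  have hqp : IsStarProjection (1 - q) := hr.1.one_sub
  have hfin : τ.wt (1 - q) < ⊤ := hw.trans_lt ENNReal.ofReal_lt_top
  have hqq : (1 - q) * (1 - q) = 1 - q := hqp.isIdempotentElem.eq
  have h1 : φ b - φ (q * b) = φ ((1 - q) * b) := by rw [← map_sub, sub_mul, one_mul]
  have h2 : ‖φ ((1 - q) * b) - τ.tr (V * ((1 - q) * b))‖ ≤ ε / 2 * ‖b‖ := by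
    refine (hV _).trans (mul_le_mul_of_nonneg_left ?_ (by positivity))
    calc ‖(1 - q) * b‖ ≤ ‖1 - q‖ * ‖b‖ := norm_mul_le _ _
      _ ≤ 1 * ‖b‖ := mul_le_mul_of_nonneg_right (s3cheb_norm_proj_le hqp) (norm_nonneg _)
      _ = ‖b‖ := one_mul _
  have hef : IsFin τ (1 - q) := ⟨1 - q, hqp, hfin, by rw [hqq, hqq]⟩
  have h3 : τ.tr (V * ((1 - q) * b)) = τ.tr (b * V * (1 - q)) := by
    rw [← hVf.tr_comm, mul_assoc (1 - q) b V, ← hef.tr_comm]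
  have h4 : ‖τ.tr (b * V * (1 - q))‖ ≤ ε / 2 * ‖b‖ := by
    have h5 := IsFin.norm_tr_le hqp hfin (b := 1 - q) (by rw [hqq, hqq]) (b * V)
    have h6 : (τ.wt (1 - q)).toReal ≤ 8 * δ / s := by
      have h7 := ENNReal.toReal_mono ENNReal.ofReal_ne_top hw
      rwa [ENNReal.toReal_ofReal (by positivity)] at h7
    have h8 : 8 * δ / s = ε / (2 * (‖V‖ + 1)) := by
      rw [hs]
      have : ‖V‖ + 1 ≠ 0 := by positivity
      field_simp
      ring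
    calc ‖τ.tr (b * V * (1 - q))‖ ≤ (τ.wt (1 - q)).toReal * ‖b * V‖ * ‖1 - q‖ := h5
      _ ≤ (τ.wt (1 - q)).toReal * (‖b‖ * ‖V‖) * 1 := by
          gcongr
          · exact norm_mul_le _ _
          · exact s3cheb_norm_proj_le hqp
      _ ≤ (ε / (2 * (‖V‖ + 1))) * (‖b‖ * (‖V‖ + 1)) := by
          rw [mul_one, ← h8]
          gcongr
          linarith
      _ = ε / 2 * ‖b‖ := by
          have : ‖V‖ + 1 ≠ 0 := by positivity
          field_simp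
  rw [h1]
  calc ‖φ ((1 - q) * b)‖ = ‖(φ ((1 - q) * b) - τ.tr (V * ((1 - q) * b))) +
        τ.tr (V * ((1 - q) * b))‖ := by rw [sub_add_cancel]
    _ ≤ ‖φ ((1 - q) * b) - τ.tr (V * ((1 - q) * b))‖ + ‖τ.tr (V * ((1 - q) * b))‖ :=
        norm_add_le _ _
    _ ≤ ε / 2 * ‖b‖ + ε / 2 * ‖b‖ := by rw [h3] at h2 ⊢; exact add_le_add h2 h4
    _ = ε * ‖b‖ := by ring

end GD64
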