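import Pool.Agent.GD64.VN

/-!
# GD64/VNOrd: the order of the C*-algebra `VA M`
-/

namespace GD64

open scoped ComplexOrder InnerProductSpace

universe u

variable {H : Type u} [NormedAddCommGroup H] [InnerProductSpace ℂ H] [CompleteSpace H]

/-- `VA M` is closed under the functional calculus of `B(H)`. -/
theorem cfc_mem_va_aux (M : VonNeumannAlgebra H) (f : ℝ → ℝ) {a : H →L[ℂ] H} (ha : a ∈ M) :
    cfc f a ∈ M := by
  have h : a ∈ M.toStarSubalgebra := ha
  have h2 : cfc f a ∈ M.toStarSubalgebra := cfc_mem (𝕜' := ℂ) f h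
  exact h2

/-- The order inherited from `B(H)` makes `VA M` a star ordered ring (square roots of positive
elements of `M` are in `M`, `StarOrderedRing.of_nonneg_iff'`). -/
instance vaStarOrdered (M : VonNeumannAlgebra H) : StarOrderedRing (VA M) := by
  refine StarOrderedRing.of_nonneg_iff' ?_ ?_
  · intro x y h z
    have h' : (x : H →L[ℂ] H) ≤ (y : H →L[ℂ] H) := h
    show ((z : H →L[ℂ] H) + (x : H →L[ℂ] H)) ≤ ((z : H →L[ℂ] H) + (y : H →L[ℂ] H))
    exact add_le_add_right h' _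
  · intro x
    constructor
    · intro hx
      have hx' : 0 ≤ (x : H →L[ℂ] H) := hx
      have hm : cfc (fun r : ℝ => Real.sqrt r) (x : H →L[ℂ] H) ∈ M :=
        cfc_mem_va_aux M _ x.2
      refine ⟨⟨cfc (fun r : ℝ => Real.sqrt r) (x : H →L[ℂ] H), hm⟩, ?_⟩
      apply Subtype.ext
      show (x : H →L[ℂ] H) = star (cfc (fun r : ℝ => Real.sqrt r) (x : H →L[ℂ] H)) *
        cfc (fun r : ℝ => Real.sqrt r) (x : H →L[ℂ] H)
      rw [(cfc_predicate (fun r : ℝ => Real.sqrt r) (x : H →L[ℂ] H)).star_eq, ← cfc_mul _ _ _]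
      have hsa : IsSelfAdjoint (x : H →L[ℂ] H) := IsSelfAdjoint.of_nonneg hx'
      conv_lhs => rw [← cfc_id ℝ (x : H →L[ℂ] H)]
      refine cfc_congr fun r hr => ?_
      have hr0 : 0 ≤ r := spectrum_nonneg_of_nonneg hx' hr
      exact (Real.mul_self_sqrt hr0).symm
    · rintro ⟨s, rfl⟩
      show 0 ≤ star (s : H →L[ℂ] H) * (s : H →L[ℂ] H)
      exact star_mul_self_nonneg _

/-- Continuous functional calculus in `VA M` and in `B(H)` agree. -/
theorem va_cfc (M : VonNeumannAlgebra H) (f : ℝ → ℝ) {a : VA M} (ha : IsSelfAdjoint a)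
    (hf : Continuous f) :
    ((cfc f a : VA M) : H →L[ℂ] H) = cfc f (a : H →L[ℂ] H) := by
  have h := StarAlgHom.map_cfc (R := ℝ) (S := ℂ) (M.toStarSubalgebra.subtype) f a
    hf.continuousOn continuous_subtype_val ha
    (ha.map (M.toStarSubalgebra.subtype))
  exact h

/-- `VA M` is closed under the functional calculus of `B(H)`. -/
theorem cfc_mem_va (M : VonNeumannAlgebra H) (f : ℝ → ℝ) {a : H →L[ℂ] H} (ha : a ∈ M)
    (hs : IsSelfAdjoint a) : cfc f a ∈ M := by
  have _ := hs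
  exact cfc_mem_va_aux M f ha

end GD64
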