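import Pool.Agent.GD64.VNTr
import Pool.Agent.GD64.VNOrd

/-!
# GD64/VNTF: a filtered finite von Neumann algebra is a `TF`, with weak limits
-/

namespace GD64

open scoped ComplexOrder InnerProductSpace
open Filter

universe u

variable {H : Type u} [NormedAddCommGroup H] [InnerProductSpace ℂ H] [CompleteSpace H]
  {M : VonNeumannAlgebra H} {τ : FinTrace M}

/-- trace of the adjoint, by polarisation. -/
theorem FinTrace.re_star (τ : FinTrace M) (a : VA M) : (τ.tr (star a)).re = (τ.tr a).re := by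
  have h1 := τ.tr_pos (a + Complex.I • 1)
  have h2 := τ.tr_pos a
  have h3 := τ.tr_pos (1 : VA M)
  have e1 : star (a + Complex.I • (1 : VA M)) * (a + Complex.I • (1 : VA M)) =
      star a * a + Complex.I • star a - Complex.I • a + star (1 : VA M) * 1 := by
    have h4 : star (a + Complex.I • (1 : VA M)) = star a - Complex.I • (1 : VA M) := by
      rw [star_add, star_smul, star_one]
      simp [sub_eq_add_neg]
    rw [h4, sub_mul, mul_add, mul_add, mul_smul_comm, smul_mul_assoc, mul_one, one_mul,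
      smul_mul_assoc, one_mul, smul_smul, Complex.I_mul_I, star_one, one_mul, neg_smul, one_smul]
    abel
  rw [e1, map_add, map_sub, map_add, map_smul, map_smul] at h1
  have i1 := (Complex.le_def.mp h1).2
  have i2 := (Complex.le_def.mp h2).2
  have i3 := (Complex.le_def.mp h3).2
  simp only [Complex.zero_im, Complex.add_im, Complex.sub_im, smul_eq_mul, Complex.mul_im,
    Complex.I_re, Complex.I_im, zero_mul, one_mul, zero_add] at i1 i2 i3
  linarith

theorem va_le_iff (a b : VA M) : a ≤ b ↔ (a : H →L[ℂ] H) ≤ (b : H →L[ℂ] H) := Iff.rfl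

theorem va_coe_smul (c : ℝ) (a : VA M) : ((c • a : VA M) : H →L[ℂ] H) = c • (a : H →L[ℂ] H) :=
  rfl

theorem exists_TF (𝓕 : Filtr M τ) :
    ∃ T : TF (VA M), (∀ a : VA M, T.t a = (τ.tr a).re) ∧ T.E = 𝓕.E ∧
      (∀ n (a : VA M), a ∈ T.F n ↔ (a : H →L[ℂ] H) ∈ 𝓕.N n) ∧ WLim T := by
  have hmemF : ∀ n (a : VA M), a ∈ StarSubalgebra.comap M.toStarSubalgebra.subtype
      (𝓕.N n).toStarSubalgebra ↔ (a : H →L[ℂ] H) ∈ 𝓕.N n := fun n a => Iff.rfl
  let T : TF (VA M) :=
    { t := { toFun := fun a => (τ.tr a).re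
             map_add' := fun a b => by rw [map_add, Complex.add_re]
             map_smul' := fun c a => by
               have h1 : c • a = (c : ℂ) • a := rfl
               rw [h1, map_smul]
               simp }
      t_comm := fun a b => by
        change (τ.tr (a * b)).re = (τ.tr (b * a)).re
        rw [τ.tr_comm]
      t_star := fun a => τ.re_star a
      t_pos := fun a => (Complex.le_def.mp (τ.tr_pos a)).1
      t_faith := fun a ha => by
        refine τ.tr_faithful a (Complex.ext ha ?_)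
        have := (Complex.le_def.mp (τ.tr_pos a)).2
        exact this.symm
      F := fun n => StarSubalgebra.comap M.toStarSubalgebra.subtype (𝓕.N n).toStarSubalgebra
      F_mono := fun m n hmn a ha => by
        have h1 : (a : H →L[ℂ] H) ∈ 𝓕.N m := (hmemF m a).mp ha
        exact (hmemF n a).mpr (𝓕.mono hmn h1)
      E := 𝓕.E
      E_mem := fun n a => (hmemF n _).mpr (𝓕.E_mem n a)
      E_spec := fun n a b hb => by
        have h1 : (b : H →L[ℂ] H) ∈ 𝓕.N n := (hmemF n b).mp hb
        change (τ.tr (𝓕.E n a * b)).re = (τ.tr (a * b)).re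
        rw [𝓕.E_tr n a b h1]
      cut := fun n v hv hs c => by
        have h1 : (v : H →L[ℂ] H) ∈ 𝓕.N n := (hmemF n v).mp hv
        have h2 : IsSelfAdjoint (v : H →L[ℂ] H) := congrArg Subtype.val hs
        obtain ⟨hm, hc, ha, hb⟩ := vn_cut (𝓕.N n) h1 h2 c
        refine ⟨⟨_, 𝓕.le n hm⟩, (hmemF n _).mpr hm, ?_, ?_, ?_, ?_⟩
        · exact ⟨Subtype.ext (suppP_proj _).isIdempotentElem.eq,
            Subtype.ext (suppP_proj _).isSelfAdjoint.star_eq⟩
        · intro x hx
          exact Subtype.ext (hc x (congrArg Subtype.val hx))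
        · exact ha
        · exact hb
      meet := fun n e f he hf hpe hpf => by
        obtain ⟨g, hg, hgp, h1, h2, h3, h4⟩ := τ.meet (𝓕.N n) (𝓕.le n) e f
          ((hmemF n e).mp he) ((hmemF n f).mp hf) hpe hpf
        exact ⟨g, (hmemF n g).mpr hg, hgp, h1, h2, h3, h4⟩ }
  refine ⟨T, fun a => rfl, rfl, hmemF, ?_⟩
  intro b hb
  obtain ⟨c, hc⟩ := hb
  obtain ⟨b', hb'⟩ := exists_wot_lim M b (C := c) hc
  refine ⟨b', fun x => ?_⟩
  have h1 : Tendsto (fun n => τ.tr (b n * x)) (hyperfilter ℕ : Filter ℕ)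
      (nhds (τ.tr (b' * x))) := by
    refine τ.tendsto (C := c * ‖(x : H →L[ℂ] H)‖) (fun n => ?_) (fun ξ η => ?_)
    · exact (norm_mul_le _ _).trans (mul_le_mul_of_nonneg_right (hc n) (norm_nonneg _))
    · exact hb' ξ ((x : H →L[ℂ] H) η)
  exact (Complex.continuous_re.tendsto _).comp h1

end GD64
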