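import Pool.Agent.GD64.S3E
import Pool.Agent.GD64.VNTF

/-!
# GD64/S3CornAlg: the finite von Neumann algebra `e M e + ℂ (1 - e)`

* `vnOf`: for a star closed set `X` the centralizer of `X` is a von Neumann algebra
  (`StarSubalgebra.centralizer ℂ X`, which is the centralizer of `X ∪ star X`; `Set.centralizer_centralizer_centralizer`).
* `exists_corner`: take `X = {m e : m ∈ M'} ∪ {(1-e) b (1-e)} ∪ {e}`. If `a` commutes with `X`: `a e = e a`; for `m ∈ M'`:
  `(a e) m = a (m e) = (m e) a = m (a e)`, so `a e ∈ M'' = M`; if `1 - e ≠ 0` take a unit vector `ζ` with `e ζ = 0` and `b` the rank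
  one operator `v ↦ ⟨ζ, v⟩ η`, `η = (1-e) η`: `a b ζ = b a ζ` gives `a η = ⟨ζ, a ζ⟩ η`, so `a (1-e) = c (1-e)` and
  `a = a e + c (1-e) ∈ M`. Converse: direct.
* `cornVec`: the vector `ζ`.
* `enum`: the vectors `e ξ_i` (`i : ι`), square summable, as a sequence: `∑' i, ⟨e ξ_i, a (e ξ_i)⟩ = ∑' n, ⟨f n, a (f n)⟩` for all
  bounded `a` (countable support of a summable family: `Summable.countable_support`).
-/

namespace GD64

open scoped ComplexOrder InnerProductSpace ENNReal
open Filter

universe u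

variable {H : Type u} [NormedAddCommGroup H] [InnerProductSpace ℂ H] [CompleteSpace H]

theorem exists_vnOf (X : Set (H →L[ℂ] H)) (hX : ∀ a ∈ X, star a ∈ X) :
    ∃ N : VonNeumannAlgebra H, ∀ a : H →L[ℂ] H, a ∈ N ↔ ∀ x ∈ X, x * a = a * x := by
  have hXs : X ∪ star X = X := by
    apply Set.union_eq_self_of_subset_right
    intro a ha
    have h1 := hX _ (Set.mem_star.mp ha)
    rwa [star_star] at h1
  have hc : ((StarSubalgebra.centralizer ℂ X : StarSubalgebra ℂ (H →L[ℂ] H)) :
      Set (H →L[ℂ] H)) = Set.centralizer X := by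
    rw [StarSubalgebra.coe_centralizer, hXs]
  refine ⟨⟨StarSubalgebra.centralizer ℂ X, ?_⟩, fun a => ?_⟩
  · change Set.centralizer (Set.centralizer ((StarSubalgebra.centralizer ℂ X :
      StarSubalgebra ℂ (H →L[ℂ] H)) : Set (H →L[ℂ] H))) = ((StarSubalgebra.centralizer ℂ X :
      StarSubalgebra ℂ (H →L[ℂ] H)) : Set (H →L[ℂ] H))
    rw [hc, Set.centralizer_centralizer_centralizer]
  · change a ∈ ((StarSubalgebra.centralizer ℂ X :
      StarSubalgebra ℂ (H →L[ℂ] H)) : Set (H →L[ℂ] H)) ↔ _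
    rw [hc]
    exact Set.mem_centralizer_iff

theorem cornVec {e : H →L[ℂ] H} (hp : IsStarProjection e) :
    ∃ ζ : H, e ζ = 0 ∧ (e ≠ 1 → ‖ζ‖ = 1) ∧ (e = 1 → ζ = 0) := by
  by_cases h1 : e = 1
  · exact ⟨0, map_zero _, fun h => absurd h1 h, fun _ => rfl⟩
  · have h2 : ∃ ξ : H, ξ - e ξ ≠ 0 := by
      by_contra h
      push Not at h
      apply h1
      ext ξ
      have := h ξ
      rw [one_apply_eq_self]
      exact (sub_eq_zero.mp this).symm
    obtain ⟨ξ, hξ⟩ := h2
    have hee : ∀ x, e (e x) = e x := fun x => by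
      have := congrArg (fun f : H →L[ℂ] H => f x) hp.isIdempotentElem.eq
      simpa using this
    refine ⟨((‖ξ - e ξ‖⁻¹ : ℝ) : ℂ) • (ξ - e ξ), ?_, fun _ => ?_, fun h => absurd h h1⟩
    · rw [map_smul, map_sub, hee, sub_self, smul_zero]
    · rw [norm_smul, Complex.norm_real, norm_inv, norm_norm]
      exact inv_mul_cancel₀ (norm_ne_zero_iff.mpr hξ)

theorem exists_corner (M : VonNeumannAlgebra H) {e : H →L[ℂ] H} (he : e ∈ M)
    (hp : IsStarProjection e) :
    ∃ C : VonNeumannAlgebra H, ∀ a : H →L[ℂ] H, a ∈ C ↔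
      (a ∈ M ∧ e * a = a * e ∧ ∃ c : ℂ, a * (1 - e) = c • (1 - e)) := by
  have hee : e * e = e := hp.isIdempotentElem.eq
  have hes : star e = e := hp.isSelfAdjoint.star_eq
  have hqq : (1 - e) * (1 - e) = 1 - e := by
    rw [mul_sub, mul_one, sub_mul, one_mul, hee, sub_self, sub_zero]
  have hqs : star (1 - e) = 1 - e := by rw [star_sub, star_one, hes]
  have heq : e * (1 - e) = 0 := by rw [mul_sub, mul_one, hee, sub_self]
  have hqe : (1 - e) * e = 0 := by rw [sub_mul, one_mul, hee, sub_self]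
  set X : Set (H →L[ℂ] H) :=
    {x | (∃ m ∈ M.commutant, x = m * e) ∨ (∃ b, x = (1 - e) * b * (1 - e)) ∨ x = e} with hXdef
  have hcomm : ∀ m ∈ M.commutant, e * m = m * e := fun m hm =>
    VonNeumannAlgebra.mem_commutant_iff.mp hm e he
  have hX : ∀ a ∈ X, star a ∈ X := by
    rintro a (⟨m, hm, rfl⟩ | ⟨b, rfl⟩ | rfl)
    · left
      have hm' : star m ∈ M.commutant := star_mem hm
      refine ⟨star m, hm', ?_⟩
      rw [star_mul, hes, hcomm _ hm']
    · right; left
      refine ⟨star b, ?_⟩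
      rw [star_mul, star_mul, hqs, mul_assoc]
    · right; right
      exact hes
  obtain ⟨C, hC⟩ := exists_vnOf X hX
  refine ⟨C, fun a => ?_⟩
  rw [hC]
  constructor
  · intro h
    have hea : e * a = a * e := h e (Or.inr (Or.inr rfl))
    -- a e ∈ M
    have hae : a * e ∈ M := by
      rw [← VonNeumannAlgebra.commutant_commutant M, VonNeumannAlgebra.mem_commutant_iff]
      intro m hm
      have h1 := h (m * e) (Or.inl ⟨m, hm, rfl⟩)
      -- (m e) a = a (m e)
      rw [← hea, ← mul_assoc, h1, hea, ← hcomm m hm, mul_assoc]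
    -- scalar on the complement
    have hsc : ∃ c : ℂ, a * (1 - e) = c • (1 - e) := by
      obtain ⟨ζ, hζ0, hζ1, hζ2⟩ := cornVec hp
      by_cases h1 : e = 1
      · refine ⟨0, ?_⟩
        rw [h1, sub_self, mul_zero, smul_zero]
      · refine ⟨⟪ζ, a ζ⟫_ℂ, ?_⟩
        have hn := hζ1 h1
        ext η
        set η' : H := (1 - e) η with hη'
        have hqη : (1 - e) η' = η' := by
          have := congrArg (fun f : H →L[ℂ] H => f η) hqq
          simpa [hη'] using this
        have hqζ : (1 - e) ζ = ζ := by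
          rw [sub_apply, hζ0, one_apply_eq_self, sub_zero]
        -- rank one operator
        let b : H →L[ℂ] H := (innerSL ℂ ζ).smulRight η'
        have hb : ∀ v, b v = ⟪ζ, v⟫_ℂ • η' := fun v => by
          simp [b, ContinuousLinearMap.smulRight_apply, innerSL_apply_apply]
        have h2 := h ((1 - e) * b * (1 - e)) (Or.inr (Or.inl ⟨b, rfl⟩))
        have h3 := congrArg (fun f : H →L[ℂ] H => f ζ) h2
        simp only [mul_apply_eq_comp] at h3
        have hqa : (1 - e) (a ζ) = a ζ := by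
          have h4 : (1 - e) * a = a * (1 - e) := by
            rw [sub_mul, mul_sub, one_mul, mul_one, hea]
          have h5 := congrArg (fun f : H →L[ℂ] H => f ζ) h4
          simp only [mul_apply_eq_comp] at h5
          rw [h5, hqζ]
        rw [hqa, hqζ, hb, hb, map_smul, hqη, inner_self_eq_norm_sq_to_K, hn] at h3
        simp only [Complex.coe_algebraMap, Complex.ofReal_one, one_pow, one_smul] at h3
        rw [mul_apply_eq_comp, smul_apply]
        rw [← hη']
        rw [hqη] at h3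
        exact h3.symm
    refine ⟨?_, hea, hsc⟩
    obtain ⟨c, hc⟩ := hsc
    have h1 : a = a * e + c • (1 - e) := by
      rw [← hc, ← mul_add, add_sub_cancel, mul_one]
    rw [h1]
    exact add_mem hae (M.toStarSubalgebra.smul_mem (sub_mem (one_mem M) he) c)
  · rintro ⟨haM, hea, c, hc⟩ x hx
    have hqa : (1 - e) * a = a * (1 - e) := by
      rw [sub_mul, mul_sub, one_mul, mul_one, hea]
    rcases hx with ⟨m, hm, rfl⟩ | ⟨b, rfl⟩ | rfl
    · have h1 := VonNeumannAlgebra.mem_commutant_iff.mp hm a haM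
      rw [mul_assoc, hea, ← mul_assoc, ← h1, mul_assoc]
    · calc (1 - e) * b * (1 - e) * a = (1 - e) * b * ((1 - e) * a) := by rw [mul_assoc]
        _ = (1 - e) * b * (c • (1 - e)) := by rw [hqa, hc]
        _ = c • ((1 - e) * b * (1 - e)) := by rw [mul_smul_comm]
        _ = (c • (1 - e)) * (b * (1 - e)) := by rw [smul_mul_assoc, mul_assoc]
        _ = a * (1 - e) * (b * (1 - e)) := by rw [hc]
        _ = a * ((1 - e) * b * (1 - e)) := by simp only [mul_assoc]
    · exact hea

theorem enum_vec {ι : Type u} (v : ι → H) (hv : Summable fun i => ‖v i‖ ^ 2) :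
    ∃ f : ℕ → H, (Summable fun n => ‖f n‖ ^ 2) ∧
      ∀ a : H →L[ℂ] H, ∑' i, ⟪v i, a (v i)⟫_ℂ = ∑' n, ⟪f n, a (f n)⟫_ℂ := by
  classical
  set S : Set ι := Function.support fun i => ‖v i‖ ^ 2 with hS
  have hcount : S.Countable := hv.countable_support
  have hvS : ∀ i, i ∉ S → v i = 0 := by
    intro i hi
    have := Function.notMem_support.mp hi
    simpa using this
  have : Countable S := hcount.to_subtype
  obtain ⟨g, hg⟩ := exists_injective_nat S
  -- g : S → ℕ injective
  let f : ℕ → H := fun n => if h : ∃ i : S, g i = n then v (h.choose : ι) else 0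
  have hfg : ∀ i : S, f (g i) = v i := by
    intro i
    have h : ∃ j : S, g j = g i := ⟨i, rfl⟩
    have h1 : h.choose = i := hg h.choose_spec
    simp only [f, dif_pos h, h1]
  have hf0 : ∀ n, n ∉ Set.range g → f n = 0 := by
    intro n hn
    have h : ¬ ∃ i : S, g i = n := fun ⟨i, hi⟩ => hn ⟨i, hi⟩
    simp only [f, dif_neg h]
  refine ⟨f, ?_, fun a => ?_⟩
  · rw [← hg.summable_iff (f := fun n => ‖f n‖ ^ 2)]
    · have h1 : ((fun n => ‖f n‖ ^ 2) ∘ g) = fun i : S => ‖v i‖ ^ 2 := by
        funext i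
        simp only [Function.comp_apply, hfg]
      rw [h1]
      exact hv.subtype S
    · intro n hn
      change ‖f n‖ ^ 2 = 0
      rw [hf0 n hn]; simp
  · have e1 : ∑' i : S, ⟪v i, a (v i)⟫_ℂ = ∑' i, ⟪v i, a (v i)⟫_ℂ := by
      refine tsum_subtype_eq_of_support_subset (f := fun i => ⟪v i, a (v i)⟫_ℂ) ?_
      intro i hi
      by_contra hn
      apply hi
      change ⟪v i, a (v i)⟫_ℂ = 0
      rw [hvS i hn]; simp
    have e2 : ∑' i : S, ⟪f (g i), a (f (g i))⟫_ℂ = ∑' n, ⟪f n, a (f n)⟫_ℂ := by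
      refine hg.tsum_eq (f := fun n => ⟪f n, a (f n)⟫_ℂ) ?_
      intro n hn
      by_contra h
      apply hn
      change ⟪f n, a (f n)⟫_ℂ = 0
      rw [hf0 n h]; simp
    rw [← e1, ← e2]
    exact tsum_congr fun i => by rw [hfg]

end GD64
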