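import Pool.Agent.GD64.S3CornAlg

/-!
# GD64/S3CornTF: the tracial algebra of a finite corner

`exists_cornTF`. `C` = corner algebra of `M` at `e` (`exists_corner`), `C_n` = corner algebra of `N n` at `e` (`e ∈ N 0 ≤ N n`; so
`C_n ≤ C` and `C_n` is increasing: by the membership criterion). For `a ∈ C`: `a = e a e + c (1-e)`.
`FinTrace C`: `tr a = τ.tr (e a e) + ⟨ζ, a ζ⟩` (`cornVec`). Linear: `e a e` is finite. `tr_comm`: `e a b e = (e a e)(e b e)`, `HS.tr_comm`;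
`b ζ = c_b ζ` (since `(1-e) ζ = ζ`), so `⟨ζ, a b ζ⟩ = c_a c_b ‖ζ‖²`. `tr_pos`: `tr (a* a) = wt ((a e)* (a e)) + ‖a ζ‖²`.
`tr_faithful`: both terms vanish; `a e = 0` by faithfulness; if `e ≠ 1`, `c_a ζ = a ζ = 0` gives `c_a = 0`, `a (1-e) = 0`.
`tr_normal`: `τ.tr (e a e) = ∑ ⟨e ξ_i, a (e ξ_i)⟩`, `enum_vec`, and the vector `ζ` in front (`Nat.casesOn`, `tsum_eq_zero_add`).
`Filtr C`: `E n a = 𝓕.E n a`, in `C_n` since `E n (a (1-e)) = E n a (1-e)`, etc.; `E_tr`: for `b ∈ C_n`: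
`τ.tr (e (E n a) b e) = τ.tr (e (E n a) (b e)) = τ.tr (e a (b e))` (`tr_E_conj`, `x = e`, `y = b e ∈ N n`), and `c_{E n a} = c_a`
if `e ≠ 1` (if `e = 1` then `ζ = 0`).
Then `exists_TF` (VNTF) gives `T` with `T.t a = re (tr a)`, `WLim T`. `j : VA C → VA M` is the inclusion.
The statement below lists everything that is used later.
-/

namespace GD64

open scoped ComplexOrder InnerProductSpace ENNReal
open Filter

universe u

variable {H : Type u} [NormedAddCommGroup H] [InnerProductSpace ℂ H] [CompleteSpace H]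
  {M : VonNeumannAlgebra H} {τ : SFTrace M}

/-- the corner condition -/
def CornC (M : VonNeumannAlgebra H) (e : H →L[ℂ] H) (C : VonNeumannAlgebra H) : Prop :=
  ∀ a : H →L[ℂ] H, a ∈ C ↔ (a ∈ M ∧ e * a = a * e ∧ ∃ c : ℂ, a * (1 - e) = c • (1 - e))

/-- the inclusion of the corner algebra -/
def cj {C M : VonNeumannAlgebra H} (hC : C ≤ M) (a : VA C) : VA M := ⟨a, hC a.2⟩

section

variable {C : VonNeumannAlgebra H} (hC : C ≤ M)

theorem cj_add (a b : VA C) : cj hC (a + b) = cj hC a + cj hC b := rfl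

theorem cj_mul (a b : VA C) : cj hC (a * b) = cj hC a * cj hC b := rfl

theorem cj_smul (c : ℂ) (a : VA C) : cj hC (c • a) = c • cj hC a := rfl

theorem cj_star (a : VA C) : cj hC (star a) = star (cj hC a) := rfl

variable {e : VA M}

theorem cj_comm (hcc : CornC M (e : H →L[ℂ] H) C) (a : VA C) : e * cj hC a = cj hC a * e :=
  Subtype.ext ((hcc a).1 a.2).2.1

theorem isFin_conj (he : IsStarProjection e) (hf : τ.wt e < ⊤) (x : VA M) :
    IsFin τ (e * x * e) := by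
  refine ⟨e, he, hf, ?_⟩
  have h := he.isIdempotentElem.eq
  rw [← mul_assoc, ← mul_assoc, h, mul_assoc, h]

theorem conj_mul (he : IsStarProjection e) (hcc : CornC M (e : H →L[ℂ] H) C) (a b : VA C) :
    e * cj hC (a * b) * e = e * cj hC a * e * (e * cj hC b * e) := by
  have h := he.isIdempotentElem.eq
  have h1 := cj_comm hC hcc a
  have h2 := cj_comm hC hcc b
  rw [cj_mul]
  calc e * (cj hC a * cj hC b) * e = e * cj hC a * (cj hC b * e) := by simp only [mul_assoc]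
    _ = e * cj hC a * (e * e * cj hC b * e) := by
        rw [h, h2, mul_assoc (cj hC b) e e, h]
    _ = _ := by simp only [mul_assoc]

omit [CompleteSpace H] in
theorem corn_zeta {e a : H →L[ℂ] H} {c : ℂ} {ζ : H} (hζ : e ζ = 0)
    (h : a * (1 - e) = c • (1 - e)) : a ζ = c • ζ := by
  have h1 := congrArg (fun f : H →L[ℂ] H => f ζ) h
  simpa [hζ] using h1

end

/-- the trace of the corner algebra -/
noncomputable def cornTr {C : VonNeumannAlgebra H} (hC : C ≤ M) {e : VA M}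
    (he : IsStarProjection e) (hf : τ.wt e < ⊤) (ζ : H) : VA C →ₗ[ℂ] ℂ where
  toFun a := τ.tr (e * cj hC a * e) + ⟪ζ, (a : H →L[ℂ] H) ζ⟫_ℂ
  map_add' a b := by
    have h1 : e * cj hC (a + b) * e = e * cj hC a * e + e * cj hC b * e := by
      rw [cj_add, mul_add, add_mul]
    rw [h1, SFTrace.tr_add (isFin_conj he hf _).tsum (isFin_conj he hf _).tsum]
    have h2 : ((a + b : VA C) : H →L[ℂ] H) ζ = (a : H →L[ℂ] H) ζ + (b : H →L[ℂ] H) ζ := rfl
    rw [h2, inner_add_right]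
    ring
  map_smul' c a := by
    have h1 : e * cj hC (c • a) * e = c • (e * cj hC a * e) := by
      rw [cj_smul, mul_smul_comm, smul_mul_assoc]
    rw [h1, SFTrace.tr_smul]
    have h2 : ((c • a : VA C) : H →L[ℂ] H) ζ = c • (a : H →L[ℂ] H) ζ := rfl
    rw [h2, inner_smul_right, RingHom.id_apply, smul_eq_mul]
    ring

theorem cornTr_apply {C : VonNeumannAlgebra H} (hC : C ≤ M) {e : VA M}
    (he : IsStarProjection e) (hf : τ.wt e < ⊤) (ζ : H) (a : VA C) :
    cornTr hC he hf ζ a = τ.tr (e * cj hC a * e) + ⟪ζ, (a : H →L[ℂ] H) ζ⟫_ℂ := rfl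

theorem va_proj_coe {e : VA M} (he : IsStarProjection e) : IsStarProjection (e : H →L[ℂ] H) :=
  ⟨congrArg Subtype.val he.isIdempotentElem.eq, congrArg Subtype.val he.isSelfAdjoint.star_eq⟩

theorem cornTr_pos_aux {C : VonNeumannAlgebra H} (hC : C ≤ M) {e : VA M}
    (he : IsStarProjection e) (hf : τ.wt e < ⊤) (ζ : H) (a : VA C) :
    cornTr hC he hf ζ (star a * a) =
      (((τ.wt (star (cj hC a * e) * (cj hC a * e))).toReal + ‖(a : H →L[ℂ] H) ζ‖ ^ 2 : ℝ) : ℂ) := by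
  have h1 : e * cj hC (star a * a) * e = star (cj hC a * e) * (cj hC a * e) := by
    rw [cj_mul, cj_star, star_mul, he.isSelfAdjoint.star_eq]
    simp only [mul_assoc]
  have h2 : τ.HS (cj hC a * e) := (SFTrace.HS.of_proj he hf).mul_left _
  have h3 := (SFTrace.tr_of_nonneg (star_mul_self_nonneg (cj hC a * e)) h2).2
  have h4 : ⟪ζ, ((star a * a : VA C) : H →L[ℂ] H) ζ⟫_ℂ = ((‖(a : H →L[ℂ] H) ζ‖ ^ 2 : ℝ) : ℂ) := by
    have : ((star a * a : VA C) : H →L[ℂ] H) ζ =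
        ContinuousLinearMap.adjoint (a : H →L[ℂ] H) ((a : H →L[ℂ] H) ζ) := rfl
    rw [this, ContinuousLinearMap.adjoint_inner_right, inner_self_eq_norm_sq_to_K]
    push_cast
    rfl
  rw [cornTr_apply, h1, h3, h4, Complex.ofReal_add]

theorem corn_normal (τ : SFTrace M) {C : VonNeumannAlgebra H} (hC : C ≤ M) {e : VA M}
    (he : IsStarProjection e) (hf : τ.wt e < ⊤) (ζ : H) :
    ∃ ξ η : ℕ → H, Summable (fun i => ‖ξ i‖ ^ 2) ∧ Summable (fun i => ‖η i‖ ^ 2) ∧
      ∀ a : VA C, cornTr hC he hf ζ a = ∑' i, ⟪ξ i, (a : H →L[ℂ] H) (η i)⟫_ℂ := by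
  have hpe := va_proj_coe he
  have hsym : ∀ x y : H, ⟪x, (e : H →L[ℂ] H) y⟫_ℂ = ⟪(e : H →L[ℂ] H) x, y⟫_ℂ := by
    intro x y
    have h1 : ContinuousLinearMap.adjoint (e : H →L[ℂ] H) = (e : H →L[ℂ] H) :=
      hpe.isSelfAdjoint.star_eq
    conv_lhs => rw [← h1]
    rw [ContinuousLinearMap.adjoint_inner_right]
  have hidem : ∀ x : H, (e : H →L[ℂ] H) ((e : H →L[ℂ] H) x) = (e : H →L[ℂ] H) x := by
    intro x
    exact congrArg (fun f : H →L[ℂ] H => f x) hpe.isIdempotentElem.eq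
  have hs1 : Summable fun i => ‖(e : H →L[ℂ] H) (τ.ξ i)‖ ^ 2 := by
    have h1 := (SFTrace.tr_of_nonneg he.nonneg hf).1
    have h2 : (fun i => ⟪τ.ξ i, (e : H →L[ℂ] H) (τ.ξ i)⟫_ℂ) =
        fun i => ((‖(e : H →L[ℂ] H) (τ.ξ i)‖ ^ 2 : ℝ) : ℂ) := by
      funext i
      conv_lhs => rw [← hidem]
      rw [hsym, inner_self_eq_norm_sq_to_K]
      push_cast
      rfl
    rw [TSum, h2] at h1
    exact Complex.summable_ofReal.1 h1
  obtain ⟨f, hf1, hf2⟩ := enum_vec (fun i => (e : H →L[ℂ] H) (τ.ξ i)) hs1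
  set F : ℕ → H := fun n => Nat.casesOn n ζ f with hF
  have hF0 : F 0 = ζ := rfl
  have hFs : ∀ n, F (n + 1) = f n := fun n => rfl
  have hsF : Summable fun i => ‖F i‖ ^ 2 := by
    rw [← summable_nat_add_iff 1]
    exact hf1
  refine ⟨F, F, hsF, hsF, fun a => ?_⟩
  have hsum : Summable fun i => ⟪F i, (a : H →L[ℂ] H) (F i)⟫_ℂ := by
    refine Summable.of_norm_bounded (g := fun i => ‖(a : H →L[ℂ] H)‖ * ‖F i‖ ^ 2)
      (hsF.mul_left _) fun i => ?_
    calc ‖⟪F i, (a : H →L[ℂ] H) (F i)⟫_ℂ‖ ≤ ‖F i‖ * ‖(a : H →L[ℂ] H) (F i)‖ :=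
          norm_inner_le_norm _ _
      _ ≤ ‖F i‖ * (‖(a : H →L[ℂ] H)‖ * ‖F i‖) :=
          mul_le_mul_of_nonneg_left ((a : H →L[ℂ] H).le_opNorm _) (norm_nonneg _)
      _ = _ := by ring
  rw [hsum.tsum_eq_zero_add, hF0]
  simp only [hFs]
  rw [← hf2 (a : H →L[ℂ] H), cornTr_apply, add_comm]
  congr 1
  rw [SFTrace.tr]
  refine tsum_congr fun i => ?_
  have h1 : ((e * cj hC a * e : VA M) : H →L[ℂ] H) (τ.ξ i) =
      (e : H →L[ℂ] H) ((a : H →L[ℂ] H) ((e : H →L[ℂ] H) (τ.ξ i))) := rfl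
  rw [h1, hsym]

theorem exists_cornTF (𝓕 : SFiltr M τ) {e : VA M} (he : FinProj 𝓕 e) :
    ∃ (C : VonNeumannAlgebra H) (hC : C ≤ M) (T : TF (VA C)) (ζ : H),
      WLim T ∧ (e : H →L[ℂ] H) ζ = 0 ∧
      (∀ a : H →L[ℂ] H, a ∈ C ↔ (a ∈ M ∧ (e : H →L[ℂ] H) * a = a * (e : H →L[ℂ] H) ∧
        ∃ c : ℂ, a * (1 - (e : H →L[ℂ] H)) = c • (1 - (e : H →L[ℂ] H)))) ∧
      (∀ a : VA C, T.t a = (τ.tr (e * (⟨a, hC a.2⟩ : VA M) * e)).re +
        RCLike.re ⟪ζ, (a : H →L[ℂ] H) ζ⟫_ℂ) ∧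
      (∀ n (a : VA C), a ∈ T.F n ↔ (a : H →L[ℂ] H) ∈ 𝓕.N n) ∧
      (∀ n (a : VA C), ((T.E n a : VA C) : H →L[ℂ] H) =
        ((𝓕.E n (⟨a, hC a.2⟩ : VA M) : VA M) : H →L[ℂ] H)) := by
  have hpe := va_proj_coe he.proj
  obtain ⟨C, hcc⟩ := exists_corner M e.2 hpe
  choose Cn hcn using fun n => exists_corner (𝓕.N n) (he.mem_n n) hpe
  obtain ⟨ζ, hζ, hζ1, hζ2⟩ := cornVec hpe
  have hC : C ≤ M := fun a ha => ((hcc a).1 ha).1
  have hCnC : ∀ n, Cn n ≤ C := fun n a ha => by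
    obtain ⟨h1, h2⟩ := (hcn n a).1 ha
    exact (hcc a).2 ⟨𝓕.le n h1, h2⟩
  -- the trace
  let τC : FinTrace C :=
    { tr := cornTr hC he.proj he.fin ζ
      tr_comm := fun a b => by
        rw [cornTr_apply, cornTr_apply, conj_mul hC he.proj hcc, conj_mul hC he.proj hcc,
          (isFin_conj he.proj he.fin (cj hC b)).tr_comm]
        congr 1
        obtain ⟨ca, hca⟩ := ((hcc a).1 a.2).2.2
        obtain ⟨cb, hcb⟩ := ((hcc b).1 b.2).2.2
        have h1 : (a : H →L[ℂ] H) ζ = ca • ζ := corn_zeta hζ hca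
        have h2 : (b : H →L[ℂ] H) ζ = cb • ζ := corn_zeta hζ hcb
        have h3 : ((a * b : VA C) : H →L[ℂ] H) ζ = (a : H →L[ℂ] H) ((b : H →L[ℂ] H) ζ) := rfl
        have h4 : ((b * a : VA C) : H →L[ℂ] H) ζ = (b : H →L[ℂ] H) ((a : H →L[ℂ] H) ζ) := rfl
        rw [h3, h4, h1, h2, map_smul, map_smul, h1, h2, smul_smul, smul_smul, mul_comm]
      tr_pos := fun a => by
        rw [cornTr_pos_aux, Complex.zero_le_real]
        positivity
      tr_faithful := fun a h => by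
        rw [cornTr_pos_aux] at h
        have h1 : (τ.wt (star (cj hC a * e) * (cj hC a * e))).toReal +
            ‖(a : H →L[ℂ] H) ζ‖ ^ 2 = 0 := by exact_mod_cast h
        have h2 : 0 ≤ (τ.wt (star (cj hC a * e) * (cj hC a * e))).toReal :=
          ENNReal.toReal_nonneg
        have h3 : 0 ≤ ‖(a : H →L[ℂ] H) ζ‖ ^ 2 := by positivity
        have h4 : (τ.wt (star (cj hC a * e) * (cj hC a * e))).toReal = 0 := by linarith
        have h5 : ‖(a : H →L[ℂ] H) ζ‖ ^ 2 = 0 := by linarith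
        have h6 : τ.HS (cj hC a * e) := (SFTrace.HS.of_proj he.proj he.fin).mul_left _
        have h7 : τ.wt (star (cj hC a * e) * (cj hC a * e)) = 0 := by
          rcases (ENNReal.toReal_eq_zero_iff _).1 h4 with h | h
          · exact h
          · exact absurd h h6.ne
        have h8 : star (cj hC a * e) * (cj hC a * e) = 0 :=
          τ.eq_zero_of_wt (star_mul_self_nonneg _) h7
        have h9 : cj hC a * e = 0 := (CStarRing.star_mul_self_eq_zero_iff _).1 h8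
        have h9' : (a : H →L[ℂ] H) * (e : H →L[ℂ] H) = 0 := congrArg Subtype.val h9
        have h10 : (a : H →L[ℂ] H) ζ = 0 := by
          rw [← norm_eq_zero]
          exact pow_eq_zero_iff (two_ne_zero) |>.1 h5
        have h11 : (a : H →L[ℂ] H) = 0 := by
          by_cases h12 : (e : H →L[ℂ] H) = 1
          · rw [h12, mul_one] at h9'
            exact h9'
          · obtain ⟨ca, hca⟩ := ((hcc a).1 a.2).2.2
            have h13 : (a : H →L[ℂ] H) ζ = ca • ζ := corn_zeta hζ hca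
            have h14 : ζ ≠ 0 := by
              intro h0
              have := hζ1 h12
              rw [h0, norm_zero] at this
              exact zero_ne_one this
            rw [h10] at h13
            have h15 : ca = 0 := by
              rcases smul_eq_zero.1 h13.symm with h | h
              · exact h
              · exact absurd h h14
            rw [h15, zero_smul, mul_sub, mul_one, h9', sub_zero] at hca
            exact hca
        exact Subtype.ext h11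
      tr_normal := corn_normal τ hC he.proj he.fin ζ }
  -- conditional expectations
  have hEC : ∀ n (a : H →L[ℂ] H) (ha : a ∈ C), ∀ c : ℂ,
      a * (1 - (e : H →L[ℂ] H)) = c • (1 - (e : H →L[ℂ] H)) →
      ((𝓕.E n (⟨a, hC ha⟩ : VA M) : VA M) : H →L[ℂ] H) * (1 - (e : H →L[ℂ] H)) =
        c • (1 - (e : H →L[ℂ] H)) := by
    intro n a ha c hc
    have hen : (e : H →L[ℂ] H) ∈ 𝓕.N n := he.mem_n n
    have h1 : ((1 - e : VA M) : H →L[ℂ] H) ∈ 𝓕.N n := sub_mem (one_mem (𝓕.N n)) hen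
    have h2 : (⟨a, hC ha⟩ : VA M) * (1 - e) = c • (1 - e) := Subtype.ext hc
    have h3 := 𝓕.E_mul_right h1 (⟨a, hC ha⟩ : VA M)
    rw [h2, map_smul, 𝓕.E_of_mem h1] at h3
    exact (congrArg Subtype.val h3).symm
  have hEmem : ∀ n (a : VA C),
      ((𝓕.E n (⟨a, hC a.2⟩ : VA M) : VA M) : H →L[ℂ] H) ∈ Cn n := by
    intro n a
    have hen : (e : H →L[ℂ] H) ∈ 𝓕.N n := he.mem_n n
    refine (hcn n _).2 ⟨𝓕.E_mem n _, ?_, ?_⟩
    · have h1 := cj_comm hC hcc a
      have h2 := 𝓕.E_mul_left hen (cj hC a)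
      have h3 := 𝓕.E_mul_right hen (cj hC a)
      rw [h1] at h2
      exact congrArg Subtype.val (h2.symm.trans h3)
    · obtain ⟨c, hc⟩ := ((hcc a).1 a.2).2.2
      exact ⟨c, hEC n a a.2 c hc⟩
  let 𝓕C : Filtr C τC :=
    { N := Cn
      mono := fun m n hmn a ha => by
        obtain ⟨h1, h2⟩ := (hcn m a).1 ha
        exact (hcn n a).2 ⟨𝓕.mono hmn h1, h2⟩
      le := hCnC
      E := fun n a => ⟨𝓕.E n (⟨a, hC a.2⟩ : VA M), hCnC n (hEmem n a)⟩
      E_mem := fun n a => hEmem n a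
      E_tr := fun n a b hb => by
        have hbn : (b : H →L[ℂ] H) ∈ 𝓕.N n := ((hcn n _).1 hb).1
        have hen : (e : H →L[ℂ] H) ∈ 𝓕.N n := he.mem_n n
        have hHSe : τ.HS e := SFTrace.HS.of_proj he.proj he.fin
        set a' : VA C := ⟨𝓕.E n (⟨a, hC a.2⟩ : VA M), hCnC n (hEmem n a)⟩ with ha'
        change cornTr hC he.proj he.fin ζ (a' * b) = cornTr hC he.proj he.fin ζ (a * b)
        rw [cornTr_apply, cornTr_apply]
        congr 1
        · have h1 := 𝓕.tr_E_conj (x := e) (y := cj hC b * e) hen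
            (mul_mem (S := VonNeumannAlgebra H) hbn hen) hHSe (hHSe.mul_left _) (cj hC a)
          have h2 : e * cj hC (a' * b) * e = e * 𝓕.E n (cj hC a) * (cj hC b * e) := by
            rw [cj_mul]
            simp only [mul_assoc]
            rfl
          have h3 : e * cj hC (a * b) * e = e * cj hC a * (cj hC b * e) := by
            rw [cj_mul]
            simp only [mul_assoc]
          rw [h2, h3, h1]
        · obtain ⟨ca, hca⟩ := ((hcc a).1 a.2).2.2
          obtain ⟨cb, hcb⟩ := ((hcc b).1 b.2).2.2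
          have h1 : (a : H →L[ℂ] H) ζ = ca • ζ := corn_zeta hζ hca
          have h2 : (b : H →L[ℂ] H) ζ = cb • ζ := corn_zeta hζ hcb
          have h5 : (a' : H →L[ℂ] H) ζ = ca • ζ := corn_zeta hζ (hEC n a a.2 ca hca)
          have h3 : ((a * b : VA C) : H →L[ℂ] H) ζ = (a : H →L[ℂ] H) ((b : H →L[ℂ] H) ζ) := rfl
          have h4 : ((a' * b : VA C) : H →L[ℂ] H) ζ = (a' : H →L[ℂ] H) ((b : H →L[ℂ] H) ζ) := rfl
          rw [h3, h4, h2, map_smul, map_smul, h1, h5] }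
  obtain ⟨T, hT1, hT2, hT3, hT4⟩ := exists_TF 𝓕C
  refine ⟨C, hC, T, ζ, hT4, hζ, hcc, fun a => ?_, fun n a => ?_, fun n a => ?_⟩
  · rw [hT1 a]
    change (cornTr hC he.proj he.fin ζ a).re = _
    rw [cornTr_apply, Complex.add_re]
    rfl
  · rw [hT3 n a]
    change (a : H →L[ℂ] H) ∈ Cn n ↔ _
    rw [hcn n]
    constructor
    · exact fun h => h.1
    · exact fun h => ⟨h, ((hcc a).1 a.2).2⟩
  · rw [hT2]

end GD64
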