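import Pool.Agent.GD64.S3E
import Pool.Agent.GD64.S3Sub

/-!
# GD64/S3Cut: Chebyshev inequality for finitely supported bounded operators

`cheb1`. Let `h = v* v`, `S = cfc sqrt h`, `f = suppP (cfc (fun r => max (r - s) 0) S)` (`vn_cut` for `S` in `N`; `f ∈ N`,
commutes with `S`, `s f ≤ f S f`, `(1-f) S (1-f) ≤ s (1-f)`), `q = 1 - f`.
* `‖v q‖² = ‖q h q‖ = ‖(q S q)²‖ ≤ s²` (`q` commutes with `S`).
* `wt f ≤ δ/s`: let `ψ r = 1 / max (sqrt r) s` (continuous), `b = cfc ψ h * v*`. `b b* = cfc (fun r => ψ(r)² r) h ≤ 1`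
  so `‖b‖ ≤ 1`. `tr (v b) = tr (b v)` (`v` finite) `= tr (ψ(h) h)`, and `ψ(h) h ≥ 0` has
  `wt (ψ(h) h) < ∞` (`≤ wt (h)/s`, `h` finite) so `wt (ψ(h) h) = tr ≤ δ` (`tr_of_nonneg`).
  `ψ(h) h = g(S)`, `g r = r²/max r s`; `(g(S) - S) (S - s)₊ = 0` since `g r = r` for `r ≥ s`, so `(g(S) - S) f = 0`
  (`mul_suppP_of_mul` type lemma / `suppP_annih`), hence `f g(S) f = f S f ≥ s f` and
  `s wt f ≤ wt (f g(S) f) ≤ wt (g(S))` (commutation: `f g(S) f ≤ g(S)`).
-/

namespace GD64

open scoped ComplexOrder InnerProductSpace ENNReal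
open Filter

universe u

variable {H : Type u} [NormedAddCommGroup H] [InnerProductSpace ℂ H] [CompleteSpace H]
  {M : VonNeumannAlgebra H} {τ : SFTrace M}

theorem cheb1 (τ : SFTrace M) {N : VonNeumannAlgebra H} (hN : N ≤ M) {v : VA M}
    (hv : (v : H →L[ℂ] H) ∈ N) (hf : IsFin τ v) {δ s : ℝ} (hδ : 0 ≤ δ) (hs : 0 < s)
    (h : ∀ b : VA M, ‖τ.tr (v * b)‖ ≤ δ * ‖b‖) :
    ∃ q : VA M, (q : H →L[ℂ] H) ∈ N ∧ IsStarProjection q ∧
      τ.wt (1 - q) ≤ ENNReal.ofReal (δ / s) ∧ ‖v * q‖ ≤ s := by
  set k : VA M := star v * v with hk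
  have hks : IsSelfAdjoint k := IsSelfAdjoint.star_mul_self v
  have hk0 : 0 ≤ k := star_mul_self_nonneg v
  have hspec : ∀ r ∈ spectrum ℝ k, 0 ≤ r := fun r hr => spectrum_nonneg_of_nonneg hk0 hr
  set S : VA M := cfc Real.sqrt k with hS
  have hSs : IsSelfAdjoint S := cfc_predicate (p := IsSelfAdjoint) Real.sqrt k
  have hsc : Continuous Real.sqrt := Real.continuous_sqrt
  have hS0 : 0 ≤ S := cfc_nonneg fun r _ => Real.sqrt_nonneg r
  have hSS : S * S = k := by
    rw [hS, ← cfc_mul _ _ k hsc.continuousOn hsc.continuousOn]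
    conv_rhs => rw [← cfc_id' ℝ k hks]
    exact cfc_congr fun r hr => Real.mul_self_sqrt (hspec r hr)
  have hSH : ((S : VA M) : H →L[ℂ] H) = cfc Real.sqrt (k : H →L[ℂ] H) := va_cfc M _ hks hsc
  have hSN : ((S : VA M) : H →L[ℂ] H) ∈ N := by
    rw [hSH]
    exact cfc_mem_va_aux N _ (mul_mem (star_mem hv) hv)
  have hSsH : IsSelfAdjoint ((S : VA M) : H →L[ℂ] H) := by
    have := congrArg (fun z : VA M => (z : H →L[ℂ] H)) hSs.star_eq
    exact this
  obtain ⟨c1, c2, c3, c4⟩ := vn_cut N hSN hSsH s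
  set fH := suppP (cfc (fun r : ℝ => max (r - s) 0) ((S : VA M) : H →L[ℂ] H)) with hfH
  have hfp : IsStarProjection fH := suppP_proj _
  set f : VA M := ⟨fH, hN c1⟩ with hfdef
  have hfH' : ((f : VA M) : H →L[ℂ] H) = fH := rfl
  have hfpp : IsStarProjection f := by
    constructor
    · exact Subtype.ext hfp.isIdempotentElem
    · exact Subtype.ext hfp.isSelfAdjoint
  have hcomm : Commute S f := Subtype.ext (c2 _ (Commute.refl _))
  have hf1 : s • f ≤ f * S * f := c3
  have hf2 : (1 - f) * S * (1 - f) ≤ s • (1 - f) := c4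
  have hff : f * f = f := hfpp.isIdempotentElem
  set q : VA M := 1 - f with hq
  have hqp : IsStarProjection q := hfpp.one_sub
  have hqq : q * q = q := hqp.isIdempotentElem
  have hqs : star q = q := hqp.isSelfAdjoint
  have hcq : Commute S q := (Commute.one_right S).sub_right hcomm
  refine ⟨q, ?_, hqp, ?_, ?_⟩
  · show ((1 : H →L[ℂ] H) - fH) ∈ N
    exact sub_mem (one_mem N) c1
  · -- the weight
    have e0 : (1 : VA M) - q = f := by rw [hq, sub_sub_cancel]
    rw [e0]
    have hψ : Continuous fun r : ℝ => 1 / max (Real.sqrt r) s :=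
      continuous_const.div (by fun_prop) fun r => (lt_of_lt_of_le hs (le_max_right _ _)).ne'
    have hD : ∀ r : ℝ, 0 < max (Real.sqrt r) s := fun r => lt_of_lt_of_le hs (le_max_right _ _)
    set Ψ : VA M := cfc (fun r : ℝ => 1 / max (Real.sqrt r) s) k with hΨ
    have hΨs : star Ψ = Ψ := (cfc_predicate (p := IsSelfAdjoint) _ k).star_eq
    set g : VA M := cfc (fun r : ℝ => 1 / max (Real.sqrt r) s * r) k with hg
    have hgc : Continuous fun r : ℝ => 1 / max (Real.sqrt r) s * r := hψ.mul continuous_id'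
    have hΨk : Ψ * k = g := by
      have e1 : cfc (fun r : ℝ => 1 / max (Real.sqrt r) s * r) k = Ψ * cfc (fun r : ℝ => r) k :=
        cfc_mul (fun r : ℝ => 1 / max (Real.sqrt r) s) (fun r => r) k hψ.continuousOn
          (continuousOn_id' _)
      rw [hg, e1, cfc_id' ℝ k hks]
    have hg0 : 0 ≤ g := cfc_nonneg fun r hr => by
      have := hD r
      have := hspec r hr
      positivity
    have hnb : ‖Ψ * star v‖ ≤ 1 := by
      have e1 : (Ψ * star v) * star (Ψ * star v) =
          cfc (fun r : ℝ => 1 / max (Real.sqrt r) s * r * (1 / max (Real.sqrt r) s)) k := by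
        rw [star_mul, star_star, hΨs]
        have e2 : Ψ * star v * (v * Ψ) = (Ψ * k) * Ψ := by rw [hk]; simp only [mul_assoc]
        rw [e2, hΨk, hg, hΨ]
        exact (cfc_mul (fun r : ℝ => 1 / max (Real.sqrt r) s * r)
          (fun r : ℝ => 1 / max (Real.sqrt r) s) k hgc.continuousOn hψ.continuousOn).symm
      have h2 : ‖Ψ * star v‖ * ‖Ψ * star v‖ ≤ 1 := by
        rw [← CStarRing.norm_self_mul_star, e1]
        refine norm_cfc_le zero_le_one fun r hr => ?_
        have hr0 : 0 ≤ r := hspec r hr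
        have hDr := hD r
        rw [Real.norm_of_nonneg (by positivity)]
        have h3 : r ≤ max (Real.sqrt r) s * max (Real.sqrt r) s := by
          calc r = Real.sqrt r * Real.sqrt r := (Real.mul_self_sqrt hr0).symm
            _ ≤ _ := mul_self_le_mul_self (Real.sqrt_nonneg _) (le_max_left _ _)
        have e3 : 1 / max (Real.sqrt r) s * r * (1 / max (Real.sqrt r) s) =
            r / (max (Real.sqrt r) s * max (Real.sqrt r) s) := by
          field_simp
        rw [e3, div_le_one (by positivity)]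
        exact h3
      nlinarith [norm_nonneg (Ψ * star v)]
    have hkfin : τ.wt k < ⊤ := SFTrace.HS.of_fin hf
    have hgk : g ≤ (1 / s) • k := by
      have e1 : (1 / s) • k = cfc (fun r : ℝ => 1 / s * r) k := by
        rw [cfc_const_mul (1 / s) (fun r => r) k (continuousOn_id' _), cfc_id' ℝ k hks]
      rw [e1]
      refine cfc_mono (fun r hr => ?_) hgc.continuousOn (by fun_prop)
      have hr0 : 0 ≤ r := hspec r hr
      have : 1 / max (Real.sqrt r) s ≤ 1 / s := one_div_le_one_div_of_le hs (le_max_right _ _)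
      exact mul_le_mul_of_nonneg_right this hr0
    have hgfin : τ.wt g < ⊤ := by
      refine lt_of_le_of_lt (τ.wt_mono hgk) ?_
      rw [τ.wt_smul (by positivity)]
      exact ENNReal.mul_lt_top ENNReal.ofReal_lt_top hkfin
    have htr : τ.tr (v * (Ψ * star v)) = τ.tr g := by
      have e1 := hf.tr_comm (Ψ * star v)
      rw [← e1]
      have e2 : Ψ * star v * v = Ψ * k := by rw [hk, mul_assoc]
      rw [e2, hΨk]
    have hwg : τ.wt g ≤ ENNReal.ofReal δ := by
      have h1 := h (Ψ * star v)
      rw [htr, (SFTrace.tr_of_nonneg hg0 hgfin).2, Complex.norm_real,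
        Real.norm_of_nonneg ENNReal.toReal_nonneg] at h1
      have h2 : (τ.wt g).toReal ≤ δ := h1.trans (by nlinarith)
      rw [← ENNReal.ofReal_toReal hgfin.ne]
      exact ENNReal.ofReal_le_ofReal h2
    -- `(S - g) f = 0`
    have hd : Continuous fun r : ℝ => Real.sqrt r - 1 / max (Real.sqrt r) s * r := hsc.sub hgc
    have hSg : S - g = cfc (fun r : ℝ => Real.sqrt r - 1 / max (Real.sqrt r) s * r) k := by
      rw [hS, hg]
      exact (cfc_sub _ _ k hsc.continuousOn hgc.continuousOn).symm
    have hcut : Continuous fun r : ℝ => max (Real.sqrt r - s) 0 := by fun_prop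
    have hcutH : ((cfc (fun r : ℝ => max (Real.sqrt r - s) 0) k : VA M) : H →L[ℂ] H) =
        cfc (fun r : ℝ => max (r - s) 0) ((S : VA M) : H →L[ℂ] H) := by
      have e1 : cfc (fun r : ℝ => max (Real.sqrt r - s) 0) k =
          cfc (fun r : ℝ => max (r - s) 0) S := by
        rw [hS]
        exact cfc_comp' (fun r : ℝ => max (r - s) 0) Real.sqrt k (by fun_prop) hsc.continuousOn hks
      rw [e1]
      exact va_cfc M _ hSs (by fun_prop)
    have hprod : (cfc (fun r : ℝ => max (Real.sqrt r - s) 0) k : VA M) * (S - g) = 0 := by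
      rw [hSg, ← cfc_mul _ _ k hcut.continuousOn hd.continuousOn]
      have e1 : cfc (fun r : ℝ => max (Real.sqrt r - s) 0 *
          (Real.sqrt r - 1 / max (Real.sqrt r) s * r)) k = cfc (fun _ : ℝ => (0 : ℝ)) k := by
        refine cfc_congr fun r hr => ?_
        have hr0 : 0 ≤ r := hspec r hr
        rcases le_total (Real.sqrt r) s with h' | h'
        · show max (Real.sqrt r - s) 0 * _ = 0
          rw [max_eq_right (by linarith), zero_mul]
        · show _ * (Real.sqrt r - 1 / max (Real.sqrt r) s * r) = 0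
          have hsr : 0 < Real.sqrt r := lt_of_lt_of_le hs h'
          rw [max_eq_left h']
          have e2 : 1 / Real.sqrt r * r = Real.sqrt r := by
            conv_lhs => rw [← Real.mul_self_sqrt hr0]
            rw [Real.sqrt_mul_self (Real.sqrt_nonneg r)]
            field_simp
          rw [e2, sub_self, mul_zero]
      rw [e1, cfc_const_zero]
    have hfSg : f * (S - g) = 0 := by
      have e1 : (cfc (fun r : ℝ => max (r - s) 0) ((S : VA M) : H →L[ℂ] H)) *
          (((S - g : VA M)) : H →L[ℂ] H) = 0 := by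
        rw [← hcutH]
        exact congrArg (fun z : VA M => (z : H →L[ℂ] H)) hprod
      have hsa : IsSelfAdjoint (cfc (fun r : ℝ => max (r - s) 0) ((S : VA M) : H →L[ℂ] H)) :=
        cfc_predicate (p := IsSelfAdjoint) _ _
      have e2 := suppP_annih hsa e1
      exact Subtype.ext e2
    have hfg : f * S * f = f * g * f := by
      have e1 : f * S = f * g := by rw [← sub_eq_zero, ← mul_sub]; exact hfSg
      rw [e1]
    have hfgc : Commute g f := by
      -- `g` commutes with `S`
      have e1 : Commute g S := cfc_commute_cfc _ _ k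
      have e2 : Commute ((g : VA M) : H →L[ℂ] H) ((S : VA M) : H →L[ℂ] H) :=
        congrArg (fun z : VA M => (z : H →L[ℂ] H)) e1
      exact Subtype.ext (c2 _ e2)
    have hle : f * g * f ≤ g := by
      have e1 : g = f * g * f + (1 - f) * g * (1 - f) := by
        have e2 : f * g * f = g * f := by rw [← hfgc.eq, mul_assoc, hff]
        have e3 : (1 - f) * g * (1 - f) = g - g * f := by
          have e4 : (1 - f) * g = g * (1 - f) := by rw [sub_mul, mul_sub, one_mul, mul_one, hfgc.eq]
          rw [e4, mul_assoc]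
          have e5 : (1 - f) * (1 - f) = 1 - f := hqq
          rw [e5, mul_sub, mul_one]
        rw [e2, e3]; abel
      have e6 : 0 ≤ (1 - f) * g * (1 - f) := proj_conj_nonneg hqp hg0
      calc f * g * f ≤ f * g * f + (1 - f) * g * (1 - f) := le_add_of_nonneg_right e6
        _ = g := e1.symm
    have hsf : s • f ≤ g := (hf1.trans (le_of_eq hfg)).trans hle
    have h1 := τ.wt_mono hsf
    rw [τ.wt_smul hs.le] at h1
    have h2 : ENNReal.ofReal s * τ.wt f ≤ ENNReal.ofReal δ := h1.trans hwg
    rw [ENNReal.ofReal_div_of_pos hs, ENNReal.le_div_iff_mul_le (Or.inl (by simpa using hs))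
      (Or.inl ENNReal.ofReal_ne_top), mul_comm]
    exact h2
  · -- the norm
    have e1 : star (v * q) * (v * q) = (q * S * q) * (q * S * q) := by
      rw [star_mul, hqs]
      have e2 : q * star v * (v * q) = q * k * q := by rw [hk]; simp only [mul_assoc]
      rw [e2, ← hSS]
      have e3 : q * S * q = S * q := by rw [← hcq.eq, mul_assoc, hqq]
      have e4 : q * (S * S) * q = S * S * q := by
        have : Commute (S * S) q := hcq.mul_left hcq
        rw [← this.eq, mul_assoc, hqq]
      rw [e3, e4]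
      have e5 : S * q * (S * q) = S * (q * S * q) := by simp only [mul_assoc]
      rw [e5, e3, mul_assoc]
    have h0 : 0 ≤ q * S * q := proj_conj_nonneg hqp hS0
    have hn : ‖q * S * q‖ ≤ s := by
      refine (CStarAlgebra.norm_le_norm_of_nonneg_of_le h0 hf2).trans ?_
      rw [norm_smul, Real.norm_of_nonneg hs.le]
      have := hqp.norm_le
      nlinarith
    have h2 : ‖v * q‖ * ‖v * q‖ ≤ s * s := by
      rw [← CStarRing.norm_star_mul_self, e1]
      refine (norm_mul_le _ _).trans ?_
      exact mul_le_mul hn hn (norm_nonneg _) hs.le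
    nlinarith [norm_nonneg (v * q)]

end GD64
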