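import Pool.Agent.GD64.VNOrd
import Pool.Agent.GD64.Orl

/-!
# GD64/S3Defs: semifinite von Neumann algebras, `L_1`-martingales, singular numbers (stage 3)

`L_1(M)` is represented by its isometric copy in the dual of `M`: the operator `x ∈ L_1(M)` is the
functional `b ↦ τ(x b)`.
-/

namespace GD64

open scoped ComplexOrder InnerProductSpace ENNReal
open Filter

universe u

variable {H : Type u} [NormedAddCommGroup H] [InnerProductSpace ℂ H] [CompleteSpace H]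

/-- The normal weight `a ↦ ∑ ⟨ξ_i, a ξ_i⟩ ∈ [0,∞]` on positive operators. -/
noncomputable def vwt {ι : Type u} (ξ : ι → H) (a : H →L[ℂ] H) : ℝ≥0∞ :=
  ∑' i, ENNReal.ofReal (RCLike.re ⟪ξ i, a (ξ i)⟫_ℂ)

/-- A normal semifinite faithful trace on the von Neumann algebra `M`, `τ(a) = ∑ ⟨ξ_i, a ξ_i⟩` for
`a ≥ 0` in `M` (every normal weight is of this form). -/
structure SFTrace (M : VonNeumannAlgebra H) where
  ι : Type u
  ξ : ι → H
  tracial : ∀ a ∈ M, vwt ξ (star a * a) = vwt ξ (a * star a)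
  faithful : ∀ a ∈ M, vwt ξ (star a * a) = 0 → a = 0
  semifinite : ∀ p ∈ M, IsStarProjection p → p ≠ 0 →
    ∃ q ∈ M, IsStarProjection q ∧ p * q = q ∧ q ≠ 0 ∧ vwt ξ q < ⊤

variable {M : VonNeumannAlgebra H}

/-- The trace of a positive element of `M`, in `[0,∞]`. -/
noncomputable def SFTrace.wt (τ : SFTrace M) (a : VA M) : ℝ≥0∞ := vwt τ.ξ (a : H →L[ℂ] H)

/-- The trace of an element of `M` of finite trace, `τ(a) = ∑ ⟨ξ_i, a ξ_i⟩`. -/
noncomputable def SFTrace.tr (τ : SFTrace M) (a : VA M) : ℂ :=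
  ∑' i, ⟪τ.ξ i, (a : H →L[ℂ] H) (τ.ξ i)⟫_ℂ

/-- A filtration of `(M, τ)`: an increasing sequence of von Neumann subalgebras on which the trace is
semifinite, with the trace preserving conditional expectations. -/
structure SFiltr (M : VonNeumannAlgebra H) (τ : SFTrace M) where
  N : ℕ → VonNeumannAlgebra H
  mono : Monotone N
  le : ∀ n, N n ≤ M
  semifinite : ∀ n, ∀ p ∈ N n, IsStarProjection p → p ≠ 0 →
    ∃ q ∈ N n, IsStarProjection q ∧ p * q = q ∧ q ≠ 0 ∧ vwt τ.ξ q < ⊤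
  E : ℕ → VA M →ₗ[ℂ] VA M
  E_mem : ∀ n a, (E n a : H →L[ℂ] H) ∈ N n
  E_one : ∀ n, E n 1 = 1
  E_nonneg : ∀ n a, 0 ≤ a → 0 ≤ E n a
  E_mod : ∀ n (a b c : VA M), (b : H →L[ℂ] H) ∈ N n → (c : H →L[ℂ] H) ∈ N n →
    E n (b * a * c) = b * E n a * c
  E_tr : ∀ n (a : VA M), 0 ≤ a → τ.wt (E n a) = τ.wt a

/-- `b` is a bounded operator supported by a projection of finite trace. -/
def IsFin (τ : SFTrace M) (b : VA M) : Prop :=
  ∃ e : VA M, IsStarProjection e ∧ τ.wt e < ⊤ ∧ e * b * e = b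

/-- The functional `φ` on `M` is given by an operator of `L_1(M)`: it is a norm limit of functionals
`b ↦ τ(a b)` with `a` bounded and finitely supported. (`L_1(M)` is the completion of these `a` for
`‖a‖_1 = sup {|τ(a b)| : ‖b‖ ≤ 1}`; so `‖φ‖` is the `L_1`-norm of the operator.) -/
def IsL1 (τ : SFTrace M) (φ : VA M →L[ℂ] ℂ) : Prop :=
  ∀ ε : ℝ, 0 < ε → ∃ a : VA M, IsFin τ a ∧ ∀ b : VA M, ‖φ b - τ.tr (a * b)‖ ≤ ε * ‖b‖

/-- For the operator `x` of `L_1(M)` given by `φ` and a projection `p`: `x p` is the bounded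
operator `a`. -/
def RestrR (τ : SFTrace M) (φ : VA M →L[ℂ] ℂ) (p a : VA M) : Prop :=
  IsStarProjection p ∧ ∀ b, IsFin τ b → φ (p * b) = τ.tr (a * b)

/-- For the operator `x` of `L_1(M)` given by `φ` and a projection `p`: `p x` is the bounded
operator `a`. -/
def RestrL (τ : SFTrace M) (φ : VA M →L[ℂ] ℂ) (p a : VA M) : Prop :=
  IsStarProjection p ∧ ∀ b, IsFin τ b → φ (b * p) = τ.tr (a * b)

/-- A martingale: `x n ∈ L_1(N n)` and `E n (x (n+1)) = x n`. For functionals, `E n (x (n+1))` is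
`x (n+1) ∘ E n`; this composition being `x n`, the operator `x n` is in `L_1(N n)`. -/
structure IsMartL1 {τ : SFTrace M} (𝓕 : SFiltr M τ) (x : ℕ → (VA M →L[ℂ] ℂ)) : Prop where
  l1 : ∀ n, IsL1 τ (x n)
  ce : ∀ n b, x (n + 1) (𝓕.E n b) = x n b

/-- `μ_t` of the column square function `S^c_n(y) = (∑_{k ≤ n} |dy_k|²)^{1/2}`, by the formula
`μ_t(S) = inf {s : ‖S p‖ ≤ s for a projection p with τ(1 - p) ≤ t}`:
`‖S p‖ ≤ s` means that the operators `a_k = dy_k p` are bounded with `∑ |a_k|² ≤ s²`. -/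
noncomputable def muCol (τ : SFTrace M) (y : ℕ → (VA M →L[ℂ] ℂ)) (n : ℕ) (t : ℝ) : ℝ≥0∞ :=
  sInf {s : ℝ≥0∞ | ∃ (r : ℝ) (p : VA M) (a : ℕ → VA M), 0 ≤ r ∧ s = ENNReal.ofReal r ∧
    τ.wt (1 - p) ≤ ENNReal.ofReal t ∧ (∀ k ≤ n, RestrR τ (df y k) p (a k)) ∧
    ∑ k ∈ Finset.range (n + 1), star (a k) * a k ≤ (r ^ 2) • (1 : VA M)}

/-- `μ_t` of the row square function `S^r_n(z) = (∑_{k ≤ n} |dz_k*|²)^{1/2}`: here `a_k = p dz_k` and
`∑ |a_k*|² ≤ s²`. -/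
noncomputable def muRow (τ : SFTrace M) (z : ℕ → (VA M →L[ℂ] ℂ)) (n : ℕ) (t : ℝ) : ℝ≥0∞ :=
  sInf {s : ℝ≥0∞ | ∃ (r : ℝ) (p : VA M) (a : ℕ → VA M), 0 ≤ r ∧ s = ENNReal.ofReal r ∧
    τ.wt (1 - p) ≤ ENNReal.ofReal t ∧ (∀ k ≤ n, RestrL τ (df z k) p (a k)) ∧
    ∑ k ∈ Finset.range (n + 1), a k * star (a k) ≤ (r ^ 2) • (1 : VA M)}

/-- `τ[Φ(|x|)]` for the operator `x` of `L_1(M)` given by `φ`: the supremum of `τ[Φ(|a|)]` over the
bounded operators `a = x p`, `p` a projection. -/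
noncomputable def phiMomL1 (τ : SFTrace M) (Φ : ℝ → ℝ) (φ : VA M →L[ℂ] ℂ) : ℝ≥0∞ :=
  ⨆ (p : VA M) (a : VA M) (_ : RestrR τ φ p a),
    τ.wt (cfc (fun r : ℝ => Φ (Real.sqrt r)) (star a * a))

/-- `Φ` on `[0,∞]`, `Φ(∞) = ∞`. -/
noncomputable def phiE (Φ : ℝ → ℝ) (s : ℝ≥0∞) : ℝ≥0∞ :=
  if s = ⊤ then ⊤ else ENNReal.ofReal (Φ s.toReal)

/-- finite projections of `N 0`. -/
structure FinProj {τ : SFTrace M} (𝓕 : SFiltr M τ) (e : VA M) : Prop where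
  proj : IsStarProjection e
  mem : (e : H →L[ℂ] H) ∈ 𝓕.N 0
  fin : τ.wt e < ⊤

/-- a martingale of bounded operators in the corner `e`. -/
structure CMart {τ : SFTrace M} (𝓕 : SFiltr M τ) (e : VA M) (S : ℕ → VA M) : Prop where
  mem : ∀ k, (S k : H →L[ℂ] H) ∈ 𝓕.N k
  corner : ∀ k, e * S k * e = S k
  ce : ∀ k, 𝓕.E k (S (k + 1)) = S k

/-- the functional `f` (of an operator of `L_1(N n)`) has excess modular at most `g`: for every
`s > 0` it is `s`-bounded up to an `L_1`-error `(s/Φ(s)) g`. -/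
def GB {τ : SFTrace M} (𝓕 : SFiltr M τ) (Φ : ℝ → ℝ) (g : ℝ) (n : ℕ) (f : VA M → ℂ) : Prop :=
  ∀ s : ℝ, 0 < s → ∃ e u : VA M, FinProj 𝓕 e ∧ e * u * e = u ∧ (u : H →L[ℂ] H) ∈ 𝓕.N n ∧
    ‖u‖ ≤ s ∧ ∀ b : VA M, ‖f b - τ.tr (u * b)‖ ≤ s / Φ s * g * ‖b‖

end GD64
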