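import Pool.Agent.GD64.S3Tr

/-!
# GD64/S3E: conditional expectations

* `E_of_mem`: `E_mod` with `a = 1`, `c = 1`. `E_mul_left`, `E_mul_right`: `E_mod` with `1`.
* `E_star`: a self-adjoint element is a difference of two positive ones (`‖a‖ • 1 + a`, `‖a‖ • 1`), so its
  image is self-adjoint; decompose `a` in real and imaginary parts.
* `norm_E_le`: `0 ≤ E ((a - E a)* (a - E a)) = E (a* a) - (E a)* (E a)` (module property) and `E (a* a) ≤ ‖a‖² 1`.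
* `tr_E_conj`: for `a ≥ 0` and `z ∈ N n` with `HS z`: `wt (z* (E a) z) = wt (E (z* a z)) = wt (z* a z) < ∞`
  (`≤ ‖a‖ wt (z* z)`), so `tr (z* (E a) z) = tr (z* a z)` (`tr_of_nonneg`); polarisation in `z` (`x* = z + i^k y` ...; all terms
  are `TSum`: products of `HS` elements), then `a` is a linear combination of positive elements.
* `tr_E_comm`: `E a = e (E a) e ∈ N n`; `tr (E a * b) = tr (E a * e * b * e)` (cyclicity, `e` absorbed) `= tr (x * E b * y)` with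
  `x = E a * e`, `y = e` (both in `N n`, `HS`) `= tr (x * b * y)`; also `tr (a * E b) = tr (e * a * (e * E b * e))` `= tr (e * E a * (e E b e))`.
  So both sides equal `tr (E a * E b)`.
* `E_tower`: `d = E k (E j a) - E k a`, `d = e d e ∈ N k`, `tr (d * c) = 0` for all `c ∈ N k` with `c = e c e`
  (two uses of `tr_E_comm` and `E_of_mem`, `N k ≤ N j`); take `c = d*`, `tr (d d*) = wt (d d*)`, faithfulness.
-/

namespace GD64

open scoped ComplexOrder InnerProductSpace ENNReal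
open Filter

universe u

variable {H : Type u} [NormedAddCommGroup H] [InnerProductSpace ℂ H] [CompleteSpace H]
  {M : VonNeumannAlgebra H} {τ : SFTrace M}

namespace SFiltr

variable (𝓕 : SFiltr M τ)

theorem mem_of_le {m n : ℕ} (h : m ≤ n) {a : VA M} (ha : (a : H →L[ℂ] H) ∈ 𝓕.N m) :
    (a : H →L[ℂ] H) ∈ 𝓕.N n := 𝓕.mono h ha

theorem s3e_one_mem (n : ℕ) : ((1 : VA M) : H →L[ℂ] H) ∈ 𝓕.N n := by
  have h : (1 : H →L[ℂ] H) ∈ 𝓕.N n := one_mem _
  exact h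

theorem E_of_mem {n : ℕ} {b : VA M} (hb : (b : H →L[ℂ] H) ∈ 𝓕.N n) : 𝓕.E n b = b := by
  have h := 𝓕.E_mod n 1 b 1 hb (𝓕.s3e_one_mem n)
  rw [𝓕.E_one] at h
  simpa using h

theorem E_mul_left {n : ℕ} {b : VA M} (hb : (b : H →L[ℂ] H) ∈ 𝓕.N n) (a : VA M) :
    𝓕.E n (b * a) = b * 𝓕.E n a := by
  have h := 𝓕.E_mod n a b 1 hb (𝓕.s3e_one_mem n)
  simpa using h

theorem E_mul_right {n : ℕ} {b : VA M} (hb : (b : H →L[ℂ] H) ∈ 𝓕.N n) (a : VA M) :
    𝓕.E n (a * b) = 𝓕.E n a * b := by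
  have h := 𝓕.E_mod n a 1 b (𝓕.s3e_one_mem n) hb
  simpa using h

theorem E_star (n : ℕ) (a : VA M) : 𝓕.E n (star a) = star (𝓕.E n a) := by
  have hmem : a ∈ Submodule.span ℂ {a : VA M | 0 ≤ a} := by
    rw [CStarAlgebra.span_nonneg]; trivial
  induction hmem using Submodule.span_induction with
  | mem x hx =>
    have hx' : (0 : VA M) ≤ x := hx
    rw [(IsSelfAdjoint.of_nonneg hx').star_eq,
      (IsSelfAdjoint.of_nonneg (𝓕.E_nonneg n x hx')).star_eq]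
  | zero => simp
  | add x y _ _ hx hy => rw [star_add, map_add, hx, hy, map_add, star_add]
  | smul c x _ hx => rw [star_smul, map_smul, hx, map_smul, star_smul]

theorem E_mono {n : ℕ} {a b : VA M} (h : a ≤ b) : 𝓕.E n a ≤ 𝓕.E n b := by
  have h1 := 𝓕.E_nonneg n (b - a) (sub_nonneg.mpr h)
  rw [map_sub] at h1
  exact sub_nonneg.mp h1

theorem s3e_E_algebraMap (n : ℕ) (r : ℝ) : 𝓕.E n (algebraMap ℝ (VA M) r) = algebraMap ℝ (VA M) r := by
  have h : algebraMap ℝ (VA M) r = (r : ℂ) • (1 : VA M) := by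
    rw [Algebra.algebraMap_eq_smul_one, Complex.coe_smul]
  rw [h, map_smul, 𝓕.E_one]

theorem norm_E_le (n : ℕ) (a : VA M) : ‖𝓕.E n a‖ ≤ ‖a‖ := by
  have hm := 𝓕.E_mem n a
  have hms : ((star (𝓕.E n a) : VA M) : H →L[ℂ] H) ∈ 𝓕.N n := star_mem hm
  have h1 : 𝓕.E n (star (a - 𝓕.E n a) * (a - 𝓕.E n a)) =
      𝓕.E n (star a * a) - star (𝓕.E n a) * 𝓕.E n a := by
    have e : star (a - 𝓕.E n a) * (a - 𝓕.E n a) =
        star a * a - star a * 𝓕.E n a - star (𝓕.E n a) * a + star (𝓕.E n a) * 𝓕.E n a := by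
      rw [star_sub]; noncomm_ring
    have hmm : ((star (𝓕.E n a) * 𝓕.E n a : VA M) : H →L[ℂ] H) ∈ 𝓕.N n := mul_mem hms hm
    rw [e, map_add, map_sub, map_sub, 𝓕.E_mul_right hm, 𝓕.E_mul_left hms, 𝓕.E_of_mem hmm, 𝓕.E_star]
    abel
  have h2 := 𝓕.E_nonneg n _ (star_mul_self_nonneg (a - 𝓕.E n a))
  rw [h1] at h2
  have h3 : star (𝓕.E n a) * 𝓕.E n a ≤ 𝓕.E n (star a * a) := sub_nonneg.mp h2
  have h4 : 𝓕.E n (star a * a) ≤ algebraMap ℝ (VA M) (‖a‖ ^ 2) := by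
    rw [← 𝓕.s3e_E_algebraMap n]
    exact 𝓕.E_mono CStarAlgebra.star_mul_le_algebraMap_norm_sq
  have h5 : ‖star (𝓕.E n a) * 𝓕.E n a‖ ≤ ‖a‖ ^ 2 :=
    (CStarAlgebra.norm_le_iff_le_algebraMap _ (by positivity) (star_mul_self_nonneg _)).mpr
      (h3.trans h4)
  rw [CStarRing.norm_star_mul_self, ← pow_two] at h5
  exact (pow_le_pow_iff_left₀ (norm_nonneg _) (norm_nonneg _) two_ne_zero).mp h5

theorem E_E_of_le {k j : ℕ} (h : k ≤ j) (a : VA M) : 𝓕.E j (𝓕.E k a) = 𝓕.E k a :=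
  𝓕.E_of_mem (𝓕.mem_of_le h (𝓕.E_mem k a))

theorem s3e_tsum3 {x y : VA M} (hx2 : τ.HS x) (hy2 : τ.HS y) (c : VA M) :
    TSum τ (x * c * y) := SFTrace.HS.tsum_mul (hx2.mul_right c) hy2

theorem s3e_tsum_conj {z : VA M} (hz : τ.HS z) (c : VA M) : TSum τ (star z * c * z) :=
  s3e_tsum3 hz.adj hz c

/-- quadratic form version for a positive element. -/
theorem s3e_quad {n : ℕ} {z : VA M} (hz : (z : H →L[ℂ] H) ∈ 𝓕.N n) (hz2 : τ.HS z) {a : VA M}
    (ha : 0 ≤ a) : τ.tr (star z * (𝓕.E n a - a) * z) = 0 := by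
  have hzs : ((star z : VA M) : H →L[ℂ] H) ∈ 𝓕.N n := star_mem hz
  have e : star z * (𝓕.E n a - a) * z = star z * 𝓕.E n a * z - star z * a * z := by
    noncomm_ring
  have hE := 𝓕.E_nonneg n a ha
  have hp1 : 0 ≤ star z * a * z := star_left_conjugate_nonneg ha z
  have hp2 : 0 ≤ star z * 𝓕.E n a * z := star_left_conjugate_nonneg hE z
  have hw : τ.wt (star z * 𝓕.E n a * z) = τ.wt (star z * a * z) := by
    rw [← 𝓕.E_mod n a (star z) z hzs hz, 𝓕.E_tr n _ hp1]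
  have hfin : τ.wt (star z * a * z) < ⊤ := by
    have h1 : a ≤ algebraMap ℝ (VA M) ‖a‖ :=
      IsSelfAdjoint.le_algebraMap_norm_self (IsSelfAdjoint.of_nonneg ha)
    have h2 : star z * a * z ≤ ‖a‖ • (star z * z) := by
      have h3 := star_left_conjugate_le_conjugate h1 z
      refine h3.trans (le_of_eq ?_)
      rw [Algebra.algebraMap_eq_smul_one, mul_smul_comm, mul_one, smul_mul_assoc]
    refine lt_of_le_of_lt (τ.wt_mono h2) ?_
    rw [τ.wt_smul (norm_nonneg a)]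
    exact ENNReal.mul_lt_top ENNReal.ofReal_lt_top hz2
  have t1 := SFTrace.tr_of_nonneg (τ := τ) hp1 hfin
  have t2 := SFTrace.tr_of_nonneg (τ := τ) hp2 (hw ▸ hfin)
  rw [e, SFTrace.tr_sub t2.1 t1.1, t1.2, t2.2, hw, sub_self]

theorem s3e_polar (x y c : VA M) :
    (4 : ℂ) • (star x * c * y) =
      star (x + y) * c * (x + y) - star (x - y) * c * (x - y)
        - Complex.I • (star (x + Complex.I • y) * c * (x + Complex.I • y))
        + Complex.I • (star (x - Complex.I • y) * c * (x - Complex.I • y)) := by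
  have hI : Complex.I * Complex.I = -1 := Complex.I_mul_I
  simp only [star_add, star_sub, star_smul, RCLike.star_def, Complex.conj_I, add_mul, mul_add,
    sub_mul, mul_sub, smul_mul_assoc, mul_smul_comm, smul_add, smul_sub, smul_smul, neg_smul,
    smul_neg, neg_mul, mul_neg, hI, one_smul]
  have h4 : (4 : ℂ) • (star x * c * y) = star x * c * y + star x * c * y + star x * c * y
      + star x * c * y := by
    rw [show (4 : ℂ) = 1 + 1 + 1 + 1 by norm_num, add_smul, add_smul, add_smul, one_smul]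
  rw [h4]
  abel

theorem s3e_tr_conj_nonneg {n : ℕ} {x y : VA M} (hx : (x : H →L[ℂ] H) ∈ 𝓕.N n)
    (hy : (y : H →L[ℂ] H) ∈ 𝓕.N n) (hx2 : τ.HS x) (hy2 : τ.HS y) {a : VA M} (ha : 0 ≤ a) :
    τ.tr (star x * (𝓕.E n a - a) * y) = 0 := by
  have hIy : ((Complex.I • y : VA M) : H →L[ℂ] H) ∈ 𝓕.N n := by
    have h2 : Complex.I • (y : H →L[ℂ] H) ∈ (𝓕.N n).toStarSubalgebra :=
      (𝓕.N n).toStarSubalgebra.smul_mem hy Complex.I
    exact h2
  have hIy2 : τ.HS (Complex.I • y) := hy2.smul _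
  have m1 : ((x + y : VA M) : H →L[ℂ] H) ∈ 𝓕.N n := add_mem hx hy
  have m2 : ((x - y : VA M) : H →L[ℂ] H) ∈ 𝓕.N n := sub_mem hx hy
  have m3 : ((x + Complex.I • y : VA M) : H →L[ℂ] H) ∈ 𝓕.N n := add_mem hx hIy
  have m4 : ((x - Complex.I • y : VA M) : H →L[ℂ] H) ∈ 𝓕.N n := sub_mem hx hIy
  have hsub : ∀ {u v : VA M}, τ.HS u → τ.HS v → τ.HS (u - v) := by
    intro u v hu hv
    have h := hu.add (hv.smul (-1))
    have e : u + (-1 : ℂ) • v = u - v := by rw [neg_smul, one_smul, sub_eq_add_neg]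
    rwa [e] at h
  have s1 : τ.HS (x + y) := hx2.add hy2
  have s2 : τ.HS (x - y) := hsub hx2 hy2
  have s3 : τ.HS (x + Complex.I • y) := hx2.add hIy2
  have s4 : τ.HS (x - Complex.I • y) := hsub hx2 hIy2
  have hp := s3e_polar x y (𝓕.E n a - a)
  have ht := congrArg τ.tr hp
  rw [SFTrace.tr_smul,
    SFTrace.tr_add (((s3e_tsum_conj s1 _).sub (s3e_tsum_conj s2 _)).sub
      ((s3e_tsum_conj s3 _).smul _)) ((s3e_tsum_conj s4 _).smul _),
    SFTrace.tr_sub ((s3e_tsum_conj s1 _).sub (s3e_tsum_conj s2 _)) ((s3e_tsum_conj s3 _).smul _),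
    SFTrace.tr_sub (s3e_tsum_conj s1 _) (s3e_tsum_conj s2 _), SFTrace.tr_smul, SFTrace.tr_smul,
    𝓕.s3e_quad m1 s1 ha, 𝓕.s3e_quad m2 s2 ha, 𝓕.s3e_quad m3 s3 ha, 𝓕.s3e_quad m4 s4 ha] at ht
  simpa using ht

theorem tr_E_conj {n : ℕ} {x y : VA M} (hx : (x : H →L[ℂ] H) ∈ 𝓕.N n)
    (hy : (y : H →L[ℂ] H) ∈ 𝓕.N n) (hx2 : τ.HS x) (hy2 : τ.HS y) (a : VA M) :
    τ.tr (x * 𝓕.E n a * y) = τ.tr (x * a * y) := by
  have key : τ.tr (x * (𝓕.E n a - a) * y) = 0 := by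
    have hmem : a ∈ Submodule.span ℂ {a : VA M | 0 ≤ a} := by
      rw [CStarAlgebra.span_nonneg]; trivial
    induction hmem using Submodule.span_induction with
    | mem u hu =>
      have hxs : ((star x : VA M) : H →L[ℂ] H) ∈ 𝓕.N n := star_mem hx
      have h := 𝓕.s3e_tr_conj_nonneg hxs hy hx2.adj hy2 (a := u) hu
      rwa [star_star] at h
    | zero => rw [map_zero, sub_zero, mul_zero, zero_mul, SFTrace.tr_zero]
    | add u v _ _ hu hv =>
      have e : x * (𝓕.E n (u + v) - (u + v)) * y =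
          x * (𝓕.E n u - u) * y + x * (𝓕.E n v - v) * y := by
        rw [map_add]; noncomm_ring
      rw [e, SFTrace.tr_add (s3e_tsum3 hx2 hy2 _) (s3e_tsum3 hx2 hy2 _), hu, hv, add_zero]
    | smul c u _ hu =>
      have e : x * (𝓕.E n (c • u) - c • u) * y = c • (x * (𝓕.E n u - u) * y) := by
        rw [map_smul, ← smul_sub, mul_smul_comm, smul_mul_assoc]
      rw [e, SFTrace.tr_smul, hu, mul_zero]
  have e : x * (𝓕.E n a - a) * y = x * 𝓕.E n a * y - x * a * y := by noncomm_ring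
  rw [e, SFTrace.tr_sub (s3e_tsum3 hx2 hy2 _) (s3e_tsum3 hx2 hy2 _)] at key
  exact sub_eq_zero.mp key

theorem E_corner {e : VA M} (he : FinProj 𝓕 e) {a : VA M} (ha : e * a * e = a) (n : ℕ) :
    e * 𝓕.E n a * e = 𝓕.E n a := by
  have hm : (e : H →L[ℂ] H) ∈ 𝓕.N n := 𝓕.mono (Nat.zero_le n) he.mem
  rw [← 𝓕.E_mod n a e e hm hm, ha]

theorem tr_E_comm {e : VA M} (he : FinProj 𝓕 e) {a : VA M} (ha : e * a * e = a) (n : ℕ)
    (b : VA M) : τ.tr (𝓕.E n a * b) = τ.tr (a * 𝓕.E n b) := by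
  have hm : (e : H →L[ℂ] H) ∈ 𝓕.N n := 𝓕.mono (Nat.zero_le n) he.mem
  have hee : e * e = e := he.proj.isIdempotentElem.eq
  have hEa := 𝓕.E_corner he ha n
  have heE : e * 𝓕.E n a = 𝓕.E n a := by
    conv_lhs => rw [← hEa]
    rw [← mul_assoc, ← mul_assoc, hee, hEa]
  have hEe : 𝓕.E n a * e = 𝓕.E n a := by
    conv_lhs => rw [← hEa]
    rw [mul_assoc, hee, hEa]
  have hae : a * e = a := by
    conv_lhs => rw [← ha]
    rw [mul_assoc, hee, ha]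
  have hfe : IsFin τ e := ⟨e, he.proj, he.fin, by rw [hee, hee]⟩
  have hfE : IsFin τ (𝓕.E n a) := ⟨e, he.proj, he.fin, hEa⟩
  have hfa : IsFin τ a := ⟨e, he.proj, he.fin, ha⟩
  have h2e : τ.HS e := SFTrace.HS.of_proj he.proj he.fin
  -- left side
  have l1 : τ.tr (𝓕.E n a * b) = τ.tr (𝓕.E n a * 𝓕.E n b) := by
    have s1 : τ.tr (𝓕.E n a * b) = τ.tr (𝓕.E n a * b * e) := by
      rw [IsFin.tr_comm hfe, ← mul_assoc, heE]
    have s2 : τ.tr (𝓕.E n a * 𝓕.E n b) = τ.tr (𝓕.E n a * 𝓕.E n b * e) := by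
      rw [IsFin.tr_comm hfe, ← mul_assoc, heE]
    rw [s1, s2]
    exact (𝓕.tr_E_conj (𝓕.E_mem n a) hm (SFTrace.HS.of_fin hfE) h2e b).symm
  have r1 : τ.tr (a * 𝓕.E n b) = τ.tr (𝓕.E n a * 𝓕.E n b) := by
    have hbe : ((𝓕.E n b * e : VA M) : H →L[ℂ] H) ∈ 𝓕.N n := mul_mem (𝓕.E_mem n b) hm
    have h := 𝓕.tr_E_conj hbe hm (h2e.mul_left (𝓕.E n b)) h2e a
    have e1 : 𝓕.E n b * e * 𝓕.E n a * e = 𝓕.E n b * 𝓕.E n a := by
      rw [mul_assoc, mul_assoc, ← mul_assoc e, hEa]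
    have e2 : 𝓕.E n b * e * a * e = 𝓕.E n b * a := by
      rw [mul_assoc, mul_assoc, ← mul_assoc e, ha]
    rw [e1, e2] at h
    rw [← IsFin.tr_comm hfa, ← h, IsFin.tr_comm hfE]
  rw [l1, r1]

theorem E_tower {e : VA M} (he : FinProj 𝓕 e) {a : VA M} (ha : e * a * e = a) {k j : ℕ}
    (h : k ≤ j) : 𝓕.E k (𝓕.E j a) = 𝓕.E k a := by
  have hj := 𝓕.E_corner he ha j
  have hkj := 𝓕.E_corner he hj k
  have hk := 𝓕.E_corner he ha k
  set d : VA M := 𝓕.E k (𝓕.E j a) - 𝓕.E k a with hd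
  have hde : e * d * e = d := by
    rw [hd, mul_sub, sub_mul, hkj, hk]
  have hdm : (d : H →L[ℂ] H) ∈ 𝓕.N k := sub_mem (𝓕.E_mem k _) (𝓕.E_mem k _)
  have hf1 : IsFin τ (𝓕.E k (𝓕.E j a)) := ⟨e, he.proj, he.fin, hkj⟩
  have hf2 : IsFin τ (𝓕.E k a) := ⟨e, he.proj, he.fin, hk⟩
  have hfd : IsFin τ d := ⟨e, he.proj, he.fin, hde⟩
  have hz : ∀ c : VA M, (c : H →L[ℂ] H) ∈ 𝓕.N k → τ.tr (d * c) = 0 := by
    intro c hc
    have hcj := 𝓕.mem_of_le h hc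
    have e1 : d * c = 𝓕.E k (𝓕.E j a) * c - 𝓕.E k a * c := by rw [hd, sub_mul]
    rw [e1, SFTrace.tr_sub (hf1.tsum_mul' c) (hf2.tsum_mul' c), 𝓕.tr_E_comm he hj k,
      𝓕.tr_E_comm he ha k, 𝓕.E_of_mem hc, 𝓕.tr_E_comm he ha j, 𝓕.E_of_mem hcj, sub_self]
  have hds : ((star d : VA M) : H →L[ℂ] H) ∈ 𝓕.N k := star_mem hdm
  have h0 := hz (star d) hds
  have hHS : τ.HS d := SFTrace.HS.of_fin hfd
  have hpos : 0 ≤ d * star d := mul_star_self_nonneg d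
  have hfin : τ.wt (d * star d) < ⊤ := by
    rw [← τ.wt_comm d]; exact hHS
  have h1 := (SFTrace.tr_of_nonneg (τ := τ) hpos hfin).2
  rw [h0] at h1
  have h2 : (τ.wt (d * star d)).toReal = 0 := by exact_mod_cast h1.symm
  have h3 : τ.wt (d * star d) = 0 := by
    rcases (ENNReal.toReal_eq_zero_iff _).mp h2 with h | h
    · exact h
    · exact absurd h hfin.ne
  have h4 := τ.eq_zero_of_wt hpos h3
  have h5 : d = 0 := (CStarRing.mul_star_self_eq_zero_iff d).mp h4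
  exact sub_eq_zero.mp h5

end SFiltr

theorem FinProj.isFin {𝓕 : SFiltr M τ} {e : VA M} (he : FinProj 𝓕 e) {a : VA M}
    (ha : e * a * e = a) : IsFin τ a := ⟨e, he.proj, he.fin, ha⟩

theorem FinProj.mem_n {𝓕 : SFiltr M τ} {e : VA M} (he : FinProj 𝓕 e) (n : ℕ) :
    (e : H →L[ℂ] H) ∈ 𝓕.N n := 𝓕.mono (Nat.zero_le n) he.mem

/-- an `L_1`-martingale is determined by its later terms. -/
theorem IsMartL1.eq_of_le {𝓕 : SFiltr M τ} {x : ℕ → (VA M →L[ℂ] ℂ)} (hx : IsMartL1 𝓕 x)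
    {k n : ℕ} (h : k ≤ n) (b : VA M) : x n (𝓕.E k b) = x k b := by
  induction n, h using Nat.le_induction with
  | base =>
    rw [← hx.ce k (𝓕.E k b), 𝓕.E_E_of_le le_rfl, hx.ce]
  | succ n hn ih =>
    rw [← 𝓕.E_E_of_le hn, hx.ce n, ih]

end GD64
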