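import Pool.Agent.GD64.S3Asm

/-!
# GD64/S3Main: weak-type Orlicz Gundy decomposition, semifinite von Neumann algebras, all `L_1`-bounded martingales

`stage3`. `K, hpos, C` as in S3Asm; constant `2 K² (8 C + 64 K)`. Let `Fe = ⨆ n, phiMomL1 τ Φ (x n)`.
* `Fe = ⊤`: `y = x`, `z = 0` (`IsMartL1` of `0`); the right side is `ofReal (C/t) * ⊤ = ⊤`.
* `Fe = 0`: all `x n = 0`: `restr` for `ε`: `RestrR τ (x n) q a`, `wt (cfc (Φ ∘ sqrt) (a* a)) = 0`, so `a = 0` (`eq_zero_of_wt`, `hpos`: see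
  `OrlAux.eq_zero`), `x n (q b) = 0` for finite `b`, hence `‖x n b‖ ≤ ε ‖b‖` for finite `b`; and for all `b` by `dens`
  (`x n (e b e)`). `y = z = 0`, `muCol = 0` (`r = 0`, `p = 1`, `a = 0`), `phiE Φ 0 = 0`.
* `0 < Fe < ⊤`: `F = Fe.toReal`, `exists_blk`, `asm_functionals`, `exists_level`, `asm_col`, `asm_row`:
  `⨆ n, muCol τ Y n t ≤ ofReal (4 s₀)`, `phiE` is monotone, `Φ(4 s₀) ≤ K² Φ(s₀)`.
(`B = ` a bound of `‖x n‖`.)
-/

namespace GD64

open scoped ComplexOrder InnerProductSpace ENNReal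
open Filter

universe u

theorem muCol_mono {H : Type u} [NormedAddCommGroup H] [InnerProductSpace ℂ H] [CompleteSpace H]
    {M : VonNeumannAlgebra H} {τ : SFTrace M} (y : ℕ → (VA M →L[ℂ] ℂ)) (t : ℝ) :
    Monotone fun n => muCol τ y n t := by
  intro n m hnm
  unfold muCol
  apply sInf_le_sInf
  rintro s ⟨r, p, a, hr, hs, hp, ha, hsum⟩
  refine ⟨r, p, a, hr, hs, hp, fun k hk => ha k (hk.trans hnm), le_trans ?_ hsum⟩
  refine Finset.sum_le_sum_of_subset_of_nonneg ?_ fun k _ _ => star_mul_self_nonneg _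
  exact Finset.range_mono (by omega)

theorem muRow_mono {H : Type u} [NormedAddCommGroup H] [InnerProductSpace ℂ H] [CompleteSpace H]
    {M : VonNeumannAlgebra H} {τ : SFTrace M} (y : ℕ → (VA M →L[ℂ] ℂ)) (t : ℝ) :
    Monotone fun n => muRow τ y n t := by
  intro n m hnm
  unfold muRow
  apply sInf_le_sInf
  rintro s ⟨r, p, a, hr, hs, hp, ha, hsum⟩
  refine ⟨r, p, a, hr, hs, hp, fun k hk => ha k (hk.trans hnm), le_trans ?_ hsum⟩
  refine Finset.sum_le_sum_of_subset_of_nonneg ?_ fun k _ _ => mul_star_self_nonneg _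
  exact Finset.range_mono (by omega)

section aux

variable {H : Type u} [NormedAddCommGroup H] [InnerProductSpace ℂ H] [CompleteSpace H]
  {M : VonNeumannAlgebra H} {τ : SFTrace M} {𝓕 : SFiltr M τ} {Φ : ℝ → ℝ}

private theorem s3m_eq_zero (hΦ : IsOrlicz Φ) (hpos : ∀ s, 0 < s → 0 < Φ s) (a : VA M)
    (h : τ.wt (cfc (fun r : ℝ => Φ (Real.sqrt r)) (star a * a)) = 0) : a = 0 := by
  have h1 := τ.eq_zero_of_wt (OrlAux.cfc_nn hΦ a) h
  have hsa : IsSelfAdjoint (star a * a) := IsSelfAdjoint.star_mul_self a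
  have h2 : cfc (fun r : ℝ => Φ (Real.sqrt r)) (star a * a) =
      cfc (fun _ : ℝ => (0 : ℝ)) (star a * a) := by
    rw [h1, cfc_const_zero ℝ (star a * a)]
  have h3 := (cfc_eq_cfc_iff_eqOn hsa (OrlAux.sqrt_cont hΦ).continuousOn
    (continuousOn_const (c := (0 : ℝ)))).1 h2
  have h4 : star a * a = 0 := by
    have e1 : cfc (fun r : ℝ => r) (star a * a) = cfc (fun _ : ℝ => (0 : ℝ)) (star a * a) := by
      refine cfc_congr fun r hr => ?_
      have e2 : 0 ≤ r := spectrum_nonneg_of_nonneg (star_mul_self_nonneg a) hr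
      have e3 : Φ (Real.sqrt r) = 0 := h3 hr
      by_contra hne
      have e4 : 0 < r := lt_of_le_of_ne e2 (Ne.symm hne)
      exact (hpos _ (Real.sqrt_pos.2 e4)).ne' e3
    rw [cfc_id' ℝ (star a * a) hsa, cfc_const_zero ℝ (star a * a)] at e1
    exact e1
  exact CStarRing.star_mul_self_eq_zero_iff a |>.1 h4

private theorem s3m_zero_l1 : IsL1 τ (0 : VA M →L[ℂ] ℂ) := by
  intro ε hε
  refine ⟨0, IsFin.zero, fun b => ?_⟩
  rw [zero_mul, SFTrace.tr_zero]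
  simpa using by positivity

private theorem s3m_zero_mart : IsMartL1 𝓕 (fun _ => (0 : VA M →L[ℂ] ℂ)) :=
  ⟨fun _ => s3m_zero_l1, fun _ _ => rfl⟩

private theorem s3m_x_zero (hΦ : IsOrlicz Φ) (hpos : ∀ s, 0 < s → 0 < Φ s)
    {φ : VA M →L[ℂ] ℂ} (hφ : IsL1 τ φ) {n : ℕ} (hn : ∀ b, φ (𝓕.E n b) = φ b)
    (h : phiMomL1 τ Φ φ = 0) : φ = 0 := by
  have hfin : ∀ b : VA M, IsFin τ b → φ b = 0 := by
    intro b hb
    have h1 : ∀ ε : ℝ, 0 < ε → ‖φ b‖ ≤ ε * ‖b‖ := by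
      intro ε hε
      obtain ⟨q, a, -, -, hR, hq⟩ := restr hφ hn hε
      have hw : τ.wt (cfc (fun r : ℝ => Φ (Real.sqrt r)) (star a * a)) = 0 := by
        refine le_antisymm (le_trans ?_ h.le) (zero_le)
        unfold phiMomL1
        exact le_iSup_of_le q (le_iSup_of_le a (le_iSup_of_le hR le_rfl))
      have ha := s3m_eq_zero hΦ hpos a hw
      have h2 := hR.2 b hb
      rw [ha, zero_mul, SFTrace.tr_zero] at h2
      have h3 := hq b
      rwa [h2, sub_zero] at h3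
    have h4 : ‖φ b‖ ≤ 0 := by
      refine le_of_forall_pos_le_add fun δ hδ => ?_
      have h5 := h1 (δ / (‖b‖ + 1)) (by positivity)
      refine h5.trans ?_
      rw [zero_add, div_mul_eq_mul_div, div_le_iff₀ (by positivity)]
      have := norm_nonneg b
      nlinarith
    exact norm_le_zero_iff.1 h4
  ext b
  have h1 : ∀ ε : ℝ, 0 < ε → ‖φ b‖ ≤ ε * ‖b‖ := by
    intro ε hε
    obtain ⟨e, he, -, heb⟩ := dens hφ hε (FinProj.zero 𝓕)
    have hee : e * e = e := he.proj.isIdempotentElem.eq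
    have hf : IsFin τ (e * b * e) := he.isFin (by
      calc e * (e * b * e) * e = (e * e) * b * (e * e) := by simp only [mul_assoc]
        _ = e * b * e := by rw [hee])
    have h2 := heb b
    rwa [hfin _ hf, sub_zero] at h2
  have h4 : ‖φ b‖ ≤ 0 := by
    refine le_of_forall_pos_le_add fun δ hδ => ?_
    have h5 := h1 (δ / (‖b‖ + 1)) (by positivity)
    refine h5.trans ?_
    rw [zero_add, div_mul_eq_mul_div, div_le_iff₀ (by positivity)]
    have := norm_nonneg b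
    nlinarith
  exact norm_le_zero_iff.1 h4

private theorem s3m_df_zero (k : ℕ) :
    df (fun _ : ℕ => (0 : VA M →L[ℂ] ℂ)) k = 0 := by
  cases k with
  | zero => rfl
  | succ k => exact sub_zero _

private theorem s3m_restrR (k : ℕ) :
    RestrR τ (df (fun _ : ℕ => (0 : VA M →L[ℂ] ℂ)) k) 1 0 := by
  refine ⟨IsStarProjection.one _, fun b _ => ?_⟩
  rw [s3m_df_zero, zero_mul, SFTrace.tr_zero]
  rfl

private theorem s3m_restrL (k : ℕ) :
    RestrL τ (df (fun _ : ℕ => (0 : VA M →L[ℂ] ℂ)) k) 1 0 := by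
  refine ⟨IsStarProjection.one _, fun b _ => ?_⟩
  rw [s3m_df_zero, zero_mul, SFTrace.tr_zero]
  rfl

private theorem s3m_muCol_zero (n : ℕ) (t : ℝ) :
    muCol τ (fun _ => (0 : VA M →L[ℂ] ℂ)) n t = 0 := by
  refine le_antisymm ?_ zero_le
  unfold muCol
  apply sInf_le
  refine ⟨0, 1, fun _ => 0, le_rfl, by simp, ?_, fun k _ => s3m_restrR k, ?_⟩
  · rw [sub_self, SFTrace.wt_zero]
    exact zero_le
  · simp

private theorem s3m_muRow_zero (n : ℕ) (t : ℝ) :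
    muRow τ (fun _ => (0 : VA M →L[ℂ] ℂ)) n t = 0 := by
  refine le_antisymm ?_ zero_le
  unfold muRow
  apply sInf_le
  refine ⟨0, 1, fun _ => 0, le_rfl, by simp, ?_, fun k _ => s3m_restrL k, ?_⟩
  · rw [sub_self, SFTrace.wt_zero]
    exact zero_le
  · simp

private theorem s3m_phiE_mono (hΦ : IsOrlicz Φ) {s : ℝ≥0∞} {r : ℝ} (hr : 0 ≤ r)
    (h : s ≤ ENNReal.ofReal r) : phiE Φ s ≤ ENNReal.ofReal (Φ r) := by
  have hs : s ≠ ⊤ := (lt_of_le_of_lt h ENNReal.ofReal_lt_top).ne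
  unfold phiE
  rw [if_neg hs]
  apply ENNReal.ofReal_le_ofReal
  have h1 : s.toReal ≤ r := ENNReal.toReal_le_of_le_ofReal hr h
  exact hΦ.mono (Set.mem_Ici.2 ENNReal.toReal_nonneg) (Set.mem_Ici.2 hr) h1

end aux

/-- The weak-type Orlicz Gundy decomposition. -/
theorem stage3 (Φ : ℝ → ℝ) (hΦ : IsOrlicz Φ) (h2 : DeltaTwo Φ) :
    ∃ C : ℝ, 0 < C ∧
      ∀ (H : Type u) [NormedAddCommGroup H] [InnerProductSpace ℂ H] [CompleteSpace H]
        (M : VonNeumannAlgebra H) (τ : SFTrace M) (𝓕 : SFiltr M τ) (x : ℕ → (VA M →L[ℂ] ℂ)),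
        IsMartL1 𝓕 x → (∃ B : ℝ, ∀ n, ‖x n‖ ≤ B) →
        ∃ y z : ℕ → (VA M →L[ℂ] ℂ), IsMartL1 𝓕 y ∧ IsMartL1 𝓕 z ∧ (∀ n, x n = y n + z n) ∧
          ∀ t : ℝ, 0 < t →
            phiE Φ (⨆ n, muCol τ y n t) + phiE Φ (⨆ n, muRow τ z n t) ≤
              ENNReal.ofReal (C / t) * ⨆ n, phiMomL1 τ Φ (x n) := by
  obtain ⟨K, hK1, hK⟩ := OrlAux.delta hΦ h2
  have hpos : ∀ s, 0 < s → 0 < Φ s := fun s hs => OrlAux.pos hΦ hK1 hK hs
  obtain ⟨C, hC, hblk⟩ := exists_blk Φ hΦ h2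
  have hK0 : 0 < K := by linarith
  refine ⟨2 * K ^ 2 * (8 * C + 64 * K), by positivity, ?_⟩
  intro H _ _ _ M τ 𝓕 x hx ⟨B, hB⟩
  obtain ⟨Fe, hFe⟩ : ∃ Fe : ℝ≥0∞, (⨆ n, phiMomL1 τ Φ (x n)) = Fe := ⟨_, rfl⟩
  have hle : ∀ n, phiMomL1 τ Φ (x n) ≤ Fe := fun n => by
    rw [← hFe]
    exact le_iSup (fun n => phiMomL1 τ Φ (x n)) n
  rw [hFe]
  by_cases htop : Fe = ⊤
  · refine ⟨x, fun _ => 0, hx, s3m_zero_mart, fun n => (add_zero _).symm, fun t ht => ?_⟩
    rw [htop, ENNReal.mul_top]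
    · exact le_top
    · rw [Ne, ENNReal.ofReal_eq_zero, not_le]
      positivity
  by_cases hzero : Fe = 0
  · have hxz : ∀ n, x n = 0 := by
      intro n
      refine s3m_x_zero hΦ hpos (hx.l1 n) (fun b => hx.eq_of_le (le_refl n) b) ?_
      exact le_antisymm ((hle n).trans hzero.le) zero_le
    refine ⟨fun _ => 0, fun _ => 0, s3m_zero_mart, s3m_zero_mart, fun n => ?_, fun t ht => ?_⟩
    · rw [hxz n, add_zero]
    · simp only [s3m_muCol_zero, s3m_muRow_zero, ciSup_const]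
      have h0 : phiE Φ 0 = 0 := by
        unfold phiE
        rw [if_neg ENNReal.zero_ne_top, ENNReal.toReal_zero, hΦ.zero, ENNReal.ofReal_zero]
      rw [h0, add_zero]
      exact zero_le
  · obtain ⟨F, hF⟩ : ∃ F : ℝ, Fe.toReal = F := ⟨_, rfl⟩
    have hF0 : 0 < F := by
      rw [← hF]
      exact ENNReal.toReal_pos hzero htop
    have hFe' : Fe = ENNReal.ofReal F := by
      rw [← hF, ENNReal.ofReal_toReal htop]
    have hθ0 : 0 < 1 / (2 * K) := by positivity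
    have hθ1 : 1 / (2 * K) ≤ 1 := by
      rw [div_le_one (by positivity)]
      linarith
    obtain ⟨e, S, y, z, hb⟩ := hblk H M τ 𝓕 x hx B hB F hF0
      (fun n => (hle n).trans hFe'.le) (1 / (2 * K)) hθ0 hθ1
    obtain ⟨Y, Z, ρ, hY, hZ, hYZ, hdY, hdZ, hρ, hρE, hρx⟩ := asm_functionals hx hb
    refine ⟨Y, Z, hY, hZ, hYZ, fun t ht => ?_⟩
    obtain ⟨s₀, hs₀, hΦs, hmax⟩ := exists_level hΦ hpos
      (c := (8 * C + 64 * K) / t * F) (by positivity)
    have h1 : (⨆ n, muCol τ Y n t) ≤ ENNReal.ofReal (4 * s₀) :=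
      iSup_le fun n => asm_col hK1 hK hΦ hpos hC hF0 hx hb hdY hρ hρE hρx ht hs₀ hΦs hmax n
    have h2 : (⨆ n, muRow τ Z n t) ≤ ENNReal.ofReal (4 * s₀) :=
      iSup_le fun n => asm_row hK1 hK hΦ hpos hC hF0 hb hdZ ht hs₀ hmax n
    have h4 : (0 : ℝ) ≤ 4 * s₀ := by positivity
    have h5 : Φ (4 * s₀) ≤ K ^ 2 * ((8 * C + 64 * K) / t * F) := by
      have h6 := OrlAux.delta_pow hK1 hK hs₀.le 2
      rw [hΦs] at h6
      have h7 : (2 : ℝ) ^ 2 * s₀ = 4 * s₀ := by norm_num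
      rwa [h7] at h6
    have h8 : phiE Φ (⨆ n, muCol τ Y n t) ≤
        ENNReal.ofReal (K ^ 2 * ((8 * C + 64 * K) / t * F)) :=
      (s3m_phiE_mono hΦ h4 h1).trans (ENNReal.ofReal_le_ofReal h5)
    have h9 : phiE Φ (⨆ n, muRow τ Z n t) ≤
        ENNReal.ofReal (K ^ 2 * ((8 * C + 64 * K) / t * F)) :=
      (s3m_phiE_mono hΦ h4 h2).trans (ENNReal.ofReal_le_ofReal h5)
    refine (add_le_add h8 h9).trans (le_of_eq ?_)
    rw [hFe', ← ENNReal.ofReal_mul (by positivity), ← ENNReal.ofReal_add (by positivity)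
      (by positivity)]
    congr 1
    ring

end GD64
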