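import Pool.Agent.GD64.S3Main
import Pool.Agent.GD64.Gundy

/-!
# GD64/S3Pres: the final theorem in the language of `Gundy.lean` (operators on `H`, no subtypes)

Transport. `τ : Gundy.Trace M` gives `τ' : SFTrace M` (same `ι`, `ξ`; `vwt` and `Gundy.wt` differ by `RCLike.re` / `Complex.re`: `rfl`).
`𝓕 : Gundy.Filtration τ` gives `𝓕' : SFiltr M τ'` with `E n a = ⟨𝓕.E n a, _⟩`.
`x n : (H →L[ℂ] H) → ℂ` with `Gundy.IsL1` gives a continuous linear functional `x' n` on `VA M`: it is a uniform limit on bounded sets of the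
functionals `b ↦ tr (a b)` (`exists_tauL`), so additive, homogeneous and bounded.
`Gundy.IsFin τ b` for `b ∈ M` iff `IsFin τ' ⟨b, _⟩`; `τ.tr`, `τ'.tr` agree. Apply `stage3`; extend `y' n`, `z' n` by
`y n b = if h : b ∈ M then y' n ⟨b, h⟩ else 0`. `Gundy.RightCut τ (Gundy.dif y k) p a` iff `RestrR` for `df y' k` (`Gundy.dif` at `k = 0`,
`k + 1`). So `Gundy.muCol τ y n t ≤ muCol τ' y' n t` (equal), same for rows; `phiMomL1 τ' Φ (x' n) ≤ Gundy.phiMoment τ Φ (x n)`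
(`va_cfc` with `Φ ∘ sqrt` continuous, `OrlAux.sqrt_cont`), and `phiE` is monotone (`Gundy.phiE = GD64.phiE`).
Order and norm of `VA M` are those of `B(H)`; `((r ^ 2 : ℝ) : ℂ) • 1 = (r ^ 2) • 1`.
-/

namespace GD64

open scoped ComplexOrder InnerProductSpace ENNReal

universe u

namespace Pres

variable {H : Type u} [NormedAddCommGroup H] [InnerProductSpace ℂ H] [CompleteSpace H]
  {M : VonNeumannAlgebra H}

theorem vwt_eq {ι : Type u} (ξ : ι → H) (a : H →L[ℂ] H) : vwt ξ a = Gundy.wt ξ a := rfl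

/-- the trace. -/
def toSF (τ : Gundy.Trace M) : SFTrace M where
  ι := τ.ι
  ξ := τ.ξ
  tracial := τ.tracial
  faithful := τ.faithful
  semifinite := τ.semifinite

theorem wt_eq (τ : Gundy.Trace M) (a : VA M) : (toSF τ).wt a = τ.val a := rfl

theorem tr_eq (τ : Gundy.Trace M) (a : VA M) : (toSF τ).tr a = τ.tr a := rfl

/-- the filtration. -/
def toSFiltr {τ : Gundy.Trace M} (𝓕 : Gundy.Filtration τ) : SFiltr M (toSF τ) where
  N := 𝓕.N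
  mono := 𝓕.mono
  le := 𝓕.le
  semifinite := 𝓕.semifinite
  E := fun n =>
    { toFun := fun a => ⟨𝓕.E n a, 𝓕.le n ((𝓕.condExp n).mem a a.2)⟩
      map_add' := fun a b => Subtype.ext ((𝓕.condExp n).add a a.2 b b.2)
      map_smul' := fun c a => Subtype.ext ((𝓕.condExp n).smul c a a.2) }
  E_mem := fun n a => (𝓕.condExp n).mem a a.2
  E_one := fun n => Subtype.ext (𝓕.condExp n).one
  E_nonneg := fun n a ha => (𝓕.condExp n).nonneg a a.2 ha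
  E_mod := fun n a b c hb hc => Subtype.ext ((𝓕.condExp n).mod a a.2 b hb c hc)
  E_tr := fun n a ha => (𝓕.condExp n).trace a a.2 ha

theorem E_coe {τ : Gundy.Trace M} (𝓕 : Gundy.Filtration τ) (n : ℕ) (a : VA M) :
    (((toSFiltr 𝓕).E n a : VA M) : H →L[ℂ] H) = 𝓕.E n a := rfl

theorem isFin_iff (τ : Gundy.Trace M) (b : VA M) :
    IsFin (toSF τ) b ↔ Gundy.IsFin τ (b : H →L[ℂ] H) := by
  constructor
  · rintro ⟨e, he, hw, hb⟩
    exact ⟨b.2, e, e.2, ⟨congrArg Subtype.val he.isIdempotentElem.eq,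
      congrArg Subtype.val he.isSelfAdjoint.star_eq⟩, hw, congrArg Subtype.val hb⟩
  · rintro ⟨-, e, he, hp, hw, hb⟩
    exact ⟨⟨e, he⟩, ⟨Subtype.ext hp.isIdempotentElem.eq,
      Subtype.ext hp.isSelfAdjoint.star_eq⟩, hw, Subtype.ext hb⟩

/-- an element of `L_1` is a continuous linear functional on `M`. -/
theorem exists_fun (τ : Gundy.Trace M) {φ : (H →L[ℂ] H) → ℂ} (h : Gundy.IsL1 τ φ) :
    ∃ ψ : VA M →L[ℂ] ℂ, IsL1 (toSF τ) ψ ∧ ∀ b : VA M, ψ b = φ b := by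
  -- approximating functionals
  have happ : ∀ ε : ℝ, 0 < ε → ∃ a : VA M, IsFin (toSF τ) a ∧
      ∀ b : VA M, ‖φ b - (toSF τ).tr (a * b)‖ ≤ ε * ‖b‖ := by
    intro ε hε
    obtain ⟨a, ha, hb⟩ := h ε hε
    refine ⟨⟨a, ha.1⟩, (isFin_iff τ _).2 ha, fun b => ?_⟩
    exact hb b b.2
  have hadd : ∀ b c : VA M, φ ((b + c : VA M) : H →L[ℂ] H) = φ b + φ c := by
    intro b c
    rw [← sub_eq_zero, ← norm_le_zero_iff]
    refine le_of_forall_pos_le_add fun ε hε => ?_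
    rw [zero_add]
    obtain ⟨a, ha, hab⟩ := happ (ε / (‖b + c‖ + ‖b‖ + ‖c‖ + 1)) (by positivity)
    obtain ⟨ψ, hψ⟩ := IsFin.exists_tauL ha
    have e1 : φ ((b + c : VA M) : H →L[ℂ] H) - (φ b + φ c) =
        (φ ((b + c : VA M) : H →L[ℂ] H) - ψ (b + c)) - (φ b - ψ b) - (φ c - ψ c) := by
      rw [map_add]; ring
    have h1 := hab (b + c)
    have h2 := hab b
    have h3 := hab c
    rw [← hψ] at h1 h2 h3
    rw [e1]
    refine (norm_sub_le _ _).trans ((add_le_add (norm_sub_le _ _) le_rfl).trans ?_)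
    have e2 : ε / (‖b + c‖ + ‖b‖ + ‖c‖ + 1) * ‖b + c‖ + ε / (‖b + c‖ + ‖b‖ + ‖c‖ + 1) * ‖b‖ +
        ε / (‖b + c‖ + ‖b‖ + ‖c‖ + 1) * ‖c‖ ≤ ε := by
      rw [← mul_add, ← mul_add, div_mul_eq_mul_div, div_le_iff₀ (by positivity)]
      nlinarith
    linarith
  have hsmul : ∀ (c : ℂ) (b : VA M), φ ((c • b : VA M) : H →L[ℂ] H) = c * φ b := by
    intro c b
    rw [← sub_eq_zero, ← norm_le_zero_iff]
    refine le_of_forall_pos_le_add fun ε hε => ?_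
    rw [zero_add]
    obtain ⟨a, ha, hab⟩ := happ (ε / (‖c • b‖ + ‖c‖ * ‖b‖ + 1)) (by positivity)
    obtain ⟨ψ, hψ⟩ := IsFin.exists_tauL ha
    have e1 : φ ((c • b : VA M) : H →L[ℂ] H) - c * φ b =
        (φ ((c • b : VA M) : H →L[ℂ] H) - ψ (c • b)) - c * (φ b - ψ b) := by
      rw [map_smul, smul_eq_mul]; ring
    have h1 := hab (c • b)
    have h2 := hab b
    rw [← hψ] at h1 h2
    rw [e1]
    refine (norm_sub_le _ _).trans ?_
    rw [norm_mul]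
    have h3 : ‖c‖ * ‖φ b - ψ b‖ ≤ ‖c‖ * (ε / (‖c • b‖ + ‖c‖ * ‖b‖ + 1) * ‖b‖) :=
      mul_le_mul_of_nonneg_left h2 (norm_nonneg _)
    have e2 : ε / (‖c • b‖ + ‖c‖ * ‖b‖ + 1) * ‖c • b‖ +
        ‖c‖ * (ε / (‖c • b‖ + ‖c‖ * ‖b‖ + 1) * ‖b‖) ≤ ε := by
      have e3 : ‖c‖ * (ε / (‖c • b‖ + ‖c‖ * ‖b‖ + 1) * ‖b‖) =
          ε / (‖c • b‖ + ‖c‖ * ‖b‖ + 1) * (‖c‖ * ‖b‖) := by ring
      rw [e3, ← mul_add, div_mul_eq_mul_div, div_le_iff₀ (by positivity)]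
      nlinarith
    linarith
  obtain ⟨a, ha, hab⟩ := happ 1 one_pos
  obtain ⟨ψ₀, hψ₀⟩ := IsFin.exists_tauL ha
  let ψ : VA M →L[ℂ] ℂ := LinearMap.mkContinuous
    { toFun := fun b : VA M => φ b
      map_add' := hadd
      map_smul' := fun c b => by
        rw [RingHom.id_apply, smul_eq_mul]
        exact hsmul c b } (1 + ‖ψ₀‖) (fun b => by
      change ‖φ b‖ ≤ _
      have h1 := hab b
      rw [← hψ₀] at h1
      have h2 := ψ₀.le_opNorm b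
      have h3 : ‖φ b‖ ≤ ‖φ b - ψ₀ b‖ + ‖ψ₀ b‖ := by
        have := norm_add_le (φ b - ψ₀ b) (ψ₀ b)
        rwa [sub_add_cancel] at this
      linarith)
  have hψ : ∀ b : VA M, ψ b = φ b := fun b => rfl
  refine ⟨ψ, fun ε hε => ?_, hψ⟩
  obtain ⟨a', ha', hab'⟩ := happ ε hε
  exact ⟨a', ha', fun b => by rw [hψ]; exact hab' b⟩

open Classical in
/-- extension of a functional on `M` by `0`. -/
noncomputable def ext (ψ : VA M →L[ℂ] ℂ) (b : H →L[ℂ] H) : ℂ :=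
  if h : b ∈ M.toStarSubalgebra then ψ ⟨b, h⟩ else 0

theorem ext_coe (ψ : VA M →L[ℂ] ℂ) (b : VA M) : ext ψ (b : H →L[ℂ] H) = ψ b := by
  unfold ext
  rw [dif_pos b.2]

theorem ext_mem (ψ : VA M →L[ℂ] ℂ) {b : H →L[ℂ] H} (h : b ∈ M) : ext ψ b = ψ ⟨b, h⟩ := by
  unfold ext
  rw [dif_pos]

theorem isL1_ext (τ : Gundy.Trace M) {ψ : VA M →L[ℂ] ℂ} (h : IsL1 (toSF τ) ψ) :
    Gundy.IsL1 τ (ext ψ) := by
  intro ε hε
  obtain ⟨a, ha, hb⟩ := h ε hε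
  refine ⟨a, (isFin_iff τ a).1 ha, fun b hbM => ?_⟩
  rw [ext_mem ψ hbM]
  exact hb ⟨b, hbM⟩

theorem dif_df (y : ℕ → (VA M →L[ℂ] ℂ)) (k : ℕ) (b : VA M) :
    Gundy.dif (fun n => ext (y n)) k (b : H →L[ℂ] H) = (df y k : VA M →L[ℂ] ℂ) b := by
  unfold Gundy.dif
  cases k with
  | zero =>
    rw [if_pos rfl]
    exact ext_coe (y 0) b
  | succ k =>
    rw [if_neg (Nat.succ_ne_zero k), Nat.succ_sub_one]
    change ext (y (k + 1)) (b : H →L[ℂ] H) - ext (y k) (b : H →L[ℂ] H) = _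
    rw [ext_coe, ext_coe]
    rfl

theorem rightCut_of (τ : Gundy.Trace M) {y : ℕ → (VA M →L[ℂ] ℂ)} {k : ℕ} {p a : VA M}
    (h : RestrR (toSF τ) (df y k) p a) :
    Gundy.RightCut τ (Gundy.dif (fun n => ext (y n)) k) (p : H →L[ℂ] H) (a : H →L[ℂ] H) := by
  refine ⟨a.2, fun b hb => ?_⟩
  have h1 := h.2 ⟨b, hb.1⟩ ((isFin_iff τ ⟨b, hb.1⟩).2 hb)
  have h2 := dif_df y k (p * ⟨b, hb.1⟩)
  rw [h1] at h2
  exact h2

theorem leftCut_of (τ : Gundy.Trace M) {y : ℕ → (VA M →L[ℂ] ℂ)} {k : ℕ} {p a : VA M}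
    (h : RestrL (toSF τ) (df y k) p a) :
    Gundy.LeftCut τ (Gundy.dif (fun n => ext (y n)) k) (p : H →L[ℂ] H) (a : H →L[ℂ] H) := by
  refine ⟨a.2, fun b hb => ?_⟩
  have h1 := h.2 ⟨b, hb.1⟩ ((isFin_iff τ ⟨b, hb.1⟩).2 hb)
  have h2 := dif_df y k (⟨b, hb.1⟩ * p)
  rw [h1] at h2
  exact h2

theorem isLarge_of (τ : Gundy.Trace M) {t : ℝ} {p : VA M} (hp : IsStarProjection p)
    (h : (toSF τ).wt (1 - p) ≤ ENNReal.ofReal t) : Gundy.IsLarge τ t (p : H →L[ℂ] H) :=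
  ⟨p.2, ⟨congrArg Subtype.val hp.isIdempotentElem.eq,
    congrArg Subtype.val hp.isSelfAdjoint.star_eq⟩, h⟩

theorem coe_sum_va (s : Finset ℕ) (f : ℕ → VA M) :
    ((∑ k ∈ s, f k : VA M) : H →L[ℂ] H) = ∑ k ∈ s, (f k : H →L[ℂ] H) := by
  exact map_sum (M.toStarSubalgebra.subtype) f s

theorem muCol_le (τ : Gundy.Trace M) (y : ℕ → (VA M →L[ℂ] ℂ)) (n : ℕ) (t : ℝ) :
    Gundy.muCol τ (fun n => ext (y n)) n t ≤ muCol (toSF τ) y n t := by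
  refine sInf_le_sInf ?_
  rintro s ⟨r, p, a, hr, hs, hw, hk, hsum⟩
  have hp : IsStarProjection p := (hk 0 (Nat.zero_le n)).1
  refine ⟨r, p, fun k => a k, hr, hs, isLarge_of τ hp hw, fun k hkn => rightCut_of τ (hk k hkn), ?_⟩
  have h1 : ((∑ k ∈ Finset.range (n + 1), star (a k) * a k : VA M) : H →L[ℂ] H) ≤
      (((r ^ 2) • (1 : VA M) : VA M) : H →L[ℂ] H) := hsum
  rw [coe_sum_va] at h1
  exact h1

theorem muRow_le (τ : Gundy.Trace M) (y : ℕ → (VA M →L[ℂ] ℂ)) (n : ℕ) (t : ℝ) :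
    Gundy.muRow τ (fun n => ext (y n)) n t ≤ muRow (toSF τ) y n t := by
  refine sInf_le_sInf ?_
  rintro s ⟨r, p, a, hr, hs, hw, hk, hsum⟩
  have hp : IsStarProjection p := (hk 0 (Nat.zero_le n)).1
  refine ⟨r, p, fun k => a k, hr, hs, isLarge_of τ hp hw, fun k hkn => leftCut_of τ (hk k hkn), ?_⟩
  have h1 : ((∑ k ∈ Finset.range (n + 1), a k * star (a k) : VA M) : H →L[ℂ] H) ≤
      (((r ^ 2) • (1 : VA M) : VA M) : H →L[ℂ] H) := hsum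
  rw [coe_sum_va] at h1
  exact h1

theorem phi_cont {Φ : ℝ → ℝ} (hΦ : IsOrlicz Φ) : Continuous fun r : ℝ => Φ (Real.sqrt r) :=
  hΦ.cont.comp_continuous Real.continuous_sqrt fun r => Real.sqrt_nonneg r

theorem phiMom_le {Φ : ℝ → ℝ} (hΦ : IsOrlicz Φ) (τ : Gundy.Trace M) {φ : (H →L[ℂ] H) → ℂ}
    {ψ : VA M →L[ℂ] ℂ} (h : ∀ b : VA M, ψ b = φ b) :
    phiMomL1 (toSF τ) Φ ψ ≤ Gundy.phiMoment τ Φ φ := by
  refine iSup_le fun p => iSup_le fun a => iSup_le fun hpa => ?_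
  refine le_sSup ⟨p, a, p.2, ⟨congrArg Subtype.val hpa.1.isIdempotentElem.eq,
    congrArg Subtype.val hpa.1.isSelfAdjoint.star_eq⟩, ⟨a.2, fun b hb => ?_⟩, ?_⟩
  · have h1 := hpa.2 ⟨b, hb.1⟩ ((isFin_iff τ ⟨b, hb.1⟩).2 hb)
    rw [h] at h1
    exact h1
  · have h1 := va_cfc M (fun r : ℝ => Φ (Real.sqrt r)) (a := star a * a)
      (IsSelfAdjoint.star_mul_self a) (phi_cont hΦ)
    rw [wt_eq, h1]
    rfl

theorem phiE_mono {Φ : ℝ → ℝ} (hΦ : IsOrlicz Φ) {s s' : ℝ≥0∞} (h : s ≤ s') :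
    Gundy.phiE Φ s ≤ phiE Φ s' := by
  unfold Gundy.phiE phiE
  by_cases h2 : s' = ⊤
  · rw [if_pos h2]
    exact le_top
  · have h1 : s ≠ ⊤ := fun hs => h2 (top_le_iff.1 (hs ▸ h))
    rw [if_neg h1, if_neg h2]
    refine ENNReal.ofReal_le_ofReal (hΦ.mono ?_ ?_ ?_)
    · exact ENNReal.toReal_nonneg
    · exact ENNReal.toReal_nonneg
    · exact ENNReal.toReal_mono h2 h

end Pres

open Pres in
theorem pres (Φ : ℝ → ℝ) (hΦ : Gundy.IsOrlicz Φ) (h2 : Gundy.DeltaTwo Φ) :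
    ∃ C : ℝ, 0 < C ∧
      ∀ (H : Type u) [NormedAddCommGroup H] [InnerProductSpace ℂ H] [CompleteSpace H]
        (M : VonNeumannAlgebra H) (τ : Gundy.Trace M) (𝓕 : Gundy.Filtration τ)
        (x : ℕ → (H →L[ℂ] H) → ℂ), Gundy.IsMartingale 𝓕 x → Gundy.IsBounded M x →
        Gundy.HasDecomposition 𝓕 Φ C x := by
  have hΦ' : IsOrlicz Φ := ⟨hΦ.cont, hΦ.mono, hΦ.conv, hΦ.zero, hΦ.lim⟩
  obtain ⟨C, hC, hmain⟩ := stage3.{u} Φ hΦ' h2
  refine ⟨C, hC, ?_⟩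
  intro H _ _ _ M τ 𝓕 x hx hb
  choose x' hx'1 hx' using fun n => exists_fun τ (hx.l1 n)
  have hmart : IsMartL1 (toSFiltr 𝓕) x' := by
    refine ⟨hx'1, fun n b => ?_⟩
    rw [hx', hx', E_coe]
    exact hx.condExp n b b.2
  obtain ⟨B, hB⟩ := hb
  have hbd : ∃ B : ℝ, ∀ n, ‖x' n‖ ≤ B := by
    refine ⟨max B 0, fun n => ContinuousLinearMap.opNorm_le_bound _ (le_max_right _ _) fun b => ?_⟩
    rw [hx']
    exact (hB n b b.2).trans (mul_le_mul_of_nonneg_right (le_max_left _ _) (norm_nonneg _))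
  obtain ⟨y, z, hy, hz, hyz, hmu⟩ := hmain H M (toSF τ) (toSFiltr 𝓕) x' hmart hbd
  refine ⟨fun n => ext (y n), fun n => ext (z n), ⟨fun n => isL1_ext τ (hy.l1 n), ?_⟩,
    ⟨fun n => isL1_ext τ (hz.l1 n), ?_⟩, ?_, ?_⟩
  · intro n b hbM
    have h1 := hy.ce n ⟨b, hbM⟩
    rw [← ext_coe, E_coe, ← ext_coe] at h1
    exact h1
  · intro n b hbM
    have h1 := hz.ce n ⟨b, hbM⟩
    rw [← ext_coe, E_coe, ← ext_coe] at h1
    exact h1
  · intro n b hbM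
    have h1 := hx' n ⟨b, hbM⟩
    change x n b = ext (y n) b + ext (z n) b
    rw [ext_mem (y n) hbM, ext_mem (z n) hbM, ← h1, hyz n]
    rfl
  · intro t ht
    have h1 := hmu t ht
    refine le_trans (add_le_add ?_ ?_) (h1.trans ?_)
    · exact phiE_mono hΦ' (iSup_mono fun n => muCol_le τ y n t)
    · exact phiE_mono hΦ' (iSup_mono fun n => muRow_le τ z n t)
    · refine mul_le_mul_right ?_ _
      exact iSup_mono fun n => phiMom_le hΦ' τ (hx' n)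

end GD64
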