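import Pool.Agent.GD64.S3Dens

/-!
# GD64/S3Tight: an `L_1`-bounded martingale is uniformly close to a finite corner

`norm_trick`: `φ` with `|φ b| ≤ X ‖b‖`, `w = e w e`, `‖w‖ ≤ 1`, `|φ w| ≥ X - δ`. For `‖v‖ ≤ 1` and `α, β ≥ 0` with
`α² + β² ≤ 1` and a phase `ζ`, `c = α w + β ζ (1-e) v` has `c* c = α² w* w + β² v* (1-e) v ≤ 1` (`w* (1-e) = 0`), so
`X ≥ |φ c| = α |φ w| + β |φ ((1-e) v)|` for the right `ζ`: `|φ ((1-e) v)| ≤ (X - α (X-δ))/β ≤ β X + δ/β`, with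
`α = sqrt (1-β²) ≥ 1 - β²`. Same for `φ (v (1-e))` with `c c*`. `φ b - φ (e b e) = φ ((1-e) b) + φ (e b (1-e))`.

`tight`: let `X = ⨆ n ‖x n‖` (if `X = 0` take `e = e0`). Choose `β` with `2 β X ≤ ε/2`, then `δ` with `2 δ/β ≤ ε/2`. Choose `n₀` with
`‖x n₀‖ > X - δ/2`, `u`, `‖u‖ ≤ 1`, `|x n₀ u| > X - δ/2`, and `e` from `dens` for `x n₀` with `δ/2`: `|x n₀ (e u e)| ≥ X - δ`. For `n ≥ n₀`,
`w = E n₀ (e u e) = e w e`, `‖w‖ ≤ 1`, `x n w = x n₀ (e u e)` (`IsMartL1.eq_of_le`): `norm_trick`. For `n < n₀`: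
`x n b - x n (e b e) = x n₀ (E n b) - x n₀ (e (E n b) e)`.
-/

namespace GD64

open scoped ComplexOrder InnerProductSpace ENNReal
open Filter

universe u

variable {H : Type u} [NormedAddCommGroup H] [InnerProductSpace ℂ H] [CompleteSpace H]
  {M : VonNeumannAlgebra H} {τ : SFTrace M} {𝓕 : SFiltr M τ}


private theorem norm_comb_le {w y : VA M} (hw : star w * y = 0) (hw1 : ‖w‖ ≤ 1) (hy1 : ‖y‖ ≤ 1)
    {α β : ℝ} (hα : 0 ≤ α) (hβ : 0 ≤ β) (hab : α ^ 2 + β ^ 2 ≤ 1) {c d : ℂ} (hc : ‖c‖ ≤ α)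
    (hd : ‖d‖ ≤ β) : ‖c • w + d • y‖ ≤ 1 := by
  have hy : star y * w = 0 := by
    have := congrArg star hw
    simpa using this
  have h1 : star (c • w + d • y) * (c • w + d • y) =
      (star c * c) • (star w * w) + (star d * d) • (star y * y) := by
    simp only [star_add, star_smul, add_mul, mul_add, smul_mul_assoc, mul_smul_comm, hw, hy,
      smul_zero, add_zero, zero_add, smul_smul]
    rw [mul_comm c, mul_comm d]
  have h2 : ‖c • w + d • y‖ * ‖c • w + d • y‖ ≤ 1 := by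
    rw [← CStarRing.norm_star_mul_self, h1]
    refine (norm_add_le _ _).trans ?_
    rw [norm_smul, norm_smul, norm_mul (star c) c, norm_mul (star d) d, norm_star c, norm_star d,
      CStarRing.norm_star_mul_self, CStarRing.norm_star_mul_self]
    have e1 : ‖c‖ * ‖c‖ ≤ α ^ 2 := by nlinarith [norm_nonneg c]
    have e2 : ‖d‖ * ‖d‖ ≤ β ^ 2 := by nlinarith [norm_nonneg d]
    have e3 : ‖w‖ * ‖w‖ ≤ 1 := by nlinarith [norm_nonneg w]
    have e4 : ‖y‖ * ‖y‖ ≤ 1 := by nlinarith [norm_nonneg y]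
    have e5 : ‖c‖ * ‖c‖ * (‖w‖ * ‖w‖) ≤ α ^ 2 * 1 :=
      mul_le_mul e1 e3 (by positivity) (by positivity)
    have e6 : ‖d‖ * ‖d‖ * (‖y‖ * ‖y‖) ≤ β ^ 2 * 1 :=
      mul_le_mul e2 e4 (by positivity) (by positivity)
    linarith
  nlinarith [norm_nonneg (c • w + d • y)]

private theorem exists_phase (z : ℂ) : ∃ ζ : ℂ, ‖ζ‖ ≤ 1 ∧ ζ * z = (‖z‖ : ℂ) := by
  by_cases hz : z = 0
  · exact ⟨0, by simp, by simp [hz]⟩
  · refine ⟨(‖z‖ : ℂ) / z, ?_, ?_⟩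
    · rw [norm_div]
      simp [hz]
    · field_simp

private theorem trick_core {φ : VA M →L[ℂ] ℂ} {X δ β : ℝ} (hX : ∀ b, ‖φ b‖ ≤ X * ‖b‖)
    (hX0 : 0 ≤ X) (hδ : 0 ≤ δ)
    (hβ : 0 < β) (hβ1 : β ≤ 1) {w y : VA M}
    (hco : ∀ c d : ℂ, ‖c‖ ≤ Real.sqrt (1 - β ^ 2) → ‖d‖ ≤ β → ‖c • w + d • y‖ ≤ 1)
    (hφw : X - δ ≤ ‖φ w‖) (hyX : ‖φ y‖ ≤ X) : ‖φ y‖ ≤ β * X + δ / β := by
  have hb2 : 0 ≤ 1 - β ^ 2 := by nlinarith
  obtain ⟨ζ1, hζ1, e1⟩ := exists_phase (φ w)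
  obtain ⟨ζ2, hζ2, e2⟩ := exists_phase (φ y)
  set α := Real.sqrt (1 - β ^ 2) with hα
  have hα0 : 0 ≤ α := Real.sqrt_nonneg _
  have hα2 : α * α = 1 - β ^ 2 := Real.mul_self_sqrt hb2
  have hα3 : 1 - β ^ 2 ≤ α := by
    have : α ≤ 1 := by
      rw [hα]; exact Real.sqrt_le_one.mpr (by nlinarith)
    nlinarith
  have h1 := hco ((α : ℂ) * ζ1) ((β : ℂ) * ζ2)
    (by
      rw [norm_mul, Complex.norm_real, Real.norm_of_nonneg hα0]
      nlinarith [norm_nonneg ζ1])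
    (by
      rw [norm_mul, Complex.norm_real, Real.norm_of_nonneg hβ.le]
      nlinarith [norm_nonneg ζ2])
  have h2 := hX (((α : ℂ) * ζ1) • w + ((β : ℂ) * ζ2) • y)
  have h3 : φ (((α : ℂ) * ζ1) • w + ((β : ℂ) * ζ2) • y) = ((α * ‖φ w‖ + β * ‖φ y‖ : ℝ) : ℂ) := by
    rw [map_add, map_smul, map_smul, smul_eq_mul, smul_eq_mul, mul_assoc, mul_assoc, e1, e2]
    push_cast
    rfl
  rw [h3, Complex.norm_real, Real.norm_of_nonneg (by positivity)] at h2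
  have h4 : α * ‖φ w‖ + β * ‖φ y‖ ≤ X := by
    refine h2.trans ?_
    nlinarith
  by_cases hc : 0 ≤ X - δ
  · have h5 : (1 - β ^ 2) * (X - δ) ≤ α * ‖φ w‖ := mul_le_mul hα3 hφw hc hα0
    have h6 : β * ‖φ y‖ ≤ β ^ 2 * X + δ := by nlinarith [mul_nonneg hb2 hδ, mul_nonneg (sq_nonneg β) hδ]
    have h7 : ‖φ y‖ ≤ (β ^ 2 * X + δ) / β := by
      rw [le_div_iff₀ hβ]; linarith
    refine h7.trans (le_of_eq ?_)
    field_simp
  · push Not at hc
    have h5 : δ ≤ δ / β := by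
      rw [le_div_iff₀ hβ]; nlinarith
    have h6 : 0 ≤ β * X := by positivity
    linarith

theorem norm_trick {φ : VA M →L[ℂ] ℂ} {X δ β : ℝ} (hX : ∀ b, ‖φ b‖ ≤ X * ‖b‖) (hδ : 0 ≤ δ)
    (hβ : 0 < β) (hβ1 : β ≤ 1) {e w : VA M} (he : IsStarProjection e) (hw : e * w * e = w)
    (hw1 : ‖w‖ ≤ 1) (hφw : X - δ ≤ ‖φ w‖) (b : VA M) :
    ‖φ b - φ (e * b * e)‖ ≤ 2 * (β * X + δ / β) * ‖b‖ := by
  have he2 : e * e = e := he.isIdempotentElem
  have hes : star e = e := he.isSelfAdjoint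
  have hq : IsStarProjection (1 - e) := he.one_sub
  have hqe : (1 - e) * e = 0 := by rw [sub_mul, one_mul, he2, sub_self]
  have heq : e * (1 - e) = 0 := by rw [mul_sub, mul_one, he2, sub_self]
  by_cases hX0 : 0 ≤ X
  swap
  · push Not at hX0
    have hb : b = 0 := by
      have h1 := hX b
      have h2 := norm_nonneg (φ b)
      have h3 : ‖b‖ = 0 := by
        have := norm_nonneg b
        nlinarith
      exact norm_eq_zero.mp h3
    simp [hb]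
  have hn : ‖(1 - e : VA M)‖ ≤ 1 := hq.norm_le
  have hne : ‖e‖ ≤ 1 := he.norm_le
  have hb2 : 0 ≤ 1 - β ^ 2 := by nlinarith
  have hab : (Real.sqrt (1 - β ^ 2)) ^ 2 + β ^ 2 ≤ 1 := by
    rw [Real.sq_sqrt hb2]; linarith
  have hws : star w * (1 - e) = 0 := by
    rw [← hw, star_mul, star_mul, hes]
    simp only [mul_assoc]
    rw [heq, mul_zero, mul_zero]
  have hws' : (1 - e) * w = 0 := by
    rw [← hw]
    simp only [← mul_assoc]
    rw [hqe, zero_mul, zero_mul]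
  have hws'' : w * (1 - e) = 0 := by
    rw [← hw]
    simp only [mul_assoc]
    rw [heq, mul_zero, mul_zero]
  -- left
  have hL1 : ∀ v : VA M, ‖v‖ ≤ 1 → ‖φ ((1 - e) * v)‖ ≤ β * X + δ / β := by
    intro v hv
    have hy1 : ‖(1 - e) * v‖ ≤ 1 := (norm_mul_le _ _).trans (by nlinarith [norm_nonneg v, norm_nonneg (1 - e : VA M)])
    refine trick_core hX hX0 hδ hβ hβ1 (w := w) ?_ hφw ((hX _).trans (by nlinarith))
    intro c d hc hd
    refine norm_comb_le ?_ hw1 hy1 (Real.sqrt_nonneg _) hβ.le hab hc hd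
    rw [← mul_assoc, hws, zero_mul]
  have hR1 : ∀ v : VA M, ‖v‖ ≤ 1 → ‖φ (v * (1 - e))‖ ≤ β * X + δ / β := by
    intro v hv
    have hy1 : ‖v * (1 - e)‖ ≤ 1 := (norm_mul_le _ _).trans (by nlinarith [norm_nonneg v, norm_nonneg (1 - e : VA M)])
    refine trick_core hX hX0 hδ hβ hβ1 (w := w) ?_ hφw ((hX _).trans (by nlinarith))
    intro c d hc hd
    rw [← norm_star, star_add, star_smul, star_smul]
    refine norm_comb_le (w := star w) (y := star (v * (1 - e))) ?_ (by rwa [norm_star])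
      (by rwa [norm_star]) (Real.sqrt_nonneg _) hβ.le hab (by rwa [norm_star]) (by rwa [norm_star])
    rw [star_star, star_mul, hq.isSelfAdjoint.star_eq, ← mul_assoc, hws'', zero_mul]
  have hK : 0 ≤ β * X + δ / β := by positivity
  have scale : ∀ (f : VA M →ₗ[ℂ] ℂ), (∀ v : VA M, ‖v‖ ≤ 1 → ‖f v‖ ≤ β * X + δ / β) →
      ∀ v : VA M, ‖f v‖ ≤ (β * X + δ / β) * ‖v‖ := by
    intro f hf v
    by_cases hv : v = 0
    · simp [hv]
    · have hv' : ‖v‖ ≠ 0 := norm_ne_zero_iff.mpr hv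
      have h1 := hf (((‖v‖⁻¹ : ℝ) : ℂ) • v) (by
        rw [norm_smul, Complex.norm_real, norm_inv, norm_norm, inv_mul_cancel₀ hv'])
      rw [map_smul, norm_smul, Complex.norm_real, norm_inv, norm_norm] at h1
      have hvp : 0 < ‖v‖ := norm_pos_iff.mpr hv
      calc ‖f v‖ = ‖v‖ * (‖v‖⁻¹ * ‖f v‖) := by field_simp
        _ ≤ ‖v‖ * (β * X + δ / β) := by gcongr
        _ = _ := mul_comm _ _
  have hL := scale (φ.toLinearMap.comp (LinearMap.mulLeft ℂ (1 - e : VA M))) hL1 b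
  have hR := scale (φ.toLinearMap.comp (LinearMap.mulRight ℂ (1 - e : VA M))) hR1 (e * b)
  have hL' : ‖φ ((1 - e) * b)‖ ≤ (β * X + δ / β) * ‖b‖ := hL
  have hR' : ‖φ (e * b * (1 - e))‖ ≤ (β * X + δ / β) * ‖e * b‖ := hR
  have heb : ‖e * b‖ ≤ ‖b‖ := (norm_mul_le _ _).trans (by nlinarith [norm_nonneg b])
  have hdec : φ b - φ (e * b * e) = φ ((1 - e) * b) + φ (e * b * (1 - e)) := by
    rw [← map_sub, ← map_add]
    congr 1
    noncomm_ring
  rw [hdec]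
  refine (norm_add_le _ _).trans ?_
  have : (β * X + δ / β) * ‖e * b‖ ≤ (β * X + δ / β) * ‖b‖ := by gcongr
  linarith

theorem tight {x : ℕ → (VA M →L[ℂ] ℂ)} (hx : IsMartL1 𝓕 x) {B : ℝ} (hB : ∀ n, ‖x n‖ ≤ B)
    {ε : ℝ} (hε : 0 < ε) {e0 : VA M} (he0 : FinProj 𝓕 e0) :
    ∃ e : VA M, FinProj 𝓕 e ∧ e * e0 = e0 ∧
      ∀ (n : ℕ) (b : VA M), ‖x n b - x n (e * b * e)‖ ≤ ε * ‖b‖ := by
  have hbdd : BddAbove (Set.range fun n => ‖x n‖) := ⟨B, by rintro _ ⟨n, rfl⟩; exact hB n⟩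
  set X : ℝ := ⨆ n, ‖x n‖ with hXdef
  have hXn : ∀ n, ‖x n‖ ≤ X := fun n => le_ciSup hbdd n
  have hX0 : 0 ≤ X := (norm_nonneg _).trans (hXn 0)
  have hXb : ∀ n b, ‖x n b‖ ≤ X * ‖b‖ := fun n b =>
    ((x n).le_opNorm b).trans (mul_le_mul_of_nonneg_right (hXn n) (norm_nonneg b))
  -- β
  set β : ℝ := min 1 (ε / (4 * (X + 1))) with hβdef
  have hβ : 0 < β := lt_min one_pos (by positivity)
  have hβ1 : β ≤ 1 := min_le_left _ _
  have hβX : 2 * (β * X) ≤ ε / 2 := by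
    have h1 : β ≤ ε / (4 * (X + 1)) := min_le_right _ _
    have h2 : β * X ≤ ε / (4 * (X + 1)) * (X + 1) := by
      refine mul_le_mul h1 (by linarith) hX0 (by positivity)
    have h3 : ε / (4 * (X + 1)) * (X + 1) = ε / 4 := by field_simp
    linarith
  set δ : ℝ := β * ε / 4 with hδdef
  have hδ : 0 < δ := by positivity
  have hδβ : 2 * (δ / β) = ε / 2 := by rw [hδdef]; field_simp; ring
  obtain ⟨n₀, hn₀⟩ : ∃ n, X - δ / 4 < ‖x n‖ := exists_lt_of_lt_ciSup (by linarith)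
  -- u
  obtain ⟨u, hu1, hu⟩ : ∃ u : VA M, ‖u‖ ≤ 1 ∧ X - δ / 2 ≤ ‖x n₀ u‖ := by
    by_contra hcon
    push Not at hcon
    have h1 : ‖x n₀‖ ≤ max 0 (X - δ / 2) := by
      refine ContinuousLinearMap.opNorm_le_bound _ (le_max_left _ _) ?_
      intro v
      by_cases hv : v = 0
      · simp [hv]
      · have hvp : 0 < ‖v‖ := norm_pos_iff.mpr hv
        have hv' : ‖v‖ ≠ 0 := hvp.ne'
        have h1 := hcon (((‖v‖⁻¹ : ℝ) : ℂ) • v) (by
          rw [norm_smul, Complex.norm_real, norm_inv, norm_norm, inv_mul_cancel₀ hv'])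
        rw [map_smul, norm_smul, Complex.norm_real, norm_inv, norm_norm] at h1
        calc ‖x n₀ v‖ = (‖v‖⁻¹ * ‖x n₀ v‖) * ‖v‖ := by field_simp
          _ ≤ max 0 (X - δ / 2) * ‖v‖ := by
            gcongr
            exact h1.le.trans (le_max_right _ _)
    have h2 : max 0 (X - δ / 2) < ‖x n₀‖ ∨ ‖x n₀‖ = 0 := by
      rcases eq_or_lt_of_le (norm_nonneg (x n₀)) with h | h
      · exact Or.inr h.symm
      · left
        refine max_lt h ?_
        linarith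
    rcases h2 with h2 | h2
    · exact absurd h1 (not_le.mpr h2)
    · have h3 := hcon 0 (by simp)
      have h4 := norm_nonneg (x n₀ 0)
      rw [h2] at hn₀
      linarith
  obtain ⟨e, he, hee0, hd⟩ := dens (𝓕 := 𝓕) (hx.l1 n₀) (half_pos hδ) he0
  refine ⟨e, he, hee0, ?_⟩
  have hep : IsStarProjection e := he.proj
  have hne : ‖e‖ ≤ 1 := hep.norm_le
  have he2 : e * e = e := hep.isIdempotentElem
  -- the test element
  have hcorner : e * (e * u * e) * e = e * u * e := by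
    have : e * (e * u * e) * e = (e * e) * u * (e * e) := by noncomm_ring
    rw [this, he2]
  have hnw0 : ‖e * u * e‖ ≤ 1 := by
    refine (norm_mul_le _ _).trans ?_
    have : ‖e * u‖ ≤ 1 := (norm_mul_le _ _).trans (by nlinarith [norm_nonneg e, norm_nonneg u])
    nlinarith [norm_nonneg (e * u), norm_nonneg e]
  set w : VA M := 𝓕.E n₀ (e * u * e) with hwdef
  have hw : e * w * e = w := 𝓕.E_corner he hcorner n₀
  have hw1 : ‖w‖ ≤ 1 := (𝓕.norm_E_le n₀ _).trans hnw0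
  have hxw : X - δ ≤ ‖x n₀ (e * u * e)‖ := by
    have h1 := hd u
    have h2 : ‖x n₀ u‖ ≤ ‖x n₀ (e * u * e)‖ + ‖x n₀ u - x n₀ (e * u * e)‖ := by
      have := norm_add_le (x n₀ (e * u * e)) (x n₀ u - x n₀ (e * u * e))
      simpa using this
    have h3 : δ / 2 * ‖u‖ ≤ δ / 2 := by nlinarith
    linarith
  have hgen : ∀ n, n₀ ≤ n → ∀ b : VA M, ‖x n b - x n (e * b * e)‖ ≤ ε * ‖b‖ := by
    intro n hn b
    have h1 : x n w = x n₀ (e * u * e) := by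
      rw [hwdef, hx.eq_of_le hn]
    have h2 := norm_trick (fun b => hXb n b) hδ.le hβ hβ1 hep hw hw1 (by rw [h1]; exact hxw) b
    refine h2.trans ?_
    have h3 : 2 * (β * X + δ / β) ≤ ε := by linarith
    gcongr
  intro n b
  by_cases hn : n₀ ≤ n
  · exact hgen n hn b
  · push Not at hn
    have h1 : ∀ c : VA M, x n c = x n₀ (𝓕.E n c) := fun c => (hx.eq_of_le hn.le c).symm
    have h2 : 𝓕.E n (e * b * e) = e * 𝓕.E n b * e := by
      rw [𝓕.E_mul_right (he.mem_n n), 𝓕.E_mul_left (he.mem_n n)]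
    rw [h1 b, h1 (e * b * e), h2]
    refine (hgen n₀ le_rfl _).trans ?_
    gcongr
    exact 𝓕.norm_E_le n b

end GD64
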