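import Pool.Agent.GD64.VNSupp

/-!
# GD64/VNTr: normality of the trace; meets of projections; weak limits
-/

namespace GD64

open scoped ComplexOrder InnerProductSpace
open Filter

universe u

variable {H : Type u} [NormedAddCommGroup H] [InnerProductSpace ℂ H] [CompleteSpace H]
  {M : VonNeumannAlgebra H}

theorem FinTrace.tendsto (τ : FinTrace M) {ι : Type*} {F : Filter ι} {b : ι → VA M}
    {b' : VA M} {C : ℝ} (hC : ∀ i, ‖(b i : H →L[ℂ] H)‖ ≤ C)
    (h : ∀ ξ η : H, Tendsto (fun i => ⟪ξ, (b i : H →L[ℂ] H) η⟫_ℂ) F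
      (nhds ⟪ξ, (b' : H →L[ℂ] H) η⟫_ℂ)) :
    Tendsto (fun i => τ.tr (b i)) F (nhds (τ.tr b')) := by
  obtain ⟨ξ, η, hξ, hη, htr⟩ := τ.tr_normal
  simp_rw [htr]
  refine tendsto_tsum_of_dominated_convergence
    (bound := fun i => |C| * (‖ξ i‖ ^ 2 + ‖η i‖ ^ 2)) ((hξ.add hη).mul_left _)
    (fun k => h (ξ k) (η k)) (Eventually.of_forall fun n k => ?_)
  have h1 : ‖(b n : H →L[ℂ] H) (η k)‖ ≤ |C| * ‖η k‖ :=
    ((b n : H →L[ℂ] H).le_opNorm (η k)).trans
      (mul_le_mul_of_nonneg_right ((hC n).trans (le_abs_self C)) (norm_nonneg _))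
  have h2 : ‖⟪ξ k, (b n : H →L[ℂ] H) (η k)⟫_ℂ‖ ≤ ‖ξ k‖ * (|C| * ‖η k‖) :=
    (norm_inner_le_norm _ _).trans (mul_le_mul_of_nonneg_left h1 (norm_nonneg _))
  have h3 : 0 ≤ |C| * ((‖ξ k‖ - ‖η k‖) ^ 2 + (‖ξ k‖ ^ 2 + ‖η k‖ ^ 2)) := by positivity
  nlinarith

/-- inverses stay in the von Neumann algebra. -/
theorem vnTr_inverse_mem (N : VonNeumannAlgebra H) {a : H →L[ℂ] H} (ha : a ∈ N) :
    Ring.inverse a ∈ N := by
  rw [← VonNeumannAlgebra.commutant_commutant N, VonNeumannAlgebra.mem_commutant_iff]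
  intro g hg
  rw [VonNeumannAlgebra.mem_commutant_iff] at hg
  have hc : g * a = a * g := (hg a ha).symm
  by_cases hu : IsUnit a
  · calc g * Ring.inverse a = (Ring.inverse a * a) * (g * Ring.inverse a) := by
          rw [Ring.inverse_mul_cancel _ hu, one_mul]
      _ = Ring.inverse a * (a * g) * Ring.inverse a := by simp only [mul_assoc]
      _ = Ring.inverse a * g * (a * Ring.inverse a) := by rw [← hc]; simp only [mul_assoc]
      _ = Ring.inverse a * g := by rw [Ring.mul_inverse_cancel _ hu, mul_one]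
  · rw [Ring.inverse_non_unit _ hu, mul_zero, zero_mul]

theorem vnTr_real_smul_one_mem (N : VonNeumannAlgebra H) (c : ℝ) :
    c • (1 : H →L[ℂ] H) ∈ N := by
  have h1 : (1 : H →L[ℂ] H) ∈ N := one_mem N
  have h2 : (c : ℂ) • (1 : H →L[ℂ] H) ∈ N.toStarSubalgebra :=
    N.toStarSubalgebra.smul_mem h1 (c : ℂ)
  have h3 : (c : ℂ) • (1 : H →L[ℂ] H) = c • (1 : H →L[ℂ] H) := by
    ext x
    simp
  rw [← h3]
  exact h2

theorem vnTr_isUnit_add_smul {h : H →L[ℂ] H} (h0 : 0 ≤ h) {ε : ℝ} (hε : 0 < ε) :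
    IsUnit (h + ε • (1 : H →L[ℂ] H)) := by
  refine isUnit_of_accretive (c := 2 * ε) (by positivity) ?_
  have hs : star h = h := (IsSelfAdjoint.of_nonneg h0).star_eq
  have e1 : h + ε • (1 : H →L[ℂ] H) + star (h + ε • (1 : H →L[ℂ] H)) =
      (2 * ε) • (1 : H →L[ℂ] H) + (2 : ℝ) • h := by
    rw [star_add, hs, star_smul, star_one, two_mul, add_smul, two_smul]
    simp only [star_trivial]
    abel
  rw [e1]
  have h2 : (0 : H →L[ℂ] H) ≤ (2 : ℝ) • h := smul_nonneg (by norm_num) h0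
  exact le_add_of_nonneg_right h2

/-- `(h(h+ε)⁻¹) → supp h` in the weak operator topology. -/
theorem FinTrace.tendsto_supp (τ : FinTrace M) {h : H →L[ℂ] H} (h0 : 0 ≤ h) (b : ℕ → VA M)
    (hb : ∀ n : ℕ, (b n : H →L[ℂ] H) =
      h * Ring.inverse (h + ((1 : ℝ) / (n + 1)) • (1 : H →L[ℂ] H))) (P : VA M)
    (hP : (P : H →L[ℂ] H) = suppP h) :
    Tendsto (fun n => τ.tr (b n)) atTop (nhds (τ.tr P)) := by
  refine τ.tendsto (C := 1) (fun n => ?_) (fun ξ η => ?_)
  · rw [hb n]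
    exact norm_mul_inverse_le h0 (by positivity)
  · have h1 := suppP_tendsto h0 η
    have h2 : Tendsto (fun n : ℕ => (b n : H →L[ℂ] H) η) atTop (nhds ((P : H →L[ℂ] H) η)) := by
      rw [hP]
      refine h1.congr fun n => ?_
      rw [hb n]
    exact tendsto_const_nhds.inner h2

theorem FinTrace.supp_eq (τ : FinTrace M) (a : VA M) (P Q : VA M)
    (hP : (P : H →L[ℂ] H) = suppP (star (a : H →L[ℂ] H) * (a : H →L[ℂ] H)))
    (hQ : (Q : H →L[ℂ] H) = suppP ((a : H →L[ℂ] H) * star (a : H →L[ℂ] H))) :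
    τ.tr P = τ.tr Q := by
  set x : H →L[ℂ] H := (a : H →L[ℂ] H) with hx
  have hxM : x ∈ M := a.2
  have hxsM : star x ∈ M := star_mem hxM
  have hh0 : 0 ≤ star x * x := star_mul_self_nonneg x
  have hk0 : 0 ≤ x * star x := mul_star_self_nonneg x
  have hmem1 : ∀ n : ℕ, Ring.inverse (star x * x + ((1 : ℝ) / (n + 1)) • (1 : H →L[ℂ] H)) ∈ M :=
    fun n => vnTr_inverse_mem M (add_mem (mul_mem hxsM hxM) (vnTr_real_smul_one_mem M _))
  have hmem2 : ∀ n : ℕ, Ring.inverse (x * star x + ((1 : ℝ) / (n + 1)) • (1 : H →L[ℂ] H)) ∈ M :=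
    fun n => vnTr_inverse_mem M (add_mem (mul_mem hxM hxsM) (vnTr_real_smul_one_mem M _))
  set r1 : ℕ → VA M := fun n => ⟨_, hmem1 n⟩ with hr1
  set r2 : ℕ → VA M := fun n => ⟨_, hmem2 n⟩ with hr2
  have hint : ∀ n, a * r1 n = r2 n * a := by
    intro n
    apply Subtype.ext
    change x * Ring.inverse (star x * x + ((1 : ℝ) / (n + 1)) • (1 : H →L[ℂ] H)) =
      Ring.inverse (x * star x + ((1 : ℝ) / (n + 1)) • (1 : H →L[ℂ] H)) * x
    have hε : (0 : ℝ) < 1 / (n + 1) := by positivity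
    have hu1 := vnTr_isUnit_add_smul hh0 hε
    have hu2 := vnTr_isUnit_add_smul hk0 hε
    have e1 : x * (star x * x + ((1 : ℝ) / (n + 1)) • (1 : H →L[ℂ] H)) =
        (x * star x + ((1 : ℝ) / (n + 1)) • (1 : H →L[ℂ] H)) * x := by
      rw [mul_add, add_mul, mul_smul_comm, smul_mul_assoc, mul_one, one_mul, mul_assoc]
    calc x * Ring.inverse (star x * x + ((1 : ℝ) / (n + 1)) • (1 : H →L[ℂ] H))
        = (Ring.inverse (x * star x + ((1 : ℝ) / (n + 1)) • (1 : H →L[ℂ] H)) *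
            (x * star x + ((1 : ℝ) / (n + 1)) • (1 : H →L[ℂ] H))) * x *
            Ring.inverse (star x * x + ((1 : ℝ) / (n + 1)) • (1 : H →L[ℂ] H)) := by
          rw [Ring.inverse_mul_cancel _ hu2, one_mul]
      _ = Ring.inverse (x * star x + ((1 : ℝ) / (n + 1)) • (1 : H →L[ℂ] H)) * x *
            ((star x * x + ((1 : ℝ) / (n + 1)) • (1 : H →L[ℂ] H)) *
            Ring.inverse (star x * x + ((1 : ℝ) / (n + 1)) • (1 : H →L[ℂ] H))) := by
          rw [mul_assoc (Ring.inverse _) _ x, ← e1]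
          simp only [mul_assoc]
      _ = Ring.inverse (x * star x + ((1 : ℝ) / (n + 1)) • (1 : H →L[ℂ] H)) * x := by
          rw [Ring.mul_inverse_cancel _ hu1, mul_one]
  have h1 := τ.tendsto_supp hh0 (fun n => star a * a * r1 n) (fun n => rfl) P hP
  have h2 := τ.tendsto_supp hk0 (fun n => a * star a * r2 n) (fun n => rfl) Q hQ
  have h3 : ∀ n, τ.tr (star a * a * r1 n) = τ.tr (a * star a * r2 n) := by
    intro n
    calc τ.tr (star a * a * r1 n) = τ.tr (star a * (r2 n * a)) := by rw [mul_assoc, hint n]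
      _ = τ.tr ((r2 n * a) * star a) := τ.tr_comm _ _
      _ = τ.tr (r2 n * (a * star a)) := by rw [mul_assoc]
      _ = τ.tr (a * star a * r2 n) := τ.tr_comm _ _
  have h4 : (fun n => τ.tr (star a * a * r1 n)) = fun n => τ.tr (a * star a * r2 n) :=
    funext h3
  exact tendsto_nhds_unique h1 (h4 ▸ h2)

theorem FinTrace.re_proj_nonneg (τ : FinTrace M) {p : VA M} (hp : IsStarProjection p) :
    0 ≤ (τ.tr p).re := by
  have h := τ.tr_pos p
  rw [hp.isSelfAdjoint.star_eq, hp.isIdempotentElem.eq] at h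
  exact (Complex.le_def.mp h).1

theorem FinTrace.meet (τ : FinTrace M) (N : VonNeumannAlgebra H) (hN : N ≤ M) (e f : VA M)
    (he : (e : H →L[ℂ] H) ∈ N) (hf : (f : H →L[ℂ] H) ∈ N) (hpe : IsStarProjection e)
    (hpf : IsStarProjection f) :
    ∃ g : VA M, (g : H →L[ℂ] H) ∈ N ∧ IsStarProjection g ∧ e * g = g ∧ f * g = g ∧
      (∀ h : VA M, IsStarProjection h → e * h = h → f * h = h → g * h = h) ∧
      (τ.tr (1 - g)).re ≤ (τ.tr (1 - e)).re + (τ.tr (1 - f)).re := by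
  set a : VA M := (1 - f) * e with ha
  have hee : e * e = e := hpe.isIdempotentElem.eq
  have hff : f * f = f := hpf.isIdempotentElem.eq
  have hes : star e = e := hpe.isSelfAdjoint.star_eq
  have hfs : star f = f := hpf.isSelfAdjoint.star_eq
  have hsa : star a = e * (1 - f) := by
    rw [ha, star_mul, star_sub, star_one, hes, hfs]
  have h11 : (1 - f) * (1 - f) = 1 - f := by
    rw [mul_sub, mul_one, sub_mul, one_mul, hff, sub_self, sub_zero]
  have hae : a * e = a := by rw [ha, mul_assoc, hee]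
  have haN : (a : H →L[ℂ] H) ∈ N := mul_mem (sub_mem (one_mem N) hf) he
  have hhs : IsSelfAdjoint (star (a : H →L[ℂ] H) * (a : H →L[ℂ] H)) :=
    IsSelfAdjoint.star_mul_self _
  have hks : IsSelfAdjoint ((a : H →L[ℂ] H) * star (a : H →L[ℂ] H)) :=
    IsSelfAdjoint.mul_star_self _
  have hPN : suppP (star (a : H →L[ℂ] H) * (a : H →L[ℂ] H)) ∈ N :=
    suppP_mem N hhs (mul_mem (star_mem haN) haN)
  have hQN : suppP ((a : H →L[ℂ] H) * star (a : H →L[ℂ] H)) ∈ N :=
    suppP_mem N hks (mul_mem haN (star_mem haN))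
  set P : VA M := ⟨_, hN hPN⟩ with hP
  set Q : VA M := ⟨_, hN hQN⟩ with hQ
  have hPp : IsStarProjection P :=
    ⟨Subtype.ext (suppP_proj _).isIdempotentElem.eq,
      Subtype.ext (suppP_proj _).isSelfAdjoint.star_eq⟩
  have hQp : IsStarProjection Q :=
    ⟨Subtype.ext (suppP_proj _).isIdempotentElem.eq,
      Subtype.ext (suppP_proj _).isSelfAdjoint.star_eq⟩
  have hPQ : τ.tr P = τ.tr Q := τ.supp_eq a P Q rfl rfl
  have hPs : star P = P := hPp.isSelfAdjoint.star_eq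
  have hQs : star Q = Q := hQp.isSelfAdjoint.star_eq
  have heP : e * P = P := by
    apply Subtype.ext
    refine mul_suppP_of_mul ?_
    have : e * (star a * a) = star a * a := by
      have h1 : e * star a = star a := by rw [hsa, ← mul_assoc, hee]
      rw [← mul_assoc, h1]
    exact congrArg Subtype.val this
  have hPe : P * e = P := by
    have := congrArg star heP
    rwa [star_mul, hes, hPs] at this
  have hfQ : (1 - f) * Q = Q := by
    apply Subtype.ext
    refine mul_suppP_of_mul ?_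
    have : (1 - f) * (a * star a) = a * star a := by
      have h1 : (1 - f) * a = a := by
        rw [ha, ← mul_assoc, h11]
      rw [← mul_assoc, h1]
    exact congrArg Subtype.val this
  have hQf : Q * (1 - f) = Q := by
    have := congrArg star hfQ
    rwa [star_mul, star_sub, star_one, hfs, hQs] at this
  have hgp : IsStarProjection (e - P) := by
    refine ⟨?_, ?_⟩
    · change (e - P) * (e - P) = e - P
      rw [mul_sub, sub_mul, sub_mul, hee, heP, hPe, hPp.isIdempotentElem.eq]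
      simp
    · change star (e - P) = e - P
      rw [star_sub, hes, hPs]
  have heg : e * (e - P) = e - P := by rw [mul_sub, hee, heP]
  have hhP : star a * a * P = star a * a := by
    apply Subtype.ext
    exact mul_suppP hhs
  have hhe : star a * a * e = star a * a := by
    rw [mul_assoc, hae]
  have hag : a * (e - P) = 0 := by
    have h1 : star (a * (e - P)) * (a * (e - P)) = 0 := by
      calc star (a * (e - P)) * (a * (e - P)) = star (e - P) * (star a * a * (e - P)) := by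
            rw [star_mul]; simp only [mul_assoc]
        _ = 0 := by rw [mul_sub (star a * a), hhP, hhe, sub_self, mul_zero]
    exact CStarRing.star_mul_self_eq_zero_iff _ |>.mp h1
  have hfg : f * (e - P) = e - P := by
    have h1 : (1 - f) * (e - P) = 0 := by
      have : a * (e - P) = (1 - f) * (e - P) := by rw [ha, mul_assoc, heg]
      rw [← this, hag]
    rw [sub_mul, one_mul, sub_eq_zero] at h1
    exact h1.symm
  refine ⟨e - P, sub_mem he hPN, hgp, heg, hfg, ?_, ?_⟩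
  · intro h _ h1 h2
    have h3 : P * h = 0 := by
      apply Subtype.ext
      refine suppP_annih hhs ?_
      have : star a * a * h = 0 := by
        have h5 : a * h = 0 := by
          rw [ha, mul_assoc, h1, sub_mul, one_mul, h2, sub_self]
        rw [mul_assoc, h5, mul_zero]
      exact congrArg Subtype.val this
    rw [sub_mul, h1, h3, sub_zero]
  · have h1 : τ.tr (1 - (e - P)) = τ.tr (1 - e) + τ.tr P := by
      rw [← map_add]
      congr 1
      abel
    have h2 : IsStarProjection ((1 - f) - Q) := by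
      refine ⟨?_, ?_⟩
      · change ((1 - f) - Q) * ((1 - f) - Q) = (1 - f) - Q
        rw [mul_sub, sub_mul (1 - f) Q (1 - f), sub_mul (1 - f) Q Q, h11, hfQ, hQf,
          hQp.isIdempotentElem.eq]
        simp
      · change star ((1 - f) - Q) = (1 - f) - Q
        rw [star_sub, star_sub, star_one, hfs, hQs]
    have h3 := τ.re_proj_nonneg h2
    rw [map_sub, Complex.sub_re] at h3
    rw [h1, hPQ, Complex.add_re]
    linarith

theorem vnTr_exists_lim_ball {c : ℝ} (z : ℕ → ℂ) (hz : ∀ n, ‖z n‖ ≤ c) :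
    ∃ w : ℂ, Tendsto z (hyperfilter ℕ : Filter ℕ) (nhds w) := by
  have hK : IsCompact (Metric.closedBall (0 : ℂ) c) := isCompact_closedBall _ _
  have h1 : ((hyperfilter ℕ).map z : Filter ℂ) ≤ 𝓟 (Metric.closedBall (0 : ℂ) c) := by
    rw [le_principal_iff]
    change {n | z n ∈ Metric.closedBall (0 : ℂ) c} ∈ (hyperfilter ℕ : Filter ℕ)
    refine Filter.univ_mem' fun n => ?_
    simpa using hz n
  obtain ⟨w, -, hw⟩ := hK.ultrafilter_le_nhds _ h1
  exact ⟨w, hw⟩

theorem exists_wot_lim (M : VonNeumannAlgebra H) (b : ℕ → VA M) {C : ℝ}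
    (hC : ∀ n, ‖(b n : H →L[ℂ] H)‖ ≤ C) :
    ∃ b' : VA M, ∀ ξ η : H, Tendsto (fun n => ⟪ξ, (b n : H →L[ℂ] H) η⟫_ℂ)
      (hyperfilter ℕ : Filter ℕ) (nhds ⟪ξ, (b' : H →L[ℂ] H) η⟫_ℂ) := by
  have hbd : ∀ ξ η : H, ∀ n, ‖⟪ξ, (b n : H →L[ℂ] H) η⟫_ℂ‖ ≤ C * ‖ξ‖ * ‖η‖ := by
    intro ξ η n
    have h1 : ‖(b n : H →L[ℂ] H) η‖ ≤ C * ‖η‖ :=
      ((b n : H →L[ℂ] H).le_opNorm η).trans
        (mul_le_mul_of_nonneg_right (hC n) (norm_nonneg _))
    calc ‖⟪ξ, (b n : H →L[ℂ] H) η⟫_ℂ‖ ≤ ‖ξ‖ * ‖(b n : H →L[ℂ] H) η‖ := norm_inner_le_norm _ _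
      _ ≤ ‖ξ‖ * (C * ‖η‖) := mul_le_mul_of_nonneg_left h1 (norm_nonneg _)
      _ = C * ‖ξ‖ * ‖η‖ := by ring
  have hex : ∀ ξ η : H, ∃ w : ℂ, Tendsto (fun n => ⟪ξ, (b n : H →L[ℂ] H) η⟫_ℂ)
      (hyperfilter ℕ : Filter ℕ) (nhds w) := fun ξ η => vnTr_exists_lim_ball _ (hbd ξ η)
  choose B hB using hex
  have hadd1 : ∀ ξ₁ ξ₂ η, B (ξ₁ + ξ₂) η = B ξ₁ η + B ξ₂ η := by
    intro ξ₁ ξ₂ η
    refine tendsto_nhds_unique (hB _ _) ?_
    refine ((hB ξ₁ η).add (hB ξ₂ η)).congr fun n => ?_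
    rw [inner_add_left]
  have hsm1 : ∀ (c : ℂ) ξ η, B (c • ξ) η = (starRingEnd ℂ) c • B ξ η := by
    intro c ξ η
    refine tendsto_nhds_unique (hB _ _) ?_
    refine ((hB ξ η).const_smul ((starRingEnd ℂ) c)).congr fun n => ?_
    rw [inner_smul_left, smul_eq_mul]
  have hadd2 : ∀ ξ η₁ η₂, B ξ (η₁ + η₂) = B ξ η₁ + B ξ η₂ := by
    intro ξ η₁ η₂
    refine tendsto_nhds_unique (hB _ _) ?_
    refine ((hB ξ η₁).add (hB ξ η₂)).congr fun n => ?_
    rw [map_add, inner_add_right]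
  have hsm2 : ∀ (c : ℂ) ξ η, B ξ (c • η) = (RingHom.id ℂ) c • B ξ η := by
    intro c ξ η
    refine tendsto_nhds_unique (hB _ _) ?_
    refine ((hB ξ η).const_smul c).congr fun n => ?_
    rw [map_smul, inner_smul_right, smul_eq_mul]
  have hBb : ∀ ξ η, ‖B ξ η‖ ≤ C * ‖ξ‖ * ‖η‖ := fun ξ η =>
    le_of_tendsto (hB ξ η).norm (Eventually.of_forall (hbd ξ η))
  let B₀ : H →ₗ⋆[ℂ] H →ₗ[ℂ] ℂ := LinearMap.mk₂'ₛₗ (starRingEnd ℂ) (RingHom.id ℂ) B hadd1
    (fun c m n => hsm1 c m n) hadd2 (fun c m n => hsm2 c m n)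
  let B₁ : H →L⋆[ℂ] H →L[ℂ] ℂ := LinearMap.mkContinuous₂ B₀ C hBb
  let T : H →L[ℂ] H := InnerProductSpace.continuousLinearMapOfBilin B₁
  have hT : ∀ ξ η, ⟪T ξ, η⟫_ℂ = B ξ η := fun ξ η =>
    InnerProductSpace.continuousLinearMapOfBilin_apply B₁ ξ η
  have hS : ∀ ξ η, ⟪ξ, (star T) η⟫_ℂ = B ξ η := by
    intro ξ η
    rw [ContinuousLinearMap.star_eq_adjoint, ContinuousLinearMap.adjoint_inner_right, hT]
  have hlim : ∀ ξ η : H, Tendsto (fun n => ⟪ξ, (b n : H →L[ℂ] H) η⟫_ℂ)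
      (hyperfilter ℕ : Filter ℕ) (nhds ⟪ξ, (star T) η⟫_ℂ) := by
    intro ξ η
    rw [hS]
    exact hB ξ η
  have hmem : star T ∈ M := by
    rw [← VonNeumannAlgebra.commutant_commutant M, VonNeumannAlgebra.mem_commutant_iff]
    intro y hy
    rw [VonNeumannAlgebra.mem_commutant_iff] at hy
    refine ContinuousLinearMap.ext fun η => ?_
    refine ext_inner_left ℂ fun ξ => ?_
    change ⟪ξ, y ((star T) η)⟫_ℂ = ⟪ξ, (star T) (y η)⟫_ℂ
    have h1 := hlim ξ (y η)
    have h2 := hlim (ContinuousLinearMap.adjoint y ξ) η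
    rw [ContinuousLinearMap.adjoint_inner_left] at h2
    refine tendsto_nhds_unique (h2.congr fun n => ?_) h1
    rw [ContinuousLinearMap.adjoint_inner_left]
    have h3 := hy (b n : H →L[ℂ] H) (b n).2
    have h4 := congrArg (fun S : H →L[ℂ] H => S η) h3
    change (b n : H →L[ℂ] H) (y η) = y ((b n : H →L[ℂ] H) η) at h4
    rw [h4]
  exact ⟨⟨star T, hmem⟩, hlim⟩

end GD64
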