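import Pool.Agent.GD64.S3Wt
import Pool.Agent.GD64.VNTr

/-!
# GD64/S3Tr: the linear trace on products of Hilbert-Schmidt elements

`TSum τ c`: the sum defining `tr c` converges (a linear condition).
* `HS.tsum_mul`: `⟨ξ_i, x y ξ_i⟩ = ⟨x* ξ_i, y ξ_i⟩`, `∑ ‖x* ξ_i‖² = wt (x x*) < ∞`, `∑ ‖y ξ_i‖² = wt (y* y) < ∞`
  (`(b* b)` has `q_i = ‖b ξ_i‖²`); Cauchy-Schwarz gives summability and `HS.norm_tr_le`.
* `tr_star_mul_self`: all terms are `‖x ξ_i‖² ≥ 0`.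
* `HS.tr_comm`: polarisation: `4 x y = ∑_{k<4} i^k (y + i^k x*)* (y + i^k x*)` up to conjugation conventions, and the same with
  `z z*` gives `y x`; `wt (z* z) = wt (z z*)`.
* `tr_of_nonneg`: `a = c * c`, `c` self-adjoint, `HS c`.
* finite elements: `b = e b e` is a product `e * b` (and `b * e`) of two `HS` elements; `a * b = (a * e) * b`.
  `tr (a b) = tr ((a e) b) = tr (b (a e)) = tr (b a e)`, and `tr ((b a) e) = tr (e (b a)) = tr (b a)`.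
* `IsFin.norm_tr_le`: `‖tr ((a e) b)‖ ≤ wt(e a* ...)`: Cauchy-Schwarz with `x = a e`: use
  `wt (x x*) = wt (x* x) ≤ ‖a‖² wt e`, `wt (b* b) ≤ ‖b‖² wt e`.
* `tr_tendsto`: `tr (b_n c) = tr (e b_n c) = ∑ ⟨e ξ_i, b_n c ξ_i⟩`, dominated by `C ‖e ξ_i‖ ‖c ξ_i‖`
  (`tendsto_tsum_of_dominated_convergence`, as in `FinTrace.tendsto`).
-/

namespace GD64

open scoped ComplexOrder InnerProductSpace ENNReal
open Filter

universe u

variable {H : Type u} [NormedAddCommGroup H] [InnerProductSpace ℂ H] [CompleteSpace H]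
  {M : VonNeumannAlgebra H}

/-- the sum defining `tr c` converges. -/
def TSum (τ : SFTrace M) (c : VA M) : Prop :=
  Summable fun i => ⟪τ.ξ i, (c : H →L[ℂ] H) (τ.ξ i)⟫_ℂ

variable {τ : SFTrace M}

theorem TSum.zero : TSum τ 0 := by
  have h : (fun i => ⟪τ.ξ i, ((0 : VA M) : H →L[ℂ] H) (τ.ξ i)⟫_ℂ) = fun _ => 0 := by
    funext i
    exact inner_zero_right _
  unfold TSum
  rw [h]
  exact summable_zero

theorem s3Tr_add_fun (τ : SFTrace M) (a b : VA M) :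
    (fun i => ⟪τ.ξ i, ((a + b : VA M) : H →L[ℂ] H) (τ.ξ i)⟫_ℂ) =
      fun i => ⟪τ.ξ i, (a : H →L[ℂ] H) (τ.ξ i)⟫_ℂ + ⟪τ.ξ i, (b : H →L[ℂ] H) (τ.ξ i)⟫_ℂ := by
  funext i
  exact inner_add_right _ _ _

theorem s3Tr_sub_fun (τ : SFTrace M) (a b : VA M) :
    (fun i => ⟪τ.ξ i, ((a - b : VA M) : H →L[ℂ] H) (τ.ξ i)⟫_ℂ) =
      fun i => ⟪τ.ξ i, (a : H →L[ℂ] H) (τ.ξ i)⟫_ℂ - ⟪τ.ξ i, (b : H →L[ℂ] H) (τ.ξ i)⟫_ℂ := by
  funext i
  exact inner_sub_right _ _ _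

theorem s3Tr_smul_fun (τ : SFTrace M) (c : ℂ) (a : VA M) :
    (fun i => ⟪τ.ξ i, ((c • a : VA M) : H →L[ℂ] H) (τ.ξ i)⟫_ℂ) =
      fun i => c * ⟪τ.ξ i, (a : H →L[ℂ] H) (τ.ξ i)⟫_ℂ := by
  funext i
  exact inner_smul_right _ _ _

theorem TSum.add {a b : VA M} (ha : TSum τ a) (hb : TSum τ b) : TSum τ (a + b) := by
  unfold TSum
  rw [s3Tr_add_fun]
  exact Summable.add ha hb

theorem TSum.sub {a b : VA M} (ha : TSum τ a) (hb : TSum τ b) : TSum τ (a - b) := by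
  unfold TSum
  rw [s3Tr_sub_fun]
  exact Summable.sub ha hb

theorem TSum.smul {a : VA M} (ha : TSum τ a) (c : ℂ) : TSum τ (c • a) := by
  unfold TSum
  rw [s3Tr_smul_fun]
  exact Summable.mul_left c ha

theorem TSum.sum {ι : Type*} (s : Finset ι) {a : ι → VA M} (ha : ∀ i ∈ s, TSum τ (a i)) :
    TSum τ (∑ i ∈ s, a i) := by
  classical
  induction s using Finset.induction_on with
  | empty => rw [Finset.sum_empty]; exact TSum.zero
  | insert j s hj ih =>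
    rw [Finset.sum_insert hj]
    exact (ha j (Finset.mem_insert_self _ _)).add
      (ih fun i hi => ha i (Finset.mem_insert_of_mem hi))

namespace SFTrace

theorem tr_zero : τ.tr 0 = 0 := by
  have h : (fun i => ⟪τ.ξ i, ((0 : VA M) : H →L[ℂ] H) (τ.ξ i)⟫_ℂ) = fun _ => 0 := by
    funext i
    exact inner_zero_right _
  unfold SFTrace.tr
  rw [h]
  exact tsum_zero

theorem tr_add {a b : VA M} (ha : TSum τ a) (hb : TSum τ b) :
    τ.tr (a + b) = τ.tr a + τ.tr b := by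
  unfold SFTrace.tr
  rw [s3Tr_add_fun]
  exact Summable.tsum_add ha hb

theorem tr_sub {a b : VA M} (ha : TSum τ a) (hb : TSum τ b) :
    τ.tr (a - b) = τ.tr a - τ.tr b := by
  unfold SFTrace.tr
  rw [s3Tr_sub_fun]
  exact Summable.tsum_sub ha hb

theorem tr_smul (c : ℂ) (a : VA M) : τ.tr (c • a) = c * τ.tr a := by
  unfold SFTrace.tr
  rw [s3Tr_smul_fun]
  exact tsum_mul_left

theorem tr_sum {ι : Type*} (s : Finset ι) {a : ι → VA M} (ha : ∀ i ∈ s, TSum τ (a i)) :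
    τ.tr (∑ i ∈ s, a i) = ∑ i ∈ s, τ.tr (a i) := by
  classical
  induction s using Finset.induction_on with
  | empty => rw [Finset.sum_empty, Finset.sum_empty]; exact tr_zero
  | insert j s hj ih =>
    rw [Finset.sum_insert hj, Finset.sum_insert hj,
      tr_add (ha j (Finset.mem_insert_self _ _))
        (TSum.sum s fun i hi => ha i (Finset.mem_insert_of_mem hi)),
      ih fun i hi => ha i (Finset.mem_insert_of_mem hi)]

theorem s3Tr_inner (ξ η : H) (x y : VA M) :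
    ⟪ξ, ((x * y : VA M) : H →L[ℂ] H) η⟫_ℂ =
      ⟪((star x : VA M) : H →L[ℂ] H) ξ, (y : H →L[ℂ] H) η⟫_ℂ := by
  have h : ⟪ξ, (x : H →L[ℂ] H) ((y : H →L[ℂ] H) η)⟫_ℂ =
      ⟪(ContinuousLinearMap.adjoint (x : H →L[ℂ] H)) ξ, (y : H →L[ℂ] H) η⟫_ℂ :=
    (ContinuousLinearMap.adjoint_inner_left _ _ _).symm
  exact h

theorem s3Tr_re (ξ : H) (x : VA M) :
    RCLike.re ⟪ξ, ((star x * x : VA M) : H →L[ℂ] H) ξ⟫_ℂ = ‖(x : H →L[ℂ] H) ξ‖ ^ 2 := by
  rw [s3Tr_inner, star_star, ← norm_sq_eq_re_inner]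

theorem s3Tr_wt (x : VA M) :
    τ.wt (star x * x) = ∑' i, ENNReal.ofReal (‖(x : H →L[ℂ] H) (τ.ξ i)‖ ^ 2) := by
  unfold SFTrace.wt vwt
  simp_rw [s3Tr_re]

theorem HS.s3Tr_summable {x : VA M} (hx : τ.HS x) :
    Summable fun i => ‖(x : H →L[ℂ] H) (τ.ξ i)‖ ^ 2 := by
  have h1 : ∑' i, ENNReal.ofReal (‖(x : H →L[ℂ] H) (τ.ξ i)‖ ^ 2) ≠ ⊤ := by
    rw [← s3Tr_wt]
    exact (show τ.wt (star x * x) < ⊤ from hx).ne
  have h2 := ENNReal.summable_toReal h1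
  refine h2.congr fun i => ?_
  exact ENNReal.toReal_ofReal (sq_nonneg _)

theorem HS.s3Tr_toReal (x : VA M) :
    (τ.wt (star x * x)).toReal = ∑' i, ‖(x : H →L[ℂ] H) (τ.ξ i)‖ ^ 2 := by
  rw [s3Tr_wt, ENNReal.tsum_toReal_eq fun i => ENNReal.ofReal_ne_top]
  refine tsum_congr fun i => ?_
  exact ENNReal.toReal_ofReal (sq_nonneg _)

theorem HS.s3Tr_cs {x y : VA M} (hx : τ.HS x) (hy : τ.HS y) :
    (Summable fun i => ‖((star x : VA M) : H →L[ℂ] H) (τ.ξ i)‖ * ‖(y : H →L[ℂ] H) (τ.ξ i)‖) ∧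
      ∑' i, ‖((star x : VA M) : H →L[ℂ] H) (τ.ξ i)‖ * ‖(y : H →L[ℂ] H) (τ.ξ i)‖ ≤
        Real.sqrt (τ.wt (x * star x)).toReal * Real.sqrt (τ.wt (star y * y)).toReal := by
  have hp : (2 : ℝ).HolderConjugate 2 := Real.HolderConjugate.two_two
  have h1 := (HS.adj hx).s3Tr_summable
  have h2 := hy.s3Tr_summable
  have h3 := Real.summable_and_inner_le_Lp_mul_Lq_tsum_of_nonneg hp
    (f := fun i => ‖((star x : VA M) : H →L[ℂ] H) (τ.ξ i)‖)
    (g := fun i => ‖(y : H →L[ℂ] H) (τ.ξ i)‖)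
    (fun i => norm_nonneg _) (fun i => norm_nonneg _)
    (by simpa only [Real.rpow_two] using h1) (by simpa only [Real.rpow_two] using h2)
  refine ⟨h3.1, h3.2.trans (le_of_eq ?_)⟩
  have h4 := HS.s3Tr_toReal (τ := τ) (star x)
  rw [star_star] at h4
  rw [h4, HS.s3Tr_toReal, Real.sqrt_eq_rpow, Real.sqrt_eq_rpow]
  simp only [Real.rpow_two]

theorem s3Tr_norm_le (x y : VA M) (i : τ.ι) :
    ‖⟪τ.ξ i, ((x * y : VA M) : H →L[ℂ] H) (τ.ξ i)⟫_ℂ‖ ≤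
      ‖((star x : VA M) : H →L[ℂ] H) (τ.ξ i)‖ * ‖(y : H →L[ℂ] H) (τ.ξ i)‖ := by
  rw [s3Tr_inner]
  exact norm_inner_le_norm _ _

theorem HS.tsum_mul {x y : VA M} (hx : τ.HS x) (hy : τ.HS y) : TSum τ (x * y) :=
  Summable.of_norm_bounded (hx.s3Tr_cs hy).1 fun i => s3Tr_norm_le x y i

theorem HS.s3Tr_tr_self {x : VA M} (hx : τ.HS x) :
    τ.tr (star x * x) = ((τ.wt (star x * x)).toReal : ℂ) := by
  rw [HS.s3Tr_toReal, Complex.ofReal_tsum]
  unfold SFTrace.tr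
  refine tsum_congr fun i => ?_
  rw [s3Tr_inner, star_star, inner_self_eq_norm_sq_to_K]
  norm_cast

theorem HS.s3Tr_key {x : VA M} (hx : τ.HS x) : τ.tr (star x * x) = τ.tr (x * star x) := by
  have h1 := HS.s3Tr_tr_self (HS.adj hx)
  rw [star_star] at h1
  rw [h1, hx.s3Tr_tr_self, wt_comm]

theorem HS.tr_comm {x y : VA M} (hx : τ.HS x) (hy : τ.HS y) : τ.tr (x * y) = τ.tr (y * x) := by
  have hx' : τ.HS (star x) := HS.adj hx
  have hy' : τ.HS (star y) := HS.adj hy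
  have hA : ∀ c : ℂ, c * (τ.tr (star y * star x) - τ.tr (star x * star y)) +
      (starRingEnd ℂ) c * (τ.tr (x * y) - τ.tr (y * x)) = 0 := by
    intro c
    have hz : τ.HS (y + c • star x) := HS.add hy (HS.smul hx' c)
    have h1 := hz.s3Tr_key
    have e1 : star (y + c • star x) * (y + c • star x) =
        star y * y + c • (star y * star x) + (starRingEnd ℂ) c • (x * y) +
          ((starRingEnd ℂ) c * c) • (x * star x) := by
      rw [star_add, star_smul, star_star, add_mul, mul_add, mul_add, mul_smul_comm,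
        smul_mul_assoc, smul_mul_assoc, mul_smul_comm, smul_smul]
      simp only [RCLike.star_def, add_assoc]
    have e2 : (y + c • star x) * star (y + c • star x) =
        y * star y + (starRingEnd ℂ) c • (y * x) + c • (star x * star y) +
          ((starRingEnd ℂ) c * c) • (star x * x) := by
      rw [star_add, star_smul, star_star, add_mul, mul_add, mul_add, mul_smul_comm,
        smul_mul_assoc, smul_mul_assoc, mul_smul_comm, smul_smul]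
      simp only [RCLike.star_def, add_assoc, mul_comm c]
    rw [e1, e2] at h1
    have t1 : TSum τ (star y * y) := hy'.tsum_mul hy
    have t2 : TSum τ (star y * star x) := hy'.tsum_mul hx'
    have t3 : TSum τ (x * y) := hx.tsum_mul hy
    have t4 : TSum τ (x * star x) := hx.tsum_mul hx'
    have t5 : TSum τ (y * star y) := hy.tsum_mul hy'
    have t6 : TSum τ (y * x) := hy.tsum_mul hx
    have t7 : TSum τ (star x * star y) := hx'.tsum_mul hy'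
    have t8 : TSum τ (star x * x) := hx'.tsum_mul hx
    rw [tr_add ((t1.add (t2.smul _)).add (t3.smul _)) (t4.smul _),
      tr_add (t1.add (t2.smul _)) (t3.smul _), tr_add t1 (t2.smul _),
      tr_add ((t5.add (t6.smul _)).add (t7.smul _)) (t8.smul _),
      tr_add (t5.add (t6.smul _)) (t7.smul _), tr_add t5 (t6.smul _),
      tr_smul, tr_smul, tr_smul, tr_smul, tr_smul, tr_smul, hy.s3Tr_key, hx.s3Tr_key] at h1
    linear_combination h1
  have h1 := hA 1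
  have h2 := hA Complex.I
  rw [map_one, one_mul, one_mul] at h1
  rw [Complex.conj_I] at h2
  have h3 : Complex.I * (τ.tr (x * y) - τ.tr (y * x)) = 0 := by
    linear_combination (Complex.I / 2) * h1 - (1 / 2) * h2
  rcases mul_eq_zero.mp h3 with h4 | h4
  · exact absurd h4 Complex.I_ne_zero
  · exact sub_eq_zero.mp h4

theorem HS.norm_tr_le {x y : VA M} (hx : τ.HS x) (hy : τ.HS y) :
    ‖τ.tr (x * y)‖ ≤ Real.sqrt (τ.wt (x * star x)).toReal *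
      Real.sqrt (τ.wt (star y * y)).toReal := by
  have h1 := hx.s3Tr_cs hy
  have h2 : ‖τ.tr (x * y)‖ ≤
      ∑' i, ‖((star x : VA M) : H →L[ℂ] H) (τ.ξ i)‖ * ‖(y : H →L[ℂ] H) (τ.ξ i)‖ :=
    tsum_of_norm_bounded h1.1.hasSum fun i => s3Tr_norm_le x y i
  exact h2.trans h1.2

theorem tr_of_nonneg {a : VA M} (ha : 0 ≤ a) (h : τ.wt a < ⊤) :
    TSum τ a ∧ τ.tr a = ((τ.wt a).toReal : ℂ) := by
  have ha' : 0 ≤ (a : H →L[ℂ] H) := ha
  have hp : (a : H →L[ℂ] H).IsPositive := (ContinuousLinearMap.nonneg_iff_isPositive _).mp ha'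
  have h0 : ∀ i, 0 ≤ RCLike.re ⟪τ.ξ i, (a : H →L[ℂ] H) (τ.ξ i)⟫_ℂ := fun i =>
    hp.re_inner_nonneg_right _
  have h1 : ∀ i, ⟪τ.ξ i, (a : H →L[ℂ] H) (τ.ξ i)⟫_ℂ =
      ((RCLike.re ⟪τ.ξ i, (a : H →L[ℂ] H) (τ.ξ i)⟫_ℂ : ℝ) : ℂ) := by
    intro i
    have h2 : 0 ≤ ⟪τ.ξ i, (a : H →L[ℂ] H) (τ.ξ i)⟫_ℂ := hp.inner_nonneg_right _
    exact (Complex.eq_re_of_ofReal_le h2)
  have h2 : ∑' i, ENNReal.ofReal (RCLike.re ⟪τ.ξ i, (a : H →L[ℂ] H) (τ.ξ i)⟫_ℂ) ≠ ⊤ := h.ne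
  have h3 : Summable fun i => RCLike.re ⟪τ.ξ i, (a : H →L[ℂ] H) (τ.ξ i)⟫_ℂ :=
    (ENNReal.summable_toReal h2).congr fun i => ENNReal.toReal_ofReal (h0 i)
  refine ⟨?_, ?_⟩
  · have h4 : Summable fun i => ((RCLike.re ⟪τ.ξ i, (a : H →L[ℂ] H) (τ.ξ i)⟫_ℂ : ℝ) : ℂ) :=
      Complex.summable_ofReal.mpr h3
    exact h4.congr fun i => (h1 i).symm
  · unfold SFTrace.tr SFTrace.wt vwt
    rw [ENNReal.tsum_toReal_eq fun i => ENNReal.ofReal_ne_top, Complex.ofReal_tsum]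
    refine tsum_congr fun i => ?_
    rw [ENNReal.toReal_ofReal (h0 i)]
    exact h1 i

end SFTrace

open SFTrace

theorem s3Tr_fin {b e : VA M} (he : IsStarProjection e) (hb : e * b * e = b) :
    e * b = b ∧ b * e = b := by
  have hee : e * e = e := he.isIdempotentElem.eq
  constructor
  · calc e * b = e * (e * b * e) := by rw [hb]
      _ = e * e * b * e := by simp only [mul_assoc]
      _ = b := by rw [hee, hb]
  · calc b * e = e * b * e * e := by rw [hb]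
      _ = e * b * (e * e) := by simp only [mul_assoc]
      _ = b := by rw [hee, hb]

namespace IsFin

theorem tsum_mul {b : VA M} (hb : IsFin τ b) (a : VA M) : TSum τ (a * b) := by
  obtain ⟨e, he, hf, hbe⟩ := hb
  have h1 := (s3Tr_fin he hbe).1
  have h2 : τ.HS (a * e) := HS.mul_left (HS.of_proj he hf) a
  have h3 : τ.HS b := HS.of_fin ⟨e, he, hf, hbe⟩
  have h4 := h2.tsum_mul h3
  rwa [mul_assoc, h1] at h4

theorem tsum_mul' {b : VA M} (hb : IsFin τ b) (a : VA M) : TSum τ (b * a) := by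
  obtain ⟨e, he, hf, hbe⟩ := hb
  have h1 := (s3Tr_fin he hbe).2
  have h2 : τ.HS (e * a) := HS.mul_right (HS.of_proj he hf) a
  have h3 : τ.HS b := HS.of_fin ⟨e, he, hf, hbe⟩
  have h4 := h3.tsum_mul h2
  rwa [← mul_assoc, h1] at h4

theorem tsum {b : VA M} (hb : IsFin τ b) : TSum τ b := by
  have h := hb.tsum_mul 1
  rwa [one_mul] at h

theorem tr_comm {b : VA M} (hb : IsFin τ b) (a : VA M) : τ.tr (a * b) = τ.tr (b * a) := by
  have h3 : τ.HS b := HS.of_fin hb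
  obtain ⟨e, he, hf, hbe⟩ := hb
  obtain ⟨h1, h1'⟩ := s3Tr_fin he hbe
  have h0 : τ.HS e := HS.of_proj he hf
  have h2 : τ.HS (a * e) := HS.mul_left h0 a
  calc τ.tr (a * b) = τ.tr ((a * e) * b) := by rw [mul_assoc, h1]
    _ = τ.tr (b * (a * e)) := h2.tr_comm h3
    _ = τ.tr ((b * a) * e) := by rw [mul_assoc]
    _ = τ.tr (e * (b * a)) := (HS.mul_right h3 a).tr_comm h0
    _ = τ.tr (b * a) := by rw [← mul_assoc, h1]

theorem norm_tr_le {b e : VA M} (he : IsStarProjection e) (hf : τ.wt e < ⊤)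
    (hb : e * b * e = b) (a : VA M) : ‖τ.tr (a * b)‖ ≤ (τ.wt e).toReal * ‖a‖ * ‖b‖ := by
  obtain ⟨h1, h1'⟩ := s3Tr_fin he hb
  have hee : e * e = e := he.isIdempotentElem.eq
  have hes : star e = e := he.isSelfAdjoint.star_eq
  have he0 : 0 ≤ e := by
    have h := star_mul_self_nonneg e
    rwa [hes, hee] at h
  have h0 : τ.HS e := HS.of_proj he hf
  have h2 : τ.HS (a * e) := HS.mul_left h0 a
  have h3 : τ.HS b := HS.of_fin ⟨e, he, hf, hb⟩
  have h4 := h2.norm_tr_le h3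
  rw [mul_assoc, h1] at h4
  have hw : ∀ x : VA M, τ.wt (x * e * star x) ≤ ENNReal.ofReal (‖x‖ ^ 2) * τ.wt e := by
    intro x
    have h5 := τ.wt_conj_le he0 (star x)
    rwa [star_star, norm_star] at h5
  have hw2 : ∀ x : VA M, Real.sqrt (τ.wt (x * e * star x)).toReal ≤
      ‖x‖ * Real.sqrt (τ.wt e).toReal := by
    intro x
    have h5 : (τ.wt (x * e * star x)).toReal ≤ ‖x‖ ^ 2 * (τ.wt e).toReal := by
      have h6 := ENNReal.toReal_mono (ENNReal.mul_ne_top ENNReal.ofReal_ne_top hf.ne) (hw x)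
      rwa [ENNReal.toReal_mul, ENNReal.toReal_ofReal (sq_nonneg _)] at h6
    calc Real.sqrt (τ.wt (x * e * star x)).toReal ≤ Real.sqrt (‖x‖ ^ 2 * (τ.wt e).toReal) :=
          Real.sqrt_le_sqrt h5
      _ = ‖x‖ * Real.sqrt (τ.wt e).toReal := by
          rw [Real.sqrt_mul (sq_nonneg _), Real.sqrt_sq (norm_nonneg _)]
  have e1 : a * e * star (a * e) = a * e * star a := by
    rw [star_mul, hes, ← mul_assoc, mul_assoc a e e, hee]
  have e2 : τ.wt (star b * b) = τ.wt (b * e * star b) := by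
    rw [wt_comm, h1']
  rw [e1, e2] at h4
  have hs : Real.sqrt (τ.wt e).toReal * Real.sqrt (τ.wt e).toReal = (τ.wt e).toReal :=
    Real.mul_self_sqrt ENNReal.toReal_nonneg
  calc ‖τ.tr (a * b)‖ ≤ Real.sqrt (τ.wt (a * e * star a)).toReal *
        Real.sqrt (τ.wt (b * e * star b)).toReal := h4
    _ ≤ (‖a‖ * Real.sqrt (τ.wt e).toReal) * (‖b‖ * Real.sqrt (τ.wt e).toReal) :=
        mul_le_mul (hw2 a) (hw2 b) (Real.sqrt_nonneg _)
          (mul_nonneg (norm_nonneg _) (Real.sqrt_nonneg _))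
    _ = (Real.sqrt (τ.wt e).toReal * Real.sqrt (τ.wt e).toReal) * ‖a‖ * ‖b‖ := by ring
    _ = (τ.wt e).toReal * ‖a‖ * ‖b‖ := by rw [hs]

/-- The functional `τ(u ·)`. -/
theorem exists_tauL {u : VA M} (hu : IsFin τ u) :
    ∃ ψ : VA M →L[ℂ] ℂ, ∀ b, ψ b = τ.tr (u * b) := by
  have hu2 := hu
  obtain ⟨e, he, hf, hue⟩ := hu
  let L : VA M →ₗ[ℂ] ℂ :=
    { toFun := fun b => τ.tr (u * b)
      map_add' := fun b c => by
        rw [mul_add, tr_add (hu2.tsum_mul' b) (hu2.tsum_mul' c)]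
      map_smul' := fun c b => by
        rw [mul_smul_comm, tr_smul, RingHom.id_apply, smul_eq_mul] }
  refine ⟨L.mkContinuous ((τ.wt e).toReal * ‖u‖) fun b => ?_, fun b => rfl⟩
  change ‖τ.tr (u * b)‖ ≤ _
  rw [← hu2.tr_comm b]
  refine (norm_tr_le he hf hue b).trans (le_of_eq ?_)
  ring

theorem adj {b : VA M} (hb : IsFin τ b) : IsFin τ (star b) := by
  obtain ⟨e, he, hf, hbe⟩ := hb
  refine ⟨e, he, hf, ?_⟩
  have hes : star e = e := he.isSelfAdjoint.star_eq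
  have h := congrArg star hbe
  rwa [star_mul, star_mul, hes, ← mul_assoc] at h

theorem smul {b : VA M} (hb : IsFin τ b) (c : ℂ) : IsFin τ (c • b) := by
  obtain ⟨e, he, hf, hbe⟩ := hb
  refine ⟨e, he, hf, ?_⟩
  rw [mul_smul_comm, smul_mul_assoc, hbe]

theorem zero : IsFin τ (0 : VA M) := by
  refine ⟨0, IsStarProjection.zero _, ?_, ?_⟩
  · rw [wt_zero]
    exact ENNReal.zero_lt_top
  · rw [mul_zero]

end IsFin

/-- `c ↦ tr (c b)` is continuous for weak operator convergence of bounded nets, `b` finite. -/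
theorem SFTrace.tr_tendsto {ι : Type*} {l : Filter ι} {b : ι → VA M} {b' : VA M} {C : ℝ}
    (hC : ∀ i, ‖b i‖ ≤ C)
    (h : ∀ ξ η : H, Tendsto (fun i => ⟪ξ, (b i : H →L[ℂ] H) η⟫_ℂ) l
      (nhds ⟪ξ, (b' : H →L[ℂ] H) η⟫_ℂ)) {c : VA M} (hc : IsFin τ c) :
    Tendsto (fun i => τ.tr (b i * c)) l (nhds (τ.tr (b' * c))) := by
  have h3 : τ.HS c := HS.of_fin hc
  obtain ⟨e, he, hf, hce⟩ := hc
  obtain ⟨h1, h1'⟩ := s3Tr_fin he hce
  have hes : star e = e := he.isSelfAdjoint.star_eq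
  have h0 : τ.HS e := HS.of_proj he hf
  have hre : ∀ x : VA M, τ.tr (x * c) = ∑' k, ⟪(e : H →L[ℂ] H) (τ.ξ k),
      (x : H →L[ℂ] H) ((c : H →L[ℂ] H) (τ.ξ k))⟫_ℂ := by
    intro x
    have h4 : τ.tr (x * c) = τ.tr (e * (x * c)) := by
      calc τ.tr (x * c) = τ.tr ((x * c) * e) := by rw [mul_assoc, h1']
        _ = τ.tr (e * (x * c)) := (HS.mul_left h3 x).tr_comm h0
    rw [h4]
    unfold SFTrace.tr
    refine tsum_congr fun k => ?_
    rw [s3Tr_inner, hes]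
    rfl
  simp_rw [hre]
  have hsum : Summable fun k => ‖(e : H →L[ℂ] H) (τ.ξ k)‖ * ‖(c : H →L[ℂ] H) (τ.ξ k)‖ := by
    have h5 := (h0.s3Tr_cs h3).1
    rwa [hes] at h5
  refine tendsto_tsum_of_dominated_convergence (hsum.mul_left |C|)
    (fun k => h _ _) (Eventually.of_forall fun n k => ?_)
  have h6 : ‖(b n : H →L[ℂ] H) ((c : H →L[ℂ] H) (τ.ξ k))‖ ≤ |C| * ‖(c : H →L[ℂ] H) (τ.ξ k)‖ :=
    ((b n : H →L[ℂ] H).le_opNorm _).trans
      (mul_le_mul_of_nonneg_right ((hC n).trans (le_abs_self C)) (norm_nonneg _))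
  calc ‖⟪(e : H →L[ℂ] H) (τ.ξ k), (b n : H →L[ℂ] H) ((c : H →L[ℂ] H) (τ.ξ k))⟫_ℂ‖
      ≤ ‖(e : H →L[ℂ] H) (τ.ξ k)‖ * ‖(b n : H →L[ℂ] H) ((c : H →L[ℂ] H) (τ.ξ k))‖ :=
        norm_inner_le_norm _ _
    _ ≤ ‖(e : H →L[ℂ] H) (τ.ξ k)‖ * (|C| * ‖(c : H →L[ℂ] H) (τ.ξ k)‖) :=
        mul_le_mul_of_nonneg_left h6 (norm_nonneg _)
    _ = |C| * (‖(e : H →L[ℂ] H) (τ.ξ k)‖ * ‖(c : H →L[ℂ] H) (τ.ξ k)‖) := by ring

/-- Norm bound of a weak operator limit. -/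
theorem norm_wot_lim_le {ι : Type*} {l : Filter ι} [l.NeBot] {b : ι → VA M} {b' : VA M} {C : ℝ}
    (hC : ∀ i, ‖b i‖ ≤ C)
    (h : ∀ ξ η : H, Tendsto (fun i => ⟪ξ, (b i : H →L[ℂ] H) η⟫_ℂ) l
      (nhds ⟪ξ, (b' : H →L[ℂ] H) η⟫_ℂ)) : ‖b'‖ ≤ C := by
  obtain ⟨i₀⟩ : Nonempty ι := l.nonempty_of_neBot
  have hC0 : 0 ≤ C := (norm_nonneg _).trans (hC i₀)
  change ‖(b' : H →L[ℂ] H)‖ ≤ C
  refine ContinuousLinearMap.opNorm_le_bound _ hC0 fun η => ?_
  have h1 := (h ((b' : H →L[ℂ] H) η) η).norm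
  have h2 : ‖⟪(b' : H →L[ℂ] H) η, (b' : H →L[ℂ] H) η⟫_ℂ‖ ≤ ‖(b' : H →L[ℂ] H) η‖ * (C * ‖η‖) := by
    refine le_of_tendsto h1 (Eventually.of_forall fun i => ?_)
    refine (norm_inner_le_norm _ _).trans (mul_le_mul_of_nonneg_left ?_ (norm_nonneg _))
    exact ((b i : H →L[ℂ] H).le_opNorm η).trans
      (mul_le_mul_of_nonneg_right (hC i) (norm_nonneg _))
  have h3 : ‖⟪(b' : H →L[ℂ] H) η, (b' : H →L[ℂ] H) η⟫_ℂ‖ = ‖(b' : H →L[ℂ] H) η‖ *
      ‖(b' : H →L[ℂ] H) η‖ := by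
    rw [inner_self_eq_norm_sq_to_K, norm_pow, sq]
    simp
  rw [h3] at h2
  rcases (norm_nonneg ((b' : H →L[ℂ] H) η)).eq_or_lt with h4 | h4
  · rw [← h4]
    positivity
  · exact le_of_mul_le_mul_left h2 h4

end GD64
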