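import Pool.Agent.GD64.S3Defs

/-!
# GD64/S3Wt: the weight on positive elements, Hilbert-Schmidt elements

`q_i(a) = re ⟨ξ_i, a ξ_i⟩` is real linear and monotone in `a`.
* `wt_conj_le`: `a = c * c` with `c = CFC.sqrt a` (or any self-adjoint square root in `VA M`),
  `x* a x = (c x)* (c x)`, so `wt = wt (c x x* c) ≤ wt (‖x‖² c c)`.
* `wt_lsc`: for every finite set `S` of indices `∑_{i ∈ S} ofReal (q_i b') = lim ∑_{i ∈ S} ofReal (q_i (b n)) ≤ B`,
  `ENNReal.tsum_eq_iSup_sum`.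
* `HS`: `(x+y)*(x+y) ≤ 2 x* x + 2 y* y`; `HS.adj` is `tracial`; `HS.mul_left`: `x* a* a x ≤ ‖a‖² x* x`;
  `HS.mul_right` from `star` and `mul_left`. `IsFin.hs`: `b = e b e`, `b* b = e b* e b e ≤ ‖b‖² e`.
-/

namespace GD64

open scoped ComplexOrder InnerProductSpace ENNReal
open Filter

universe u

variable {H : Type u} [NormedAddCommGroup H] [InnerProductSpace ℂ H] [CompleteSpace H]
  {M : VonNeumannAlgebra H}

/-- positivity of the quadratic form of a positive element of `VA M`. -/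
theorem S3W.quad_nonneg {a : VA M} (ha : 0 ≤ a) (ξ : H) :
    0 ≤ RCLike.re ⟪ξ, (a : H →L[ℂ] H) ξ⟫_ℂ := by
  have h1 : 0 ≤ (a : H →L[ℂ] H) := ha
  rw [ContinuousLinearMap.nonneg_iff_isPositive] at h1
  exact h1.re_inner_nonneg_right ξ

/-- `x x* ≤ ‖x‖²` in `VA M`. -/
theorem S3W.mul_star_le (x : VA M) : x * star x ≤ (‖x‖ ^ 2) • (1 : VA M) := by
  have h := CStarAlgebra.mul_star_le_algebraMap_norm_sq (a := x)
  rwa [Algebra.algebraMap_eq_smul_one] at h

/-- `x* x ≤ ‖x‖²` in `VA M`. -/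
theorem S3W.star_mul_le (x : VA M) : star x * x ≤ (‖x‖ ^ 2) • (1 : VA M) := by
  have h := CStarAlgebra.star_mul_le_algebraMap_norm_sq (a := x)
  rwa [Algebra.algebraMap_eq_smul_one] at h

namespace SFTrace

variable (τ : SFTrace M)

theorem wt_zero : τ.wt 0 = 0 := by
  simp [SFTrace.wt, vwt]

theorem wt_add {a b : VA M} (ha : 0 ≤ a) (hb : 0 ≤ b) : τ.wt (a + b) = τ.wt a + τ.wt b := by
  unfold SFTrace.wt vwt
  rw [← ENNReal.tsum_add]
  refine tsum_congr fun i => ?_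
  rw [← ENNReal.ofReal_add (S3W.quad_nonneg ha _) (S3W.quad_nonneg hb _)]
  congr 1
  have h : ((a + b : VA M) : H →L[ℂ] H) = (a : H →L[ℂ] H) + (b : H →L[ℂ] H) := rfl
  rw [h, _root_.add_apply, inner_add_right, map_add]

theorem wt_mono {a b : VA M} (h : a ≤ b) : τ.wt a ≤ τ.wt b := by
  have h1 : 0 ≤ b - a := sub_nonneg.mpr h
  unfold SFTrace.wt vwt
  refine ENNReal.tsum_le_tsum fun i => ENNReal.ofReal_le_ofReal ?_
  have h2 := S3W.quad_nonneg h1 (τ.ξ i)
  have h3 : ((b - a : VA M) : H →L[ℂ] H) = (b : H →L[ℂ] H) - (a : H →L[ℂ] H) := rfl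
  rw [h3, _root_.sub_apply, inner_sub_right, map_sub] at h2
  linarith

theorem wt_smul {c : ℝ} (hc : 0 ≤ c) (a : VA M) : τ.wt (c • a) = ENNReal.ofReal c * τ.wt a := by
  unfold SFTrace.wt vwt
  rw [← ENNReal.tsum_mul_left]
  refine tsum_congr fun i => ?_
  rw [← ENNReal.ofReal_mul hc]
  congr 1
  have h : ((c • a : VA M) : H →L[ℂ] H) = c • (a : H →L[ℂ] H) := rfl
  rw [h, _root_.smul_apply, inner_smul_right_eq_smul]
  simp

theorem wt_sum {ι : Type*} (s : Finset ι) {a : ι → VA M} (ha : ∀ i ∈ s, 0 ≤ a i) :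
    τ.wt (∑ i ∈ s, a i) = ∑ i ∈ s, τ.wt (a i) := by
  classical
  induction s using Finset.induction_on with
  | empty => simpa using τ.wt_zero
  | insert i s hi ih =>
    rw [Finset.sum_insert hi, Finset.sum_insert hi,
      τ.wt_add (ha i (Finset.mem_insert_self i s))
        (Finset.sum_nonneg fun j hj => ha j (Finset.mem_insert_of_mem hj)),
      ih fun j hj => ha j (Finset.mem_insert_of_mem hj)]

theorem wt_comm (x : VA M) : τ.wt (star x * x) = τ.wt (x * star x) :=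
  τ.tracial (x : H →L[ℂ] H) x.2

theorem exists_sq {a : VA M} (ha : 0 ≤ a) : ∃ s : VA M, a = star s * s := by
  have h1 : 0 ≤ (a : H →L[ℂ] H) := ha
  have hm : cfc (fun r : ℝ => Real.sqrt r) (a : H →L[ℂ] H) ∈ M := cfc_mem_va_aux M _ a.2
  refine ⟨⟨cfc (fun r : ℝ => Real.sqrt r) (a : H →L[ℂ] H), hm⟩, ?_⟩
  apply Subtype.ext
  show (a : H →L[ℂ] H) = star (cfc (fun r : ℝ => Real.sqrt r) (a : H →L[ℂ] H)) *
    cfc (fun r : ℝ => Real.sqrt r) (a : H →L[ℂ] H)
  rw [(cfc_predicate (fun r : ℝ => Real.sqrt r) (a : H →L[ℂ] H)).star_eq, ← cfc_mul _ _ _]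
  have hsa : IsSelfAdjoint (a : H →L[ℂ] H) := IsSelfAdjoint.of_nonneg h1
  conv_lhs => rw [← cfc_id ℝ (a : H →L[ℂ] H)]
  refine cfc_congr fun r hr => ?_
  have hr0 : 0 ≤ r := spectrum_nonneg_of_nonneg h1 hr
  exact (Real.mul_self_sqrt hr0).symm

theorem wt_conj_le {a : VA M} (ha : 0 ≤ a) (x : VA M) :
    τ.wt (star x * a * x) ≤ ENNReal.ofReal (‖x‖ ^ 2) * τ.wt a := by
  obtain ⟨s, rfl⟩ := exists_sq ha
  have h1 : star x * (star s * s) * x = star (s * x) * (s * x) := by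
    rw [star_mul]; simp only [mul_assoc]
  have h2 : s * x * star (s * x) = s * (x * star x) * star s := by
    rw [star_mul]; simp only [mul_assoc]
  rw [h1, τ.wt_comm, h2, τ.wt_comm s, ← τ.wt_smul (by positivity)]
  apply τ.wt_mono
  have h3 := star_right_conjugate_le_conjugate (S3W.mul_star_le x) s
  refine h3.trans (le_of_eq ?_)
  rw [mul_smul_comm, smul_mul_assoc, mul_one]

theorem eq_zero_of_wt {a : VA M} (ha : 0 ≤ a) (h : τ.wt a = 0) : a = 0 := by
  obtain ⟨s, rfl⟩ := exists_sq ha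
  have h1 : (s : H →L[ℂ] H) = 0 := τ.faithful (s : H →L[ℂ] H) s.2 h
  have h2 : s = 0 := Subtype.ext h1
  rw [h2, mul_zero]

/-- lower semicontinuity for weak operator convergence. -/
theorem wt_lsc {ι : Type*} {l : Filter ι} [l.NeBot] {b : ι → VA M} {b' : VA M}
    (h : ∀ ξ η : H, Tendsto (fun i => ⟪ξ, (b i : H →L[ℂ] H) η⟫_ℂ) l
      (nhds ⟪ξ, (b' : H →L[ℂ] H) η⟫_ℂ)) {B : ℝ≥0∞} (hB : ∀ i, τ.wt (b i) ≤ B) :
    τ.wt b' ≤ B := by
  unfold SFTrace.wt vwt
  rw [ENNReal.tsum_eq_iSup_sum]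
  refine iSup_le fun S => ?_
  have h1 : Tendsto (fun i => ∑ j ∈ S, ENNReal.ofReal
      (RCLike.re ⟪τ.ξ j, (b i : H →L[ℂ] H) (τ.ξ j)⟫_ℂ)) l
      (nhds (∑ j ∈ S, ENNReal.ofReal (RCLike.re ⟪τ.ξ j, (b' : H →L[ℂ] H) (τ.ξ j)⟫_ℂ))) := by
    refine tendsto_finsetSum _ fun j _ => ?_
    refine (ENNReal.continuous_ofReal.tendsto _).comp ?_
    exact (RCLike.continuous_re.tendsto _).comp (h (τ.ξ j) (τ.ξ j))
  refine le_of_tendsto h1 (Eventually.of_forall fun i => ?_)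
  refine le_trans ?_ (hB i)
  unfold SFTrace.wt vwt
  exact ENNReal.sum_le_tsum S

/-- Hilbert-Schmidt elements. -/
def HS (x : VA M) : Prop := τ.wt (star x * x) < ⊤

variable {τ}

theorem HS.add {x y : VA M} (hx : τ.HS x) (hy : τ.HS y) : τ.HS (x + y) := by
  unfold HS at *
  have h1 : star (x + y) * (x + y) ≤ (2 : ℝ) • (star x * x) + (2 : ℝ) • (star y * y) := by
    have h2 : 0 ≤ star (x - y) * (x - y) := star_mul_self_nonneg _
    have h3 : (2 : ℝ) • (star x * x) + (2 : ℝ) • (star y * y) - star (x + y) * (x + y) =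
        star (x - y) * (x - y) := by
      rw [two_smul, two_smul, star_add, star_sub]
      noncomm_ring
    exact sub_nonneg.mp (h3 ▸ h2)
  refine lt_of_le_of_lt (τ.wt_mono h1) ?_
  rw [τ.wt_add (smul_nonneg (by norm_num) (star_mul_self_nonneg _))
    (smul_nonneg (by norm_num) (star_mul_self_nonneg _)), τ.wt_smul (by norm_num),
    τ.wt_smul (by norm_num)]
  exact ENNReal.add_lt_top.mpr ⟨ENNReal.mul_lt_top ENNReal.ofReal_lt_top hx,
    ENNReal.mul_lt_top ENNReal.ofReal_lt_top hy⟩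

theorem HS.mul_left {x : VA M} (hx : τ.HS x) (a : VA M) : τ.HS (a * x) := by
  unfold HS at *
  have h1 : star (a * x) * (a * x) = star x * (star a * a) * x := by
    rw [star_mul]; simp only [mul_assoc]
  have h2 : star x * (star a * a) * x ≤ (‖a‖ ^ 2) • (star x * x) := by
    have h3 := star_left_conjugate_le_conjugate (S3W.star_mul_le a) x
    refine h3.trans (le_of_eq ?_)
    rw [mul_smul_comm, smul_mul_assoc, mul_one]
  rw [h1]
  refine lt_of_le_of_lt (τ.wt_mono h2) ?_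
  rw [τ.wt_smul (by positivity)]
  exact ENNReal.mul_lt_top ENNReal.ofReal_lt_top hx

theorem HS.smul {x : VA M} (hx : τ.HS x) (c : ℂ) : τ.HS (c • x) := by
  have h : c • x = (c • (1 : VA M)) * x := by rw [smul_mul_assoc, one_mul]
  rw [h]
  exact hx.mul_left _

theorem HS.adj {x : VA M} (hx : τ.HS x) : τ.HS (star x) := by
  unfold HS at *
  rw [star_star, ← τ.wt_comm]
  exact hx

theorem HS.mul_right {x : VA M} (hx : τ.HS x) (a : VA M) : τ.HS (x * a) := by
  have h := (hx.adj.mul_left (star a)).adj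
  rwa [star_mul, star_star, star_star] at h

theorem HS.of_proj {e : VA M} (he : IsStarProjection e) (h : τ.wt e < ⊤) : τ.HS e := by
  unfold HS
  rw [he.isSelfAdjoint.star_eq, he.isIdempotentElem.eq]
  exact h

theorem HS.of_fin {b : VA M} (hb : IsFin τ b) : τ.HS b := by
  obtain ⟨e, he, h1, h2⟩ := hb
  rw [← h2]
  exact (HS.of_proj he h1).mul_left _

end SFTrace

end GD64
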