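import Pool.Agent.GD64.Pieces
import Pool.Agent.GD64.Core

/-!
# GD64/SAMain: the decomposition for bounded self-adjoint martingales

Apply `core` (with `2D`) to the pieces `X` and `Y`; subtract. `|y^X - y^Y|² ≤ 2|y^X|² + 2|y^Y|²`,
meet of the two projections.
-/

namespace GD64

universe u

namespace SAAux

variable {A : Type*} [CStarAlgebra A] [PartialOrder A] [StarOrderedRing A]

theorem below {p g S : A} {B : ℝ} (hB : 0 ≤ B) (hp : IsStarProjection p)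
    (hg : IsStarProjection g) (hpg : p * g = g) (h : p * S * p ≤ B • (1 : A)) :
    g * S * g ≤ B • (1 : A) := by
  have hgp := proj_mul_comm hg hp hpg
  have h1 := proj_conj_mono hg h
  have e1 : g * (p * S * p) * g = g * S * g := by
    calc g * (p * S * p) * g = (g * p) * S * (p * g) := by simp only [mul_assoc]
      _ = _ := by rw [hgp, hpg]
  rw [e1, mul_smul_comm, mul_one, smul_mul_assoc, hg.isIdempotentElem.eq] at h1
  refine h1.trans (smul_le_smul_of_nonneg_left ?_ hB)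
  have := hg.one_sub.nonneg
  rwa [sub_nonneg] at this

theorem comb {p q g S U V : A} {B : ℝ} (hB : 0 ≤ B) (hp : IsStarProjection p)
    (hq : IsStarProjection q) (hg : IsStarProjection g) (hpg : p * g = g) (hqg : q * g = g)
    (hS : S ≤ (2 : ℝ) • U + (2 : ℝ) • V) (hU : p * U * p ≤ B • (1 : A))
    (hV : q * V * q ≤ B • (1 : A)) : g * S * g ≤ (4 * B) • (1 : A) := by
  have h1 := proj_conj_mono hg hS
  rw [mul_add, add_mul, mul_smul_comm, mul_smul_comm, smul_mul_assoc, smul_mul_assoc] at h1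
  have h2 := smul_le_smul_of_nonneg_left (below hB hp hg hpg hU) (zero_le_two (α := ℝ))
  have h3 := smul_le_smul_of_nonneg_left (below hB hq hg hqg hV) (zero_le_two (α := ℝ))
  refine h1.trans ((add_le_add h2 h3).trans (le_of_eq ?_))
  rw [smul_smul, ← add_smul]
  congr 1
  ring

theorem sub_le (a b : A) : star (a - b) * (a - b) ≤
    (2 : ℝ) • (star a * a) + (2 : ℝ) • (star b * b) := by
  have h := sq_add_le a (-b)
  rw [← sub_eq_add_neg, star_neg, neg_mul_neg] at h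
  exact h

theorem sub_le' (a b : A) : (a - b) * star (a - b) ≤
    (2 : ℝ) • (a * star a) + (2 : ℝ) • (b * star b) := by
  have h := sub_le (star a) (star b)
  rwa [← star_sub, star_star, star_star, star_star] at h

end SAAux

open SAAux

theorem saMain (K : ℝ) (hK : 1 ≤ K) : ∃ C : ℝ, 0 < C ∧
    ∀ (A : Type u) [CStarAlgebra A] [PartialOrder A] [StarOrderedRing A] (T : TF A)
      (_ : WLim T) (l : ℝ) (_ : 0 < l) (x : ℕ → A) (_ : Mart T x)
      (_ : ∀ n, IsSelfAdjoint (x n)) (_ : ∃ c : ℝ, ∀ n, ‖x n‖ ≤ c)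
      (D : ℕ → ℝ) (_ : ∀ j, 0 ≤ D j) (_ : T.t 1 ≤ D 0)
      (_ : ∀ n L, T.t (cfc (fun s : ℝ => max (s - l * 2 ^ L) 0) (x n)) ≤ l * 2 ^ L * D L)
      (_ : ∀ n L, T.t (cfc (fun s : ℝ => max (-s - l * 2 ^ L) 0) (x n)) ≤ l * 2 ^ L * D L)
      (_ : ∀ j, 2 * D (j + 1) ≤ D j) (_ : ∀ j, D j ≤ K * D (j + 1)),
      ∃ y z : ℕ → A, (∀ k, y k ∈ T.F (k + 1)) ∧ (∀ k, z k ∈ T.F (k + 1)) ∧
        (∀ k, T.E k (y k) = 0) ∧ (∀ k, T.E k (z k) = 0) ∧
        (∀ k, y k + z k = dd x k) ∧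
        (∀ L, 1 ≤ L → ∀ N, ∃ p ∈ T.F N, IsStarProjection p ∧ T.t (1 - p) ≤ C * D L ∧
          p * (∑ k ∈ Finset.range N, star (y k) * y k) * p ≤ (C * (l * 2 ^ L) ^ 2) • (1 : A)) ∧
        (∀ L, 1 ≤ L → ∀ N, ∃ p ∈ T.F N, IsStarProjection p ∧ T.t (1 - p) ≤ C * D L ∧
          p * (∑ k ∈ Finset.range N, z k * star (z k)) * p ≤
            (C * (l * 2 ^ L) ^ 2) • (1 : A)) := by
  obtain ⟨C, hC, hcore⟩ := core.{u} K hK
  refine ⟨4 * C, by positivity, ?_⟩
  intro A _ _ _ T hW l hl x hx hs hc D hD h1 hp hm hD2 hDK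
  obtain ⟨c, hc⟩ := hc
  obtain ⟨J', hJ'⟩ : ∃ J : ℕ, c / l < 2 ^ J := pow_unbounded_of_one_lt _ (by norm_num)
  have hJ : ∀ n, ‖x n‖ ≤ l * 2 ^ (J' + 1) := by
    intro n
    have h2 : c < 2 ^ J' * l := (div_lt_iff₀ hl).mp hJ'
    have h3 : (0 : ℝ) < 2 ^ J' * l := by positivity
    rw [pow_succ]
    linarith [hc n]
  obtain ⟨X, Y, hX, hY, hX0, hXc, hY0, hYc, hXs, hYs, hxy⟩ :=
    pieces T hW hl hx hs (Nat.le_add_left 1 J') hJ hD h1 hp hm
  have hD' : ∀ j, 0 ≤ 2 * D j := fun j => by linarith [hD j]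
  have hD2' : ∀ j, 2 * (2 * D (j + 1)) ≤ 2 * D j := fun j => by linarith [hD2 j]
  have hDK' : ∀ j, 2 * D j ≤ K * (2 * D (j + 1)) := fun j => by linarith [hDK j]
  obtain ⟨y, z, hy, hz, hyE, hzE, hyz, hyp, hzp⟩ := hcore A T l hl (J' + 1) X hX hX0 hXc
    (fun j => 2 * D j) hD' hXs hD2' hDK'
  obtain ⟨y', z', hy', hz', hyE', hzE', hyz', hyp', hzp'⟩ := hcore A T l hl (J' + 1) Y hY hY0
    hYc (fun j => 2 * D j) hD' hYs hD2' hDK'
  refine ⟨fun k => y k - y' k, fun k => z k - z' k, fun k => sub_mem (hy k) (hy' k),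
    fun k => sub_mem (hz k) (hz' k), fun k => ?_, fun k => ?_, fun k => ?_, ?_, ?_⟩
  · simp only [T.E_sub, hyE, hyE', sub_zero]
  · simp only [T.E_sub, hzE, hzE', sub_zero]
  · have e : y k - y' k + (z k - z' k) = (y k + z k) - (y' k + z' k) := by abel
    show y k - y' k + (z k - z' k) = dd x k
    rw [e, hyz, hyz']
    unfold dd
    rw [hxy (k + 1), hxy k, Finset.sum_sub_distrib, Finset.sum_sub_distrib]
    abel
  · intro L hL N
    obtain ⟨p, hpm, hpp, hpt, hpb⟩ := hyp L hL N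
    obtain ⟨q, hqm, hqp, hqt, hqb⟩ := hyp' L hL N
    obtain ⟨g, hgm, hgp, hpg, hqg, _, hgt⟩ := T.meet N p q hpm hqm hpp hqp
    refine ⟨g, hgm, hgp, by linarith, ?_⟩
    have hB : 0 ≤ C * (l * 2 ^ L) ^ 2 := by positivity
    have h := comb hB hpp hqp hgp hpg hqg (S := ∑ k ∈ Finset.range N,
      star (y k - y' k) * (y k - y' k)) ?_ hpb hqb
    · rwa [← mul_assoc 4 C] at h
    · rw [Finset.smul_sum, Finset.smul_sum, ← Finset.sum_add_distrib]
      exact Finset.sum_le_sum fun k _ => sub_le _ _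
  · intro L hL N
    obtain ⟨p, hpm, hpp, hpt, hpb⟩ := hzp L hL N
    obtain ⟨q, hqm, hqp, hqt, hqb⟩ := hzp' L hL N
    obtain ⟨g, hgm, hgp, hpg, hqg, _, hgt⟩ := T.meet N p q hpm hqm hpp hqp
    refine ⟨g, hgm, hgp, by linarith, ?_⟩
    have hB : 0 ≤ C * (l * 2 ^ L) ^ 2 := by positivity
    have h := comb hB hpp hqp hgp hpg hqg (S := ∑ k ∈ Finset.range N,
      (z k - z' k) * star (z k - z' k)) ?_ hpb hqb
    · rwa [← mul_assoc 4 C] at h
    · rw [Finset.smul_sum, Finset.smul_sum, ← Finset.sum_add_distrib]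
      exact Finset.sum_le_sum fun k _ => sub_le' _ _

end GD64
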