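import Pool.Agent.GD64.PiecesS
import Pool.Agent.GD64.CoreS

/-!
# GD64/SAMainS: the decomposition for self-adjoint martingales, not uniformly bounded (stage 2)

`piecesS`, choose `I` strictly increasing with `‖x k‖, ‖x (k+1)‖ ≤ l 2^(I k)`, `flagsS` (with `B L = l 2^L (3 D L)`),
`coreS` (with `3D`), `y_k = Z^1_k`, `z_k = star Z^0_k`; `y_k + z_k = ∑_{0<i≤I k}(dd X_i - dd Y_i) + dd (Rm (I k)) = dd x k` by
`star_sub_Tr`.
-/

namespace GD64

universe u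

namespace SAMainSAux

variable {A : Type*} [CStarAlgebra A] [PartialOrder A] [StarOrderedRing A]

theorem dd_mem {T : TF A} {X : ℕ → A} (hX : Mart T X) (k : ℕ) : dd X k ∈ T.F (k + 1) :=
  sub_mem (hX.mem (k + 1)) (T.F_mono (Nat.le_succ k) (hX.mem k))

theorem dd_E {T : TF A} {X : ℕ → A} (hX : Mart T X) (k : ℕ) : T.E k (dd X k) = 0 := by
  unfold dd
  rw [T.E_sub, hX.ce, T.E_of_mem (hX.mem k), sub_self]

theorem exists_I {l : ℝ} (hl : 0 < l) (x : ℕ → A) :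
    ∃ I : ℕ → ℕ, StrictMono I ∧ (∀ k, ‖x k‖ ≤ l * 2 ^ (I k)) ∧
      ∀ k, ‖x (k + 1)‖ ≤ l * 2 ^ (I k) := by
  have h1 : ∀ k, ∃ n : ℕ, ‖x k‖ ≤ l * 2 ^ n := by
    intro k
    obtain ⟨n, hn⟩ := pow_unbounded_of_one_lt (‖x k‖ / l) (one_lt_two : (1 : ℝ) < 2)
    refine ⟨n, ?_⟩
    rw [div_lt_iff₀ hl] at hn
    linarith
  choose N hN using h1
  have hmono : ∀ {a b : ℕ}, a ≤ b → l * (2 : ℝ) ^ a ≤ l * 2 ^ b := fun h =>
    mul_le_mul_of_nonneg_left (pow_le_pow_right₀ (by norm_num) h) hl.le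
  refine ⟨fun k => k + ∑ j ∈ Finset.range (k + 2), N j, ?_, ?_, ?_⟩
  · refine strictMono_nat_of_lt_succ fun k => ?_
    rw [Finset.sum_range_succ _ (k + 2)]
    omega
  · intro k
    refine (hN k).trans (hmono ?_)
    have := Finset.single_le_sum (f := N) (fun i _ => Nat.zero_le (N i))
      (show k ∈ Finset.range (k + 2) by rw [Finset.mem_range]; omega)
    show N k ≤ k + ∑ j ∈ Finset.range (k + 2), N j
    omega
  · intro k
    refine (hN (k + 1)).trans (hmono ?_)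
    have := Finset.single_le_sum (f := N) (fun i _ => Nat.zero_le (N i))
      (show k + 1 ∈ Finset.range (k + 2) by rw [Finset.mem_range]; omega)
    show N (k + 1) ≤ k + ∑ j ∈ Finset.range (k + 2), N j
    omega

end SAMainSAux

open SAMainSAux in
theorem saMainS (K : ℝ) (hK : 1 ≤ K) : ∃ C : ℝ, 0 < C ∧
    ∀ (A : Type u) [CStarAlgebra A] [PartialOrder A] [StarOrderedRing A] (T : TF A)
      (_ : WLim T) (l : ℝ) (_ : 0 < l) (x : ℕ → A) (_ : Mart T x)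
      (_ : ∀ n, IsSelfAdjoint (x n))
      (D : ℕ → ℝ) (_ : ∀ j, 0 ≤ D j) (_ : T.t 1 ≤ D 0)
      (_ : ∀ n L, T.t (cfc (fun s : ℝ => max (s - l * 2 ^ L) 0) (x n)) ≤ l * 2 ^ L * D L)
      (_ : ∀ n L, T.t (cfc (fun s : ℝ => max (-s - l * 2 ^ L) 0) (x n)) ≤ l * 2 ^ L * D L)
      (_ : ∀ j, 2 * D (j + 1) ≤ D j) (_ : ∀ j, D j ≤ K * D (j + 1)),
      ∃ y z : ℕ → A, (∀ k, y k ∈ T.F (k + 1)) ∧ (∀ k, z k ∈ T.F (k + 1)) ∧
        (∀ k, T.E k (y k) = 0) ∧ (∀ k, T.E k (z k) = 0) ∧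
        (∀ k, y k + z k = dd x k) ∧
        (∀ L, 1 ≤ L → ∀ N, ∃ p ∈ T.F N, IsStarProjection p ∧ T.t (1 - p) ≤ C * D L ∧
          p * (∑ k ∈ Finset.range N, star (y k) * y k) * p ≤ (C * (l * 2 ^ L) ^ 2) • (1 : A)) ∧
        (∀ L, 1 ≤ L → ∀ N, ∃ p ∈ T.F N, IsStarProjection p ∧ T.t (1 - p) ≤ C * D L ∧
          p * (∑ k ∈ Finset.range N, z k * star (z k)) * p ≤
            (C * (l * 2 ^ L) ^ 2) • (1 : A)) := by
  obtain ⟨C, hC, H⟩ := coreS.{u} K hK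
  refine ⟨3 * C, by positivity, ?_⟩
  intro A _ _ _ T hW l hl x hx hs D hD h1 hp hm hD2 hDK
  obtain ⟨X, Y, Rm, hX, hY, hRm, hX0, hX1, hY0, hY1, hRs, hXt, hYt, hL1, hRv, hRu, hRl⟩ :=
    piecesS T hW hl hx hs hD h1 hp hm
  obtain ⟨I, hI, hI1, hI2⟩ := exists_I hl x
  obtain ⟨e, he, he1, g1, g2, g3, g4, g5, g6⟩ := T.flagsS hl hI.monotone X Y hX hY hX0 hX1 hY0 hY1
    Rm hRm hRs (fun L => l * 2 ^ L * (3 * D L)) hL1
  have hone : (0 : A) ≤ 1 := zero_le_one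
  have hup : ∀ L n, ‖x n‖ ≤ l * 2 ^ L → Rm L n ≤ (2 * (l * 2 ^ L)) • (1 : A) := by
    intro L n hn
    refine (hRu L n).trans (smul_le_smul_of_nonneg_right ?_ hone)
    linarith
  have hlow : ∀ L n, ‖x n‖ ≤ l * 2 ^ L → -((2 * (l * 2 ^ L)) • (1 : A)) ≤ Rm L n := by
    intro L n hn
    refine le_trans (neg_le_neg (smul_le_smul_of_nonneg_right ?_ hone)) (hRl L n)
    linarith
  have hRR : ∀ L L' k, L ≤ L' →
      Rm L k = Rm L' k + ∑ i ∈ Finset.Ioc L L', (X i k - Y i k) := by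
    intro L L' k hLL
    rw [hRv, hRv, ← Finset.sum_Ioc_consecutive _ (Nat.zero_le L) hLL]
    abel
  have col := H A T l hl I hI X Y hX hY hX0 hX1 hY0 hY1 Rm hRm hRs hRR
    (fun k => hup _ _ (hI1 k)) (fun k => hlow _ _ (hI1 k))
    (fun k => hup _ _ (hI2 k)) (fun k => hlow _ _ (hI2 k))
    (fun j => 3 * D j) (fun j => by have := hD j; positivity) hXt hYt hL1
    (fun j => by have := hD2 j; show 2 * (3 * D (j + 1)) ≤ 3 * D j; linarith)
    (fun j => by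
      have := hDK j
      show 3 * D j ≤ K * (3 * D (j + 1))
      linarith)
    e he he1 g1 g2 g3 g4 g5 g6
  have hsdd : ∀ i k, star (dd (X i) k - dd (Y i) k) = dd (X i) k - dd (Y i) k := by
    intro i k
    unfold dd
    simp only [star_sub, (IsSelfAdjoint.of_nonneg (hX0 i (k + 1))).star_eq,
      (IsSelfAdjoint.of_nonneg (hX0 i k)).star_eq, (IsSelfAdjoint.of_nonneg (hY0 i (k + 1))).star_eq,
      (IsSelfAdjoint.of_nonneg (hY0 i k)).star_eq]
  have hsR : ∀ L k, star (dd (Rm L) k) = dd (Rm L) k := by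
    intro L k
    unfold dd
    rw [star_sub, (hRs L (k + 1)).star_eq, (hRs L k).star_eq]
  have hmemd : ∀ i k, dd (X i) k - dd (Y i) k ∈ T.F (k + 1) := fun i k =>
    sub_mem (dd_mem (hX i) k) (dd_mem (hY i) k)
  have hEd : ∀ i k, T.E k (dd (X i) k - dd (Y i) k) = 0 := fun i k => by
    rw [T.E_sub, dd_E (hX i), dd_E (hY i), sub_zero]
  obtain ⟨Z, hZ⟩ : ∃ Z : ℕ → ℕ → A, Z = fun b k =>
    ∑ i ∈ Finset.Ioc 0 (I k), Tr b (ch e i k) (i + 1) (dd (X i) k - dd (Y i) k) +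
      Tr b (ch e (I k) k) (I k + 1) (dd (Rm (I k)) k) := ⟨_, rfl⟩
  have hZmem : ∀ b k, Z b k ∈ T.F (k + 1) := by
    intro b k
    rw [hZ]
    exact add_mem (sum_mem fun i _ => he.Tr_mem b i k (i + 1) (hmemd i k))
      (he.Tr_mem b (I k) k (I k + 1) (dd_mem (hRm (I k)) k))
  have hZE : ∀ b k, T.E k (Z b k) = 0 := by
    intro b k
    rw [hZ]
    simp only
    rw [T.E_add, T.E_sum, Finset.sum_eq_zero fun i _ => he.E_Tr b i k (i + 1) (hEd i k),
      he.E_Tr b (I k) k (I k + 1) (dd_E (hRm (I k)) k), add_zero]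
  have hcol : ∀ b, b ≤ 1 → ∀ L, 1 ≤ L → ∀ N, ∃ p ∈ T.F N, IsStarProjection p ∧
      T.t (1 - p) ≤ 3 * C * D L ∧
      p * (∑ k ∈ Finset.range N, star (Z b k) * Z b k) * p ≤
        (3 * C * (l * 2 ^ L) ^ 2) • (1 : A) := by
    intro b hb L hL N
    obtain ⟨p, hpF, hpp, hp1, hp2⟩ := col b hb L hL N
    refine ⟨p, hpF, hpp, ?_, ?_⟩
    · refine hp1.trans (le_of_eq ?_)
      ring
    · rw [hZ]
      refine hp2.trans (smul_le_smul_of_nonneg_right ?_ hone)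
      have : 0 ≤ C * (l * 2 ^ L) ^ 2 := by positivity
      linarith
  refine ⟨Z 1, fun k => star (Z 0 k), hZmem 1, fun k => star_mem (hZmem 0 k), hZE 1, ?_, ?_,
    hcol 1 le_rfl, ?_⟩
  · intro k
    show T.E k (star (Z 0 k)) = 0
    rw [T.E_star, hZE, star_zero]
  · intro k
    show Z 1 k + star (Z 0 k) = dd x k
    have hTr : ∀ (i : ℕ) (a : A), star a = a →
        Tr 1 (ch e i k) (i + 1) a + star (Tr 0 (ch e i k) (i + 1) a) = a := by
      intro i a ha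
      have h := star_sub_Tr (he.chain i k) a
      rw [ha] at h
      rw [← h, star_star]
      abel
    have h2 : Z 1 k + star (Z 0 k) =
        ∑ i ∈ Finset.Ioc 0 (I k), (dd (X i) k - dd (Y i) k) + dd (Rm (I k)) k := by
      rw [hZ]
      simp only
      rw [star_add, star_sum, add_add_add_comm, ← Finset.sum_add_distrib,
        Finset.sum_congr rfl fun i _ => hTr i _ (hsdd i k), hTr (I k) _ (hsR (I k) k)]
    rw [h2]
    unfold dd
    rw [hRv (I k) (k + 1), hRv (I k) k]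
    have h3 : ∑ i ∈ Finset.Ioc 0 (I k), (X i (k + 1) - X i k - (Y i (k + 1) - Y i k)) =
        ∑ i ∈ Finset.Ioc 0 (I k), (X i (k + 1) - Y i (k + 1)) -
          ∑ i ∈ Finset.Ioc 0 (I k), (X i k - Y i k) := by
      rw [← Finset.sum_sub_distrib]
      exact Finset.sum_congr rfl fun i _ => by abel
    rw [h3]
    abel
  · intro L hL N
    obtain ⟨p, hpF, hpp, hp1, hp2⟩ := hcol 0 (Nat.zero_le 1) L hL N
    refine ⟨p, hpF, hpp, hp1, ?_⟩
    simp only [star_star]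
    exact hp2

end GD64
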