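import Pool.Agent.GD64.Proj

/-!
# GD64/Stop: Cuculescu projections of an adapted self-adjoint sequence
-/

namespace GD64

namespace TF

variable {A : Type*} [CStarAlgebra A] [PartialOrder A] [StarOrderedRing A] (T : TF A)

open Classical in
/-- the spectral projection `1_{(c,∞)}(v)` chosen from the axiom `cut` at time `n`. -/
noncomputable def sp (n : ℕ) (v : A) (c : ℝ) : A :=
  if h : v ∈ T.F n ∧ IsSelfAdjoint v then (T.cut n v h.1 h.2 c).choose else 0

/-- Cuculescu projections: `r_0 = 1 - 1_{(R,∞)}(X_0)`,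
`r_{k+1} = r_k - 1_{(R,∞)}(r_k X_{k+1} r_k)`. -/
noncomputable def stop (X : ℕ → A) (R : ℝ) : ℕ → A
  | 0 => 1 - T.sp 0 (X 0) R
  | k + 1 => stop X R k - T.sp (k + 1) (stop X R k * X (k + 1) * stop X R k) R

theorem sp_spec {n : ℕ} {v : A} (hv : v ∈ T.F n) (hs : IsSelfAdjoint v) (c : ℝ) :
    T.sp n v c ∈ T.F n ∧ IsStarProjection (T.sp n v c) ∧
    (∀ x : A, Commute x v → Commute x (T.sp n v c)) ∧
      c • T.sp n v c ≤ T.sp n v c * v * T.sp n v c ∧
      (1 - T.sp n v c) * v * (1 - T.sp n v c) ≤ c • (1 - T.sp n v c) := by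
  have h : v ∈ T.F n ∧ IsSelfAdjoint v := ⟨hv, hs⟩
  unfold sp
  rw [dif_pos h]
  exact (T.cut n v h.1 h.2 c).choose_spec

/-- A projection `f` commuting with `1 - r` on which `r v r ≥ R > 0` lies below `r`. -/
theorem sp_below {r f v : A} {R : ℝ} (hR : 0 < R) (hr : IsStarProjection r)
    (hf : IsStarProjection f) (hc : Commute (1 - r) f) (hrv : (1 - r) * v = 0)
    (h : R • f ≤ f * v * f) : r * f = f := by
  have h1 : (1 - r) * (R • f) * (1 - r) ≤ (1 - r) * (f * v * f) * (1 - r) :=
    proj_conj_mono hr.one_sub h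
  have h2 : (1 - r) * (f * v * f) * (1 - r) = 0 := by
    have : (1 - r) * (f * v * f) * (1 - r) = f * ((1 - r) * v) * f * (1 - r) := by
      have e := hc.eq
      calc (1 - r) * (f * v * f) * (1 - r) = ((1 - r) * f) * v * f * (1 - r) := by
            simp only [mul_assoc]
        _ = (f * (1 - r)) * v * f * (1 - r) := by rw [e]
        _ = f * ((1 - r) * v) * f * (1 - r) := by simp only [mul_assoc]
    rw [this, hrv]
    simp
  have h3 : (1 - r) * (R • f) * (1 - r) = R • ((1 - r) * f * (1 - r)) := by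
    rw [mul_smul_comm, smul_mul_assoc]
  rw [h2, h3] at h1
  have h4 : 0 ≤ (1 - r) * f * (1 - r) := proj_conj_nonneg hr.one_sub hf.nonneg
  have h5 : (1 - r) * f * (1 - r) ≤ 0 := by
    have := smul_le_smul_of_nonneg_left h1 (inv_nonneg.mpr hR.le)
    rwa [smul_smul, inv_mul_cancel₀ hR.ne', one_smul, smul_zero] at this
  have h6 : (1 - r) * f * (1 - r) = 0 := le_antisymm h5 h4
  have h7 : (1 - r) * f = 0 := by
    have e := hc.eq
    calc (1 - r) * f = (1 - r) * (1 - r) * f := by rw [hr.one_sub.isIdempotentElem.eq]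
      _ = (1 - r) * ((1 - r) * f) := by rw [mul_assoc]
      _ = (1 - r) * (f * (1 - r)) := by rw [e]
      _ = (1 - r) * f * (1 - r) := by rw [mul_assoc]
      _ = 0 := h6
  rw [sub_mul, one_mul, sub_eq_zero] at h7
  exact h7.symm

section

variable {T} {X : ℕ → A} {R : ℝ} (hX : ∀ k, X k ∈ T.F k) (hs : ∀ k, IsSelfAdjoint (X k))
  (hR : 0 < R)

include hX hs hR

theorem stop_inv (k : ℕ) : IsStarProjection (T.stop X R k) ∧ T.stop X R k ∈ T.F k := by
  induction k with
  | zero =>
    have h := T.sp_spec (hX 0) (hs 0) R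
    exact ⟨h.2.1.one_sub, sub_mem (one_mem _) h.1⟩
  | succ k ih =>
    have hm : T.stop X R k ∈ T.F (k + 1) := T.F_le (Nat.le_succ k) ih.2
    have hv : T.stop X R k * X (k + 1) * T.stop X R k ∈ T.F (k + 1) :=
      mul_mem (mul_mem hm (hX (k + 1))) hm
    have hsa : IsSelfAdjoint (T.stop X R k * X (k + 1) * T.stop X R k) := by
      have := (hs (k + 1)).conjugate (T.stop X R k)
      rwa [ih.1.isSelfAdjoint.star_eq] at this
    have h := T.sp_spec hv hsa R
    have h0 : (1 - T.stop X R k) * (T.stop X R k * X (k + 1) * T.stop X R k) = 0 := by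
      rw [mul_assoc (T.stop X R k), ← mul_assoc, ih.1.one_sub_mul_self, zero_mul]
    have h0' : (T.stop X R k * X (k + 1) * T.stop X R k) * (1 - T.stop X R k) = 0 := by
      rw [mul_assoc, ih.1.mul_one_sub_self, mul_zero]
    have hc : Commute (1 - T.stop X R k)
        (T.sp (k + 1) (T.stop X R k * X (k + 1) * T.stop X R k) R) :=
      h.2.2.1 _ (by rw [Commute, SemiconjBy, h0, h0'])
    have hb := sp_below hR ih.1 h.2.1 hc h0 h.2.2.2.1
    exact ⟨IsStarProjection.sub_of_mul_eq_right h.2.1 ih.1 hb, sub_mem hm h.1⟩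

theorem stop_proj (k : ℕ) : IsStarProjection (T.stop X R k) := (stop_inv hX hs hR k).1

theorem stop_mem (k : ℕ) : T.stop X R k ∈ T.F k := (stop_inv hX hs hR k).2

/-- all properties of the jump. -/
theorem stop_step (k : ℕ) :
    let g := T.stop X R k - T.stop X R (k + 1)
    let v := T.stop X R k * X (k + 1) * T.stop X R k
    IsStarProjection g ∧ T.stop X R k * g = g ∧ Commute g v ∧ R • g ≤ g * v * g ∧
      (1 - g) * v * (1 - g) ≤ R • (1 - g) := by
  have ih := stop_inv hX hs hR k
  have hm : T.stop X R k ∈ T.F (k + 1) := T.F_le (Nat.le_succ k) ih.2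
  have hv : T.stop X R k * X (k + 1) * T.stop X R k ∈ T.F (k + 1) :=
    mul_mem (mul_mem hm (hX (k + 1))) hm
  have hsa : IsSelfAdjoint (T.stop X R k * X (k + 1) * T.stop X R k) := by
    have := (hs (k + 1)).conjugate (T.stop X R k)
    rwa [ih.1.isSelfAdjoint.star_eq] at this
  have h := T.sp_spec hv hsa R
  have h0 : (1 - T.stop X R k) * (T.stop X R k * X (k + 1) * T.stop X R k) = 0 := by
    rw [mul_assoc (T.stop X R k), ← mul_assoc, ih.1.one_sub_mul_self, zero_mul]
  have h0' : (T.stop X R k * X (k + 1) * T.stop X R k) * (1 - T.stop X R k) = 0 := by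
    rw [mul_assoc, ih.1.mul_one_sub_self, mul_zero]
  have hc : Commute (1 - T.stop X R k)
      (T.sp (k + 1) (T.stop X R k * X (k + 1) * T.stop X R k) R) :=
    h.2.2.1 _ (by rw [Commute, SemiconjBy, h0, h0'])
  have hb := sp_below hR ih.1 h.2.1 hc h0 h.2.2.2.1
  have hg : T.stop X R k - T.stop X R (k + 1) =
      T.sp (k + 1) (T.stop X R k * X (k + 1) * T.stop X R k) R := by
    show T.stop X R k - (T.stop X R k -
      T.sp (k + 1) (T.stop X R k * X (k + 1) * T.stop X R k) R) = _
    abel
  intro g v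
  have hgd : g = T.sp (k + 1) (T.stop X R k * X (k + 1) * T.stop X R k) R := hg
  rw [hgd]
  exact ⟨h.2.1, hb, (h.2.2.1 _ (Commute.refl _)).symm, h.2.2.2.1, h.2.2.2.2⟩

theorem stop_dec (k : ℕ) : T.stop X R k * T.stop X R (k + 1) = T.stop X R (k + 1) := by
  have h := (stop_step hX hs hR k).2.1
  have hp := stop_proj hX hs hR k
  rw [mul_sub, hp.isIdempotentElem.eq, sub_right_inj] at h
  exact h

theorem stop_le {m k : ℕ} (h : m ≤ k) :
    T.stop X R m * T.stop X R k = T.stop X R k := by
  induction k, h using Nat.le_induction with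
  | base => exact (stop_proj hX hs hR m).isIdempotentElem.eq
  | succ k _ ih =>
    rw [← stop_dec hX hs hR k, ← mul_assoc, ih]

/-- the jump projection. -/
theorem stop_jump_proj (k : ℕ) : IsStarProjection (T.stop X R k - T.stop X R (k + 1)) :=
  (stop_step hX hs hR k).1

theorem stop_le' {m k : ℕ} (h : m ≤ k) :
    T.stop X R k * T.stop X R m = T.stop X R k :=
  proj_mul_comm (stop_proj hX hs hR k) (stop_proj hX hs hR m) (stop_le hX hs hR h)

theorem stop_bound (k : ℕ) :
    T.stop X R k * X k * T.stop X R k ≤ R • T.stop X R k := by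
  cases k with
  | zero =>
    have h := T.sp_spec (hX 0) (hs 0) R
    exact h.2.2.2.2
  | succ k =>
    have h := (stop_step hX hs hR k).2.2.2.2
    have hp := stop_proj hX hs hR k
    have hp' := stop_proj hX hs hR (k + 1)
    have d := stop_dec hX hs hR k
    have d' := stop_le' hX hs hR (Nat.le_succ k)
    have h1 := proj_conj_mono hp' h
    have e1 : T.stop X R (k + 1) * (1 - (T.stop X R k - T.stop X R (k + 1))) =
        T.stop X R (k + 1) := by
      rw [mul_sub, mul_sub, d', hp'.isIdempotentElem.eq]; simp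
    have e2 : (1 - (T.stop X R k - T.stop X R (k + 1))) * T.stop X R (k + 1) =
        T.stop X R (k + 1) := by
      rw [sub_mul, sub_mul, d, hp'.isIdempotentElem.eq]; simp
    have l : T.stop X R (k + 1) * ((1 - (T.stop X R k - T.stop X R (k + 1))) *
        (T.stop X R k * X (k + 1) * T.stop X R k) *
        (1 - (T.stop X R k - T.stop X R (k + 1)))) * T.stop X R (k + 1) =
        T.stop X R (k + 1) * X (k + 1) * T.stop X R (k + 1) := by
      calc _ = (T.stop X R (k + 1) * (1 - (T.stop X R k - T.stop X R (k + 1)))) *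
            (T.stop X R k * X (k + 1) * T.stop X R k) *
            ((1 - (T.stop X R k - T.stop X R (k + 1))) * T.stop X R (k + 1)) := by
              simp only [mul_assoc]
        _ = (T.stop X R (k + 1) * T.stop X R k) * X (k + 1) *
            (T.stop X R k * T.stop X R (k + 1)) := by
              rw [e1, e2]; simp only [mul_assoc]
        _ = _ := by rw [d, d']
    have r : T.stop X R (k + 1) * (R • (1 - (T.stop X R k - T.stop X R (k + 1)))) *
        T.stop X R (k + 1) = R • T.stop X R (k + 1) := by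
      rw [mul_smul_comm, e1, smul_mul_assoc, hp'.isIdempotentElem.eq]
    rw [l, r] at h1
    exact h1

/-- `r_k X_{k+1} r_k` is block diagonal with respect to `r_{k+1}` and `g = r_k - r_{k+1}`. -/
theorem stop_split (k : ℕ) :
    T.stop X R k * X (k + 1) * T.stop X R k =
      T.stop X R (k + 1) * X (k + 1) * T.stop X R (k + 1) +
      (T.stop X R k - T.stop X R (k + 1)) * X (k + 1) *
        (T.stop X R k - T.stop X R (k + 1)) := by
  have hc := (stop_step hX hs hR k).2.2.1
  have hp := stop_proj hX hs hR k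
  have hp' := stop_proj hX hs hR (k + 1)
  have d := stop_dec hX hs hR k
  have d' := stop_le' hX hs hR (Nat.le_succ k)
  have h := hc.eq
  set r := T.stop X R k with hr
  set s := T.stop X R (k + 1) with hs'
  set x := X (k + 1) with hx
  have i1 : r * r = r := hp.isIdempotentElem.eq
  have i2 : s * s = s := hp'.isIdempotentElem.eq
  -- `(r - s) r x r = r x r (r - s)`
  have a1 : (r - s) * (r * x * r) = r * x * r - s * x * r := by
    rw [sub_mul]; simp only [← mul_assoc]; rw [i1, d']
  have a2 : (r * x * r) * (r - s) = r * x * r - r * x * s := by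
    rw [mul_sub]; simp only [mul_assoc]; rw [i1, d]
  have a3 : s * x * r = r * x * s := by
    rw [a1, a2] at h
    exact sub_right_injective h
  have a4 : s * x * r = s * x * s := by
    have := congrArg (fun y => s * y) a3
    simp only [← mul_assoc] at this
    rw [i2, d'] at this
    exact this
  have a5 : r * x * s = s * x * s := by rw [← a3, a4]
  rw [sub_mul, sub_mul, mul_sub, mul_sub, a4, a5]
  abel

theorem stop_jump (k : ℕ) :
    R • (T.stop X R k - T.stop X R (k + 1)) ≤
      (T.stop X R k - T.stop X R (k + 1)) * X (k + 1) *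
        (T.stop X R k - T.stop X R (k + 1)) := by
  have h := (stop_step hX hs hR k).2.2.2.1
  have hb := (stop_step hX hs hR k).2.1
  have hg := (stop_step hX hs hR k).1
  have hp := stop_proj hX hs hR k
  have hb' := proj_mul_comm hg hp hb
  have e : (T.stop X R k - T.stop X R (k + 1)) * (T.stop X R k * X (k + 1) * T.stop X R k) *
      (T.stop X R k - T.stop X R (k + 1)) =
      (T.stop X R k - T.stop X R (k + 1)) * X (k + 1) *
        (T.stop X R k - T.stop X R (k + 1)) := by
    calc _ = ((T.stop X R k - T.stop X R (k + 1)) * T.stop X R k) * X (k + 1) *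
          (T.stop X R k * (T.stop X R k - T.stop X R (k + 1))) := by
            simp only [mul_assoc]
      _ = _ := by rw [hb, hb']
  rw [e] at h
  exact h

theorem stop_split_zero :
    X 0 = T.stop X R 0 * X 0 * T.stop X R 0 +
      (1 - T.stop X R 0) * X 0 * (1 - T.stop X R 0) := by
  have h := T.sp_spec (hX 0) (hs 0) R
  have hc := (h.2.2.1 _ (Commute.refl _)).eq
  show X 0 = (1 - T.sp 0 (X 0) R) * X 0 * (1 - T.sp 0 (X 0) R) +
    (1 - (1 - T.sp 0 (X 0) R)) * X 0 * (1 - (1 - T.sp 0 (X 0) R))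
  have i := h.2.1.isIdempotentElem.eq
  rw [sub_sub_cancel]
  set f := T.sp 0 (X 0) R with hf
  have a1 : f * X 0 * f = f * X 0 := by
    rw [mul_assoc, hc, ← mul_assoc, i]
  rw [sub_mul, one_mul, mul_sub, mul_one, sub_mul, a1, hc]
  abel

theorem stop_jump_zero :
    R • (1 - T.stop X R 0) ≤ (1 - T.stop X R 0) * X 0 * (1 - T.stop X R 0) := by
  have h := T.sp_spec (hX 0) (hs 0) R
  show R • (1 - (1 - T.sp 0 (X 0) R)) ≤
    (1 - (1 - T.sp 0 (X 0) R)) * X 0 * (1 - (1 - T.sp 0 (X 0) R))
  rw [sub_sub_cancel]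
  exact h.2.2.2.1

end

/-- If `v = 0` the spectral projection above a positive level vanishes. -/
theorem sp_zero {R : ℝ} (hR : 0 < R) (n : ℕ) : T.sp n (0 : A) R = 0 := by
  have h := T.sp_spec (zero_mem (T.F n)) (IsSelfAdjoint.zero A) R
  have h1 := h.2.2.2.1
  rw [mul_zero, zero_mul] at h1
  have h2 : T.sp n (0 : A) R ≤ 0 := by
    have := smul_le_smul_of_nonneg_left h1 (inv_nonneg.mpr hR.le)
    rwa [smul_smul, inv_mul_cancel₀ hR.ne', one_smul, smul_zero] at this
  exact le_antisymm h2 h.2.1.nonneg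

/-- The zero process is never stopped. -/
theorem stop_zero {R : ℝ} (hR : 0 < R) (k : ℕ) : T.stop (fun _ => (0 : A)) R k = 1 := by
  induction k with
  | zero =>
    show 1 - T.sp 0 (0 : A) R = 1
    rw [T.sp_zero hR, sub_zero]
  | succ k ih =>
    show T.stop (fun _ => (0 : A)) R k -
      T.sp (k + 1) (T.stop (fun _ => (0 : A)) R k * 0 * T.stop (fun _ => (0 : A)) R k) R = 1
    rw [ih, mul_zero, zero_mul, T.sp_zero hR, sub_zero]

/-- `r_0 = 1` if `X 0 = 0`. -/
theorem stop_start {X : ℕ → A} {R : ℝ} (hR : 0 < R) (h0 : X 0 = 0) : T.stop X R 0 = 1 := by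
  show 1 - T.sp 0 (X 0) R = 1
  rw [h0, T.sp_zero hR, sub_zero]

/-- Weak type inequality for a positive martingale `X`:
`R t(g) ≤ t(g X_{k+1}) = t(g X_N)` for every jump projection `g ∈ F (k+1)`, and the jumps add
up to `1 - r_N`. -/
theorem stop_mart_t {X : ℕ → A} (hX : ∀ k, X k ∈ T.F k) (h0 : ∀ k, 0 ≤ X k)
    (hc : ∀ k, T.E k (X (k + 1)) = X k) {R : ℝ} (hR : 0 < R) (N : ℕ) :
    R * T.t (1 - T.stop X R N) ≤ T.t (X 0) := by
  have hs : ∀ k, IsSelfAdjoint (X k) := fun k => IsSelfAdjoint.of_nonneg (h0 k)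
  -- invariant: `R t(1 - r_k) + t(r_k X_k r_k) ≤ t (X 0)`
  have key : ∀ k, R * T.t (1 - T.stop X R k) +
      T.t (T.stop X R k * X k * T.stop X R k) ≤ T.t (X 0) := by
    intro k
    induction k with
    | zero =>
      have h1 := T.t_mono (stop_jump_zero hX hs hR)
      have h2 := congrArg T.t (stop_split_zero hX hs hR)
      rw [map_add] at h2
      rw [map_smul, smul_eq_mul] at h1
      linarith
    | succ k ih =>
      have h1 := T.t_mono (stop_jump hX hs hR k)
      have h2 := congrArg T.t (stop_split hX hs hR k)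
      rw [map_add] at h2
      rw [map_smul, smul_eq_mul] at h1
      -- `t(r X_{k+1} r) = t(r X_k r)`
      have h3 : T.t (T.stop X R k * X (k + 1) * T.stop X R k) =
          T.t (T.stop X R k * X k * T.stop X R k) := by
        rw [T.t_proj_conj (stop_proj hX hs hR k), T.t_proj_conj (stop_proj hX hs hR k),
          ← hc k, T.E_spec k _ _ (stop_mem hX hs hR k)]
      have h4 : T.t (1 - T.stop X R (k + 1)) = T.t (1 - T.stop X R k) +
          T.t (T.stop X R k - T.stop X R (k + 1)) := by
        rw [← map_add]; congr 1; abel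
      rw [h4]
      rw [h3] at h2
      nlinarith
  have h := key N
  have h5 : 0 ≤ T.t (T.stop X R N * X N * T.stop X R N) :=
    T.t_nonneg (proj_conj_nonneg (stop_proj hX hs hR N) (h0 N))
  linarith

end TF

end GD64
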