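import Pool.Agent.GD64.Defs

/-!
# Tracial star algebras over the reals (used for `A` and for matrices over `A`)
-/

namespace GD64

/-- A real star algebra with a positive trace functional. -/
structure TS (B : Type*) [Ring B] [StarRing B] [Algebra ℝ B] [StarModule ℝ B] where
  t : B →ₗ[ℝ] ℝ
  t_comm : ∀ a b : B, t (a * b) = t (b * a)
  t_star : ∀ a : B, t (star a) = t a
  t_pos : ∀ a : B, 0 ≤ t (star a * a)

/-- The trace algebra underlying a `TF`. -/
def TF.toTS {A : Type*} [CStarAlgebra A] [PartialOrder A] [StarOrderedRing A] (T : TF A) :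
    TS A where
  t := T.t
  t_comm := T.t_comm
  t_star := T.t_star
  t_pos := T.t_pos

namespace TS

variable {B : Type*} [Ring B] [StarRing B] [Algebra ℝ B] [StarModule ℝ B]

/-- Matrices over a tracial star algebra. -/
noncomputable def matrix (S : TS B) (ι : Type*) [Fintype ι] [DecidableEq ι] :
    TS (Matrix ι ι B) where
  t :=
    { toFun := fun X => ∑ i, S.t (X i i)
      map_add' := by
        intro X Y
        simp [Finset.sum_add_distrib]
      map_smul' := by
        intro c X
        simp [Finset.mul_sum] }
  t_comm := by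
    intro X Y
    simp only [LinearMap.coe_mk, AddHom.coe_mk, Matrix.mul_apply, map_sum]
    rw [Finset.sum_comm]
    refine Finset.sum_congr rfl fun i _ => Finset.sum_congr rfl fun j _ => ?_
    exact S.t_comm _ _
  t_star := by
    intro X
    simp only [LinearMap.coe_mk, AddHom.coe_mk, Matrix.star_apply]
    exact Finset.sum_congr rfl fun i _ => S.t_star _
  t_pos := by
    intro X
    simp only [LinearMap.coe_mk, AddHom.coe_mk, Matrix.mul_apply, map_sum, Matrix.star_apply]
    exact Finset.sum_nonneg fun i _ => Finset.sum_nonneg fun j _ => S.t_pos _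

/-- `L m X = t ((X* X)^(2^m))`, the `2^(m+1)`-th power of the `L_{2^(m+1)}` norm. -/
noncomputable def L (S : TS B) (m : ℕ) (X : B) : ℝ := S.t ((star X * X) ^ (2 ^ m))

/-- The `L_{2^(m+1)}` (semi)norm. -/
noncomputable def N (S : TS B) (m : ℕ) (X : B) : ℝ := (S.L m X) ^ ((1 : ℝ) / 2 ^ (m + 1))

end TS

end GD64
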