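import Pool.Agent.GD64.WLim
import Pool.Agent.GD64.ReExc

/-!
# GD64/VN: finite von Neumann algebras with filtration, definitions
-/

namespace GD64

open scoped ComplexOrder InnerProductSpace

universe u

variable {H : Type u} [NormedAddCommGroup H] [InnerProductSpace ℂ H] [CompleteSpace H]

instance vnClosed (M : VonNeumannAlgebra H) :
    IsClosed ((M.toStarSubalgebra : StarSubalgebra ℂ (H →L[ℂ] H)) : Set (H →L[ℂ] H)) := by
  have h : ((M.toStarSubalgebra : StarSubalgebra ℂ (H →L[ℂ] H)) : Set (H →L[ℂ] H)) =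
      Set.centralizer (Set.centralizer (M : Set (H →L[ℂ] H))) := by
    simp
  rw [h]
  exact Set.isClosed_centralizer _

/-- The operators of `M`, as a C*-algebra. -/
abbrev VA (M : VonNeumannAlgebra H) : Type u := M.toStarSubalgebra

/-- A faithful normal finite trace on the von Neumann algebra `M`. Normality is expressed as
ultraweak continuity. -/
structure FinTrace (M : VonNeumannAlgebra H) where
  tr : VA M →ₗ[ℂ] ℂ
  tr_comm : ∀ a b : VA M, tr (a * b) = tr (b * a)
  tr_pos : ∀ a : VA M, 0 ≤ tr (star a * a)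
  tr_faithful : ∀ a : VA M, tr (star a * a) = 0 → a = 0
  tr_normal : ∃ ξ η : ℕ → H, Summable (fun i => ‖ξ i‖ ^ 2) ∧ Summable (fun i => ‖η i‖ ^ 2) ∧
    ∀ a : VA M, tr a = ∑' i, ⟪ξ i, (a : H →L[ℂ] H) (η i)⟫_ℂ

/-- A filtration of `(M, τ)`: an increasing sequence of von Neumann subalgebras with the trace
preserving conditional expectations. -/
structure Filtr (M : VonNeumannAlgebra H) (τ : FinTrace M) where
  N : ℕ → VonNeumannAlgebra H
  mono : Monotone N
  le : ∀ n, N n ≤ M
  E : ℕ → VA M → VA M
  E_mem : ∀ n a, (E n a : H →L[ℂ] H) ∈ N n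
  E_tr : ∀ n (a b : VA M), (b : H →L[ℂ] H) ∈ N n → τ.tr (E n a * b) = τ.tr (a * b)

/-- support projection: the orthogonal projection onto the closure of the range. -/
noncomputable def suppP (h : H →L[ℂ] H) : H →L[ℂ] H :=
  (LinearMap.range (h : H →ₗ[ℂ] H)).topologicalClosure.starProjection

end GD64
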