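import Pool.Agent.GD64.VN

/-!
# GD64/VNSupp: support projections of bounded operators

`suppP h` is the orthogonal projection onto the closure of the range of `h`.
-/

namespace GD64

open scoped ComplexOrder InnerProductSpace

universe u

variable {H : Type u} [NormedAddCommGroup H] [InnerProductSpace ℂ H] [CompleteSpace H]

theorem suppP_proj (h : H →L[ℂ] H) : IsStarProjection (suppP h) :=
  isStarProjection_starProjection

/-- the closure of the range of `h`. -/
noncomputable def suppK (h : H →L[ℂ] H) : Submodule ℂ H :=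
  (LinearMap.range (h : H →ₗ[ℂ] H)).topologicalClosure

theorem suppP_apply_eq (h : H →L[ℂ] H) (v : H) : suppP h v = v ↔ v ∈ suppK h :=
  Submodule.starProjection_eq_self_iff

theorem suppP_apply_mem (h : H →L[ℂ] H) (v : H) : suppP h v ∈ suppK h := by
  have := Submodule.starProjection_apply_mem
    (LinearMap.range (h : H →ₗ[ℂ] H)).topologicalClosure v
  exact this

omit [CompleteSpace H] in
theorem apply_mem_suppK (h : H →L[ℂ] H) (v : H) : h v ∈ suppK h :=
  Submodule.le_topologicalClosure _ ⟨v, rfl⟩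

theorem suppP_mul (h : H →L[ℂ] H) : suppP h * h = h := by
  ext v
  exact (suppP_apply_eq h _).mpr (apply_mem_suppK h v)

theorem mul_suppP {h : H →L[ℂ] H} (hs : IsSelfAdjoint h) : h * suppP h = h := by
  have h1 := congrArg star (suppP_mul h)
  rwa [star_mul, hs.star_eq, (suppP_proj h).isSelfAdjoint.star_eq] at h1

/-- For self-adjoint `h`, `h y = 0` implies `suppP h * y = 0` (the range of `y` is in `ker h`,
orthogonal to the range of `h`). -/
theorem suppP_annih {h y : H →L[ℂ] H} (hs : IsSelfAdjoint h) (hy : h * y = 0) :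
    suppP h * y = 0 := by
  have hsym := hs.isSymmetric
  ext v
  have h0 : h (y v) = 0 := by
    have := congrArg (fun z : H →L[ℂ] H => z v) hy
    simpa using this
  have hmem : y v ∈ (LinearMap.range (h : H →ₗ[ℂ] H)).topologicalClosureᗮ := by
    rw [Submodule.orthogonal_closure]
    rw [Submodule.mem_orthogonal]
    rintro _ ⟨w, rfl⟩
    have := hsym w (y v)
    simp only [ContinuousLinearMap.coe_coe] at this ⊢
    rw [this, h0, inner_zero_right]
  have := Submodule.ker_starProjection (LinearMap.range (h : H →ₗ[ℂ] H)).topologicalClosure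
  have h2 : y v ∈ (LinearMap.range (h : H →ₗ[ℂ] H)).topologicalClosure.starProjection.ker := by
    rw [this]
    exact hmem
  exact LinearMap.mem_ker.mp h2

/-- If `g` is a projection with `g h = h` then `g * suppP h = suppP h`. -/
theorem mul_suppP_of_mul {h g : H →L[ℂ] H} (hg : g * h = h) : g * suppP h = suppP h := by
  ext v
  have hcl : suppK h ≤ LinearMap.eqLocus (g : H →ₗ[ℂ] H) LinearMap.id := by
    refine Submodule.topologicalClosure_minimal _ ?_ ?_
    · rintro _ ⟨w, rfl⟩
      have := congrArg (fun z : H →L[ℂ] H => z w) hg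
      simpa using this
    · exact isClosed_eq g.continuous continuous_id
  exact hcl (suppP_apply_mem h v)

theorem suppP_invt {h x : H →L[ℂ] H} (hx : Commute x h) :
    suppP h * x * suppP h = x * suppP h := by
  ext v
  refine (suppP_apply_eq h _).mpr ?_
  have hcl : suppK h ≤ (suppK h).comap (x : H →ₗ[ℂ] H) := by
    refine Submodule.topologicalClosure_minimal _ ?_ ?_
    · rintro _ ⟨w, rfl⟩
      have := congrArg (fun z : H →L[ℂ] H => z w) hx.eq
      simp only [ContinuousLinearMap.coe_coe, Submodule.mem_comap]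
      have e : x (h w) = h (x w) := by simpa using this
      rw [e]
      exact apply_mem_suppK h _
    · exact (Submodule.isClosed_topologicalClosure _).preimage x.continuous
  exact hcl (suppP_apply_mem h v)

theorem suppP_commute {h x : H →L[ℂ] H} (hs : IsSelfAdjoint h) (hx : Commute x h) :
    Commute x (suppP h) := by
  have h1 := suppP_invt hx
  have hx' : Commute (star x) h := by
    have := hx.star_star
    rwa [hs.star_eq] at this
  have h2 := congrArg star (suppP_invt hx')
  rw [star_mul, star_mul, star_mul, star_star, (suppP_proj h).isSelfAdjoint.star_eq] at h2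
  rw [Commute, SemiconjBy, ← h1, mul_assoc]
  exact h2

theorem suppP_mem (N : VonNeumannAlgebra H) {h : H →L[ℂ] H} (hs : IsSelfAdjoint h)
    (hN : h ∈ N) : suppP h ∈ N := by
  rw [← VonNeumannAlgebra.commutant_commutant N, VonNeumannAlgebra.mem_commutant_iff]
  intro g hg
  have := VonNeumannAlgebra.mem_commutant_iff.mp hg h hN
  exact (suppP_commute hs (show Commute g h from this.symm)).eq

section resolvent

variable {h : H →L[ℂ] H} (h0 : 0 ≤ h) {ε : ℝ} (hε : 0 < ε)

include h0 hε

theorem isUnit_add_smul : IsUnit (h + ε • (1 : H →L[ℂ] H)) := by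
  refine isUnit_of_accretive (c := ε) hε ?_
  rw [star_add, (IsSelfAdjoint.of_nonneg h0).star_eq, star_smul, star_one, star_trivial]
  have h1 : (0 : H →L[ℂ] H) ≤ ε • (1 : H →L[ℂ] H) := smul_nonneg hε.le zero_le_one
  have h2 : (0 : H →L[ℂ] H) ≤ h + h + ε • (1 : H →L[ℂ] H) := add_nonneg (add_nonneg h0 h0) h1
  calc ε • (1 : H →L[ℂ] H) ≤ ε • (1 : H →L[ℂ] H) + (h + h + ε • (1 : H →L[ℂ] H)) :=
        le_add_of_nonneg_right h2
    _ = _ := by abel

/-- for `η = (h+ε)⁻¹ ξ`: `ξ = h η + ε η` and `‖h η‖ ≤ ‖ξ‖`. -/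
theorem resolvent_norm (ξ : H) :
    ‖(h * Ring.inverse (h + ε • (1 : H →L[ℂ] H))) ξ‖ ≤ ‖ξ‖ := by
  set η := (Ring.inverse (h + ε • (1 : H →L[ℂ] H))) ξ with hη
  have h1 : (h + ε • (1 : H →L[ℂ] H)) η = ξ := by
    have := congrArg (fun z : H →L[ℂ] H => z ξ)
      (Ring.mul_inverse_cancel _ (isUnit_add_smul h0 hε))
    simpa using this
  have h2 : h η + (ε : ℂ) • η = ξ := by
    rw [← h1]
    simp
  have hpos : 0 ≤ RCLike.re ⟪h η, η⟫_ℂ := by
    have := (ContinuousLinearMap.nonneg_iff_isPositive h).mp h0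
    exact this.re_inner_nonneg_left η
  show ‖h η‖ ≤ ‖ξ‖
  rw [← h2]
  have h3 := norm_add_sq (𝕜 := ℂ) (h η) ((ε : ℂ) • η)
  rw [inner_smul_right] at h3
  have h4 : RCLike.re ((ε : ℂ) * ⟪h η, η⟫_ℂ) = ε * RCLike.re ⟪h η, η⟫_ℂ := by
    simp
  rw [h4] at h3
  have h5 : ‖h η‖ ^ 2 ≤ ‖h η + (ε : ℂ) • η‖ ^ 2 := by
    rw [h3]
    have : 0 ≤ ‖(ε : ℂ) • η‖ ^ 2 := by positivity
    have : 0 ≤ 2 * (ε * RCLike.re ⟪h η, η⟫_ℂ) := by positivity
    linarith
  exact le_of_sq_le_sq h5 (norm_nonneg _)

end resolvent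

theorem norm_mul_inverse_le {h : H →L[ℂ] H} (h0 : 0 ≤ h) {ε : ℝ} (hε : 0 < ε) :
    ‖h * Ring.inverse (h + ε • (1 : H →L[ℂ] H))‖ ≤ 1 := by
  refine ContinuousLinearMap.opNorm_le_bound _ zero_le_one fun ξ => ?_
  rw [one_mul]
  exact resolvent_norm h0 hε ξ

/-- `h (h + ε)⁻¹ → suppP h` strongly as `ε = 1/(n+1) → 0`, for `h ≥ 0`: on `h ζ`,
`h ζ - h (h+ε)⁻¹ h ζ = ε (h+ε)⁻¹ h ζ` has norm `≤ ε ‖ζ‖`; density and `‖h (h+ε)⁻¹‖ ≤ 1`; on `ker h` both are
`0`. -/
theorem suppP_tendsto {h : H →L[ℂ] H} (h0 : 0 ≤ h) (ξ : H) :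
    Filter.Tendsto (fun n : ℕ =>
      (h * Ring.inverse (h + ((1 : ℝ) / (n + 1)) • (1 : H →L[ℂ] H))) ξ) Filter.atTop
      (nhds (suppP h ξ)) := by
  have hsa := IsSelfAdjoint.of_nonneg h0
  have hpos : ∀ n : ℕ, (0 : ℝ) < 1 / (n + 1) := fun n => by positivity
  -- commutation of the resolvent
  have hcomm : ∀ n : ℕ, Commute h (Ring.inverse (h + ((1 : ℝ) / (n + 1)) • (1 : H →L[ℂ] H))) := by
    intro n
    have hu := isUnit_add_smul h0 (hpos n)
    have : Commute h (h + ((1 : ℝ) / (n + 1)) • (1 : H →L[ℂ] H)) :=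
      (Commute.refl h).add_right ((Commute.one_right h).smul_right _)
    have r1 := Ring.inverse_mul_cancel _ hu
    have r2 := Ring.mul_inverse_cancel _ hu
    set u := h + ((1 : ℝ) / (n + 1)) • (1 : H →L[ℂ] H) with hudef
    show h * Ring.inverse u = Ring.inverse u * h
    calc h * Ring.inverse u = (Ring.inverse u * u) * h * Ring.inverse u := by
          rw [r1, one_mul]
      _ = Ring.inverse u * (u * h) * Ring.inverse u := by rw [mul_assoc (Ring.inverse u) u h]
      _ = Ring.inverse u * (h * u) * Ring.inverse u := by rw [this.eq]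
      _ = Ring.inverse u * h * (u * Ring.inverse u) := by simp only [mul_assoc]
      _ = Ring.inverse u * h := by rw [r2, mul_one]
  -- value on `suppP h ξ`
  have hP : ∀ n : ℕ, (h * Ring.inverse (h + ((1 : ℝ) / (n + 1)) • (1 : H →L[ℂ] H))) ξ =
      (h * Ring.inverse (h + ((1 : ℝ) / (n + 1)) • (1 : H →L[ℂ] H))) (suppP h ξ) := by
    intro n
    have : h * Ring.inverse (h + ((1 : ℝ) / (n + 1)) • (1 : H →L[ℂ] H)) =
        h * Ring.inverse (h + ((1 : ℝ) / (n + 1)) • (1 : H →L[ℂ] H)) * suppP h := by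
      rw [(hcomm n).eq, mul_assoc, mul_suppP hsa]
    conv_lhs => rw [this]
    rfl
  simp_rw [hP]
  -- convergence on the closure of the range
  have key : ∀ v ∈ suppK h, Filter.Tendsto (fun n : ℕ =>
      (h * Ring.inverse (h + ((1 : ℝ) / (n + 1)) • (1 : H →L[ℂ] H))) v) Filter.atTop
      (nhds v) := by
    intro v hv
    rw [Metric.tendsto_atTop]
    intro δ hδ
    have hv' : v ∈ closure (LinearMap.range (h : H →ₗ[ℂ] H) : Set H) := by
      rwa [← Submodule.topologicalClosure_coe]
    obtain ⟨_, ⟨w, rfl⟩, hw⟩ := Metric.mem_closure_iff.mp hv' (δ / 4) (by positivity)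
    rw [ContinuousLinearMap.coe_coe] at hw
    obtain ⟨n0, hn0⟩ := exists_nat_gt (‖w‖ * 4 / δ)
    refine ⟨n0, fun n hn => ?_⟩
    have e1 : (h * Ring.inverse (h + ((1 : ℝ) / (n + 1)) • (1 : H →L[ℂ] H))) (h w) - h w =
        -(((1 : ℝ) / (n + 1)) •
          (h * Ring.inverse (h + ((1 : ℝ) / (n + 1)) • (1 : H →L[ℂ] H))) w) := by
      have hu := Ring.inverse_mul_cancel _ (isUnit_add_smul h0 (hpos n))
      set R := Ring.inverse (h + ((1 : ℝ) / (n + 1)) • (1 : H →L[ℂ] H)) with hR
      have e2 : R * h + ((1 : ℝ) / (n + 1)) • R = 1 := by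
        rw [mul_add, mul_smul_comm, mul_one] at hu
        exact hu
      have e3 : h * R * h = h - ((1 : ℝ) / (n + 1)) • (h * R) := by
        have : h * (R * h + ((1 : ℝ) / (n + 1)) • R) = h := by rw [e2, mul_one]
        rw [mul_add, mul_smul_comm, ← mul_assoc] at this
        exact eq_sub_of_add_eq this
      have e4 : (h * R) (h w) = (h * R * h) w := rfl
      rw [e4, e3]
      simp
    have e5 : ‖(h * Ring.inverse (h + ((1 : ℝ) / (n + 1)) • (1 : H →L[ℂ] H))) (h w) - h w‖ ≤
        (1 / (n + 1)) * ‖w‖ := by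
      rw [e1, norm_neg, norm_smul, Real.norm_of_nonneg (hpos n).le]
      exact mul_le_mul_of_nonneg_left (resolvent_norm h0 (hpos n) w) (hpos n).le
    have e6 : (1 / ((n : ℝ) + 1)) * ‖w‖ < δ / 4 := by
      have hn' : (n0 : ℝ) ≤ n := by exact_mod_cast hn
      have h1 : ‖w‖ * 4 / δ < n + 1 := by linarith
      rw [div_lt_iff₀ hδ] at h1
      rw [one_div, inv_mul_lt_iff₀ (by positivity)]
      nlinarith
    have e7 := resolvent_norm h0 (hpos n) (v - h w)
    rw [map_sub] at e7
    rw [dist_eq_norm] at hw ⊢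
    calc ‖(h * Ring.inverse (h + ((1 : ℝ) / (n + 1)) • (1 : H →L[ℂ] H))) v - v‖
        = ‖((h * Ring.inverse (h + ((1 : ℝ) / (n + 1)) • (1 : H →L[ℂ] H))) v -
            (h * Ring.inverse (h + ((1 : ℝ) / (n + 1)) • (1 : H →L[ℂ] H))) (h w)) +
            ((h * Ring.inverse (h + ((1 : ℝ) / (n + 1)) • (1 : H →L[ℂ] H))) (h w) - h w) -
            (v - h w)‖ := by congr 1; abel
      _ ≤ ‖((h * Ring.inverse (h + ((1 : ℝ) / (n + 1)) • (1 : H →L[ℂ] H))) v -
            (h * Ring.inverse (h + ((1 : ℝ) / (n + 1)) • (1 : H →L[ℂ] H))) (h w)) +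
            ((h * Ring.inverse (h + ((1 : ℝ) / (n + 1)) • (1 : H →L[ℂ] H))) (h w) - h w)‖ +
            ‖v - h w‖ := norm_sub_le _ _
      _ ≤ ‖(h * Ring.inverse (h + ((1 : ℝ) / (n + 1)) • (1 : H →L[ℂ] H))) v -
            (h * Ring.inverse (h + ((1 : ℝ) / (n + 1)) • (1 : H →L[ℂ] H))) (h w)‖ +
            ‖(h * Ring.inverse (h + ((1 : ℝ) / (n + 1)) • (1 : H →L[ℂ] H))) (h w) - h w‖ +
            ‖v - h w‖ := by
          gcongr
          exact norm_add_le _ _
      _ < δ := by linarith
  exact key _ (suppP_apply_mem h ξ)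

/-- Spectral projection of a self-adjoint element of a von Neumann algebra:
`f = suppP (cfc (fun r => max (r - c) 0) v)`. With `v - c = v₊ - v₋`, `f v₊ = v₊`, `f v₋ = 0`. -/
theorem vn_cut (N : VonNeumannAlgebra H) {v : H →L[ℂ] H} (hv : v ∈ N) (hs : IsSelfAdjoint v)
    (c : ℝ) :
    suppP (cfc (fun r : ℝ => max (r - c) 0) v) ∈ N ∧
    (∀ x : H →L[ℂ] H, Commute x v →
      Commute x (suppP (cfc (fun r : ℝ => max (r - c) 0) v))) ∧
    c • suppP (cfc (fun r : ℝ => max (r - c) 0) v) ≤
      suppP (cfc (fun r : ℝ => max (r - c) 0) v) * v *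
        suppP (cfc (fun r : ℝ => max (r - c) 0) v) ∧
    (1 - suppP (cfc (fun r : ℝ => max (r - c) 0) v)) * v *
        (1 - suppP (cfc (fun r : ℝ => max (r - c) 0) v)) ≤
      c • (1 - suppP (cfc (fun r : ℝ => max (r - c) 0) v)) := by
  set vp := cfc (fun r : ℝ => max (r - c) 0) v with hvp
  set vm := cfc (fun r : ℝ => max (c - r) 0) v with hvm
  have hcp : Continuous (fun r : ℝ => max (r - c) 0) := by fun_prop
  have hcm : Continuous (fun r : ℝ => max (c - r) 0) := by fun_prop
  have hvp0 : 0 ≤ vp := cfc_nonneg fun r _ => le_max_right _ _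
  have hvm0 : 0 ≤ vm := cfc_nonneg fun r _ => le_max_right _ _
  have hvps : IsSelfAdjoint vp := IsSelfAdjoint.of_nonneg hvp0
  have hvms : IsSelfAdjoint vm := IsSelfAdjoint.of_nonneg hvm0
  have hdec : v = c • (1 : H →L[ℂ] H) + vp - vm := by
    have e1 : v = cfc (fun r : ℝ => (c + max (r - c) 0) - max (c - r) 0) v := by
      conv_lhs => rw [← cfc_id ℝ v]
      refine cfc_congr fun r _ => ?_
      simp only [id]
      rcases le_total r c with h | h
      · rw [max_eq_right (by linarith), max_eq_left (by linarith)]; ring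
      · rw [max_eq_left (by linarith), max_eq_right (by linarith)]; ring
    have e2 : cfc (fun r : ℝ => (c + max (r - c) 0) - max (c - r) 0) v =
        cfc (fun r : ℝ => c + max (r - c) 0) v - vm := by
      rw [hvm, ← cfc_sub _ _ _ (by fun_prop) (by fun_prop)]
    have e3 : cfc (fun r : ℝ => c + max (r - c) 0) v = c • (1 : H →L[ℂ] H) + vp := by
      rw [cfc_const_add c _ v (by fun_prop), hvp, Algebra.algebraMap_eq_smul_one]
    rw [← e3, ← e2, ← e1]
  have hpm : vp * vm = 0 := by
    rw [hvp, hvm, ← cfc_mul _ _ _ (by fun_prop) (by fun_prop)]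
    rw [show (fun r : ℝ => max (r - c) 0 * max (c - r) 0) = fun _ => 0 from ?_]
    · simp
    · funext r
      rcases le_total r c with h | h
      · rw [max_eq_right (by linarith), zero_mul]
      · rw [max_eq_right (a := c - r) (by linarith), mul_zero]
  set f := suppP vp with hf
  have hfp : IsStarProjection f := suppP_proj vp
  have f1 : f * vp = vp := suppP_mul vp
  have f2 : vp * f = vp := mul_suppP hvps
  have f3 : f * vm = 0 := suppP_annih hvps hpm
  have f4 : vm * f = 0 := by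
    have := congrArg star f3
    rwa [star_mul, hvms.star_eq, hfp.isSelfAdjoint.star_eq, star_zero] at this
  have f5 : f * f = f := hfp.isIdempotentElem.eq
  have hvpN : vp ∈ N := by
    have h : v ∈ N.toStarSubalgebra := hv
    have h2 : cfc (fun r : ℝ => max (r - c) 0) v ∈ N.toStarSubalgebra := cfc_mem (𝕜' := ℂ) _ h
    exact h2
  refine ⟨suppP_mem N hvps hvpN, ?_, ?_, ?_⟩
  · intro x hx
    refine suppP_commute hvps ?_
    exact (hs.commute_cfc hx.symm _).symm
  · have e : f * v * f = c • f + vp := by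
      conv_lhs => rw [hdec]
      rw [mul_sub, mul_add, mul_smul_comm, mul_one, f1, f3, sub_zero, add_mul, smul_mul_assoc,
        f5, f2]
    rw [e]
    exact le_add_of_nonneg_right hvp0
  · have e : (1 - f) * v * (1 - f) = c • (1 - f) - vm := by
      have e1 : (1 - f) * vp = 0 := by rw [sub_mul, one_mul, f1, sub_self]
      have e2 : (1 - f) * vm * (1 - f) = vm := by
        rw [sub_mul, one_mul, f3, sub_zero, mul_sub, mul_one, f4, sub_zero]
      have e3 : (1 - f) * (1 - f) = 1 - f := hfp.one_sub.isIdempotentElem.eq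
      have e0 : (1 - f) * (c • (1 : H →L[ℂ] H) + vp - vm) = c • (1 - f) - (1 - f) * vm := by
        rw [mul_sub (1 - f) (c • (1 : H →L[ℂ] H) + vp) vm, mul_add, mul_smul_comm, mul_one, e1,
          add_zero]
      conv_lhs => rw [hdec]
      rw [e0, sub_mul, smul_mul_assoc, e3, e2]
    rw [e]
    exact sub_le_self _ hvm0

end GD64
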