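import Pool.Agent.GD64.ProcMart

/-!
# GD64/WLim: weak limits along an ultrafilter

`WLim T`: bounded sequences have weak limits along `hyperfilter ℕ`, tested by the trace.
-/

namespace GD64

open Filter

/-- Bounded sequences of `A` have weak limits along the hyperfilter, tested by `t(· x)`. -/
def WLim {A : Type*} [CStarAlgebra A] [PartialOrder A] [StarOrderedRing A] (T : TF A) : Prop :=
  ∀ b : ℕ → A, (∃ c : ℝ, ∀ n, ‖b n‖ ≤ c) → ∃ b' : A, ∀ x : A,
    Tendsto (fun n => T.t (b n * x)) (hyperfilter ℕ : Filter ℕ) (nhds (T.t (b' * x)))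

variable {A : Type*} [CStarAlgebra A] [PartialOrder A] [StarOrderedRing A] {T : TF A}

/-- An element `u ∈ F k` is `≥ 0` if it is self-adjoint for the trace and `t(u x) ≥ 0` for all
`0 ≤ x ∈ F k`: cut at level `0`. -/
theorem TF.nonneg_of_t {k : ℕ} {u : A} (hu : u ∈ T.F k) (hs : IsSelfAdjoint u)
    (h : ∀ x ∈ T.F k, 0 ≤ x → 0 ≤ T.t (u * x)) : 0 ≤ u := by
  have hsp := T.sp_spec hu hs 0
  obtain ⟨hm, hp, hc, h1, h2⟩ := hsp
  set f := T.sp k u 0 with hf
  rw [zero_smul] at h1 h2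
  have hcu : Commute f u := (hc u (Commute.refl u)).symm
  have hp' := hp.one_sub
  have h3 : 0 ≤ T.t (u * (1 - f)) := h _ (sub_mem (one_mem _) hm) hp'.nonneg
  rw [← T.t_proj_conj hp'] at h3
  have h4 : T.t ((1 - f) * u * (1 - f)) ≤ 0 := by
    have := T.t_mono h2
    rwa [map_zero] at this
  have h5 : T.t (-((1 - f) * u * (1 - f))) = 0 := by
    rw [map_neg, le_antisymm h4 h3, neg_zero]
  have h6 : -((1 - f) * u * (1 - f)) = 0 :=
    T.eq_zero_of_t (neg_nonneg.mpr h2) h5
  rw [neg_eq_zero] at h6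
  have e : u = f * u * f + (1 - f) * u * (1 - f) := by
    have a1 : f * u * f = u * f := by rw [hcu.eq, mul_assoc, hp.isIdempotentElem.eq]
    have a2 : (1 - f) * u * (1 - f) = u - u * f := by
      rw [sub_mul, one_mul, mul_sub, mul_one, sub_mul, a1, hcu.eq]
      abel
    rw [a1, a2]; abel
  rw [e, h6, add_zero]
  exact h1

/-- Limit of `E_k`-images: if `t(b_n x) → t(b' x)` for all `x`, `b_n` self-adjoint, then `E k b'` is
self-adjoint, and it is `≥ 0` (resp. `≤ c`) if all `b_n` are. -/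
theorem TF.E_wlim_sa {b : ℕ → A} {b' : A}
    (h : ∀ x : A, Tendsto (fun n => T.t (b n * x)) (hyperfilter ℕ : Filter ℕ)
      (nhds (T.t (b' * x)))) (hs : ∀ n, IsSelfAdjoint (b n)) (k : ℕ) :
    IsSelfAdjoint (T.E k b') := by
  have key : T.E k b' = star (T.E k b') := by
    refine T.E_eq (star_mem (T.E_mem k b')) fun y hy => ?_
    have e1 : T.t (star (T.E k b') * y) = T.t (b' * star y) := by
      rw [← T.E_spec k b' (star y) (star_mem hy), ← T.t_star (star (T.E k b') * y), star_mul,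
        star_star, T.t_comm]
    rw [e1]
    have l1 := h (star y)
    have l2 := h y
    have e2 : (fun n => T.t (b n * star y)) = fun n => T.t (b n * y) := by
      funext n
      rw [← T.t_star (b n * star y), star_mul, star_star, (hs n).star_eq, T.t_comm]
    rw [e2] at l1
    exact tendsto_nhds_unique l1 l2
  exact key.symm

theorem TF.E_wlim_nonneg {b : ℕ → A} {b' : A}
    (h : ∀ x : A, Tendsto (fun n => T.t (b n * x)) (hyperfilter ℕ : Filter ℕ)
      (nhds (T.t (b' * x)))) (hs : ∀ n, 0 ≤ b n) (k : ℕ) :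
    0 ≤ T.E k b' := by
  refine TF.nonneg_of_t (T.E_mem k b')
    (TF.E_wlim_sa h (fun n => IsSelfAdjoint.of_nonneg (hs n)) k) fun x hx hx0 => ?_
  rw [T.E_spec k b' x hx]
  exact ge_of_tendsto' (h x) fun n => T.t_mul_nonneg (hs n) hx0

theorem TF.E_wlim_le {b : ℕ → A} {b' : A} {c : ℝ}
    (h : ∀ x : A, Tendsto (fun n => T.t (b n * x)) (hyperfilter ℕ : Filter ℕ)
      (nhds (T.t (b' * x)))) (hs : ∀ n, 0 ≤ b n) (hc : ∀ n, b n ≤ c • (1 : A)) (k : ℕ) :
    T.E k b' ≤ c • (1 : A) := by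
  rw [← sub_nonneg]
  have hsa := TF.E_wlim_sa h (fun n => IsSelfAdjoint.of_nonneg (hs n)) k
  refine TF.nonneg_of_t (k := k) (sub_mem (T.real_smul_mem c (one_mem _)) (T.E_mem k b'))
    ((IsSelfAdjoint.smul (IsSelfAdjoint.all c) (IsSelfAdjoint.one A)).sub hsa) fun x hx hx0 => ?_
  rw [sub_mul, map_sub, T.E_spec k b' x hx, sub_nonneg]
  exact le_of_tendsto' (h x) fun n => T.t_mul_mono (hc n) hx0

/-- The weak limit of a martingale `x` projects to `x k`: `t(x_n y) = t(x_k y)` for `y ∈ F k`,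
`n ≥ k`. -/
theorem TF.E_wlim_mart {x : ℕ → A} (hx : Mart T x) {b' : A}
    (h : ∀ y : A, Tendsto (fun n => T.t (x n * y)) (hyperfilter ℕ : Filter ℕ)
      (nhds (T.t (b' * y)))) (k : ℕ) : T.E k b' = x k := by
  refine T.E_eq (hx.mem k) fun y hy => ?_
  have l1 := h y
  have l2 : Tendsto (fun n => T.t (x n * y)) (hyperfilter ℕ : Filter ℕ)
      (nhds (T.t (x k * y))) := by
    refine tendsto_const_nhds.congr' ?_
    refine Filter.Eventually.filter_mono Nat.hyperfilter_le_atTop ?_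
    filter_upwards [eventually_ge_atTop k] with n hn
    rw [← hx.E_le hn, T.E_spec k (x n) y hy]
  exact tendsto_nhds_unique l2 l1

end GD64
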