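import Pool.Agent.GD64.Proj

/-!
# GD64/WeakProj: from a resolvent to a projection

`W` a unit in `F M`, `A0 = W - 1`, `c = 1 - W⁻¹ = A0 W⁻¹`.
Let `f` be the cut of `c* c` at `1/4`, `p' = 1 - f`: `p' c* c p' ≤ p'/4`,
`t(1-p') ≤ 4 t(c* c)`. `g = (1-c) p' = W⁻¹ p'`. From `c + c* ≤ 1/2 + 2 c* c`:
`g* g ≥ p' - p'/2 - 2 p' c* c p' + p' c* c p' ≥ p'/4`. `h = g* g + (1-p')` is `≥ 1/4`, invertible,
`s = h⁻¹ ≤ 4` commutes with `p'`, `s (1-p') = 1-p'`, and `p = g s g*` is a projection with
`t(p) = t(s g* g) = t(1 - s(1-p')) = t(p')`.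
`A0 g = A0 W⁻¹ p' = c p'`, so `A0 p = c p' s g*` and
`t(|A0 p|²) = t(c p' s g* g s p' c*) ≤ 4 t(c p' c*) ≤ 4 t(c* c)` (`s g* g s ≤ s ≤ 4`).
Membership in `F M`: `inv_mem`.
-/

namespace GD64

/-- inverses stay in the subalgebra: `E M (x⁻¹) x = E M (x⁻¹ x) = 1`. -/
theorem TF.inv_mem {A : Type*} [CStarAlgebra A] [PartialOrder A] [StarOrderedRing A] (T : TF A)
    {n : ℕ} {x : Aˣ} (hx : (x : A) ∈ T.F n) : ((x⁻¹ : Aˣ) : A) ∈ T.F n := by
  have h1 : T.E n (((x⁻¹ : Aˣ) : A) * (x : A)) = T.E n ((x⁻¹ : Aˣ) : A) * (x : A) :=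
    T.E_mul_right hx _
  rw [x.inv_mul, T.E_one] at h1
  have h2 : T.E n ((x⁻¹ : Aˣ) : A) = ((x⁻¹ : Aˣ) : A) := by
    calc T.E n ((x⁻¹ : Aˣ) : A) = T.E n ((x⁻¹ : Aˣ) : A) * ((x : A) * ((x⁻¹ : Aˣ) : A)) := by
          rw [x.mul_inv, mul_one]
      _ = ((x⁻¹ : Aˣ) : A) := by rw [← mul_assoc, ← h1, one_mul]
  rw [← h2]
  exact T.E_mem n _

theorem TF.weak_proj {A : Type*} [CStarAlgebra A] [PartialOrder A] [StarOrderedRing A]
    (T : TF A) {M : ℕ} (W : Aˣ) (hW : (W : A) ∈ T.F M) :
    ∃ p ∈ T.F M, IsStarProjection p ∧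
      T.t (1 - p) ≤
        4 * T.t (star (1 - ((W⁻¹ : Aˣ) : A)) * (1 - ((W⁻¹ : Aˣ) : A))) ∧
      T.t (p * (star ((W : A) - 1) * ((W : A) - 1)) * p) ≤
        4 * T.t (star (1 - ((W⁻¹ : Aˣ) : A)) * (1 - ((W⁻¹ : Aˣ) : A))) := by
  set c : A := 1 - ((W⁻¹ : Aˣ) : A) with hc
  have hWi : ((W⁻¹ : Aˣ) : A) = 1 - c := by rw [hc]; abel
  have hcm : c ∈ T.F M := sub_mem (one_mem _) (T.inv_mem hW)
  have hG : 0 ≤ star c * c := star_mul_self_nonneg c
  obtain ⟨p', hp'm, hp', -, hpG, -, hpt⟩ :=
    T.cheb hG (mul_mem (star_mem hcm) hcm) (by norm_num : (0 : ℝ) < 1 / 4)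
  have hidem : p' * p' = p' := hp'.isIdempotentElem.eq
  have hst : star p' = p' := hp'.isSelfAdjoint.star_eq
  have hpt' : T.t (1 - p') ≤ 4 * T.t (star c * c) := by
    calc T.t (1 - p') ≤ T.t (star c * c) / (1 / 4) := hpt
      _ = 4 * T.t (star c * c) := by ring
  have hq0 : (1 - p') * p' = 0 := by rw [sub_mul, one_mul, hidem, sub_self]
  have hq0' : p' * (1 - p') = 0 := by rw [mul_sub, mul_one, hidem, sub_self]
  have hqq : (1 - p') * (1 - p') = 1 - p' := by rw [mul_sub, hq0, mul_one, sub_zero]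
  have hqst : star (1 - p') = 1 - p' := by rw [star_sub, star_one, hst]
  obtain ⟨g, hg⟩ : ∃ g : A, g = (1 - c) * p' := ⟨_, rfl⟩
  have hgp : g * p' = g := by rw [hg, mul_assoc, hidem]
  have hgq : g * (1 - p') = 0 := by rw [hg, mul_assoc, hq0', mul_zero]
  have hpg : p' * star g = star g := by
    have := congrArg star hgp
    rwa [star_mul, hst] at this
  have hqg : (1 - p') * star g = 0 := by
    have := congrArg star hgq
    rwa [star_mul, hqst, star_zero] at this
  -- lower bound for g* g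
  have hsq : 0 ≤ (1 / 2 : ℝ) • (1 : A) - c - star c + (2 : ℝ) • (star c * c) := by
    have h1 : 0 ≤ star ((1 : A) - (2 : ℝ) • c) * ((1 : A) - (2 : ℝ) • c) :=
      star_mul_self_nonneg _
    have h2 : (1 / 2 : ℝ) • (star ((1 : A) - (2 : ℝ) • c) * ((1 : A) - (2 : ℝ) • c)) =
        (1 / 2 : ℝ) • (1 : A) - c - star c + (2 : ℝ) • (star c * c) := by
      rw [star_sub, star_one, star_smul, star_trivial, sub_mul, mul_sub, mul_sub, one_mul, one_mul,
        mul_one, smul_mul_smul_comm]
      module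
    rw [← h2]
    exact smul_nonneg (by norm_num) h1
  have hgg : star g * g = p' * ((1 : A) - c - star c + star c * c) * p' := by
    rw [hg, star_mul, hst, star_sub, star_one]
    noncomm_ring
  have hgglow : (1 / 4 : ℝ) • p' ≤ star g * g := by
    have h1 : 0 ≤ p' * ((1 / 2 : ℝ) • (1 : A) - c - star c + (2 : ℝ) • (star c * c)) * p' :=
      proj_conj_nonneg hp' hsq
    have h2 : p' * ((1 / 2 : ℝ) • (1 : A) - c - star c + (2 : ℝ) • (star c * c)) * p' =
        star g * g - (1 / 2 : ℝ) • p' + p' * (star c * c) * p' := by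
      rw [hgg]
      have gen : ∀ x y : A, p' * ((1 / 2 : ℝ) • (1 : A) - x - y + (2 : ℝ) • (star c * c)) * p' =
          p' * ((1 : A) - x - y + star c * c) * p' - (1 / 2 : ℝ) • p' +
            p' * (star c * c) * p' := by
        intro x y
        have e1 : (1 / 2 : ℝ) • (1 : A) - x - y + (2 : ℝ) • (star c * c) =
            ((1 : A) - x - y + star c * c) - (1 / 2 : ℝ) • (1 : A) + star c * c := by
          module
        rw [e1, mul_add, mul_sub, add_mul, sub_mul, mul_smul_comm, mul_one, smul_mul_assoc, hidem]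
      exact gen c (star c)
    rw [h2] at h1
    have h3 : star g * g - (1 / 4 : ℝ) • p' =
        (star g * g - (1 / 2 : ℝ) • p' + p' * (star c * c) * p') +
          ((1 / 4 : ℝ) • p' - p' * (star c * c) * p') := by
      module
    rw [← sub_nonneg, h3]
    exact add_nonneg h1 (sub_nonneg.2 hpG)
  -- h
  set h : A := star g * g + (1 - p') with hh
  have hqnn : (0 : A) ≤ 1 - p' := by
    rw [← hqq]; nth_rewrite 1 [← hqst]; exact star_mul_self_nonneg _
  have hlow : (1 / 4 : ℝ) • (1 : A) ≤ h := by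
    have h1 : h - (1 / 4 : ℝ) • (1 : A) =
        (star g * g - (1 / 4 : ℝ) • p') + (3 / 4 : ℝ) • (1 - p') := by
      rw [hh]; module
    rw [← sub_nonneg, h1]
    exact add_nonneg (sub_nonneg.2 hgglow) (smul_nonneg (by norm_num) hqnn)
  have hhsa : star h = h := by
    rw [hh, star_add, star_mul, star_star, hqst]
  have hhu : IsUnit h := by
    apply isUnit_of_accretive (by norm_num : (0 : ℝ) < 1 / 2)
    have h1 : h + star h - (1 / 2 : ℝ) • (1 : A) = (2 : ℝ) • (h - (1 / 4 : ℝ) • (1 : A)) := by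
      rw [hhsa]; module
    rw [← sub_nonneg, h1]
    exact smul_nonneg (by norm_num) (sub_nonneg.2 hlow)
  obtain ⟨H, hH⟩ := hhu
  have hhm : h ∈ T.F M := by
    have hgm : g ∈ T.F M := by rw [hg]; exact mul_mem (sub_mem (one_mem _) hcm) hp'm
    exact add_mem (mul_mem (star_mem hgm) hgm) (sub_mem (one_mem _) hp'm)
  set s : A := ((H⁻¹ : Aˣ) : A) with hs
  have hsm : s ∈ T.F M := T.inv_mem (by rw [hH]; exact hhm)
  have hsh : s * h = 1 := by rw [hs, ← hH]; exact H.inv_mul
  have hhs : h * s = 1 := by rw [hs, ← hH]; exact H.mul_inv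
  have hssa : star s = s := by
    have h1 : star s * h = 1 := by
      have := congrArg star hhs
      rwa [star_mul, hhsa, star_one] at this
    calc star s = star s * (h * s) := by rw [hhs, mul_one]
      _ = s := by rw [← mul_assoc, h1, one_mul]
  have hhq : h * (1 - p') = 1 - p' := by
    rw [hh, add_mul, hqq, mul_assoc, hgq, mul_zero, zero_add]
  have hqh : (1 - p') * h = 1 - p' := by
    rw [hh, mul_add, hqq, ← mul_assoc, hqg, zero_mul, zero_add]
  have hsq' : s * (1 - p') = 1 - p' := by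
    calc s * (1 - p') = s * (h * (1 - p')) := by rw [hhq]
      _ = 1 - p' := by rw [← mul_assoc, hsh, one_mul]
  have hqs' : (1 - p') * s = 1 - p' := by
    calc (1 - p') * s = ((1 - p') * h) * s := by rw [hqh]
      _ = 1 - p' := by rw [mul_assoc, hhs, mul_one]
  have hggh : star g * g = h - (1 - p') := by rw [hh]; abel
  -- s g* g s = s - (1 - p')
  have hsggs : s * (star g * g) * s = s - (1 - p') := by
    rw [hggh, mul_sub, sub_mul, hsh, one_mul, hsq', hqs']
  -- the projection
  set p : A := g * s * star g with hp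
  have hpst : star p = p := by
    rw [hp, star_mul, star_mul, star_star, hssa, mul_assoc]
  have hpp : p * p = p := by
    have e1 : p * p = g * (s * (star g * g) * s) * star g := by
      rw [hp]; simp only [mul_assoc]
    rw [e1, hsggs, mul_sub, sub_mul, hgq, zero_mul, sub_zero]
  have hpP : IsStarProjection p := ⟨hpp, hpst⟩
  have hgm : g ∈ T.F M := by rw [hg]; exact mul_mem (sub_mem (one_mem _) hcm) hp'm
  have hpm : p ∈ T.F M := mul_mem (mul_mem hgm hsm) (star_mem hgm)
  refine ⟨p, hpm, hpP, ?_, ?_⟩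
  · have e1 : T.t p = T.t p' := by
      have e2 : T.t p = T.t (s * (star g * g)) := by
        rw [hp, mul_assoc, T.t_comm, mul_assoc]
      have e3 : s * (star g * g) = p' := by
        rw [hggh, mul_sub, hsh, hsq']; abel
      rw [e2, e3]
    rw [map_sub, e1, ← map_sub]
    exact hpt'
  · -- A0 g = c p'
    have hA0g : ((W : A) - 1) * g = c * p' := by
      rw [hg, ← mul_assoc, sub_mul, one_mul, ← hWi, W.mul_inv, hWi]
      congr 1; abel
    set x : A := ((W : A) - 1) * p with hx
    have hx' : x = c * p' * s * star g := by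
      rw [hx, hp, ← mul_assoc, ← mul_assoc, hA0g]
    have e1 : p * (star ((W : A) - 1) * ((W : A) - 1)) * p = star x * x := by
      rw [hx, star_mul, hpst]; simp only [mul_assoc]
    have e2 : x * star x = c * (p' * s * p') * star c := by
      have e3 : star x = g * s * p' * star c := by
        rw [hx', star_mul, star_mul, star_mul, star_star, hssa, hst]
        simp only [mul_assoc]
      have e4 : x * star x = c * p' * (s * (star g * g) * s) * p' * star c := by
        rw [e3, hx']; simp only [mul_assoc]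
      have e5 : c * p' * (s - (1 - p')) * p' * star c = c * (p' * s * p') * star c := by
        have e6 : p' * (s - (1 - p')) = p' * s := by rw [mul_sub, hq0', sub_zero]
        rw [mul_assoc c, e6]; simp only [mul_assoc]
      rw [e4, hsggs, e5]
    rw [e1, T.t_comm, e2]
    -- s ≤ 4
    have hs4 : s ≤ (4 : ℝ) • (1 : A) := by
      have e6 : (4 : ℝ) • (1 : A) - s = s * ((4 : ℝ) • (h * h - (1 / 4 : ℝ) • h)) * s := by
        have e7 : s * ((4 : ℝ) • (h * h - (1 / 4 : ℝ) • h)) * s =
            (4 : ℝ) • ((s * h) * (h * s)) - (s * h) * s := by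
          rw [smul_sub, mul_sub, sub_mul, mul_smul_comm, smul_mul_assoc, smul_smul]
          simp only [mul_smul_comm, smul_mul_assoc, mul_assoc]
          norm_num
        rw [e7, hsh, hhs, one_mul, one_mul]
      rw [← sub_nonneg, e6]
      have e8 : 0 ≤ (4 : ℝ) • (h * h - (1 / 4 : ℝ) • h) := by
        apply smul_nonneg (by norm_num)
        have hh0 : 0 ≤ h := le_trans (smul_nonneg (by norm_num) zero_le_one) hlow
        have e9 : h * h - (1 / 4 : ℝ) • h = h * (h - (1 / 4 : ℝ) • (1 : A)) := by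
          rw [mul_sub, mul_smul_comm, mul_one]
        rw [e9]
        apply commute_mul_nonneg hh0 (sub_nonneg.2 hlow)
        exact (Commute.refl h).sub_right ((Commute.one_right h).smul_right _)
      have := star_left_conjugate_nonneg e8 s
      rwa [hssa] at this
    have e10 : c * (p' * s * p') * star c ≤ (4 : ℝ) • (c * p' * star c) := by
      have e11 : p' * s * p' ≤ (4 : ℝ) • p' := by
        have := proj_conj_mono hp' hs4
        rwa [mul_smul_comm, mul_one, smul_mul_assoc, hidem] at this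
      have := star_right_conjugate_le_conjugate e11 c
      rwa [mul_smul_comm, smul_mul_assoc] at this
    calc T.t (c * (p' * s * p') * star c) ≤ T.t ((4 : ℝ) • (c * p' * star c)) := T.t_mono e10
      _ = 4 * T.t (c * p' * star c) := by rw [map_smul, smul_eq_mul]
      _ = 4 * T.t (p' * (star c * c) * p') := by
          rw [T.t_proj_conj hp', T.t_comm (c * p'), mul_assoc]
      _ ≤ 4 * T.t (star c * c) := by
          have := T.t_proj_conj_le hp' hG
          linarith

end GD64
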